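import Pool.Agent.Lib.AS.SpecLG

/-!
# Cohomological dimension of total spaces
-/

set_option autoImplicit false

namespace AS

/-- **DIM.** -/
theorem pDIM (M : AllM) (hL3 : L3) (l0 : L0) (l6 : L6) (l7 : L7) : DIM := by
  intro X B _ _ Γ D E S f d m g hfb hg hi hyp C hC hCS n hn x
  have hfin : ((⊥ : Subgroup (B ≃ᵢ B)) : Set (B ≃ᵢ B)).Finite := by
    rw [Subgroup.coe_bot]
    exact Set.finite_singleton 1
  refine l6 B ⊥ S (mkTh M (hfb.sf hL3 S)) m ?_ d C ⟨hC, IvS.bot C, hCS⟩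
    (l7 B d C g (hg.mono hCS) (hi.mono hCS)) n hn x
  intro p hp j hj y
  have h1 : ∀ P : Set B, P = {p} → ∀ y : H Γ D j (ov E f P), y = 0 := by
    rintro P rfl y
    exact hyp p hp j hj y
  exact h1 _ (l0 B ⊥ S p hfin (IvS.bot S) hp).2.2 y

end AS
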