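import Pool.Agent.Lib.AS.SpecLG2

/-!
# The dimension theorem over a quotient
-/

set_option autoImplicit false

namespace AS

/-- **DIMb.** -/
theorem pDIMb (M : AllM) (hL3 : L3) (l6 : L6) (q1 : Q1) : DIMb := by
  intro X B _ _ Γ K D E Γ' D' S f d m h q hyp C hC hDm n hn x
  refine l6 B Γ' S (mkTh M (h.fb.sf hL3 S)) m ?_ d C hC hDm n hn x
  intro p hp j hj y
  by_cases hpD : p ∈ D'
  · have h1 : ov E f (orb Γ' p) ⊆ D := by
      rintro z ⟨hz, g, hg, hzg⟩
      rw [h.hD z hz, hzg]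
      exact h.okD'.inv g hg p hpD
    exact H_sub h1 y
  · have hs : {p} ⊆ orb Γ' p := by
      rintro z rfl
      exact ⟨1, Γ'.one_mem, rfl⟩
    have ho : ov E f {p} ⊆ ov E f (orb Γ' p) := fun z hz => ⟨hz.1, hs hz.2⟩
    have h1 := ((q1 X B Γ K D E Γ' D' S f h q p j ho hs hp).1 D h.fb.okD).1
    have key : ∀ z : H Γ D j (ov E f (orb Γ' p)), z = 0 := by
      intro z
      apply h1
      rw [hyp p hp hpD j hj (rk (D := D) q.le ho j z), map_zero]
    exact key y

end AS
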