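import Pool.Agent.Lib.AS.SpecLG

/-!
# AS, L0: orbits and their neighbourhoods
-/

set_option autoImplicit false

namespace AS

namespace L0x

variable {B : Type} [MetricSpace B]

theorem orb_eq (Γ : Subgroup (B ≃ᵢ B)) (p : B) : orb Γ p = (fun g : B ≃ᵢ B => g p) '' (Γ : Set (B ≃ᵢ B)) := by
  ext x
  constructor
  · rintro ⟨g, hg, rfl⟩
    exact ⟨g, hg, rfl⟩
  · rintro ⟨g, hg, rfl⟩
    exact ⟨g, hg, rfl⟩

theorem nb_eq (Γ : Subgroup (B ≃ᵢ B)) (p : B) (ρ : ℝ) :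
    nb Γ p ρ = ⋃ g ∈ (Γ : Set (B ≃ᵢ B)), Metric.closedBall (g p) ρ := by
  ext x
  simp only [Set.mem_iUnion, Metric.mem_closedBall, exists_prop]
  rfl

end L0x

open L0x

theorem pL0 : L0 := by
  intro B _ Γ S p hfin hS hp
  have h1 : (orb Γ p).Finite := by
    rw [orb_eq]
    exact hfin.image _
  refine ⟨⟨⟨h1.isCompact, ?_, ?_⟩, h1⟩, fun ρ => ⟨?_, ?_⟩, ?_⟩
  · rintro g hg _ ⟨g', hg', rfl⟩
    exact ⟨g * g', Γ.mul_mem hg hg', rfl⟩
  · rintro _ ⟨g, hg, rfl⟩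
    exact hS g hg p hp
  · rw [nb_eq]
    exact hfin.isClosed_biUnion fun g _ => Metric.isClosed_closedBall
  · rintro g hg x ⟨g', hg', hx⟩
    refine ⟨g * g', Γ.mul_mem hg hg', ?_⟩
    rw [show (g * g') p = g (g' p) from rfl, g.dist_eq]
    exact hx
  · ext x
    constructor
    · rintro ⟨g, hg, rfl⟩
      rw [Subgroup.mem_bot] at hg
      rw [hg]
      rfl
    · intro hx
      exact ⟨1, Subgroup.one_mem _, hx⟩

end AS
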