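import Pool.Agent.Lib.AS.SpecLG

/-!
# Alexander-Spanier cohomology, L1: covering induction
-/

set_option autoImplicit false

namespace AS

namespace L1x

theorem self_nb {B : Type} [MetricSpace B] (Γ : Subgroup (B ≃ᵢ B)) {x p : B} {ρ : ℝ}
    (h : dist x p ≤ ρ) : x ∈ nb Γ p ρ := ⟨1, Γ.one_mem, h⟩

end L1x

open L1x in
theorem pL1 (h0 : L0) : L1 := by
  classical
  intro B _ Γ S C Pr hΓ hC hE hU hloc
  have hnb : ∀ p ∈ C, ∀ ρ, IsClosed (nb Γ p ρ) ∧ IvS Γ (nb Γ p ρ) := fun p hp =>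
    (h0 B Γ C p hΓ hC.inv hp).2.1
  choose! ρ hρ using hloc
  obtain ⟨t, ht, hcov⟩ := hC.cpt.elim_nhds_subcover (fun x => Metric.ball x (ρ x))
    fun x hx => Metric.ball_mem_nhds x (hρ x hx).1
  have hA : ∀ p ∈ C, Ad Γ S (C ∩ nb Γ p (ρ p)) := fun p hp =>
    ⟨hC.cpt.inter_right (hnb p hp _).1, hC.inv.inter (hnb p hp _).2,
      Set.inter_subset_left.trans hC.sub⟩
  have key : ∀ t' : Finset B, (∀ x ∈ t', x ∈ C) →
      Ad Γ S (⋃ p ∈ t', C ∩ nb Γ p (ρ p)) ∧ Pr (⋃ p ∈ t', C ∩ nb Γ p (ρ p)) := by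
    intro t'
    induction t' using Finset.induction_on with
    | empty =>
      intro _
      have e : (⋃ p ∈ (∅ : Finset B), C ∩ nb Γ p (ρ p)) = ∅ := by simp
      rw [e]
      exact ⟨Ad.empty Γ S, hE⟩
    | insert a t' _ ih =>
      intro ht'
      have haC : a ∈ C := ht' a (Finset.mem_insert_self a t')
      obtain ⟨i1, i2⟩ := ih fun x hx => ht' x (Finset.mem_insert_of_mem hx)
      rw [Finset.set_biUnion_insert]
      refine ⟨(hA a haC).union i1, hU _ _ (hA a haC) i1 Set.inter_subset_left ?_ (hρ a haC).2 i2⟩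
      exact Set.iUnion₂_subset fun _ _ => Set.inter_subset_left
  have e : (⋃ p ∈ t, C ∩ nb Γ p (ρ p)) = C := by
    refine Set.Subset.antisymm (Set.iUnion₂_subset fun _ _ => Set.inter_subset_left) ?_
    intro x hx
    obtain ⟨p, hp, hxp⟩ := Set.mem_iUnion₂.mp (hcov hx)
    exact Set.mem_iUnion₂.mpr ⟨p, hp, hx, self_nb Γ (Metric.mem_ball.mp hxp).le⟩
  have := (key t ht).2
  rwa [e] at this

end AS
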