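import Pool.Agent.Lib.AS.SpecLG

/-!
# The local-to-global principle (`L2`)
-/

set_option autoImplicit false

namespace AS

namespace L2Aux

variable {B : Type} [MetricSpace B] {Γ : Subgroup (B ≃ᵢ B)} {S : Set B} {h k : CTh Γ S}

/-- injectivity in the degree `n` -/
def Inj (T : CMor h k) (n : ℕ) : Prop :=
  ∀ C : Set B, Ad Γ S C → ∀ x : h.h n C, T.T n C x = 0 → x = 0

/-- surjectivity in the degree `n` -/
def Sur (T : CMor h k) (n : ℕ) : Prop :=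
  ∀ C : Set B, Ad Γ S C → ∀ y : k.h n C, ∃ x : h.h n C, T.T n C x = y

theorem orb_sub {C : Set B} (hC : IvS Γ C) {p : B} (hp : p ∈ C) : orb Γ p ⊆ C := by
  rintro x ⟨g, hg, rfl⟩
  exact hC g hg p hp

theorem ad_nb (hL0 : L0) (hΓ : (Γ : Set (B ≃ᵢ B)).Finite) (hS : IvS Γ S) {C : Set B}
    (hC : Ad Γ S C) {p : B} (hp : p ∈ S) (ρ : ℝ) : Ad Γ S (C ∩ nb Γ p ρ) := by
  obtain ⟨-, h1, -⟩ := hL0 B Γ S p hΓ hS hp
  exact ⟨hC.cpt.inter_right (h1 ρ).1, hC.inv.inter (h1 ρ).2, Set.inter_subset_left.trans hC.sub⟩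

theorem close {C : Set B} {p : B} {ρ ρ' : ℝ} (hρ : ρ < ρ') :
    ∀ y ∈ C ∩ nb Γ p ρ, ∃ b ∈ orb Γ p, dist y b < ρ' := by
  rintro y ⟨-, g, hg, hd⟩
  exact ⟨g p, ⟨g, hg, rfl⟩, hd.trans_lt hρ⟩

theorem orb_sub_nb {C : Set B} (hC : IvS Γ C) {p : B} (hp : p ∈ C) {ρ : ℝ} (hρ : 0 ≤ ρ) :
    orb Γ p ⊆ C ∩ nb Γ p ρ := by
  rintro x ⟨g, hg, rfl⟩
  exact ⟨hC g hg p hp, g, hg, by rw [dist_self]; exact hρ⟩

theorem inj_step (hL0 : L0) (hL1 : L1) (hΓ : (Γ : Set (B ≃ᵢ B)).Finite) (hS : IvS Γ S)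
    (T : CMor h k) (n : ℕ) (hO : ∀ p ∈ S, ∀ x : h.h n (orb Γ p), T.T n (orb Γ p) x = 0 → x = 0)
    (hU : ∀ (A A' : Set B) (c : Cf Γ S A A' (A ∩ A') (A ∪ A')) (z : h.h n (A ∪ A')),
      T.T n (A ∪ A') z = 0 → h.res c.AU n z = 0 → h.res c.A'U n z = 0 → z = 0) : Inj T n := by
  intro C hC x hx
  have key := hL1 B Γ S C (fun A => ∀ hA : A ⊆ C, h.res hA n x = 0) hΓ hC
    (fun hA => h.empty n _) ?_ ?_
  · rw [← h.res_self (Set.Subset.refl C) n x]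
    exact key _
  · intro A A' hA hA' hAC hA'C h1 h2 hUC
    have c : Cf Γ S A A' (A ∩ A') (A ∪ A') := ⟨hA, hA', rfl, rfl⟩
    refine hU A A' c _ ?_ ?_ ?_
    · rw [← T.nat c.adU hC hUC, hx, k.res_zero]
    · rw [h.res_res c.AU hUC hAC]
      exact h1 hAC
    · rw [h.res_res c.A'U hUC hA'C]
      exact h2 hA'C
  · intro p hp
    have hpS := hC.sub hp
    obtain ⟨⟨hAo, -⟩, -, -⟩ := hL0 B Γ S p hΓ hS hpS
    have hoC : orb Γ p ⊆ C := orb_sub hC.inv hp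
    have h0 : h.res hoC n x = 0 := hO p hpS _ (by rw [← T.nat hAo hC hoC, hx, k.res_zero])
    obtain ⟨ρ, hρ, h1⟩ := h.c1 hoC hAo hC n x h0
    refine ⟨ρ / 2, by linarith, fun hA => ?_⟩
    exact h1 _ hA (ad_nb hL0 hΓ hS hC hpS _) (close (by linarith))

theorem sur_step (hL0 : L0) (hL1 : L1) (hΓ : (Γ : Set (B ≃ᵢ B)).Finite) (hS : IvS Γ S)
    (T : CMor h k) (n : ℕ) (hI : Inj T n)
    (hO : ∀ p ∈ S, ∀ y : k.h n (orb Γ p), ∃ x, T.T n (orb Γ p) x = y)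
    (hU : ∀ (A A' : Set B) (c : Cf Γ S A A' (A ∩ A') (A ∪ A')) (w : k.h n (A ∪ A')),
      k.res c.AU n w = 0 → k.res c.A'U n w = 0 → ∃ v, T.T n (A ∪ A') v = w) : Sur T n := by
  intro C hC y
  have key := hL1 B Γ S C (fun A => ∀ hA : A ⊆ C, ∃ x, T.T n A x = k.res hA n y) hΓ hC
    (fun hA => ⟨0, by rw [k.empty n (T.T n ∅ 0), k.empty n (k.res hA n y)]⟩) ?_ ?_
  · obtain ⟨x, hx⟩ := key (Set.Subset.refl C)
    exact ⟨x, by rw [hx, k.res_self]⟩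
  · intro A A' hA hA' hAC hA'C h1 h2 hUC
    have c : Cf Γ S A A' (A ∩ A') (A ∪ A') := ⟨hA, hA', rfl, rfl⟩
    obtain ⟨x, hx⟩ := h1 hAC
    obtain ⟨x', hx'⟩ := h2 hA'C
    have hIC : A ∩ A' ⊆ C := c.IA.trans hAC
    have e1 : h.res c.IA n x = h.res c.IA' n x' := by
      rw [← sub_eq_zero]
      apply hI _ c.adI
      rw [T.sub c.adI, ← T.nat c.adI hA, ← T.nat c.adI hA', hx, hx', k.res_res c.IA hAC hIC,
        k.res_res c.IA' hA'C hIC, sub_self]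
    obtain ⟨z, hz, hz'⟩ := h.ex3 c n x x' e1
    have w1 : k.res c.AU n (k.res hUC n y - T.T n (A ∪ A') z) = 0 := by
      rw [k.res_sub, T.nat hA c.adU, hz, hx, k.res_res c.AU hUC hAC, sub_self]
    have w2 : k.res c.A'U n (k.res hUC n y - T.T n (A ∪ A') z) = 0 := by
      rw [k.res_sub, T.nat hA' c.adU, hz', hx', k.res_res c.A'U hUC hA'C, sub_self]
    obtain ⟨v, hv⟩ := hU A A' c _ w1 w2
    refine ⟨z + v, ?_⟩
    rw [T.add c.adU, hv, add_sub_cancel]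
  · intro p hp
    have hpS := hC.sub hp
    obtain ⟨⟨hAo, -⟩, -, -⟩ := hL0 B Γ S p hΓ hS hpS
    have hoC : orb Γ p ⊆ C := orb_sub hC.inv hp
    obtain ⟨x₀, hx₀⟩ := hO p hpS (k.res hoC n y)
    obtain ⟨ρ, hρ, h1⟩ := h.c2 hoC hAo hC n x₀
    have hN₁ := ad_nb hL0 hΓ hS hC hpS (ρ / 2)
    have hoN₁ : orb Γ p ⊆ C ∩ nb Γ p (ρ / 2) := orb_sub_nb hC.inv hp (by linarith)
    have hN₁C : C ∩ nb Γ p (ρ / 2) ⊆ C := Set.inter_subset_left
    obtain ⟨x₁, hx₁⟩ := h1 _ hoN₁ hN₁C hN₁ (close (by linarith))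
    have h0 : k.res hoN₁ n (T.T n _ x₁ - k.res hN₁C n y) = 0 := by
      rw [k.res_sub, T.nat hAo hN₁, hx₁, hx₀, k.res_res hoN₁ hN₁C hoC, sub_self]
    obtain ⟨ρ', hρ', h2⟩ := k.c1 hoN₁ hAo hN₁ n _ h0
    refine ⟨min (ρ / 2) (ρ' / 2), lt_min (by linarith) (by linarith), fun hA => ?_⟩
    have hNN : C ∩ nb Γ p (min (ρ / 2) (ρ' / 2)) ⊆ C ∩ nb Γ p (ρ / 2) := by
      rintro z ⟨hz, g, hg, hd⟩
      exact ⟨hz, g, hg, hd.trans (min_le_left _ _)⟩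
    have hN := ad_nb hL0 hΓ hS hC hpS (min (ρ / 2) (ρ' / 2))
    have h3 := h2 _ hNN hN (close (by
      have := min_le_right (ρ / 2) (ρ' / 2)
      linarith))
    refine ⟨h.res hNN n x₁, ?_⟩
    rw [k.res_sub, k.res_res hNN hN₁C hA, sub_eq_zero] at h3
    rw [← T.nat hN hN₁, h3]

end L2Aux

open L2Aux in
theorem pfL2 (hL0 : L0) (hL1 : L1) : L2 := by
  intro B _ Γ S h k T N hΓ hS hbij hinj
  have hIO : ∀ n ≤ N, ∀ p ∈ S, ∀ x : h.h n (orb Γ p), T.T n (orb Γ p) x = 0 → x = 0 := by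
    intro n hn p hp x hx
    obtain ⟨⟨hAo, -⟩, -, -⟩ := hL0 B Γ S p hΓ hS hp
    have hi : Function.Injective (T.T n (orb Γ p)) := by
      rcases hn.lt_or_eq with hn | rfl
      · exact (hbij p hp n hn).1
      · exact hinj p hp
    exact hi (hx.trans (T.zero hAo n).symm)
  have hSO : ∀ n < N, ∀ p ∈ S, ∀ y : k.h n (orb Γ p), ∃ x, T.T n (orb Γ p) x = y :=
    fun n hn p hp y => (hbij p hp n hn).2 y
  have main : ∀ n, n ≤ N → Inj T n ∧ (n < N → Sur T n) := by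
    intro n
    induction n with
    | zero =>
      intro hn
      have hI : Inj T 0 := inj_step hL0 hL1 hΓ hS T 0 (hIO 0 hn) fun A A' c z _ h1 h2 =>
        h.ex0 c z h1 h2
      refine ⟨hI, fun hn' => sur_step hL0 hL1 hΓ hS T 0 hI (hSO 0 hn') fun A A' c w h1 h2 => ?_⟩
      exact ⟨0, by rw [T.zero c.adU, k.ex0 c w h1 h2]⟩
    | succ m ih =>
      intro hn
      obtain ⟨hIm, hSm⟩ := ih (by omega)
      have hSm := hSm (by omega)
      have hI : Inj T (m + 1) := by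
        refine inj_step hL0 hL1 hΓ hS T (m + 1) (hIO (m + 1) hn) fun A A' c z h0 h1 h2 => ?_
        obtain ⟨u, rfl⟩ := h.ex1 c m z h1 h2
        rw [← T.del c] at h0
        obtain ⟨a, b, hab⟩ := k.ex2 c m _ h0
        obtain ⟨a', rfl⟩ := hSm A c.adA a
        obtain ⟨b', rfl⟩ := hSm A' c.adA' b
        have e : u - (h.res c.IA m a' + h.res c.IA' m b') = 0 := by
          apply hIm _ c.adI
          rw [T.sub c.adI, T.add c.adI, ← T.nat c.adI c.adA, ← T.nat c.adI c.adA', hab, sub_self]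
        rw [sub_eq_zero.1 e]
        exact h.ex2' c m a' b'
      refine ⟨hI, fun hn' => sur_step hL0 hL1 hΓ hS T (m + 1) hI (hSO _ hn')
        fun A A' c w h1 h2 => ?_⟩
      obtain ⟨v, rfl⟩ := k.ex1 c m w h1 h2
      obtain ⟨v', rfl⟩ := hSm _ c.adI v
      exact ⟨h.del A A' (A ∩ A') (A ∪ A') m v', (T.del c m v').symm⟩
  intro C hC
  have hinj' : ∀ n ≤ N, Function.Injective (T.T n C) := by
    intro n hn x y hxy
    rw [← sub_eq_zero]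
    apply (main n hn).1 C hC
    rw [T.sub hC, hxy, sub_self]
  exact ⟨fun n hn => ⟨hinj' n hn.le, fun y => (main n hn.le).2 hn C hC y⟩, hinj' N le_rfl⟩

end AS
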