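import Pool.Agent.Lib.AS.Mk

/-!
# The tube lemma
-/

set_option autoImplicit false

namespace AS

/-- **L3.** The tube lemma. -/
theorem pL3 (h1 : M1) : L3 := by
  intro X B _ _ E f A hE hf hA ρ hρ
  have hKc : IsCompact (E ∩ ⋂ e ∈ ov E f A, {x : X | ρ ≤ dist x e}) := by
    apply hE.inter_right
    apply isClosed_biInter
    intro e _
    exact isClosed_le continuous_const (continuous_id.dist continuous_const)
  have hfK : IsCompact (f '' (E ∩ ⋂ e ∈ ov E f A, {x : X | ρ ≤ dist x e})) :=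
    hKc.image_of_continuousOn (hf.mono fun x hx => hx.1)
  obtain ⟨ε, hε, h2⟩ := h1 B _ A hfK hA 1 one_pos
  refine ⟨ε, hε, ?_⟩
  rintro x hx ⟨b, hb, hd⟩
  by_contra hcon
  have hcon' : ∀ e ∈ ov E f A, ρ ≤ dist x e := fun e he => not_lt.mp fun h => hcon ⟨e, he, h⟩
  have hxK : x ∈ E ∩ ⋂ e ∈ ov E f A, {x : X | ρ ≤ dist x e} :=
    ⟨hx, Set.mem_iInter₂.mpr fun e he => hcon' e he⟩
  obtain ⟨z, ⟨⟨y, hy, hyz⟩, hz⟩, _⟩ := h2 (f x) ⟨x, hxK, rfl⟩ b hb hd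
  have h3 : ρ ≤ dist y y := by
    have h4 := Set.mem_iInter₂.mp hy.2 y ⟨hy.1, by change f y ∈ A; rw [hyz]; exact hz⟩
    exact h4
  rw [dist_self] at h3
  linarith

end AS
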