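import Pool.Agent.Lib.AS.SpecLG

/-!
# Pairs with empty second member
-/

set_option autoImplicit false

namespace AS

namespace L4x

variable {X : Type} [MetricSpace X] {Γ : Subgroup (X ≃ᵢ X)} {D C : Set X} {n : ℕ}

theorem bnd_of_empty (h : C ∩ D = ∅) {φ : List X → ZMod 2} (hφ : φ ∈ Bnd Γ ∅ n C) :
    φ ∈ Bnd Γ D n C := by
  obtain ⟨h1, ψ, h2, _, h4, h5⟩ := hφ
  refine ⟨h1, ψ, h2, ?_, h4, h5⟩
  rcases n with _ | n
  · exact Z0.nil.mpr h4
  · exact Z0.empty n h ψ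

theorem cyc_of_empty (h : C ∩ D = ∅) {φ : List X → ZMod 2} (hφ : φ ∈ Cyc Γ ∅ n C) :
    φ ∈ Cyc Γ D n C :=
  ⟨hφ.1, Z0.empty n h φ, hφ.2.2⟩

theorem map_self (φ : List X → ZMod 2) : (fun l : List X => φ (l.map fun x => x)) = φ := by
  funext l
  rw [List.map_id']

end L4x

open L4x in
/-- **L4.** Pairs with empty second member. -/
theorem pL4 : L4 := by
  intro X _ Γ D C n h
  constructor
  · rw [injective_iff_map_eq_zero]
    intro x hx
    obtain ⟨φ, hφ, rfl⟩ := cl_surj x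
    rw [pull_cl, cl_eq_zero, map_self] at hx
    rw [cl_eq_zero]
    exact bnd_of_empty h hx
  · intro y
    obtain ⟨φ, hφ, rfl⟩ := cl_surj y
    refine ⟨cl φ (cyc_of_empty h hφ), ?_⟩
    rw [pull_cl, cl_eq_cl, map_self, add_self]
    exact (Bnd Γ ∅ n C).zero_mem

end AS
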