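import Pool.Agent.Lib.AS.SpecLG

/-!
# Alexander-Spanier cohomology, L5: minimal carriers (Zorn's lemma)
-/

set_option autoImplicit false

namespace AS

/-- some member of a chain of compact sets is close to the intersection -/
theorem L5x.close {B : Type} [MetricSpace B] {K : Set (Set B)} (hK : IsChain (· ⊆ ·) K)
    (hne : K.Nonempty) (hc : ∀ N ∈ K, IsCompact N) {ρ : ℝ} (hρ : 0 < ρ) :
    ∃ N ∈ K, ∀ y ∈ N, ∃ b ∈ ⋂₀ K, dist y b < ρ := by
  by_contra hcon
  push Not at hcon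
  have : Nonempty K := hne.to_subtype
  have hcl : IsClosed {y : B | ∀ b ∈ ⋂₀ K, ρ ≤ dist y b} := by
    have h1 : {y : B | ∀ b ∈ ⋂₀ K, ρ ≤ dist y b} = ⋂ b ∈ ⋂₀ K, {y : B | ρ ≤ dist y b} := by
      ext y
      simp
    rw [h1]
    exact isClosed_biInter fun b _ => isClosed_le continuous_const (continuous_id.dist continuous_const)
  obtain ⟨y, hy⟩ := IsCompact.nonempty_iInter_of_directed_nonempty_isCompact_isClosed
    (fun N : K => N.1 ∩ {y : B | ∀ b ∈ ⋂₀ K, ρ ≤ dist y b})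
    (by
      intro N N'
      rcases hK.total N.2 N'.2 with h | h
      · exact ⟨N, Set.Subset.refl _, Set.inter_subset_inter_left _ h⟩
      · exact ⟨N', Set.inter_subset_inter_left _ h, Set.Subset.refl _⟩)
    (fun N => by
      obtain ⟨y, hy, hy'⟩ := hcon N.1 N.2
      exact ⟨y, hy, hy'⟩)
    (fun N => (hc N.1 N.2).inter_right hcl)
    (fun N => (hc N.1 N.2).isClosed.inter hcl)
  rw [Set.mem_iInter] at hy
  have h1 : y ∈ ⋂₀ K := fun N hN => (hy ⟨N, hN⟩).1
  obtain ⟨N, hN⟩ := hne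
  have h2 := (hy ⟨N, hN⟩).2 y h1
  rw [dist_self] at h2
  exact absurd h2 (not_le.mpr hρ)

theorem pL5 : L5 := by
  intro B _ Γ S h n C x hC hx
  have hC0 : C ∈ {A : Set B | ∃ hA : A ⊆ C, Ad Γ S A ∧ h.res hA n x ≠ 0} := by
    refine ⟨Set.Subset.refl C, hC, ?_⟩
    rwa [h.res_self]
  obtain ⟨A, _, hmin⟩ := zorn_superset_nonempty
    {A : Set B | ∃ hA : A ⊆ C, Ad Γ S A ∧ h.res hA n x ≠ 0} (by
      intro K hKS hK hne
      have hsub : ⋂₀ K ⊆ C := by
        obtain ⟨N, hN⟩ := hne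
        obtain ⟨h1, _⟩ := hKS hN
        exact (Set.sInter_subset_of_mem hN).trans h1
      have hAd : Ad Γ S (⋂₀ K) := by
        refine ⟨?_, ?_, hsub.trans hC.sub⟩
        · apply hC.cpt.of_isClosed_subset _ hsub
          apply isClosed_sInter
          intro N hN
          obtain ⟨_, h2, _⟩ := hKS hN
          exact h2.cpt.isClosed
        · intro g hg y hy N hN
          obtain ⟨_, h2, _⟩ := hKS hN
          exact h2.inv g hg y (hy N hN)
      refine ⟨⋂₀ K, ⟨hsub, hAd, ?_⟩, fun N hN => Set.sInter_subset_of_mem hN⟩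
      intro h0
      obtain ⟨ρ, hρ, h1⟩ := h.c1 hsub hAd hC n x h0
      obtain ⟨N, hN, h2⟩ := L5x.close hK hne
        (fun N hN => (hKS hN).2.1.cpt) hρ
      obtain ⟨h3, h4, h5⟩ := hKS hN
      exact h5 (h1 N h3 h4 h2)) C hC0
  obtain ⟨hA, hAd, hres⟩ := hmin.1
  refine ⟨A, hA, hAd, hres, ?_⟩
  intro A' hA' hAd' hsub hne
  by_contra hcon
  exact hne (Set.Subset.antisymm hsub (hmin.2 ⟨hA', hAd', hcon⟩ hsub))

end AS
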