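import Pool.Agent.Lib.AS.SpecLG

/-!
# The dimension theorem for an arbitrary theory
-/

set_option autoImplicit false

namespace AS

namespace L6x

variable {B : Type} [MetricSpace B] {Γ : Subgroup (B ≃ᵢ B)} {S : Set B}

/-- a class which vanishes on two sets whose intersection has no cohomology in the previous degree -/
theorem step (h : CTh Γ S) {A A₁ A₂ : Set B} (c : Cf Γ S A₁ A₂ (A₁ ∩ A₂) A) (n : ℕ) (z : h.h n A)
    (h1 : h.res c.AU n z = 0) (h2 : h.res c.A'U n z = 0)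
    (hI : ∀ j, n = j + 1 → ∀ u : h.h j (A₁ ∩ A₂), u = 0) : z = 0 := by
  rcases n with _ | j
  · exact h.ex0 c z h1 h2
  · obtain ⟨u, rfl⟩ := h.ex1 c j z h1 h2
    rw [hI j rfl u, h.del_zero c]

/-- the common part of both cases -/
theorem common (l5 : L5) (h : CTh Γ S) {m : ℕ}
    (horb : ∀ p ∈ S, ∀ n, m ≤ n → ∀ x : h.h n (orb Γ p), x = 0) {C : Set B} (hC : Ad Γ S C) {n : ℕ}
    (hn : m ≤ n) (x : h.h n C)
    (hyp : ∀ A : Set B, Ad Γ S A → A ⊆ C → A.Nonempty → (∀ p, A ≠ orb Γ p) →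
      ∃ A₁ A₂ : Set B, IsCompact A₁ ∧ IvS Γ A₁ ∧ IsCompact A₂ ∧ IvS Γ A₂ ∧ A₁ ∪ A₂ = A ∧ A₁ ≠ A ∧
        A₂ ≠ A ∧ ∀ j, n = j + 1 → ∀ u : h.h j (A₁ ∩ A₂), u = 0) : x = 0 := by
  by_contra hx
  obtain ⟨A, hA, hAd, hne, hmin⟩ := l5 B Γ S h n C x hC hx
  have hAne : A.Nonempty := by
    rw [Set.nonempty_iff_ne_empty]
    rintro rfl
    exact hne (h.empty n _)
  have hno : ∀ p, A ≠ orb Γ p := by
    rintro p rfl
    have hp : p ∈ S := hAd.sub ⟨1, Γ.one_mem, rfl⟩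
    exact hne (horb p hp n hn _)
  obtain ⟨A₁, A₂, c1, i1, c2, i2, hU, n1, n2, hI⟩ := hyp A hAd hA hAne hno
  have s1 : A₁ ⊆ A := hU ▸ Set.subset_union_left
  have s2 : A₂ ⊆ A := hU ▸ Set.subset_union_right
  have hc : Cf Γ S A₁ A₂ (A₁ ∩ A₂) A :=
    ⟨⟨c1, i1, s1.trans hAd.sub⟩, ⟨c2, i2, s2.trans hAd.sub⟩, rfl, hU.symm⟩
  refine hne (step h hc n _ ?_ ?_ hI)
  · rw [h.res_res hc.AU hA (s1.trans hA)]
    exact hmin A₁ (s1.trans hA) hc.adA s1 n1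
  · rw [h.res_res hc.A'U hA (s2.trans hA)]
    exact hmin A₂ (s2.trans hA) hc.adA' s2 n2

end L6x

/-- **L6.** The dimension theorem for an arbitrary theory. -/
theorem pL6 (l5 : L5) : L6 := by
  intro B _ Γ S h m horb d
  induction d with
  | zero =>
    intro C hC hD n hn x
    refine L6x.common l5 h horb hC hn x fun A hAd hA hne hno => ?_
    obtain ⟨A₁, A₂, c1, i1, c2, i2, hU, n1, n2, hI⟩ := hD A hAd.cpt hAd.inv hA hne hno
    refine ⟨A₁, A₂, c1, i1, c2, i2, hU, n1, n2, fun j _ u => ?_⟩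
    have e : ∀ (I : Set B) (_ : I = ∅) (v : h.h j I), v = 0 := by
      rintro I rfl v
      exact h.empty j v
    exact e _ hI u
  | succ d ih =>
    intro C hC hD n hn x
    refine L6x.common l5 h horb hC (by omega) x fun A hAd hA hne hno => ?_
    obtain ⟨A₁, A₂, c1, i1, c2, i2, hU, n1, n2, hI⟩ := hD A hAd.cpt hAd.inv hA hne hno
    refine ⟨A₁, A₂, c1, i1, c2, i2, hU, n1, n2, fun j hj u => ?_⟩
    have s1 : A₁ ⊆ A := hU ▸ Set.subset_union_left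
    have hAd' : Ad Γ S (A₁ ∩ A₂) :=
      ⟨c1.inter c2, i1.inter i2, Set.inter_subset_left.trans (s1.trans hAd.sub)⟩
    exact ih (A₁ ∩ A₂) hAd' hI j (by omega) u

end AS
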