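import Pool.Agent.Lib.AS.SpecLG

/-!
# Alexander-Spanier cohomology, L7: dimension of compact sets with an injective map to `ℝ ^ d`

The lemma `L7x.main` is for arbitrary groups `Γ`: the map is invariant under `Γ` and injective modulo
`Γ`.
-/

set_option autoImplicit false

namespace AS

/-- invariant maps to `ℝ ^ d` which are injective modulo `Γ` -/
theorem L7x.main {B : Type} [MetricSpace B] (Γ : Subgroup (B ≃ᵢ B)) :
    ∀ (d : ℕ) (C : Set B) (g : B → Fin d → ℝ), ContinuousOn g C →
      (∀ γ ∈ Γ, ∀ x ∈ C, g (γ x) = g x) → (∀ x ∈ C, ∀ y ∈ C, g x = g y → y ∈ orb Γ x) →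
      Dm Γ d C
  | 0, C, g, _, _, hj => by
    rintro A _ hAi hAC ⟨p, hp⟩ hne
    exfalso
    apply hne p
    ext y
    constructor
    · intro hy
      exact hj p (hAC hp) y (hAC hy) (Subsingleton.elim _ _)
    · rintro ⟨γ, hγ, rfl⟩
      exact hAi γ hγ p hp
  | d + 1, C, g, hg, hi, hj => by
    rintro A hA hAi hAC ⟨p₀, hp₀⟩ hne
    have h1 : ∃ q₀ ∈ A, g p₀ ≠ g q₀ := by
      by_contra hcon
      push Not at hcon
      apply hne p₀
      ext y
      constructor
      · intro hy
        exact hj p₀ (hAC hp₀) y (hAC hy) (hcon y hy)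
      · rintro ⟨γ, hγ, rfl⟩
        exact hAi γ hγ p₀ hp₀
    obtain ⟨q₀, hq₀, hpq₀⟩ := h1
    have h2 : ∃ p ∈ A, ∃ q ∈ A, ∃ i, g p i < g q i := by
      obtain ⟨i, hi'⟩ := Function.ne_iff.mp hpq₀
      rcases lt_or_gt_of_ne hi' with h | h
      · exact ⟨p₀, hp₀, q₀, hq₀, i, h⟩
      · exact ⟨q₀, hq₀, p₀, hp₀, i, h⟩
    obtain ⟨p, hp, q, hq, i, hpq⟩ := h2
    obtain ⟨c, hc1, hc2⟩ := exists_between hpq
    have hgi : ContinuousOn (fun x => g x i) A :=
      (continuous_apply i).comp_continuousOn (hg.mono hAC)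
    have hc₁ : IsClosed (A ∩ {x | g x i ≤ c}) :=
      hgi.preimage_isClosed_of_isClosed hA.isClosed isClosed_Iic
    have hc₂ : IsClosed (A ∩ {x | c ≤ g x i}) :=
      hgi.preimage_isClosed_of_isClosed hA.isClosed isClosed_Ici
    refine ⟨A ∩ {x | g x i ≤ c}, A ∩ {x | c ≤ g x i},
      hA.of_isClosed_subset hc₁ Set.inter_subset_left, ?_,
      hA.of_isClosed_subset hc₂ Set.inter_subset_left, ?_, ?_, ?_, ?_, ?_⟩
    · rintro γ hγ x ⟨hx, hx'⟩
      refine ⟨hAi γ hγ x hx, ?_⟩
      change g (γ x) i ≤ c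
      rw [hi γ hγ x (hAC hx)]
      exact hx'
    · rintro γ hγ x ⟨hx, hx'⟩
      refine ⟨hAi γ hγ x hx, ?_⟩
      change c ≤ g (γ x) i
      rw [hi γ hγ x (hAC hx)]
      exact hx'
    · ext x
      constructor
      · rintro (hx | hx)
        · exact hx.1
        · exact hx.1
      · intro hx
        rcases le_total (g x i) c with h | h
        · exact Or.inl ⟨hx, h⟩
        · exact Or.inr ⟨hx, h⟩
    · intro heq
      have h3 : q ∈ A ∩ {x | g x i ≤ c} := heq.symm.subset hq
      exact absurd h3.2 (not_le.mpr hc2)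
    · intro heq
      have h3 : p ∈ A ∩ {x | c ≤ g x i} := heq.symm.subset hp
      exact absurd h3.2 (not_le.mpr hc1)
    · have hsub : (A ∩ {x | g x i ≤ c}) ∩ (A ∩ {x | c ≤ g x i}) ⊆ C :=
        fun x hx => hAC hx.1.1
      apply L7x.main Γ d _ (fun x j => g x (i.succAbove j))
      · rw [continuousOn_pi]
        intro j
        exact (continuous_apply (i.succAbove j)).comp_continuousOn (hg.mono hsub)
      · intro γ hγ x hx
        funext j
        exact congrFun (hi γ hγ x (hsub hx)) _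
      · intro x hx y hy hxy
        apply hj x (hsub hx) y (hsub hy)
        have hx2 : g x i = c := le_antisymm hx.1.2 hx.2.2
        have hy2 : g y i = c := le_antisymm hy.1.2 hy.2.2
        funext k
        rcases Fin.eq_self_or_eq_succAbove i k with h | ⟨j, h⟩
        · rw [h, hx2, hy2]
        · rw [h]
          exact congrFun hxy j

theorem pL7 : L7 := by
  intro B _ d C g hg hj
  apply L7x.main ⊥ d C g hg
  · intro γ hγ x _
    rw [Subgroup.mem_bot.mp hγ]
    rfl
  · intro x hx y hy hxy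
    exact ⟨1, Subgroup.one_mem _, (hj hx hy hxy).symm⟩

end AS
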