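import Pool.Agent.Lib.AS.SpecLG

/-!
# L8: dimension of subsets of the projective space
-/

set_option autoImplicit false

namespace AS

namespace L8x

open Set

theorem orb_bot {B : Type} [MetricSpace B] (p : B) :
    orb (⊥ : Subgroup (B ≃ᵢ B)) p = {p} := by
  ext x
  constructor
  · rintro ⟨g, hg, rfl⟩
    rw [Subgroup.mem_bot.1 hg]
    rfl
  · intro hx
    exact ⟨1, Subgroup.one_mem _, hx⟩

theorem ivs_bot {B : Type} [MetricSpace B] (A : Set B) : IvS (⊥ : Subgroup (B ≃ᵢ B)) A := by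
  intro g hg x hx
  rw [Subgroup.mem_bot.1 hg]
  exact hx

/-- two different points of a nonempty set which is not a point -/
theorem two_points {B : Type} [MetricSpace B] {A : Set B} (hne : A.Nonempty)
    (horb : ∀ p, A ≠ orb (⊥ : Subgroup (B ≃ᵢ B)) p) : ∃ p ∈ A, ∃ q ∈ A, p ≠ q := by
  obtain ⟨p, hp⟩ := hne
  by_contra hcon
  push Not at hcon
  apply horb p
  rw [orb_bot]
  ext x
  constructor
  · intro hx
    exact (hcon p hp x hx).symm
  · intro hx
    rw [mem_singleton_iff.1 hx]
    exact hp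

section sphere

variable {B : Type} [NormedAddCommGroup B] [InnerProductSpace ℝ B] [FiniteDimensional ℝ B]

theorem sph_zero (W : Submodule ℝ B) (hW : Module.finrank ℝ W ≤ 1) (v : B) (r : ℝ) (C : Set B)
    (hC : ∀ x ∈ C, x - v ∈ W ∧ ‖x - v‖ = r) : Dm (⊥ : Subgroup (B ≃ᵢ B)) 0 C := by
  intro A hAc _ hAC hne horb
  obtain ⟨p, hp, q, hq, hpq⟩ := two_points hne horb
  obtain ⟨e, he⟩ := finrank_le_one_iff.1 hW
  have hx : ∀ x ∈ A, ∃ t : ℝ, t • (e : B) = x - v := by
    intro x hx
    obtain ⟨t, ht⟩ := he ⟨x - v, (hC x (hAC hx)).1⟩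
    exact ⟨t, congrArg Subtype.val ht⟩
  obtain ⟨a, ha⟩ := hx p hp
  obtain ⟨b, hb⟩ := hx q hq
  have he0 : 0 < ‖(e : B)‖ := by
    rw [norm_pos_iff]
    intro h0
    rw [h0, smul_zero] at ha hb
    apply hpq
    have h1 := ha.symm.trans hb
    exact sub_left_inj.1 h1
  have hn : ∀ (x : B) (t : ℝ), x ∈ A → t • (e : B) = x - v → |t| * ‖(e : B)‖ = r := by
    intro x t hx ht
    have h1 := (hC x (hAC hx)).2
    rw [← ht, norm_smul, Real.norm_eq_abs] at h1
    exact h1
  have hna := hn p a hp ha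
  have hnb := hn q b hq hb
  have hab : a ≠ b := by
    intro h0
    apply hpq
    rw [h0] at ha
    exact sub_left_inj.1 (ha.symm.trans hb)
  have habs : |a| = |b| := by
    have := hna.trans hnb.symm
    exact mul_right_cancel₀ he0.ne' this
  have hba : b = -a := by
    rcases abs_eq_abs.1 habs with h | h
    · exact absurd h hab
    · rw [h, neg_neg]
  refine ⟨{p}, {q}, isCompact_singleton, ivs_bot _, isCompact_singleton, ivs_bot _, ?_, ?_, ?_, ?_⟩
  · ext x
    constructor
    · rintro (hx1 | hx1)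
      · rw [mem_singleton_iff.1 hx1]
        exact hp
      · rw [mem_singleton_iff.1 hx1]
        exact hq
    · intro hxA
      obtain ⟨t, ht⟩ := hx x hxA
      have hnt := hn x t hxA ht
      have h1 : |t| = |a| := mul_right_cancel₀ he0.ne' (hnt.trans hna.symm)
      rcases abs_eq_abs.1 h1 with h | h
      · left
        rw [h] at ht
        exact mem_singleton_iff.2 (sub_left_inj.1 (ht.symm.trans ha))
      · right
        rw [h, ← hba] at ht
        exact mem_singleton_iff.2 (sub_left_inj.1 (ht.symm.trans hb))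
  · intro h0
    have : q ∈ ({p} : Set B) := by
      rw [h0]
      exact hq
    exact hpq (mem_singleton_iff.1 this).symm
  · intro h0
    have : p ∈ ({q} : Set B) := by
      rw [h0]
      exact hp
    exact hpq (mem_singleton_iff.1 this)
  · ext x
    constructor
    · rintro ⟨h1, h2⟩
      exact hpq ((mem_singleton_iff.1 h1).symm.trans (mem_singleton_iff.1 h2))
    · intro h
      exact h.elim

theorem sph (j : ℕ) : ∀ (W : Submodule ℝ B), Module.finrank ℝ W ≤ j + 1 → ∀ (v : B) (r : ℝ)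
    (C : Set B), (∀ x ∈ C, x - v ∈ W ∧ ‖x - v‖ = r) → Dm (⊥ : Subgroup (B ≃ᵢ B)) j C := by
  induction j with
  | zero => exact fun W hW v r C hC => sph_zero W hW v r C hC
  | succ j ih =>
    intro W hW v r C hC A hAc _ hAC hne horb
    obtain ⟨p, hp, q, hq, hpq⟩ := two_points hne horb
    set w : B := q - p with hw
    have hw0 : w ≠ 0 := sub_ne_zero.2 (Ne.symm hpq)
    have hww : 0 < inner ℝ w w := real_inner_self_pos.2 hw0
    have hwW : w ∈ W := by
      have h1 := W.sub_mem (hC q (hAC hq)).1 (hC p (hAC hp)).1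
      have h2 : q - v - (p - v) = w := by
        rw [hw]
        abel
      rwa [h2] at h1
    set f : B → ℝ := fun x => inner ℝ (x - v) w with hf
    have hfc : Continuous f := by
      rw [hf]
      fun_prop
    have hfpq : f q - f p = inner ℝ w w := by
      rw [hf]
      simp only
      rw [← inner_sub_left]
      congr 1
      rw [hw]
      abel
    set c : ℝ := (f p + f q) / 2 with hc
    have hpc : f p < c := by
      rw [hc]
      linarith
    have hcq : c < f q := by
      rw [hc]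
      linarith
    refine ⟨A ∩ {x | f x ≤ c}, A ∩ {x | c ≤ f x}, hAc.inter_right (isClosed_le hfc continuous_const),
      ivs_bot _, hAc.inter_right (isClosed_le continuous_const hfc), ivs_bot _, ?_, ?_, ?_, ?_⟩
    · rw [← inter_union_distrib_left]
      ext x
      constructor
      · exact fun h => h.1
      · exact fun h => ⟨h, le_total (f x) c⟩
    · intro h0
      have : q ∈ A ∩ {x | f x ≤ c} := by
        rw [h0]
        exact hq
      exact absurd this.2 (not_le.2 hcq)
    · intro h0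
      have : p ∈ A ∩ {x | c ≤ f x} := by
        rw [h0]
        exact hp
      exact absurd this.2 (not_le.2 hpc)
    · set W' : Submodule ℝ B := W ⊓ (Submodule.span ℝ {w})ᗮ with hW'
      have hlt : W' < W := by
        refine lt_of_le_of_ne inf_le_left fun h0 => ?_
        have h1 : w ∈ W' := by
          rw [h0]
          exact hwW
        have h2 : w ∈ (Submodule.span ℝ {w})ᗮ := h1.2
        rw [Submodule.mem_orthogonal_singleton_iff_inner_left] at h2
        exact hww.ne' h2
      have hW'r : Module.finrank ℝ W' ≤ j + 1 := by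
        have := Submodule.finrank_lt_finrank_of_lt hlt
        omega
      refine ih W' hW'r (v + (c / inner ℝ w w) • w) (Real.sqrt (r ^ 2 - c ^ 2 / inner ℝ w w)) _ ?_
      rintro x ⟨⟨hxA, hx1⟩, -, hx2⟩
      have hfx : f x = c := le_antisymm hx1 hx2
      have hxC := hC x (hAC hxA)
      have e1 : x - (v + (c / inner ℝ w w) • w) = (x - v) - (c / inner ℝ w w) • w := by abel
      rw [e1]
      refine ⟨⟨W.sub_mem hxC.1 (W.smul_mem _ hwW), ?_⟩, ?_⟩
      · show _ ∈ (Submodule.span ℝ {w})ᗮ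
        rw [Submodule.mem_orthogonal_singleton_iff_inner_left, inner_sub_left, inner_smul_left]
        have : inner ℝ (x - v) w = c := hfx
        rw [this]
        simp only [conj_trivial]
        field_simp
        ring
      · have h1 : ‖(x - v) - (c / inner ℝ w w) • w‖ ^ 2 = r ^ 2 - c ^ 2 / inner ℝ w w := by
          rw [← real_inner_self_eq_norm_sq, inner_sub_sub_self, inner_smul_left, inner_smul_right,
            inner_smul_right, real_inner_comm (x - v) w, inner_smul_left]
          have h2 : inner ℝ (x - v) w = c := hfx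
          rw [h2, real_inner_self_eq_norm_sq (x - v), hxC.2]
          simp only [conj_trivial]
          field_simp
          ring
        rw [← h1, Real.sqrt_sq (norm_nonneg _)]

end sphere

section pm

variable {B : Type} [NormedAddCommGroup B] [InnerProductSpace ℝ B] [FiniteDimensional ℝ B]
  {Γ : Subgroup (B ≃ᵢ B)}

theorem neg_mem' (hΓ : ∀ g : B ≃ᵢ B, g ∈ Γ ↔ (∀ x, g x = x) ∨ ∀ x, g x = -x) :
    IsometryEquiv.neg B ∈ Γ := by
  rw [hΓ]
  exact Or.inr fun x => rfl

theorem ivs_iff (hΓ : ∀ g : B ≃ᵢ B, g ∈ Γ ↔ (∀ x, g x = x) ∨ ∀ x, g x = -x) (A : Set B) :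
    IvS Γ A ↔ ∀ x ∈ A, -x ∈ A := by
  constructor
  · intro h x hx
    exact h _ (neg_mem' hΓ) x hx
  · intro h g hg x hx
    rcases (hΓ g).1 hg with h1 | h1
    · rw [h1]
      exact hx
    · rw [h1]
      exact h x hx

theorem mem_orb (hΓ : ∀ g : B ≃ᵢ B, g ∈ Γ ↔ (∀ x, g x = x) ∨ ∀ x, g x = -x) (p x : B) :
    x ∈ orb Γ p ↔ x = p ∨ x = -p := by
  constructor
  · rintro ⟨g, hg, rfl⟩
    rcases (hΓ g).1 hg with h1 | h1
    · left
      exact h1 p
    · right
      exact h1 p
  · rintro (h | h)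
    · exact ⟨1, Γ.one_mem, h⟩
    · exact ⟨_, neg_mem' hΓ, h⟩

/-- the set and its negative -/
def pmS (F : Set B) : Set B := {x | x ∈ F ∨ -x ∈ F}

theorem pmS_compact {F : Set B} (hF : IsCompact F) : IsCompact (pmS F) := by
  have h1 : pmS F = F ∪ -F := rfl
  rw [h1]
  exact hF.union hF.neg

theorem pmS_neg {F : Set B} : ∀ x ∈ pmS F, -x ∈ pmS F := by
  rintro x (hx | hx)
  · right
    rwa [neg_neg]
  · exact Or.inl hx

/-- the data of the splitting -/
theorem split_aux (hΓ : ∀ g : B ≃ᵢ B, g ∈ Γ ↔ (∀ x, g x = x) ∨ ∀ x, g x = -x) {F A : Set B}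
    (hF : IsCompact F) (hFn : ∀ x ∈ F, -x ∉ F) (hAc : IsCompact A) (hAi : IvS Γ A)
    (hAF : A ⊆ pmS F) (hne : A.Nonempty) (horb : ∀ p, A ≠ orb Γ p) :
    IsCompact (A ∩ F) ∧ (A ∩ F).Nonempty ∧ (∀ p, A ∩ F ≠ orb (⊥ : Subgroup (B ≃ᵢ B)) p) ∧
    ∀ A₁ A₂ : Set B, IsCompact A₁ → IsCompact A₂ → A₁ ∪ A₂ = A ∩ F → A₁ ≠ A ∩ F → A₂ ≠ A ∩ F →
      IsCompact (pmS A₁) ∧ IvS Γ (pmS A₁) ∧ IsCompact (pmS A₂) ∧ IvS Γ (pmS A₂) ∧
      pmS A₁ ∪ pmS A₂ = A ∧ pmS A₁ ≠ A ∧ pmS A₂ ≠ A ∧ pmS A₁ ∩ pmS A₂ = pmS (A₁ ∩ A₂) := by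
  rw [ivs_iff hΓ] at hAi
  refine ⟨hAc.inter hF, ?_, ?_, ?_⟩
  · obtain ⟨x, hx⟩ := hne
    rcases hAF hx with h | h
    · exact ⟨x, hx, h⟩
    · exact ⟨-x, hAi x hx, h⟩
  · intro p h0
    rw [orb_bot] at h0
    have hp : p ∈ A ∩ F := by
      rw [h0]
      exact mem_singleton p
    apply horb p
    ext x
    rw [mem_orb hΓ]
    constructor
    · intro hx
      rcases hAF hx with h | h
      · left
        have : x ∈ A ∩ F := ⟨hx, h⟩
        rw [h0] at this
        exact mem_singleton_iff.1 this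
      · right
        have : -x ∈ A ∩ F := ⟨hAi x hx, h⟩
        rw [h0] at this
        rw [← mem_singleton_iff.1 this, neg_neg]
    · rintro (h | h)
      · rw [h]
        exact hp.1
      · rw [h]
        exact hAi p hp.1
  · intro A₁ A₂ h1 h2 hU hn1 hn2
    have hs1 : A₁ ⊆ A ∩ F := by
      rw [← hU]
      exact subset_union_left
    have hs2 : A₂ ⊆ A ∩ F := by
      rw [← hU]
      exact subset_union_right
    have hne' : ∀ A' : Set B, A' ⊆ A ∩ F → pmS A' = A → A' = A ∩ F := by
      intro A' hs h0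
      refine Subset.antisymm hs fun x hx => ?_
      have h3 : x ∈ pmS A' := by
        rw [h0]
        exact hx.1
      rcases h3 with h | h
      · exact h
      · exact absurd (hs h).2 (hFn x hx.2)
    refine ⟨pmS_compact h1, (ivs_iff hΓ _).2 pmS_neg, pmS_compact h2, (ivs_iff hΓ _).2 pmS_neg,
      ?_, fun h0 => hn1 (hne' A₁ hs1 h0), fun h0 => hn2 (hne' A₂ hs2 h0), ?_⟩
    · ext x
      constructor
      · rintro ((h | h) | (h | h))
        · exact (hs1 h).1
        · have := hAi _ (hs1 h).1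
          rwa [neg_neg] at this
        · exact (hs2 h).1
        · have := hAi _ (hs2 h).1
          rwa [neg_neg] at this
      · intro hx
        rcases hAF hx with h | h
        · have h3 : x ∈ A₁ ∪ A₂ := by
            rw [hU]
            exact ⟨hx, h⟩
          rcases h3 with h3 | h3
          · exact Or.inl (Or.inl h3)
          · exact Or.inr (Or.inl h3)
        · have h3 : -x ∈ A₁ ∪ A₂ := by
            rw [hU]
            exact ⟨hAi x hx, h⟩
          rcases h3 with h3 | h3
          · exact Or.inl (Or.inr h3)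
          · exact Or.inr (Or.inr h3)
    · ext x
      constructor
      · rintro ⟨h | h, h' | h'⟩
        · exact Or.inl ⟨h, h'⟩
        · exact absurd (hs2 h').2 (hFn x (hs1 h).2)
        · exact absurd (hs1 h).2 (hFn x (hs2 h').2)
        · exact Or.inr ⟨h, h'⟩
      · rintro (h | h)
        · exact ⟨Or.inl h.1, Or.inl h.2⟩
        · exact ⟨Or.inr h.1, Or.inr h.2⟩

theorem pm_dm (hΓ : ∀ g : B ≃ᵢ B, g ∈ Γ ↔ (∀ x, g x = x) ∨ ∀ x, g x = -x) (j : ℕ) :
    ∀ F : Set B, IsCompact F → (∀ x ∈ F, -x ∉ F) → Dm (⊥ : Subgroup (B ≃ᵢ B)) j F →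
      Dm Γ j (pmS F) := by
  induction j with
  | zero =>
    intro F hF hFn hD A hAc hAi hAF hne horb
    obtain ⟨h1, h2, h3, h4⟩ := split_aux hΓ hF hFn hAc hAi hAF hne horb
    obtain ⟨A₁, A₂, c1, -, c2, -, hU, n1, n2, hI⟩ := hD (A ∩ F) h1 (ivs_bot _)
      inter_subset_right h2 h3
    obtain ⟨g1, g2, g3, g4, g5, g6, g7, g8⟩ := h4 A₁ A₂ c1 c2 hU n1 n2
    refine ⟨pmS A₁, pmS A₂, g1, g2, g3, g4, g5, g6, g7, ?_⟩
    rw [g8, hI]
    ext x
    constructor
    · rintro (h | h)
      · exact h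
      · exact h.elim
    · intro h
      exact h.elim
  | succ j ih =>
    intro F hF hFn hD A hAc hAi hAF hne horb
    obtain ⟨h1, h2, h3, h4⟩ := split_aux hΓ hF hFn hAc hAi hAF hne horb
    obtain ⟨A₁, A₂, c1, -, c2, -, hU, n1, n2, hI⟩ := hD (A ∩ F) h1 (ivs_bot _)
      inter_subset_right h2 h3
    obtain ⟨g1, g2, g3, g4, g5, g6, g7, g8⟩ := h4 A₁ A₂ c1 c2 hU n1 n2
    refine ⟨pmS A₁, pmS A₂, g1, g2, g3, g4, g5, g6, g7, ?_⟩
    rw [g8]
    have hs1 : A₁ ⊆ A ∩ F := by
      rw [← hU]
      exact subset_union_left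
    exact ih (A₁ ∩ A₂) (c1.inter c2) (fun x hx hx' => hFn x (hs1 hx.1).2 (hs1 hx'.1).2) hI

/-- the case of the line -/
theorem line (hΓ : ∀ g : B ≃ᵢ B, g ∈ Γ ↔ (∀ x, g x = x) ∨ ∀ x, g x = -x)
    (hB : Module.finrank ℝ B = 1) (C : Set B) (hC : ∀ x ∈ C, ‖x‖ = 1) : Dm Γ 0 C := by
  intro A hAc hAi hAC hne horb
  exfalso
  rw [ivs_iff hΓ] at hAi
  obtain ⟨p, hp⟩ := hne
  have hp1 := hC p (hAC hp)
  have hp0 : p ≠ 0 := by
    intro h0
    rw [h0, norm_zero] at hp1
    exact zero_ne_one hp1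
  apply horb p
  ext x
  rw [mem_orb hΓ]
  constructor
  · intro hx
    obtain ⟨t, ht⟩ := exists_smul_eq_of_finrank_eq_one hB hp0 x
    have hx1 := hC x (hAC hx)
    rw [← ht, norm_smul, hp1, mul_one, Real.norm_eq_abs] at hx1
    rcases eq_or_eq_neg_of_abs_eq hx1 with h | h
    · left
      rw [← ht, h, one_smul]
    · right
      rw [← ht, h, neg_smul, one_smul]
  · rintro (h | h)
    · rw [h]
      exact hp
    · rw [h]
      exact hAi p hp

theorem main (hΓ : ∀ g : B ≃ᵢ B, g ∈ Γ ↔ (∀ x, g x = x) ∨ ∀ x, g x = -x) (d : ℕ)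
    (hB : Module.finrank ℝ B = d + 2) (C : Set B) (hC : ∀ x ∈ C, ‖x‖ = 1) :
    Dm Γ (d + 1) C := by
  intro A hAc hAi hAC hne horb
  have hAi' := (ivs_iff hΓ A).1 hAi
  obtain ⟨p, hp⟩ := hne
  have hp1 := hC p (hAC hp)
  obtain ⟨q, hq, hqp, hqp'⟩ : ∃ q ∈ A, q ≠ p ∧ q ≠ -p := by
    by_contra hcon
    push Not at hcon
    apply horb p
    ext x
    rw [mem_orb hΓ]
    constructor
    · intro hx
      by_cases hxp : x = p
      · exact Or.inl hxp
      · exact Or.inr (hcon x hx hxp)
    · rintro (h | h)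
      · rw [h]
        exact hp
      · rw [h]
        exact hAi' p hp
  have hq1 := hC q (hAC hq)
  set f : B → ℝ := fun x => inner ℝ p x with hf
  have hfc : Continuous fun x => |f x| := by
    rw [hf]
    fun_prop
  have hfp : f p = 1 := by
    show inner ℝ p p = 1
    rw [real_inner_self_eq_norm_sq, hp1]
    norm_num
  have hlt1 : f q < 1 := by
    refine lt_of_le_of_ne ?_ fun h0 => ?_
    · have := real_inner_le_norm p q
      rwa [hp1, hq1, mul_one] at this
    · exact hqp ((inner_eq_one_iff_of_norm_eq_one hp1 hq1).1 h0).symm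
  have hlt2 : -1 < f q := by
    refine lt_of_le_of_ne ?_ fun h0 => ?_
    · have := real_inner_le_norm p (-q)
      rw [hp1, norm_neg, hq1, mul_one, inner_neg_right] at this
      show -1 ≤ inner ℝ p q
      linarith
    · have h1 : inner ℝ p (-q) = (1 : ℝ) := by
        rw [inner_neg_right]
        show -f q = 1
        rw [← h0]
        norm_num
      have h2 := (inner_eq_one_iff_of_norm_eq_one hp1 (by rw [norm_neg, hq1])).1 h1
      exact hqp' (by rw [h2, neg_neg])
  have hlt : |f q| < 1 := abs_lt.2 ⟨hlt2, hlt1⟩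
  set c : ℝ := (|f q| + 1) / 2 with hc
  have hqc : |f q| < c := by
    rw [hc]
    linarith
  have hc1 : c < 1 := by
    rw [hc]
    linarith
  have hc0 : 0 < c := by
    have := abs_nonneg (f q)
    linarith
  have hfn : ∀ x, f (-x) = -f x := fun x => inner_neg_right _ _
  refine ⟨A ∩ {x | |f x| ≤ c}, A ∩ {x | c ≤ |f x|},
    hAc.inter_right (isClosed_le hfc continuous_const), ?_,
    hAc.inter_right (isClosed_le continuous_const hfc), ?_, ?_, ?_, ?_, ?_⟩
  · rw [ivs_iff hΓ]
    rintro x ⟨hx, hx1⟩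
    refine ⟨hAi' x hx, ?_⟩
    show |f (-x)| ≤ c
    rw [hfn, abs_neg]
    exact hx1
  · rw [ivs_iff hΓ]
    rintro x ⟨hx, hx1⟩
    refine ⟨hAi' x hx, ?_⟩
    show c ≤ |f (-x)|
    rw [hfn, abs_neg]
    exact hx1
  · rw [← inter_union_distrib_left]
    ext x
    constructor
    · exact fun h => h.1
    · exact fun h => ⟨h, le_total (|f x|) c⟩
  · intro h0
    have : p ∈ A ∩ {x | |f x| ≤ c} := by
      rw [h0]
      exact hp
    have h2 : |f p| ≤ c := this.2
    rw [hfp, abs_one] at h2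
    exact absurd h2 (not_le.2 hc1)
  · intro h0
    have : q ∈ A ∩ {x | c ≤ |f x|} := by
      rw [h0]
      exact hq
    exact absurd this.2 (not_le.2 hqc)
  · have hfc' : Continuous f := by
      rw [hf]
      fun_prop
    have hF : IsCompact (A ∩ {x | f x = c}) :=
      hAc.inter_right (isClosed_eq hfc' continuous_const)
    have hFn : ∀ x ∈ A ∩ {x | f x = c}, -x ∉ A ∩ {x | f x = c} := by
      rintro x ⟨-, hx⟩ ⟨-, hx'⟩
      have h1 : f x = c := hx
      have h2 : f (-x) = c := hx'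
      rw [hfn, h1] at h2
      linarith
    have e1 : (A ∩ {x | |f x| ≤ c}) ∩ (A ∩ {x | c ≤ |f x|}) = pmS (A ∩ {x | f x = c}) := by
      ext x
      constructor
      · rintro ⟨⟨hx, hx1⟩, -, hx2⟩
        have h3 : |f x| = c := le_antisymm hx1 hx2
        rcases (abs_eq hc0.le).1 h3 with h | h
        · exact Or.inl ⟨hx, h⟩
        · refine Or.inr ⟨hAi' x hx, ?_⟩
          show f (-x) = c
          rw [hfn, h, neg_neg]
      · have h3 : ∀ y, y ∈ A ∩ {x | f x = c} →
            y ∈ (A ∩ {x | |f x| ≤ c}) ∩ (A ∩ {x | c ≤ |f x|}) := by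
          rintro y ⟨hy, hy1⟩
          have h4 : |f y| = c := by
            rw [show f y = c from hy1, abs_of_pos hc0]
          exact ⟨⟨hy, h4.le⟩, hy, h4.ge⟩
        rintro (h | h)
        · exact h3 x h
        · have h4 := h3 _ h
          refine ⟨⟨?_, ?_⟩, ?_, ?_⟩
          · have := hAi' _ h4.1.1
            rwa [neg_neg] at this
          · have h5 : |f (-x)| ≤ c := h4.1.2
            rw [hfn, abs_neg] at h5
            exact h5
          · have := hAi' _ h4.1.1
            rwa [neg_neg] at this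
          · have h5 : c ≤ |f (-x)| := h4.2.2
            rw [hfn, abs_neg] at h5
            exact h5
    rw [e1]
    refine pm_dm hΓ d _ hF hFn ?_
    have hp0 : p ≠ 0 := by
      intro h0
      rw [h0, norm_zero] at hp1
      exact zero_ne_one hp1
    have hlt3 : (Submodule.span ℝ {p})ᗮ < ⊤ := by
      refine lt_of_le_of_ne le_top fun h0 => ?_
      have h2 : p ∈ (Submodule.span ℝ {p})ᗮ := by
        rw [h0]
        exact Submodule.mem_top
      rw [Submodule.mem_orthogonal_singleton_iff_inner_left] at h2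
      have h3 : f p = 0 := h2
      rw [hfp] at h3
      exact one_ne_zero h3
    have hr : Module.finrank ℝ ((Submodule.span ℝ {p})ᗮ : Submodule ℝ B) ≤ d + 1 := by
      have h4 := Submodule.finrank_lt_finrank_of_lt hlt3
      rw [finrank_top, hB] at h4
      omega
    refine sph d _ hr (c • p) (Real.sqrt (1 - c ^ 2)) _ ?_
    rintro x ⟨hx, hx1⟩
    have hfx : inner ℝ p x = c := hx1
    constructor
    · rw [Submodule.mem_orthogonal_singleton_iff_inner_right, inner_sub_right, inner_smul_right,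
        hfx]
      have : inner ℝ p p = (1 : ℝ) := hfp
      rw [this]
      ring
    · have h1 : ‖x - c • p‖ ^ 2 = 1 - c ^ 2 := by
        rw [norm_sub_sq_real, norm_smul, inner_smul_right, real_inner_comm, hfx, hp1,
          hC x (hAC hx), Real.norm_eq_abs, mul_one, sq_abs]
        ring
      rw [← h1, Real.sqrt_sq (norm_nonneg _)]

end pm

end L8x

theorem pL8 : L8 := by
  intro B _ _ _ Γ d C hB hΓ hC
  rcases d with _ | d
  · exact L8x.line hΓ hB C hC
  · exact L8x.main hΓ d hB C hC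

end AS
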