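import Pool.Agent.Lib.AS.SpecLG2

/-!
# The group of the preimage of an orbit is the group of the fibre
-/

set_option autoImplicit false

namespace AS

theorem pQ1 (n3 : N3) : Q1 := by
  intro X B _ _ Γ K D E Γ' D' S f h q p n h1 h2 hp
  have horb : IvS Γ' (orb Γ' p) := by
    rintro g hg x ⟨g', hg', rfl⟩
    exact ⟨g * g', Γ'.mul_mem hg hg', rfl⟩
  constructor
  · intro A hA
    refine n3 X Γ K A (ov E f (orb Γ' p)) (ov E f {p}) n q.le h1 q.fin hA.inv ?_ ?_ ?_ ?_ ?_
    · have h3 : IsClosed (E ∩ f ⁻¹' {p}) :=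
        h.fb.cont.preimage_isClosed_of_isClosed h.fb.okE.cpt.isClosed isClosed_singleton
      exact h.fb.okE.cpt.of_isClosed_subset h3 (ov_sub E f {p})
    · intro g hg x hx
      refine ⟨h.fb.okE.inv g (q.le hg) x hx.1, ?_⟩
      change f (g x) = p
      rw [q.triv g hg]
      exact hx.2
    · intro g hg x hx
      refine ⟨h.fb.okE.inv g hg x hx.1, ?_⟩
      obtain ⟨g', hg', h4⟩ := h.fb.eqv g hg
      change f (g x) ∈ orb Γ' p
      rw [h4]
      exact horb g' hg' _ hx.2
    · intro x hx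
      obtain ⟨g', hg', h4⟩ := hx.2
      obtain ⟨g, hg, h5⟩ := q.surj g' hg'
      refine ⟨g, hg, g⁻¹ x, ⟨h.fb.okE.inv g⁻¹ (Γ.inv_mem hg) x hx.1, ?_⟩, ?_⟩
      · change f (g⁻¹ x) = p
        have h6 := h5 (g⁻¹ x)
        rw [IsometryEquiv.apply_inv_self, h4] at h6
        exact (g'.injective h6).symm
      · rw [IsometryEquiv.apply_inv_self]
    · intro g hg hgK x hx hgx
      refine q.free g hg hgK x hx.1 ?_
      have h4 : f (g x) = p := hgx.2
      have h5 : f x = p := hx.2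
      rw [h4, h5]
  · intro A hA
    refine n3 B Γ' ⊥ A (orb Γ' p) {p} n bot_le h2 h.fin hA.inv isCompact_singleton
      (IvS.bot _) horb ?_ ?_
    · rintro x ⟨g, hg, rfl⟩
      exact ⟨g, hg, p, rfl, rfl⟩
    · intro g hg hgK x hx hgx
      have h4 : x = p := hx
      have h5 : g x = p := hgx
      rw [h4] at h5
      exact hgK (Subgroup.mem_bot.mpr (h.okS.fr g hg p hp h5))

end AS
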