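import Pool.Agent.Lib.AS.SpecLG

/-!
# The relative Vietoris-Begle theorem
-/

set_option autoImplicit false

namespace AS

namespace W1x

variable {X B : Type} [MetricSpace X] [MetricSpace B] {Γ : Subgroup (X ≃ᵢ X)} {D E : Set X}
  {Γ' : Subgroup (B ≃ᵢ B)} {D' S : Set B} {f : X → B}

/-- the orbit of a point of `D'` lies in `D'` -/
theorem orb_sub (h : Fib Γ D E Γ' D' S f) {p : B} (hp : p ∈ D') : orb Γ' p ⊆ D' := by
  rintro x ⟨g, hg, rfl⟩
  exact h.okD'.inv g hg p hp

theorem ov_orb_sub (h : Fib Γ D E Γ' D' S f) {p : B} (hp : p ∈ D') : ov E f (orb Γ' p) ⊆ D :=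
  fun x hx => (h.hD x hx.1).mpr (orb_sub h hp hx.2)

theorem orb_inter (h : Fib Γ D E Γ' D' S f) {p : B} (hp : p ∉ D') : orb Γ' p ∩ D' = ∅ := by
  rw [Set.eq_empty_iff_forall_notMem]
  rintro x ⟨⟨g, hg, rfl⟩, hx⟩
  exact hp ((h.okD'.inv.iff hg p).mp hx)

theorem ov_orb_inter (h : Fib Γ D E Γ' D' S f) {p : B} (hp : p ∉ D') :
    ov E f (orb Γ' p) ∩ D = ∅ := by
  rw [Set.eq_empty_iff_forall_notMem]
  rintro x ⟨hx, hxD⟩
  have h1 : f x ∈ orb Γ' p ∩ D' := ⟨hx.2, (h.hD x hx.1).mp hxD⟩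
  rw [orb_inter h hp] at h1
  exact h1

/-- the comparison of relative and absolute groups is natural -/
theorem square (h : Fib Γ D E Γ' D' S f) (C : Set B) (n : ℕ) (x : H Γ' D' n C) :
    pull (fun x => x) (Adm.id' (D := ∅) (D' := D) le_rfl (Set.Subset.refl (ov E f C))
      fun _ _ hx => hx.elim) n (pull f (h.adm C) n x) =
    pull f (h.adm0 C) n (pull (fun x => x) (Adm.id' (D := ∅) (D' := D') le_rfl
      (Set.Subset.refl C) fun _ _ hx => hx.elim) n x) := by
  rw [pull_pull, pull_pull]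

/-- at the orbits outside of `D'` -/
theorem at_orb (l4 : L4) (h : Fib Γ D E Γ' D' S f) {p : B} (hp : p ∉ D') (n : ℕ) :
    (Function.Bijective (pull f (h.adm0 (orb Γ' p)) n) →
      Function.Bijective (pull f (h.adm (orb Γ' p)) n)) ∧
    (Function.Injective (pull f (h.adm0 (orb Γ' p)) n) →
      Function.Injective (pull f (h.adm (orb Γ' p)) n)) := by
  have h1 := l4 B Γ' D' (orb Γ' p) n (orb_inter h hp)
  have h2 := l4 X Γ D (ov E f (orb Γ' p)) n (ov_orb_inter h hp)
  have h3 := square h (orb Γ' p) n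
  constructor
  · intro h4
    constructor
    · intro x y hxy
      apply h1.1
      apply h4.1
      rw [← h3, ← h3, hxy]
    · intro y
      obtain ⟨z, hz⟩ := h4.2 (pull (fun x => x) (Adm.id' (D := ∅) (D' := D) le_rfl
        (Set.Subset.refl (ov E f (orb Γ' p))) fun _ _ hx => hx.elim) n y)
      obtain ⟨x, rfl⟩ := h1.2 z
      refine ⟨x, h2.1 ?_⟩
      rw [h3]
      exact hz
  · intro h4 x y hxy
    apply h1.1
    apply h4
    rw [← h3, ← h3, hxy]

/-- at the orbits in `D'` -/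
theorem at_orb' (h : Fib Γ D E Γ' D' S f) {p : B} (hp : p ∈ D') (n : ℕ) :
    Function.Bijective (pull f (h.adm (orb Γ' p)) n) := by
  constructor
  · intro x y _
    rw [H_sub (orb_sub h hp) x, H_sub (orb_sub h hp) y]
  · intro y
    exact ⟨0, by rw [H_sub (ov_orb_sub h hp) y, map_zero]⟩

end W1x

/-- **W1.** The relative Vietoris-Begle theorem (truncated). -/
theorem pW1 (M : AllM) (hL3 : L3) (l2 : L2) (l4 : L4) : W1 := by
  intro X B _ _ Γ D E Γ' D' S f h N hyp C hC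
  exact l2 B Γ' S (mkTh M (SF.self h.okD' h.okS.fr)) (mkTh M (h.fb.sf hL3 S))
    (pullMor M (h.fb.sf hL3 S) (SF.self h.okD' h.okS.fr) f h.adm) N h.fin h.okS.inv
    (fun p hp n hn => by
      by_cases hpD : p ∈ D'
      · exact W1x.at_orb' h hpD n
      · exact (W1x.at_orb l4 h hpD n).1 ((hyp p hp hpD).1 n hn))
    (fun p hp => by
      by_cases hpD : p ∈ D'
      · exact (W1x.at_orb' h hpD N).1
      · exact (W1x.at_orb l4 h hpD N).2 (hyp p hp hpD).2) C hC

end AS
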