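import Pool.Agent.Lib.AS.SpecLG

/-!
# The relative Vietoris-Begle theorem over an ordinary base
-/

set_option autoImplicit false

namespace AS

namespace W1ax

theorem bot_finite (B : Type) [MetricSpace B] :
    ((⊥ : Subgroup (B ≃ᵢ B)) : Set (B ≃ᵢ B)).Finite := by
  rw [Subgroup.coe_bot]
  exact Set.finite_singleton 1

theorem pull_one {X Y : Type} [MetricSpace X] [MetricSpace Y] {Γ : Subgroup (X ≃ᵢ X)} {C : Set X}
    {Γ' : Subgroup (Y ≃ᵢ Y)} {C' : Set Y} {f : X → Y} (h : Adm Γ ∅ C Γ' ∅ C' f) :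
    pull f h 0 (one Γ' C') = one Γ C := rfl

/-- degree `0` at a point -/
theorem bij_zero (n2 : N2) {X Y : Type} [MetricSpace X] [MetricSpace Y] {Γ : Subgroup (X ≃ᵢ X)}
    {C : Set X} {Γ' : Subgroup (Y ≃ᵢ Y)} {p : Y} {f : X → Y} (h : Adm Γ ∅ C Γ' ∅ {p} f)
    (h1 : ∀ x : H Γ ∅ 0 C, x = 0 ∨ x = one Γ C) (h2 : one Γ C ≠ 0) :
    Function.Bijective (pull f h 0) := by
  have h3 := (n2 Y Γ' {p}).1 isPreconnected_singleton
  constructor
  · rw [injective_iff_map_eq_zero]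
    intro x hx
    rcases h3 x with h4 | h4
    · exact h4
    · rw [h4, pull_one] at hx
      exact (h2 hx).elim
  · intro y
    rcases h1 y with h4 | h4
    · exact ⟨0, by rw [h4, map_zero]⟩
    · exact ⟨one Γ' {p}, by rw [h4, pull_one]⟩

end W1ax

/-- **W1a.** Relative Vietoris-Begle theorem over an ordinary compact base. -/
theorem pW1a (w1 : W1) (l0 : L0) (n1 : N1) (n2 : N2) : W1a := by
  intro X B _ _ Γ D E D' S f h hyp C hC hCS n
  have key : ∀ p ∈ S, p ∉ D' → ∀ (P : Set B), P = {p} → ∀ n,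
      Function.Bijective (pull f (h.adm0 P) n) := by
    rintro p hp hpD P rfl n
    obtain ⟨a1, a2, a3⟩ := hyp p hp hpD
    rcases n with _ | n
    · exact W1ax.bij_zero n2 _ a1 a2
    · have h1 := n1 B ⊥ ∅ {p} n (Set.finite_singleton p)
      constructor
      · intro x y _
        rw [h1 x, h1 y]
      · intro y
        exact ⟨0, by rw [a3 n y, map_zero]⟩
  have key2 : ∀ p ∈ S, p ∉ D' → ∀ n, Function.Bijective (pull f (h.adm0 (orb ⊥ p)) n) :=
    fun p hp hpD n => key p hp hpD _ (l0 B ⊥ S p (W1ax.bot_finite B) (IvS.bot S) hp).2.2 n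
  exact (w1 X B Γ D E ⊥ D' S f h (n + 1)
    (fun p hp hpD => ⟨fun j _ => key2 p hp hpD j, (key2 p hp hpD (n + 1)).1⟩) C
    ⟨hC, IvS.bot C, hCS⟩).1 n (Nat.lt_succ_self n)

end AS
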