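import Pool.Agent.Lib.AS.Fbr

/-!
# The relative Vietoris-Begle theorem over a quotient
-/

set_option autoImplicit false

namespace AS

theorem pW1b (w1 : W1) (q1 : Q1) (n1 : N1) (n2 : N2) : W1b := by
  intro X B _ _ Γ K D E Γ' D' S f h q hac C hC n
  have key : ∀ p ∈ S, p ∉ D' → ∀ m, Function.Bijective (pull f (h.adm0 (orb Γ' p)) m) := by
    intro p hp hpD m
    obtain ⟨a1, a2, a3⟩ := hac p hp hpD
    have hq := q1 X B Γ K D E Γ' D' S f h q p m (Fbr.ov_sub_orb E f Γ' p) (Fbr.pt_sub_orb Γ' p) hp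
    refine Fbr.bij_square (hq.2 ∅ (OkD.empty Γ')) (hq.1 ∅ (OkD.empty Γ))
      (Fbr.rk_pull h q p m) ?_
    rcases m with _ | m
    · exact Fbr.pt_bij0 n2 h q p a1 a2
    · exact Fbr.pt_bij n1 h q p (Nat.succ_ne_zero m) (a3 m)
  exact (w1 X B Γ D E Γ' D' S f h (n + 1)
    (fun p hp hpD => ⟨fun m _ => key p hp hpD m, (key p hp hpD (n + 1)).1⟩) C hC).1 n
    (Nat.lt_succ_self n)

end AS
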