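import Pool.Agent.Lib.AS.SpecLG

/-!
# The relative Leray-Hirsch theorem with basis `1, b`
-/

set_option autoImplicit false

namespace AS

namespace W2x

variable {X B : Type} [MetricSpace X] [MetricSpace B] {Γ : Subgroup (X ≃ᵢ X)} {D E : Set X}
  {Γ' : Subgroup (B ≃ᵢ B)} {D' S : Set B} {f : X → B}

/-- the theory of the base -/
noncomputable def hB (M : AllM) (h : Fib Γ D E Γ' D' S f) : CTh Γ' S :=
  mkTh M (SF.self h.okD' h.okS.fr)

/-- the theory of the total space -/
noncomputable def hE (M : AllM) (hL : L3) (h : Fib Γ D E Γ' D' S f) : CTh Γ' S :=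
  mkTh M (h.fb.sf hL S)

/-- pullback -/
noncomputable def T0 (M : AllM) (hL : L3) (h : Fib Γ D E Γ' D' S f) :
    CMor (hB M h) (hE M hL h) :=
  pullMor M (h.fb.sf hL S) (SF.self h.okD' h.okS.fr) f h.adm

/-- pullback and product with `b` -/
noncomputable def T1' (M : AllM) (hL : L3) (h : Fib Γ D E Γ' D' S f) (d : ℕ) (b : H Γ ∅ d E) :
    CMor ((hB M h).prod ((hB M h).shift d)) (hE M hL h) :=
  (T0 M hL h).fromProd ((cupMor M (h.fb.sf hL S) (ov_sub E f) d b).comp ((T0 M hL h).shift d))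

/-- the map of the theorem -/
noncomputable def F (h : Fib Γ D E Γ' D' S f) (d : ℕ) (b : H Γ ∅ d E) (m : ℕ) (C : Set B)
    (z : H Γ' D' (m + d) C × H Γ' D' m C) : H Γ D (m + d) (ov E f C) :=
  pull f (h.adm C) (m + d) z.1 +
    cupH D (m + d) (pull f (h.adm C) m z.2) (res (ov_sub E f C) d b)

/-- the absolute version -/
noncomputable def F0 (h : Fib Γ D E Γ' D' S f) (d : ℕ) (b : H Γ ∅ d E) (m : ℕ) (C : Set B)
    (z : H Γ' ∅ (m + d) C × H Γ' ∅ m C) : H Γ ∅ (m + d) (ov E f C) :=
  pull f (h.adm0 C) (m + d) z.1 +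
    cupH ∅ (m + d) (pull f (h.adm0 C) m z.2) (res (ov_sub E f C) d b)

theorem low (M : AllM) (hL : L3) (h : Fib Γ D E Γ' D' S f) (d : ℕ) (b : H Γ ∅ d E) (n : ℕ)
    (hn : n < d) (C : Set B) : Function.Bijective ((T1' M hL h d b).T n C) ↔
      Function.Bijective (pull f (h.adm C) n) := by
  let e : ((hB M h).prod ((hB M h).shift d)).h n C → H Γ' D' n C := fun x => x.1
  have he : Function.Bijective e := by
    constructor
    · rintro ⟨x, y⟩ ⟨x', y'⟩ hxx
      have h1 : x = x' := hxx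
      subst h1
      have h2 : y = y' := by
        funext m
        exact absurd m.2 (by omega)
      rw [h2]
    · intro x
      exact ⟨(x, fun m => absurd m.2 (by omega)), rfl⟩
  have hT : (T1' M hL h d b).T n C = (pull f (h.adm C) n) ∘ e := by
    funext x
    have h1 : (T1' M hL h d b).T n C x = pull f (h.adm C) n x.1 +
      (if hd : d ≤ n then (cupH D n (pull f (h.adm C) (n - d)
        (x.2 ⟨n - d, Nat.sub_add_cancel hd⟩)) (res (ov_sub E f C) d b) :
          H Γ D n (ov E f C)) else (0 : H Γ D n (ov E f C))) := rfl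
    rw [h1, dif_neg (by omega)]
    exact add_zero (pull f (h.adm C) n x.1)
  rw [hT]
  exact Function.Bijective.of_comp_iff _ he

theorem high (M : AllM) (hL : L3) (h : Fib Γ D E Γ' D' S f) (d : ℕ) (b : H Γ ∅ d E) (m : ℕ)
    (C : Set B) : Function.Bijective ((T1' M hL h d b).T (m + d) C) ↔
      Function.Bijective (F h d b m C) := by
  let e : ((hB M h).prod ((hB M h).shift d)).h (m + d) C → H Γ' D' (m + d) C × H Γ' D' m C :=
    fun x => (x.1, x.2 ⟨m, rfl⟩)
  have he : Function.Bijective e := by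
    constructor
    · rintro ⟨x, y⟩ ⟨x', y'⟩ hxx
      have h1 : x = x' := congrArg Prod.fst hxx
      have h2 : y ⟨m, rfl⟩ = y' ⟨m, rfl⟩ := congrArg Prod.snd hxx
      subst h1
      have h3 : y = y' := by
        funext m'
        obtain ⟨m', hm'⟩ := m'
        obtain rfl : m' = m := by omega
        exact h2
      rw [h3]
    · rintro ⟨x, y⟩
      have hy : ∃ z : (∀ m' : {m' : ℕ // m' + d = m + d}, H Γ' D' m'.1 C), z ⟨m, rfl⟩ = y := by
        refine ⟨fun m' => cast (by
          obtain ⟨m', hm'⟩ := m'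
          obtain rfl : m' = m := by omega
          rfl) y, ?_⟩
        rfl
      obtain ⟨z, hz⟩ := hy
      exact ⟨(x, z), Prod.ext rfl hz⟩
  have hT : (T1' M hL h d b).T (m + d) C = F h d b m C ∘ e := by
    funext x
    have hd : d ≤ m + d := Nat.le_add_left d m
    have h1 : (T1' M hL h d b).T (m + d) C x = pull f (h.adm C) (m + d) x.1 +
      (if hd : d ≤ m + d then (cupH D (m + d) (pull f (h.adm C) (m + d - d)
        (x.2 ⟨m + d - d, Nat.sub_add_cancel hd⟩)) (res (ov_sub E f C) d b) :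
          H Γ D (m + d) (ov E f C)) else (0 : H Γ D (m + d) (ov E f C))) := rfl
    have h2 : ∀ (m' : ℕ) (hm' : m' + d = m + d),
        (cupH D (m + d) (pull f (h.adm C) m' (x.2 ⟨m', hm'⟩)) (res (ov_sub E f C) d b) :
          H Γ D (m + d) (ov E f C)) =
        cupH D (m + d) (pull f (h.adm C) m (x.2 ⟨m, rfl⟩)) (res (ov_sub E f C) d b) := by
      intro m' hm'
      obtain rfl : m' = m := by omega
      rfl
    rw [h1, dif_pos hd]
    exact congrArg (fun t => pull f (h.adm C) (m + d) x.1 + t) (h2 _ _)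
  rw [hT]
  exact Function.Bijective.of_comp_iff _ he

/-- comparison with the absolute groups -/
theorem rel_abs (h4 : L4) (h : Fib Γ D E Γ' D' S f) (C : Set B) (hC : C ∩ D' = ∅)
    (hCE : ov E f C ∩ D = ∅) (n : ℕ) :
    Function.Bijective (pull f (h.adm0 C) n) → Function.Bijective (pull f (h.adm C) n) := by
  intro hbij
  have hb1 := h4 B Γ' D' C n hC
  have hb2 := h4 X Γ D (ov E f C) n hCE
  have hcomm : ∀ x, pull (fun x => x) (Adm.id' (D := ∅) (D' := D) le_rfl
      (Set.Subset.refl (ov E f C)) fun _ _ hx => hx.elim) n (pull f (h.adm C) n x) =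
      pull f (h.adm0 C) n (pull (fun x => x) (Adm.id' (D := ∅) (D' := D') le_rfl
        (Set.Subset.refl C) fun _ _ hx => hx.elim) n x) := by
    intro x
    rw [pull_pull, pull_pull]
  have h1 : Function.Bijective ((pull (fun x => x) (Adm.id' (D := ∅) (D' := D) le_rfl
      (Set.Subset.refl (ov E f C)) fun _ _ hx => hx.elim) n : H Γ D n (ov E f C) →
        H Γ ∅ n (ov E f C)) ∘ (pull f (h.adm C) n : H Γ' D' n C → H Γ D n (ov E f C))) := by
    have h2 := hbij.comp hb1
    refine (congrArg Function.Bijective (funext fun x => ?_)).mp h2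
    exact (hcomm x).symm
  exact (Function.Bijective.of_comp_iff' hb2 _).mp h1

theorem rel_absF (h4 : L4) (h : Fib Γ D E Γ' D' S f) (d : ℕ) (b : H Γ ∅ d E) (C : Set B)
    (hC : C ∩ D' = ∅) (hCE : ov E f C ∩ D = ∅) (m : ℕ) :
    Function.Bijective (F0 h d b m C) → Function.Bijective (F h d b m C) := by
  intro hbij
  have hb1 := h4 B Γ' D' C (m + d) hC
  have hb1' := h4 B Γ' D' C m hC
  have hb2 := h4 X Γ D (ov E f C) (m + d) hCE
  let α : ∀ n, H Γ' D' n C → H Γ' ∅ n C := fun n => pull (fun x => x)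
    (Adm.id' (D := ∅) (D' := D') le_rfl (Set.Subset.refl C) fun _ _ hx => hx.elim) n
  let β : ∀ n, H Γ D n (ov E f C) →+ H Γ ∅ n (ov E f C) := fun n => pull (fun x => x)
    (Adm.id' (D := ∅) (D' := D) le_rfl (Set.Subset.refl (ov E f C)) fun _ _ hx => hx.elim) n
  have hcomm : ∀ n x, β n (pull f (h.adm C) n x) = pull f (h.adm0 C) n (α n x) := by
    intro n x
    change pull _ _ n (pull f (h.adm C) n x) = pull f (h.adm0 C) n (pull _ _ n x)
    rw [pull_pull, pull_pull]
  have hcup : ∀ y : H Γ D m (ov E f C), β (m + d) (cupH D (m + d) y (res (ov_sub E f C) d b)) =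
      cupH ∅ (m + d) (β m y) (res (ov_sub E f C) d b) := by
    intro y
    change pull _ _ (m + d) _ = _
    rw [pull_cupH (D := ∅) (D' := ∅) rfl (Or.inl Set.inter_subset_right)
      (Or.inl Set.inter_subset_right) (Adm.id' (D := ∅) (D' := D) le_rfl
        (Set.Subset.refl (ov E f C)) fun _ _ hx => hx.elim) (Adm.id' (D := ∅) (D' := ∅) le_rfl
        (Set.Subset.refl (ov E f C)) fun _ _ hx => hx.elim)]
    congr 1
    exact res_self (Set.Subset.refl (ov E f C)) _
  have h1 : Function.Bijective ((β (m + d)) ∘ F h d b m C) := by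
    have h3 : Function.Bijective (Prod.map (α (m + d)) (α m)) := Function.Bijective.prodMap hb1 hb1'
    have h2 := hbij.comp h3
    refine (congrArg Function.Bijective (funext fun z => ?_)).mp h2
    obtain ⟨x, y⟩ := z
    change pull f (h.adm0 C) (m + d) (α (m + d) x) +
      cupH ∅ (m + d) (pull f (h.adm0 C) m (α m y)) (res (ov_sub E f C) d b) =
      β (m + d) (pull f (h.adm C) (m + d) x +
        cupH D (m + d) (pull f (h.adm C) m y) (res (ov_sub E f C) d b))
    rw [map_add, hcup, hcomm, hcomm]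
  exact (Function.Bijective.of_comp_iff' hb2 _).mp h1

/-- orbits in `D'` -/
theorem orb_in (h : Fib Γ D E Γ' D' S f) {p : B} (hp : p ∈ D') :
    orb Γ' p ⊆ D' ∧ ov E f (orb Γ' p) ⊆ D := by
  have h1 : orb Γ' p ⊆ D' := by
    rintro _ ⟨g, hg, rfl⟩
    exact h.okD'.inv g hg p hp
  exact ⟨h1, fun x hx => (h.hD x hx.1).mpr (h1 hx.2)⟩

/-- orbits outside of `D'` -/
theorem orb_out (h : Fib Γ D E Γ' D' S f) {p : B} (hp : p ∉ D') :
    orb Γ' p ∩ D' = ∅ ∧ ov E f (orb Γ' p) ∩ D = ∅ := by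
  have h1 : orb Γ' p ∩ D' = ∅ := by
    rw [Set.eq_empty_iff_forall_notMem]
    rintro _ ⟨⟨g, hg, rfl⟩, h2⟩
    exact hp ((h.okD'.inv.iff hg p).mp h2)
  refine ⟨h1, ?_⟩
  rw [Set.eq_empty_iff_forall_notMem]
  rintro x ⟨hx, hxD⟩
  have h2 : f x ∈ orb Γ' p ∩ D' := ⟨hx.2, (h.hD x hx.1).mp hxD⟩
  rw [h1] at h2
  exact h2

end W2x

open W2x

theorem pW2 (M : AllM) (hL : L3) (h2 : L2) (h4 : L4) : W2 := by
  intro X B _ _ Γ D E Γ' D' S f h d b hd horb
  have hall : ∀ C : Set B, Ad Γ' S C → ∀ n, Function.Bijective ((T1' M hL h d b).T n C) := by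
    intro C hC n
    have hkey : ∀ p ∈ S, ∀ n, Function.Bijective ((T1' M hL h d b).T n (orb Γ' p)) := by
      intro p hp n
      by_cases hpD : p ∈ D'
      · obtain ⟨h1, h3⟩ := orb_in h hpD
        rcases lt_or_ge n d with hn | hn
        · rw [low M hL h d b n hn]
          exact ⟨fun x y _ => by rw [H_sub h1 x, H_sub h1 y],
            fun y => ⟨0, by rw [H_sub h3 y, map_zero]⟩⟩
        · obtain ⟨m, rfl⟩ : ∃ m, n = m + d := ⟨n - d, by omega⟩
          rw [high M hL h d b m]
          refine ⟨fun x y _ => ?_, fun y => ⟨(0, 0), ?_⟩⟩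
          · exact Prod.ext (by rw [H_sub h1 x.1, H_sub h1 y.1]) (by rw [H_sub h1 x.2, H_sub h1 y.2])
          · rw [H_sub h3 y, H_sub h3 (F h d b m (orb Γ' p) (0, 0))]
      · obtain ⟨h1, h3⟩ := orb_out h hpD
        rcases lt_or_ge n d with hn | hn
        · rw [low M hL h d b n hn]
          exact rel_abs h4 h _ h1 h3 n ((horb p hp hpD).1 n hn)
        · obtain ⟨m, rfl⟩ : ∃ m, n = m + d := ⟨n - d, by omega⟩
          rw [high M hL h d b m]
          exact rel_absF h4 h d b _ h1 h3 m ((horb p hp hpD).2 m)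
    exact (h2 B Γ' S _ _ (T1' M hL h d b) (n + 1) h.fin h.okS.inv
      (fun p hp n' _ => hkey p hp n') (fun p hp => (hkey p hp (n + 1)).1) C hC).1 n
      (Nat.lt_succ_self n)
  intro C hC
  refine ⟨fun n hn => ?_, fun m => ?_⟩
  · rw [← low M hL h d b n hn]
    exact hall C hC n
  · exact (high M hL h d b m C).mp (hall C hC (m + d))

end AS
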