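import Pool.Agent.Lib.AS.SpecMV

/-!
# Alexander-Spanier cohomology: finite sets have no cohomology in positive degrees
-/

set_option autoImplicit false

namespace AS

namespace N1x

variable {X : Type}

theorem dd_replicate (m : ℕ) (x : X) (φ : List X → ZMod 2) :
    dd φ (List.replicate (m + 1) x) = ((m + 1 : ℕ) : ZMod 2) * φ (List.replicate m x) := by
  induction m generalizing φ with
  | zero =>
    rw [List.replicate_succ, List.replicate_zero, dd_cons, dd_nil]
    simp
  | succ m ih =>
    rw [List.replicate_succ, dd_cons, ih (fun l => φ (x :: l))]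
    have h : x :: List.replicate m x = List.replicate (m + 1) x := List.replicate_succ.symm
    rw [h]
    push_cast
    ring

theorem sep [MetricSpace X] {C : Set X} (hC : C.Finite) :
    ∃ δ > 0, ∀ x ∈ C, ∀ y ∈ C, dist x y < δ → x = y := by
  by_cases h : C.Nontrivial
  · refine ⟨C.infsep, hC.infsep_pos_iff_nontrivial.2 h, fun x hx y hy hxy => ?_⟩
    by_contra hne
    exact absurd (Set.infsep_le_dist_of_mem hx hy hne) (not_le.2 hxy)
  · rw [Set.not_nontrivial_iff] at h
    exact ⟨1, one_pos, fun x hx y hy _ => h hx hy⟩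

/-- doubling the first entry -/
def dbl (φ : List X → ZMod 2) : List X → ZMod 2
  | [] => 0
  | x :: l => φ (x :: x :: l)

end N1x

open N1x in
theorem pN1 : N1 := by
  intro X _ Γ D C n hC x
  obtain ⟨φ, hφ, rfl⟩ := cl_surj x
  rw [cl_eq_zero, mem_Bnd_succ]
  obtain ⟨h1, ⟨ε, hε, h2⟩, ⟨ε', hε', h3⟩⟩ := hφ
  obtain ⟨δ, hδ, h4⟩ := sep hC
  refine ⟨h1, dbl φ, ?_, ⟨ε, hε, ?_⟩, ⟨min δ ε', lt_min hδ hε', ?_⟩⟩
  · intro g hg l
    rcases l with _ | ⟨y, l⟩
    · rfl
    · exact h1 g hg (y :: y :: l)
  · intro l hl hs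
    rcases l with _ | ⟨y, l⟩
    · rfl
    · apply h2 (y :: y :: l) (by simpa using hl)
      refine hs.mono (fun z hz => ?_) le_rfl le_rfl
      rw [List.mem_cons] at hz
      rcases hz with rfl | hz
      · exact List.mem_cons_self
      · exact hz
  · intro l hl hs
    obtain ⟨y, l', rfl⟩ : ∃ y l', l = y :: l' := by
      rcases l with _ | ⟨y, l'⟩
      · simp at hl
      · exact ⟨y, l', rfl⟩
    have hrep : y :: l' = List.replicate (n + 2) y := by
      rw [List.eq_replicate_iff]
      refine ⟨hl, fun z hz => ?_⟩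
      exact h4 z (hs.1 z hz) y (hs.1 y List.mem_cons_self)
        ((hs.2 z hz y List.mem_cons_self).trans_le (min_le_left _ _))
    have hyC : y ∈ C := hs.1 y List.mem_cons_self
    rw [hrep, Pi.add_apply]
    have e1 : dd (dbl φ) (List.replicate (n + 2) y) =
        ((n + 2 : ℕ) : ZMod 2) * φ (List.replicate (n + 2) y) := by
      rw [dd_replicate (n + 1) y (dbl φ), List.replicate_succ]
      rfl
    have e2 : dd φ (List.replicate (n + 3) y) =
        ((n + 3 : ℕ) : ZMod 2) * φ (List.replicate (n + 2) y) :=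
      dd_replicate (n + 2) y φ
    have e3 : dd φ (List.replicate (n + 3) y) = 0 := by
      apply h3 _ (List.length_replicate)
      refine ⟨fun z hz => ?_, fun z hz w hw => ?_⟩
      · rw [List.eq_of_mem_replicate hz]
        exact hyC
      · rw [List.eq_of_mem_replicate hz, List.eq_of_mem_replicate hw, dist_self]
        exact hε'
    rw [e1]
    rw [e3] at e2
    push_cast at e2 ⊢
    have e4 : φ (List.replicate (n + 2) y) + (↑n + 2) * φ (List.replicate (n + 2) y) =
        (↑n + 3) * φ (List.replicate (n + 2) y) := by ring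
    rw [e4]
    exact e2.symm

end AS
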