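import Pool.Agent.Lib.AS.SpecMV

/-!
# Alexander-Spanier cohomology, N2: degree zero, connected sets
-/

set_option autoImplicit false

open Topology

namespace AS

theorem N2x.z2 (a : ZMod 2) : a = 0 ∨ a = 1 := by
  revert a; decide

/-- a cocycle of degree zero takes the same values at close points -/
theorem N2x.close {X : Type} [MetricSpace X] {C : Set X} {φ : List X → ZMod 2}
    (h : Z0 2 C (dd φ)) : ∃ ε > 0, ∀ p ∈ C, ∀ q ∈ C, dist p q < ε → φ [p] = φ [q] := by
  obtain ⟨ε, hε, h1⟩ := h
  refine ⟨ε, hε, fun p hp q hq hpq => ?_⟩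
  have h2 : dd φ [p, q] = 0 := by
    apply h1 [p, q] rfl
    refine ⟨?_, ?_⟩
    · intro x hx
      simp only [List.mem_cons, List.not_mem_nil, or_false] at hx
      rcases hx with rfl | rfl
      · exact hp
      · exact hq
    · intro x hx y hy
      simp only [List.mem_cons, List.not_mem_nil, or_false] at hx hy
      rcases hx with rfl | rfl <;> rcases hy with rfl | rfl
      · rwa [dist_self]
      · exact hpq
      · rwa [dist_comm]
      · rwa [dist_self]
  rw [dd_cons, dd_cons, dd_nil, add_zero] at h2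
  rcases N2x.z2 (φ [p]) with h3 | h3 <;> rcases N2x.z2 (φ [q]) with h4 | h4 <;>
    rw [h3, h4] at h2 ⊢
  · exact absurd h2 (by decide)
  · exact absurd h2 (by decide)

theorem pN2 : N2 := by
  intro X _ Γ C
  constructor
  · intro hC x
    obtain ⟨φ, hφ, rfl⟩ := cl_surj x
    rcases C.eq_empty_or_nonempty with hE | ⟨p₀, hp₀⟩
    · exact Or.inl (H_empty hE _)
    obtain ⟨ε, hε, hclose⟩ := N2x.close hφ.2.2
    have hcont : ContinuousOn (fun p => decide (φ [p] = 0)) C := by
      intro p hp
      have h1 : (fun q => decide (φ [q] = 0)) =ᶠ[𝓝[C] p] fun _ => decide (φ [p] = 0) := by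
        have h2 : {q | dist q p < ε} ∩ C ∈ 𝓝[C] p :=
          Filter.inter_mem (mem_nhdsWithin_of_mem_nhds (Metric.ball_mem_nhds p hε))
            self_mem_nhdsWithin
        refine Filter.mem_of_superset h2 ?_
        rintro q ⟨hq1, hq2⟩
        change decide (φ [q] = 0) = decide (φ [p] = 0)
        rw [hclose q hq2 p hp hq1]
      exact continuousWithinAt_const.congr_of_eventuallyEq h1 rfl
    have hconst : ∀ p ∈ C, φ [p] = φ [p₀] := by
      intro p hp
      have h1 : decide (φ [p] = 0) = decide (φ [p₀] = 0) := hC.constant hcont hp hp₀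
      have h2 : φ [p] = 0 ↔ φ [p₀] = 0 := by simpa using h1
      rcases N2x.z2 (φ [p]) with h3 | h3 <;> rcases N2x.z2 (φ [p₀]) with h4 | h4
      · rw [h3, h4]
      · exact absurd (h2.1 h3) (by rw [h4]; decide)
      · exact absurd (h2.2 h4) (by rw [h3]; decide)
      · rw [h3, h4]
    rcases N2x.z2 (φ [p₀]) with h0 | h0
    · left
      rw [cl_eq_zero, mem_Bnd_zero]
      refine ⟨hφ.1, 1, one_pos, fun l hl hs => ?_⟩
      obtain ⟨p, rfl⟩ := List.length_eq_one_iff.mp hl
      rw [hconst p (hs.1 p (List.mem_cons_self)), h0]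
    · right
      unfold one
      rw [cl_eq_cl, mem_Bnd_zero]
      refine ⟨hφ.1.add fun _ _ _ => rfl, 1, one_pos, fun l hl hs => ?_⟩
      obtain ⟨p, rfl⟩ := List.length_eq_one_iff.mp hl
      rw [Pi.add_apply, hconst p (hs.1 p (List.mem_cons_self)), h0]
      decide
  · rintro ⟨p, hp⟩ h0
    unfold one at h0
    rw [cl_eq_zero, mem_Bnd_zero] at h0
    obtain ⟨-, ε, hε, h1⟩ := h0
    have h2 : (1 : ZMod 2) = 0 := by
      apply h1 [p] rfl
      refine ⟨?_, ?_⟩
      · intro x hx
        simp only [List.mem_cons, List.not_mem_nil, or_false] at hx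
        rw [hx]
        exact hp
      · intro x hx y hy
        simp only [List.mem_cons, List.not_mem_nil, or_false] at hx hy
        rw [hx, hy, dist_self]
        exact hε
    exact absurd h2 (by decide)

end AS
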