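import Pool.Agent.Lib.AS.SpecLG
import Pool.Agent.Lib.AS.N1
import Pool.Agent.Lib.AS.N2

/-!
# Alexander-Spanier cohomology: Leray-Hirsch with basis `1, b` over an ordinary base (W2a)
-/

set_option autoImplicit false

namespace AS

namespace W2ax

variable {X B : Type} [MetricSpace X] [MetricSpace B]

theorem pull_one {Γ : Subgroup (X ≃ᵢ X)} {C : Set X} {Γ' : Subgroup (B ≃ᵢ B)} {C' : Set B}
    {f : X → B} (hf : Adm Γ ∅ C Γ' ∅ C' f) : pull f hf 0 (one Γ' C') = one Γ C := rfl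

/-- positive degrees of a point -/
theorem pt_pos (p : B) {n : ℕ} (hn : 1 ≤ n) (x : H (⊥ : Subgroup (B ≃ᵢ B)) ∅ n {p}) : x = 0 := by
  obtain ⟨k, rfl⟩ : ∃ k, n = k + 1 := ⟨n - 1, by omega⟩
  exact pN1 B ⊥ ∅ {p} k (Set.finite_singleton p) x

theorem pt_zero (p : B) (x : H (⊥ : Subgroup (B ≃ᵢ B)) ∅ 0 {p}) : x = 0 ∨ x = one ⊥ {p} :=
  (pN2 B ⊥ {p}).1 isPreconnected_singleton x

/-- degree `0` -/
theorem bij0 {Γ : Subgroup (X ≃ᵢ X)} {F : Set X} {p : B} {f : X → B}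
    (hf : Adm Γ ∅ F (⊥ : Subgroup (B ≃ᵢ B)) ∅ {p} f) (b0 : ∀ x : H Γ ∅ 0 F, x = 0 ∨ x = one Γ F)
    (b1 : one Γ F ≠ 0) : Function.Bijective (pull f hf 0) := by
  constructor
  · rw [injective_iff_map_eq_zero]
    intro x hx
    rcases pt_zero p x with h | h
    · exact h
    · rw [h, pull_one] at hx
      exact absurd hx b1
  · intro y
    rcases b0 y with h | h
    · exact ⟨0, by rw [map_zero, h]⟩
    · exact ⟨one ⊥ {p}, by rw [pull_one, h]⟩

theorem key {Γ : Subgroup (X ≃ᵢ X)} {F : Set X} {p : B} {f : X → B}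
    (hf : Adm Γ ∅ F (⊥ : Subgroup (B ≃ᵢ B)) ∅ {p} f) {d : ℕ} (hd : 1 ≤ d) {b : H Γ ∅ d F}
    (hb : Bas2 Γ F d b) (n m : ℕ) (hn : n = m + d) :
    Function.Bijective (fun z : H (⊥ : Subgroup (B ≃ᵢ B)) ∅ n {p} × H (⊥ : Subgroup (B ≃ᵢ B)) ∅ m {p} =>
      pull f hf n z.1 + cupH ∅ n (pull f hf m z.2) b) := by
  obtain ⟨-, -, b2, b3, b4⟩ := hb
  rcases m with _ | m
  · obtain rfl : n = d := by omega
    have v0 : cupH ∅ n (pull f hf 0 (0 : H (⊥ : Subgroup (B ≃ᵢ B)) ∅ 0 {p})) b = 0 := by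
      rw [map_zero]
      exact cupH_zero_left (zero_add n) (Or.inl Set.inter_subset_right) b
    have v1 : cupH ∅ n (pull f hf 0 (one ⊥ {p})) b = b := by
      rw [pull_one]
      exact one_cupH b
    constructor
    · rintro ⟨x, y⟩ ⟨x', y'⟩ h
      obtain rfl := pt_pos p hd x
      obtain rfl := pt_pos p hd x'
      simp only [map_zero, zero_add] at h
      rcases pt_zero p y with h1 | h1 <;> rcases pt_zero p y' with h2 | h2
      · rw [h1, h2]
      · rw [h1, h2, v0, v1] at h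
        exact absurd h.symm b3
      · rw [h1, h2, v0, v1] at h
        exact absurd h b3
      · rw [h1, h2]
    · intro y
      rcases b2 y with h | h
      · refine ⟨(0, 0), ?_⟩
        change pull f hf n 0 + cupH ∅ n (pull f hf 0 0) b = y
        rw [v0, map_zero, add_zero, h]
      · refine ⟨(0, one ⊥ {p}), ?_⟩
        change pull f hf n 0 + cupH ∅ n (pull f hf 0 (one ⊥ {p})) b = y
        rw [v1, map_zero, zero_add, h]
  · constructor
    · rintro ⟨x, y⟩ ⟨x', y'⟩ _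
      rw [pt_pos p (by omega) x, pt_pos p (by omega) y, pt_pos p (by omega) x',
        pt_pos p (by omega) y']
    · intro y
      exact ⟨(0, 0), (b4 n (by omega) (by omega) _).trans (b4 n (by omega) (by omega) y).symm⟩

/-- the statement at an orbit which is a point -/
theorem orbit {Γ : Subgroup (X ≃ᵢ X)} {E : Set X} {p : B} {f : X → B} {O : Set B} (hO : O = {p})
    (hf : Adm Γ ∅ (ov E f O) (⊥ : Subgroup (B ≃ᵢ B)) ∅ O f) {d : ℕ} (hd : 1 ≤ d) {b : H Γ ∅ d E}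
    (hb : Bas2 Γ (ov E f {p}) d (res (ov_sub E f {p}) d b)) :
    (∀ n < d, Function.Bijective (pull f hf n)) ∧
    ∀ m, Function.Bijective (fun z : H (⊥ : Subgroup (B ≃ᵢ B)) ∅ (m + d) O ×
        H (⊥ : Subgroup (B ≃ᵢ B)) ∅ m O =>
      pull f hf (m + d) z.1 + cupH ∅ (m + d) (pull f hf m z.2) (res (ov_sub E f O) d b)) := by
  subst hO
  refine ⟨fun n hn => ?_, fun m => key hf hd hb (m + d) m rfl⟩
  rcases n with _ | n
  · exact bij0 hf hb.1 hb.2.1
  · constructor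
    · intro x y _
      rw [pt_pos p (by omega) x, pt_pos p (by omega) y]
    · intro y
      exact ⟨0, (hb.2.2.2.2 (n + 1) (by omega) (by omega) _).trans
        (hb.2.2.2.2 (n + 1) (by omega) (by omega) y).symm⟩

end W2ax

open W2ax in
theorem pW2a (hW : W2) (h0 : L0) : W2a := by
  intro X B _ _ Γ D E D' S f h d b hd hfib C hC hCS
  refine hW X B Γ D E ⊥ D' S f h d b hd ?_ C ⟨hC, IvS.bot C, hCS⟩
  intro p hp hpD
  have hfin : ((⊥ : Subgroup (B ≃ᵢ B)) : Set (B ≃ᵢ B)).Finite := by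
    rw [Subgroup.coe_bot]
    exact Set.finite_singleton 1
  exact orbit (h0 B ⊥ S p hfin (IvS.bot S) hp).2.2 (h.adm0 (orb ⊥ p)) hd (hfib p hp hpD)

end AS
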