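import Pool.Agent.Lib.AS.Fbr

/-!
# The relative Leray-Hirsch theorem over a quotient, basis `1, b`
-/

set_option autoImplicit false

namespace AS

theorem pW2b (w2 : W2) (q1 : Q1) (n1 : N1) (n2 : N2) : W2b := by
  intro X B _ _ Γ K D E Γ' D' S f h q d b hd hac C hC
  refine w2 X B Γ D E Γ' D' S f h d b hd ?_ C hC
  intro p hp hpD
  obtain ⟨a1, a2, a3, a4, a5⟩ := hac p hp hpD
  have hq := fun m => q1 X B Γ K D E Γ' D' S f h q p m (Fbr.ov_sub_orb E f Γ' p)
    (Fbr.pt_sub_orb Γ' p) hp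
  have hE := fun m => (hq m).1 ∅ (OkD.empty Γ)
  have hB := fun m => (hq m).2 ∅ (OkD.empty Γ')
  constructor
  · intro n hn
    refine Fbr.bij_square (hB n) (hE n) (Fbr.rk_pull h q p n) ?_
    rcases n with _ | n
    · exact Fbr.pt_bij0 n2 h q p a1 a2
    · exact Fbr.pt_bij n1 h q p (Nat.succ_ne_zero n) (a5 (n + 1) (Nat.succ_ne_zero n) (by omega))
  · intro m
    have hs : ∀ z : H Γ' ∅ (m + d) (orb Γ' p) × H Γ' ∅ m (orb Γ' p),
        rk q.le (Fbr.ov_sub_orb E f Γ' p) (m + d) (pull f (h.adm0 (orb Γ' p)) (m + d) z.1 +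
          cupH ∅ (m + d) (pull f (h.adm0 (orb Γ' p)) m z.2) (res (ov_sub E f (orb Γ' p)) d b)) =
        (fun w : H (⊥ : Subgroup (B ≃ᵢ B)) ∅ (m + d) {p} × H (⊥ : Subgroup (B ≃ᵢ B)) ∅ m {p} =>
          pull f (Fbr.admK h q p) (m + d) w.1 + cupH ∅ (m + d) (pull f (Fbr.admK h q p) m w.2)
            (rk q.le (ov_sub E f {p}) d b))
          (Prod.map (rk bot_le (Fbr.pt_sub_orb Γ' p) (m + d))
            (rk bot_le (Fbr.pt_sub_orb Γ' p) m) z) := by
      rintro ⟨z, w⟩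
      rw [map_add, Fbr.rk_pull h q p, Fbr.rk_cupH rfl, Fbr.rk_pull h q p,
        rk_res q.le (ov_sub E f (orb Γ' p)) (Fbr.ov_sub_orb E f Γ' p) (ov_sub E f {p})]
      rfl
    refine Fbr.bij_square (Ψ := fun w : H (⊥ : Subgroup (B ≃ᵢ B)) ∅ (m + d) {p} ×
        H (⊥ : Subgroup (B ≃ᵢ B)) ∅ m {p} =>
          pull f (Fbr.admK h q p) (m + d) w.1 + cupH ∅ (m + d) (pull f (Fbr.admK h q p) m w.2)
            (rk q.le (ov_sub E f {p}) d b))
      (Function.Bijective.prodMap (hB (m + d)) (hB m)) (hE (m + d)) hs ?_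
    rcases m with _ | m
    · have hz : ∀ z : H (⊥ : Subgroup (B ≃ᵢ B)) ∅ (0 + d) {p}, z = 0 :=
        fun z => Fbr.pt_pos n1 p (by omega) z
      refine Fbr.bij_two
        (P := H (⊥ : Subgroup (B ≃ᵢ B)) ∅ (0 + d) {p} × H (⊥ : Subgroup (B ≃ᵢ B)) ∅ 0 {p})
        (Q := H K ∅ (0 + d) (ov E f {p}))
        (g := (0, one ⊥ {p})) (g' := cupH ∅ (0 + d) (one K (ov E f {p}))
          (rk q.le (ov_sub E f {p}) d b)) ?_ ?_ ?_ ?_ ?_
      · rintro ⟨z, w⟩
        rcases Fbr.pt_zero n2 p w with rfl | rfl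
        · exact Or.inl (Prod.ext (hz z) rfl)
        · exact Or.inr (Prod.ext (hz z) rfl)
      · have e : ∀ (d' : ℕ) (hd' : d' = d) (y : H K ∅ d' (ov E f {p})),
            y = 0 ∨ y = cupH ∅ d' (one K (ov E f {p})) (rk q.le (ov_sub E f {p}) d b) := by
          rintro d' rfl y
          rw [one_cupH]
          exact a3 y
        exact e (0 + d) (zero_add d)
      · have e : ∀ (d' : ℕ) (hd' : d' = d),
            (cupH ∅ d' (one K (ov E f {p})) (rk q.le (ov_sub E f {p}) d b) :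
              H K ∅ d' (ov E f {p})) ≠ 0 := by
          rintro d' rfl
          rw [one_cupH]
          exact a4
        exact e (0 + d) (zero_add d)
      · change pull f (Fbr.admK h q p) (0 + d) 0 + cupH ∅ (0 + d) (pull f (Fbr.admK h q p) 0 0)
          (rk q.le (ov_sub E f {p}) d b) = 0
        rw [map_zero, map_zero, cupH_zero_left rfl (Or.inl Set.inter_subset_right), add_zero]
      · change pull f (Fbr.admK h q p) (0 + d) 0 +
          cupH ∅ (0 + d) (pull f (Fbr.admK h q p) 0 (one ⊥ {p}))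
            (rk q.le (ov_sub E f {p}) d b) = _
        rw [map_zero, Fbr.pull_one]
        exact zero_add (cupH ∅ (0 + d) (one K (ov E f {p})) (rk q.le (ov_sub E f {p}) d b))
    · refine Fbr.bij_zero ?_ (a5 (m + 1 + d) (by omega) (by omega))
      rintro ⟨z, w⟩
      exact Prod.ext (Fbr.pt_pos n1 p (by omega) z) (Fbr.pt_succ n1 p m w)

end AS
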