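import Pool.Agent.Lib.AS.SpecLG

/-!
# The relative Leray-Hirsch theorem with basis `1, a, c` (`W3`)
-/

set_option autoImplicit false

namespace AS

namespace W3Aux

open Function

theorem sq {α β γ δ : Type} {F : α → γ} {F₀ : β → δ} {u : α → β} {v : γ → δ} (hu : Bijective u)
    (hv : Bijective v) (hF₀ : Bijective F₀) (h : ∀ x, v (F x) = F₀ (u x)) : Bijective F := by
  rw [← Function.Bijective.of_comp_iff' hv]
  have : v ∘ F = F₀ ∘ u := funext h
  rw [this]
  exact hF₀.comp hu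

theorem tr {α β γ : Type} {F : α → γ} {G : β → γ} {u : α → β} (hu : Bijective u)
    (h : ∀ x, F x = G (u x)) : Bijective F ↔ Bijective G := by
  have : F = G ∘ u := funext h
  rw [this]
  exact Function.Bijective.of_comp_iff G hu

variable {B : Type} [MetricSpace B] {Γ' : Subgroup (B ≃ᵢ B)} {S : Set B}

theorem shift_bij (h : CTh Γ' S) (d n m : ℕ) (hm : m + d = n) (C : Set B) :
    Bijective (fun y : (h.shift d).h n C => (y ⟨m, hm⟩ : h.h m C)) := by
  subst hm
  constructor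
  · intro y y' hy
    funext ⟨m', hm'⟩
    obtain rfl : m' = m := by omega
    exact hy
  · intro x
    have h1 : ∀ m' : {m' : ℕ // m' + d = m + d}, ∃ z : h.h m'.1 C, HEq z x := by
      rintro ⟨m', hm'⟩
      obtain rfl : m' = m := by omega
      exact ⟨x, HEq.rfl⟩
    choose z hz using h1
    exact ⟨z, eq_of_heq (hz ⟨m, rfl⟩)⟩

theorem shift_sub (h : CTh Γ' S) (d n : ℕ) (hn : n < d) (C : Set B) (y y' : (h.shift d).h n C) :
    y = y' := by
  funext ⟨m', hm'⟩
  omega

variable {X : Type} [MetricSpace X] {Γ : Subgroup (X ≃ᵢ X)} {D : Set X} {c : Set B → Set X}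

theorem cupT (M : AllM) (h : SF Γ D Γ' S c) {E : Set X} (hE : ∀ C, c C ⊆ E) (d : ℕ)
    (b : H Γ ∅ d E) (n m : ℕ) (hm : m + d = n) (C : Set B) (y : ((mkTh M h).shift d).h n C) :
    (cupMor M h hE d b).T n C y =
      (cupH D n (y ⟨m, hm⟩ : H Γ D m (c C)) (res (hE C) d b) : H Γ D n (c C)) := by
  have hd : d ≤ n := by omega
  have e1 : ∀ (m' : ℕ) (hm' : m' + d = n),
      (cupH D n (y ⟨m', hm'⟩ : H Γ D m' (c C)) (res (hE C) d b) : H Γ D n (c C)) =
      cupH D n (y ⟨m, hm⟩ : H Γ D m (c C)) (res (hE C) d b) := by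
    intro m' hm'
    obtain rfl : m' = m := by omega
    rfl
  have e2 : (cupMor M h hE d b).T n C y =
      (cupH D n (y ⟨n - d, Nat.sub_add_cancel hd⟩ : H Γ D (n - d) (c C)) (res (hE C) d b) :
        H Γ D n (c C)) := dif_pos hd
  exact e2.trans (e1 _ _)

theorem cupT0 (M : AllM) (h : SF Γ D Γ' S c) {E : Set X} (hE : ∀ C, c C ⊆ E) (d : ℕ)
    (b : H Γ ∅ d E) (n : ℕ) (hn : n < d) (C : Set B) (y : ((mkTh M h).shift d).h n C) :
    (cupMor M h hE d b).T n C y = (0 : H Γ D n (c C)) :=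
  dif_neg (not_le.2 hn)

/-- the change from absolute to relative groups -/
theorem adm_id (C : Set X) : Adm Γ ∅ C Γ D C (fun x => x) :=
  Adm.id' (D := ∅) (D' := D) le_rfl (Set.Subset.refl C) fun _ _ hx => hx.elim

theorem pull_id_cup {C : Set X} {p q n : ℕ} (hn : p + q = n) (x : H Γ D p C) (y : H Γ ∅ q C) :
    pull (fun x => x) (adm_id (Γ := Γ) (D := D) C) n (cupH D n x y) =
      cupH ∅ n (pull (fun x => x) (adm_id C) p x) y := by
  have h2 : Adm Γ ∅ C Γ ∅ C (fun x => x) :=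
    Adm.id' le_rfl (Set.Subset.refl C) fun _ _ hx => hx
  rw [pull_cupH hn (Or.inl Set.inter_subset_right) (Or.inl Set.inter_subset_right) (adm_id C) h2
    (adm_id C)]
  have h3 : pull (fun x => x) h2 q y = y := res_self (Set.Subset.refl C) y
  rw [h3]

end W3Aux

open W3Aux Function in
theorem pfW3 (M : AllM) (hL3 : L3) (hL2 : L2) (hL4 : L4) : W3 := by
  intro X B _ _ Γ D E Γ' D' S f h a c hyp
  have hsf : SF Γ D Γ' S (ov E f) := h.fb.sf hL3 S
  have hsf' : SF Γ' D' Γ' S (fun C => C) := SF.self h.okD' h.okS.fr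
  let T₀ : CMor (mkTh M hsf') (mkTh M hsf) := pullMor M hsf hsf' f h.adm
  let T₁ : CMor ((mkTh M hsf').shift 1) (mkTh M hsf) :=
    (cupMor M hsf (ov_sub E f) 1 a).comp (T₀.shift 1)
  let T₂ : CMor ((mkTh M hsf').shift 2) (mkTh M hsf) :=
    (cupMor M hsf (ov_sub E f) 2 c).comp (T₀.shift 2)
  let T : CMor ((mkTh M hsf').prod (((mkTh M hsf').shift 1).prod ((mkTh M hsf').shift 2)))
      (mkTh M hsf) := T₀.fromProd (T₁.fromProd T₂)
  -- the explicit forms of `T`
  have f0 : ∀ C : Set B, Bijective (T.T 0 C) ↔ Bijective (pull f (h.adm C) 0) := by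
    intro C
    refine tr (u := fun x : ((mkTh M hsf').prod (((mkTh M hsf').shift 1).prod
        ((mkTh M hsf').shift 2))).h 0 C => (x.1 : H Γ' D' 0 C)) ?_ ?_
    · constructor
      · intro x y hxy
        exact Prod.ext hxy (Prod.ext (shift_sub _ 1 0 (by omega) C _ _)
          (shift_sub _ 2 0 (by omega) C _ _))
      · intro x
        exact ⟨(x, (fun m => absurd m.2 (by omega)), fun m => absurd m.2 (by omega)), rfl⟩
    · intro x
      have e1 : T₁.T 0 C x.2.1 = (0 : H Γ D 0 (ov E f C)) :=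
        cupT0 M hsf (ov_sub E f) 1 a 0 (by omega) C ((T₀.shift 1).T 0 C x.2.1)
      have e2 : T₂.T 0 C x.2.2 = (0 : H Γ D 0 (ov E f C)) :=
        cupT0 M hsf (ov_sub E f) 2 c 0 (by omega) C ((T₀.shift 2).T 0 C x.2.2)
      refine (congrArg₂ (fun s t : H Γ D 0 (ov E f C) => pull f (h.adm C) 0 x.1 + (s + t))
        e1 e2).trans ?_
      rw [add_zero, add_zero]
  have f1 : ∀ C : Set B, Bijective (T.T 1 C) ↔
      Bijective (fun z : H Γ' D' 1 C × H Γ' D' 0 C =>
        pull f (h.adm C) 1 z.1 + cupH D 1 (pull f (h.adm C) 0 z.2) (res (ov_sub E f C) 1 a)) := by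
    intro C
    refine tr (u := fun x : ((mkTh M hsf').prod (((mkTh M hsf').shift 1).prod
        ((mkTh M hsf').shift 2))).h 1 C =>
          ((x.1, x.2.1 ⟨0, rfl⟩) : H Γ' D' 1 C × H Γ' D' 0 C)) ?_ ?_
    · have hb := shift_bij (mkTh M hsf') 1 1 0 rfl C
      constructor
      · intro x y hxy
        obtain ⟨h1, h2⟩ := Prod.ext_iff.1 hxy
        exact Prod.ext h1 (Prod.ext (hb.1 h2) (shift_sub _ 2 1 (by omega) C _ _))
      · rintro ⟨x, y⟩
        obtain ⟨y', hy'⟩ := hb.2 y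
        exact ⟨(x, y', fun m => absurd m.2 (by omega)), Prod.ext rfl hy'⟩
    · intro x
      have e1 : T₁.T 1 C x.2.1 = (cupH D 1 (pull f (h.adm C) 0 (x.2.1 ⟨0, rfl⟩ : H Γ' D' 0 C))
          (res (ov_sub E f C) 1 a) : H Γ D 1 (ov E f C)) :=
        cupT M hsf (ov_sub E f) 1 a 1 0 rfl C ((T₀.shift 1).T 1 C x.2.1)
      have e2 : T₂.T 1 C x.2.2 = (0 : H Γ D 1 (ov E f C)) :=
        cupT0 M hsf (ov_sub E f) 2 c 1 (by omega) C ((T₀.shift 2).T 1 C x.2.2)
      refine (congrArg₂ (fun s t : H Γ D 1 (ov E f C) => pull f (h.adm C) 1 x.1 + (s + t))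
        e1 e2).trans ?_
      exact congrArg (fun t => pull f (h.adm C) 1 x.1 + t) (add_zero _)
  have f2 : ∀ (C : Set B) (m : ℕ), Bijective (T.T (m + 2) C) ↔
      Bijective (fun z : H Γ' D' (m + 2) C × H Γ' D' (m + 1) C × H Γ' D' m C =>
        pull f (h.adm C) (m + 2) z.1 +
          cupH D (m + 2) (pull f (h.adm C) (m + 1) z.2.1) (res (ov_sub E f C) 1 a) +
          cupH D (m + 2) (pull f (h.adm C) m z.2.2) (res (ov_sub E f C) 2 c)) := by
    intro C m
    refine tr (u := fun x : ((mkTh M hsf').prod (((mkTh M hsf').shift 1).prod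
        ((mkTh M hsf').shift 2))).h (m + 2) C =>
          ((x.1, x.2.1 ⟨m + 1, rfl⟩, x.2.2 ⟨m, rfl⟩) :
            H Γ' D' (m + 2) C × H Γ' D' (m + 1) C × H Γ' D' m C)) ?_ ?_
    · have hb := shift_bij (mkTh M hsf') 1 (m + 2) (m + 1) rfl C
      have hb' := shift_bij (mkTh M hsf') 2 (m + 2) m rfl C
      constructor
      · intro x y hxy
        obtain ⟨h1, h2⟩ := Prod.ext_iff.1 hxy
        obtain ⟨h2, h3⟩ := Prod.ext_iff.1 h2
        exact Prod.ext h1 (Prod.ext (hb.1 h2) (hb'.1 h3))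
      · rintro ⟨x, y, z⟩
        obtain ⟨y', hy'⟩ := hb.2 y
        obtain ⟨z', hz'⟩ := hb'.2 z
        exact ⟨(x, y', z'), Prod.ext rfl (Prod.ext hy' hz')⟩
    · intro x
      have e1 : T₁.T (m + 2) C x.2.1 = (cupH D (m + 2) (pull f (h.adm C) (m + 1)
          (x.2.1 ⟨m + 1, rfl⟩ : H Γ' D' (m + 1) C))
          (res (ov_sub E f C) 1 a) : H Γ D (m + 2) (ov E f C)) :=
        cupT M hsf (ov_sub E f) 1 a (m + 2) (m + 1) rfl C ((T₀.shift 1).T (m + 2) C x.2.1)
      have e2 : T₂.T (m + 2) C x.2.2 = (cupH D (m + 2) (pull f (h.adm C) m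
          (x.2.2 ⟨m, rfl⟩ : H Γ' D' m C))
          (res (ov_sub E f C) 2 c) : H Γ D (m + 2) (ov E f C)) :=
        cupT M hsf (ov_sub E f) 2 c (m + 2) m rfl C ((T₀.shift 2).T (m + 2) C x.2.2)
      refine (congrArg₂ (fun s t : H Γ D (m + 2) (ov E f C) =>
        pull f (h.adm C) (m + 2) x.1 + (s + t)) e1 e2).trans ?_
      exact (add_assoc _ _ _).symm
  -- bijectivity at the orbits
  have horb : ∀ p ∈ S, ∀ n, Bijective (T.T n (orb Γ' p)) := by
    intro p hp
    by_cases hpD : p ∈ D'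
    · have h1 : orb Γ' p ⊆ D' := by
        rintro x ⟨g, hg, rfl⟩
        exact h.okD'.inv g hg p hpD
      have h2 : ov E f (orb Γ' p) ⊆ D := fun x hx => (h.hD x hx.1).2 (h1 hx.2)
      have z1 : ∀ (n : ℕ) (x y : H Γ' D' n (orb Γ' p)), x = y := fun n x y =>
        (H_sub h1 x).trans (H_sub h1 y).symm
      have z2 : ∀ (n : ℕ) (x y : H Γ D n (ov E f (orb Γ' p))), x = y := fun n x y =>
        (H_sub h2 x).trans (H_sub h2 y).symm
      intro n
      rcases n with _ | _ | m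
      · rw [f0]
        exact ⟨fun x y _ => z1 0 x y, fun y => ⟨0, z2 0 _ _⟩⟩
      · rw [f1]
        exact ⟨fun x y _ => Prod.ext (z1 _ _ _) (z1 _ _ _), fun y => ⟨(0, 0), z2 _ _ _⟩⟩
      · rw [f2]
        exact ⟨fun x y _ => Prod.ext (z1 _ _ _) (Prod.ext (z1 _ _ _) (z1 _ _ _)),
          fun y => ⟨(0, 0, 0), z2 _ _ _⟩⟩
    · have h1 : orb Γ' p ∩ D' = ∅ := by
        rw [Set.eq_empty_iff_forall_notMem]
        rintro x ⟨⟨g, hg, rfl⟩, hx⟩
        have := h.okD'.inv g⁻¹ (Γ'.inv_mem hg) _ hx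
        rw [IsometryEquiv.inv_apply_self] at this
        exact hpD this
      have h2 : ov E f (orb Γ' p) ∩ D = ∅ := by
        rw [Set.eq_empty_iff_forall_notMem]
        rintro x ⟨hx, hxD⟩
        have : f x ∈ orb Γ' p ∩ D' := ⟨hx.2, (h.hD x hx.1).1 hxD⟩
        rw [h1] at this
        exact this
      have u := fun n => hL4 B Γ' D' (orb Γ' p) n h1
      have v := fun n => hL4 X Γ D (ov E f (orb Γ' p)) n h2
      have hpp : ∀ (n : ℕ) (x : H Γ' D' n (orb Γ' p)),
          pull (fun x => x) (adm_id (Γ := Γ) (D := D) (ov E f (orb Γ' p))) n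
            (pull f (h.adm (orb Γ' p)) n x) =
          pull f (h.adm0 (orb Γ' p)) n
            (pull (fun x => x) (adm_id (Γ := Γ') (D := D') (orb Γ' p)) n x) := by
        intro n x
        rw [pull_pull, pull_pull]
      obtain ⟨g0, g1, g2⟩ := hyp p hp hpD
      intro n
      rcases n with _ | _ | m
      · rw [f0]
        exact sq (u 0) (v 0) g0 fun x => hpp 0 x
      · rw [f1]
        refine sq (u := Prod.map (pull (fun x => x) (adm_id (Γ := Γ') (D := D') (orb Γ' p)) 1)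
          (pull (fun x => x) (adm_id (Γ := Γ') (D := D') (orb Γ' p)) 0))
          ((u 1).prodMap (u 0)) (v 1) g1 fun x => ?_
        refine (map_add _ _ _).trans ?_
        refine congrArg₂ (· + ·) (hpp 1 _) ?_
        refine (pull_id_cup (by omega) _ _).trans ?_
        exact congrArg (fun t => cupH ∅ 1 t (res (ov_sub E f (orb Γ' p)) 1 a)) (hpp 0 _)
      · rw [f2]
        refine sq (u := Prod.map (pull (fun x => x) (adm_id (Γ := Γ') (D := D') (orb Γ' p)) (m + 2))
          (Prod.map (pull (fun x => x) (adm_id (Γ := Γ') (D := D') (orb Γ' p)) (m + 1))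
            (pull (fun x => x) (adm_id (Γ := Γ') (D := D') (orb Γ' p)) m)))
          ((u (m + 2)).prodMap ((u (m + 1)).prodMap (u m))) (v (m + 2)) (g2 m) fun x => ?_
        refine (map_add _ _ _).trans ?_
        refine congrArg₂ (· + ·) ?_ ?_
        · refine (map_add _ _ _).trans ?_
          refine congrArg₂ (· + ·) (hpp (m + 2) _) ?_
          refine (pull_id_cup (by omega) _ _).trans ?_
          exact congrArg (fun t => cupH ∅ (m + 2) t (res (ov_sub E f (orb Γ' p)) 1 a))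
            (hpp (m + 1) _)
        · refine (pull_id_cup (by omega) _ _).trans ?_
          exact congrArg (fun t => cupH ∅ (m + 2) t (res (ov_sub E f (orb Γ' p)) 2 c)) (hpp m _)
  intro C hC
  have key : ∀ n, Bijective (T.T n C) := fun n =>
    (hL2 B Γ' S _ _ T (n + 1) h.fin h.okS.inv (fun p hp m _ => horb p hp m)
      (fun p hp => (horb p hp (n + 1)).1) C hC).1 n (Nat.lt_succ_self n)
  exact ⟨(f0 C).1 (key 0), (f1 C).1 (key 1), fun m => (f2 C m).1 (key (m + 2))⟩

end AS
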