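import Pool.Agent.Lib.AS.SpecLG
import Pool.Agent.Lib.AS.N1
import Pool.Agent.Lib.AS.N2

/-!
# Alexander-Spanier cohomology: W3a, relative Leray-Hirsch theorem over an ordinary base (helper18)
-/

set_option autoImplicit false

namespace AS

namespace W3ax

variable {X B : Type} [MetricSpace X] [MetricSpace B]

theorem orb_bot (p : B) : orb (⊥ : Subgroup (B ≃ᵢ B)) p = {p} := by
  ext x
  constructor
  · rintro ⟨g, hg, rfl⟩
    rw [Subgroup.mem_bot.mp hg]
    rfl
  · intro hx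
    rw [Set.mem_singleton_iff] at hx
    exact ⟨1, Subgroup.one_mem _, hx⟩

/-- the groups of a point -/
theorem point0 (p : B) (x : H (⊥ : Subgroup (B ≃ᵢ B)) ∅ 0 {p}) : x = 0 ∨ x = one ⊥ {p} :=
  (pN2 B ⊥ {p}).1 isPreconnected_singleton x

theorem pointS (p : B) (n : ℕ) (x : H (⊥ : Subgroup (B ≃ᵢ B)) ∅ (n + 1) {p}) : x = 0 :=
  pN1 B ⊥ ∅ {p} n (Set.finite_singleton p) x

theorem cup0 {Γ : Subgroup (X ≃ᵢ X)} {C : Set X} {p q n : ℕ} (h : p + q = n) (y : H Γ ∅ q C) :
    cupH ∅ n (0 : H Γ ∅ p C) y = 0 :=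
  cupH_zero_left h (Or.inl Set.inter_subset_right) y

/-- a map between groups `{0, a}` and `{0, b}` -/
theorem bij {G G' : Type} (T : G → G') {z a : G} {z' b : G'} (hz : T z = z')
    (ha : T a = b) (hb : b ≠ z') (h : ∀ x, x = z ∨ x = a) (h' : ∀ y, y = z' ∨ y = b) :
    Function.Bijective T := by
  constructor
  · intro x y hxy
    rcases h x with rfl | rfl <;> rcases h y with rfl | rfl
    · rfl
    · exact absurd (ha.symm.trans (hxy.symm.trans hz)) hb
    · exact absurd (ha.symm.trans (hxy.trans hz)) hb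
    · rfl
  · intro y
    rcases h' y with rfl | rfl
    · exact ⟨z, hz⟩
    · exact ⟨a, ha⟩

/-- a map between groups with one element -/
theorem bij1 {G G' : Type} (T : G → G') (z : G) (z' : G') (h : ∀ x, x = z) (h' : ∀ y, y = z') :
    Function.Bijective T :=
  ⟨fun x y _ => (h x).trans (h y).symm, fun y => ⟨z, (h' _).trans (h' y).symm⟩⟩

theorem sum3 {G : Type} [AddCommGroup G] {x y z w : G} (hx : x = 0) (hy : y = 0) (hz : z = w) :
    x + y + z = w := by
  rw [hx, hy, hz, add_zero, zero_add]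

/-- the hypothesis of `W3` at a point -/
theorem key {Γ : Subgroup (X ≃ᵢ X)} {D E : Set X} {D' S : Set B} {f : X → B}
    (h : Fib Γ D E ⊥ D' S f) (a : H Γ ∅ 1 E) (c : H Γ ∅ 2 E) (p : B) (O : Set B) (hO : O = {p})
    (hb : Bas3 Γ (ov E f {p}) (res (ov_sub E f {p}) 1 a) (res (ov_sub E f {p}) 2 c)) :
    Function.Bijective (pull f (h.adm0 O) 0) ∧
    Function.Bijective (fun z : H ⊥ ∅ 1 O × H ⊥ ∅ 0 O =>
      pull f (h.adm0 O) 1 z.1 +
        cupH ∅ 1 (pull f (h.adm0 O) 0 z.2) (res (ov_sub E f O) 1 a)) ∧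
    ∀ m, Function.Bijective (fun z : H ⊥ ∅ (m + 2) O × H ⊥ ∅ (m + 1) O × H ⊥ ∅ m O =>
      pull f (h.adm0 O) (m + 2) z.1 +
        cupH ∅ (m + 2) (pull f (h.adm0 O) (m + 1) z.2.1) (res (ov_sub E f O) 1 a) +
        cupH ∅ (m + 2) (pull f (h.adm0 O) m z.2.2) (res (ov_sub E f O) 2 c)) := by
  subst hO
  obtain ⟨h0, h1, ha, ha0, hc, hc0, h3⟩ := hb
  have hone : pull f (h.adm0 {p}) 0 (one ⊥ {p}) = one Γ (ov E f {p}) := rfl
  refine ⟨?_, ?_, ?_⟩
  · exact bij _ (pull f (h.adm0 {p}) 0).map_zero hone h1 (point0 p) h0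
  · refine bij _ (z := (0, 0)) (a := (0, one ⊥ {p})) (z' := 0) (b := res (ov_sub E f {p}) 1 a)
      ?_ ?_ ha0 ?_ ha
    · beta_reduce
      rw [(pull f (h.adm0 {p}) 1).map_zero, (pull f (h.adm0 {p}) 0).map_zero, zero_add]
      exact cup0 rfl _
    · beta_reduce
      rw [(pull f (h.adm0 {p}) 1).map_zero, hone, zero_add]
      exact one_cupH _
    · rintro ⟨x, y⟩
      have hx := pointS p 0 x
      rcases point0 p y with hy | hy
      · exact Or.inl (Prod.ext hx hy)
      · exact Or.inr (Prod.ext hx hy)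
  · intro m
    rcases m with _ | m
    · refine bij _ (z := (0, 0, 0)) (a := (0, 0, one ⊥ {p})) (z' := 0)
        (b := res (ov_sub E f {p}) 2 c) ?_ ?_ hc0 ?_ hc
      · refine sum3 (pull f (h.adm0 {p}) (0 + 2)).map_zero ?_ ?_
        · beta_reduce
          rw [(pull f (h.adm0 {p}) (0 + 1)).map_zero]
          exact cup0 rfl _
        · beta_reduce
          rw [(pull f (h.adm0 {p}) 0).map_zero]
          exact cup0 rfl _
      · refine sum3 (pull f (h.adm0 {p}) (0 + 2)).map_zero ?_ ?_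
        · beta_reduce
          rw [(pull f (h.adm0 {p}) (0 + 1)).map_zero]
          exact cup0 rfl _
        · exact one_cupH (res (ov_sub E f {p}) 2 c)
      · rintro ⟨x, y, w⟩
        have hx := pointS p 1 x
        have hy := pointS p 0 y
        rcases point0 p w with hw | hw
        · exact Or.inl (Prod.ext hx (Prod.ext hy hw))
        · exact Or.inr (Prod.ext hx (Prod.ext hy hw))
    · refine bij1 _ (0, 0, 0) 0 ?_ (h3 m)
      rintro ⟨x, y, w⟩
      exact Prod.ext (pointS p (m + 2) x) (Prod.ext (pointS p (m + 1) y) (pointS p m w))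

end W3ax

/-- **W3a.** Relative Leray-Hirsch theorem with basis `1, a, c` over an ordinary compact base. -/
theorem pW3a (hW : W3) : W3a := by
  intro X B _ _ Γ D E D' S f h a c hb C hC hCS
  refine hW X B Γ D E ⊥ D' S f h a c (fun p hp hpD => ?_) C ⟨hC, IvS.bot C, hCS⟩
  exact W3ax.key h a c p _ (W3ax.orb_bot p) (hb p hp hpD)

end AS
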