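import Pool.Agent.Lib.AS.Fbr

/-!
# The relative Leray-Hirsch theorem over a quotient, basis `1, a, c`
-/

set_option autoImplicit false

namespace AS

theorem pW3b (w3 : W3) (q1 : Q1) (n1 : N1) (n2 : N2) : W3b := by
  intro X B _ _ Γ K D E Γ' D' S f h q a c hac C hC
  refine w3 X B Γ D E Γ' D' S f h a c ?_ C hC
  intro p hp hpD
  obtain ⟨a1, a2, a3, a4, a5, a6, a7⟩ := hac p hp hpD
  have hq := fun m => q1 X B Γ K D E Γ' D' S f h q p m (Fbr.ov_sub_orb E f Γ' p)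
    (Fbr.pt_sub_orb Γ' p) hp
  have hE := fun m => (hq m).1 ∅ (OkD.empty Γ)
  have hB := fun m => (hq m).2 ∅ (OkD.empty Γ')
  refine ⟨?_, ?_, ?_⟩
  · exact Fbr.bij_square (hB 0) (hE 0) (Fbr.rk_pull h q p 0) (Fbr.pt_bij0 n2 h q p a1 a2)
  · have hs : ∀ z : H Γ' ∅ 1 (orb Γ' p) × H Γ' ∅ 0 (orb Γ' p),
        rk q.le (Fbr.ov_sub_orb E f Γ' p) 1 (pull f (h.adm0 (orb Γ' p)) 1 z.1 +
          cupH ∅ 1 (pull f (h.adm0 (orb Γ' p)) 0 z.2) (res (ov_sub E f (orb Γ' p)) 1 a)) =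
        (fun w : H (⊥ : Subgroup (B ≃ᵢ B)) ∅ 1 {p} × H (⊥ : Subgroup (B ≃ᵢ B)) ∅ 0 {p} =>
          pull f (Fbr.admK h q p) 1 w.1 + cupH ∅ 1 (pull f (Fbr.admK h q p) 0 w.2)
            (rk q.le (ov_sub E f {p}) 1 a))
          (Prod.map (rk bot_le (Fbr.pt_sub_orb Γ' p) 1)
            (rk bot_le (Fbr.pt_sub_orb Γ' p) 0) z) := by
      rintro ⟨z, w⟩
      rw [map_add, Fbr.rk_pull h q p, Fbr.rk_cupH (p := 0) (q := 1) (n := 1) rfl,
        Fbr.rk_pull h q p, rk_res q.le (ov_sub E f (orb Γ' p)) (Fbr.ov_sub_orb E f Γ' p) (ov_sub E f {p})]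
      rfl
    refine Fbr.bij_square (Ψ := fun w : H (⊥ : Subgroup (B ≃ᵢ B)) ∅ 1 {p} ×
        H (⊥ : Subgroup (B ≃ᵢ B)) ∅ 0 {p} =>
          pull f (Fbr.admK h q p) 1 w.1 + cupH ∅ 1 (pull f (Fbr.admK h q p) 0 w.2)
            (rk q.le (ov_sub E f {p}) 1 a))
      (Function.Bijective.prodMap (hB 1) (hB 0)) (hE 1) hs ?_
    refine Fbr.bij_two
      (P := H (⊥ : Subgroup (B ≃ᵢ B)) ∅ 1 {p} × H (⊥ : Subgroup (B ≃ᵢ B)) ∅ 0 {p})
      (Q := H K ∅ 1 (ov E f {p})) (g := (0, one ⊥ {p})) (g' := rk q.le (ov_sub E f {p}) 1 a)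
      ?_ a3 a4 ?_ ?_
    · rintro ⟨z, w⟩
      rcases Fbr.pt_zero n2 p w with rfl | rfl
      · exact Or.inl (Prod.ext (Fbr.pt_succ n1 p 0 z) rfl)
      · exact Or.inr (Prod.ext (Fbr.pt_succ n1 p 0 z) rfl)
    · change pull f (Fbr.admK h q p) 1 0 + cupH ∅ 1 (pull f (Fbr.admK h q p) 0 0)
        (rk q.le (ov_sub E f {p}) 1 a) = 0
      rw [map_zero, map_zero, cupH_zero_left (p := 0) (q := 1) (n := 1) rfl
        (Or.inl Set.inter_subset_right), add_zero]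
    · change pull f (Fbr.admK h q p) 1 0 +
        cupH ∅ 1 (pull f (Fbr.admK h q p) 0 (one ⊥ {p})) (rk q.le (ov_sub E f {p}) 1 a) = _
      rw [map_zero, Fbr.pull_one, one_cupH]
      exact zero_add _
  · intro m
    have hs : ∀ z : H Γ' ∅ (m + 2) (orb Γ' p) × H Γ' ∅ (m + 1) (orb Γ' p) × H Γ' ∅ m (orb Γ' p),
        rk q.le (Fbr.ov_sub_orb E f Γ' p) (m + 2) (pull f (h.adm0 (orb Γ' p)) (m + 2) z.1 +
          cupH ∅ (m + 2) (pull f (h.adm0 (orb Γ' p)) (m + 1) z.2.1)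
            (res (ov_sub E f (orb Γ' p)) 1 a) +
          cupH ∅ (m + 2) (pull f (h.adm0 (orb Γ' p)) m z.2.2)
            (res (ov_sub E f (orb Γ' p)) 2 c)) =
        (fun w : H (⊥ : Subgroup (B ≃ᵢ B)) ∅ (m + 2) {p} ×
            H (⊥ : Subgroup (B ≃ᵢ B)) ∅ (m + 1) {p} × H (⊥ : Subgroup (B ≃ᵢ B)) ∅ m {p} =>
          pull f (Fbr.admK h q p) (m + 2) w.1 +
            cupH ∅ (m + 2) (pull f (Fbr.admK h q p) (m + 1) w.2.1)
              (rk q.le (ov_sub E f {p}) 1 a) +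
            cupH ∅ (m + 2) (pull f (Fbr.admK h q p) m w.2.2)
              (rk q.le (ov_sub E f {p}) 2 c))
          (Prod.map (rk bot_le (Fbr.pt_sub_orb Γ' p) (m + 2))
            (Prod.map (rk bot_le (Fbr.pt_sub_orb Γ' p) (m + 1))
              (rk bot_le (Fbr.pt_sub_orb Γ' p) m)) z) := by
      rintro ⟨z, w, v⟩
      rw [map_add, map_add, Fbr.rk_pull h q p, Fbr.rk_cupH (p := m + 1) (q := 1) (n := m + 2) rfl,
        Fbr.rk_pull h q p, Fbr.rk_cupH (p := m) (q := 2) (n := m + 2) rfl, Fbr.rk_pull h q p,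
        rk_res q.le (ov_sub E f (orb Γ' p)) (Fbr.ov_sub_orb E f Γ' p) (ov_sub E f {p}),
        rk_res q.le (ov_sub E f (orb Γ' p)) (Fbr.ov_sub_orb E f Γ' p) (ov_sub E f {p})]
      rfl
    refine Fbr.bij_square (Ψ := fun w : H (⊥ : Subgroup (B ≃ᵢ B)) ∅ (m + 2) {p} ×
            H (⊥ : Subgroup (B ≃ᵢ B)) ∅ (m + 1) {p} × H (⊥ : Subgroup (B ≃ᵢ B)) ∅ m {p} =>
          pull f (Fbr.admK h q p) (m + 2) w.1 +
            cupH ∅ (m + 2) (pull f (Fbr.admK h q p) (m + 1) w.2.1)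
              (rk q.le (ov_sub E f {p}) 1 a) +
            cupH ∅ (m + 2) (pull f (Fbr.admK h q p) m w.2.2)
              (rk q.le (ov_sub E f {p}) 2 c))
      (Function.Bijective.prodMap (hB (m + 2)) (Function.Bijective.prodMap (hB (m + 1)) (hB m)))
      (hE (m + 2)) hs ?_
    rcases m with _ | m
    · refine Fbr.bij_two
        (P := H (⊥ : Subgroup (B ≃ᵢ B)) ∅ 2 {p} × H (⊥ : Subgroup (B ≃ᵢ B)) ∅ 1 {p} ×
          H (⊥ : Subgroup (B ≃ᵢ B)) ∅ 0 {p})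
        (Q := H K ∅ 2 (ov E f {p})) (g := (0, 0, one ⊥ {p}))
        (g' := rk q.le (ov_sub E f {p}) 2 c) ?_ a5 a6 ?_ ?_
      · rintro ⟨z, w, v⟩
        rcases Fbr.pt_zero n2 p v with rfl | rfl
        · exact Or.inl (Prod.ext (Fbr.pt_succ n1 p 1 z) (Prod.ext (Fbr.pt_succ n1 p 0 w) rfl))
        · exact Or.inr (Prod.ext (Fbr.pt_succ n1 p 1 z) (Prod.ext (Fbr.pt_succ n1 p 0 w) rfl))
      · change pull f (Fbr.admK h q p) 2 0 +
          cupH ∅ 2 (pull f (Fbr.admK h q p) 1 0) (rk q.le (ov_sub E f {p}) 1 a) +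
          cupH ∅ 2 (pull f (Fbr.admK h q p) 0 0) (rk q.le (ov_sub E f {p}) 2 c) = 0
        rw [map_zero, map_zero, map_zero, cupH_zero_left (p := 1) (q := 1) (n := 2) rfl
          (Or.inl Set.inter_subset_right), cupH_zero_left (p := 0) (q := 2) (n := 2) rfl
          (Or.inl Set.inter_subset_right), add_zero, add_zero]
      · change pull f (Fbr.admK h q p) 2 0 +
          cupH ∅ 2 (pull f (Fbr.admK h q p) 1 0) (rk q.le (ov_sub E f {p}) 1 a) +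
          cupH ∅ 2 (pull f (Fbr.admK h q p) 0 (one ⊥ {p})) (rk q.le (ov_sub E f {p}) 2 c) = _
        rw [map_zero, map_zero, Fbr.pull_one, one_cupH, cupH_zero_left (p := 1) (q := 1) (n := 2)
          rfl (Or.inl Set.inter_subset_right), add_zero]
        exact zero_add _
    · refine Fbr.bij_zero ?_ (a7 m)
      rintro ⟨z, w, v⟩
      exact Prod.ext (Fbr.pt_succ n1 p (m + 2) z)
        (Prod.ext (Fbr.pt_succ n1 p (m + 1) w) (Fbr.pt_succ n1 p m v))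

end AS
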