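import Pool.Agent.Lib.AS.AllM
import Pool.Agent.Lib.AS.L0
import Pool.Agent.Lib.AS.L1
import Pool.Agent.Lib.AS.L2
import Pool.Agent.Lib.AS.L3
import Pool.Agent.Lib.AS.L4
import Pool.Agent.Lib.AS.L5
import Pool.Agent.Lib.AS.L7
import Pool.Agent.Lib.AS.L8
import Pool.Agent.Lib.AS.W1
import Pool.Agent.Lib.AS.W2
import Pool.Agent.Lib.AS.W3
import Pool.Agent.Lib.AS.Q1
import Pool.Agent.Lib.AS.W1a
import Pool.Agent.Lib.AS.W2a
import Pool.Agent.Lib.AS.W3a
import Pool.Agent.Lib.AS.W4a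
import Pool.Agent.Lib.AS.W1b
import Pool.Agent.Lib.AS.W2b
import Pool.Agent.Lib.AS.W3b
import Pool.Agent.Lib.AS.L6
import Pool.Agent.Lib.AS.DIM
import Pool.Agent.Lib.AS.DIMb

/-!
# Alexander-Spanier cohomology: local-to-global, Vietoris-Begle, Leray-Hirsch without hypotheses
-/

set_option autoImplicit false

namespace AS

theorem okL0 : L0 := pL0
theorem okL1 : L1 := pL1 okL0
theorem okL2 : L2 := pfL2 okL0 okL1
theorem okL3 : L3 := pL3 okM1
theorem okL4 : L4 := pL4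
theorem okL5 : L5 := pL5
theorem okL6 : L6 := pL6 okL5
theorem okL7 : L7 := pL7
theorem okL8 : L8 := pL8
theorem okQ1 : Q1 := pQ1 okN3
theorem okDIM : DIM := pDIM allM okL3 okL0 okL6 okL7
theorem okDIMb : DIMb := pDIMb allM okL3 okL6 okQ1
theorem okW1 : W1 := pW1 allM okL3 okL2 okL4
theorem okW2 : W2 := pW2 allM okL3 okL2 okL4
theorem okW3 : W3 := pfW3 allM okL3 okL2 okL4
theorem okW1a : W1a := pW1a okW1 okL0 okN1 okN2
theorem okW2a : W2a := pW2a okW2 okL0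
theorem okW3a : W3a := pW3a okW3
theorem okW4a : W4a := pW4a allM okL3 okL0 okL2 okL4 okN1 okN2
theorem okW1b : W1b := pW1b okW1 okQ1 okN1 okN2
theorem okW2b : W2b := pW2b okW2 okQ1 okN1 okN2
theorem okW3b : W3b := pW3b okW3 okQ1 okN1 okN2

end AS
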