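import Pool.Agent.Lib.AS.SpecCup

/-!
# Alexander-Spanier cohomology: commutativity with classes of degree one
-/

set_option autoImplicit false

namespace AS

namespace K1x

variable {X : Type}

/-- the last entry, with a default value -/
def lst : X → List X → X
  | d, [] => d
  | _, w :: m => lst w m

theorem lst_cons (d w : X) (m : List X) : lst d (w :: m) = lst w m := rfl

theorem lst_append (d : X) (m : List X) (z : X) : lst d (m ++ [z]) = z := by
  induction m generalizing d with
  | nil => rfl
  | cons w m ih => exact ih w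

theorem lst_map {Y : Type} (f : X → Y) (d : X) (m : List X) : lst (f d) (m.map f) = f (lst d m) := by
  induction m generalizing d with
  | nil => rfl
  | cons w m ih => exact ih w

theorem lst_mem (d : X) (m : List X) : lst d m ∈ d :: m := by
  induction m generalizing d with
  | nil => exact List.mem_cons_self
  | cons w m ih => exact List.mem_cons_of_mem d (ih w)

theorem drop_lst (d : X) (m : List X) : (d :: m).drop m.length = [lst d m] := by
  induction m generalizing d with
  | nil => rfl
  | cons w m ih =>
    rw [List.length_cons, List.drop_succ_cons]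
    exact ih w

/-- the cochain -/
def eta (φ ψ : List X → ZMod 2) : List X → ZMod 2
  | [] => 0
  | x :: m => φ [x, lst x m] * ψ (x :: m)

theorem dd_last (g : X → ZMod 2) (z : X) (n : List X) (d : X) (χ : List X → ZMod 2) :
    dd (fun m => g (lst d m) * χ m) (n ++ [z]) =
      g z * dd χ (n ++ [z]) + (g (lst d n) + g z) * χ n := by
  induction n generalizing d χ with
  | nil =>
    rw [List.nil_append, dd_cons, dd_cons, dd_nil, dd_nil]
    change g d * χ [] + 0 = g z * (χ [] + 0) + (g d + g z) * χ []
    have h := z2_add_self (g z * χ [])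
    have h1 : g z * (χ [] + 0) + (g d + g z) * χ [] = g d * χ [] + (g z * χ [] + g z * χ []) := by
      ring
    rw [h1, h]
  | cons w n ih =>
    rw [List.cons_append, dd_cons, dd_cons]
    have h1 : (fun m => g (lst d (w :: m)) * χ (w :: m)) =
        fun m => g (lst w m) * (fun m' => χ (w :: m')) m := rfl
    rw [h1, ih w (fun m' => χ (w :: m')), lst_append, lst_cons]
    ring

end K1x

open K1x

theorem pK1 : K1 := by
  intro X _ Γ D C q a y
  obtain ⟨φ, hφ, rfl⟩ := cl_surj a
  obtain ⟨ψ, hψ, rfl⟩ := cl_surj y
  have hD1 : C ∩ D ⊆ (∅ : Set X) ∨ C ∩ D ⊆ D := Or.inr Set.inter_subset_right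
  have hD2 : C ∩ D ⊆ D ∨ C ∩ D ⊆ (∅ : Set X) := Or.inl Set.inter_subset_right
  rw [cupH_cl (p := 1) (q := q) (n := q + 1) (by omega) hD1,
    cupH_cl (p := q) (q := 1) (n := q + 1) rfl hD2, cl_eq_cl, mem_Bnd_succ]
  refine ⟨(cup_iv 1 hφ.1 hψ.1).add (cup_iv q hψ.1 hφ.1), eta φ ψ, ?_, ?_, ?_⟩
  · intro g hg l
    rcases l with _ | ⟨x, m⟩
    · rfl
    · change φ [g x, lst (g x) (m.map g)] * ψ ((x :: m).map g) = φ [x, lst x m] * ψ (x :: m)
      have h1 := hφ.1 g hg [x, lst x m]
      rw [lst_map g x m, hψ.1 g hg, ← h1]
      rfl
  · obtain ⟨ε, hε, h1⟩ := hψ.2.1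
    refine ⟨ε, hε, fun l hl hs => ?_⟩
    rcases l with _ | ⟨x, m⟩
    · rfl
    · change φ [x, lst x m] * ψ (x :: m) = 0
      rw [h1 _ hl hs, mul_zero]
  · obtain ⟨ε₁, hε₁, k1⟩ := hφ.2.2
    obtain ⟨ε₂, hε₂, k2⟩ := hψ.2.2
    refine ⟨min ε₁ ε₂, lt_min hε₁ hε₂, fun l hl hs => ?_⟩
    rcases l with _ | ⟨x, m⟩
    · simp at hl
    · have hm : m.length = q + 1 := by
        rw [List.length_cons] at hl
        omega
      have hm0 : m ≠ [] := by
        intro h
        rw [h] at hm
        simp at hm
      obtain ⟨n, z, hnz⟩ : ∃ n z, m = n ++ [z] :=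
        ⟨m.dropLast, m.getLast hm0, (List.dropLast_append_getLast hm0).symm⟩
      obtain ⟨h, t, hht⟩ : ∃ h t, m = h :: t := List.exists_cons_of_ne_nil hm0
      have hn : n.length = q := by
        rw [hnz, List.length_append, List.length_singleton] at hm
        omega
      have hz : lst h t = z := by
        have h1 : lst x m = z := by rw [hnz, lst_append]
        rw [hht, lst_cons] at h1
        exact h1
      -- entries
      have zm : z ∈ x :: m := by
        rw [hnz]
        simp
      have hmem : h ∈ x :: m := by
        rw [hht]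
        simp
      have ymem : lst x n ∈ x :: m := by
        rcases List.mem_cons.1 (lst_mem x n) with h1 | h1
        · rw [h1]
          exact List.mem_cons_self
        · rw [hnz]
          exact List.mem_cons_of_mem _ (List.mem_append_left _ h1)
      -- the cocycle conditions
      have tri : ∀ u v w : X, u ∈ x :: m → v ∈ x :: m → w ∈ x :: m →
          φ [v, w] + (φ [u, w] + φ [u, v]) = 0 := by
        intro u v w hu hv hw
        have h1 := k1 [u, v, w] rfl (hs.mono (by
          intro s hs'
          simp only [List.mem_cons, List.not_mem_nil, or_false] at hs'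
          rcases hs' with rfl | rfl | rfl
          · exact hu
          · exact hv
          · exact hw) (Set.Subset.refl C) (min_le_left _ _))
        rw [dd_cons, dd_cons, dd_cons, dd_nil, add_zero] at h1
        exact h1
      have t1 := tri x h z List.mem_cons_self hmem zm
      have t2 := tri x (lst x n) z List.mem_cons_self ymem zm
      have t3 := k2 (x :: m) (by rw [List.length_cons, hm]) (hs.eps (min_le_right _ _))
      rw [dd_cons] at t3
      -- the values
      have c1 : cup 1 φ ψ (x :: m) = φ [x, h] * ψ m := by
        rw [hht]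
        rfl
      have c2 : cup q ψ φ (x :: m) = ψ (x :: n) * φ [lst x n, z] := by
        unfold cup
        have e1 : (x :: m).take (q + 1) = x :: n := by
          rw [List.take_succ_cons, hnz, List.take_left' hn]
        have e2 : (x :: m).drop q = [lst x n, z] := by
          have e3 : x :: m = (x :: n) ++ [z] := by rw [hnz, List.cons_append]
          rw [e3, List.drop_append_of_le_length (by rw [List.length_cons, hn]; omega), ← hn,
            drop_lst]
          rfl
        rw [e1, e2]
      have c3 : dd (eta φ ψ) (x :: m) = φ [h, z] * ψ m + (φ [x, z] * dd (fun m' => ψ (x :: m')) m +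
          (φ [x, lst x n] + φ [x, z]) * ψ (x :: n)) := by
        rw [dd_cons]
        have e1 : eta φ ψ m = φ [h, z] * ψ m := by
          rw [hht]
          change φ [h, lst h t] * ψ (h :: t) = _
          rw [hz]
        have e2 : (fun m' => eta φ ψ (x :: m')) =
            fun m' => (fun s => φ [x, s]) (lst x m') * (fun m'' => ψ (x :: m'')) m' := rfl
        have e3 := dd_last (fun s => φ [x, s]) z n x (fun m'' => ψ (x :: m''))
        rw [← hnz] at e3
        rw [e1, e2, e3]
      have key : ∀ (A B Cc E F P Q R : ZMod 2), B + (Cc + A) = 0 → E + (Cc + F) = 0 → P + Q = 0 →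
          A * P + R * E + (B * P + (Cc * Q + (F + Cc) * R)) = 0 := by
        decide
      have hfin := key (φ [x, h]) (φ [h, z]) (φ [x, z]) (φ [lst x n, z]) (φ [x, lst x n]) (ψ m)
        (dd (fun m' => ψ (x :: m')) m) (ψ (x :: n)) t1 t2 t3
      rw [Pi.add_apply, Pi.add_apply, c1, c2, c3]
      exact hfin

end AS
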