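import Pool.Agent.Lib.AS.SpecCup

/-!
# Alexander-Spanier cohomology, K2: the connecting map and products with classes on the union
-/

set_option autoImplicit false

namespace AS

namespace K2x

variable {X : Type} [MetricSpace X] {Γ : Subgroup (X ≃ᵢ X)} {D A B I U : Set X} {n q m : ℕ}
  {φ ζ γ : List X → ZMod 2}

theorem right (h : MVs Γ D A B I U) (hm : n + q = m) (hγ : γ ∈ Cyc Γ ∅ q U)
    (hd : DelR Γ D A B n φ ζ) : DelR Γ D A B m (cup n φ γ) (cup (n + 1) ζ γ) := by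
  obtain ⟨η, e1, e2, e3, e4, e5⟩ := hd
  refine ⟨cup n η γ, cup_iv n e1 hγ.1, cup_z0_left hm e2, ?_, ?_, ?_⟩
  · refine (cup_z0_left (ψ := γ) hm e3).congr fun l _ _ => ?_
    change cup n (fun m => φ m + η m) γ l = _
    rw [cup_add_left]
    rfl
  · have h1 : Z0 (m + 2) A (cup (n + 1) (ζ + dd η) γ) :=
      cup_z0_left (p := n + 1) (q := q) (n := m + 1) (by omega) e4
    have h2 : Z0 (m + 2) A (cup n η (dd γ)) :=
      cup_z0_right (p := n) (q := q + 1) (n := m + 1) (by omega) (hγ.2.2.mono h.AU)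
    refine (h1.add h2).congr fun l hl _ => ?_
    rw [Pi.add_apply, Pi.add_apply, leibniz n η γ l (by omega)]
    change cup (n + 1) (fun m => ζ m + dd η m) γ l + _ = _
    rw [cup_add_left, add_assoc]
  · exact cup_z0_left (p := n + 1) (q := q) (n := m + 1) (by omega) e5

theorem left (h : MVs Γ D A B I U) (hm : n + q = m) (hγ : γ ∈ Cyc Γ ∅ q U)
    (hd : DelR Γ D A B n φ ζ) : DelR Γ D A B m (cup q γ φ) (cup q γ ζ) := by
  obtain ⟨η, e1, e2, e3, e4, e5⟩ := hd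
  have hm' : q + n = m := by omega
  refine ⟨cup q γ η, cup_iv q hγ.1 e1, cup_z0_right hm' e2, ?_, ?_, ?_⟩
  · refine (cup_z0_right (φ := γ) hm' e3).congr fun l _ _ => ?_
    change cup q γ (fun m => φ m + η m) l = _
    rw [cup_add_right]
    rfl
  · have h1 : Z0 (m + 2) A (cup q γ (ζ + dd η)) :=
      cup_z0_right (p := q) (q := n + 1) (n := m + 1) (by omega) e4
    have h2 : Z0 (m + 2) A (cup (q + 1) (dd γ) η) :=
      cup_z0_left (p := q + 1) (q := n) (n := m + 1) (by omega) (hγ.2.2.mono h.AU)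
    refine (h1.add h2).congr fun l hl _ => ?_
    rw [Pi.add_apply, Pi.add_apply, leibniz q γ η l (by omega)]
    change cup q γ (fun m => ζ m + dd η m) l + _ = _
    rw [cup_add_right]
    ring
  · exact cup_z0_right (p := q) (q := n + 1) (n := m + 1) (by omega) e5

end K2x

/-- **K2.** -/
theorem pK2 (h4 : M4) (h6 : M6) : K2 := by
  intro X _ Γ D A B I U n q m h hm hI u c
  obtain ⟨φ, hφ, rfl⟩ := cl_surj u
  obtain ⟨γ, hγ, rfl⟩ := cl_surj c
  obtain ⟨ζ, hζ, hd⟩ := h4 X Γ D A B I U n φ h hφ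
  obtain ⟨k1, -, -⟩ := h6 X Γ D A B I U n h
  obtain ⟨k2, -, -⟩ := h6 X Γ D A B I U m h
  rw [k1 φ ζ hφ hζ hd, res_cl]
  have hD1 : I ∩ D ⊆ D ∨ I ∩ D ⊆ (∅ : Set X) := Or.inl Set.inter_subset_right
  have hD2 : I ∩ D ⊆ (∅ : Set X) ∨ I ∩ D ⊆ D := Or.inr Set.inter_subset_right
  have hD3 : U ∩ D ⊆ D ∨ U ∩ D ⊆ (∅ : Set X) := Or.inl Set.inter_subset_right
  have hD4 : U ∩ D ⊆ (∅ : Set X) ∨ U ∩ D ⊆ D := Or.inr Set.inter_subset_right
  constructor
  · rw [cupH_cl hm hD1, cupH_cl (p := n + 1) (q := q) (n := m + 1) (by omega) hD3]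
    exact k2 _ _ _ _ (K2x.right h hm hγ hd)
  · rw [cupH_cl (p := q) (q := n) (n := m) (by omega) hD2,
      cupH_cl (p := q) (q := n + 1) (n := m + 1) (by omega) hD4]
    exact k2 _ _ _ _ (K2x.left h hm hγ hd)

end AS
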