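import Pool.Agent.Lib.AS.SpecCup

/-!
# Alexander-Spanier cohomology: the product of a class which vanishes on `A` with a class which vanishes
on `B` (statement `K3`, from `M3`)
-/

set_option autoImplicit false

namespace AS

namespace K3x

variable {X : Type} [MetricSpace X] {Γ : Subgroup (X ≃ᵢ X)} {A U : Set X} {p : ℕ}

open Classical in
/-- a class which vanishes on `A` is represented by a cocycle which vanishes on `A` -/
theorem rep (hA : A ⊆ U) (hi : IvS Γ A) (x : H Γ ∅ p U) (hx : res hA p x = 0) :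
    ∃ φ, ∃ hφ : φ ∈ Cyc Γ ∅ p U, cl φ hφ = x ∧ Z0 (p + 1) A φ := by
  obtain ⟨φ, hφ, rfl⟩ := cl_surj x
  rw [res_cl, cl_eq_zero] at hx
  obtain ⟨_, α, h1, _, h3, h4⟩ := hx
  set α' : List X → ZMod 2 := fun l => if ∀ x ∈ l, x ∈ A then α l else 0 with hα'
  have h5 : Iv Γ α' := by
    intro g hg l
    have h6 : (∀ x ∈ l.map g, x ∈ A) ↔ ∀ x ∈ l, x ∈ A := by
      constructor
      · intro h x hx
        exact (hi.iff hg x).mp (h _ (List.mem_map_of_mem hx))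
      · intro h x hx
        obtain ⟨y, hy, rfl⟩ := List.mem_map.mp hx
        exact hi g hg y (h y hy)
    change (if ∀ x ∈ l.map g, x ∈ A then α (l.map g) else 0) = if ∀ x ∈ l, x ∈ A then α l else 0
    by_cases h : ∀ x ∈ l, x ∈ A
    · rw [if_pos h, if_pos (h6.mpr h), h1 g hg l]
    · rw [if_neg h, if_neg (fun h' => h (h6.mp h'))]
  have h7 : α' [] = 0 := by
    change (if ∀ x ∈ ([] : List X), x ∈ A then α [] else 0) = 0
    rw [if_pos (by simp), h3]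
  have h8 : Z0 p (U ∩ ∅) α' := by
    rcases p with _ | p
    · exact Z0.nil.mpr h7
    · exact Z0.empty p (Set.inter_empty U) α'
  have h9 : dd α' ∈ Bnd Γ ∅ p U := by
    refine ⟨h5.dd, α', h5, h8, h7, ?_⟩
    rw [add_self]
    exact Z0.zero _ _
  have h10 : dd α' ∈ Cyc Γ ∅ p U := Bnd_le_Cyc Γ ∅ p U h9
  refine ⟨φ + dd α', (Cyc Γ ∅ p U).add_mem hφ h10, ?_, ?_⟩
  · rw [cl_add hφ h10, (cl_eq_zero h10).mpr h9, add_zero]
  · refine h4.congr fun l _ hl => ?_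
    rw [Pi.add_apply, Pi.add_apply]
    congr 1
    apply dd_congr
    intro m hm _
    change α m = if ∀ x ∈ m, x ∈ A then α m else 0
    rw [if_pos fun x hx => hl x (hm.subset hx)]

end K3x

theorem pK3 (h3 : M3) : K3 := by
  intro X _ Γ A B U p q hA hB okA okB hU x y hx hy
  obtain ⟨φ, hφ, rfl, h1⟩ := K3x.rep hA okA.inv x hx
  obtain ⟨ψ, hψ, rfl, h2⟩ := K3x.rep hB okB.inv y hy
  have hD : U ∩ ∅ ⊆ (∅ : Set X) ∨ U ∩ ∅ ⊆ (∅ : Set X) := Or.inl Set.inter_subset_right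
  rw [cupH_cl (p := p) (q := q) (n := p + q) rfl hD, cl_eq_zero]
  have h4 : Iv Γ (cup p φ ψ) := cup_iv p hφ.1 hψ.1
  subst hU
  obtain ⟨κ, k1, k2, _, _, k5, k6⟩ := h3 X Γ ∅ A B (p + q) (cup p φ ψ) (OkD.empty Γ) okA okB h4
    (cup_z0_left rfl h1) (cup_z0_right rfl h2) (Z0.empty _ (Set.inter_empty _) _)
    (cup_z0_dd rfl hφ.2.2 hψ.2.2)
  exact ⟨h4, κ, k1, k5, k2, k6⟩

end AS
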