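import Pool.Agent.Lib.AS.SpecMV

/-!
# Alexander-Spanier cohomology: M10, gluing of classes
-/

set_option autoImplicit false

namespace AS

namespace M10x

variable {X : Type}

open Classical in
/-- `φ` on the lists in `S`, zero on the other lists -/
noncomputable def cut (S : Set X) (φ : List X → ZMod 2) (l : List X) : ZMod 2 :=
  if ∀ x ∈ l, x ∈ S then φ l else 0

theorem cut_in {S : Set X} {φ : List X → ZMod 2} {l : List X} (h : ∀ x ∈ l, x ∈ S) :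
    cut S φ l = φ l := if_pos h

theorem cut_out {S : Set X} {φ : List X → ZMod 2} {l : List X} (h : ¬ ∀ x ∈ l, x ∈ S) :
    cut S φ l = 0 := if_neg h

theorem dd_cut {S : Set X} {φ : List X → ZMod 2} {l : List X} (h : ∀ x ∈ l, x ∈ S) :
    dd (cut S φ) l = dd φ l :=
  dd_congr fun _ hm _ => cut_in fun x hx => h x (hm.subset hx)

variable [MetricSpace X]

theorem cut_iv {Γ : Subgroup (X ≃ᵢ X)} {S : Set X} (hS : IvS Γ S) {φ : List X → ZMod 2}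
    (hφ : Iv Γ φ) : Iv Γ (cut S φ) := by
  intro g hg l
  by_cases h : ∀ x ∈ l, x ∈ S
  · have h' : ∀ x ∈ l.map g, x ∈ S := by
      intro x hx
      obtain ⟨y, hy, rfl⟩ := List.mem_map.mp hx
      exact hS g hg y (h y hy)
    rw [cut_in h, cut_in h', hφ g hg]
  · have h' : ¬ ∀ x ∈ l.map g, x ∈ S := by
      intro h1
      exact h fun x hx => (hS.iff hg x).mp (h1 _ (List.mem_map_of_mem hx))
    rw [cut_out h, cut_out h']

theorem cut_z0 {n : ℕ} {S T : Set X} {φ : List X → ZMod 2} (h : Z0 n (S ∩ T) φ) :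
    Z0 n T (cut S φ) := by
  obtain ⟨ε, hε, h1⟩ := h
  refine ⟨ε, hε, fun l hl hs => ?_⟩
  by_cases h2 : ∀ x ∈ l, x ∈ S
  · rw [cut_in h2]
    exact h1 l hl ⟨fun x hx => ⟨h2 x hx, hs.1 x hx⟩, hs.2⟩
  · exact cut_out h2

end M10x

open M10x in
theorem pM10 (h3 : M3) : M10 := by
  intro X _ Γ D A B I U n h a b hab
  obtain ⟨φ, hφ, rfl⟩ := cl_surj a
  obtain ⟨ψ, hψ, rfl⟩ := cl_surj b
  rw [res_cl, res_cl, cl_eq_cl] at hab
  obtain ⟨-, χ, hχ, hχD, hχ0, hχ1⟩ := hab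
  have hIiv : IvS Γ I := by
    rw [h.hI]
    exact h.okA.inv.inter h.okB.inv
  have hmemI : ∀ x, x ∈ A → x ∈ B → x ∈ I := fun x hx hx' => by
    rw [h.hI]
    exact ⟨hx, hx'⟩
  -- the extension of `χ`
  set χ' := cut I χ with hχ'
  have hχ'iv : Iv Γ χ' := cut_iv hIiv hχ
  have hχ'0 : χ' [] = 0 := by
    rw [hχ', cut_in (by simp)]
    exact hχ0
  have hχ'D : Z0 n (A ∩ D) χ' :=
    cut_z0 (hχD.mono fun x hx => ⟨hx.1, hx.2.2⟩)
  -- the glued cochain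
  set Φ := cut A (φ + dd χ') + (cut B ψ + cut (A ∩ B) ψ) with hΦ
  have hΦiv : Iv Γ Φ := (cut_iv h.okA.inv (hφ.1.add hχ'iv.dd)).add
    ((cut_iv h.okB.inv hψ.1).add (cut_iv (h.okA.inv.inter h.okB.inv) hψ.1))
  have hΦD : Z0 (n + 1) (U ∩ D) Φ := by
    refine Z0.add (cut_z0 ?_) (Z0.add (cut_z0 ?_) (cut_z0 ?_))
    · exact (hφ.2.1.add hχ'D.dd).mono fun x hx => ⟨hx.1, hx.2.2⟩
    · exact hψ.2.1.mono fun x hx => ⟨hx.1, hx.2.2⟩
    · exact hψ.2.1.mono fun x hx => ⟨hx.1.2, hx.2.2⟩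
  have hΦA : Z0 (n + 1) A (Φ + (φ + dd χ')) := by
    refine (Z0.zero (n + 1) A).congr fun l _ hl => ?_
    have h1 : cut B ψ l = cut (A ∩ B) ψ l := by
      by_cases h2 : ∀ x ∈ l, x ∈ B
      · rw [cut_in h2, cut_in (S := A ∩ B) fun x hx => ⟨hl x hx, h2 x hx⟩]
      · rw [cut_out h2, cut_out (S := A ∩ B) fun h4 => h2 fun x hx => (h4 x hx).2]
    rw [hΦ, Pi.add_apply, Pi.add_apply, Pi.add_apply (cut B ψ), h1, z2_add_self, add_zero,
      cut_in hl, z2_add_self]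
    rfl
  have hΦB : Z0 (n + 1) B (Φ + ψ) := by
    obtain ⟨ε, hε, h1⟩ := hχ1
    refine ⟨ε, hε, fun l hl hs => ?_⟩
    have h2 : Φ l = cut A (φ + dd χ') l + (ψ l + cut (A ∩ B) ψ l) := by
      rw [hΦ, Pi.add_apply, Pi.add_apply, cut_in hs.1]
    rw [Pi.add_apply, h2]
    by_cases h4 : ∀ x ∈ l, x ∈ A
    · have h5 : ∀ x ∈ l, x ∈ I := fun x hx => hmemI x (h4 x hx) (hs.1 x hx)
      have h6 := h1 l hl ⟨h5, hs.2⟩
      rw [Pi.add_apply, Pi.add_apply] at h6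
      rw [cut_in h4, cut_in (S := A ∩ B) fun x hx => ⟨h4 x hx, hs.1 x hx⟩, Pi.add_apply, hχ',
        dd_cut h5]
      have h7 : φ l + dd χ l + (ψ l + ψ l) + ψ l = φ l + ψ l + dd χ l + (ψ l + ψ l) := by ring
      rw [h7, h6, z2_add_self, add_zero]
    · rw [cut_out h4, cut_out (S := A ∩ B) fun h5 => h4 fun x hx => (h5 x hx).1, zero_add,
        add_zero, z2_add_self]
  -- the correction
  have hΦA' : Z0 (n + 2) A (dd Φ) := by
    have h1 := hΦA.dd.add hφ.2.2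
    have h2 : dd (Φ + (φ + dd χ')) + dd φ = dd Φ := by
      rw [dd_add' Φ, dd_add' φ, dd_dd', add_zero, add_assoc, add_self, add_zero]
    rw [h2] at h1
    exact h1
  have hΦB' : Z0 (n + 2) B (dd Φ) := by
    have h1 := hΦB.dd.add hψ.2.2
    have h2 : dd (Φ + ψ) + dd ψ = dd Φ := by
      rw [dd_add' Φ, add_assoc, add_self, add_zero]
    rw [h2] at h1
    exact h1
  have hU : U = A ∪ B := h.hU
  obtain ⟨κ, hκ, hκ0, hκA, hκB, hκD, hκ1⟩ := h3 X Γ D A B (n + 1) (dd Φ) h.okD h.okA h.okB hΦiv.dd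
    hΦA' hΦB' (by
      rw [← hU]
      exact hΦD.dd) (by
      rw [dd_dd']
      exact Z0.zero _ _)
  rw [← hU] at hκD hκ1
  have hcyc : Φ + κ ∈ Cyc Γ D n U := ⟨hΦiv.add hκ, hΦD.add hκD, by
    rw [dd_add' Φ]
    exact hκ1⟩
  refine ⟨cl (Φ + κ) hcyc, ?_, ?_⟩
  · rw [res_cl, cl_eq_cl]
    refine ⟨(hΦiv.add hκ).add hφ.1, χ', hχ'iv, hχ'D, hχ'0, ?_⟩
    have h1 : Φ + κ + φ + dd χ' = Φ + (φ + dd χ') + κ := by abel
    rw [h1]
    exact hΦA.add hκA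
  · rw [res_cl, cl_eq_cl]
    refine Bnd_of_Z0 ((hΦiv.add hκ).add hψ.1) ?_
    have h1 : Φ + κ + ψ = Φ + ψ + κ := by abel
    rw [h1]
    exact hΦB.add hκB

end AS
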