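import Pool.Agent.Lib.AS.SpecMV

/-!
# Alexander-Spanier cohomology: M11, naturality of the connecting map (helper18)
-/

set_option autoImplicit false

namespace AS

namespace M11x

variable {X Y : Type} [MetricSpace X] [MetricSpace Y]

/-- the relation of the connecting map is compatible with pullback -/
theorem delR {Γ : Subgroup (X ≃ᵢ X)} {D A B U : Set X} {Γ' : Subgroup (Y ≃ᵢ Y)} {D' A' B' U' : Set Y}
    {f : X → Y} {n : ℕ} (hA : ∀ x ∈ A, f x ∈ A') (hB : ∀ x ∈ B, f x ∈ B') (hAU : A ⊆ U) (hBU : B ⊆ U)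
    (hU : Adm Γ D U Γ' D' U' f) {φ ζ : List Y → ZMod 2} (h : DelR Γ' D' A' B' n φ ζ) :
    DelR Γ D A B n (fun l => φ (l.map f)) (fun l => ζ (l.map f)) := by
  obtain ⟨η, h1, h2, h3, h4, h5⟩ := h
  have huc : ∀ C ⊆ U, ∀ ε > 0, ∃ δ > 0, ∀ x ∈ C, ∀ y ∈ C, dist x y < δ → dist (f x) (f y) < ε := by
    intro C hC ε hε
    obtain ⟨δ, hδ, h⟩ := hU.uc ε hε
    exact ⟨δ, hδ, fun x hx y hy => h x (hC hx) y (hC hy)⟩
  refine ⟨fun l => η (l.map f), hU.iv h1, ?_, ?_, ?_, ?_⟩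
  · exact Z0.comp (A := A ∩ D) (B := A' ∩ D')
      (fun x hx => ⟨hA x hx.1, hU.mapsD x (hAU hx.1) hx.2⟩)
      (huc _ (Set.inter_subset_left.trans hAU)) h2
  · exact Z0.comp (A := A ∩ B) (B := A' ∩ B') (fun x hx => ⟨hA x hx.1, hB x hx.2⟩)
      (huc _ (Set.inter_subset_left.trans hAU)) h3
  · have h6 : (fun l : List X => ζ (l.map f)) + dd (fun l => η (l.map f)) =
        fun l => (ζ + dd η) (l.map f) := by
      funext l
      rw [Pi.add_apply, dd_map]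
      rfl
    rw [h6]
    exact Z0.comp (A := A) (B := A') hA (huc _ hAU) h4
  · exact Z0.comp (A := B) (B := B') hB (huc _ hBU) h5

end M11x

/-- **M11.** Naturality of the connecting map under pullback. -/
theorem pM11 (h4 : M4) (h6 : M6) : M11 := by
  intro X Y _ _ Γ D A B I U Γ' D' A' B' I' U' f n hM hM' hA hB hU hI u
  obtain ⟨φ, hφ, rfl⟩ := cl_surj u
  obtain ⟨ζ, hζ, hR⟩ := h4 Y Γ' D' A' B' I' U' n φ hM' hφ
  rw [(h6 Y Γ' D' A' B' I' U' n hM').1 φ ζ hφ hζ hR, pull_cl, pull_cl,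
    (h6 X Γ D A B I U n hM).1 _ _ (hI.cyc hφ) (hU.cyc hζ)
      (M11x.delR hA hB hM.AU hM.BU hU hR)]

end AS
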