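import Pool.Agent.Lib.AS.SpecMV

/-!
# Alexander-Spanier cohomology: the connecting map is symmetric
-/

set_option autoImplicit false

namespace AS

namespace M12x

variable {X : Type}

open Classical in
/-- the part of `η` on the lists in `A` -/
noncomputable def cut (A : Set X) (η : List X → ZMod 2) : List X → ZMod 2 :=
  fun l => if ∀ x ∈ l, x ∈ A then η l else 0

theorem cut_pos {A : Set X} {η : List X → ZMod 2} {l : List X} (h : ∀ x ∈ l, x ∈ A) :
    cut A η l = η l := if_pos h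

theorem cut_neg {A : Set X} {η : List X → ZMod 2} {l : List X} (h : ¬ ∀ x ∈ l, x ∈ A) :
    cut A η l = 0 := if_neg h

theorem cut_iv [MetricSpace X] {Γ : Subgroup (X ≃ᵢ X)} {A : Set X} {η : List X → ZMod 2} (hA : IvS Γ A)
    (h : Iv Γ η) : Iv Γ (cut A η) := by
  intro g hg l
  by_cases hl : ∀ x ∈ l, x ∈ A
  · have hl' : ∀ x ∈ l.map g, x ∈ A := by
      intro x hx
      obtain ⟨y, hy, rfl⟩ := List.mem_map.mp hx
      exact hA g hg y (hl y hy)
    rw [cut_pos hl, cut_pos hl', h g hg l]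
  · have hl' : ¬ ∀ x ∈ l.map g, x ∈ A := by
      intro h'
      apply hl
      intro x hx
      exact (hA.iff hg x).mp (h' _ (List.mem_map_of_mem hx))
    rw [cut_neg hl, cut_neg hl']

theorem cut_dd {A : Set X} {η : List X → ZMod 2} {l : List X} (h : ∀ x ∈ l, x ∈ A) :
    dd (cut A η) l = dd η l :=
  dd_congr fun _ hm _ => cut_pos fun x hx => h x (hm.subset hx)

theorem cut_z0 [MetricSpace X] {A E D : Set X} {η : List X → ZMod 2} {n : ℕ} (h : Z0 n (A ∩ D) η) :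
    Z0 n (E ∩ D) (cut A η) := by
  obtain ⟨ε, hε, h1⟩ := h
  refine ⟨ε, hε, fun l hl hs => ?_⟩
  by_cases hA : ∀ x ∈ l, x ∈ A
  · rw [cut_pos hA]
    exact h1 l hl ⟨fun x hx => ⟨hA x hx, (hs.1 x hx).2⟩, hs.2⟩
  · exact cut_neg hA

end M12x

open M12x in
theorem pM12 (h4 : M4) (h6 : M6) : M12 := by
  intro X _ Γ D A B I U n h u
  obtain ⟨φ, hφ, rfl⟩ := cl_surj u
  obtain ⟨ζ, hζ, hR⟩ := h4 X Γ D A B I U n φ h hφ
  obtain ⟨η, r1, r2, r3, r4, r5⟩ := id hR
  have hθ1 : Iv Γ (cut A η) := cut_iv h.okA.inv r1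
  have hθ2 : dd (cut A η) ∈ Bnd Γ D (n + 1) U := by
    rw [mem_Bnd_succ]
    refine ⟨hθ1.dd, cut A η, hθ1, cut_z0 r2, ?_⟩
    rw [add_self]
    exact Z0.zero _ _
  have hζ' : ζ + dd (cut A η) ∈ Cyc Γ D (n + 1) U :=
    (Cyc Γ D (n + 1) U).add_mem hζ (Bnd_le_Cyc _ _ _ _ hθ2)
  have hR' : DelR Γ D B A n φ (ζ + dd (cut A η)) := by
    refine ⟨cut A η, hθ1, cut_z0 r2, ?_, ?_, ?_⟩
    · rw [Set.inter_comm]
      refine r3.congr fun l _ hl => ?_
      rw [Pi.add_apply, Pi.add_apply, cut_pos fun x hx => (hl x hx).1]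
    · rw [add_assoc, add_self, add_zero]
      exact r5
    · refine r4.congr fun l _ hl => ?_
      rw [Pi.add_apply, Pi.add_apply, cut_dd hl]
  rw [(h6 X Γ D A B I U n h).1 φ ζ hφ hζ hR, (h6 X Γ D B A I U n h.swap).1 φ _ hφ hζ' hR',
    cl_eq_cl, ← add_assoc, add_self, zero_add]
  exact hθ2

end AS
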