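import Pool.Agent.Lib.AS.SpecMV

/-! # Alexander-Spanier cohomology: the equivariant retraction (`pM2`) -/

set_option autoImplicit false

namespace AS

namespace M2x

/-- the nearest point map, respecting `D` -/
theorem exq {X : Type} [MetricSpace X] {A D : Set X} (hA : IsCompact A) (hne : A.Nonempty) (hD : IsClosed D) (x : X) :
    ∃ y ∈ A, (x ∈ A → y = x) ∧ (x ∉ A → x ∈ D → (A ∩ D).Nonempty → y ∈ D ∧ ∀ z ∈ A ∩ D, dist x y ≤ dist x z) ∧
      (x ∉ A → x ∉ D → ∀ z ∈ A, dist x y ≤ dist x z) := by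
  by_cases hx : x ∈ A
  · exact ⟨x, hx, fun _ => rfl, fun h => absurd hx h, fun h => absurd hx h⟩
  · by_cases hxD : x ∈ D
    · by_cases hAD : (A ∩ D).Nonempty
      · obtain ⟨y, hy, hy'⟩ := (hA.inter_right hD).exists_infDist_eq_dist hAD x
        refine ⟨y, hy.1, fun h => absurd h hx, fun _ _ _ => ⟨hy.2, fun z hz => ?_⟩, fun _ h => absurd hxD h⟩
        rw [← hy']
        exact Metric.infDist_le_dist_of_mem hz
      · obtain ⟨y, hy⟩ := hne
        exact ⟨y, hy, fun h => absurd h hx, fun _ _ h => absurd h hAD, fun _ h => absurd hxD h⟩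
    · obtain ⟨y, hy, hy'⟩ := hA.exists_infDist_eq_dist hne x
      refine ⟨y, hy, fun h => absurd h hx, fun _ h => absurd h hxD, fun _ _ z hz => ?_⟩
      rw [← hy']
      exact Metric.infDist_le_dist_of_mem hz

/-- representatives of the orbits -/
theorem exrep {X : Type} [MetricSpace X] (Γ : Subgroup (X ≃ᵢ X)) :
    ∃ (rep : X → X) (γ : X → (X ≃ᵢ X)), (∀ g ∈ Γ, ∀ x, rep (g x) = rep x) ∧ (∀ x, γ x ∈ Γ) ∧ ∀ x, γ x (rep x) = x := by
  let s : Setoid X :=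
    { r := fun x y => ∃ g ∈ Γ, g x = y
      iseqv :=
        { refl := fun x => ⟨1, Γ.one_mem, rfl⟩
          symm := by
            rintro x y ⟨g, hg, rfl⟩
            exact ⟨g⁻¹, Γ.inv_mem hg, IsometryEquiv.inv_apply_self g x⟩
          trans := by
            rintro x y z ⟨g, hg, rfl⟩ ⟨h, hh, rfl⟩
            exact ⟨h * g, Γ.mul_mem hh hg, rfl⟩ } }
  have h1 : ∀ x : X, ∃ g ∈ Γ, g (Quotient.out (Quotient.mk s x)) = x := fun x => Quotient.mk_out (s := s) x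
  choose γ hγ hγ' using h1
  refine ⟨fun x => Quotient.out (Quotient.mk s x), γ, fun g hg x => ?_, hγ, hγ'⟩
  have h2 : Quotient.mk s (g x) = Quotient.mk s x := Quotient.sound (s.symm ⟨g, hg, rfl⟩)
  change Quotient.out (Quotient.mk s (g x)) = Quotient.out (Quotient.mk s x)
  rw [h2]

end M2x

open M2x in
theorem pM2 (h1 : M1) : M2 := by
  intro X _ Γ D A C hD hC hA hAC hne
  classical
  choose q hqA hqa hqD hqn using exq hA.cpt hne hD.cl
  obtain ⟨rep, γ, hrep, hγ, hγr⟩ := exrep Γ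
  have hrx : ∀ x, rep x = (γ x)⁻¹ x := by
    intro x
    have e1 := congrArg ((γ x)⁻¹ : X ≃ᵢ X) (hγr x)
    rw [IsometryEquiv.inv_apply_self] at e1
    exact e1
  have hCiff : ∀ g ∈ Γ, ∀ x, g x ∈ C ↔ x ∈ C := fun g hg x => hC.inv.iff hg x
  have hAiff : ∀ g ∈ Γ, ∀ x, g x ∈ A ↔ x ∈ A := fun g hg x => hA.inv.iff hg x
  have hDiff : ∀ g ∈ Γ, ∀ x, g x ∈ D ↔ x ∈ D := fun g hg x => hD.inv.iff hg x
  have hrepC : ∀ x, rep x ∈ C ↔ x ∈ C := by
    intro x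
    rw [hrx]
    exact hCiff _ (Γ.inv_mem (hγ x)) x
  have hrepA : ∀ x, rep x ∈ A ↔ x ∈ A := by
    intro x
    rw [hrx]
    exact hAiff _ (Γ.inv_mem (hγ x)) x
  have hrepD : ∀ x, rep x ∈ D ↔ x ∈ D := by
    intro x
    rw [hrx]
    exact hDiff _ (Γ.inv_mem (hγ x)) x
  obtain ⟨r, hr⟩ : ∃ r : X → X, r = fun x => if x ∈ C then γ x (q (rep x)) else x := ⟨_, rfl⟩
  have hr1 : ∀ x, x ∈ C → r x = γ x (q (rep x)) := by
    intro x hx
    rw [hr]
    exact if_pos hx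
  have hr2 : ∀ x, x ∉ C → r x = x := by
    intro x hx
    rw [hr]
    exact if_neg hx
  refine ⟨r, ?_, ?_, ?_, hr2, ?_⟩
  · intro g hg x
    by_cases hx : x ∈ C
    · have hgx : g x ∈ C := (hCiff g hg x).2 hx
      rw [hr1 x hx, hr1 (g x) hgx, hrep g hg]
      have e1 : (γ (g x))⁻¹ * (g * γ x) = 1 := by
        refine hC.fr _ (Γ.mul_mem (Γ.inv_mem (hγ _)) (Γ.mul_mem hg (hγ x))) (rep x) ((hrepC x).2 hx) ?_
        change (γ (g x))⁻¹ (g (γ x (rep x))) = rep x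
        rw [hγr x, ← hrx (g x), hrep g hg]
      have e2 : g * γ x = γ (g x) := (inv_mul_eq_one.1 e1).symm
      rw [← e2]
      rfl
    · have hgx : g x ∉ C := fun h => hx ((hCiff g hg x).1 h)
      rw [hr2 x hx, hr2 (g x) hgx]
  · intro x hx
    rw [hr1 x hx]
    exact (hAiff _ (hγ x) _).2 (hqA _)
  · intro x hx
    rw [hr1 x (hAC hx), hqa _ ((hrepA x).2 hx), hγr x]
  · intro ρ' hρ'
    obtain ⟨ε, hε, hε'⟩ := h1 X (C ∩ D) A (hC.cpt.inter_right hD.cl) hA.cpt ρ' hρ'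
    refine ⟨min ε ρ', lt_min hε hρ', ?_⟩
    rintro x hx ⟨a, ha, hxa⟩
    have ha' : (γ x)⁻¹ a ∈ A := (hAiff _ (Γ.inv_mem (hγ x)) a).2 ha
    have hd : dist (rep x) ((γ x)⁻¹ a) < min ε ρ' := by
      rw [hrx x, ((γ x)⁻¹).dist_eq]
      exact hxa
    have key : dist (rep x) (q (rep x)) < ρ' ∧ (rep x ∈ D → q (rep x) ∈ D) := by
      by_cases hyA : rep x ∈ A
      · rw [hqa _ hyA, dist_self]
        exact ⟨hρ', fun h => h⟩
      · by_cases hyD : rep x ∈ D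
        · obtain ⟨z, ⟨⟨-, hzD⟩, hzA⟩, hz⟩ := hε' (rep x) ⟨(hrepC x).2 hx, hyD⟩ _ ha' (hd.trans_le (min_le_left _ _))
          obtain ⟨e1, e2⟩ := hqD _ hyA hyD ⟨z, hzA, hzD⟩
          exact ⟨(e2 z ⟨hzA, hzD⟩).trans_lt hz, fun _ => e1⟩
        · exact ⟨(hqn _ hyA hyD _ ha').trans_lt (hd.trans_le (min_le_right _ _)), fun h => absurd h hyD⟩
    rw [hr1 x hx]
    refine ⟨?_, fun hxD => (hDiff _ (hγ x) _).2 (key.2 ((hrepD x).2 hxD))⟩
    have e1 : dist x (γ x (q (rep x))) = dist (γ x (rep x)) (γ x (q (rep x))) := by rw [hγr x]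
    rw [e1, (γ x).dist_eq]
    exact key.1

end AS
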