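import Pool.Agent.Lib.AS.SpecMV

/-!
# Alexander-Spanier cohomology: M3, the complex of the cochains which vanish on `A` and on `B`
-/

set_option autoImplicit false

namespace AS

namespace M3x

theorem pp_zero {X Y : Type} (f g : X → Y) (l : List X) :
    pp f g (fun _ => 0 : List Y → ZMod 2) l = 0 := by
  induction l with
  | nil => rfl
  | cons x l ih => rw [pp_cons, ih, add_zero]

/-- the prism vanishes if the function vanishes on all lists with entries in `l` or `r l` -/
theorem pp_vanish {X : Type} {r : X → X} {φ : List X → ZMod 2} {l : List X}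
    (h : ∀ m : List X, m.length = l.length + 1 → (∀ y ∈ m, ∃ x ∈ l, y = x ∨ y = r x) → φ m = 0) :
    pp (fun x => x) r φ l = 0 := by
  rw [← pp_zero (fun x : X => x) r l]
  exact pp_congr _ _ fun m hm hy => h m hm hy

end M3x

open M3x in
theorem pM3 (h1 : M1) (h2 : M2) : M3 := by
  classical
  intro X _ Γ D A B n ζ hD hA hB hζ hζA hζB hζD hζd
  obtain ⟨ε₁, hε₁, k1⟩ := hζA
  obtain ⟨ε₂, hε₂, k2⟩ := hζB
  obtain ⟨ε₃, hε₃, k3⟩ := hζD
  obtain ⟨ε₄, hε₄, k4⟩ := hζd
  rcases (A ∩ B).eq_empty_or_nonempty with hAB | hAB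
  · -- the disjoint case
    obtain ⟨ε, hε, h5⟩ := h1 X A B hA.cpt hB.cpt 1 one_pos
    have h6 : ∀ x ∈ A, ∀ y ∈ B, ¬ dist x y < ε := by
      intro x hx y hy hxy
      obtain ⟨z, hz, -⟩ := h5 x hx y hy hxy
      rw [hAB] at hz
      exact hz
    refine ⟨0, Iv.zero Γ, rfl, Z0.zero _ _, Z0.zero _ _, Z0.zero _ _, ?_⟩
    rw [dd_zero, add_zero]
    refine ⟨min ε (min ε₁ ε₂), lt_min hε (lt_min hε₁ hε₂), fun l hl hs => ?_⟩
    rcases l with _ | ⟨x, l⟩
    · simp at hl
    · rcases hs.1 x List.mem_cons_self with hx | hx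
      · refine k1 _ hl ⟨fun y hy => ?_, fun y hy z hz => (hs.2 y hy z hz).trans_le
          ((min_le_right _ _).trans (min_le_left _ _))⟩
        rcases hs.1 y hy with h | h
        · exact h
        · exact absurd ((hs.2 x List.mem_cons_self y hy).trans_le (min_le_left _ _))
            (h6 x hx y h)
      · refine k2 _ hl ⟨fun y hy => ?_, fun y hy z hz => (hs.2 y hy z hz).trans_le
          ((min_le_right _ _).trans (min_le_right _ _))⟩
        rcases hs.1 y hy with h | h
        · exact absurd ((hs.2 y hy x List.mem_cons_self).trans_le (min_le_left _ _))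
            (h6 y h x hx)
        · exact h
  · -- the main case
    obtain ⟨r, hr1, hr2, -, -, hr3⟩ := h2 X Γ D (A ∩ B) (A ∪ B) hD (hA.union hB) (hA.inter hB)
      (fun x hx => Or.inl hx.1) hAB
    obtain ⟨η, hη, e1, e2, e3, e4⟩ : ∃ η : ℝ, 0 < η ∧ η ≤ ε₁ ∧ η ≤ ε₂ ∧ η ≤ ε₃ ∧ η ≤ ε₄ :=
      ⟨min (min ε₁ ε₂) (min ε₃ ε₄), lt_min (lt_min hε₁ hε₂) (lt_min hε₃ hε₄),
        (min_le_left _ _).trans (min_le_left _ _), (min_le_left _ _).trans (min_le_right _ _),
        (min_le_right _ _).trans (min_le_left _ _), (min_le_right _ _).trans (min_le_right _ _)⟩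
    obtain ⟨ρ, hρ, hr4⟩ := hr3 (η / 4) (by positivity)
    obtain ⟨ε₅, hε₅, h5⟩ := h1 X A B hA.cpt hB.cpt (ρ / 2) (by positivity)
    obtain ⟨ε, hε, f1, f2, f3⟩ : ∃ ε : ℝ, 0 < ε ∧ ε ≤ η / 4 ∧ ε ≤ ρ / 2 ∧ ε ≤ ε₅ :=
      ⟨min (η / 4) (min (ρ / 2) ε₅), lt_min (by positivity) (lt_min (by positivity) hε₅),
        min_le_left _ _, (min_le_right _ _).trans (min_le_left _ _),
        (min_le_right _ _).trans (min_le_right _ _)⟩
    -- the fact
    have fact : ∀ l : List X, Sml (A ∪ B) ε l → ¬ ((∀ x ∈ l, x ∈ A) ∨ ∀ x ∈ l, x ∈ B) →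
        ∀ x ∈ l, dist x (r x) < η / 4 ∧ (x ∈ D → r x ∈ D) := by
      intro l hs hmix x hx
      have hmA : ∃ q ∈ l, q ∉ A := by
        by_contra h
        exact hmix (Or.inl fun x hx => by
          by_contra h'
          exact h ⟨x, hx, h'⟩)
      have hmB : ∃ q ∈ l, q ∉ B := by
        by_contra h
        exact hmix (Or.inr fun x hx => by
          by_contra h'
          exact h ⟨x, hx, h'⟩)
      obtain ⟨q, hq, hqA⟩ := hmA
      obtain ⟨p, hp, hpB⟩ := hmB
      have hqB : q ∈ B := (hs.1 q hq).resolve_left hqA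
      have hpA : p ∈ A := (hs.1 p hp).resolve_right hpB
      obtain ⟨z, hz, hpz⟩ := h5 p hpA q hqB ((hs.2 p hp q hq).trans_le f3)
      refine hr4 x (hs.1 x hx) ⟨z, hz, ?_⟩
      have h6 := dist_triangle x p z
      have h7 := hs.2 x hx p hp
      linarith
    -- lists with entries in `l` or `r l` are small
    have small : ∀ l m : List X, Sml (A ∪ B) ε l →
        ¬ ((∀ x ∈ l, x ∈ A) ∨ ∀ x ∈ l, x ∈ B) → (∀ y ∈ m, ∃ x ∈ l, y = x ∨ y = r x) →
        ∀ y ∈ m, ∀ y' ∈ m, dist y y' < η := by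
      intro l m hs hmix hm y hy y' hy'
      obtain ⟨x, hx, hxy⟩ := hm y hy
      obtain ⟨x', hx', hxy'⟩ := hm y' hy'
      have h6 := (fact l hs hmix x hx).1
      have h7 := (fact l hs hmix x' hx').1
      have h8 := hs.2 x hx x' hx'
      have h9 : dist y x < η / 4 := by
        rcases hxy with rfl | rfl
        · rw [dist_self]
          positivity
        · rw [dist_comm]
          exact h6
      have h10 : dist x' y' < η / 4 := by
        rcases hxy' with rfl | rfl
        · rw [dist_self]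
          positivity
        · exact h7
      have h11 := dist_triangle4 y x x' y'
      linarith
    set κ : List X → ZMod 2 := fun l =>
      if (∀ x ∈ l, x ∈ A) ∨ (∀ x ∈ l, x ∈ B) then 0 else pp (fun x => x) r ζ l with hκ
    have hκ0 : ∀ l : List X, ((∀ x ∈ l, x ∈ A) ∨ ∀ x ∈ l, x ∈ B) → κ l = 0 := fun l h => if_pos h
    have hκ1 : ∀ l : List X, ¬ ((∀ x ∈ l, x ∈ A) ∨ ∀ x ∈ l, x ∈ B) →
        κ l = pp (fun x => x) r ζ l := fun l h => if_neg h
    refine ⟨κ, ?_, hκ0 [] (Or.inl (by simp)), ?_, ?_, ?_, ?_⟩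
    · -- invariance
      intro g hg l
      have h6 : ((∀ x ∈ l.map g, x ∈ A) ∨ ∀ x ∈ l.map g, x ∈ B) ↔
          ((∀ x ∈ l, x ∈ A) ∨ ∀ x ∈ l, x ∈ B) := by
        have key : ∀ C : Set X, IvS Γ C → ((∀ x ∈ l.map g, x ∈ C) ↔ ∀ x ∈ l, x ∈ C) := by
          intro C hC
          constructor
          · intro h x hx
            exact (hC.iff hg x).mp (h _ (List.mem_map_of_mem hx))
          · intro h x hx
            obtain ⟨y, hy, rfl⟩ := List.mem_map.mp hx
            exact hC g hg y (h y hy)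
        rw [key A hA.inv, key B hB.inv]
      by_cases h7 : (∀ x ∈ l, x ∈ A) ∨ ∀ x ∈ l, x ∈ B
      · rw [hκ0 l h7, hκ0 _ (h6.mpr h7)]
      · rw [hκ1 l h7, hκ1 _ (fun h => h7 (h6.mp h))]
        exact pp_map (fun x => x) r g g (fun _ => rfl) (fun x => hr1 g hg x)
          (fun m => hζ g hg m) l
    · exact ⟨1, one_pos, fun l _ hs => hκ0 l (Or.inl hs.1)⟩
    · exact ⟨1, one_pos, fun l _ hs => hκ0 l (Or.inr hs.1)⟩
    · -- the set `D`
      refine ⟨ε, hε, fun l hl hs => ?_⟩
      by_cases h7 : (∀ x ∈ l, x ∈ A) ∨ ∀ x ∈ l, x ∈ B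
      · exact hκ0 l h7
      · have hs' : Sml (A ∪ B) ε l := ⟨fun x hx => (hs.1 x hx).1, hs.2⟩
        rw [hκ1 l h7]
        refine pp_vanish fun m hm hy => k3 m (by rw [hm, hl]) ⟨fun y hym => ?_, fun y hym z hzm =>
          (small l m hs' h7 hy y hym z hzm).trans_le e3⟩
        obtain ⟨x, hx, hxy⟩ := hy y hym
        rcases hxy with rfl | rfl
        · exact hs.1 y hx
        · exact ⟨Or.inl (hr2 x (hs'.1 x hx)).1, (fact l hs' h7 x hx).2 (hs.1 x hx).2⟩
    · -- the coboundary
      refine ⟨ε, hε, fun l hl hs => ?_⟩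
      have hεη : ε ≤ η := by linarith
      by_cases h7 : (∀ x ∈ l, x ∈ A) ∨ ∀ x ∈ l, x ∈ B
      · have h8 : dd κ l = 0 := by
          have h9 : dd κ l = dd (0 : List X → ZMod 2) l := by
            refine dd_congr fun m hm _ => hκ0 m ?_
            rcases h7 with h7 | h7
            · exact Or.inl fun x hx => h7 x (hm.subset hx)
            · exact Or.inr fun x hx => h7 x (hm.subset hx)
          rw [h9, dd_zero]
          rfl
        rw [Pi.add_apply, h8, add_zero]
        rcases h7 with h7 | h7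
        · exact k1 l hl ⟨h7, fun x hx y hy => (hs.2 x hx y hy).trans_le (hεη.trans e1)⟩
        · exact k2 l hl ⟨h7, fun x hx y hy => (hs.2 x hx y hy).trans_le (hεη.trans e2)⟩
      · have h8 : dd κ l = dd (pp (fun x => x) r ζ) l := by
          refine dd_congr fun m hm hmlen => ?_
          by_cases h9 : (∀ x ∈ m, x ∈ A) ∨ ∀ x ∈ m, x ∈ B
          · rw [hκ0 m h9]
            symm
            refine pp_vanish fun m' hm' hy => ?_
            have hy' : ∀ y ∈ m', ∃ x ∈ l, y = x ∨ y = r x := fun y hym => by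
              obtain ⟨x, hx, hxy⟩ := hy y hym
              exact ⟨x, hm.subset hx, hxy⟩
            have hsm := small l m' hs h7 hy'
            rcases h9 with h9 | h9
            · refine k1 m' (by omega) ⟨fun y hym => ?_, fun y hym z hzm =>
                (hsm y hym z hzm).trans_le e1⟩
              obtain ⟨x, hx, hxy⟩ := hy y hym
              rcases hxy with rfl | rfl
              · exact h9 y hx
              · exact (hr2 x (hs.1 x (hm.subset hx))).1
            · refine k2 m' (by omega) ⟨fun y hym => ?_, fun y hym z hzm =>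
                (hsm y hym z hzm).trans_le e2⟩
              obtain ⟨x, hx, hxy⟩ := hy y hym
              rcases hxy with rfl | rfl
              · exact h9 y hx
              · exact (hr2 x (hs.1 x (hm.subset hx))).2
          · exact hκ1 m h9
        have h9 : pp (fun x => x) r (dd ζ) l = 0 := by
          refine pp_vanish fun m hm hy => k4 m (by omega) ⟨fun y hym => ?_, fun y hym z hzm =>
            (small l m hs h7 hy y hym z hzm).trans_le e4⟩
          obtain ⟨x, hx, hxy⟩ := hy y hym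
          rcases hxy with rfl | rfl
          · exact hs.1 y hx
          · exact Or.inl (hr2 x (hs.1 x hx)).1
        have h10 : ζ (l.map r) = 0 := by
          have hy : ∀ y ∈ l.map r, ∃ x ∈ l, y = x ∨ y = r x := by
            intro y hy
            obtain ⟨x, hx, rfl⟩ := List.mem_map.mp hy
            exact ⟨x, hx, Or.inr rfl⟩
          refine k1 _ (by simpa using hl) ⟨fun y hym => ?_, fun y hym z hzm =>
            (small l _ hs h7 hy y hym z hzm).trans_le e1⟩
          obtain ⟨x, hx, rfl⟩ := List.mem_map.mp hym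
          exact (hr2 x (hs.1 x hx)).1
        have h11 := prism (fun x => x) r ζ l
        rw [h9, add_zero, h10, add_zero, List.map_id'] at h11
        rw [Pi.add_apply, h8, h11, z2_add_self]

end AS
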