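import Pool.Agent.Lib.AS.SpecMV

/-!
# Alexander-Spanier cohomology: M4, existence of the image under the connecting map
-/

set_option autoImplicit false

namespace AS

namespace M4x

variable {X : Type} [MetricSpace X]

open Classical in
/-- `φ` on the lists in `C`, zero on the other lists -/
noncomputable def cut (C : Set X) (φ : List X → ZMod 2) : List X → ZMod 2 :=
  fun l => if ∀ x ∈ l, x ∈ C then φ l else 0

theorem cut_pos {C : Set X} {φ : List X → ZMod 2} {l : List X} (h : ∀ x ∈ l, x ∈ C) :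
    cut C φ l = φ l := if_pos h

theorem cut_neg {C : Set X} {φ : List X → ZMod 2} {l : List X} (h : ¬ ∀ x ∈ l, x ∈ C) :
    cut C φ l = 0 := if_neg h

theorem cut_iv {Γ : Subgroup (X ≃ᵢ X)} {C : Set X} (hC : IvS Γ C) {φ : List X → ZMod 2}
    (h : Iv Γ φ) : Iv Γ (cut C φ) := by
  intro g hg l
  have h1 : (∀ x ∈ l.map g, x ∈ C) ↔ ∀ x ∈ l, x ∈ C := by
    constructor
    · intro h2 x hx
      exact (hC.iff hg x).mp (h2 _ (List.mem_map_of_mem hx))
    · intro h2 y hy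
      obtain ⟨x, hx, rfl⟩ := List.mem_map.mp hy
      exact hC g hg x (h2 x hx)
  by_cases h2 : ∀ x ∈ l, x ∈ C
  · rw [cut_pos h2, cut_pos (h1.mpr h2), h g hg l]
  · rw [cut_neg h2, cut_neg (fun h3 => h2 (h1.mp h3))]

/-- the coboundary on the lists in `C` -/
theorem dd_cut {C : Set X} {φ : List X → ZMod 2} {l : List X} (h : ∀ x ∈ l, x ∈ C) :
    dd (cut C φ) l = dd φ l :=
  dd_congr fun _ hm _ => cut_pos fun x hx => h x (hm.subset hx)

/-- `φ + cut` vanishes on the lists in `C` -/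
theorem z0_cut_add {n : ℕ} {C C' : Set X} (hC : C' ⊆ C) (φ : List X → ZMod 2) :
    Z0 n C' (φ + cut C φ) :=
  (Z0.zero n C').congr fun l _ hl => by
    rw [Pi.add_apply, cut_pos fun x hx => hC (hl x hx), z2_add_self]
    rfl

/-- vanishing of `cut C φ` on `E` -/
theorem z0_cut {n : ℕ} {C E F : Set X} {φ : List X → ZMod 2} (h : Z0 n F φ)
    (hE : ∀ x ∈ E, x ∈ C → x ∈ F) : Z0 n E (cut C φ) := by
  obtain ⟨ε, hε, h1⟩ := h
  refine ⟨ε, hε, fun l hl hs => ?_⟩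
  by_cases h2 : ∀ x ∈ l, x ∈ C
  · rw [cut_pos h2]
    exact h1 l hl ⟨fun x hx => hE x (hs.1 x hx) (h2 x hx), hs.2⟩
  · rw [cut_neg h2]

end M4x

open M4x in
theorem pM4 (h3 : M3) : M4 := by
  intro X _ Γ D A B I U n φ h hφ
  have hI := h.hI
  have hU := h.hU
  subst hI
  subst hU
  have ivI : IvS Γ (A ∩ B) := h.okA.inv.inter h.okB.inv
  obtain ⟨p1, p2, p3⟩ := hφ
  -- the extension
  have e1 : Iv Γ (cut (A ∩ B) φ) := cut_iv ivI p1
  have e2 : Z0 (n + 1) (A ∩ D) (cut (A ∩ B) φ) :=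
    z0_cut p2 fun x hx hx' => ⟨hx', hx.2⟩
  have e3 : Z0 (n + 1) (A ∩ B) (φ + cut (A ∩ B) φ) := z0_cut_add (Set.Subset.refl _) φ
  set η := cut (A ∩ B) φ with hη
  have f1 : Iv Γ (cut A (dd η)) := cut_iv h.okA.inv e1.dd
  have f2 : Z0 (n + 2) A (cut A (dd η) + dd η) := by
    rw [add_comm (cut A (dd η))]
    exact z0_cut_add (Set.Subset.refl _) (dd η)
  have f3 : Z0 (n + 2) B (cut A (dd η)) := by
    have g1 : Z0 (n + 2) (A ∩ B) (dd η) := p3.congr fun l _ hl => (dd_cut hl).symm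
    exact z0_cut g1 fun x hx hx' => ⟨hx', hx⟩
  have f4 : Z0 (n + 2) ((A ∪ B) ∩ D) (cut A (dd η)) :=
    z0_cut e2.dd fun x hx hx' => ⟨hx', hx.2⟩
  set ζ₀ := cut A (dd η) with hζ₀
  have g1 : Z0 (n + 3) A (dd ζ₀) := (Z0.zero (n + 3) A).congr fun l _ hl => by
    rw [hζ₀, dd_cut hl, dd_dd]
    rfl
  obtain ⟨κ, k1, -, k3, k4, k5, k6⟩ := h3 X Γ D A B (n + 2) (dd ζ₀) h.okD h.okA h.okB f1.dd
    g1 f3.dd f4.dd (by rw [dd_dd']; exact Z0.zero _ _)
  refine ⟨ζ₀ + κ, ⟨f1.add k1, f4.add k5, ?_⟩, η, e1, e2, e3, ?_, f3.add k4⟩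
  · rw [dd_add']
    exact k6
  · have : ζ₀ + κ + dd η = (ζ₀ + dd η) + κ := by abel
    rw [this]
    exact f2.add k3

end AS
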