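import Pool.Agent.Lib.AS.SpecMV

/-!
# Alexander-Spanier cohomology: the connecting map is well defined (M5)
-/

set_option autoImplicit false

namespace AS

namespace M5x

variable {X : Type} [MetricSpace X]

open Classical in
/-- `ψ` on the lists in `A`, zero on the other ones -/
noncomputable def tr (A : Set X) (ψ : List X → ZMod 2) : List X → ZMod 2 :=
  fun l => if ∀ x ∈ l, x ∈ A then ψ l else 0

theorem tr_in {A : Set X} {ψ : List X → ZMod 2} {l : List X} (h : ∀ x ∈ l, x ∈ A) :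
    tr A ψ l = ψ l := if_pos h

theorem tr_out {A : Set X} {ψ : List X → ZMod 2} {l : List X} (h : ¬ ∀ x ∈ l, x ∈ A) :
    tr A ψ l = 0 := if_neg h

theorem tr_iv {Γ : Subgroup (X ≃ᵢ X)} {A : Set X} (hA : IvS Γ A) {ψ : List X → ZMod 2}
    (h : Iv Γ ψ) : Iv Γ (tr A ψ) := by
  intro g hg l
  by_cases hl : ∀ x ∈ l, x ∈ A
  · have hl' : ∀ x ∈ l.map g, x ∈ A := by
      intro y hy
      obtain ⟨x, hx, rfl⟩ := List.mem_map.mp hy
      exact hA g hg x (hl x hx)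
    rw [tr_in hl, tr_in hl', h g hg l]
  · have hl' : ¬ ∀ x ∈ l.map g, x ∈ A := by
      intro h2
      exact hl fun x hx => (hA.iff hg x).mp (h2 _ (List.mem_map_of_mem hx))
    rw [tr_out hl, tr_out hl']

theorem dd_tr {A : Set X} {ψ : List X → ZMod 2} {l : List X} (h : ∀ x ∈ l, x ∈ A) :
    dd (tr A ψ) l = dd ψ l :=
  dd_congr fun _ hm _ => tr_in fun x hx => h x (hm.subset hx)

theorem tr_z0 {A D : Set X} {n : ℕ} {ψ : List X → ZMod 2} (h : Z0 n (A ∩ D) ψ) :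
    Z0 n D (tr A ψ) := by
  obtain ⟨ε, hε, h1⟩ := h
  refine ⟨ε, hε, fun l hn hs => ?_⟩
  by_cases hl : ∀ x ∈ l, x ∈ A
  · rw [tr_in hl]
    exact h1 l hn ⟨fun x hx => ⟨hl x hx, hs.1 x hx⟩, hs.2⟩
  · exact tr_out hl

end M5x

open M5x in
theorem pM5 (h3 : M3) : M5 := by
  intro X _ Γ D A B I U n φ ζ hMV hφ hζ hD
  obtain ⟨hφi, χ, hχi, hχD, -, hχ⟩ := hφ
  obtain ⟨hζi, hζD, hζU⟩ := hζ
  obtain ⟨η, hηi, hηD, hηI, hηA, hζB⟩ := hD
  have hI := hMV.hI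
  have hU := hMV.hU
  have hIi : IvS Γ I := by
    rw [hI]
    exact hMV.okA.inv.inter hMV.okB.inv
  have hUD : Z0 (n + 2) ((A ∪ B) ∩ D) ζ := by rw [← hU]; exact hζD
  have hUU : Z0 (n + 3) (A ∪ B) (dd ζ) := by rw [← hU]; exact hζU
  have hχ'i : Iv Γ (tr I χ) := tr_iv hIi hχi
  have hχ'D : Z0 n D (tr I χ) := tr_z0 hχD
  -- the corrected extension
  obtain ⟨η₁, hη₁⟩ : ∃ η₁, η₁ = η + dd (tr I χ) := ⟨_, rfl⟩
  have h1i : Iv Γ η₁ := by
    rw [hη₁]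
    exact hηi.add hχ'i.dd
  have h1D : Z0 (n + 1) (A ∩ D) η₁ := by
    rw [hη₁]
    exact hηD.add (hχ'D.mono Set.inter_subset_right).dd
  have h1I : Z0 (n + 1) (A ∩ B) η₁ := by
    have h := hηI.add (hI ▸ hχ)
    refine h.congr fun l _ hl => ?_
    rw [hη₁]
    have h2 : dd (tr I χ) l = dd χ l := dd_tr (by rw [hI]; exact hl)
    simp only [Pi.add_apply]
    rw [h2]
    have h3 := z2_add_self (φ l)
    linear_combination h3
  have h1A : Z0 (n + 2) A (ζ + dd η₁) := by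
    rw [hη₁, dd_add', dd_dd', add_zero]
    exact hηA
  -- extension by zero
  have h2i : Iv Γ (tr A η₁) := tr_iv hMV.okA.inv h1i
  have h2B : Z0 (n + 1) B (tr A η₁) := tr_z0 h1I
  have h2D : Z0 (n + 1) D (tr A η₁) := tr_z0 h1D
  obtain ⟨κ, hκi, -, hκA, hκB, hκD, hκ⟩ := h3 X Γ D A B (n + 1) (ζ + dd (tr A η₁)) hMV.okD hMV.okA
    hMV.okB (hζi.add h2i.dd)
    (h1A.congr fun l _ hl => by rw [Pi.add_apply, Pi.add_apply, dd_tr hl])
    (hζB.add h2B.dd)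
    (hUD.add (h2D.mono Set.inter_subset_right).dd)
    (by rw [dd_add', dd_dd', add_zero]; exact hUU)
  rw [mem_Bnd_succ]
  refine ⟨hζi, tr A η₁ + κ, h2i.add hκi, (h2D.mono Set.inter_subset_right).add (hU ▸ hκD), ?_⟩
  rw [dd_add', ← add_assoc, hU]
  exact hκ

end AS
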