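import Pool.Agent.Lib.AS.SpecMV

/-!
# Alexander-Spanier cohomology: the characterisation of the connecting map
-/

set_option autoImplicit false

namespace AS

theorem pM6 (h4 : M4) (h5 : M5) : M6 := by
  intro X _ Γ D A B I U n h
  have hP : ∀ (φ ζ : List X → ZMod 2) (hφ : φ ∈ Cyc Γ D n I) (hζ : ζ ∈ Cyc Γ D (n + 1) U),
      DelR Γ D A B n φ ζ → del Γ D A B I U n (cl φ hφ) = cl ζ hζ := by
    intro φ ζ hφ hζ hR
    have hex : ∃ z : H Γ D (n + 1) U, ∃ φ', ∃ hφ' : φ' ∈ Cyc Γ D n I, ∃ ζ',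
        ∃ hζ' : ζ' ∈ Cyc Γ D (n + 1) U,
        cl φ' hφ' = cl φ hφ ∧ cl ζ' hζ' = z ∧ DelR Γ D A B n φ' ζ' :=
      ⟨cl ζ hζ, φ, hφ, ζ, hζ, rfl, rfl, hR⟩
    have hdel : del Γ D A B I U n (cl φ hφ) = hex.choose := by
      unfold del
      exact dif_pos hex
    rw [hdel]
    obtain ⟨φ', hφ', ζ', hζ', e1, e2, hR'⟩ := hex.choose_spec
    rw [← e2, cl_eq_cl]
    exact h5 X Γ D A B I U n (φ' + φ) (ζ' + ζ) h ((cl_eq_cl hφ' hφ).1 e1)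
      ((Cyc Γ D (n + 1) U).add_mem hζ' hζ) (hR'.add hR)
  have hadd : ∀ x y : H Γ D n I, del Γ D A B I U n (x + y) =
      del Γ D A B I U n x + del Γ D A B I U n y := by
    intro x y
    obtain ⟨φ, hφ, rfl⟩ := cl_surj x
    obtain ⟨ψ, hψ, rfl⟩ := cl_surj y
    obtain ⟨ζ, hζ, hR⟩ := h4 X Γ D A B I U n φ h hφ
    obtain ⟨ξ, hξ, hR'⟩ := h4 X Γ D A B I U n ψ h hψ
    rw [← cl_add hφ hψ, hP _ _ _ ((Cyc Γ D (n + 1) U).add_mem hζ hξ) (hR.add hR'),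
      hP φ ζ hφ hζ hR, hP ψ ξ hψ hξ hR', cl_add]
  refine ⟨hP, hadd, ?_⟩
  have h0 := hadd 0 0
  rw [two_add, two_add] at h0
  exact h0

end AS
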