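import Pool.Agent.Lib.AS.SpecMV

/-!
# Alexander-Spanier cohomology, M7: exactness in degree 0
-/

set_option autoImplicit false

namespace AS

namespace M7x

theorem single {X : Type} [MetricSpace X] {C : Set X} {φ : List X → ZMod 2} (h : Z0 1 C φ)
    {x : X} (hx : x ∈ C) : φ [x] = 0 := by
  obtain ⟨ε, hε, h1⟩ := h
  refine h1 [x] rfl ⟨fun y hy => ?_, fun y hy z hz => ?_⟩
  · rw [List.mem_singleton.mp hy]
    exact hx
  · rw [List.mem_singleton.mp hy, List.mem_singleton.mp hz, dist_self]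
    exact hε

end M7x

open M7x in
theorem pM7 : M7 := by
  intro X _ Γ D A B U hA hB hU z hz1 hz2
  obtain ⟨φ, hφ, rfl⟩ := cl_surj z
  rw [res_cl, cl_eq_zero, mem_Bnd_zero] at hz1 hz2
  rw [cl_eq_zero, mem_Bnd_zero]
  refine ⟨hφ.1, 1, one_pos, fun l hl hs => ?_⟩
  obtain ⟨x, rfl⟩ := List.length_eq_one_iff.mp hl
  have hx : x ∈ U := hs.1 x List.mem_cons_self
  rw [hU] at hx
  rcases hx with hx | hx
  · exact single hz1.2 hx
  · exact single hz2.2 hx

end AS
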