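import Pool.Agent.Lib.AS.SpecMV

/-!
# Alexander-Spanier cohomology: M8, exactness of the Mayer-Vietoris sequence at the union
-/

set_option autoImplicit false

namespace AS

namespace M8x

variable {X : Type} [MetricSpace X]

open Classical in
/-- `φ` on the lists in `C`, zero on the other lists -/
noncomputable def cut (C : Set X) (φ : List X → ZMod 2) : List X → ZMod 2 :=
  fun l => if ∀ x ∈ l, x ∈ C then φ l else 0

theorem cut_pos {C : Set X} {φ : List X → ZMod 2} {l : List X} (h : ∀ x ∈ l, x ∈ C) :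
    cut C φ l = φ l := if_pos h

theorem cut_neg {C : Set X} {φ : List X → ZMod 2} {l : List X} (h : ¬ ∀ x ∈ l, x ∈ C) :
    cut C φ l = 0 := if_neg h

theorem cut_iv {Γ : Subgroup (X ≃ᵢ X)} {C : Set X} (hC : IvS Γ C) {φ : List X → ZMod 2}
    (h : Iv Γ φ) : Iv Γ (cut C φ) := by
  intro g hg l
  have h1 : (∀ x ∈ l.map g, x ∈ C) ↔ ∀ x ∈ l, x ∈ C := by
    constructor
    · intro h2 x hx
      exact (hC.iff hg x).mp (h2 _ (List.mem_map_of_mem hx))
    · intro h2 y hy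
      obtain ⟨x, hx, rfl⟩ := List.mem_map.mp hy
      exact hC g hg x (h2 x hx)
  by_cases h2 : ∀ x ∈ l, x ∈ C
  · rw [cut_pos h2, cut_pos (h1.mpr h2), h g hg l]
  · rw [cut_neg h2, cut_neg (fun h3 => h2 (h1.mp h3))]

/-- the coboundary on the lists in `C` -/
theorem dd_cut {C : Set X} {φ : List X → ZMod 2} {l : List X} (h : ∀ x ∈ l, x ∈ C) :
    dd (cut C φ) l = dd φ l :=
  dd_congr fun _ hm _ => cut_pos fun x hx => h x (hm.subset hx)

/-- `φ + cut` vanishes on the lists in `C` -/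
theorem z0_cut_add {n : ℕ} {C C' : Set X} (hC : C' ⊆ C) (φ : List X → ZMod 2) :
    Z0 n C' (φ + cut C φ) :=
  (Z0.zero n C').congr fun l _ hl => by
    rw [Pi.add_apply, cut_pos fun x hx => hC (hl x hx), z2_add_self]
    rfl

/-- vanishing of `cut C φ` on `E` -/
theorem z0_cut {n : ℕ} {C E F : Set X} {φ : List X → ZMod 2} (h : Z0 n F φ)
    (hE : ∀ x ∈ E, x ∈ C → x ∈ F) : Z0 n E (cut C φ) := by
  obtain ⟨ε, hε, h1⟩ := h
  refine ⟨ε, hε, fun l hl hs => ?_⟩
  by_cases h2 : ∀ x ∈ l, x ∈ C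
  · rw [cut_pos h2]
    exact h1 l hl ⟨fun x hx => hE x (hs.1 x hx) (h2 x hx), hs.2⟩
  · rw [cut_neg h2]

end M8x

open M8x in
theorem pM8 (h4 : M4) (h6 : M6) : M8 := by
  intro X _ Γ D A B I U n h
  obtain ⟨q1, -, -⟩ := h6 X Γ D A B I U n h
  constructor
  · intro z hA hB
    obtain ⟨ζ, hζ, rfl⟩ := cl_surj z
    rw [res_cl, cl_eq_zero, mem_Bnd_succ] at hA hB
    obtain ⟨-, α, a1, a2, a3⟩ := hA
    obtain ⟨-, β, b1, b2, b3⟩ := hB
    have hφ : α + β ∈ Cyc Γ D n I := by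
      refine ⟨a1.add b1, (a2.mono (Set.inter_subset_inter_left D h.IA)).add
        (b2.mono (Set.inter_subset_inter_left D h.IB)), ?_⟩
      have e1 : dd (α + β) = (ζ + dd α) + (ζ + dd β) := by
        rw [dd_add']
        calc dd α + dd β = (ζ + ζ) + (dd α + dd β) := by rw [add_self, zero_add]
          _ = (ζ + dd α) + (ζ + dd β) := by abel
      rw [e1]
      exact (a3.mono h.IA).add (b3.mono h.IB)
    have c1 : Iv Γ (cut B β) := cut_iv h.okB.inv b1
    have c2 : Z0 (n + 1) (U ∩ D) (cut B β) := z0_cut b2 fun x hx hx' => ⟨hx', hx.2⟩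
    have c3 : Z0 (n + 2) B (ζ + dd (cut B β)) := b3.congr fun l _ hl => by
      rw [Pi.add_apply, Pi.add_apply, dd_cut hl]
    have c4 : Z0 (n + 1) (A ∩ B) (β + cut B β) := z0_cut_add Set.inter_subset_right β
    set β' := cut B β with hβ'
    have hζ' : ζ + dd β' ∈ Cyc Γ D (n + 1) U := by
      refine ⟨hζ.1.add c1.dd, hζ.2.1.add c2.dd, ?_⟩
      rw [dd_add', dd_dd', add_zero]
      exact hζ.2.2
    have hD : DelR Γ D A B n (α + β) (ζ + dd β') := by
      refine ⟨α + β', a1.add c1, a2.add (c2.mono (Set.inter_subset_inter_left D h.AU)), ?_, ?_,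
        c3⟩
      · have e1 : α + β + (α + β') = (α + α) + (β + β') := by abel
        rw [e1, add_self, zero_add]
        exact c4
      · have e1 : ζ + dd β' + dd (α + β') = (dd β' + dd β') + (ζ + dd α) := by
          rw [dd_add']
          abel
        rw [e1, add_self, zero_add]
        exact a3
    refine ⟨cl (α + β) hφ, ?_⟩
    rw [q1 (α + β) (ζ + dd β') hφ hζ' hD, cl_eq_cl, mem_Bnd_succ]
    have e1 : ζ + (ζ + dd β') = dd β' := by rw [← add_assoc, add_self, zero_add]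
    rw [e1]
    exact ⟨c1.dd, β', c1, c2, by rw [add_self]; exact Z0.zero _ _⟩
  · intro u
    obtain ⟨φ, hφ, rfl⟩ := cl_surj u
    obtain ⟨ζ, hζ, hD⟩ := h4 X Γ D A B I U n φ h hφ
    rw [q1 φ ζ hφ hζ hD, res_cl, res_cl, cl_eq_zero, cl_eq_zero]
    obtain ⟨η, d1, d2, -, d4, d5⟩ := hD
    exact ⟨mem_Bnd_succ.mpr ⟨hζ.1, η, d1, d2, d4⟩, Bnd_of_Z0 hζ.1 d5⟩

end AS
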