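import Pool.Agent.Lib.AS.SpecMV

/-!
# Alexander-Spanier cohomology: exactness at the intersection (M9)
-/

set_option autoImplicit false

namespace AS

namespace M9x

variable {X : Type}

open Classical in
/-- `ψ` on the lists in `A`, zero on the other ones -/
noncomputable def tr (A : Set X) (ψ : List X → ZMod 2) : List X → ZMod 2 :=
  fun l => if ∀ x ∈ l, x ∈ A then ψ l else 0

theorem tr_in {A : Set X} {ψ : List X → ZMod 2} {l : List X} (h : ∀ x ∈ l, x ∈ A) :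
    tr A ψ l = ψ l := if_pos h

theorem tr_out {A : Set X} {ψ : List X → ZMod 2} {l : List X} (h : ¬ ∀ x ∈ l, x ∈ A) :
    tr A ψ l = 0 := if_neg h

theorem dd_tr {A : Set X} {ψ : List X → ZMod 2} {l : List X} (h : ∀ x ∈ l, x ∈ A) :
    dd (tr A ψ) l = dd ψ l :=
  dd_congr fun _ hm _ => tr_in fun x hx => h x (hm.subset hx)

variable [MetricSpace X]

theorem tr_iv {Γ : Subgroup (X ≃ᵢ X)} {A : Set X} (hA : IvS Γ A) {ψ : List X → ZMod 2}
    (h : Iv Γ ψ) : Iv Γ (tr A ψ) := by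
  intro g hg l
  by_cases hl : ∀ x ∈ l, x ∈ A
  · have hl' : ∀ x ∈ l.map g, x ∈ A := by
      intro y hy
      obtain ⟨x, hx, rfl⟩ := List.mem_map.mp hy
      exact hA g hg x (hl x hx)
    rw [tr_in hl, tr_in hl', h g hg l]
  · have hl' : ¬ ∀ x ∈ l.map g, x ∈ A := by
      intro h2
      exact hl fun x hx => (hA.iff hg x).mp (h2 _ (List.mem_map_of_mem hx))
    rw [tr_out hl, tr_out hl']

theorem tr_z0 {A D : Set X} {n : ℕ} {ψ : List X → ZMod 2} (h : Z0 n (A ∩ D) ψ) :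
    Z0 n D (tr A ψ) := by
  obtain ⟨ε, hε, h1⟩ := h
  refine ⟨ε, hε, fun l hn hs => ?_⟩
  by_cases hl : ∀ x ∈ l, x ∈ A
  · rw [tr_in hl]
    exact h1 l hn ⟨fun x hx => ⟨hl x hx, hs.1 x hx⟩, hs.2⟩
  · exact tr_out hl

end M9x

open M9x in
theorem pM9 (h4 : M4) (h6 : M6) : M9 := by
  intro X _ Γ D A B I U n hMV
  obtain ⟨h6a, -, -⟩ := h6 X Γ D A B I U n hMV
  have hI := hMV.hI
  have hU := hMV.hU
  refine ⟨fun u hu => ?_, fun a => ?_, fun b => ?_⟩
  · obtain ⟨φ, hφ, rfl⟩ := cl_surj u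
    obtain ⟨ζ, hζ, hD⟩ := h4 X Γ D A B I U n φ hMV hφ
    rw [h6a φ ζ hφ hζ hD, cl_eq_zero, mem_Bnd_succ] at hu
    obtain ⟨hζi, θ, hθi, hθD, hθ⟩ := hu
    obtain ⟨η, hηi, hηD, hηI, hηA, hζB⟩ := hD
    have ha : η + θ ∈ Cyc Γ D n A := by
      refine ⟨hηi.add hθi, hηD.add (hθD.mono (Set.inter_subset_inter_left D hMV.AU)), ?_⟩
      have h1 := hηA.add (hθ.mono hMV.AU)
      refine h1.congr fun l _ _ => ?_
      rw [dd_add']
      simp only [Pi.add_apply]
      have h3 := z2_add_self (ζ l)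
      linear_combination h3
    have hb : θ ∈ Cyc Γ D n B := by
      refine ⟨hθi, hθD.mono (Set.inter_subset_inter_left D hMV.BU), ?_⟩
      have h1 := hζB.add (hθ.mono hMV.BU)
      refine h1.congr fun l _ _ => ?_
      simp only [Pi.add_apply]
      have h3 := z2_add_self (ζ l)
      linear_combination h3
    refine ⟨cl (η + θ) ha, cl θ hb, ?_⟩
    rw [res_cl, res_cl, ← cl_add, cl_eq_cl]
    refine Bnd_of_Z0 (hφ.1.add ((hηi.add hθi).add hθi)) ?_
    rw [hI]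
    refine hηI.congr fun l _ _ => ?_
    simp only [Pi.add_apply]
    have h3 := z2_add_self (θ l)
    linear_combination -h3
  · obtain ⟨α, hα, rfl⟩ := cl_surj a
    rw [res_cl]
    have hz : (0 : List X → ZMod 2) ∈ Cyc Γ D (n + 1) U := (Cyc Γ D (n + 1) U).zero_mem
    rw [h6a α 0 (cyc_mono hMV.IA hα) hz ⟨α, hα.1, hα.2.1, by
      rw [add_self]; exact Z0.zero _ _, by rw [zero_add]; exact hα.2.2, Z0.zero _ _⟩, cl_eq_zero]
    exact (Bnd Γ D (n + 1) U).zero_mem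
  · obtain ⟨β, hβ, rfl⟩ := cl_surj b
    rw [res_cl]
    have h1i : Iv Γ (tr B β) := tr_iv hMV.okB.inv hβ.1
    have h1D : Z0 (n + 1) D (tr B β) := tr_z0 hβ.2.1
    have hbd : dd (tr B β) ∈ Bnd Γ D (n + 1) U := by
      rw [mem_Bnd_succ]
      refine ⟨h1i.dd, tr B β, h1i, h1D.mono Set.inter_subset_right, ?_⟩
      rw [add_self]
      exact Z0.zero _ _
    rw [h6a β (dd (tr B β)) (cyc_mono hMV.IB hβ) (Bnd_le_Cyc _ _ _ _ hbd) ⟨tr B β, h1i,
      h1D.mono Set.inter_subset_right, (Z0.zero _ _).congr fun l _ hl => by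
        rw [Pi.add_apply, tr_in fun x hx => (hl x hx).2, z2_add_self]
        rfl, by rw [add_self]; exact Z0.zero _ _,
      hβ.2.2.congr fun l _ hl => (dd_tr hl).symm⟩, cl_eq_zero]
    exact hbd

end AS
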