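import Pool.Agent.Lib.AS.Th

/-!
# Theories and morphisms from Alexander-Spanier cohomology

`mkTh`: the theory `C ↦ H Γ D n (c C)` for a set function `c` (`c C = C`, or `c C = E ∩ f ⁻¹' C`).
`pullMor`, `cupMor`: pullback, and the product with a class on the total space.
-/

set_option autoImplicit false

namespace AS

/-- the proved statements which are used for the construction of theories -/
structure AllM : Prop where
  m4 : M4
  m6 : M6
  m7 : M7
  m8 : M8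
  m9 : M9
  m10 : M10
  m11 : M11
  t1 : T1
  t2 : T2
  k2 : K2

variable {X Y B : Type} [MetricSpace X] [MetricSpace Y] [MetricSpace B]

/-- the properties of the set function `c` -/
structure SF (Γ : Subgroup (X ≃ᵢ X)) (D : Set X) (Γ' : Subgroup (B ≃ᵢ B)) (S : Set B)
    (c : Set B → Set X) : Prop where
  okD : OkD Γ D
  mono : ∀ {C C' : Set B}, C ⊆ C' → c C ⊆ c C'
  emp : c ∅ = ∅
  inter : ∀ A A' : Set B, c (A ∩ A') = c A ∩ c A'
  union : ∀ A A' : Set B, c (A ∪ A') = c A ∪ c A'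
  ok : ∀ {C : Set B}, Ad Γ' S C → Ok Γ (c C)
  tube : ∀ {A : Set B}, Ad Γ' S A → ∀ ρ > 0, ∃ ρ' > 0, ∀ N : Set B, Ad Γ' S N →
    (∀ y ∈ N, ∃ b ∈ A, dist y b < ρ') → ∀ x ∈ c N, ∃ e ∈ c A, dist x e < ρ

theorem SF.mvs {Γ : Subgroup (X ≃ᵢ X)} {D : Set X} {Γ' : Subgroup (B ≃ᵢ B)} {S : Set B}
    {c : Set B → Set X} (h : SF Γ D Γ' S c) {A A' I U : Set B} (hc : Cf Γ' S A A' I U) :
    MVs Γ D (c A) (c A') (c I) (c U) :=
  ⟨h.okD, h.ok hc.adA, h.ok hc.adA', by rw [hc.hI, h.inter], by rw [hc.hU, h.union]⟩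

/-- the theory `C ↦ H Γ D n (c C)` -/
noncomputable def mkTh (M : AllM) {Γ : Subgroup (X ≃ᵢ X)} {D : Set X} {Γ' : Subgroup (B ≃ᵢ B)}
    {S : Set B} {c : Set B → Set X} (h : SF Γ D Γ' S c) : CTh Γ' S where
  h n C := H Γ D n (c C)
  grp n C := inferInstance
  res hC n x := res (h.mono hC) n x
  del A A' I U n x := del Γ D (c A) (c A') (c I) (c U) n x
  res_add hC n x y := (res (h.mono hC) n).map_add x y
  res_self hC n x := res_self _ x
  res_res h1 h2 h3 n x := res_res _ _ _ x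
  del_add hc n x y := (M.m6 X Γ D _ _ _ _ n (h.mvs hc)).2.1 x y
  del_res hc hc' hE hE' hJ hV n x :=
    M.m11 X X Γ D _ _ _ _ Γ D _ _ _ _ (fun x => x) n (h.mvs hc') (h.mvs hc)
      (fun _ hx => h.mono hE hx) (fun _ hx => h.mono hE' hx)
      (Adm.id' le_rfl (h.mono hV) fun _ _ hx => hx) (Adm.id' le_rfl (h.mono hJ) fun _ _ hx => hx) x
  empty n x := H_empty h.emp x
  ex0 hc z h1 h2 := M.m7 X Γ D _ _ _ (h.mono hc.AU) (h.mono hc.A'U) (h.mvs hc).hU z h1 h2
  ex1 hc n z h1 h2 := (M.m8 X Γ D _ _ _ _ n (h.mvs hc)).1 z h1 h2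
  ex1' hc n u := (M.m8 X Γ D _ _ _ _ n (h.mvs hc)).2 u
  ex2 hc n u hu := (M.m9 X Γ D _ _ _ _ n (h.mvs hc)).1 u hu
  ex2' hc n a b := by
    rw [(M.m6 X Γ D _ _ _ _ n (h.mvs hc)).2.1]
    have h1 := (M.m9 X Γ D _ _ _ _ n (h.mvs hc)).2.1 a
    have h2 := (M.m9 X Γ D _ _ _ _ n (h.mvs hc)).2.2 b
    rw [show res (h.mono hc.IA) n a = res (h.mvs hc).IA n a from rfl,
      show res (h.mono hc.IA') n b = res (h.mvs hc).IB n b from rfl, h1, h2, add_zero]
  ex3 hc n a b hab := M.m10 X Γ D _ _ _ _ n (h.mvs hc) a b hab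
  c1 hAC hA hC n x hx := by
    obtain ⟨ρ, hρ, h1⟩ := M.t1 X Γ D _ _ n (h.mono hAC) x h.okD (h.ok hA) (h.ok hC) hx
    obtain ⟨ρ', hρ', h2⟩ := h.tube hA ρ hρ
    exact ⟨ρ', hρ', fun N hN hAd hd => h1 _ (h.mono hN) (h2 N hAd hd)⟩
  c2 hAC hA hC n y := by
    obtain ⟨ρ, hρ, h1⟩ := M.t2 X Γ D _ _ n y (h.mono hAC) h.okD (h.ok hA) (h.ok hC)
    obtain ⟨ρ', hρ', h2⟩ := h.tube hA ρ hρ
    exact ⟨ρ', hρ', fun N hAN hN hAd hd => h1 _ (h.mono hAN) (h.mono hN) (h2 N hAd hd)⟩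

/-- the set function `C ↦ C` -/
theorem SF.self {Γ : Subgroup (B ≃ᵢ B)} {D S : Set B} (hD : OkD Γ D) (hS : Fr Γ S) :
    SF Γ D Γ S (fun C => C) :=
  ⟨hD, fun h => h, rfl, fun _ _ => rfl, fun _ _ => rfl, fun h => ⟨h.cpt, h.inv, hS.mono h.sub⟩,
    fun _ ρ hρ => ⟨ρ, hρ, fun _ _ h => h⟩⟩

/-- `f : E → B` is continuous on the compact set `E` and compatible with the groups -/
structure Fb (Γ : Subgroup (X ≃ᵢ X)) (D E : Set X) (Γ' : Subgroup (B ≃ᵢ B)) (f : X → B) : Prop where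
  okE : Ok Γ E
  okD : OkD Γ D
  cont : ContinuousOn f E
  eqv : ∀ g ∈ Γ, ∃ g' ∈ Γ', ∀ x, f (g x) = g' (f x)

/-- the part of `E` over `C` -/
def ov (E : Set X) (f : X → B) (C : Set B) : Set X := E ∩ f ⁻¹' C

theorem ov_sub (E : Set X) (f : X → B) (C : Set B) : ov E f C ⊆ E := Set.inter_subset_left

/-- **L3.** The tube lemma.
Proof (uses M1).  `K = {x ∈ E | ∀ e ∈ ov E f A, ρ ≤ dist x e}` is closed in `E`, so compact, `f '' K` is
compact, and `f '' K ∩ A = ∅` (if `f x ∈ A`, `x ∈ K`, then `e = x` gives `ρ ≤ 0`).  M1 for `f '' K` and `A`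
gives `ε` such that no point of `f '' K` has distance `< ε` from a point of `A`; `ρ' = ε`. -/
def L3 : Prop := ∀ (X B : Type) [MetricSpace X] [MetricSpace B] (E : Set X) (f : X → B)
  (A : Set B), IsCompact E → ContinuousOn f E → IsCompact A → ∀ ρ > 0, ∃ ρ' > 0, ∀ x ∈ E,
  (∃ b ∈ A, dist (f x) b < ρ') → ∃ e ∈ ov E f A, dist x e < ρ

/-- the set function `C ↦ E ∩ f ⁻¹' C` -/
theorem Fb.sf (hL : L3) {Γ : Subgroup (X ≃ᵢ X)} {D E : Set X} {Γ' : Subgroup (B ≃ᵢ B)} {f : X → B}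
    (h : Fb Γ D E Γ' f) (S : Set B) : SF Γ D Γ' S (ov E f) := by
  refine ⟨h.okD, fun hC x hx => ⟨hx.1, hC hx.2⟩, ?_, ?_, ?_, ?_, ?_⟩
  · unfold ov
    rw [Set.preimage_empty, Set.inter_empty]
  · intro A A'
    ext x
    simp only [ov, Set.mem_inter_iff, Set.mem_preimage]
    tauto
  · intro A A'
    ext x
    simp only [ov, Set.mem_inter_iff, Set.mem_preimage, Set.mem_union]
    tauto
  · intro C hC
    refine ⟨?_, ?_, h.okE.fr.mono (ov_sub E f C)⟩
    · have h1 : IsClosed (E ∩ f ⁻¹' C) :=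
        h.cont.preimage_isClosed_of_isClosed h.okE.cpt.isClosed hC.cpt.isClosed
      exact h.okE.cpt.of_isClosed_subset h1 (ov_sub E f C)
    · intro g hg x hx
      obtain ⟨g', hg', h1⟩ := h.eqv g hg
      refine ⟨h.okE.inv g hg x hx.1, ?_⟩
      change f (g x) ∈ C
      rw [h1]
      exact hC.inv g' hg' _ hx.2
  · intro A hA ρ hρ
    obtain ⟨ρ', hρ', h1⟩ := hL X B E f A h.okE.cpt h.cont hA.cpt ρ hρ
    exact ⟨ρ', hρ', fun N _ hd x hx => h1 x hx.1 (hd (f x) hx.2)⟩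

/-- the morphism given by pullback along a map `f` over the base -/
noncomputable def pullMor (M : AllM) {Γ : Subgroup (X ≃ᵢ X)} {D : Set X} {Γ₁ : Subgroup (Y ≃ᵢ Y)}
    {D₁ : Set Y} {Γ' : Subgroup (B ≃ᵢ B)} {S : Set B} {c : Set B → Set X} {c₁ : Set B → Set Y}
    (h : SF Γ D Γ' S c) (h₁ : SF Γ₁ D₁ Γ' S c₁) (f : X → Y)
    (hf : ∀ C : Set B, Adm Γ D (c C) Γ₁ D₁ (c₁ C) f) : CMor (mkTh M h₁) (mkTh M h) where
  T n C x := pull f (hf C) n x
  add _ n x y := (pull f (hf _) n).map_add x y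
  nat _ _ hC n x := res_pull (hf _) (hf _) (h.mono hC) (h₁.mono hC) x
  del {A A' I U} hc n u :=
    (M.m11 X Y Γ D _ _ _ _ Γ₁ D₁ _ _ _ _ f n (h.mvs hc) (h₁.mvs hc) (hf A).maps (hf A').maps
      (hf U) (hf I) u).symm

/-- the product with a class `b` of degree `d` on a set which contains all `c C` -/
noncomputable def cupMor (M : AllM) {Γ : Subgroup (X ≃ᵢ X)} {D : Set X} {Γ' : Subgroup (B ≃ᵢ B)}
    {S : Set B} {c : Set B → Set X} (h : SF Γ D Γ' S c) {E : Set X} (hE : ∀ C, c C ⊆ E) (d : ℕ)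
    (b : H Γ ∅ d E) : CMor ((mkTh M h).shift d) (mkTh M h) where
  T n C y := if hd : d ≤ n then
      (cupH D n (y ⟨n - d, Nat.sub_add_cancel hd⟩ : H Γ D (n - d) (c C)) (res (hE C) d b) :
        H Γ D n (c C)) else (0 : H Γ D n (c C))
  add {C} _ n x y := by
    by_cases hd : d ≤ n
    · simp only [dif_pos hd]
      exact cupH_add_left (Nat.sub_add_cancel hd) (Or.inl Set.inter_subset_right) _ _ _
    · simp only [dif_neg hd]
      exact (add_zero (0 : H Γ D n (c C))).symm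
  nat {C C'} _ _ hC n x := by
    by_cases hd : d ≤ n
    · simp only [dif_pos hd]
      refine (res_cupH (h.mono hC) (Nat.sub_add_cancel hd) (Or.inl Set.inter_subset_right)
        _ _).trans ?_
      rw [res_res (h.mono hC) (hE C') (hE C)]
      rfl
    · simp only [dif_neg hd]
      exact (res (D := D) (Γ := Γ) (h.mono hC) n).map_zero
  del {A A' I U} hc n u := by
    have hm := h.mvs hc
    by_cases hd : d ≤ n
    · obtain ⟨m, rfl⟩ : ∃ m, n = m + d := ⟨n - d, by omega⟩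
      have hd' : d ≤ m + d + 1 := by omega
      simp only [dif_pos hd, dif_pos hd']
      have e1 : ∀ (m' : ℕ) (hm' : m' + d = m + d),
          (cupH D (m + d) (u ⟨m', hm'⟩ : H Γ D m' (c I)) (res (hE I) d b) : H Γ D (m + d) (c I)) =
          cupH D (m + d) (u ⟨m, rfl⟩ : H Γ D m (c I)) (res (hE I) d b) := by
        intro m' hm'
        obtain rfl : m' = m := by omega
        rfl
      have e2 : ∀ (m' : ℕ) (hm' : m' + d = m + d + 1),
          (cupH D (m + d + 1) (((mkTh M h).shift d).del A A' I U (m + d) u ⟨m', hm'⟩ :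
            H Γ D m' (c U)) (res (hE U) d b) : H Γ D (m + d + 1) (c U)) =
          cupH D (m + d + 1) (del Γ D (c A) (c A') (c I) (c U) m (u ⟨m, rfl⟩ : H Γ D m (c I)))
            (res (hE U) d b) := by
        intro m' hm'
        obtain rfl : m' = m + 1 := by omega
        rfl
      refine (congrArg (del Γ D (c A) (c A') (c I) (c U) (m + d)) (e1 _ _)).trans ?_
      refine Eq.trans ?_ (e2 _ _).symm
      have h3 := (M.k2 X Γ D _ _ _ _ m d (m + d) hm rfl (hm.IA.trans hm.AU)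
        (u ⟨m, rfl⟩ : H Γ D m (c I)) (res (hE U) d b)).1
      rw [res_res (hm.IA.trans hm.AU) (hE U) (hE I)] at h3
      exact h3
    · simp only [dif_neg hd]
      have e0 : (mkTh M h).del A A' I U n (0 : H Γ D n (c I)) = (0 : H Γ D (n + 1) (c U)) :=
        (M.m6 X Γ D _ _ _ _ n hm).2.2
      refine e0.trans ?_
      by_cases hd' : d ≤ n + 1
      · simp only [dif_pos hd']
        have e2 : ∀ (m' : ℕ) (hm' : m' + d = n + 1),
            (cupH D (n + 1) (((mkTh M h).shift d).del A A' I U n u ⟨m', hm'⟩ :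
              H Γ D m' (c U)) (res (hE U) d b) : H Γ D (n + 1) (c U)) = 0 := by
          intro m' hm'
          obtain rfl : m' = 0 := by omega
          exact cupH_zero_left hm' (Or.inl Set.inter_subset_right) _
        exact (e2 _ _).symm
      · simp only [dif_neg hd']

/-- a morphism shifted by `d` -/
def CMor.shift {Γ : Subgroup (B ≃ᵢ B)} {S : Set B} {h k : CTh Γ S} (f : CMor h k) (d : ℕ) :
    CMor (h.shift d) (k.shift d) where
  T n C y := fun m => f.T m.1 C (y m)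
  add hC n x y := by
    funext m
    exact f.add hC m.1 _ _
  nat hC hC' hs n x := by
    funext m
    exact f.nat hC hC' hs m.1 _
  del hc n u := by
    funext m
    rcases m with ⟨_ | m, hm⟩
    · exact (f.zero hc.adU 0).symm
    · exact f.del hc m _

end AS
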