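import Pool.Agent.Lib.AS.SpecMV

/-!
# Alexander-Spanier cohomology: N3, the induction isomorphism
-/

set_option autoImplicit false

namespace AS

namespace N3x

variable {X : Type} [MetricSpace X]

open Classical in
/-- the extension of a function on the lists in `F` to the lists in the translates of `F` -/
noncomputable def ext (Γ : Subgroup (X ≃ᵢ X)) (F : Set X) (ψ : List X → ZMod 2) (l : List X) :
    ZMod 2 :=
  if h : ∃ g : X ≃ᵢ X, g ∈ Γ ∧ ∀ x ∈ l, g x ∈ F then ψ (l.map h.choose) else 0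

theorem lmap_mul (g h : X ≃ᵢ X) (l : List X) : l.map (g * h) = (l.map h).map g := by
  rw [List.map_map]
  rfl

theorem lmap_one (l : List X) : l.map (1 : X ≃ᵢ X) = l := by
  have h : ((1 : X ≃ᵢ X) : X → X) = fun x => x := rfl
  rw [h, List.map_id']

variable {Γ Γ' : Subgroup (X ≃ᵢ X)} {F : Set X} {ψ : List X → ZMod 2}

theorem ext_eq (hd : ∀ g ∈ Γ, g ∉ Γ' → ∀ x ∈ F, g x ∉ F) (hψ : Iv Γ' ψ) {l : List X}
    {g : X ≃ᵢ X} (hg : g ∈ Γ) (hl : ∀ x ∈ l, g x ∈ F) : ext Γ F ψ l = ψ (l.map g) := by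
  have h : ∃ g : X ≃ᵢ X, g ∈ Γ ∧ ∀ x ∈ l, g x ∈ F := ⟨g, hg, hl⟩
  have h0 : ext Γ F ψ l = ψ (l.map h.choose) := dif_pos h
  rw [h0]
  obtain ⟨h1, h2⟩ := h.choose_spec
  generalize h.choose = k at h1 h2
  rcases l with _ | ⟨x, l⟩
  · rfl
  · have h3 : k * g⁻¹ ∈ Γ' := by
      by_contra h4
      refine hd _ (Γ.mul_mem h1 (Γ.inv_mem hg)) h4 (g x) (hl x List.mem_cons_self) ?_
      rw [IsometryEquiv.mul_apply, IsometryEquiv.inv_apply_self]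
      exact h2 x List.mem_cons_self
    rw [← hψ _ h3 ((x :: l).map g), ← lmap_mul, inv_mul_cancel_right]

theorem ext_iv (hd : ∀ g ∈ Γ, g ∉ Γ' → ∀ x ∈ F, g x ∉ F) (hψ : Iv Γ' ψ) : Iv Γ (ext Γ F ψ) := by
  intro k hk l
  by_cases h : ∃ g : X ≃ᵢ X, g ∈ Γ ∧ ∀ x ∈ l.map k, g x ∈ F
  · obtain ⟨g, hg, hl⟩ := h
    rw [ext_eq hd hψ hg hl, ext_eq hd hψ (Γ.mul_mem hg hk) (fun x hx => by
      rw [IsometryEquiv.mul_apply]
      exact hl _ (List.mem_map_of_mem hx)), lmap_mul]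
  · have h' : ¬ ∃ g : X ≃ᵢ X, g ∈ Γ ∧ ∀ x ∈ l, g x ∈ F := by
      rintro ⟨g, hg, hl⟩
      refine h ⟨g * k⁻¹, Γ.mul_mem hg (Γ.inv_mem hk), fun x hx => ?_⟩
      obtain ⟨y, hy, rfl⟩ := List.mem_map.mp hx
      rw [IsometryEquiv.mul_apply, IsometryEquiv.inv_apply_self]
      exact hl y hy
    have h1 : ext Γ F ψ (l.map k) = 0 := dif_neg h
    have h2 : ext Γ F ψ l = 0 := dif_neg h'
    rw [h1, h2]

theorem dd_ext (hd : ∀ g ∈ Γ, g ∉ Γ' → ∀ x ∈ F, g x ∉ F) (hψ : Iv Γ' ψ) {l : List X}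
    {g : X ≃ᵢ X} (hg : g ∈ Γ) (hl : ∀ x ∈ l, g x ∈ F) : dd (ext Γ F ψ) l = dd ψ (l.map g) := by
  rw [← dd_map]
  exact dd_congr fun m hm _ => ext_eq hd hψ hg fun x hx => hl x (hm.subset hx)

/-- points of `F` and of its translates by elements outside `Γ'` are not close -/
theorem exists_eps (hfin : (Γ : Set (X ≃ᵢ X)).Finite) (hF : IsCompact F)
    (hd : ∀ g ∈ Γ, g ∉ Γ' → ∀ x ∈ F, g x ∉ F) :
    ∃ ε > 0, ∀ g ∈ Γ, g ∉ Γ' → ∀ x ∈ F, ∀ y ∈ F, ε ≤ dist x (g y) := by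
  have hc : IsCompact (⋃ g ∈ {g : X ≃ᵢ X | g ∈ Γ ∧ g ∉ Γ'}, g '' F) := by
    refine Set.Finite.isCompact_biUnion (hfin.subset fun g hg => hg.1) fun g _ => ?_
    exact hF.image g.continuous
  have hdis : Disjoint F (⋃ g ∈ {g : X ≃ᵢ X | g ∈ Γ ∧ g ∉ Γ'}, g '' F) := by
    rw [Set.disjoint_left]
    intro x hx hx'
    simp only [Set.mem_iUnion, exists_prop] at hx'
    obtain ⟨g, hg, y, hy, hyx⟩ := hx'
    exact hd g hg.1 hg.2 y hy (by rw [hyx]; exact hx)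
  obtain ⟨r, hr, h⟩ := Metric.exists_pos_forall_lt_edist hF hc.isClosed hdis
  refine ⟨r, hr, fun g hg hg' x hx y hy => ?_⟩
  have h1 := h x hx (g y) (by
    simp only [Set.mem_iUnion, exists_prop]
    exact ⟨g, ⟨hg, hg'⟩, y, hy, rfl⟩)
  rw [edist_nndist, ENNReal.coe_lt_coe] at h1
  rw [← coe_nndist]
  exact_mod_cast h1.le

/-- small lists are contained in one translate -/
theorem exists_g {C : Set X} {ε : ℝ} (hF' : IvS Γ' F)
    (hC : ∀ x ∈ C, ∃ g ∈ Γ, ∃ y ∈ F, x = g y)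
    (hε : ∀ g ∈ Γ, g ∉ Γ' → ∀ x ∈ F, ∀ y ∈ F, ε ≤ dist x (g y)) {l : List X} (hl : Sml C ε l) :
    ∃ g : X ≃ᵢ X, g ∈ Γ ∧ ∀ x ∈ l, g x ∈ F := by
  rcases l with _ | ⟨x, l⟩
  · exact ⟨1, Γ.one_mem, by simp⟩
  · obtain ⟨g, hg, y, hy, hxy⟩ := hC x (hl.1 x List.mem_cons_self)
    refine ⟨g⁻¹, Γ.inv_mem hg, fun z hz => ?_⟩
    obtain ⟨k, hk, w, hw, hzw⟩ := hC z (hl.1 z hz)
    have h1 := hl.2 x List.mem_cons_self z hz
    have h2 : g⁻¹ * k ∈ Γ' := by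
      by_contra h3
      have h4 := hε _ (Γ.mul_mem (Γ.inv_mem hg) hk) h3 y hy w hw
      have h5 : dist y ((g⁻¹ * k) w) = dist x z := by
        rw [hxy, hzw, ← g.dist_eq y, IsometryEquiv.mul_apply, IsometryEquiv.apply_inv_self]
      rw [h5] at h4
      linarith
    have h3 := hF' _ h2 w hw
    rw [IsometryEquiv.mul_apply, ← hzw] at h3
    exact h3

theorem sml_map {C : Set X} {ε : ℝ} {l : List X} (hl : Sml C ε l) {T : Set X} {g : X ≃ᵢ X}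
    (h : ∀ x ∈ l, g x ∈ T) : Sml T ε (l.map g) := by
  refine ⟨fun z hz => ?_, fun z hz w hw => ?_⟩
  · obtain ⟨x, hx, rfl⟩ := List.mem_map.mp hz
    exact h x hx
  · obtain ⟨x, hx, rfl⟩ := List.mem_map.mp hz
    obtain ⟨y, hy, rfl⟩ := List.mem_map.mp hw
    rw [g.dist_eq]
    exact hl.2 x hx y hy

end N3x

open N3x in
theorem pN3 : N3 := by
  intro X _ Γ Γ' D C F n hΓ hFC hfin hD hF hF' hC hcov hd
  obtain ⟨ε₀, hε₀, hsep⟩ := exists_eps hfin hF hd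
  -- the extension of a function which vanishes on small lists
  have hext : ∀ (m : ℕ) (ψ : List X → ZMod 2), Iv Γ' ψ → Z0 m (F ∩ D) ψ →
      Z0 m (C ∩ D) (ext Γ F ψ) := by
    rintro m ψ hψ ⟨ε, hε, h⟩
    refine ⟨min ε ε₀, lt_min hε hε₀, fun l hl hs => ?_⟩
    have hs' : Sml C ε₀ l := hs.mono (fun _ hx => hx) Set.inter_subset_left (min_le_right _ _)
    obtain ⟨g, hg, hgF⟩ := exists_g hF' hcov hsep hs'
    rw [ext_eq hd hψ hg hgF]
    exact h _ (by simpa using hl) (sml_map (hs.eps (min_le_left _ _)) fun x hx =>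
      ⟨hgF x hx, hD g hg x (hs.1 x hx).2⟩)
  constructor
  · rw [injective_iff_map_eq_zero]
    intro x hx
    obtain ⟨φ, hφ, rfl⟩ := cl_surj x
    rw [pull_cl, cl_eq_zero] at hx
    obtain ⟨-, ψ, hψ, hψD, hψ0, ε, hε, h⟩ := hx
    rw [cl_eq_zero]
    refine ⟨hφ.1, ext Γ F ψ, ext_iv hd hψ, hext n ψ hψ hψD, ?_, ?_⟩
    · rw [ext_eq hd hψ Γ.one_mem (by simp)]
      exact hψ0
    · refine ⟨min ε ε₀, lt_min hε hε₀, fun l hl hs => ?_⟩
      obtain ⟨g, hg, hgF⟩ := exists_g hF' hcov hsep (hs.eps (min_le_right _ _))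
      have h1 := h (l.map g) (by simpa using hl) (sml_map (hs.eps (min_le_left _ _)) hgF)
      rw [Pi.add_apply, List.map_id'] at h1
      rw [Pi.add_apply, dd_ext hd hψ hg hgF, ← hφ.1 g hg l]
      exact h1
  · intro y
    obtain ⟨φ, hφ, rfl⟩ := cl_surj y
    have hcyc : ext Γ F φ ∈ Cyc Γ D n C := by
      refine ⟨ext_iv hd hφ.1, hext (n + 1) φ hφ.1 hφ.2.1, ?_⟩
      obtain ⟨ε, hε, h⟩ := hφ.2.2
      refine ⟨min ε ε₀, lt_min hε hε₀, fun l hl hs => ?_⟩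
      obtain ⟨g, hg, hgF⟩ := exists_g hF' hcov hsep (hs.eps (min_le_right _ _))
      rw [dd_ext hd hφ.1 hg hgF]
      exact h _ (by simpa using hl) (sml_map (hs.eps (min_le_left _ _)) hgF)
    refine ⟨cl (ext Γ F φ) hcyc, ?_⟩
    rw [pull_cl, cl_eq_cl]
    refine Bnd_of_Z0 ?_ ?_
    · refine Iv.add ?_ hφ.1
      intro g hg l
      simp only [List.map_id']
      exact ext_iv hd hφ.1 g (hΓ hg) l
    · refine (Z0.zero _ _).congr fun l _ hl => ?_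
      rw [Pi.add_apply, List.map_id', ext_eq hd hφ.1 Γ.one_mem (fun x hx => hl x hx), lmap_one,
        z2_add_self]
      rfl

end AS
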