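import Pool.Agent.Lib.AS.SpecMV

/-!
# Alexander-Spanier cohomology: T1, a class which vanishes on a compact set vanishes near it
-/

set_option autoImplicit false

namespace AS

namespace T1x

theorem pp_zero {X Y : Type} (f g : X → Y) (l : List X) :
    pp f g (0 : List Y → ZMod 2) l = 0 := by
  have h := pp_add f g (0 : List Y → ZMod 2) 0 l
  have h2 : (fun m : List Y => (0 : List Y → ZMod 2) m + (0 : List Y → ZMod 2) m) = 0 := by
    funext m
    simp
  rw [h2, z2_add_self] at h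
  exact h

end T1x

open T1x in
theorem pT1 (h2 : M2) : T1 := by
  intro X _ Γ D B C n hBC x hD hB hC hx
  rcases B.eq_empty_or_nonempty with hB0 | hB0
  · refine ⟨1, one_pos, fun N hN hNB => H_empty ?_ _⟩
    rw [Set.eq_empty_iff_forall_notMem]
    intro y hy
    obtain ⟨b, hb, -⟩ := hNB y hy
    rw [hB0] at hb
    exact hb
  obtain ⟨r, r1, r2, -, -, r5⟩ := h2 X Γ D B C hD hC hB hBC hB0
  obtain ⟨φ, hφ, rfl⟩ := cl_surj x
  rw [res_cl, cl_eq_zero] at hx
  obtain ⟨p1, ⟨ε₁, hε₁, p2⟩, ⟨ε₂, hε₂, p3⟩⟩ := hφ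
  obtain ⟨-, ψ, q1, ⟨ε₃, hε₃, q2⟩, q3, ⟨ε₄, hε₄, q4⟩⟩ := hx
  obtain ⟨ε, hε, l1, l2, l3, l4⟩ : ∃ ε : ℝ, 0 < ε ∧ ε ≤ ε₁ ∧ ε ≤ ε₂ ∧ ε ≤ ε₃ ∧ ε ≤ ε₄ :=
    ⟨min (min ε₁ ε₂) (min ε₃ ε₄), lt_min (lt_min hε₁ hε₂) (lt_min hε₃ hε₄),
      (min_le_left _ _).trans (min_le_left _ _), (min_le_left _ _).trans (min_le_right _ _),
      (min_le_right _ _).trans (min_le_left _ _), (min_le_right _ _).trans (min_le_right _ _)⟩
  obtain ⟨ρ, hρ, r6⟩ := r5 (ε / 4) (by linarith)
  refine ⟨ρ, hρ, fun N hN hNB => ?_⟩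
  -- smallness of the lists with entries in `l` and `r l`
  have near : ∀ {E : Set X} {l : List X}, E ⊆ N → Sml E (ε / 4) l → ∀ m : List X,
      (∀ y ∈ m, ∃ x ∈ l, y = x ∨ y = r x) → Sml C ε m := by
    intro E l hE hs m hm
    have key : ∀ y ∈ m, ∃ x ∈ l, dist y x < ε / 4 ∧ y ∈ C := by
      intro y hy
      obtain ⟨x, hx, hyx⟩ := hm y hy
      have hxN : x ∈ N := hE (hs.1 x hx)
      rcases hyx with rfl | rfl
      · exact ⟨y, hx, by rw [dist_self]; linarith, hN hxN⟩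
      · refine ⟨x, hx, ?_, hBC (r2 x (hN hxN))⟩
        rw [dist_comm]
        exact (r6 x (hN hxN) (hNB x hxN)).1
    refine ⟨fun y hy => (key y hy).choose_spec.2.2, fun y hy z hz => ?_⟩
    obtain ⟨a, ha, ha', -⟩ := key y hy
    obtain ⟨b, hb, hb', -⟩ := key z hz
    have h3 := hs.2 a ha b hb
    have h4 : dist y z ≤ dist y a + dist a b + dist b z := dist_triangle4 _ _ _ _
    rw [dist_comm b z] at h4
    linarith
  have nearD : ∀ {l : List X}, Sml (N ∩ D) (ε / 4) l → ∀ m : List X,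
      (∀ y ∈ m, ∃ x ∈ l, y = x ∨ y = r x) → Sml (C ∩ D) ε m := by
    intro l hs m hm
    have h3 := near Set.inter_subset_left hs m hm
    refine ⟨fun y hy => ⟨h3.1 y hy, ?_⟩, h3.2⟩
    obtain ⟨x, hx, hyx⟩ := hm y hy
    have hxN := hs.1 x hx
    rcases hyx with rfl | rfl
    · exact hxN.2
    · exact (r6 x (hN hxN.1) (hNB x hxN.1)).2 hxN.2
  have mapr : ∀ l : List X, ∀ y ∈ l.map r, ∃ x ∈ l, y = x ∨ y = r x := by
    intro l y hy
    obtain ⟨x, hx, rfl⟩ := List.mem_map.mp hy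
    exact ⟨x, hx, Or.inr rfl⟩
  have maprB : ∀ {E : Set X} {l : List X}, E ⊆ N → Sml E (ε / 4) l → ∀ y ∈ l.map r, y ∈ B := by
    intro E l hE hs y hy
    obtain ⟨x, hx, rfl⟩ := List.mem_map.mp hy
    exact r2 x (hN (hE (hs.1 x hx)))
  rw [res_cl, cl_eq_zero]
  refine ⟨p1, fun l => pp (fun x => x) r φ l + ψ (l.map r), ?_, ?_, ?_, ?_⟩
  · intro g hg l
    change pp (fun x => x) r φ (l.map g) + ψ ((l.map g).map r) =
      pp (fun x => x) r φ l + ψ (l.map r)
    have e1 : pp (fun x => x) r φ (l.map g) = pp (fun x => x) r φ l :=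
      pp_map (fun x => x) r g g (fun _ => rfl) (r1 g hg) (fun m => p1 g hg m) l
    have e2 : (l.map g).map r = (l.map r).map g := by
      rw [List.map_map, List.map_map]
      congr 1
      funext x
      exact r1 g hg x
    rw [e1, e2, q1 g hg]
  · refine ⟨ε / 4, by linarith, fun l hl hs => ?_⟩
    have e1 : pp (fun x => x) r φ l = 0 := by
      rw [← pp_zero (fun x => x) r l]
      refine pp_congr _ _ fun m hm hy => ?_
      exact p2 m (by omega) ((nearD hs m hy).eps l1)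
    have e2 : ψ (l.map r) = 0 := by
      have h3 := nearD hs (l.map r) (mapr l)
      exact q2 _ (by simpa using hl) (Sml.eps ⟨fun y hy =>
        ⟨maprB Set.inter_subset_left hs y hy, (h3.1 y hy).2⟩, h3.2⟩ l3)
    change pp (fun x => x) r φ l + ψ (l.map r) = 0
    rw [e1, e2, add_zero]
  · change pp (fun x => x) r φ [] + ψ ([].map r) = 0
    rw [pp_nil, List.map_nil, q3, add_zero]
  · refine ⟨ε / 4, by linarith, fun l hl hs => ?_⟩
    have e1 : pp (fun x => x) r (dd φ) l = 0 := by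
      rw [← pp_zero (fun x => x) r l]
      refine pp_congr _ _ fun m hm hy => ?_
      exact p3 m (by omega) ((near (Set.Subset.refl _) hs m hy).eps l2)
    have e2 : φ (l.map r) + dd ψ (l.map r) = 0 := by
      have h3 := near (Set.Subset.refl _) hs (l.map r) (mapr l)
      exact q4 _ (by simpa using hl) (Sml.eps ⟨fun y hy =>
        maprB (Set.Subset.refl _) hs y hy, h3.2⟩ l4)
    have e3 := prism (fun x => x) r φ l
    rw [e1, add_zero, List.map_id'] at e3
    have e4 : dd (fun l => pp (fun x => x) r φ l + ψ (l.map r)) l =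
        dd (pp (fun x => x) r φ) l + dd ψ (l.map r) := by
      rw [dd_add, dd_map]
    rw [Pi.add_apply, e4, e3]
    have e5 : φ l + (φ l + φ (l.map r) + dd ψ (l.map r)) =
        (φ l + φ l) + (φ (l.map r) + dd ψ (l.map r)) := by ring
    rw [e5, z2_add_self, e2, add_zero]

end AS
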