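import Pool.Agent.Lib.AS.SpecMV

/-!
# Alexander-Spanier cohomology: T2, extension of a class to a neighbourhood
-/

set_option autoImplicit false

namespace AS

theorem pT2 (h2 : M2) : T2 := by
  intro X _ Γ D B C n y hBC hD hB hC
  rcases B.eq_empty_or_nonempty with hB0 | hB0
  · refine ⟨1, one_pos, fun N hBN hNC hN => ⟨0, ?_⟩⟩
    rw [map_zero, H_empty hB0 y]
  obtain ⟨r, hr1, hr2, hr3, hr4, hr5⟩ := h2 X Γ D B C hD hC hB hBC hB0
  obtain ⟨φ, hφ, rfl⟩ := cl_surj y
  obtain ⟨hφ1, ⟨ε1, hε1, hz1⟩, ⟨ε2, hε2, hz2⟩⟩ := hφ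
  set ε := min ε1 ε2 with hε
  have hε0 : 0 < ε := lt_min hε1 hε2
  obtain ⟨ρ, hρ, hr⟩ := hr5 (ε / 4) (by positivity)
  refine ⟨ρ, hρ, fun N hBN hNC hN => ?_⟩
  have key : ∀ l : List X, Sml N (ε / 4) l → Sml B ε (l.map r) := by
    intro l hl
    constructor
    · intro z hz
      obtain ⟨x, hx, rfl⟩ := List.mem_map.mp hz
      exact hr2 x (hNC (hl.1 x hx))
    · intro z hz w hw
      obtain ⟨x, hx, rfl⟩ := List.mem_map.mp hz
      obtain ⟨x', hx', rfl⟩ := List.mem_map.mp hw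
      have a1 := (hr x (hNC (hl.1 x hx)) (hN x (hl.1 x hx))).1
      have a2 := (hr x' (hNC (hl.1 x' hx')) (hN x' (hl.1 x' hx'))).1
      have a3 := hl.2 x hx x' hx'
      have a4 : dist (r x) (r x') ≤ dist (r x) x + dist x x' + dist x' (r x') :=
        dist_triangle4 _ _ _ _
      rw [dist_comm (r x) x] at a4
      linarith
  have keyD : ∀ l : List X, Sml (N ∩ D) (ε / 4) l → Sml (B ∩ D) ε (l.map r) := by
    intro l hl
    have h1 := key l (hl.mono (fun _ h => h) Set.inter_subset_left le_rfl)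
    refine ⟨fun z hz => ⟨h1.1 z hz, ?_⟩, h1.2⟩
    obtain ⟨x, hx, rfl⟩ := List.mem_map.mp hz
    exact (hr x (hNC (hl.1 x hx).1) (hN x (hl.1 x hx).1)).2 (hl.1 x hx).2
  have hcyc : (fun l => φ (l.map r)) ∈ Cyc Γ D n N := by
    refine ⟨?_, ⟨ε / 4, by positivity, fun l hl hs => ?_⟩, ⟨ε / 4, by positivity, fun l hl hs => ?_⟩⟩
    · intro g hg l
      have h3 : (l.map g).map r = (l.map r).map g := by
        rw [List.map_map, List.map_map]
        congr 1
        funext x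
        exact hr1 g hg x
      change φ ((l.map g).map r) = φ (l.map r)
      rw [h3, hφ1 g hg]
    · exact hz1 _ (by simpa using hl) ((keyD l hs).eps (min_le_left _ _))
    · rw [dd_map r φ l]
      exact hz2 _ (by simpa using hl) ((key l hs).eps (min_le_right _ _))
  refine ⟨cl _ hcyc, ?_⟩
  rw [res_cl, cl_eq_cl]
  refine Bnd_of_Z0 (Iv.add hcyc.1 hφ1) ((Z0.zero _ _).congr fun l _ hl => ?_)
  rw [Pi.add_apply]
  have h1 : l.map r = l := by
    conv_rhs => rw [← List.map_id l]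
    exact List.map_congr_left fun x hx => hr3 x (hl x hx)
  change 0 = φ (l.map r) + φ l
  rw [h1, z2_add_self]

end AS
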