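import Pool.Agent.Lib.AS.SpecMV

/-!
# Alexander-Spanier cohomology, T3: decreasing sequences of compact sets
-/

set_option autoImplicit false

namespace AS

theorem pT3 : T3 := by
  intro X _ C hc hanti ρ hρ
  by_contra hcon
  push Not at hcon
  have hclosed : ∀ k, IsClosed {x | x ∈ C k ∧ ∀ b ∈ ⋂ i, C i, ρ ≤ dist x b} := by
    intro k
    have h1 : {x | x ∈ C k ∧ ∀ b ∈ ⋂ i, C i, ρ ≤ dist x b} =
        C k ∩ ⋂ b ∈ ⋂ i, C i, {x | ρ ≤ dist x b} := by
      ext x
      simp only [Set.mem_ofPred_eq, Set.mem_inter_iff, Set.mem_iInter₂]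
    rw [h1]
    refine (hc k).isClosed.inter (isClosed_biInter fun b _ => ?_)
    exact isClosed_le continuous_const (continuous_id.dist continuous_const)
  obtain ⟨x, hx⟩ := IsCompact.nonempty_iInter_of_sequence_nonempty_isCompact_isClosed
    (fun k => {x | x ∈ C k ∧ ∀ b ∈ ⋂ i, C i, ρ ≤ dist x b})
    (fun k x hx => ⟨hanti (Nat.le_succ k) hx.1, hx.2⟩) hcon
    ((hc 0).of_isClosed_subset (hclosed 0) fun x hx => hx.1) hclosed
  rw [Set.mem_iInter] at hx
  have h2 := (hx 0).2 x (Set.mem_iInter.2 fun i => (hx i).1)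
  rw [dist_self] at h2
  exact absurd h2 (not_le.2 hρ)

end AS
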