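import Pool.Agent.Lib.AS.M1
import Pool.Agent.Lib.AS.M2
import Pool.Agent.Lib.AS.M3
import Pool.Agent.Lib.AS.M4
import Pool.Agent.Lib.AS.M5
import Pool.Agent.Lib.AS.M6
import Pool.Agent.Lib.AS.M7
import Pool.Agent.Lib.AS.M8
import Pool.Agent.Lib.AS.M9
import Pool.Agent.Lib.AS.M10
import Pool.Agent.Lib.AS.M11
import Pool.Agent.Lib.AS.M12
import Pool.Agent.Lib.AS.T1
import Pool.Agent.Lib.AS.T2
import Pool.Agent.Lib.AS.T3
import Pool.Agent.Lib.AS.N1
import Pool.Agent.Lib.AS.N2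
import Pool.Agent.Lib.AS.N3
import Pool.Agent.Lib.AS.K1
import Pool.Agent.Lib.AS.K2
import Pool.Agent.Lib.AS.K3
import Pool.Agent.Lib.AS.Mk

/-!
# Alexander-Spanier cohomology: the proved statements, without hypotheses

`okM2`, `okM3`, … are the statements M2, M3, … of `SpecMV`, `SpecCup`; `allM : AllM`.
-/

set_option autoImplicit false

namespace AS

theorem okM1 : M1 := pM1
theorem okM2 : M2 := pM2 okM1
theorem okM3 : M3 := pM3 okM1 okM2
theorem okM4 : M4 := pM4 okM3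
theorem okM5 : M5 := pM5 okM3
theorem okM6 : M6 := pM6 okM4 okM5
theorem okM7 : M7 := pM7
theorem okM8 : M8 := pM8 okM4 okM6
theorem okM9 : M9 := pM9 okM4 okM6
theorem okM10 : M10 := pM10 okM3
theorem okM11 : M11 := pM11 okM4 okM6
theorem okM12 : M12 := pM12 okM4 okM6
theorem okT1 : T1 := pT1 okM2
theorem okT2 : T2 := pT2 okM2
theorem okT3 : T3 := pT3
theorem okN1 : N1 := pN1
theorem okN2 : N2 := pN2
theorem okN3 : N3 := pN3
theorem okK1 : K1 := pK1
theorem okK2 : K2 := pK2 okM4 okM6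
theorem okK3 : K3 := pK3 okM3

theorem allM : AllM := ⟨okM4, okM6, okM7, okM8, okM9, okM10, okM11, okT1, okT2, okK2⟩

end AS
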