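import Mathlib

/-!
# Alexander-Spanier cohomology with coefficients `ZMod 2`: cochains as functions on lists

A cochain on `X` is any function `φ : List X → ZMod 2`; its part of degree `n` are its values on the
lists of length `n + 1`.  All identities (`d d = 0`, Leibniz rule, prism identity) are identities of
functions on lists, proved by induction on the list.
-/

set_option autoImplicit false

namespace AS

variable {X Y : Type}

theorem z2_add_self (a : ZMod 2) : a + a = 0 := by
  revert a; decide

/-- the coboundary: the sum of `φ` over all lists obtained by deleting one entry -/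
def dd : (List X → ZMod 2) → List X → ZMod 2
  | _, [] => 0
  | φ, x :: l => φ l + dd (fun m => φ (x :: m)) l

theorem dd_nil (φ : List X → ZMod 2) : dd φ [] = 0 := rfl

theorem dd_cons (φ : List X → ZMod 2) (x : X) (l : List X) :
    dd φ (x :: l) = φ l + dd (fun m => φ (x :: m)) l := rfl

theorem dd_add (φ ψ : List X → ZMod 2) (l : List X) :
    dd (fun m => φ m + ψ m) l = dd φ l + dd ψ l := by
  induction l generalizing φ ψ with
  | nil => simp [dd]
  | cons x l ih =>
    simp only [dd_cons, ih]
    ring

theorem dd_add' (φ ψ : List X → ZMod 2) : dd (φ + ψ) = dd φ + dd ψ := by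
  funext l
  exact dd_add φ ψ l

theorem dd_zero : dd (0 : List X → ZMod 2) = 0 := by
  funext l
  have h := dd_add (0 : List X → ZMod 2) 0 l
  have h2 : (fun m : List X => (0 : List X → ZMod 2) m + (0 : List X → ZMod 2) m) = 0 := by
    funext m
    simp
  rw [h2, z2_add_self] at h
  exact h

theorem dd_smul (c : ZMod 2) (φ : List X → ZMod 2) (l : List X) :
    dd (fun m => c * φ m) l = c * dd φ l := by
  induction l generalizing φ with
  | nil => simp [dd]
  | cons x l ih =>
    simp only [dd_cons, ih]
    ring

/-- the square of the coboundary is zero -/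
theorem dd_dd (φ : List X → ZMod 2) (l : List X) : dd (dd φ) l = 0 := by
  induction l generalizing φ with
  | nil => rfl
  | cons x l ih =>
    rw [dd_cons]
    have h : (fun m => dd φ (x :: m)) = fun m => φ m + dd (fun m' => φ (x :: m')) m := by
      funext m
      rfl
    rw [h, dd_add, ih, add_zero, z2_add_self]

theorem dd_dd' (φ : List X → ZMod 2) : dd (dd φ) = 0 := by
  funext l
  exact dd_dd φ l

theorem dd_map (f : X → Y) (φ : List Y → ZMod 2) (l : List X) :
    dd (fun m => φ (m.map f)) l = dd φ (l.map f) := by
  induction l generalizing φ with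
  | nil => rfl
  | cons x l ih =>
    rw [dd_cons, List.map_cons, dd_cons]
    exact congrArg _ (ih (fun m => φ (f x :: m)))

/-- `dd φ l` depends only on the values of `φ` on the lists obtained by deleting one entry -/
theorem dd_congr {φ ψ : List X → ZMod 2} {l : List X}
    (h : ∀ m, m.Sublist l → m.length + 1 = l.length → φ m = ψ m) : dd φ l = dd ψ l := by
  induction l generalizing φ ψ with
  | nil => rfl
  | cons x l ih =>
    rw [dd_cons, dd_cons, h l (List.sublist_cons_self x l) rfl]
    congr 1
    apply ih
    intro m hm hlen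
    exact h (x :: m) (hm.cons_cons x) (by simp [hlen])

/-- invariance of `dd φ` -/
theorem dd_inv (f : X → X) {φ : List X → ZMod 2} (h : ∀ l, φ (l.map f) = φ l) (l : List X) :
    dd φ (l.map f) = dd φ l := by
  rw [← dd_map]
  congr 1
  funext m
  exact h m

/-! ### the prism operator -/

/-- the prism operator for two maps `f, g`: the sum over `i` of
`φ (f x₀, .., f x_i, g x_i, .., g x_n)` -/
def pp (f g : X → Y) : (List Y → ZMod 2) → List X → ZMod 2
  | _, [] => 0
  | φ, x :: l => φ (f x :: g x :: l.map g) + pp f g (fun m => φ (f x :: m)) l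

theorem pp_nil (f g : X → Y) (φ : List Y → ZMod 2) : pp f g φ [] = 0 := rfl

theorem pp_cons (f g : X → Y) (φ : List Y → ZMod 2) (x : X) (l : List X) :
    pp f g φ (x :: l) = φ (f x :: g x :: l.map g) + pp f g (fun m => φ (f x :: m)) l := rfl

theorem pp_add (f g : X → Y) (φ ψ : List Y → ZMod 2) (l : List X) :
    pp f g (fun m => φ m + ψ m) l = pp f g φ l + pp f g ψ l := by
  induction l generalizing φ ψ with
  | nil => simp [pp]
  | cons x l ih =>
    simp only [pp_cons, ih]
    ring

/-- the prism identity -/
theorem prism (f g : X → Y) (φ : List Y → ZMod 2) (l : List X) :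
    dd (pp f g φ) l + pp f g (dd φ) l = φ (l.map f) + φ (l.map g) := by
  induction l generalizing φ with
  | nil => simp [pp, dd, z2_add_self]
  | cons x l ih =>
    have h1 : (fun m => pp f g φ (x :: m)) =
        fun m => φ (f x :: g x :: m.map g) + pp f g (fun m' => φ (f x :: m')) m := by
      funext m
      rfl
    have h2 : (fun m => dd φ (f x :: m)) = fun m => φ m + dd (fun m' => φ (f x :: m')) m := by
      funext m
      rfl
    have h3 := ih (fun m => φ (f x :: m))
    have h4 : dd (fun m : List X => φ (f x :: g x :: m.map g)) l =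
        dd (fun m => φ (f x :: g x :: m)) (l.map g) :=
      dd_map g (fun m => φ (f x :: g x :: m)) l
    rw [dd_cons, pp_cons, h1, h2, dd_add, pp_add, h4, dd_cons, dd_cons, List.map_cons, List.map_cons]
    set a := pp f g φ l
    set b := dd (fun m => φ (f x :: g x :: m)) (l.map g)
    set c := dd (pp f g (fun m' => φ (f x :: m'))) l
    set e := pp f g (dd (fun m' => φ (f x :: m'))) l
    set p := φ (g x :: l.map g)
    set q := φ (f x :: l.map g)
    have ha := z2_add_self a
    have hb := z2_add_self b
    have hq := z2_add_self q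
    have h5 : a + (b + c) + (p + (q + b) + (a + e)) = (a + a) + (b + b) + (c + e) + p + q := by ring
    rw [h5, ha, hb, h3]
    have h6 : (0 : ZMod 2) + 0 + (φ (f x :: l.map f) + q) + p + q =
        φ (f x :: l.map f) + p + (q + q) := by ring
    rw [h6, hq, add_zero]

/-- `pp f g φ l` depends only on the values of `φ` on lists with entries in `f l` and `g l` -/
theorem pp_congr (f g : X → Y) {φ ψ : List Y → ZMod 2} {l : List X}
    (h : ∀ m, m.length = l.length + 1 → (∀ y ∈ m, ∃ x ∈ l, y = f x ∨ y = g x) → φ m = ψ m) :
    pp f g φ l = pp f g ψ l := by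
  induction l generalizing φ ψ with
  | nil => rfl
  | cons x l ih =>
    rw [pp_cons, pp_cons]
    congr 1
    · apply h
      · simp
      · intro y hy
        rw [List.mem_cons, List.mem_cons] at hy
        rcases hy with rfl | rfl | hy
        · exact ⟨x, List.mem_cons_self, Or.inl rfl⟩
        · exact ⟨x, List.mem_cons_self, Or.inr rfl⟩
        · obtain ⟨z, hz, rfl⟩ := List.mem_map.mp hy
          exact ⟨z, List.mem_cons_of_mem _ hz, Or.inr rfl⟩
    · apply ih
      intro m hm hy
      apply h
      · simp [hm]
      · intro y hy'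
        rw [List.mem_cons] at hy'
        rcases hy' with rfl | hy'
        · exact ⟨x, List.mem_cons_self, Or.inl rfl⟩
        · obtain ⟨z, hz, hz'⟩ := hy y hy'
          exact ⟨z, List.mem_cons_of_mem _ hz, hz'⟩

/-- equivariance of the prism operator -/
theorem pp_map (f g : X → Y) (a : X → X) (b : Y → Y) (hf : ∀ x, f (a x) = b (f x))
    (hg : ∀ x, g (a x) = b (g x)) {φ ψ : List Y → ZMod 2} (h : ∀ m, φ (m.map b) = ψ m)
    (l : List X) : pp f g φ (l.map a) = pp f g ψ l := by
  induction l generalizing φ ψ with
  | nil => rfl
  | cons x l ih =>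
    rw [List.map_cons, pp_cons, pp_cons]
    congr 1
    · rw [← h]
      have h1 : (l.map a).map g = (l.map g).map b := by
        rw [List.map_map, List.map_map]
        congr 1
        funext z
        exact hg z
      rw [List.map_cons, List.map_cons, hf, hg, h1]
    · apply ih
      intro m
      rw [hf, ← List.map_cons, h]

/-! ### the cup product -/

/-- the cup product of a cochain of degree `p` with a cochain -/
def cup (p : ℕ) (φ ψ : List X → ZMod 2) (l : List X) : ZMod 2 :=
  φ (l.take (p + 1)) * ψ (l.drop p)

theorem cup_cons (p : ℕ) (φ ψ : List X → ZMod 2) (x : X) (l : List X) :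
    cup (p + 1) φ ψ (x :: l) = cup p (fun m => φ (x :: m)) ψ l := rfl

theorem cup_add_left (p : ℕ) (φ φ' ψ : List X → ZMod 2) (l : List X) :
    cup p (fun m => φ m + φ' m) ψ l = cup p φ ψ l + cup p φ' ψ l := by
  unfold cup
  ring

theorem cup_add_right (p : ℕ) (φ ψ ψ' : List X → ZMod 2) (l : List X) :
    cup p φ (fun m => ψ m + ψ' m) l = cup p φ ψ l + cup p φ ψ' l := by
  unfold cup
  ring

/-- the Leibniz rule -/
theorem leibniz (p : ℕ) (φ ψ : List X → ZMod 2) (l : List X) (hl : p + 2 ≤ l.length) :
    dd (cup p φ ψ) l = cup (p + 1) (dd φ) ψ l + cup p φ (dd ψ) l := by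
  induction p generalizing φ l with
  | zero =>
    rcases l with _ | ⟨x, _ | ⟨y, l⟩⟩
    · simp at hl
    · simp at hl
    · have h1 : (fun m : List X => cup 0 φ ψ (x :: m)) = fun m => φ [x] * ψ (x :: m) := by
        funext m
        simp [cup]
      rw [dd_cons, h1, dd_smul]
      have h2 : cup 1 (dd φ) ψ (x :: y :: l) = (φ [y] + φ [x]) * ψ (y :: l) := by
        simp [cup, dd]
      have h3 : cup 0 φ (dd ψ) (x :: y :: l) =
          φ [x] * (ψ (y :: l) + dd (fun m => ψ (x :: m)) (y :: l)) := by
        simp only [cup, List.take_succ_cons, List.take_zero, List.drop_zero]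
        rw [dd_cons]
      have h4 : cup 0 φ ψ (y :: l) = φ [y] * ψ (y :: l) := by
        simp [cup]
      rw [h2, h3, h4]
      have h5 := z2_add_self (φ [x] * ψ (y :: l))
      have h6 : (φ [y] + φ [x]) * ψ (y :: l) + φ [x] * (ψ (y :: l) + dd (fun m => ψ (x :: m)) (y :: l)) =
          φ [y] * ψ (y :: l) + (φ [x] * ψ (y :: l) + φ [x] * ψ (y :: l)) +
            φ [x] * dd (fun m => ψ (x :: m)) (y :: l) := by ring
      rw [h6, h5, add_zero]
  | succ p ih =>
    rcases l with _ | ⟨x, l⟩
    · simp at hl
    · have h1 : (fun m : List X => cup (p + 1) φ ψ (x :: m)) =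
          cup p (fun m => φ (x :: m)) ψ := by
        funext m
        rfl
      have h2 : cup (p + 2) (dd φ) ψ (x :: l) =
          cup (p + 1) φ ψ l + cup (p + 1) (dd (fun m => φ (x :: m))) ψ l := by
        rw [cup_cons]
        have : (fun m => dd φ (x :: m)) = fun m => φ m + dd (fun m' => φ (x :: m')) m := by
          funext m
          rfl
        rw [this, cup_add_left]
      rw [dd_cons, h1, ih (fun m => φ (x :: m)) l (by simpa using hl)]
      change _ = cup (p + 2) (dd φ) ψ (x :: l) + cup (p + 1) φ (dd ψ) (x :: l)
      rw [h2, cup_cons]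
      ring

end AS
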