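import Pool.Agent.Lib.AS.Sphn

/-!
# The relative boundary of a compact convex set is a sphere
-/

set_option autoImplicit false
set_option linter.unusedSectionVars false

namespace AS

open Module Topology

variable {E : Type} [NormedAddCommGroup E] [NormedSpace ℝ E]

/-- the relative interior (algebraic form): every segment from a point of `Q` to `x` can be prolonged -/
def RInt (Q : Set E) : Set E := {x | x ∈ Q ∧ ∀ y ∈ Q, ∃ t : ℝ, 0 < t ∧ x - t • (y - x) ∈ Q}

/-- the relative boundary -/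
def RBd (Q : Set E) : Set E := {x | x ∈ Q ∧ ∃ y ∈ Q, ∀ t : ℝ, 0 < t → x - t • (y - x) ∉ Q}

namespace P33

theorem mem_RBd_iff {Q : Set E} {x : E} : x ∈ RBd Q ↔ x ∈ Q ∧ x ∉ RInt Q := by
  unfold RBd RInt
  simp only [Set.mem_setOf_eq, not_and, not_forall, not_exists]
  constructor
  · rintro ⟨h1, y, hy, h2⟩
    exact ⟨h1, fun _ => ⟨y, hy, fun t ht h3 => h2 t ht h3⟩⟩
  · rintro ⟨h1, h2⟩
    obtain ⟨y, hy, h3⟩ := h2 h1
    exact ⟨h1, y, hy, fun t ht h4 => h3 t ht h4⟩

variable [FiniteDimensional ℝ E]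

/-- a point `p` of the relative interior, in topological form -/
theorem exists_center {Q : Set E} (hc : Convex ℝ Q) (hne : Q.Nonempty) :
    ∃ p ∈ Q, {v : vectorSpan ℝ Q | p + (v : E) ∈ Q} ∈ 𝓝 (0 : vectorSpan ℝ Q) := by
  obtain ⟨p, hp⟩ := hne.intrinsicInterior hc
  rw [mem_intrinsicInterior] at hp
  obtain ⟨p', hp', rfl⟩ := hp
  have hsub : ∀ q : affineSpan ℝ Q, q ∈ interior ((fun x : affineSpan ℝ Q => (x : E)) ⁻¹' Q) →
      (q : E) ∈ Q := fun q hq => (interior_subset hq : q ∈ (fun x : affineSpan ℝ Q => (x : E)) ⁻¹' Q)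
  refine ⟨p', hsub p' hp', ?_⟩
  have hmem : ∀ v : vectorSpan ℝ Q, (p' : E) + (v : E) ∈ affineSpan ℝ Q := by
    intro v
    rw [add_comm]
    have h1 : (v : E) ∈ (affineSpan ℝ Q).direction := by
      rw [direction_affineSpan]
      exact v.2
    exact AffineSubspace.vadd_mem_of_mem_direction h1 p'.2
  let m : vectorSpan ℝ Q → affineSpan ℝ Q := fun v => ⟨(p' : E) + (v : E), hmem v⟩
  have hm : Continuous m := Continuous.subtype_mk (continuous_const.add continuous_subtype_val) _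
  have hm0 : m 0 = p' := Subtype.ext (by simp [m])
  have h2 : interior ((fun x : affineSpan ℝ Q => (x : E)) ⁻¹' Q) ∈ 𝓝 (m 0) := by
    rw [hm0]
    exact isOpen_interior.mem_nhds hp'
  filter_upwards [hm.continuousAt.preimage_mem_nhds h2] with v hv
  exact hsub (m v) hv

section body

variable {Q : Set E} (hQ : IsCompact Q) (hc : Convex ℝ Q) {p : E} (hp : p ∈ Q)
  (hnb : {v : vectorSpan ℝ Q | p + (v : E) ∈ Q} ∈ 𝓝 (0 : vectorSpan ℝ Q))

/-- the translate of `Q` in its direction space -/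
def Kb (Q : Set E) (p : E) : Set (vectorSpan ℝ Q) := {v | p + (v : E) ∈ Q}

include hc in
theorem Kb_convex : Convex ℝ (Kb Q p) := by
  intro x hx y hy a b ha hb hab
  have h1 := hc hx hy ha hb hab
  have h2 : p + ((a • x + b • y : vectorSpan ℝ Q) : E) = a • (p + (x : E)) + b • (p + (y : E)) := by
    push_cast
    have : p = (a + b) • p := by rw [hab, one_smul]
    nth_rewrite 1 [this]
    module
  change p + ((a • x + b • y : vectorSpan ℝ Q) : E) ∈ Q
  rw [h2]
  exact h1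

include hQ in
theorem Kb_closed : IsClosed (Kb Q p) :=
  hQ.isClosed.preimage (continuous_const.add continuous_subtype_val)

include hQ in
theorem Kb_bounded : Bornology.IsBounded (Kb Q p) := by
  obtain ⟨R, hR⟩ := hQ.isBounded.subset_closedBall p
  refine (Metric.isBounded_closedBall (x := (0 : vectorSpan ℝ Q)) (r := R)).subset fun v hv => ?_
  have h1 := hR hv
  rw [mem_closedBall_iff_norm, add_sub_cancel_left] at h1
  rw [mem_closedBall_zero_iff]
  exact h1

include hQ hnb in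
theorem Kb_gauge_pos {v : vectorSpan ℝ Q} (hv : v ≠ 0) : 0 < gauge (Kb Q p) v :=
  (gauge_pos (absorbent_nhds_zero hnb) (NormedSpace.isVonNBounded_of_isBounded _
    (Kb_bounded hQ))).mpr hv

include hQ hc hnb in
theorem Kb_mem {v : vectorSpan ℝ Q} : v ∈ Kb Q p ↔ gauge (Kb Q p) v ≤ 1 := by
  rw [gauge_le_one_iff_mem_closure (Kb_convex hc) hnb, (Kb_closed hQ).closure_eq]

include hQ hc hp hnb in
theorem mem_RBd_gauge {x : E} : x ∈ RBd Q ↔ ∃ v : vectorSpan ℝ Q, x = p + v ∧
    gauge (Kb Q p) v = 1 := by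
  constructor
  · rintro ⟨hx, y, hy, h1⟩
    have hv : x - p ∈ vectorSpan ℝ Q := vsub_mem_vectorSpan ℝ hx hp
    refine ⟨⟨x - p, hv⟩, by simp, ?_⟩
    have h2 : (⟨x - p, hv⟩ : vectorSpan ℝ Q) ∈ Kb Q p := by
      change p + (x - p) ∈ Q
      rw [add_sub_cancel]
      exact hx
    have h3 := (Kb_mem hQ hc hnb).mp h2
    by_contra h4
    have h5 : gauge (Kb Q p) ⟨x - p, hv⟩ < 1 := lt_of_le_of_ne h3 h4
    rw [gauge_lt_one_iff_mem_interior (Kb_convex hc) hnb, mem_interior_iff_mem_nhds] at h5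
    have hw : y - x ∈ vectorSpan ℝ Q := vsub_mem_vectorSpan ℝ hy hx
    have h6 : Continuous fun t : ℝ => (⟨x - p, hv⟩ : vectorSpan ℝ Q) - t • ⟨y - x, hw⟩ := by
      fun_prop
    have h7 : (fun t : ℝ => (⟨x - p, hv⟩ : vectorSpan ℝ Q) - t • ⟨y - x, hw⟩) ⁻¹' (Kb Q p) ∈
        𝓝 (0 : ℝ) := by
      apply h6.continuousAt.preimage_mem_nhds
      simpa using h5
    rw [Metric.mem_nhds_iff] at h7
    obtain ⟨δ, hδ, h8⟩ := h7
    have h9 : (δ / 2) ∈ Metric.ball (0 : ℝ) δ := by
      rw [Metric.mem_ball, Real.dist_eq, sub_zero, abs_of_pos (by positivity)]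
      linarith
    have h10 := h8 h9
    apply h1 (δ / 2) (by positivity)
    change p + (((⟨x - p, hv⟩ : vectorSpan ℝ Q) - (δ / 2) • ⟨y - x, hw⟩ : vectorSpan ℝ Q) : E) ∈ Q
      at h10
    push_cast at h10
    have h11 : p + (x - p - (δ / 2) • (y - x)) = x - (δ / 2) • (y - x) := by abel
    rw [h11] at h10
    exact h10
  · rintro ⟨v, rfl, h1⟩
    have h2 : v ∈ Kb Q p := (Kb_mem hQ hc hnb).mpr h1.le
    refine ⟨h2, p, hp, fun t ht h3 => ?_⟩
    have h4 : p + (v : E) - t • (p - (p + (v : E))) = p + (((1 + t) • v : vectorSpan ℝ Q) : E) := by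
      push_cast
      module
    rw [h4] at h3
    have h5 : (1 + t) • v ∈ Kb Q p := h3
    rw [Kb_mem hQ hc hnb, gauge_smul_of_nonneg (by linarith), h1, smul_eq_mul, mul_one] at h5
    linarith

end body

/-- **the relative boundary of a compact convex set**: inverse homeomorphisms with the unit sphere of an
inner product space of the same dimension -/
theorem bd_homeo {Q : Set E} (hQ : IsCompact Q) (hc : Convex ℝ Q) (hne : Q.Nonempty)
    {V : Type} [NormedAddCommGroup V] [InnerProductSpace ℝ V] [FiniteDimensional ℝ V]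
    (hV : finrank ℝ (vectorSpan ℝ Q) = finrank ℝ V) :
    ∃ (φ : V → E) (ψ : E → V), ContinuousOn φ (Metric.sphere (0 : V) 1) ∧
      ContinuousOn ψ (RBd Q) ∧ (∀ u ∈ Metric.sphere (0 : V) 1, φ u ∈ RBd Q) ∧
      (∀ x ∈ RBd Q, ψ x ∈ Metric.sphere (0 : V) 1) ∧
      (∀ u ∈ Metric.sphere (0 : V) 1, ψ (φ u) = u) ∧ (∀ x ∈ RBd Q, φ (ψ x) = x) := by
  obtain ⟨p, hp, hnb⟩ := exists_center hc hne
  have L : vectorSpan ℝ Q ≃L[ℝ] V := ContinuousLinearEquiv.ofFinrankEq hV
  obtain ⟨P, hP⟩ := (vectorSpan ℝ Q).subtype.exists_leftInverse_of_injective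
    (Submodule.ker_subtype _)
  have hP' : ∀ v : vectorSpan ℝ Q, P v = v := fun v => LinearMap.congr_fun hP v
  have hPc : Continuous P := P.continuous_of_finiteDimensional
  have hgc : Continuous (gauge (Kb Q p)) := continuous_gauge (Kb_convex hc) hnb
  set φ : V → E := fun u => p + (((gauge (Kb Q p) (L.symm u))⁻¹ • L.symm u : vectorSpan ℝ Q) : E)
    with hφ
  set ψ : E → V := fun x => (‖L (P (x - p))‖)⁻¹ • L (P (x - p)) with hψ
  have hne0 : ∀ u ∈ Metric.sphere (0 : V) 1, L.symm u ≠ 0 := by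
    intro u hu h0
    rw [mem_sphere_zero_iff_norm] at hu
    have : u = 0 := by
      have := congrArg L h0
      rwa [L.apply_symm_apply, map_zero] at this
    rw [this, norm_zero] at hu
    norm_num at hu
  have hgp : ∀ u ∈ Metric.sphere (0 : V) 1, 0 < gauge (Kb Q p) (L.symm u) := fun u hu =>
    Kb_gauge_pos hQ hnb (hne0 u hu)
  have hxv : ∀ x ∈ RBd Q, ∃ v : vectorSpan ℝ Q, x = p + v ∧ gauge (Kb Q p) v = 1 ∧
      P (x - p) = v ∧ v ≠ 0 := by
    intro x hx
    obtain ⟨v, hv, hv1⟩ := (mem_RBd_gauge hQ hc hp hnb).mp hx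
    refine ⟨v, hv, hv1, ?_, ?_⟩
    · rw [hv, add_sub_cancel_left]
      exact hP' v
    · rintro rfl
      rw [gauge_zero] at hv1
      norm_num at hv1
  refine ⟨φ, ψ, ?_, ?_, ?_, ?_, ?_, ?_⟩
  · refine continuousOn_const.add (continuous_subtype_val.comp_continuousOn ?_)
    exact ((hgc.comp L.symm.continuous).continuousOn.inv₀ fun u hu => (hgp u hu).ne').smul
      L.symm.continuous.continuousOn
  · have h1 : Continuous fun x : E => L (P (x - p)) :=
      L.continuous.comp (hPc.comp (continuous_id.sub continuous_const))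
    refine (h1.norm.continuousOn.inv₀ fun x hx => ?_).smul h1.continuousOn
    obtain ⟨v, -, -, h2, h3⟩ := hxv x hx
    rw [h2, norm_ne_zero_iff]
    exact fun h4 => h3 (by rwa [map_eq_zero_iff _ L.injective] at h4)
  · intro u hu
    rw [mem_RBd_gauge hQ hc hp hnb]
    refine ⟨_, rfl, ?_⟩
    rw [gauge_smul_of_nonneg (inv_nonneg.mpr (hgp u hu).le), smul_eq_mul,
      inv_mul_cancel₀ (hgp u hu).ne']
  · intro x hx
    obtain ⟨v, -, -, h2, h3⟩ := hxv x hx
    rw [mem_sphere_zero_iff_norm]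
    simp only [hψ]
    have h4 : ‖L (P (x - p))‖ ≠ 0 := by
      rw [h2, norm_ne_zero_iff]
      exact fun h4 => h3 (by rwa [map_eq_zero_iff _ L.injective] at h4)
    rw [norm_smul, norm_inv, norm_norm, inv_mul_cancel₀ h4]
  · intro u hu
    have h1 := hgp u hu
    rw [mem_sphere_zero_iff_norm] at hu
    simp only [hψ, hφ]
    rw [add_sub_cancel_left, hP', map_smul, L.apply_symm_apply, norm_smul, hu, mul_one,
      Real.norm_of_nonneg (inv_nonneg.mpr h1.le), inv_inv, smul_smul, mul_inv_cancel₀ h1.ne',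
      one_smul]
  · intro x hx
    obtain ⟨v, h1, h2, h3, h4⟩ := hxv x hx
    simp only [hψ, hφ]
    have h5 : ‖L v‖ ≠ 0 := by
      rw [norm_ne_zero_iff]
      exact fun h6 => h4 (by rwa [map_eq_zero_iff _ L.injective] at h6)
    have h6 : 0 < ‖L v‖ := lt_of_le_of_ne (norm_nonneg _) h5.symm
    rw [h3, map_smul, L.symm_apply_apply, gauge_smul_of_nonneg (inv_nonneg.mpr h6.le), h2,
      smul_eq_mul, mul_one, inv_inv, smul_smul, mul_inv_cancel₀ h5, one_smul, ← h1]

theorem RBd_compact {Q : Set E} (hQ : IsCompact Q) (hc : Convex ℝ Q) : IsCompact (RBd Q) := by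
  rcases Q.eq_empty_or_nonempty with rfl | hne
  · have : RBd (∅ : Set E) = ∅ := by
      ext x
      simp [RBd]
    rw [this]
    exact isCompact_empty
  obtain ⟨φ, ψ, h1, h2, h3, h4, h5, h6⟩ := bd_homeo hQ hc hne
    (V := EuclideanSpace ℝ (Fin (finrank ℝ (vectorSpan ℝ Q)))) (by simp)
  have : RBd Q = φ '' Metric.sphere 0 1 := by
    ext x
    constructor
    · intro hx
      exact ⟨ψ x, h4 x hx, h6 x hx⟩
    · rintro ⟨u, hu, rfl⟩
      exact h3 u hu
  rw [this]
  exact (isCompact_sphere _ _).image_of_continuousOn h1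

/-- **the cohomology of the relative boundary of a compact convex set of dimension `n + 2`** -/
theorem bd_bas {Q : Set E} (hQ : IsCompact Q) (hc : Convex ℝ Q) (n : ℕ)
    (h : finrank ℝ (vectorSpan ℝ Q) = n + 2) :
    ∃ s, Bas2 (⊥ : Subgroup (E ≃ᵢ E)) (RBd Q) (n + 1) s := by
  have hne : Q.Nonempty := by
    by_contra h1
    have h2 : vectorSpan ℝ Q = ⊥ := by
      rw [Set.not_nonempty_iff_eq_empty.mp h1]
      exact vectorSpan_empty ℝ E
    rw [h2, finrank_bot] at h
    omega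
  obtain ⟨φ, ψ, h1, h2, h3, h4, h5, h6⟩ := bd_homeo hQ hc hne
    (V := EuclideanSpace ℝ (Fin (n + 2))) (by rw [h]; simp)
  obtain ⟨s, hs⟩ := sph_bas (V := EuclideanSpace ℝ (Fin (n + 2))) n (by simp)
  exact ⟨_, Bas2.of_pull _ (pull_bij_cont (RBd_compact hQ hc) (isCompact_sphere _ _) h2 h1 h4 h3 h6
    h5) hs⟩

end P33

/-- nonempty compact convex sets are acyclic -/
theorem convex_acy {E : Type} [NormedAddCommGroup E] [NormedSpace ℝ E] {C : Set E}
    (hC : IsCompact C) (hne : C.Nonempty) (hc : Convex ℝ C) : Acy (⊥ : Subgroup (E ≃ᵢ E)) C :=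
  P33.convex_acy hC hne hc

/-- compact star-shaped sets are acyclic -/
theorem star_acy {E : Type} [NormedAddCommGroup E] [NormedSpace ℝ E] {C : Set E} {p : E}
    (hC : IsCompact C) (hp : p ∈ C) (hs : StarConvex ℝ p C) : Acy (⊥ : Subgroup (E ≃ᵢ E)) C :=
  P33.star_acy hC hp hs

/-- **the cohomology of spheres**: `V` of dimension `n + 2` -/
theorem sph_bas {V : Type} [NormedAddCommGroup V] [InnerProductSpace ℝ V] [FiniteDimensional ℝ V]
    (n : ℕ) (h : finrank ℝ V = n + 2) :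
    ∃ s, Bas2 (⊥ : Subgroup (V ≃ᵢ V)) (Metric.sphere (0 : V) 1) (n + 1) s :=
  P33.sph_bas n h

/-- the unit sphere of a subspace `U` of dimension `n + 2` -/
theorem sph_sub_bas {V : Type} [NormedAddCommGroup V] [InnerProductSpace ℝ V]
    [FiniteDimensional ℝ V] (n : ℕ) (U : Submodule ℝ V) (h : finrank ℝ U = n + 2) :
    ∃ s, Bas2 (⊥ : Subgroup (V ≃ᵢ V)) {x | x ∈ U ∧ ‖x‖ = 1} (n + 1) s :=
  P33.sph_sub n U h

/-- the relative boundary of a compact convex set is compact -/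
theorem RBd_compact {E : Type} [NormedAddCommGroup E] [NormedSpace ℝ E] [FiniteDimensional ℝ E]
    {Q : Set E} (hQ : IsCompact Q) (hc : Convex ℝ Q) : IsCompact (RBd Q) :=
  P33.RBd_compact hQ hc

/-- **the cohomology of the relative boundary of a compact convex set of dimension `n + 2`** -/
theorem bd_bas {E : Type} [NormedAddCommGroup E] [NormedSpace ℝ E] [FiniteDimensional ℝ E]
    {Q : Set E} (hQ : IsCompact Q) (hc : Convex ℝ Q) (n : ℕ)
    (h : finrank ℝ (vectorSpan ℝ Q) = n + 2) :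
    ∃ s, Bas2 (⊥ : Subgroup (E ≃ᵢ E)) (RBd Q) (n + 1) s :=
  P33.bd_bas hQ hc n h

end AS
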