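import Pool.Agent.Lib.AS.Rel4

/-!
# Mixed Leray-Hirsch situation, first chases

`E → S` with fibres of basis `1, a` outside of the closed set `Z` and `1, a, a²` over `Z`.
-/

set_option autoImplicit false

namespace AS

section basics

variable {X Y : Type} [MetricSpace X] [MetricSpace Y]

theorem rel_pull {Γ : Subgroup (X ≃ᵢ X)} {D D' C : Set X} {Γ₁ : Subgroup (Y ≃ᵢ Y)}
    {D₁ D₁' C₁ : Set Y} {f : X → Y} (h : C ∩ D' ⊆ D) (h₁ : C₁ ∩ D₁' ⊆ D₁)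
    (hf : Adm Γ D C Γ₁ D₁ C₁ f) (hf' : Adm Γ D' C Γ₁ D₁' C₁ f) {n : ℕ} (x : H Γ₁ D₁ n C₁) :
    rel h n (pull f hf n x) = pull f hf' n (rel h₁ n x) := by
  obtain ⟨φ, hφ, rfl⟩ := cl_surj x
  rw [pull_cl, rel_cl, rel_cl, pull_cl]

variable {Γ : Subgroup (X ≃ᵢ X)} {D D' C C' : Set X}

/-- the map to the groups relative to a smaller set, and products with absolute classes on the right -/
theorem rel_cup (h : C ∩ D' ⊆ D) {p q n : ℕ} (hn : p + q = n) (x : H Γ D p C) (y : H Γ ∅ q C) :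
    rel h n (cupH D n x y) = cupH D' n (rel h p x) y := by
  obtain ⟨φ, hφ, rfl⟩ := cl_surj x
  obtain ⟨ψ, hψ, rfl⟩ := cl_surj y
  rw [cupH_cl hn (Or.inl Set.inter_subset_right), rel_cl, rel_cl,
    cupH_cl hn (Or.inl Set.inter_subset_right)]

theorem rcadd_left {p q n : ℕ} (h : p + q = n) (x x' : H Γ D p C) (y : H Γ ∅ q C) :
    cupH D n (x + x') y = cupH D n x y + cupH D n x' y :=
  cupH_add_left h (Or.inl Set.inter_subset_right) x x' y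

theorem rczero_left {p q n : ℕ} (h : p + q = n) (y : H Γ ∅ q C) :
    cupH D n (0 : H Γ D p C) y = 0 := cupH_zero_left h (Or.inl Set.inter_subset_right) y

theorem res_cup {p q n : ℕ} (hC : C' ⊆ C) (h : p + q = n) (x : H Γ D p C) (y : H Γ ∅ q C) :
    res hC n (cupH D n x y) = cupH D n (res hC p x) (res hC q y) :=
  res_cupH hC h (Or.inl Set.inter_subset_right) x y

/-! ### transport of the bases along equalities of sets -/

theorem Acy.of_eq {F F' : Set X} (h : F = F') : Acy Γ F → Acy Γ F' := by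
  subst h
  exact id

theorem Bas2.of_eq {E F F' : Set X} (h : F = F') (hF : F ⊆ E) (hF' : F' ⊆ E) {d : ℕ}
    (b : H Γ ∅ d E) : Bas2 Γ F d (res hF d b) → Bas2 Γ F' d (res hF' d b) := by
  subst h
  exact id

theorem Bas3.of_eq {E F F' : Set X} (h : F = F') (hF : F ⊆ E) (hF' : F' ⊆ E)
    (a : H Γ ∅ 1 E) (c : H Γ ∅ 2 E) :
    Bas3 Γ F (res hF 1 a) (res hF 2 c) → Bas3 Γ F' (res hF' 1 a) (res hF' 2 c) := by
  subst h
  exact id

theorem Bas4.of_eq {E F F' : Set X} (h : F = F') (hF : F ⊆ E) (hF' : F' ⊆ E)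
    (a : H Γ ∅ 1 E) (c : H Γ ∅ 2 E) (e : H Γ ∅ 3 E) :
    Bas4 Γ F (res hF 1 a) (res hF 2 c) (res hF 3 e) →
      Bas4 Γ F' (res hF' 1 a) (res hF' 2 c) (res hF' 3 e) := by
  subst h
  exact id

end basics

variable {X B : Type} [MetricSpace X] [MetricSpace B] {Γ : Subgroup (X ≃ᵢ X)} {D E F : Set X}
  {S Z : Set B} {f : X → B}

/-- `E → S` with fibres of basis `1, a` outside of `Z` and `1, a, a²` over `Z`; `F` is the part over `Z` -/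
structure Mix (Γ : Subgroup (X ≃ᵢ X)) (D E F : Set X) (Z S : Set B) (f : X → B)
    (a : H Γ ∅ 1 E) : Prop where
  fib : Fib Γ D E ⊥ Z S f
  ZS : Z ⊆ S
  hF : F = E ∩ D
  b2 : ∀ p ∈ S, p ∉ Z → Bas2 Γ (ov E f {p}) 1 (res (ov_sub E f {p}) 1 a)
  b3 : ∀ p ∈ Z, Bas3 Γ (ov E f {p}) (res (ov_sub E f {p}) 1 a) (res (ov_sub E f {p}) 2 (pw a 2))

namespace Mix

variable {a : H Γ ∅ 1 E}

theorem FE (h : Mix Γ D E F Z S f a) : F ⊆ E := h.hF ▸ Set.inter_subset_left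

theorem mem (h : Mix Γ D E F Z S f a) {x : X} : x ∈ F ↔ x ∈ E ∧ f x ∈ Z := by
  rw [h.hF]
  constructor
  · exact fun hx => ⟨hx.1, (h.fib.hD x hx.1).mp hx.2⟩
  · exact fun hx => ⟨hx.1, (h.fib.hD x hx.1).mpr hx.2⟩

theorem prE (h : Mix Γ D E F Z S f a) : Prs Γ D ∅ F E :=
  ⟨h.fib.fb.okE.inv, h.fib.fb.okD.inv, h.hF, fun _ hx => hx.2.elim⟩

theorem prS (h : Mix Γ D E F Z S f a) : Prs (⊥ : Subgroup (B ≃ᵢ B)) Z ∅ Z S :=
  ⟨h.fib.okS.inv, h.fib.okD'.inv, (Set.inter_eq_right.mpr h.ZS).symm, fun _ hx => hx.2.elim⟩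

/-- the part over `Z` -/
theorem fibZ (h : Mix Γ D E F Z S f a) : Fib Γ ∅ F ⊥ ∅ Z f where
  fb := by
    refine ⟨⟨?_, ?_, h.fib.fb.okE.fr.mono h.FE⟩, OkD.empty Γ, h.fib.fb.cont.mono h.FE, h.fib.fb.eqv⟩
    · rw [h.hF]
      exact h.fib.fb.okE.cpt.inter_right h.fib.fb.okD.cl
    · rw [h.hF]
      exact h.fib.fb.okE.inv.inter h.fib.fb.okD.inv
  fin := h.fib.fin
  okS := ⟨h.fib.okS.cpt.of_isClosed_subset h.fib.okD'.cl h.ZS, h.fib.okD'.inv, h.fib.okS.fr.mono h.ZS⟩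
  okD' := OkD.empty _
  maps := fun x hx => (h.mem.mp hx).2
  hD := fun _ _ => ⟨fun hx => hx.elim, fun hx => hx.elim⟩

theorem ovZ (h : Mix Γ D E F Z S f a) {p : B} (hp : p ∈ Z) : ov E f {p} = ov F f {p} := by
  ext x
  constructor
  · rintro ⟨h1, h2⟩
    refine ⟨h.mem.mpr ⟨h1, ?_⟩, h2⟩
    have h3 : f x = p := h2
    rwa [h3]
  · rintro ⟨h1, h2⟩
    exact ⟨h.FE h1, h2⟩

theorem b3' (h : Mix Γ D E F Z S f a) : ∀ p ∈ Z, p ∉ (∅ : Set B) →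
    Bas3 Γ (ov F f {p}) (res (ov_sub F f {p}) 1 (res h.FE 1 a))
      (res (ov_sub F f {p}) 2 (res h.FE 2 (pw a 2))) := by
  intro p hp _
  have h1 := Bas3.of_eq (h.ovZ hp) (ov_sub E f {p}) ((ov_sub F f {p}).trans h.FE) a (pw a 2)
    (h.b3 p hp)
  rw [res_res _ _ ((ov_sub F f {p}).trans h.FE), res_res _ _ ((ov_sub F f {p}).trans h.FE)]
  exact h1

/-- coefficients over `Z`: existence -/
theorem exZ (h : Mix Γ D E F Z S f a) {m : ℕ} (y : H Γ ∅ (m + 2) F) :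
    ∃ (c0 : H ⊥ ∅ (m + 2) Z) (c1 : H ⊥ ∅ (m + 1) Z) (c2 : H ⊥ ∅ m Z),
      y = pull f h.fibZ.adE (m + 2) c0 +
        cupH ∅ (m + 2) (pull f h.fibZ.adE (m + 1) c1) (res h.FE 1 a) +
        cupH ∅ (m + 2) (pull f h.fibZ.adE m c2) (res h.FE 2 (pw a 2)) := by
  obtain ⟨⟨c0, c1, c2⟩, hc⟩ := ((LHc h.fibZ (res h.FE 1 a) (res h.FE 2 (pw a 2)) h.b3').2.2 m).2 y
  exact ⟨c0, c1, c2, hc.symm⟩

/-- coefficients over `Z`: uniqueness -/
theorem unZ (h : Mix Γ D E F Z S f a) {m : ℕ} {c0 c0' : H ⊥ ∅ (m + 2) Z}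
    {c1 c1' : H ⊥ ∅ (m + 1) Z} {c2 c2' : H ⊥ ∅ m Z}
    (he : pull f h.fibZ.adE (m + 2) c0 +
        cupH ∅ (m + 2) (pull f h.fibZ.adE (m + 1) c1) (res h.FE 1 a) +
        cupH ∅ (m + 2) (pull f h.fibZ.adE m c2) (res h.FE 2 (pw a 2)) =
      pull f h.fibZ.adE (m + 2) c0' +
        cupH ∅ (m + 2) (pull f h.fibZ.adE (m + 1) c1') (res h.FE 1 a) +
        cupH ∅ (m + 2) (pull f h.fibZ.adE m c2') (res h.FE 2 (pw a 2))) :
    c0 = c0' ∧ c1 = c1' ∧ c2 = c2' := by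
  have h1 := ((LHc h.fibZ (res h.FE 1 a) (res h.FE 2 (pw a 2)) h.b3').2.2 m).1
    (a₁ := (c0, c1, c2)) (a₂ := (c0', c1', c2')) he
  simp only [Prod.mk.injEq] at h1
  exact h1

/-- relative coefficients: existence -/
theorem exD (h : Mix Γ D E F Z S f a) {m : ℕ} (y : H Γ D (m + 1) E) :
    ∃ (c0 : H ⊥ Z (m + 1) S) (c1 : H ⊥ Z m S),
      y = pull f h.fib.adE (m + 1) c0 + cupH D (m + 1) (pull f h.fib.adE m c1) a := by
  obtain ⟨⟨c0, c1⟩, hc⟩ := ((LHb h.fib 1 a le_rfl h.b2).2 m).2 y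
  exact ⟨c0, c1, hc.symm⟩

/-- relative coefficients: uniqueness -/
theorem unD (h : Mix Γ D E F Z S f a) {m : ℕ} {c0 c0' : H ⊥ Z (m + 1) S} {c1 c1' : H ⊥ Z m S}
    (he : pull f h.fib.adE (m + 1) c0 + cupH D (m + 1) (pull f h.fib.adE m c1) a =
      pull f h.fib.adE (m + 1) c0' + cupH D (m + 1) (pull f h.fib.adE m c1') a) :
    c0 = c0' ∧ c1 = c1' := by
  have h1 := ((LHb h.fib 1 a le_rfl h.b2).2 m).1 (a₁ := (c0, c1)) (a₂ := (c0', c1')) he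
  simp only [Prod.mk.injEq] at h1
  exact h1

/-- the connecting map on pulled back classes -/
theorem dP0 (h : Mix Γ D E F Z S f a) {n : ℕ} (u : H ⊥ ∅ n Z) :
    dP h.prE n (pull f h.fibZ.adE n u) = pull f h.fib.adE (n + 1) (dP h.prS n u) :=
  (pull_dP h.prE h.prS h.fib.adE h.fibZ.adE u).symm

/-- the connecting map on products with `a` -/
theorem dP1 (h : Mix Γ D E F Z S f a) {n : ℕ} (u : H ⊥ ∅ n Z) :
    dP h.prE (n + 1) (cupH ∅ (n + 1) (pull f h.fibZ.adE n u) (res h.FE 1 a)) =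
      cupH D (n + 2) (pull f h.fib.adE (n + 1) (dP h.prS n u)) a := by
  rw [← h.dP0]
  exact dP_cup h.prE rfl _ _

/-- **K, main step.** If `S` has no cohomology in positive degrees, every class `u` of `Z` is the
coefficient of `a²` in the restriction of a class of `E` -/
theorem star (h : Mix Γ D E F Z S f a) (hS : ∀ (n : ℕ) (x : H ⊥ ∅ (n + 1) S), x = 0) {j : ℕ}
    (u : H ⊥ ∅ j Z) : ∃ (Y : H Γ ∅ (j + 2) E) (u0 : H ⊥ ∅ (j + 2) Z) (u1 : H ⊥ ∅ (j + 1) Z),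
      res h.FE (j + 2) Y = pull f h.fibZ.adE (j + 2) u0 +
        cupH ∅ (j + 2) (pull f h.fibZ.adE (j + 1) u1) (res h.FE 1 a) +
        cupH ∅ (j + 2) (pull f h.fibZ.adE j u) (res h.FE 2 (pw a 2)) := by
  obtain ⟨v0, v1, hv⟩ := h.exD (m := j + 2)
    (dP h.prE (j + 2) (cupH ∅ (j + 2) (pull f h.fibZ.adE j u) (res h.FE 2 (pw a 2))))
  obtain ⟨u0, rfl⟩ := rel_ex h.prS v0 (hS _ _)
  obtain ⟨u1, rfl⟩ := rel_ex h.prS v1 (hS _ _)
  have h1 : dP h.prE (j + 2) (pull f h.fibZ.adE (j + 2) u0 +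
        cupH ∅ (j + 2) (pull f h.fibZ.adE (j + 1) u1) (res h.FE 1 a) +
        cupH ∅ (j + 2) (pull f h.fibZ.adE j u) (res h.FE 2 (pw a 2))) = 0 := by
    rw [map_add, map_add, hv, h.dP0, h.dP1, two_add]
  obtain ⟨Y, hY⟩ := dP_ex h.prE _ h1
  exact ⟨Y, u0, u1, hY⟩

/-- **K (1), (2).** Vanishing -/
theorem vanish (h : Mix Γ D E F Z S f a) (hS : ∀ (n : ℕ) (x : H ⊥ ∅ (n + 1) S), x = 0) {j : ℕ}
    (hE : ∀ Y : H Γ ∅ (j + 2) E, Y = 0) (u : H ⊥ ∅ j Z) : u = 0 := by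
  obtain ⟨Y, u0, u1, hY⟩ := h.star hS u
  rw [hE Y, map_zero] at hY
  have h1 := h.unZ (c0 := u0) (c1 := u1) (c2 := u) (c0' := 0) (c1' := 0) (c2' := 0) (by
    rw [← hY, map_zero, map_zero, map_zero, czero_left rfl, czero_left rfl, add_zero, add_zero])
  exact h1.2.2

/-- **K (2).** The case `H(E) = {0, aⁿ}` -/
theorem basis (h : Mix Γ D E F Z S f a) (hS : ∀ (n : ℕ) (x : H ⊥ ∅ (n + 1) S), x = 0)
    (w : H (⊥ : Subgroup (B ≃ᵢ B)) ∅ 1 Z)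
    (hw : res h.FE 3 (pw a 3) = pull f h.fibZ.adE 3 (pw w 3) +
      cupH ∅ 3 (pull f h.fibZ.adE 2 (pw w 2)) (res h.FE 1 a) +
      cupH ∅ 3 (pull f h.fibZ.adE 1 w) (res h.FE 2 (pw a 2)))
    (hE2 : ∀ Y : H Γ ∅ 2 E, Y = 0 ∨ Y = pw a 2) (hE3 : ∀ Y : H Γ ∅ 3 E, Y = 0 ∨ Y = pw a 3)
    (hE4 : ∀ (n : ℕ) (Y : H Γ ∅ (n + 4) E), Y = 0) (ha : pw a 3 ≠ 0) :
    Bas2 (⊥ : Subgroup (B ≃ᵢ B)) Z 1 w := by
  have hz : ∀ {m : ℕ}, pull f h.fibZ.adE (m + 2) (0 : H ⊥ ∅ (m + 2) Z) +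
        cupH ∅ (m + 2) (pull f h.fibZ.adE (m + 1) (0 : H ⊥ ∅ (m + 1) Z)) (res h.FE 1 a) +
        cupH ∅ (m + 2) (pull f h.fibZ.adE m (0 : H ⊥ ∅ m Z)) (res h.FE 2 (pw a 2)) = 0 := by
    intro m
    rw [map_zero, map_zero, map_zero, czero_left rfl, czero_left rfl, add_zero, add_zero]
  have h1 : ∀ u : H (⊥ : Subgroup (B ≃ᵢ B)) ∅ 1 Z, u = 0 ∨ u = w := by
    intro u
    obtain ⟨Y, u0, u1, hY⟩ := h.star hS u
    rcases hE3 Y with rfl | rfl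
    · left
      rw [map_zero, ← hz] at hY
      exact (h.unZ hY).2.2.symm
    · right
      rw [hw] at hY
      exact (h.unZ hY).2.2.symm
  have h0 : ∀ u : H (⊥ : Subgroup (B ≃ᵢ B)) ∅ 0 Z, u = 0 ∨ u = one ⊥ Z := by
    intro u
    obtain ⟨Y, u0, u1, hY⟩ := h.star hS u
    rcases hE2 Y with rfl | rfl
    · left
      rw [map_zero, ← hz] at hY
      exact (h.unZ hY).2.2.symm
    · right
      have h2 : res h.FE 2 (pw a 2) = pull f h.fibZ.adE (0 + 2) (0 : H ⊥ ∅ (0 + 2) Z) +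
          cupH ∅ (0 + 2) (pull f h.fibZ.adE (0 + 1) (0 : H ⊥ ∅ (0 + 1) Z)) (res h.FE 1 a) +
          cupH ∅ (0 + 2) (pull f h.fibZ.adE 0 (one ⊥ Z)) (res h.FE 2 (pw a 2)) := by
        rw [map_zero, map_zero, czero_left (p := 1) (q := 1) (n := 2) rfl, add_zero, zero_add]
        exact (one_cupH _).symm
      exact (h.unZ (m := 0) (hY.symm.trans h2)).2.2
  have h2 : w ≠ 0 := by
    intro hw0
    have e : res h.FE 3 (pw a 3) = 0 := by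
      rw [hw, pw_of_zero hw0 2, pw_of_zero hw0 1, hw0]
      exact hz (m := 1)
    obtain ⟨y, hy⟩ := res_ex h.prE (pw a 3) e
    obtain ⟨c0, c1, rfl⟩ := h.exD (m := 2) y
    apply ha
    rw [← hy, map_add, rel_pull h.prE.hD h.prS.hD h.fib.adE h.fib.adE0,
      rel_cup h.prE.hD (p := 2) (q := 1) (n := 3) rfl,
      rel_pull h.prE.hD h.prS.hD h.fib.adE h.fib.adE0, hS 2 (rel _ (2 + 1) c0),
      hS 1 (rel _ 2 c1), map_zero, map_zero, czero_left (p := 2) (q := 1) (n := 3) rfl, add_zero]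
  refine ⟨h0, ?_, h1, h2, ?_⟩
  · intro h3
    apply h2
    rw [← one_cupH w, h3]
    exact czero_left (p := 0) (q := 1) (n := 1) rfl _
  · intro n hn0 hn1 u
    obtain ⟨m, rfl⟩ : ∃ m, n = m + 2 := ⟨n - 2, by omega⟩
    exact h.vanish hS (fun Y => hE4 m Y) u

/-- **L, first step.** -/
theorem lstep (h : Mix Γ D E F Z S f a) {j : ℕ} (e : H ⊥ ∅ (j + 2) S) (he : e ≠ 0)
    (hea : cupH ∅ (j + 3) (pull f h.fib.adE0 (j + 2) e) a = 0) :
    ∃ x : H (⊥ : Subgroup (B ≃ᵢ B)) ∅ j Z, x ≠ 0 := by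
  have h1 : res h.prS.IC (j + 2) e = 0 := by
    have e1 : cupH ∅ (j + 3) (pull f h.fibZ.adE (j + 2) (res h.prS.IC (j + 2) e))
        (res h.FE 1 a) = 0 := by
      rw [← res_pull h.fib.adE0 h.fibZ.adE h.FE h.prS.IC,
        ← res_cup (p := j + 2) (q := 1) (n := j + 3) h.FE rfl, hea, map_zero]
    exact (h.unZ (m := j + 1) (c0 := 0) (c0' := 0) (c2 := 0) (c2' := 0)
      (c1 := res h.prS.IC (j + 2) e) (c1' := 0) (by
        rw [map_zero, map_zero, map_zero, czero_left (p := j + 1) (q := 2) (n := j + 3) rfl,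
          czero_left (p := j + 2) (q := 1) (n := j + 3) rfl, e1])).2.1
  obtain ⟨e', he'⟩ := res_ex h.prS e h1
  have h2 : rel h.prE.hD (j + 3) (cupH D (j + 3) (pull f h.fib.adE (j + 2) e') a) = 0 := by
    rw [rel_cup h.prE.hD (p := j + 2) (q := 1) (n := j + 3) rfl,
      rel_pull h.prE.hD h.prS.hD h.fib.adE h.fib.adE0, he', hea]
  obtain ⟨y, hy⟩ := rel_ex h.prE _ h2
  obtain ⟨y0, y1, x, rfl⟩ := h.exZ (m := j) y
  refine ⟨x, fun hx => he ?_⟩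
  rw [hx, map_zero, czero_left (p := j) (q := 2) (n := j + 2) rfl, add_zero, map_add, h.dP0,
    h.dP1] at hy
  have h3 := (h.unD (m := j + 2) (c0 := 0) (c0' := dP h.prS (j + 2) y0) (c1 := e')
    (c1' := dP h.prS (j + 1) y1) (by
      rw [map_zero, zero_add]
      exact hy)).2
  rw [← he', h3, rel_dP]

end Mix

end AS
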