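import Pool.Agent.Lib.AS.Nz

/-!
# Two fibrations of one total space: Lemma L

`F` has the two projections `f : F → Z` (trivial group on the base) and `g : F → M / Γ₂`.
-/

set_option autoImplicit false

namespace AS

/-- the cohomology of the projective space `M / Γ₂` and of its closed subsets -/
structure Pj {C : Type} [MetricSpace C] (Γ₂ : Subgroup (C ≃ᵢ C)) (M : Set C)
    (a₀ : H Γ₂ ∅ 1 M) : Prop where
  gen : ∀ (n : ℕ) (y : H Γ₂ ∅ n M), y = 0 ∨ y = pw a₀ n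
  a3 : pw a₀ 3 ≠ 0
  dim : Dm Γ₂ 3 M
  top4 : ∀ A : Set C, Ad Γ₂ M A → ∀ (n : ℕ) (y : H Γ₂ ∅ (n + 4) A), y = 0
  top3 : ∀ A : Set C, Ad Γ₂ M A → A ≠ M → ∀ y : H Γ₂ ∅ 3 A, y = 0

variable {X B C : Type} [MetricSpace X] [MetricSpace B] [MetricSpace C] {Γ K : Subgroup (X ≃ᵢ X)}
  {F : Set X} {Z : Set B} {f : X → B} {Γ₂ : Subgroup (C ≃ᵢ C)} {M : Set C} {g : X → C}

section one

variable {D₀ : Set X} {D₀' : Set C}

theorem Fib.adM (h : Fib Γ D₀ F Γ₂ D₀' M g) : Ad Γ₂ M M :=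
  ⟨h.okS.cpt, h.okS.inv, Set.Subset.refl M⟩

/-- the whole total space relative to the part over `A` -/
theorem Fib.oneD (h : Fib Γ D₀ F Γ₂ D₀' M g) {A : Set C} (hA : Ad Γ₂ M A) :
    Fib Γ (ov F g A) F Γ₂ A M g where
  fb := ⟨h.fb.okE, ⟨(h.okov hA).cpt.isClosed, (h.okov hA).inv⟩, h.fb.cont, h.fb.eqv⟩
  fin := h.fin
  okS := h.okS
  okD' := ⟨hA.cpt.isClosed, hA.inv⟩
  maps := h.maps
  hD := fun _ hx => ⟨fun hx' => hx'.2, fun hx' => ⟨hx, hx'⟩⟩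

theorem Fib.prs1 (h : Fib Γ D₀ F Γ₂ D₀' M g) {A : Set C} (hA : Ad Γ₂ M A) :
    Prs Γ (ov F g A) ∅ (ov F g A) F :=
  ⟨h.fb.okE.inv, (h.okov hA).inv, (Set.inter_eq_right.mpr (ov_sub F g A)).symm,
    fun _ hx => hx.2.elim⟩

theorem Bas2.of_eq' {E F' F'' : Set X} (h : F' = F'') (hK : K ≤ Γ) (hF : F' ⊆ E) (hF' : F'' ⊆ E)
    {d : ℕ} (b : H Γ ∅ d E) : Bas2 K F' d (rk hK hF d b) → Bas2 K F'' d (rk hK hF' d b) := by
  subst h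
  exact id

theorem Bas3.of_eq' {E F' F'' : Set X} (h : F' = F'') (hK : K ≤ Γ) (hF : F' ⊆ E) (hF' : F'' ⊆ E)
    (a : H Γ ∅ 1 E) (c : H Γ ∅ 2 E) :
    Bas3 K F' (rk hK hF 1 a) (rk hK hF 2 c) → Bas3 K F'' (rk hK hF' 1 a) (rk hK hF' 2 c) := by
  subst h
  exact id

end one

/-- uniqueness of the coefficients of `1, a, c` -/
theorem un3 (h : Fib Γ ∅ F ⊥ ∅ Z f) {a : H Γ ∅ 1 F} {c : H Γ ∅ 2 F}
    (hb : ∀ p ∈ Z, Bas3 Γ (ov F f {p}) (res (ov_sub F f {p}) 1 a) (res (ov_sub F f {p}) 2 c))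
    {m : ℕ} {c0 c0' : H ⊥ ∅ (m + 2) Z} {c1 c1' : H ⊥ ∅ (m + 1) Z} {c2 c2' : H ⊥ ∅ m Z}
    (he : pull f h.adE (m + 2) c0 + cupH ∅ (m + 2) (pull f h.adE (m + 1) c1) a +
        cupH ∅ (m + 2) (pull f h.adE m c2) c =
      pull f h.adE (m + 2) c0' + cupH ∅ (m + 2) (pull f h.adE (m + 1) c1') a +
        cupH ∅ (m + 2) (pull f h.adE m c2') c) : c0 = c0' ∧ c1 = c1' ∧ c2 = c2' := by
  have h1 := ((LHc h a c (fun p hp _ => hb p hp)).2.2 m).1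
    (a₁ := (c0, c1, c2)) (a₂ := (c0', c1', c2')) he
  simp only [Prod.mk.injEq] at h1
  exact h1

/-- two fibrations, with the classes `a = g^*(a₀)`, `w` -/
structure Dbl (Γ K : Subgroup (X ≃ᵢ X)) (F : Set X) (Z : Set B) (f : X → B)
    (Γ₂ : Subgroup (C ≃ᵢ C)) (M : Set C) (g : X → C) (a₀ : H Γ₂ ∅ 1 M)
    (w : H (⊥ : Subgroup (B ≃ᵢ B)) ∅ 1 Z) : Prop where
  ff : Fib Γ ∅ F ⊥ ∅ Z f
  fg : Fib Γ ∅ F Γ₂ ∅ M g
  q : Quo Γ K F Γ₂ g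
  b3 : ∀ p ∈ Z, Bas3 Γ (ov F f {p}) (res (ov_sub F f {p}) 1 (pull g fg.adE 1 a₀))
    (res (ov_sub F f {p}) 2 (pw (pull g fg.adE 1 a₀) 2))
  rel3 : pw (pull g fg.adE 1 a₀) 3 = pull f ff.adE 3 (pw w 3) +
    cupH ∅ 3 (pull f ff.adE 2 (pw w 2)) (pull g fg.adE 1 a₀) +
    cupH ∅ 3 (pull f ff.adE 1 w) (pw (pull g fg.adE 1 a₀) 2)

namespace Dbl

variable {a₀ : H Γ₂ ∅ 1 M} {w : H (⊥ : Subgroup (B ≃ᵢ B)) ∅ 1 Z}

/-- the vanishing of `u a²` -/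
theorem eq_zero (d : Dbl Γ K F Z f Γ₂ M g a₀ w) {j : ℕ} (u : H ⊥ ∅ j Z)
    (h : cupH ∅ (j + 2) (pull f d.ff.adE j u) (pw (pull g d.fg.adE 1 a₀) 2) = 0) : u = 0 :=
  (un3 d.ff d.b3 (m := j) (c0 := 0) (c0' := 0) (c1 := 0) (c1' := 0) (c2 := u) (c2' := 0) (by
    rw [map_zero, map_zero, map_zero, czero_left (p := j + 1) (q := 1) (n := j + 2) rfl,
      czero_left (p := j) (q := 2) (n := j + 2) rfl, h])).2.2

/-- `a` vanishes over a set where `a₀` vanishes -/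
theorem a_zero (d : Dbl Γ K F Z f Γ₂ M g a₀ w) {A : Set C} (hA : Ad Γ₂ M A)
    (h0 : res hA.sub 1 a₀ = 0) : res (ov_sub F g A) 1 (pull g d.fg.adE 1 a₀) = 0 := by
  rw [res_pull d.fg.adE (d.fg.part hA).adE (ov_sub F g A) hA.sub, h0, map_zero]

/-- products with the powers of `a` vanish there -/
theorem cup_zero (d : Dbl Γ K F Z f Γ₂ M g a₀ w) {A : Set C} (hA : Ad Γ₂ M A)
    (h0 : res hA.sub 1 a₀ = 0) {p k n : ℕ} (hn : p + (k + 1) = n) (y : H Γ ∅ p F) :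
    res (ov_sub F g A) n (cupH ∅ n y (pw (pull g d.fg.adE 1 a₀) (k + 1))) = 0 := by
  rw [res_cup (ov_sub F g A) hn, res_pw, pw_of_zero (d.a_zero hA h0), czero_right hn]

/-- `a³ w = w⁴ + w³ a + w² a²` -/
theorem a3w (d : Dbl Γ K F Z f Γ₂ M g a₀ w) :
    cupH ∅ 4 (pw (pull g d.fg.adE 1 a₀) 3) (pull f d.ff.adE 1 w) =
      pull f d.ff.adE 4 (pw w 4) +
        cupH ∅ 4 (pull f d.ff.adE 3 (pw w 3)) (pull g d.fg.adE 1 a₀) +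
        cupH ∅ 4 (pull f d.ff.adE 2 (pw w 2)) (pw (pull g d.fg.adE 1 a₀) 2) := by
  have e1 : ∀ y : H Γ ∅ 3 F, cupH ∅ 4 y (pull f d.ff.adE 1 w) =
      cupH ∅ 4 (pull f d.ff.adE 1 w) y := fun y => (cup_comm _ rfl y).symm
  rw [e1, d.rel3, cadd_right (p := 1) (q := 3) (n := 4) rfl,
    cadd_right (p := 1) (q := 3) (n := 4) rfl, ← pull_cup (p := 1) (q := 3) (n := 4) rfl,
    ← pw_succ' w 3,
    ← cassoc (p := 1) (q := 2) (r := 1) (m := 3) (k := 3) (s := 4) rfl rfl rfl rfl,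
    ← cassoc (p := 1) (q := 1) (r := 2) (m := 2) (k := 3) (s := 4) rfl rfl rfl rfl,
    ← pull_cup (p := 1) (q := 2) (n := 3) rfl, ← pull_cup (p := 1) (q := 1) (n := 2) rfl,
    ← pw_succ' w 2]
  have e2 : cupH ∅ 2 w w = pw w 2 := by
    rw [pw_succ, pw_one]
  rw [e2]

end Dbl

/-- the situation of Lemma L: outside of the closed set `A` the fibres of `g` are acyclic or have the
basis `1, w` -/
structure LHyp (K : Subgroup (X ≃ᵢ X)) (F : Set X) (Γ₂ : Subgroup (C ≃ᵢ C)) (M : Set C)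
    (g : X → C) (q : Quo Γ K F Γ₂ g) (a₀ : H Γ₂ ∅ 1 M) (W : H Γ ∅ 1 F) (A : Set C) : Prop where
  ad : Ad Γ₂ M A
  a0 : res ad.sub 1 a₀ = 0
  acy : ∀ (n : ℕ) (y : H Γ₂ ∅ (n + 1) A), y = 0
  f2 : ∀ z ∈ M, z ∉ A → ∀ (n : ℕ) (x : H K ∅ (n + 2) (ov F g {z})), x = 0
  f1 : ∀ z ∈ M, z ∉ A → rk q.le (ov_sub F g {z}) 1 W = 0 → ∀ x : H K ∅ 1 (ov F g {z}), x = 0
  fw : ∀ z ∈ M, z ∉ A → rk q.le (ov_sub F g {z}) 1 W ≠ 0 →
    Bas2 K (ov F g {z}) 1 (rk q.le (ov_sub F g {z}) 1 W)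

section LL

variable {a₀ : H Γ₂ ∅ 1 M} {w : H (⊥ : Subgroup (B ≃ᵢ B)) ∅ 1 Z} {A : Set C}

/-- relative groups of closed sets over `A` -/
theorem Pj.rel4 (hM : Pj Γ₂ M a₀) (hA : Ad Γ₂ M A) (hacy : ∀ (n : ℕ) (y : H Γ₂ ∅ (n + 1) A), y = 0)
    {A₁ : Set C} (hA₁ : Ad Γ₂ M A₁) (hs : A ⊆ A₁) (v : H Γ₂ A 4 A₁) : v = 0 := by
  obtain ⟨u, rfl⟩ := rel_ex (prsA hA hA₁ hs) v (hM.top4 A₁ hA₁ 0 _)
  rw [hacy 2 u, map_zero]

theorem Pj.rel3 (hM : Pj Γ₂ M a₀) (hA : Ad Γ₂ M A) (hacy : ∀ (n : ℕ) (y : H Γ₂ ∅ (n + 1) A), y = 0)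
    {A₁ : Set C} (hA₁ : Ad Γ₂ M A₁) (hs : A ⊆ A₁) (hne : A₁ ≠ M) (v : H Γ₂ A 3 A₁) : v = 0 := by
  obtain ⟨u, rfl⟩ := rel_ex (prsA hA hA₁ hs) v (hM.top3 A₁ hA₁ hne _)
  rw [hacy 1 u, map_zero]

/-- **Lemma L (ii), (iii).** -/
theorem lemL (d : Dbl Γ K F Z f Γ₂ M g a₀ w) (hM : Pj Γ₂ M a₀)
    (hL : LHyp K F Γ₂ M g d.q a₀ (pull f d.ff.adE 1 w) A) {j : ℕ} (hj : 2 ≤ j)
    (x : H (⊥ : Subgroup (B ≃ᵢ B)) ∅ j Z) (hx : x ≠ 0) :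
    j = 2 ∧ pw w 2 ≠ 0 ∧
      ∀ z ∈ M, z ∉ A → rk d.q.le (ov_sub F g {z}) 1 (pull f d.ff.adE 1 w) ≠ 0 := by
  set W := pull f d.ff.adE 1 w with hW
  set y := cupH ∅ (j + 2) (pull f d.ff.adE j x) (pw (pull g d.fg.adE 1 a₀) 2) with hy
  have hy0 : y ≠ 0 := fun h => hx (d.eq_zero x h)
  have hyA : res (ov_sub F g A) (j + 2) y = 0 := d.cup_zero hL.ad hL.a0 (k := 1) rfl _
  -- the dimension bound
  have hj2 : j = 2 := by
    by_contra hne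
    obtain ⟨y', hy'⟩ := res_ex (d.fg.prs1 hL.ad) y hyA
    apply hy0
    rw [← hy', LDim (d.fg.oneD hL.ad) (d.q) (d := 3) (m := 2) (n := j + 2) ?_ hM.dim (by omega) y',
      map_zero]
    intro z hz hzA n hn
    obtain ⟨k, rfl⟩ : ∃ k, n = k + 2 := ⟨n - 2, by omega⟩
    exact rel_vanish (ov_disj hzA F) (hL.f2 z hz hzA k)
  subst hj2
  -- the closed set where `w` does not vanish
  have hnz := nzs_ad d.fg d.q W
  have hA₁ : Ad Γ₂ M (A ∪ nzs d.q M W) := hL.ad.union hnz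
  have hyA₁ : res (ov_sub F g (A ∪ nzs d.q M W)) 4 y ≠ 0 := by
    intro h1
    obtain ⟨y', hy'⟩ := res_ex (d.fg.prs1 hA₁) y h1
    apply hy0
    rw [← hy', LDim (d.fg.oneD hA₁) (d.q) (d := 3) (m := 1) (n := 2 + 2) ?_ hM.dim (by omega) y',
      map_zero]
    intro z hz hzA n hn
    have hzA' : z ∉ A := fun h2 => hzA (Or.inl h2)
    have hzW : rk d.q.le (ov_sub F g {z}) 1 W = 0 := by
      by_contra h2
      exact hzA (Or.inr ⟨hz, h2⟩)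
    apply rel_vanish (ov_disj hzA F)
    obtain ⟨k, rfl⟩ : ∃ k, n = k + 1 := ⟨n - 1, by omega⟩
    rcases k with _ | k
    · exact hL.f1 z hz hzA' hzW
    · exact hL.f2 z hz hzA' k
  have hAA₁ : A ⊆ A ∪ nzs d.q M W := Set.subset_union_left
  have hall : A ∪ nzs d.q M W = M := by
    by_contra hne
    apply hyA₁
    have h1 : res (ov_mono hAA₁ : ov F g A ⊆ ov F g (A ∪ nzs d.q M W)) 4
        (res (ov_sub F g (A ∪ nzs d.q M W)) 4 y) = 0 := by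
      rw [res_res _ _ (ov_sub F g A)]
      exact hyA
    obtain ⟨y', hy'⟩ := res_ex (d.fg.prs hL.ad hA₁ hAA₁) _ h1
    obtain ⟨⟨v0, v1⟩, hv⟩ := ((LHb' (d.fg.two hL.ad hA₁)
      (d.q.mono (ov_sub F g (A ∪ nzs d.q M W))) 1 (res (ov_sub F g (A ∪ nzs d.q M W)) 1 W) le_rfl
      (by
        intro p hp hpA
        have hpM : p ∈ M := hA₁.sub hp
        have h2 : rk d.q.le (ov_sub F g {p}) 1 W ≠ 0 := by
          rcases hp with hp | hp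
          · exact absurd hp hpA
          · exact hp.2
        have h3 := Bas2.of_eq' (ov_ov hp) d.q.le (ov_sub F g {p})
          ((ov_sub (ov F g (A ∪ nzs d.q M W)) g {p}).trans (ov_sub F g (A ∪ nzs d.q M W))) W
          (hL.fw p hpM hpA h2)
        rw [rk_res]
        exact h3)).2 3).2 y'
    rw [← hy', ← hv]
    change rel _ 4 (pull g _ 4 v0 + cupH _ 4 (pull g _ 3 v1) _) = 0
    rw [hM.rel4 hL.ad hL.acy hA₁ hAA₁ v0, hM.rel3 hL.ad hL.acy hA₁ hAA₁ hne v1, map_zero,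
      map_zero, rczero_left (p := 3) (q := 1) (n := 4) rfl, add_zero, map_zero]
  have hnz' : ∀ z ∈ M, z ∉ A → rk d.q.le (ov_sub F g {z}) 1 W ≠ 0 := by
    intro z hz hzA
    rw [← hall] at hz
    rcases hz with hz | hz
    · exact absurd hz hzA
    · exact hz.2
  refine ⟨rfl, ?_, hnz'⟩
  obtain ⟨y', hy'⟩ := res_ex (d.fg.prs1 hL.ad) y hyA
  obtain ⟨⟨v0, v1⟩, hv⟩ := ((LHb' (d.fg.oneD hL.ad) d.q 1 W le_rfl
    (fun p hp hpA => hL.fw p hp hpA (hnz' p hp hpA))).2 3).2 y'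
  have hv' : y' = pull g (d.fg.oneD hL.ad).adE 4 v0 +
      cupH (ov F g A) 4 (pull g (d.fg.oneD hL.ad).adE 3 v1) W := hv.symm
  have hk : y = cupH ∅ 4 (pull g d.fg.adE 3 (rel (prsA hL.ad d.fg.adM hL.ad.sub).hD 3 v1)) W := by
    rw [← hy', hv', hM.rel4 hL.ad hL.acy d.fg.adM hL.ad.sub v0, map_zero, zero_add]
    change rel _ 4 (cupH (ov F g A) 4 (pull g (d.fg.oneD hL.ad).adE 3 v1) W) = _
    rw [rel_cup _ (p := 3) (q := 1) (n := 4) rfl,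
      rel_pull _ (prsA hL.ad d.fg.adM hL.ad.sub).hD (d.fg.oneD hL.ad).adE d.fg.adE]
  rcases hM.gen 3 (rel (prsA hL.ad d.fg.adM hL.ad.sub).hD 3 v1) with h1 | h1
  · exfalso
    apply hy0
    rw [hk, h1, map_zero, czero_left (p := 3) (q := 1) (n := 4) rfl]
  · rw [h1, pull_pw, hW, d.a3w] at hk
    intro h2
    rw [hy] at hk
    have h3 := (un3 d.ff d.b3 (m := 2) (c0 := 0) (c1 := 0) (c2 := x) (c0' := pw w 4)
      (c1' := pw w 3) (c2' := pw w 2) (by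
        rw [map_zero, map_zero, czero_left (p := 3) (q := 1) (n := 4) rfl, zero_add, zero_add]
        exact hk)).2.2
    exact hx (h3.trans h2)

end LL

end AS
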