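import Pool.Agent.Lib.AS.ChL

/-!
# Two fibrations of one total space: Proposition P
-/

set_option autoImplicit false

namespace AS

section acyclic

variable {C : Type} [MetricSpace C] {Γ₂ : Subgroup (C ≃ᵢ C)} {M : Set C}

/-- a pair of acyclic sets has no relative cohomology -/
theorem acy_pair {A A₃ : Set C} (hA : Ad Γ₂ M A) (hA₃ : Ad Γ₂ M A₃) (hs : A ⊆ A₃)
    (cA : Acy Γ₂ A) (cA₃ : Acy Γ₂ A₃) (n : ℕ) (v : H Γ₂ A n A₃) : v = 0 := by
  have hp := prsA hA hA₃ hs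
  rcases n with _ | n
  · apply rel_inj_zero hp.hD
    rcases cA₃.1 (rel hp.hD 0 v) with h1 | h1
    · exact h1
    · exfalso
      apply cA.2.1
      have h2 := res_rel hp v
      rw [h1] at h2
      exact h2
  · obtain ⟨u, rfl⟩ := rel_ex hp v (cA₃.2.2 n _)
    rcases n with _ | n
    · rcases cA.1 u with rfl | rfl
      · exact map_zero _
      · exact dP_res hp (one Γ₂ A₃)
    · rw [cA.2.2 n u, map_zero]

end acyclic

variable {X B C : Type} [MetricSpace X] [MetricSpace B] [MetricSpace C] {Γ K : Subgroup (X ≃ᵢ X)}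
  {F : Set X} {Z : Set B} {f : X → B} {Γ₂ : Subgroup (C ≃ᵢ C)} {M : Set C} {g : X → C}
  {a₀ : H Γ₂ ∅ 1 M} {w : H (⊥ : Subgroup (B ≃ᵢ B)) ∅ 1 Z}

/-- the situation of Proposition P -/
structure PHyp (K : Subgroup (X ≃ᵢ X)) (F : Set X) (Γ₂ : Subgroup (C ≃ᵢ C)) (M : Set C)
    (g : X → C) (q : Quo Γ K F Γ₂ g) (a₀ : H Γ₂ ∅ 1 M) (W : H Γ ∅ 1 F) (A A₃ : Set C) : Prop where
  adA : Ad Γ₂ M A
  adA₃ : Ad Γ₂ M A₃
  hs : A ⊆ A₃
  a0 : res adA.sub 1 a₀ = 0
  cA : Acy Γ₂ A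
  cA₃ : Acy Γ₂ A₃
  f3 : ∀ z ∈ A₃, z ∉ A → Bas3 K (ov F g {z}) (rk q.le (ov_sub F g {z}) 1 W)
    (rk q.le (ov_sub F g {z}) 2 (pw W 2))
  f2 : ∀ z ∈ M, z ∉ A₃ → Bas2 K (ov F g {z}) 1 (rk q.le (ov_sub F g {z}) 1 W)

/-- the part over `A₃` relative to the part over `A` -/
theorem PHyp.rel_zero (h : Fib Γ ∅ F Γ₂ ∅ M g) {q : Quo Γ K F Γ₂ g} {W : H Γ ∅ 1 F}
    {A A₃ : Set C} (hP : PHyp K F Γ₂ M g q a₀ W A A₃) {n : ℕ}
    (y : H Γ (ov F g A) n (ov F g A₃)) : y = 0 := by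
  have h1 := LHc' (h.two hP.adA hP.adA₃) (q.mono (ov_sub F g A₃)) (res (ov_sub F g A₃) 1 W)
    (res (ov_sub F g A₃) 2 (pw W 2)) (by
      intro p hp hpA
      have h3 := Bas3.of_eq' (ov_ov hp) q.le (ov_sub F g {p})
        ((ov_sub (ov F g A₃) g {p}).trans (ov_sub F g A₃)) W (pw W 2) (hP.f3 p hp hpA)
      rw [rk_res, rk_res]
      exact h3)
  have hv : ∀ (n : ℕ) (v : H Γ₂ A n A₃), v = 0 := acy_pair hP.adA hP.adA₃ hP.hs hP.cA hP.cA₃
  rcases n with _ | _ | m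
  · obtain ⟨v, rfl⟩ := h1.1.2 y
    rw [hv 0 v, map_zero]
  · obtain ⟨⟨v0, v1⟩, rfl⟩ := h1.2.1.2 y
    change pull g _ 1 v0 + cupH _ 1 (pull g _ 0 v1) _ = 0
    rw [hv 1 v0, hv 0 v1, map_zero, map_zero, rczero_left (p := 0) (q := 1) (n := 1) rfl, add_zero]
  · obtain ⟨⟨v0, v1, v2⟩, rfl⟩ := (h1.2.2 m).2 y
    change pull g _ (m + 2) v0 + cupH _ (m + 2) (pull g _ (m + 1) v1) _ +
      cupH _ (m + 2) (pull g _ m v2) _ = 0
    rw [hv _ v0, hv _ v1, hv _ v2, map_zero, map_zero, map_zero,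
      rczero_left (p := m + 1) (q := 1) (n := m + 2) rfl,
      rczero_left (p := m) (q := 2) (n := m + 2) rfl, add_zero, add_zero]

/-- classes which vanish over `A` -/
theorem PHyp.shape (h : Fib Γ ∅ F Γ₂ ∅ M g) (hM : Pj Γ₂ M a₀) {q : Quo Γ K F Γ₂ g}
    {W : H Γ ∅ 1 F} {A A₃ : Set C} (hP : PHyp K F Γ₂ M g q a₀ W A A₃) {m : ℕ}
    (y : H Γ ∅ (m + 1) F) (hy : res (ov_sub F g A) (m + 1) y = 0) :
    ∃ (v0 : H Γ₂ ∅ (m + 1) M) (v1 : H Γ₂ ∅ m M),
      y = pull g h.adE (m + 1) v0 + cupH ∅ (m + 1) (pull g h.adE m v1) W ∧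
        (v0 = 0 ∨ v0 = pw a₀ (m + 1)) ∧ (v1 = 0 ∨ (v1 = pw a₀ m ∧ m ≠ 0)) := by
  have h1 : res (ov_sub F g A₃) (m + 1) y = 0 := by
    obtain ⟨y', hy'⟩ := res_ex (h.prs hP.adA hP.adA₃ hP.hs) (res (ov_sub F g A₃) (m + 1) y) (by
      rw [res_res _ _ (ov_sub F g A)]
      exact hy)
    rw [← hy', hP.rel_zero h y', map_zero]
  obtain ⟨y', hy'⟩ := res_ex (h.prs1 hP.adA₃) y h1
  obtain ⟨⟨v0, v1⟩, hv⟩ := ((LHb' (h.oneD hP.adA₃) q 1 W le_rfl
    (fun p hp hpA => hP.f2 p hp hpA)).2 m).2 y'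
  have hv' : y' = pull g (h.oneD hP.adA₃).adE (m + 1) v0 +
      cupH (ov F g A₃) (m + 1) (pull g (h.oneD hP.adA₃).adE m v1) W := hv.symm
  have hr := prsA hP.adA₃ h.adM hP.adA₃.sub
  refine ⟨rel hr.hD (m + 1) v0, rel hr.hD m v1, ?_, hM.gen _ _, ?_⟩
  · rw [← hy', hv', map_add, rel_cup _ (p := m) (q := 1) (n := m + 1) rfl,
      rel_pull _ hr.hD (h.oneD hP.adA₃).adE h.adE, rel_pull _ hr.hD (h.oneD hP.adA₃).adE h.adE]
  · rcases hM.gen m (rel hr.hD m v1) with h2 | h2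
    · exact Or.inl h2
    · rcases m with _ | m
      · exfalso
        apply hP.cA₃.2.1
        have h3 := res_rel hr v1
        rw [h2] at h3
        exact h3
      · exact Or.inr ⟨h2, Nat.succ_ne_zero m⟩

/-- **Proposition P** (abstract form) -/
theorem lemP (d : Dbl Γ K F Z f Γ₂ M g a₀ w) (hM : Pj Γ₂ M a₀) (hw : pw w 2 ≠ 0) {A A₃ : Set C}
    (hP : PHyp K F Γ₂ M g d.q a₀ (pull f d.ff.adE 1 w) A A₃) :
    Bas3 (⊥ : Subgroup (B ≃ᵢ B)) Z w (pw w 2) := by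
  set a := pull g d.fg.adE 1 a₀ with ha
  set W := pull f d.ff.adE 1 w with hW
  have hw1 : w ≠ 0 := fun h => hw (pw_of_zero h 1)
  have hone : one (⊥ : Subgroup (B ≃ᵢ B)) Z ≠ 0 := by
    intro h3
    apply hw1
    rw [← one_cupH w, h3]
    exact czero_left (p := 0) (q := 1) (n := 1) rfl _
  have haW : cupH ∅ 2 a W = cupH ∅ 2 W a := cup_comm a rfl W
  have key : ∀ {m : ℕ} (u : H (⊥ : Subgroup (B ≃ᵢ B)) ∅ m Z),
      ∃ (v0 : H Γ₂ ∅ (m + 1) M) (v1 : H Γ₂ ∅ m M),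
      cupH ∅ (m + 1) (pull f d.ff.adE m u) a =
        pull g d.fg.adE (m + 1) v0 + cupH ∅ (m + 1) (pull g d.fg.adE m v1) W ∧
        (v0 = 0 ∨ v0 = pw a₀ (m + 1)) ∧ (v1 = 0 ∨ (v1 = pw a₀ m ∧ m ≠ 0)) := by
    intro m u
    apply hP.shape d.fg hM
    have h1 := d.cup_zero hP.adA hP.a0 (k := 0) (n := m + 1) rfl (pull f d.ff.adE m u)
    rw [pw_one] at h1
    exact h1
  -- comparison of coefficients
  have un : ∀ {m : ℕ} {u : H (⊥ : Subgroup (B ≃ᵢ B)) ∅ (m + 1) Z}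
      {c0 : H (⊥ : Subgroup (B ≃ᵢ B)) ∅ (m + 2) Z} {c1 : H (⊥ : Subgroup (B ≃ᵢ B)) ∅ (m + 1) Z}
      {c2 : H (⊥ : Subgroup (B ≃ᵢ B)) ∅ m Z},
      cupH ∅ (m + 2) (pull f d.ff.adE (m + 1) u) a =
        pull f d.ff.adE (m + 2) c0 + cupH ∅ (m + 2) (pull f d.ff.adE (m + 1) c1) a +
        cupH ∅ (m + 2) (pull f d.ff.adE m c2) (pw a 2) → 0 = c0 ∧ u = c1 ∧ 0 = c2 := by
    intro m u c0 c1 c2 h
    apply un3 d.ff d.b3
    rw [map_zero, map_zero, zero_add, czero_left (p := m) (q := 2) (n := m + 2) rfl, add_zero]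
    exact h
  have h4 : ∀ n (v : H Γ₂ ∅ (n + 4) M), v = 0 := fun n v => hM.top4 M d.fg.adM n v
  refine ⟨?_, hone, ?_, hw1, ?_, hw, ?_⟩
  · -- degree 0
    intro u
    obtain ⟨v0, v1, h1, h2, h3⟩ := key u
    have hv1 : v1 = 0 := h3.resolve_right fun h => h.2 rfl
    have hb := (LHc d.ff a (pw a 2) (fun p hp _ => d.b3 p hp)).2.1.1
    rw [hv1, map_zero, czero_left (p := 0) (q := 1) (n := 1) rfl, add_zero] at h1
    rcases h2 with h2 | h2
    · left
      rw [h2, map_zero] at h1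
      have h5 := hb (a₁ := (0, u)) (a₂ := (0, 0)) (by
        change pull f _ 1 0 + cupH ∅ 1 (pull f _ 0 u) a = pull f _ 1 0 + cupH ∅ 1 (pull f _ 0 0) a
        rw [map_zero, map_zero, czero_left (p := 0) (q := 1) (n := 1) rfl]
        exact congrArg _ h1)
      exact (Prod.mk.inj h5).2
    · right
      rw [h2, pull_pw] at h1
      have h5 := hb (a₁ := (0, u)) (a₂ := (0, one ⊥ Z)) (by
        change pull f _ 1 0 + cupH ∅ 1 (pull f _ 0 u) a =
          pull f _ 1 0 + cupH ∅ 1 (one Γ F) a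
        rw [map_zero, one_cupH, zero_add, zero_add]
        exact h1.trans (pw_one _))
      exact (Prod.mk.inj h5).2
  · -- degree 1
    intro u
    obtain ⟨v0, v1, h1, h2, h3⟩ := key u
    have e0 : pull g d.fg.adE 2 v0 = 0 ∨ pull g d.fg.adE 2 v0 = pw a 2 := by
      rcases h2 with h2 | h2
      · left
        rw [h2, map_zero]
      · right
        rw [h2, pull_pw]
    have e0' : ∃ c2 : H (⊥ : Subgroup (B ≃ᵢ B)) ∅ 0 Z,
        pull g d.fg.adE 2 v0 = cupH ∅ 2 (pull f d.ff.adE 0 c2) (pw a 2) := by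
      rcases e0 with h | h
      · exact ⟨0, by rw [h, map_zero, czero_left (p := 0) (q := 2) (n := 2) rfl]⟩
      · exact ⟨one ⊥ Z, by
          rw [h]
          exact (one_cupH _).symm⟩
    obtain ⟨c2, hc2⟩ := e0'
    have h1' : cupH ∅ 2 (pull f d.ff.adE 1 u) a =
        cupH ∅ 2 (pull f d.ff.adE 0 c2) (pw a 2) + cupH ∅ 2 (pull g d.fg.adE 1 v1) W := by
      rw [← hc2]
      exact h1
    rcases h3 with h3 | ⟨h3, _⟩
    · left
      have h5 := un (m := 0) (u := u) (c0 := 0) (c1 := 0) (c2 := c2) (by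
        change cupH ∅ 2 (pull f d.ff.adE 1 u) a = pull f d.ff.adE 2 0 +
          cupH ∅ 2 (pull f d.ff.adE 1 0) a + cupH ∅ 2 (pull f d.ff.adE 0 c2) (pw a 2)
        rw [h1', h3, map_zero, map_zero, map_zero, czero_left (p := 1) (q := 1) (n := 2) rfl,
          czero_left (p := 1) (q := 1) (n := 2) rfl, add_zero, zero_add, zero_add])
      exact h5.2.1
    · right
      have h5 := un (m := 0) (u := u) (c0 := 0) (c1 := w) (c2 := c2) (by
        change cupH ∅ 2 (pull f d.ff.adE 1 u) a = pull f d.ff.adE 2 0 +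
          cupH ∅ 2 W a + cupH ∅ 2 (pull f d.ff.adE 0 c2) (pw a 2)
        have h6 : v1 = a₀ := h3.trans (pw_one a₀)
        rw [h1', h6, ← ha, haW, map_zero, zero_add, add_comm (cupH ∅ 2 W a)])
      exact h5.2.1
  · -- degree 2
    intro u
    obtain ⟨v0, v1, h1, h2, h3⟩ := key u
    have e1 : ∃ c2 : H (⊥ : Subgroup (B ≃ᵢ B)) ∅ 1 Z,
        cupH ∅ 3 (pull g d.fg.adE 2 v1) W = cupH ∅ 3 (pull f d.ff.adE 1 c2) (pw a 2) := by
      rcases h3 with h3 | ⟨h3, _⟩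
      · exact ⟨0, by rw [h3, map_zero, map_zero, czero_left (p := 2) (q := 1) (n := 3) rfl,
          czero_left (p := 1) (q := 2) (n := 3) rfl]⟩
      · refine ⟨w, ?_⟩
        rw [h3, pull_pw]
        exact (cup_comm W rfl (pw a 2)).symm
    obtain ⟨c2, hc2⟩ := e1
    rcases h2 with h2 | h2
    · left
      have h5 := un (m := 1) (u := u) (c0 := 0) (c1 := 0) (c2 := c2) (by
        rw [map_zero, map_zero, czero_left (p := 2) (q := 1) (n := 3) rfl, zero_add, zero_add]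
        rw [h2, map_zero, zero_add] at h1
        exact h1.trans hc2)
      exact h5.2.1
    · right
      have h6 : pull g d.fg.adE 3 v0 = pull f d.ff.adE 3 (pw w 3) +
          cupH ∅ 3 (pull f d.ff.adE 2 (pw w 2)) a + cupH ∅ 3 W (pw a 2) := by
        rw [h2, pull_pw]
        exact d.rel3
      have h5 := un (m := 1) (u := u) (c0 := pw w 3) (c1 := pw w 2) (c2 := w + c2) (by
        rw [map_add, cadd_left (p := 1) (q := 2) (n := 3) rfl]
        change cupH ∅ 3 (pull f d.ff.adE 2 u) a = pull f d.ff.adE 3 (pw w 3) +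
          cupH ∅ 3 (pull f d.ff.adE 2 (pw w 2)) a +
          (cupH ∅ 3 W (pw a 2) + cupH ∅ 3 (pull f d.ff.adE 1 c2) (pw a 2))
        rw [← hc2, ← add_assoc, ← h6]
        exact h1)
      exact h5.2.1
  · -- degrees ≥ 3
    intro n u
    obtain ⟨v0, v1, h1, h2, h3⟩ := key u
    rw [h4 n v0, map_zero, zero_add] at h1
    rcases n with _ | n
    · rcases h3 with h3 | ⟨h3, _⟩
      · have h5 := un (m := 2) (u := u) (c0 := 0) (c1 := 0) (c2 := 0) (by
          rw [map_zero, map_zero, map_zero, czero_left (p := 3) (q := 1) (n := 4) rfl,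
            czero_left (p := 2) (q := 2) (n := 4) rfl, add_zero, add_zero]
          rw [h3, map_zero, czero_left (p := 3) (q := 1) (n := 4) rfl] at h1
          exact h1)
        exact h5.2.1
      · exfalso
        have h6 : cupH ∅ 4 (pull g d.fg.adE 3 v1) W = pull f d.ff.adE 4 (pw w 4) +
            cupH ∅ 4 (pull f d.ff.adE 3 (pw w 3)) a +
            cupH ∅ 4 (pull f d.ff.adE 2 (pw w 2)) (pw a 2) := by
          have h7 : v1 = pw a₀ 3 := h3
          rw [h7, pull_pw]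
          exact d.a3w
        have h5 := un (m := 2) (u := u) (c0 := pw w 4) (c1 := pw w 3) (c2 := pw w 2)
          (h1.trans h6)
        exact hw h5.2.2.symm
    · have hv1 : v1 = 0 := h4 n v1
      have h5 := un (m := n + 3) (u := u) (c0 := 0) (c1 := 0) (c2 := 0) (by
        rw [map_zero, map_zero, map_zero, czero_left (p := n + 4) (q := 1) (n := n + 5) rfl,
          czero_left (p := n + 3) (q := 2) (n := n + 5) rfl, add_zero, add_zero]
        rw [hv1, map_zero, czero_left (p := n + 4) (q := 1) (n := n + 5) rfl] at h1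
        exact h1)
      exact h5.2.1

end AS
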