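import Pool.Agent.Lib.AS.ChP

/-!
# Two fibrations of one total space: Theorem S0
-/

set_option autoImplicit false

namespace AS

section nbhd

variable {C : Type} [MetricSpace C] {Γ₂ : Subgroup (C ≃ᵢ C)} {M : Set C}

/-- the points of `M` near the orbit -/
theorem ad_near (hΓ : (Γ₂ : Set (C ≃ᵢ C)).Finite) (hM : Ad Γ₂ M M) {z : C} (hz : z ∈ M) (ρ : ℝ) :
    Ad Γ₂ M (M ∩ nb Γ₂ z ρ) := by
  obtain ⟨h1, h2⟩ := (okL0 C Γ₂ M z hΓ hM.inv hz).2.1 ρ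
  exact ⟨hM.cpt.inter_right h1, hM.inv.inter h2, Set.inter_subset_left⟩

/-- the points of `M` far from the orbit -/
theorem ad_far (hM : Ad Γ₂ M M) (z : C) (ρ : ℝ) :
    Ad Γ₂ M (M ∩ {x | ∀ b ∈ orb Γ₂ z, ρ ≤ dist x b}) := by
  refine ⟨hM.cpt.inter_right ?_, ?_, Set.inter_subset_left⟩
  · have h1 : {x : C | ∀ b ∈ orb Γ₂ z, ρ ≤ dist x b} = ⋂ b ∈ orb Γ₂ z, {x | ρ ≤ dist x b} := by
      ext x
      simp
    rw [h1]
    exact isClosed_biInter fun b _ => isClosed_le continuous_const (continuous_id.dist continuous_const)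
  · intro g hg x hx
    refine ⟨hM.inv g hg x hx.1, fun b hb => ?_⟩
    have h1 : g⁻¹ b ∈ orb Γ₂ z := ivS_orb Γ₂ z g⁻¹ (Γ₂.inv_mem hg) b hb
    have h2 : dist (g x) b = dist x (g⁻¹ b) := by
      conv_lhs => rw [← IsometryEquiv.apply_inv_self g b]
      exact g.dist_eq _ _
    rw [h2]
    exact hx.2 _ h1

theorem near_union (z : C) {ρ : ℝ} :
    M ⊆ (M ∩ nb Γ₂ z ρ) ∪ (M ∩ {x | ∀ b ∈ orb Γ₂ z, ρ ≤ dist x b}) := by
  intro x hx
  by_cases h : ∀ b ∈ orb Γ₂ z, ρ ≤ dist x b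
  · exact Or.inr ⟨hx, h⟩
  · left
    push Not at h
    obtain ⟨b, ⟨g, hg, rfl⟩, h2⟩ := h
    exact ⟨hx, g, hg, h2.le⟩

theorem far_ne {z : C} (hz : z ∈ M) {ρ : ℝ} (hρ : 0 < ρ) :
    M ∩ {x | ∀ b ∈ orb Γ₂ z, ρ ≤ dist x b} ≠ M := by
  intro h
  have h1 : z ∈ M ∩ {x | ∀ b ∈ orb Γ₂ z, ρ ≤ dist x b} := by
    rw [h]
    exact hz
  have h2 := h1.2 z (mem_orb_self Γ₂ z)
  rw [dist_self] at h2
  linarith

end nbhd

variable {X B C : Type} [MetricSpace X] [MetricSpace B] [MetricSpace C] {Γ K : Subgroup (X ≃ᵢ X)}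
  {F : Set X} {Z : Set B} {f : X → B} {Γ₂ : Subgroup (C ≃ᵢ C)} {M : Set C} {g : X → C}
  {a₀ : H Γ₂ ∅ 1 M} {w : H (⊥ : Subgroup (B ≃ᵢ B)) ∅ 1 Z}

/-- `a³ w² = w³ a²` if `w⁴ = 0` -/
theorem Dbl.a3w2 (d : Dbl Γ K F Z f Γ₂ M g a₀ w) (hw4 : pw w 4 = 0) :
    cupH ∅ 5 (pw (pull g d.fg.adE 1 a₀) 3) (pw (pull f d.ff.adE 1 w) 2) =
      cupH ∅ 5 (pull f d.ff.adE 3 (pw w 3)) (pw (pull g d.fg.adE 1 a₀) 2) := by
  have e1 : ∀ y : H Γ ∅ 4 F, cupH ∅ 5 y (pull f d.ff.adE 1 w) =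
      cupH ∅ 5 (pull f d.ff.adE 1 w) y := fun y => (cup_comm _ rfl y).symm
  have e2 : pw (pull f d.ff.adE 1 w) 2 = cupH ∅ 2 (pull f d.ff.adE 1 w) (pull f d.ff.adE 1 w) := by
    rw [pw_succ, pw_one]
  rw [e2, ← cassoc (p := 3) (q := 1) (r := 1) (m := 4) (k := 2) (s := 5) rfl rfl rfl rfl, d.a3w, hw4,
    map_zero, zero_add, e1, cadd_right (p := 1) (q := 4) (n := 5) rfl,
    ← cassoc (p := 1) (q := 3) (r := 1) (m := 4) (k := 4) (s := 5) rfl rfl rfl rfl,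
    ← cassoc (p := 1) (q := 2) (r := 2) (m := 3) (k := 4) (s := 5) rfl rfl rfl rfl,
    ← pull_cup (p := 1) (q := 3) (n := 4) rfl, ← pull_cup (p := 1) (q := 2) (n := 3) rfl,
    ← pw_succ' w 3, ← pw_succ' w 2, hw4, map_zero, czero_left (p := 4) (q := 1) (n := 5) rfl,
    zero_add]

/-- **(S0)** (abstract form) -/
theorem lemS (d : Dbl Γ K F Z f Γ₂ M g a₀ w) (hM : Pj Γ₂ M a₀) (hw4 : pw w 4 = 0) (hw0 : w ≠ 0)
    {M₃ : Set C} (h3 : Ad Γ₂ M M₃) {V : Set X} (hV : Fib Γ ∅ V ⊥ ∅ Z f)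
    (hVa : ∀ p ∈ Z, Acy Γ (ov V f {p})) (hg : Adm Γ ∅ V Γ₂ ∅ M₃ g) (hg' : Adm Γ ∅ V Γ₂ ∅ M g)
    (hVw : pull g hg' 1 a₀ = pull f hV.adE 1 w)
    (hb : ∀ z ∈ M₃, Bas3 K (ov F g {z}) (rk d.q.le (ov_sub F g {z}) 1 (pull f d.ff.adE 1 w))
      (rk d.q.le (ov_sub F g {z}) 2 (pw (pull f d.ff.adE 1 w) 2))) :
    ∀ z ∈ M, rk d.q.le (ov_sub F g {z}) 2 (pw (pull f d.ff.adE 1 w) 2) ≠ 0 := by
  set a := pull g d.fg.adE 1 a₀ with ha
  set W := pull f d.ff.adE 1 w with hW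
  -- `a` does not vanish on `M₃`
  have h1 : res h3.sub 1 a₀ ≠ 0 := by
    intro h
    apply hw0
    apply (LHa hV (fun p hp _ => hVa p hp) 1).1
    have h2 : pull g hg' 1 a₀ = pull g hg 1 (res h3.sub 1 a₀) := by
      have h4 := res_pull hg' hg (Set.Subset.refl V) h3.sub a₀
      rw [res_self] at h4
      exact h4
    rw [map_zero, ← hVw, h2, h, map_zero]
  -- `w³` does not vanish
  have h2 : pw w 3 ≠ 0 := by
    intro h
    apply h1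
    have hr := d.rel3
    rw [h, map_zero, zero_add] at hr
    have f3 := d.fg.part h3
    -- the relation over `M₃`
    have hu := ((LHc' f3 (d.q.mono (ov_sub F g M₃)) (res (ov_sub F g M₃) 1 W)
      (res (ov_sub F g M₃) 2 (pw W 2)) (by
        intro p hp _
        have h5 := Bas3.of_eq' (ov_ov hp) d.q.le (ov_sub F g {p})
          ((ov_sub (ov F g M₃) g {p}).trans (ov_sub F g M₃)) W (pw W 2) (hb p hp)
        rw [rk_res, rk_res]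
        exact h5)).2.2 1).1
      (a₁ := (res h3.sub 3 (pw a₀ 3), res h3.sub 2 (pw a₀ 2), res h3.sub 1 a₀))
      (a₂ := (0, 0, 0)) (by
        change pull g f3.adE 3 (res h3.sub 3 (pw a₀ 3)) +
          cupH ∅ 3 (pull g f3.adE 2 (res h3.sub 2 (pw a₀ 2))) (res (ov_sub F g M₃) 1 W) +
          cupH ∅ 3 (pull g f3.adE 1 (res h3.sub 1 a₀)) (res (ov_sub F g M₃) 2 (pw W 2)) =
          pull g f3.adE 3 0 + cupH ∅ 3 (pull g f3.adE 2 0) (res (ov_sub F g M₃) 1 W) +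
          cupH ∅ 3 (pull g f3.adE 1 0) (res (ov_sub F g M₃) 2 (pw W 2))
        rw [map_zero, map_zero, map_zero, czero_left (p := 2) (q := 1) (n := 3) rfl,
          czero_left (p := 1) (q := 2) (n := 3) rfl, add_zero, add_zero,
          ← res_pull d.fg.adE f3.adE (ov_sub F g M₃) h3.sub,
          ← res_pull d.fg.adE f3.adE (ov_sub F g M₃) h3.sub,
          ← res_pull d.fg.adE f3.adE (ov_sub F g M₃) h3.sub,
          ← res_cup (p := 2) (q := 1) (n := 3) (ov_sub F g M₃) rfl,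
          ← res_cup (p := 1) (q := 2) (n := 3) (ov_sub F g M₃) rfl, ← map_add, ← map_add,
          pull_pw, pull_pw, ← ha, hr]
        have e1 : cupH ∅ 3 (pull f d.ff.adE 2 (pw w 2)) a = cupH ∅ 3 a (pw W 2) := by
          rw [pull_pw, ← hW]
          exact (cup_comm a rfl (pw W 2)).symm
        have e2 : cupH ∅ 3 (pw a 2) W = cupH ∅ 3 W (pw a 2) := (cup_comm W rfl (pw a 2)).symm
        rw [e1, e2]
        have e3 : cupH ∅ 3 a (pw W 2) + cupH ∅ 3 W (pw a 2) + cupH ∅ 3 W (pw a 2) +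
            cupH ∅ 3 a (pw W 2) = 0 := by
          rw [add_assoc (cupH ∅ 3 a (pw W 2)), two_add, add_zero, two_add]
        rw [e3, map_zero])
    exact (Prod.mk.inj (Prod.mk.inj hu).2).2
  -- the product `a³ w²` does not vanish
  have h4 : cupH ∅ 5 (pw a 3) (pw W 2) ≠ 0 := by
    rw [ha, hW, d.a3w2 hw4]
    exact fun h => h2 (d.eq_zero (j := 3) (pw w 3) h)
  intro z hz h5
  apply h4
  obtain ⟨ρ, hρ, h6⟩ := near d.fg d.q hz (pw W 2) h5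
  have hAd := d.fg.adM
  have hn := ad_near d.fg.fin hAd hz (ρ / 2)
  have hf := ad_far (Γ₂ := Γ₂) hAd z (ρ / 2)
  have hne : M ∩ {x | ∀ b ∈ orb Γ₂ z, ρ / 2 ≤ dist x b} ≠ M := far_ne hz (by linarith)
  refine okK3 X Γ (ov F g (M ∩ {x | ∀ b ∈ orb Γ₂ z, ρ / 2 ≤ dist x b}))
    (ov F g (M ∩ nb Γ₂ z (ρ / 2))) F 3 2 (ov_sub _ _ _) (ov_sub _ _ _) (d.fg.okov hf) (d.fg.okov hn)
    ?_ _ _ ?_ ?_
  · ext x
    constructor
    · intro hx
      rcases near_union (Γ₂ := Γ₂) z (ρ := ρ / 2) (d.fg.maps x hx) with h7 | h7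
      · exact Or.inr ⟨hx, h7⟩
      · exact Or.inl ⟨hx, h7⟩
    · rintro (hx | hx)
      · exact hx.1
      · exact hx.1
  · rw [ha, ← pull_pw, res_pull d.fg.adE (d.fg.part hf).adE (ov_sub F g _) hf.sub,
      hM.top3 _ hf hne (res hf.sub 3 (pw a₀ 3)), map_zero]
  · apply h6
    rintro x ⟨_, g', hg', hd⟩
    exact ⟨g' z, ⟨g', hg', rfl⟩, lt_of_le_of_lt hd (by linarith)⟩

end AS
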