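import Pool.Agent.Lib.AS.SpecMV

/-!
# Alexander-Spanier cohomology: the cup product

`cupH x y` for `x : H Γ D p C`, `y : H Γ D' q C` is a class in `H Γ D'' n C`, where `p + q = n` and
`C ∩ D''` is contained in `D` or in `D'` (the hypotheses are in the lemmas, not in the definition).
-/

set_option autoImplicit false

namespace AS

variable {X Y : Type} [MetricSpace X] [MetricSpace Y]

section cochains

variable {Γ : Subgroup (X ≃ᵢ X)} {C D D' D'' : Set X} {p q n : ℕ} {φ ψ : List X → ZMod 2}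

theorem cup_iv (p : ℕ) (hφ : Iv Γ φ) (hψ : Iv Γ ψ) : Iv Γ (cup p φ ψ) := by
  intro g hg l
  unfold cup
  rw [← List.map_take, ← List.map_drop, hφ g hg, hψ g hg]

theorem cup_z0_left (h : p + q = n) (hφ : Z0 (p + 1) C φ) : Z0 (n + 1) C (cup p φ ψ) := by
  obtain ⟨ε, hε, h1⟩ := hφ
  refine ⟨ε, hε, fun l hl hs => ?_⟩
  unfold cup
  rw [h1 _ (by rw [List.length_take]; omega) (hs.sub (List.take_sublist _ _)), zero_mul]

theorem cup_z0_right (h : p + q = n) (hψ : Z0 (q + 1) C ψ) : Z0 (n + 1) C (cup p φ ψ) := by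
  obtain ⟨ε, hε, h1⟩ := hψ
  refine ⟨ε, hε, fun l hl hs => ?_⟩
  unfold cup
  rw [h1 _ (by rw [List.length_drop]; omega) (hs.sub (List.drop_sublist _ _)), mul_zero]

theorem cup_z0_dd (h : p + q = n) (hφ : Z0 (p + 2) C (dd φ)) (hψ : Z0 (q + 2) C (dd ψ)) :
    Z0 (n + 2) C (dd (cup p φ ψ)) := by
  have h1 : Z0 (n + 2) C (cup (p + 1) (dd φ) ψ) :=
    cup_z0_left (p := p + 1) (q := q) (n := n + 1) (by omega) hφ
  have h2 : Z0 (n + 2) C (cup p φ (dd ψ)) :=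
    cup_z0_right (p := p) (q := q + 1) (n := n + 1) (by omega) hψ
  refine (h1.add h2).congr fun l hl _ => ?_
  rw [leibniz p φ ψ l (by omega)]
  rfl

theorem cup_mem_Cyc (h : p + q = n) (hD : C ∩ D'' ⊆ D ∨ C ∩ D'' ⊆ D') (hφ : φ ∈ Cyc Γ D p C)
    (hψ : ψ ∈ Cyc Γ D' q C) : cup p φ ψ ∈ Cyc Γ D'' n C := by
  refine ⟨cup_iv p hφ.1 hψ.1, ?_, cup_z0_dd h hφ.2.2 hψ.2.2⟩
  rcases hD with hD | hD
  · refine cup_z0_left h (hφ.2.1.mono ?_)
    exact fun x hx => And.intro hx.1 (hD hx)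
  · refine cup_z0_right h (hψ.2.1.mono ?_)
    exact fun x hx => And.intro hx.1 (hD hx)

theorem cup_bnd_left (h : p + q = n) (hD : C ∩ D'' ⊆ D ∨ C ∩ D'' ⊆ D') (hφ : φ ∈ Bnd Γ D p C)
    (hψ : ψ ∈ Cyc Γ D' q C) : cup p φ ψ ∈ Bnd Γ D'' n C := by
  rcases p with _ | p
  · rw [mem_Bnd_zero] at hφ
    exact Bnd_of_Z0 (cup_iv 0 hφ.1 hψ.1) (cup_z0_left h hφ.2)
  · obtain ⟨m, rfl⟩ : ∃ m, n = m + 1 := ⟨p + q, by omega⟩
    rw [mem_Bnd_succ] at hφ ⊢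
    obtain ⟨h1, α, h2, h3, h4⟩ := hφ
    refine ⟨cup_iv _ h1 hψ.1, cup p α ψ, cup_iv p h2 hψ.1, ?_, ?_⟩
    · rcases hD with hD | hD
      · refine cup_z0_left (p := p) (q := q) (n := m) (by omega) (h3.mono ?_)
        exact fun x hx => And.intro hx.1 (hD hx)
      · refine cup_z0_right (p := p) (q := q) (n := m) (by omega) (hψ.2.1.mono ?_)
        exact fun x hx => And.intro hx.1 (hD hx)
    · have h5 : Z0 (m + 2) C (cup (p + 1) (φ + dd α) ψ) :=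
        cup_z0_left (p := p + 1) (q := q) (n := m + 1) h h4
      have h6 : Z0 (m + 2) C (cup p α (dd ψ)) :=
        cup_z0_right (p := p) (q := q + 1) (n := m + 1) (by omega) hψ.2.2
      refine (h5.add h6).congr fun l hl _ => ?_
      rw [Pi.add_apply, Pi.add_apply, leibniz p α ψ l (by omega)]
      change cup (p + 1) (fun m => φ m + dd α m) ψ l + _ = _
      rw [cup_add_left, add_assoc]

theorem cup_bnd_right (h : p + q = n) (hD : C ∩ D'' ⊆ D ∨ C ∩ D'' ⊆ D') (hφ : φ ∈ Cyc Γ D p C)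
    (hψ : ψ ∈ Bnd Γ D' q C) : cup p φ ψ ∈ Bnd Γ D'' n C := by
  rcases q with _ | q
  · rw [mem_Bnd_zero] at hψ
    exact Bnd_of_Z0 (cup_iv p hφ.1 hψ.1) (cup_z0_right h hψ.2)
  · obtain ⟨m, rfl⟩ : ∃ m, n = m + 1 := ⟨p + q, by omega⟩
    rw [mem_Bnd_succ] at hψ ⊢
    obtain ⟨h1, β, h2, h3, h4⟩ := hψ
    refine ⟨cup_iv _ hφ.1 h1, cup p φ β, cup_iv p hφ.1 h2, ?_, ?_⟩
    · rcases hD with hD | hD
      · refine cup_z0_left (p := p) (q := q) (n := m) (by omega) (hφ.2.1.mono ?_)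
        exact fun x hx => And.intro hx.1 (hD hx)
      · refine cup_z0_right (p := p) (q := q) (n := m) (by omega) (h3.mono ?_)
        exact fun x hx => And.intro hx.1 (hD hx)
    · have h5 : Z0 (m + 2) C (cup p φ (ψ + dd β)) :=
        cup_z0_right (p := p) (q := q + 1) (n := m + 1) h h4
      have h6 : Z0 (m + 2) C (cup (p + 1) (dd φ) β) :=
        cup_z0_left (p := p + 1) (q := q) (n := m + 1) (by omega) hφ.2.2
      refine (h5.add h6).congr fun l hl _ => ?_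
      rw [Pi.add_apply, Pi.add_apply, leibniz p φ β l (by omega)]
      change cup p φ (fun m => ψ m + dd β m) l + _ = _
      rw [cup_add_right]
      ring

end cochains

open Classical in
/-- the cup product of classes (a plain function, see `cupH_cl`) -/
noncomputable def cupH {Γ : Subgroup (X ≃ᵢ X)} {D D' : Set X} (D'' : Set X) {p q : ℕ} (n : ℕ)
    {C : Set X} (x : H Γ D p C) (y : H Γ D' q C) : H Γ D'' n C :=
  if h : ∃ z : H Γ D'' n C, ∃ φ, ∃ hφ : φ ∈ Cyc Γ D p C, ∃ ψ, ∃ hψ : ψ ∈ Cyc Γ D' q C,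
    cl φ hφ = x ∧ cl ψ hψ = y ∧ ∃ hz : cup p φ ψ ∈ Cyc Γ D'' n C, cl (cup p φ ψ) hz = z
  then h.choose else 0

section products

variable {Γ : Subgroup (X ≃ᵢ X)} {C D D' D'' : Set X} {p q n : ℕ}

theorem cupH_cl (h : p + q = n) (hD : C ∩ D'' ⊆ D ∨ C ∩ D'' ⊆ D') {φ ψ : List X → ZMod 2}
    (hφ : φ ∈ Cyc Γ D p C) (hψ : ψ ∈ Cyc Γ D' q C) :
    cupH D'' n (cl φ hφ) (cl ψ hψ) = cl (cup p φ ψ) (cup_mem_Cyc h hD hφ hψ) := by
  have hex : ∃ z : H Γ D'' n C, ∃ φ', ∃ hφ' : φ' ∈ Cyc Γ D p C, ∃ ψ', ∃ hψ' : ψ' ∈ Cyc Γ D' q C,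
      cl φ' hφ' = cl φ hφ ∧ cl ψ' hψ' = cl ψ hψ ∧
        ∃ hz : cup p φ' ψ' ∈ Cyc Γ D'' n C, cl (cup p φ' ψ') hz = z :=
    ⟨_, φ, hφ, ψ, hψ, rfl, rfl, cup_mem_Cyc h hD hφ hψ, rfl⟩
  unfold cupH
  rw [dif_pos hex]
  obtain ⟨φ', hφ', ψ', hψ', h1, h2, hz, h3⟩ := hex.choose_spec
  rw [← h3, cl_eq_cl]
  rw [cl_eq_cl] at h1 h2
  have h4 := cup_bnd_left h hD h1 hψ'
  have h5 := cup_bnd_right h hD hφ h2
  have h6 := (Bnd Γ D'' n C).add_mem h4 h5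
  have h7 : cup p (φ' + φ) ψ' + cup p φ (ψ' + ψ) = cup p φ' ψ' + cup p φ ψ := by
    funext l
    rw [Pi.add_apply, Pi.add_apply]
    change cup p (fun m => φ' m + φ m) ψ' l + cup p φ (fun m => ψ' m + ψ m) l = _
    rw [cup_add_left, cup_add_right]
    have h8 := z2_add_self (cup p φ ψ' l)
    have h9 : cup p φ' ψ' l + cup p φ ψ' l + (cup p φ ψ' l + cup p φ ψ l) =
        cup p φ' ψ' l + cup p φ ψ l + (cup p φ ψ' l + cup p φ ψ' l) := by ring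
    rw [h9, h8, add_zero]
  rw [h7] at h6
  exact h6

theorem cupH_add_left (h : p + q = n) (hD : C ∩ D'' ⊆ D ∨ C ∩ D'' ⊆ D') (x x' : H Γ D p C)
    (y : H Γ D' q C) : cupH D'' n (x + x') y = cupH D'' n x y + cupH D'' n x' y := by
  obtain ⟨φ, hφ, rfl⟩ := cl_surj x
  obtain ⟨φ', hφ', rfl⟩ := cl_surj x'
  obtain ⟨ψ, hψ, rfl⟩ := cl_surj y
  rw [← cl_add, cupH_cl h hD, cupH_cl h hD, cupH_cl h hD, ← cl_add]
  congr 1
  funext l
  exact cup_add_left p φ φ' ψ l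

theorem cupH_add_right (h : p + q = n) (hD : C ∩ D'' ⊆ D ∨ C ∩ D'' ⊆ D') (x : H Γ D p C)
    (y y' : H Γ D' q C) : cupH D'' n x (y + y') = cupH D'' n x y + cupH D'' n x y' := by
  obtain ⟨φ, hφ, rfl⟩ := cl_surj x
  obtain ⟨ψ, hψ, rfl⟩ := cl_surj y
  obtain ⟨ψ', hψ', rfl⟩ := cl_surj y'
  rw [← cl_add, cupH_cl h hD, cupH_cl h hD, cupH_cl h hD, ← cl_add]
  congr 1
  funext l
  exact cup_add_right p φ ψ ψ' l

theorem cupH_zero_left (h : p + q = n) (hD : C ∩ D'' ⊆ D ∨ C ∩ D'' ⊆ D') (y : H Γ D' q C) :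
    cupH D'' n (0 : H Γ D p C) y = 0 := by
  have h1 := cupH_add_left h hD (0 : H Γ D p C) 0 y
  rw [add_zero, two_add] at h1
  exact h1

theorem cupH_zero_right (h : p + q = n) (hD : C ∩ D'' ⊆ D ∨ C ∩ D'' ⊆ D') (x : H Γ D p C) :
    cupH D'' n x (0 : H Γ D' q C) = 0 := by
  have h1 := cupH_add_right h hD x (0 : H Γ D' q C) 0
  rw [add_zero, two_add] at h1
  exact h1

/-- naturality -/
theorem pull_cupH {Γ' : Subgroup (Y ≃ᵢ Y)} {C' E E' E'' : Set Y} {f : X → Y} (h : p + q = n)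
    (hD : C ∩ D'' ⊆ D ∨ C ∩ D'' ⊆ D') (hE : C' ∩ E'' ⊆ E ∨ C' ∩ E'' ⊆ E')
    (h1 : Adm Γ D C Γ' E C' f) (h2 : Adm Γ D' C Γ' E' C' f) (h3 : Adm Γ D'' C Γ' E'' C' f)
    (x : H Γ' E p C') (y : H Γ' E' q C') :
    pull f h3 n (cupH E'' n x y) = cupH D'' n (pull f h1 p x) (pull f h2 q y) := by
  obtain ⟨φ, hφ, rfl⟩ := cl_surj x
  obtain ⟨ψ, hψ, rfl⟩ := cl_surj y
  rw [cupH_cl h hE, pull_cl, pull_cl, pull_cl, cupH_cl h hD]
  congr 1
  funext l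
  change φ ((l.map f).take (p + 1)) * ψ ((l.map f).drop p) =
    φ ((l.take (p + 1)).map f) * ψ ((l.drop p).map f)
  rw [List.map_take, List.map_drop]

theorem res_cupH {C' : Set X} (hC : C' ⊆ C) (h : p + q = n) (hD : C ∩ D'' ⊆ D ∨ C ∩ D'' ⊆ D')
    (x : H Γ D p C) (y : H Γ D' q C) :
    res hC n (cupH D'' n x y) = cupH D'' n (res hC p x) (res hC q y) := by
  obtain ⟨φ, hφ, rfl⟩ := cl_surj x
  obtain ⟨ψ, hψ, rfl⟩ := cl_surj y
  have hD' : C' ∩ D'' ⊆ D ∨ C' ∩ D'' ⊆ D' :=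
    hD.imp (fun h2 x hx => h2 ⟨hC hx.1, hx.2⟩) (fun h2 x hx => h2 ⟨hC hx.1, hx.2⟩)
  rw [cupH_cl h hD, res_cl, res_cl, res_cl, cupH_cl h hD']

/-- associativity: the pair parameters are arbitrary as long as all products are defined -/
theorem cupH_assoc {r m k s : ℕ} {E F F' G : Set X} (h1 : p + q = m) (h2 : m + r = s)
    (h3 : q + r = k) (h4 : p + k = s) (hF : C ∩ F ⊆ D ∨ C ∩ F ⊆ D') (hF' : C ∩ F' ⊆ D' ∨ C ∩ F' ⊆ E)
    (hG : C ∩ G ⊆ F ∨ C ∩ G ⊆ E) (hG' : C ∩ G ⊆ D ∨ C ∩ G ⊆ F')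
    (x : H Γ D p C) (y : H Γ D' q C) (z : H Γ E r C) :
    cupH G s (cupH F m x y) z = cupH G s x (cupH F' k y z) := by
  obtain ⟨φ, hφ, rfl⟩ := cl_surj x
  obtain ⟨ψ, hψ, rfl⟩ := cl_surj y
  obtain ⟨χ, hχ, rfl⟩ := cl_surj z
  rw [cupH_cl h1 hF, cupH_cl h2 hG, cupH_cl h3 hF', cupH_cl h4 hG']
  congr 1
  funext l
  subst h1
  unfold cup
  have e1 : (l.take (p + q + 1)).take (p + 1) = l.take (p + 1) := by
    rw [List.take_take]
    congr 1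
    omega
  have e2 : (l.take (p + q + 1)).drop p = (l.drop p).take (q + 1) := by
    rw [List.drop_take]
    congr 1
    omega
  have e3 : (l.drop p).drop q = l.drop (p + q) := by
    rw [List.drop_drop]
  rw [e1, e2, e3, mul_assoc]

theorem cupH_one (x : H Γ D p C) : cupH D p x (one Γ C) = x := by
  obtain ⟨φ, hφ, rfl⟩ := cl_surj x
  unfold one
  have hD : C ∩ D ⊆ D ∨ C ∩ D ⊆ (∅ : Set X) := Or.inl Set.inter_subset_right
  rw [cupH_cl (p := p) (q := 0) (n := p) (add_zero p) hD, cl_eq_cl]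
  refine Bnd_of_Z0 (Iv.add (cup_iv p hφ.1 (one_mem Γ C).1) hφ.1) ((Z0.zero _ _).congr fun l hl _ => ?_)
  rw [Pi.add_apply]
  unfold cup
  rw [List.take_of_length_le (by omega), mul_one, z2_add_self]
  rfl

theorem one_cupH (x : H Γ D p C) : cupH D p (one Γ C) x = x := by
  obtain ⟨φ, hφ, rfl⟩ := cl_surj x
  unfold one
  have hD : C ∩ D ⊆ (∅ : Set X) ∨ C ∩ D ⊆ D := Or.inr Set.inter_subset_right
  rw [cupH_cl (p := 0) (q := p) (n := p) (zero_add p) hD, cl_eq_cl]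
  refine Bnd_of_Z0 (Iv.add (cup_iv 0 (one_mem Γ C).1 hφ.1) hφ.1) ((Z0.zero _ _).congr fun l hl _ => ?_)
  rw [Pi.add_apply]
  unfold cup
  rw [List.drop_zero, one_mul, z2_add_self]
  rfl

end products

end AS
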