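import Pool.Agent.Lib.AS.Basic

/-!
# Alexander-Spanier cohomology with coefficients `ZMod 2`: definitions

`X` is a metric space, `Γ` a group of isometries of `X`, `C` and `D` subsets of `X`.  `H Γ D n C` is the
cohomology of degree `n` of the pair `(C, C ∩ D)`: invariant functions on lists which vanish on the small
lists of `C ∩ D`, modulo functions which vanish on all small lists in `C`.  For compact `Γ`-invariant sets
on which `Γ` (finite) acts freely this is the Alexander-Spanier cohomology of `(C / Γ, (C ∩ D) / Γ)`; for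
`D = ∅` and `Γ = ⊥` the one of `C`.  The set `D` (closed) is a parameter, like `Γ`.
-/

set_option autoImplicit false

namespace AS

section noMetric

variable {X : Type}

theorem neg_eq (φ : List X → ZMod 2) : -φ = φ := by
  funext l
  exact ZMod.neg_eq_self_mod_two (φ l)

theorem add_self (φ : List X → ZMod 2) : φ + φ = 0 := by
  funext l
  exact z2_add_self (φ l)

end noMetric

variable {X Y W : Type} [MetricSpace X] [MetricSpace Y] [MetricSpace W]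

/-- `l` is a list of points of `C` with pairwise distances less than `ε` -/
def Sml (C : Set X) (ε : ℝ) (l : List X) : Prop :=
  (∀ x ∈ l, x ∈ C) ∧ ∀ x ∈ l, ∀ y ∈ l, dist x y < ε

theorem Sml.mono {C D : Set X} {ε δ : ℝ} {l m : List X} (h : Sml C ε l) (hm : ∀ x ∈ m, x ∈ l)
    (hC : C ⊆ D) (hε : ε ≤ δ) : Sml D δ m :=
  ⟨fun x hx => hC (h.1 x (hm x hx)), fun x hx y hy => (h.2 x (hm x hx) y (hm y hy)).trans_le hε⟩

theorem Sml.sub {C : Set X} {ε : ℝ} {l m : List X} (h : Sml C ε l) (hm : m.Sublist l) :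
    Sml C ε m := h.mono (fun _ hx => hm.subset hx) (Set.Subset.refl C) le_rfl

theorem Sml.eps {C : Set X} {ε δ : ℝ} {l : List X} (h : Sml C ε l) (hε : ε ≤ δ) : Sml C δ l :=
  h.mono (fun _ hx => hx) (Set.Subset.refl C) hε

/-- `φ` vanishes on the small lists of length `n` in `C` -/
def Z0 (n : ℕ) (C : Set X) (φ : List X → ZMod 2) : Prop :=
  ∃ ε : ℝ, 0 < ε ∧ ∀ l : List X, l.length = n → Sml C ε l → φ l = 0

theorem Z0.zero (n : ℕ) (C : Set X) : Z0 n C (0 : List X → ZMod 2) :=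
  ⟨1, one_pos, fun _ _ _ => rfl⟩

theorem Z0.add {n : ℕ} {C : Set X} {φ ψ : List X → ZMod 2} (h : Z0 n C φ) (h' : Z0 n C ψ) :
    Z0 n C (φ + ψ) := by
  obtain ⟨ε, hε, h1⟩ := h
  obtain ⟨δ, hδ, h2⟩ := h'
  refine ⟨min ε δ, lt_min hε hδ, fun l hl hs => ?_⟩
  rw [Pi.add_apply, h1 l hl (hs.eps (min_le_left _ _)), h2 l hl (hs.eps (min_le_right _ _)),
    add_zero]

theorem Z0.mono {n : ℕ} {C D : Set X} {φ : List X → ZMod 2} (h : Z0 n D φ) (hC : C ⊆ D) :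
    Z0 n C φ := by
  obtain ⟨ε, hε, h1⟩ := h
  exact ⟨ε, hε, fun l hl hs => h1 l hl (hs.mono (fun _ h => h) hC le_rfl)⟩

/-- the value of `φ` on small lists matters only -/
theorem Z0.congr' {n : ℕ} {C : Set X} {φ ψ : List X → ZMod 2} (h : Z0 n C φ) {η : ℝ} (hη : 0 < η)
    (h' : ∀ l : List X, l.length = n → Sml C η l → φ l = ψ l) : Z0 n C ψ := by
  obtain ⟨ε, hε, h1⟩ := h
  exact ⟨min ε η, lt_min hε hη, fun l hl hs => by
    rw [← h' l hl (hs.eps (min_le_right _ _)), h1 l hl (hs.eps (min_le_left _ _))]⟩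

theorem Z0.congr {n : ℕ} {C : Set X} {φ ψ : List X → ZMod 2} (h : Z0 n C φ)
    (h' : ∀ l : List X, l.length = n → (∀ x ∈ l, x ∈ C) → φ l = ψ l) : Z0 n C ψ :=
  h.congr' one_pos fun l hl hs => h' l hl hs.1

theorem Z0.dd {n : ℕ} {C : Set X} {φ : List X → ZMod 2} (h : Z0 n C φ) :
    Z0 (n + 1) C (AS.dd φ) := by
  obtain ⟨ε, hε, h1⟩ := h
  refine ⟨ε, hε, fun l hl hs => ?_⟩
  have h2 : AS.dd φ l = AS.dd (0 : List X → ZMod 2) l :=
    dd_congr fun m hm hlen => h1 m (by omega) (hs.sub hm)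
  rw [h2, dd_zero]
  rfl

/-- in the empty set there are no lists of positive length -/
theorem Z0.empty (n : ℕ) {C : Set X} (hC : C = ∅) (φ : List X → ZMod 2) : Z0 (n + 1) C φ := by
  refine ⟨1, one_pos, fun l hl hs => ?_⟩
  rcases l with _ | ⟨x, l⟩
  · simp at hl
  · have := hs.1 x List.mem_cons_self
    rw [hC] at this
    exact this.elim

theorem Z0.nil {C : Set X} {φ : List X → ZMod 2} : Z0 0 C φ ↔ φ [] = 0 := by
  constructor
  · rintro ⟨ε, hε, h⟩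
    exact h [] rfl ⟨by simp, by simp⟩
  · intro h
    refine ⟨1, one_pos, fun l hl _ => ?_⟩
    rw [List.length_eq_zero_iff.mp hl, h]

/-- invariance under the group `Γ` -/
def Iv (Γ : Subgroup (X ≃ᵢ X)) (φ : List X → ZMod 2) : Prop :=
  ∀ g ∈ Γ, ∀ l : List X, φ (l.map g) = φ l

theorem Iv.zero (Γ : Subgroup (X ≃ᵢ X)) : Iv Γ 0 := fun _ _ _ => rfl

theorem Iv.add {Γ : Subgroup (X ≃ᵢ X)} {φ ψ : List X → ZMod 2} (h : Iv Γ φ) (h' : Iv Γ ψ) :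
    Iv Γ (φ + ψ) := fun g hg l => by
  rw [Pi.add_apply, Pi.add_apply, h g hg l, h' g hg l]

theorem Iv.dd {Γ : Subgroup (X ≃ᵢ X)} {φ : List X → ZMod 2} (h : Iv Γ φ) : Iv Γ (AS.dd φ) :=
  fun g hg l => dd_inv g (fun m => h g hg m) l

/-- the set `C` is invariant under `Γ` -/
def IvS (Γ : Subgroup (X ≃ᵢ X)) (C : Set X) : Prop := ∀ g ∈ Γ, ∀ x ∈ C, g x ∈ C

theorem IvS.iff {Γ : Subgroup (X ≃ᵢ X)} {C : Set X} (h : IvS Γ C) {g : X ≃ᵢ X} (hg : g ∈ Γ)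
    (x : X) : g x ∈ C ↔ x ∈ C := by
  refine ⟨fun hx => ?_, h g hg x⟩
  have h1 := h g⁻¹ (Γ.inv_mem hg) (g x) hx
  rwa [IsometryEquiv.inv_apply_self] at h1

theorem IvS.empty (Γ : Subgroup (X ≃ᵢ X)) : IvS Γ (∅ : Set X) := fun _ _ _ hx => hx.elim

theorem IvS.inter {Γ : Subgroup (X ≃ᵢ X)} {C D : Set X} (h : IvS Γ C) (h' : IvS Γ D) :
    IvS Γ (C ∩ D) := fun g hg x hx => ⟨h g hg x hx.1, h' g hg x hx.2⟩

theorem IvS.union {Γ : Subgroup (X ≃ᵢ X)} {C D : Set X} (h : IvS Γ C) (h' : IvS Γ D) :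
    IvS Γ (C ∪ D) := fun g hg x hx => hx.imp (h g hg x) (h' g hg x)

/-- smallness of the image list -/
theorem Sml.map_iff {Γ : Subgroup (X ≃ᵢ X)} {C : Set X} (h : IvS Γ C) {g : X ≃ᵢ X} (hg : g ∈ Γ)
    (ε : ℝ) (l : List X) : Sml C ε (l.map g) ↔ Sml C ε l := by
  constructor
  · intro hs
    refine ⟨fun x hx => (h.iff hg x).mp (hs.1 _ (List.mem_map_of_mem hx)), fun x hx y hy => ?_⟩
    rw [← g.dist_eq x y]
    exact hs.2 _ (List.mem_map_of_mem hx) _ (List.mem_map_of_mem hy)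
  · intro hs
    refine ⟨fun z hz => ?_, fun z hz w hw => ?_⟩
    · obtain ⟨x, hx, rfl⟩ := List.mem_map.mp hz
      exact h g hg x (hs.1 x hx)
    · obtain ⟨x, hx, rfl⟩ := List.mem_map.mp hz
      obtain ⟨y, hy, rfl⟩ := List.mem_map.mp hw
      rw [g.dist_eq]
      exact hs.2 x hx y hy

open Classical in
/-- a function which is invariant on small lists in `C` can be replaced by an invariant one -/
theorem exists_Iv {Γ : Subgroup (X ≃ᵢ X)} {C : Set X} (hC : IvS Γ C) (n : ℕ)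
    {φ : List X → ZMod 2} {ε : ℝ} (hε : 0 < ε)
    (h : ∀ l : List X, l.length = n → Sml C ε l → ∀ g ∈ Γ, φ (l.map g) = φ l) :
    ∃ φ' : List X → ZMod 2, Iv Γ φ' ∧ (∀ l : List X, l.length = n → Sml C ε l → φ' l = φ l) ∧
      Z0 n C (φ + φ') := by
  refine ⟨fun l => if l.length = n ∧ Sml C ε l then φ l else 0, ?_, ?_, ?_⟩
  · intro g hg l
    by_cases hl : l.length = n ∧ Sml C ε l
    · have hl' : (l.map g).length = n ∧ Sml C ε (l.map g) :=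
        ⟨by simpa using hl.1, (Sml.map_iff hC hg ε l).mpr hl.2⟩
      change (if (l.map g).length = n ∧ Sml C ε (l.map g) then φ (l.map g) else 0) =
        if l.length = n ∧ Sml C ε l then φ l else 0
      rw [if_pos hl, if_pos hl', h l hl.1 hl.2 g hg]
    · have hl' : ¬ ((l.map g).length = n ∧ Sml C ε (l.map g)) := by
        intro h2
        exact hl ⟨by simpa using h2.1, (Sml.map_iff hC hg ε l).mp h2.2⟩
      change (if (l.map g).length = n ∧ Sml C ε (l.map g) then φ (l.map g) else 0) =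
        if l.length = n ∧ Sml C ε l then φ l else 0
      rw [if_neg hl, if_neg hl']
  · intro l h1 h2
    exact if_pos ⟨h1, h2⟩
  · refine ⟨ε, hε, fun l h1 h2 => ?_⟩
    rw [Pi.add_apply]
    have : (if l.length = n ∧ Sml C ε l then φ l else 0) = φ l := if_pos ⟨h1, h2⟩
    rw [this, z2_add_self]

/-- cocycles of degree `n` on `(C, C ∩ D)` -/
def Cyc (Γ : Subgroup (X ≃ᵢ X)) (D : Set X) (n : ℕ) (C : Set X) : AddSubgroup (List X → ZMod 2) where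
  carrier := {φ | Iv Γ φ ∧ Z0 (n + 1) (C ∩ D) φ ∧ Z0 (n + 2) C (dd φ)}
  zero_mem' := ⟨Iv.zero Γ, Z0.zero _ _, by rw [dd_zero]; exact Z0.zero _ _⟩
  add_mem' := fun {φ ψ} h h' =>
    ⟨h.1.add h'.1, h.2.1.add h'.2.1, by rw [dd_add']; exact h.2.2.add h'.2.2⟩
  neg_mem' := fun {φ} h => by
    rw [neg_eq]
    exact h

/-- coboundaries of degree `n` on `(C, C ∩ D)` -/
def Bnd (Γ : Subgroup (X ≃ᵢ X)) (D : Set X) (n : ℕ) (C : Set X) : AddSubgroup (List X → ZMod 2) where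
  carrier := {φ | Iv Γ φ ∧ ∃ ψ, Iv Γ ψ ∧ Z0 n (C ∩ D) ψ ∧ ψ [] = 0 ∧ Z0 (n + 1) C (φ + dd ψ)}
  zero_mem' := ⟨Iv.zero Γ, 0, Iv.zero Γ, Z0.zero _ _, rfl, by
    rw [dd_zero, add_zero]; exact Z0.zero _ _⟩
  add_mem' := fun {φ ψ} ⟨h, α, hα, hαD, hα0, hα1⟩ ⟨h', β, hβ, hβD, hβ0, hβ1⟩ =>
    ⟨h.add h', α + β, hα.add hβ, hαD.add hβD, by rw [Pi.add_apply, hα0, hβ0, add_zero], by
      have : φ + ψ + dd (α + β) = (φ + dd α) + (ψ + dd β) := by
        rw [dd_add']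
        abel
      rw [this]
      exact hα1.add hβ1⟩
  neg_mem' := fun {φ} h => by
    rw [neg_eq]
    exact h

theorem mem_Cyc {Γ : Subgroup (X ≃ᵢ X)} {D : Set X} {n : ℕ} {C : Set X} {φ : List X → ZMod 2} :
    φ ∈ Cyc Γ D n C ↔ Iv Γ φ ∧ Z0 (n + 1) (C ∩ D) φ ∧ Z0 (n + 2) C (dd φ) := Iff.rfl

theorem mem_Bnd {Γ : Subgroup (X ≃ᵢ X)} {D : Set X} {n : ℕ} {C : Set X} {φ : List X → ZMod 2} :
    φ ∈ Bnd Γ D n C ↔ Iv Γ φ ∧ ∃ ψ, Iv Γ ψ ∧ Z0 n (C ∩ D) ψ ∧ ψ [] = 0 ∧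
      Z0 (n + 1) C (φ + dd ψ) := Iff.rfl

theorem Bnd_le_Cyc (Γ : Subgroup (X ≃ᵢ X)) (D : Set X) (n : ℕ) (C : Set X) :
    Bnd Γ D n C ≤ Cyc Γ D n C := by
  rintro φ ⟨h, ψ, _, h2, _, h3⟩
  refine ⟨h, ?_, ?_⟩
  · have h4 := (h3.mono (Set.inter_subset_left (t := D))).add h2.dd
    rw [add_assoc, add_self, add_zero] at h4
    exact h4
  · have h4 := h3.dd
    rw [dd_add', dd_dd', add_zero] at h4
    exact h4

/-- a function which vanishes on small lists is a coboundary -/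
theorem Bnd_of_Z0 {Γ : Subgroup (X ≃ᵢ X)} {D : Set X} {n : ℕ} {C : Set X} {φ : List X → ZMod 2}
    (h : Iv Γ φ) (h' : Z0 (n + 1) C φ) : φ ∈ Bnd Γ D n C :=
  ⟨h, 0, Iv.zero Γ, Z0.zero _ _, rfl, by rw [dd_zero, add_zero]; exact h'⟩

open Classical in
/-- the value at the empty list does not matter in positive degrees -/
theorem mem_Bnd_succ {Γ : Subgroup (X ≃ᵢ X)} {D : Set X} {n : ℕ} {C : Set X}
    {φ : List X → ZMod 2} :
    φ ∈ Bnd Γ D (n + 1) C ↔ Iv Γ φ ∧ ∃ ψ, Iv Γ ψ ∧ Z0 (n + 1) (C ∩ D) ψ ∧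
      Z0 (n + 2) C (φ + dd ψ) := by
  constructor
  · rintro ⟨h, ψ, h1, h3, _, h2⟩
    exact ⟨h, ψ, h1, h3, h2⟩
  · rintro ⟨h, ψ, h1, h3, h2⟩
    refine ⟨h, fun l => if l = [] then 0 else ψ l, ?_, ?_, by simp, ?_⟩
    · intro g hg l
      by_cases hl : l = []
      · simp [hl]
      · have hl' : l.map g ≠ [] := by simpa using hl
        change (if l.map g = [] then 0 else ψ (l.map g)) = (if l = [] then 0 else ψ l)
        rw [if_neg hl', if_neg hl, h1 g hg l]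
    · refine h3.congr fun l hl _ => ?_
      have : l ≠ [] := by
        intro h
        rw [h] at hl
        simp at hl
      rw [if_neg this]
    · refine h2.congr fun l hl _ => ?_
      rw [Pi.add_apply, Pi.add_apply]
      congr 1
      apply dd_congr
      intro m _ hm
      have : m ≠ [] := by
        intro h
        rw [h] at hm
        simp at hm
        omega
      rw [if_neg this]

/-- in degree `0` a coboundary vanishes on small lists -/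
theorem mem_Bnd_zero {Γ : Subgroup (X ≃ᵢ X)} {D : Set X} {C : Set X} {φ : List X → ZMod 2} :
    φ ∈ Bnd Γ D 0 C ↔ Iv Γ φ ∧ Z0 1 C φ := by
  constructor
  · rintro ⟨h, ψ, _, _, h2, h3⟩
    refine ⟨h, h3.congr fun l hl _ => ?_⟩
    obtain ⟨x, rfl⟩ := List.length_eq_one_iff.mp hl
    rw [Pi.add_apply, dd_cons, dd_nil, h2, add_zero, add_zero]
  · rintro ⟨h, h'⟩
    exact Bnd_of_Z0 h h'

/-- the cohomology group of degree `n` of `(C, C ∩ D)` -/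
def H (Γ : Subgroup (X ≃ᵢ X)) (D : Set X) (n : ℕ) (C : Set X) : Type :=
  ↥(Cyc Γ D n C) ⧸ ((Bnd Γ D n C).addSubgroupOf (Cyc Γ D n C))

noncomputable instance (Γ : Subgroup (X ≃ᵢ X)) (D : Set X) (n : ℕ) (C : Set X) :
    AddCommGroup (H Γ D n C) :=
  inferInstanceAs (AddCommGroup (↥(Cyc Γ D n C) ⧸ ((Bnd Γ D n C).addSubgroupOf (Cyc Γ D n C))))

section classes

variable {Γ : Subgroup (X ≃ᵢ X)} {D : Set X} {n : ℕ} {C : Set X}

/-- the class of a cocycle -/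
def cl (φ : List X → ZMod 2) (h : φ ∈ Cyc Γ D n C) : H Γ D n C :=
  QuotientAddGroup.mk (s := (Bnd Γ D n C).addSubgroupOf (Cyc Γ D n C)) ⟨φ, h⟩

theorem cl_surj (x : H Γ D n C) : ∃ φ, ∃ h : φ ∈ Cyc Γ D n C, cl φ h = x := by
  obtain ⟨⟨φ, h⟩, rfl⟩ := QuotientAddGroup.mk_surjective x
  exact ⟨φ, h, rfl⟩

theorem cl_add {φ ψ : List X → ZMod 2} (h : φ ∈ Cyc Γ D n C) (h' : ψ ∈ Cyc Γ D n C) :
    cl (φ + ψ) ((Cyc Γ D n C).add_mem h h') = cl φ h + cl ψ h' := rfl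

theorem cl_eq_zero {φ : List X → ZMod 2} (h : φ ∈ Cyc Γ D n C) :
    cl φ h = 0 ↔ φ ∈ Bnd Γ D n C := by
  change (QuotientAddGroup.mk (s := (Bnd Γ D n C).addSubgroupOf (Cyc Γ D n C)) ⟨φ, h⟩ :
    ↥(Cyc Γ D n C) ⧸ ((Bnd Γ D n C).addSubgroupOf (Cyc Γ D n C))) = 0 ↔ _
  rw [QuotientAddGroup.eq_zero_iff, AddSubgroup.mem_addSubgroupOf]

theorem two_add (x : H Γ D n C) : x + x = 0 := by
  obtain ⟨φ, h, rfl⟩ := cl_surj x
  rw [← cl_add, cl_eq_zero, add_self]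
  exact (Bnd Γ D n C).zero_mem

theorem eq_iff_add (x y : H Γ D n C) : x = y ↔ x + y = 0 := by
  constructor
  · rintro rfl
    exact two_add x
  · intro h
    have : x = -y := eq_neg_of_add_eq_zero_left h
    rw [this, neg_eq_of_add_eq_zero_left (two_add y)]

theorem cl_eq_cl {φ ψ : List X → ZMod 2} (h : φ ∈ Cyc Γ D n C) (h' : ψ ∈ Cyc Γ D n C) :
    cl φ h = cl ψ h' ↔ φ + ψ ∈ Bnd Γ D n C := by
  rw [eq_iff_add, ← cl_add, cl_eq_zero]

/-- the groups of the empty set are zero -/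
theorem H_empty (hC : C = ∅) (x : H Γ D n C) : x = 0 := by
  obtain ⟨φ, h, rfl⟩ := cl_surj x
  rw [cl_eq_zero]
  exact Bnd_of_Z0 h.1 (Z0.empty n hC φ)

/-- the groups of `(C, D)` are zero if `C ⊆ D` -/
theorem H_sub (hC : C ⊆ D) (x : H Γ D n C) : x = 0 := by
  obtain ⟨φ, h, rfl⟩ := cl_surj x
  rw [cl_eq_zero]
  have h2 : C ⊆ C ∩ D := fun x hx => And.intro hx (hC hx)
  exact Bnd_of_Z0 h.1 (h.2.1.mono h2)

end classes

/-! ### pullback -/

/-- `f` maps `(C, C ∩ D)` to `(C', C' ∩ D')`, is uniformly continuous on `C`, and is compatible with the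
groups -/
structure Adm (Γ : Subgroup (X ≃ᵢ X)) (D : Set X) (C : Set X) (Γ' : Subgroup (Y ≃ᵢ Y)) (D' : Set Y)
    (C' : Set Y) (f : X → Y) : Prop where
  maps : ∀ x ∈ C, f x ∈ C'
  mapsD : ∀ x ∈ C, x ∈ D → f x ∈ D'
  uc : ∀ ε > 0, ∃ δ > 0, ∀ x ∈ C, ∀ y ∈ C, dist x y < δ → dist (f x) (f y) < ε
  eqv : ∀ g ∈ Γ, ∃ g' ∈ Γ', ∀ x, f (g x) = g' (f x)

section pullback

variable {Γ : Subgroup (X ≃ᵢ X)} {D C : Set X} {Γ' : Subgroup (Y ≃ᵢ Y)} {D' C' : Set Y} {f : X → Y}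

theorem Adm.iv (h : Adm Γ D C Γ' D' C' f) {φ : List Y → ZMod 2} (hφ : Iv Γ' φ) :
    Iv Γ (fun l => φ (l.map f)) := by
  intro g hg l
  obtain ⟨g', hg', h1⟩ := h.eqv g hg
  have h2 : (l.map g).map f = (l.map f).map g' := by
    rw [List.map_map, List.map_map]
    congr 1
    funext x
    exact h1 x
  change φ ((l.map g).map f) = φ (l.map f)
  rw [h2, hφ g' hg']

theorem Z0.comp {A : Set X} {B : Set Y} (hm : ∀ x ∈ A, f x ∈ B)
    (hu : ∀ ε > 0, ∃ δ > 0, ∀ x ∈ A, ∀ y ∈ A, dist x y < δ → dist (f x) (f y) < ε) {n : ℕ}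
    {φ : List Y → ZMod 2} (hφ : Z0 n B φ) : Z0 n A (fun l => φ (l.map f)) := by
  obtain ⟨ε, hε, h1⟩ := hφ
  obtain ⟨δ, hδ, h2⟩ := hu ε hε
  refine ⟨δ, hδ, fun l hl hs => h1 _ (by simpa using hl) ⟨?_, ?_⟩⟩
  · intro y hy
    obtain ⟨x, hx, rfl⟩ := List.mem_map.mp hy
    exact hm x (hs.1 x hx)
  · intro y hy z hz
    obtain ⟨x, hx, rfl⟩ := List.mem_map.mp hy
    obtain ⟨x', hx', rfl⟩ := List.mem_map.mp hz
    exact h2 x (hs.1 x hx) x' (hs.1 x' hx') (hs.2 x hx x' hx')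

theorem Adm.z0 (h : Adm Γ D C Γ' D' C' f) {n : ℕ} {φ : List Y → ZMod 2} (hφ : Z0 n C' φ) :
    Z0 n C (fun l => φ (l.map f)) := hφ.comp h.maps h.uc

theorem Adm.z0D (h : Adm Γ D C Γ' D' C' f) {n : ℕ} {φ : List Y → ZMod 2}
    (hφ : Z0 n (C' ∩ D') φ) : Z0 n (C ∩ D) (fun l => φ (l.map f)) := by
  refine Z0.comp (A := C ∩ D) (B := C' ∩ D') (fun x hx => ⟨h.maps x hx.1, h.mapsD x hx.1 hx.2⟩)
    (fun ε hε => ?_) hφ
  obtain ⟨δ, hδ, h2⟩ := h.uc ε hε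
  exact ⟨δ, hδ, fun x hx y hy => h2 x hx.1 y hy.1⟩

theorem Adm.cyc (h : Adm Γ D C Γ' D' C' f) {n : ℕ} {φ : List Y → ZMod 2}
    (hφ : φ ∈ Cyc Γ' D' n C') : (fun l => φ (l.map f)) ∈ Cyc Γ D n C := by
  refine ⟨h.iv hφ.1, h.z0D hφ.2.1, ?_⟩
  have h1 : dd (fun l : List X => φ (l.map f)) = fun l => dd φ (l.map f) := by
    funext l
    exact dd_map f φ l
  rw [h1]
  exact h.z0 hφ.2.2

theorem Adm.bnd (h : Adm Γ D C Γ' D' C' f) {n : ℕ} {φ : List Y → ZMod 2}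
    (hφ : φ ∈ Bnd Γ' D' n C') : (fun l => φ (l.map f)) ∈ Bnd Γ D n C := by
  obtain ⟨h1, ψ, h2, hD, h3, h4⟩ := hφ
  refine ⟨h.iv h1, fun l => ψ (l.map f), h.iv h2, h.z0D hD, h3, ?_⟩
  have h5 : (fun l : List X => φ (l.map f)) + dd (fun l => ψ (l.map f)) =
      fun l => (φ + dd ψ) (l.map f) := by
    funext l
    rw [Pi.add_apply, dd_map]
    rfl
  rw [h5]
  exact h.z0 h4

/-- the pullback of cohomology classes -/
noncomputable def pull (f : X → Y) (h : Adm Γ D C Γ' D' C' f) (n : ℕ) :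
    H Γ' D' n C' →+ H Γ D n C :=
  QuotientAddGroup.map _ _
    ({ toFun := fun φ => ⟨fun l => φ.1 (l.map f), h.cyc φ.2⟩
       map_zero' := rfl
       map_add' := fun _ _ => rfl } : ↥(Cyc Γ' D' n C') →+ ↥(Cyc Γ D n C))
    (by
      rintro ⟨φ, hφ⟩ h'
      rw [AddSubgroup.mem_addSubgroupOf] at h'
      exact h.bnd h')

theorem pull_cl (h : Adm Γ D C Γ' D' C' f) {n : ℕ} {φ : List Y → ZMod 2}
    (hφ : φ ∈ Cyc Γ' D' n C') :
    pull f h n (cl φ hφ) = cl (fun l => φ (l.map f)) (h.cyc hφ) := rfl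

theorem Adm.id' {Γ Γ' : Subgroup (X ≃ᵢ X)} (hΓ : Γ ≤ Γ') {D D' C C' : Set X} (h : C ⊆ C')
    (hD : ∀ x ∈ C, x ∈ D → x ∈ D') : Adm Γ D C Γ' D' C' (fun x => x) :=
  ⟨fun _ hx => h hx, hD, fun ε hε => ⟨ε, hε, fun _ _ _ _ h => h⟩,
    fun g hg => ⟨g, hΓ hg, fun _ => rfl⟩⟩

theorem Adm.comp {Γ'' : Subgroup (W ≃ᵢ W)} {D'' C'' : Set W} {g : Y → W}
    (hg : Adm Γ' D' C' Γ'' D'' C'' g) (hf : Adm Γ D C Γ' D' C' f) :
    Adm Γ D C Γ'' D'' C'' (fun x => g (f x)) := by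
  refine ⟨fun x hx => hg.maps _ (hf.maps x hx),
    fun x hx hxD => hg.mapsD _ (hf.maps x hx) (hf.mapsD x hx hxD), ?_, ?_⟩
  · intro ε hε
    obtain ⟨δ, hδ, h1⟩ := hg.uc ε hε
    obtain ⟨η, hη, h2⟩ := hf.uc δ hδ
    exact ⟨η, hη, fun x hx y hy hxy => h1 _ (hf.maps x hx) _ (hf.maps y hy) (h2 x hx y hy hxy)⟩
  · intro a ha
    obtain ⟨b, hb, h1⟩ := hf.eqv a ha
    obtain ⟨c, hc, h2⟩ := hg.eqv b hb
    exact ⟨c, hc, fun x => by rw [h1, h2]⟩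

theorem pull_pull {Γ'' : Subgroup (W ≃ᵢ W)} {D'' C'' : Set W} {g : Y → W}
    (hg : Adm Γ' D' C' Γ'' D'' C'' g) (hf : Adm Γ D C Γ' D' C' f) {n : ℕ} (x : H Γ'' D'' n C'') :
    pull f hf n (pull g hg n x) = pull (fun x => g (f x)) (hg.comp hf) n x := by
  obtain ⟨φ, hφ, rfl⟩ := cl_surj x
  rw [pull_cl, pull_cl, pull_cl]
  congr 1
  funext l
  rw [List.map_map]
  rfl

/-- two maps which agree on `C` have the same pullback -/
theorem pull_congr {f' : X → Y} (hf : Adm Γ D C Γ' D' C' f) (hf' : Adm Γ D C Γ' D' C' f')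
    (h : ∀ x ∈ C, f x = f' x) {n : ℕ} (x : H Γ' D' n C') : pull f hf n x = pull f' hf' n x := by
  obtain ⟨φ, hφ, rfl⟩ := cl_surj x
  rw [pull_cl, pull_cl, cl_eq_cl]
  refine Bnd_of_Z0 (Iv.add (hf.iv hφ.1) (hf'.iv hφ.1)) ((Z0.zero _ _).congr fun l _ hl => ?_)
  rw [Pi.add_apply]
  have h1 : l.map f = l.map f' := List.map_congr_left fun x hx => h x (hl x hx)
  rw [h1, z2_add_self]
  rfl

end pullback

/-! ### restriction -/

section restriction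

variable {Γ : Subgroup (X ≃ᵢ X)} {D : Set X} {A B C : Set X}

/-- the restriction of classes from `B` to `A` -/
noncomputable def res (h : A ⊆ B) (n : ℕ) : H Γ D n B →+ H Γ D n A :=
  pull (fun x => x) (Adm.id' le_rfl h fun _ _ hx => hx) n

theorem cyc_mono {n : ℕ} (h : A ⊆ B) {φ : List X → ZMod 2} (hφ : φ ∈ Cyc Γ D n B) :
    φ ∈ Cyc Γ D n A :=
  ⟨hφ.1, hφ.2.1.mono (Set.inter_subset_inter_left D h), hφ.2.2.mono h⟩

theorem bnd_mono {n : ℕ} (h : A ⊆ B) {φ : List X → ZMod 2} (hφ : φ ∈ Bnd Γ D n B) :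
    φ ∈ Bnd Γ D n A := by
  obtain ⟨h1, ψ, h2, h3, h4, h5⟩ := hφ
  exact ⟨h1, ψ, h2, h3.mono (Set.inter_subset_inter_left D h), h4, h5.mono h⟩

theorem res_cl (h : A ⊆ B) {n : ℕ} {φ : List X → ZMod 2} (hφ : φ ∈ Cyc Γ D n B) :
    res h n (cl φ hφ) = cl φ (cyc_mono h hφ) := by
  unfold res
  rw [pull_cl]
  congr 1
  funext l
  rw [List.map_id']

theorem res_self {n : ℕ} (h : A ⊆ A) (x : H Γ D n A) : res h n x = x := by
  obtain ⟨φ, hφ, rfl⟩ := cl_surj x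
  rw [res_cl]

theorem res_res (h : A ⊆ B) (h' : B ⊆ C) (h'' : A ⊆ C) {n : ℕ} (x : H Γ D n C) :
    res h n (res h' n x) = res h'' n x := by
  obtain ⟨φ, hφ, rfl⟩ := cl_surj x
  rw [res_cl, res_cl, res_cl]

/-- restriction commutes with pullback -/
theorem res_pull {Γ' : Subgroup (Y ≃ᵢ Y)} {D' C' E' : Set Y} {f : X → Y}
    (hf : Adm Γ D B Γ' D' C' f) (hf' : Adm Γ D A Γ' D' E' f) (h : A ⊆ B) (h' : E' ⊆ C') {n : ℕ}
    (x : H Γ' D' n C') : res h n (pull f hf n x) = pull f hf' n (res h' n x) := by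
  obtain ⟨φ, hφ, rfl⟩ := cl_surj x
  rw [pull_cl, res_cl, res_cl, pull_cl]

end restriction

end AS
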