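import Pool.Agent.Lib.AS.SpecLG2

/-!
# Auxiliary lemmas for the theorems over a quotient base
-/

set_option autoImplicit false

namespace AS

namespace Fbr

/-- bijectivity along a commutative square -/
theorem bij_square {P P' Q Q' : Type} {e₁ : P → P'} {e₂ : Q → Q'} {Φ : P → Q} {Ψ : P' → Q'}
    (h1 : Function.Bijective e₁) (h2 : Function.Bijective e₂) (hs : ∀ x, e₂ (Φ x) = Ψ (e₁ x))
    (hΨ : Function.Bijective Ψ) : Function.Bijective Φ := by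
  constructor
  · intro x y hxy
    apply h1.1
    apply hΨ.1
    rw [← hs, ← hs, hxy]
  · intro y
    obtain ⟨z, hz⟩ := hΨ.2 (e₂ y)
    obtain ⟨x, rfl⟩ := h1.2 z
    exact ⟨x, h2.1 (by rw [hs, hz])⟩

variable {X B : Type} [MetricSpace X] [MetricSpace B] {Γ K : Subgroup (X ≃ᵢ X)} {D E : Set X}
  {Γ' : Subgroup (B ≃ᵢ B)} {D' S : Set B} {f : X → B}

/-- the map of the fibre over `p` to the point `p` -/
theorem admK (h : Fib Γ D E Γ' D' S f) (q : Quo Γ K E Γ' f) (p : B) :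
    Adm K ∅ (ov E f {p}) ⊥ ∅ {p} f :=
  ⟨fun x hx => hx.2, fun _ _ hx => hx.elim, (h.adm {p}).uc,
    fun g hg => ⟨1, Subgroup.mem_bot.mpr rfl, fun x => q.triv g hg x⟩⟩

theorem ov_sub_orb (E : Set X) (f : X → B) (Γ' : Subgroup (B ≃ᵢ B)) (p : B) :
    ov E f {p} ⊆ ov E f (orb Γ' p) := fun x hx => ⟨hx.1, ⟨1, Γ'.one_mem, hx.2⟩⟩

theorem pt_sub_orb (Γ' : Subgroup (B ≃ᵢ B)) (p : B) : {p} ⊆ orb Γ' p :=
  fun _ hx => ⟨1, Γ'.one_mem, hx⟩

/-- restriction to the fibre commutes with the pullback -/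
theorem rk_pull (h : Fib Γ D E Γ' D' S f) (q : Quo Γ K E Γ' f) (p : B) (n : ℕ)
    (x : H Γ' ∅ n (orb Γ' p)) :
    rk q.le (ov_sub_orb E f Γ' p) n (pull f (h.adm0 (orb Γ' p)) n x) =
      pull f (admK h q p) n (rk bot_le (pt_sub_orb Γ' p) n x) := by
  unfold rk
  rw [pull_pull, pull_pull]

/-- restriction to the fibre commutes with the products -/
theorem rk_cupH {p q n : ℕ} {F : Set X} (hn : p + q = n) (hK : K ≤ Γ) (hF : F ⊆ E)
    (x : H Γ ∅ p E) (y : H Γ ∅ q E) :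
    rk hK hF n (cupH ∅ n x y) = cupH ∅ n (rk hK hF p x) (rk hK hF q y) :=
  pull_cupH hn (Or.inl Set.inter_subset_right) (Or.inl Set.inter_subset_right) _ _ _ x y

/-- the point -/
theorem pt_zero (n2 : N2) (p : B) (x : H (⊥ : Subgroup (B ≃ᵢ B)) ∅ 0 {p}) :
    x = 0 ∨ x = one ⊥ {p} := (n2 B ⊥ {p}).1 isPreconnected_singleton x

theorem pt_one (n2 : N2) (p : B) : one (⊥ : Subgroup (B ≃ᵢ B)) {p} ≠ 0 :=
  (n2 B ⊥ {p}).2 (Set.singleton_nonempty p)

theorem pt_succ (n1 : N1) (p : B) (n : ℕ) (x : H (⊥ : Subgroup (B ≃ᵢ B)) ∅ (n + 1) {p}) : x = 0 :=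
  n1 B ⊥ ∅ {p} n (Set.finite_singleton p) x

theorem pt_pos (n1 : N1) (p : B) {n : ℕ} (hn : n ≠ 0) (x : H (⊥ : Subgroup (B ≃ᵢ B)) ∅ n {p}) :
    x = 0 := by
  obtain ⟨m, rfl⟩ := Nat.exists_eq_succ_of_ne_zero hn
  exact pt_succ n1 p m x

theorem pull_one {C : Set X} {C' : Set B} (hf : Adm Γ ∅ C Γ' ∅ C' f) :
    pull f hf 0 (one Γ' C') = one Γ C := rfl

/-- a map between groups with two elements -/
theorem bij_two {P Q : Type} [AddCommGroup P] [AddCommGroup Q] {φ : P → Q} {g : P} {g' : Q}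
    (hP : ∀ x : P, x = 0 ∨ x = g) (hQ : ∀ y : Q, y = 0 ∨ y = g') (hg' : g' ≠ 0) (h0 : φ 0 = 0)
    (hφ : φ g = g') : Function.Bijective φ := by
  constructor
  · intro x y hxy
    rcases hP x with rfl | rfl <;> rcases hP y with rfl | rfl
    · rfl
    · rw [h0, hφ] at hxy
      exact absurd hxy.symm hg'
    · rw [h0, hφ] at hxy
      exact absurd hxy hg'
    · rfl
  · intro y
    rcases hQ y with rfl | rfl
    · exact ⟨0, h0⟩
    · exact ⟨g, hφ⟩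

theorem bij_zero {P Q : Type} [Zero P] [Zero Q] {φ : P → Q}
    (hP : ∀ x : P, x = 0) (hQ : ∀ y : Q, y = 0) : Function.Bijective φ :=
  ⟨fun x y _ => by rw [hP x, hP y], fun y => ⟨0, by rw [hQ y, hQ (φ 0)]⟩⟩

/-- over a point, degree `0` -/
theorem pt_bij0 (n2 : N2) (h : Fib Γ D E Γ' D' S f) (q : Quo Γ K E Γ' f) (p : B)
    (h0 : ∀ x : H K ∅ 0 (ov E f {p}), x = 0 ∨ x = one K (ov E f {p}))
    (h1 : one K (ov E f {p}) ≠ 0) : Function.Bijective (pull f (admK h q p) 0) :=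
  bij_two (pt_zero n2 p) h0 h1 (map_zero _) (pull_one _)

/-- over a point, other degrees -/
theorem pt_bij (n1 : N1) (h : Fib Γ D E Γ' D' S f) (q : Quo Γ K E Γ' f) (p : B) {n : ℕ}
    (hn : n ≠ 0) (h0 : ∀ x : H K ∅ n (ov E f {p}), x = 0) :
    Function.Bijective (pull f (admK h q p) n) :=
  bij_zero (pt_pos n1 p hn) h0

end Fbr

end AS
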