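import Pool.Agent.Lib.AS.Cup

/-!
# The Gysin (transfer) sequence of a subgroup of index two

`Γ' ≤ Γ` of index two, `τ ∈ Γ` not in `Γ'`, `Γ` free on the invariant set `A`.  The choice of a function
`s` with `s (g x) = s x + [g ∉ Γ']` gives the class `w = d s` in degree one.  The sequence
`H Γ n -> H Γ' n -> H Γ n -> H Γ (n + 1) -> H Γ' (n + 1)` (restriction, transfer, product with `w`) is
exact; all statements are explicit computations with representatives.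
-/

set_option autoImplicit false

namespace AS

variable {X : Type} [MetricSpace X]

/-- `Γ'` has index two in `Γ`, the other coset is the one of `τ` -/
structure Idx2 (Γ Γ' : Subgroup (X ≃ᵢ X)) (τ : X ≃ᵢ X) : Prop where
  le : Γ' ≤ Γ
  mem : τ ∈ Γ
  nmem : τ ∉ Γ'
  cov : ∀ g ∈ Γ, g ∉ Γ' → τ⁻¹ * g ∈ Γ'

namespace Idx2

variable {Γ Γ' : Subgroup (X ≃ᵢ X)} {τ : X ≃ᵢ X}

theorem div (h : Idx2 Γ Γ' τ) {g k : X ≃ᵢ X} (hg : g ∈ Γ) (hk : k ∈ Γ) (hg' : g ∉ Γ')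
    (hk' : k ∉ Γ') : g⁻¹ * k ∈ Γ' := by
  have h1 := h.cov g hg hg'
  have h2 := h.cov k hk hk'
  have h3 := Γ'.mul_mem (Γ'.inv_mem h1) h2
  have h4 : (τ⁻¹ * g)⁻¹ * (τ⁻¹ * k) = g⁻¹ * k := by group
  rwa [h4] at h3

theorem mul (h : Idx2 Γ Γ' τ) {g k : X ≃ᵢ X} (hg : g ∈ Γ) (hk : k ∈ Γ) (hg' : g ∉ Γ')
    (hk' : k ∉ Γ') : g * k ∈ Γ' := by
  have h1 : g⁻¹ ∉ Γ' := fun h2 => hg' (by simpa using Γ'.inv_mem h2)
  have h3 := h.div (Γ.inv_mem hg) hk h1 hk'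
  rwa [inv_inv] at h3

/-- `s` counts the coset of `Γ'` -/
theorem eps (h : Idx2 Γ Γ' τ) {g k : X ≃ᵢ X} (hg : g ∈ Γ) (hk : k ∈ Γ) :
    g * k ∈ Γ' ↔ (g ∈ Γ' ↔ k ∈ Γ') := by
  by_cases h1 : g ∈ Γ' <;> by_cases h2 : k ∈ Γ'
  · simp [h1, h2, Γ'.mul_mem h1 h2]
  · simp only [h1, h2, iff_false, not_true_eq_false]
    intro h3
    exact h2 (by simpa using Γ'.mul_mem (Γ'.inv_mem h1) h3)
  · simp only [h1, h2, iff_true]
    constructor
    · intro h3
      exact h1 (by simpa using Γ'.mul_mem h3 (Γ'.inv_mem h2))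
    · intro h3; exact h3.elim
  · simp [h1, h2, h.mul hg hk h1 h2]

end Idx2

open Classical in
/-- `s` has the values `0, 1` on the two classes of an orbit modulo `Γ'` -/
def IsS (Γ Γ' : Subgroup (X ≃ᵢ X)) (A : Set X) (s : X → ZMod 2) : Prop :=
  ∀ g ∈ Γ, ∀ x ∈ A, s (g x) = s x + (if g ∈ Γ' then 0 else 1)

open Classical in
theorem exists_s {Γ Γ' : Subgroup (X ≃ᵢ X)} {τ : X ≃ᵢ X} (h : Idx2 Γ Γ' τ) {A : Set X}
    (hA : IvS Γ A) (hf : Fr Γ A) : ∃ s : X → ZMod 2, IsS Γ Γ' A s := by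
  -- a representative of each orbit
  have hrep : ∃ r : X → X, (∀ x, ∃ g ∈ Γ, g (r x) = x) ∧ ∀ g ∈ Γ, ∀ x, r (g x) = r x := by
    let S : Setoid X :=
      { r := fun x y => ∃ g ∈ Γ, g x = y
        iseqv := by
          refine ⟨fun x => ⟨1, Γ.one_mem, rfl⟩, ?_, ?_⟩
          · rintro x y ⟨g, hg, rfl⟩
            exact ⟨g⁻¹, Γ.inv_mem hg, IsometryEquiv.inv_apply_self g x⟩
          · rintro x y z ⟨g, hg, rfl⟩ ⟨k, hk, rfl⟩
            exact ⟨k * g, Γ.mul_mem hk hg, rfl⟩ }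
    refine ⟨fun x => (Quotient.mk S x).out, fun x => ?_, fun g hg x => ?_⟩
    · exact Quotient.exact (Quotient.out_eq (Quotient.mk S x))
    · have : Quotient.mk S (g x) = Quotient.mk S x := by
        apply Quotient.sound
        exact ⟨g⁻¹, Γ.inv_mem hg, IsometryEquiv.inv_apply_self g x⟩
      simp only [this]
  obtain ⟨r, hr1, hr2⟩ := hrep
  refine ⟨fun x => if ∃ g ∈ Γ', g (r x) = x then 0 else 1, ?_⟩
  intro k hk x hx
  obtain ⟨g, hg, hgx⟩ := hr1 x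
  -- the element is unique
  have hrA : r x ∈ A := by
    have := hA g⁻¹ (Γ.inv_mem hg) x hx
    rwa [← hgx, IsometryEquiv.inv_apply_self] at this
  have huniq : ∀ a ∈ Γ, ∀ b ∈ Γ, a (r x) = b (r x) → a = b := by
    intro a ha b hb hab
    have h1 : (b⁻¹ * a) (r x) = r x := by
      rw [IsometryEquiv.mul_apply, hab, IsometryEquiv.inv_apply_self]
    have h2 := hf _ (Γ.mul_mem (Γ.inv_mem hb) ha) (r x) hrA h1
    exact (inv_mul_eq_one.mp h2).symm
  have e1 : (∃ a ∈ Γ', a (r x) = x) ↔ g ∈ Γ' := by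
    constructor
    · rintro ⟨a, ha, hax⟩
      rwa [huniq g hg a (h.le ha) (by rw [hgx, hax])]
    · intro hg'
      exact ⟨g, hg', hgx⟩
  have e2 : (∃ a ∈ Γ', a (r (k x)) = k x) ↔ k * g ∈ Γ' := by
    rw [hr2 k hk x]
    constructor
    · rintro ⟨a, ha, hax⟩
      have : k * g = a := huniq (k * g) (Γ.mul_mem hk hg) a (h.le ha) (by
        rw [IsometryEquiv.mul_apply, hgx, hax])
      rwa [this]
    · intro hg'
      exact ⟨k * g, hg', by rw [IsometryEquiv.mul_apply, hgx]⟩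
  have e3 := h.eps hk hg
  simp only [e1, e2, e3]
  by_cases h1 : k ∈ Γ' <;> by_cases h2 : g ∈ Γ' <;> simp [h1, h2]
  exact (z2_add_self 1).symm

open Classical in
/-- `φ` on the lists in `A`, zero on the others -/
noncomputable def cut (A : Set X) (φ : List X → ZMod 2) (l : List X) : ZMod 2 :=
  if ∀ x ∈ l, x ∈ A then φ l else 0

omit [MetricSpace X] in
theorem cut_eq {A : Set X} {φ : List X → ZMod 2} {l : List X} (h : ∀ x ∈ l, x ∈ A) :
    cut A φ l = φ l := if_pos h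

omit [MetricSpace X] in
theorem cut_ne {A : Set X} {φ : List X → ZMod 2} {l : List X} (h : ¬ ∀ x ∈ l, x ∈ A) :
    cut A φ l = 0 := if_neg h

theorem mem_map_iff {Γ : Subgroup (X ≃ᵢ X)} {A : Set X} (hA : IvS Γ A) {g : X ≃ᵢ X} (hg : g ∈ Γ)
    (l : List X) : (∀ x ∈ l.map g, x ∈ A) ↔ ∀ x ∈ l, x ∈ A := by
  constructor
  · intro h x hx
    exact (hA.iff hg x).mp (h _ (List.mem_map_of_mem hx))
  · intro h y hy
    obtain ⟨z, hz, rfl⟩ := List.mem_map.mp hy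
    exact hA g hg z (h z hz)

theorem cut_iv {Γ : Subgroup (X ≃ᵢ X)} {A : Set X} (hA : IvS Γ A) {φ : List X → ZMod 2}
    (h : ∀ g ∈ Γ, ∀ l : List X, (∀ x ∈ l, x ∈ A) → φ (l.map g) = φ l) : Iv Γ (cut A φ) := by
  intro g hg l
  by_cases hl : ∀ x ∈ l, x ∈ A
  · rw [cut_eq hl, cut_eq ((mem_map_iff hA hg l).mpr hl), h g hg l hl]
  · rw [cut_ne hl, cut_ne (fun h' => hl ((mem_map_iff hA hg l).mp h'))]

omit [MetricSpace X] in
theorem dd_cut {A : Set X} {φ : List X → ZMod 2} {l : List X} (h : ∀ x ∈ l, x ∈ A) :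
    dd (cut A φ) l = dd φ l :=
  dd_congr fun m hm _ => cut_eq fun x hx => h x (hm.subset hx)

/-- the cochain of degree `0` given by `s` -/
def c0 (s : X → ZMod 2) : List X → ZMod 2
  | [] => 0
  | x :: _ => s x

/-- the cocycle `x y ↦ s x + s y` on `A` -/
noncomputable def wc (A : Set X) (s : X → ZMod 2) : List X → ZMod 2 :=
  cut A fun l => match l with
    | [x, y] => s x + s y
    | _ => 0

omit [MetricSpace X] in
theorem wc_two {A : Set X} {s : X → ZMod 2} {l : List X} (hl : l.length = 2)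
    (h : ∀ x ∈ l, x ∈ A) : wc A s l = dd (c0 s) l := by
  match l, hl with
  | [x, y], _ =>
    rw [wc, cut_eq h]
    simp [dd, c0, add_comm]

theorem wc_iv {Γ Γ' : Subgroup (X ≃ᵢ X)} {A : Set X} (hA : IvS Γ A) {s : X → ZMod 2}
    (hs : IsS Γ Γ' A s) : Iv Γ (wc A s) := by
  classical
  refine cut_iv hA ?_
  intro g hg l hl
  match l with
  | [] => rfl
  | [x] => rfl
  | x :: y :: z :: l => rfl
  | [x, y] =>
    have hx := hl x (by simp)
    have hy := hl y (by simp)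
    simp only [List.map_cons, List.map_nil]
    rw [hs g hg x hx, hs g hg y hy]
    have := z2_add_self (if g ∈ Γ' then (0 : ZMod 2) else 1)
    linear_combination this

theorem wc_cyc {Γ Γ' : Subgroup (X ≃ᵢ X)} {A : Set X} (hA : IvS Γ A) {s : X → ZMod 2}
    (hs : IsS Γ Γ' A s) : wc A s ∈ Cyc Γ ∅ 1 A := by
  refine ⟨wc_iv hA hs, Z0.empty 1 (by simp) _, 1, one_pos, ?_⟩
  intro l hl hs'
  have h1 : dd (wc A s) l = dd (dd (c0 s)) l :=
    dd_congr fun _ hm hlen => wc_two (by omega) fun x hx => hs'.1 x (hm.subset hx)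
  rw [h1, dd_dd]

/-- the class `w` does not depend on the choice of `s` -/
theorem wc_unique {Γ Γ' : Subgroup (X ≃ᵢ X)} {A : Set X} (hA : IvS Γ A) {s s' : X → ZMod 2}
    (hs : IsS Γ Γ' A s) (hs' : IsS Γ Γ' A s') : wc A s + wc A s' ∈ Bnd Γ ∅ 1 A := by
  classical
  refine mem_Bnd_succ.mpr ⟨(wc_iv hA hs).add (wc_iv hA hs'),
    cut A (c0 (fun x => s x + s' x)), cut_iv hA ?_, Z0.empty 0 (by simp) _, 1, one_pos, ?_⟩
  · intro g hg l hl
    match l with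
    | [] => rfl
    | x :: l =>
      have hx := hl x List.mem_cons_self
      change s (g x) + s' (g x) = s x + s' x
      rw [hs g hg x hx, hs' g hg x hx]
      have := z2_add_self (if g ∈ Γ' then (0 : ZMod 2) else 1)
      linear_combination this
  · intro l hl hsm
    have h3 := hsm.1
    rw [Pi.add_apply, Pi.add_apply, wc_two hl h3, wc_two hl h3, dd_cut h3]
    have h4 : c0 (fun x => s x + s' x) = fun l => c0 s l + c0 s' l := by
      funext l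
      match l with
      | [] => simp [c0]
      | x :: l => rfl
    rw [h4, dd_add, z2_add_self]

/-! ### transfer -/

/-- the transfer of cochains -/
def trc (τ : X ≃ᵢ X) (φ : List X → ZMod 2) (l : List X) : ZMod 2 := φ l + φ (l.map τ)

variable {Γ Γ' : Subgroup (X ≃ᵢ X)} {τ : X ≃ᵢ X} {A D : Set X}

theorem map_mul (g k : X ≃ᵢ X) (l : List X) : (l.map k).map g = l.map (g * k : X ≃ᵢ X) := by
  rw [List.map_map]
  rfl

theorem trc_iv (h : Idx2 Γ Γ' τ) {φ : List X → ZMod 2} (hφ : Iv Γ' φ) : Iv Γ (trc τ φ) := by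
  intro g hg l
  unfold trc
  rw [map_mul]
  by_cases hg' : g ∈ Γ'
  · have h1 : τ * g * τ⁻¹ ∈ Γ' := by
      have h2 : τ * g ∉ Γ' := fun h3 => h.nmem (by simpa using Γ'.mul_mem h3 (Γ'.inv_mem hg'))
      have h3 : τ⁻¹ ∉ Γ' := fun h4 => h.nmem (by simpa using Γ'.inv_mem h4)
      exact h.mul (Γ.mul_mem h.mem hg) (Γ.inv_mem h.mem) h2 h3
    have h4 : τ * g = τ * g * τ⁻¹ * τ := by group
    rw [hφ g hg', h4, ← map_mul, hφ _ h1]
  · have h1 : τ⁻¹ * g ∈ Γ' := h.cov g hg hg'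
    have h2 : τ * g ∈ Γ' := h.mul h.mem hg h.nmem hg'
    rw [hφ _ h2]
    -- `g = k τ` with `k = g τ⁻¹`
    have h3 : g * τ⁻¹ ∈ Γ' :=
      h.mul hg (Γ.inv_mem h.mem) hg' fun h4 => h.nmem (by simpa using Γ'.inv_mem h4)
    have h4 : g = g * τ⁻¹ * τ := by group
    have h5 : φ (l.map g) = φ (l.map τ) := by
      conv_lhs => rw [h4]
      rw [← map_mul, hφ _ h3]
    rw [h5]
    exact add_comm _ _

theorem dd_trc (φ : List X → ZMod 2) : dd (trc τ φ) = trc τ (dd φ) := by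
  funext l
  have h1 : trc τ φ = fun l => φ l + (fun m : List X => φ (m.map τ)) l := rfl
  rw [h1, dd_add, dd_map]
  rfl

theorem Z0.trc {n : ℕ} (hA : IvS Γ A) (hτ : τ ∈ Γ) {φ : List X → ZMod 2} (h : Z0 n A φ) :
    Z0 n A (AS.trc τ φ) := by
  obtain ⟨ε, hε, h1⟩ := h
  refine ⟨ε, hε, fun l hl hs => ?_⟩
  rw [AS.trc, h1 l hl hs, h1 _ (by simpa using hl) ((Sml.map_iff hA hτ ε l).mpr hs), add_zero]

theorem trc_cyc (h : Idx2 Γ Γ' τ) (hA : IvS Γ A) (hD : IvS Γ D) {n : ℕ} {φ : List X → ZMod 2}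
    (hφ : φ ∈ Cyc Γ' D n A) : trc τ φ ∈ Cyc Γ D n A :=
  ⟨trc_iv h hφ.1, Z0.trc (hA.inter hD) h.mem hφ.2.1, by
    rw [dd_trc]
    exact Z0.trc hA h.mem hφ.2.2⟩

theorem trc_bnd (h : Idx2 Γ Γ' τ) (hA : IvS Γ A) (hD : IvS Γ D) {n : ℕ} {φ : List X → ZMod 2}
    (hφ : φ ∈ Bnd Γ' D n A) : trc τ φ ∈ Bnd Γ D n A := by
  obtain ⟨h1, ψ, h2, h3, h4, h5⟩ := hφ
  refine ⟨trc_iv h h1, trc τ ψ, trc_iv h h2, Z0.trc (hA.inter hD) h.mem h3, ?_, ?_⟩
  · change ψ [] + ψ [] = 0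
    rw [h4, add_zero]
  · have h6 : trc τ φ + dd (trc τ ψ) = trc τ (φ + dd ψ) := by
      rw [dd_trc]
      funext l
      simp only [trc, Pi.add_apply]
      ring
    rw [h6]
    exact Z0.trc hA h.mem h5

/-! ### products with `w` -/

/-- `s · ψ` -/
def sc (s : X → ZMod 2) (ψ : List X → ZMod 2) (l : List X) : ZMod 2 := c0 s l * ψ l

omit [MetricSpace X] in
theorem sc_eq (s : X → ZMod 2) (ψ : List X → ZMod 2) : sc s ψ = cup 0 (c0 s) ψ := by
  funext l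
  match l with
  | [] => rfl
  | x :: l => rfl

open Classical in
theorem sc_map {s : X → ZMod 2} (hs : IsS Γ Γ' A s) {g : X ≃ᵢ X} (hg : g ∈ Γ)
    (ψ : List X → ZMod 2) {l : List X} (hl : ∀ x ∈ l, x ∈ A) (hψ : ψ (l.map g) = ψ l)
    (h0 : l = [] → ψ l = 0) :
    sc s ψ (l.map g) = sc s ψ l + (if g ∈ Γ' then 0 else ψ l) := by
  match l, hl, hψ, h0 with
  | [], _, _, h0 =>
    have := h0 rfl
    simp [sc, c0, this]
  | x :: l, hl, hψ, _ =>
    have h1 : c0 s ((x :: l).map g) = c0 s (x :: l) + (if g ∈ Γ' then 0 else 1) :=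
      hs g hg x (hl x List.mem_cons_self)
    unfold sc
    rw [h1, hψ]
    split_ifs <;> ring

theorem sc_map' {s : X → ZMod 2} (hs : IsS Γ Γ' A s) {g : X ≃ᵢ X} (hg : g ∈ Γ) (hg' : g ∈ Γ')
    (ψ : List X → ZMod 2) {l : List X} (hl : ∀ x ∈ l, x ∈ A) (hψ : ψ (l.map g) = ψ l) :
    sc s ψ (l.map g) = sc s ψ l := by
  classical
  match l, hl, hψ with
  | [], _, _ => rfl
  | x :: l, hl, hψ =>
    have h1 : c0 s ((x :: l).map g) = c0 s (x :: l) + (if g ∈ Γ' then 0 else 1) :=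
      hs g hg x (hl x List.mem_cons_self)
    unfold sc
    rw [h1, hψ, if_pos hg', add_zero]

omit [MetricSpace X] in
theorem dd_sc {s : X → ZMod 2} (ψ : List X → ZMod 2) {l : List X} (hl : ∀ x ∈ l, x ∈ A)
    (h2 : 2 ≤ l.length) : dd (sc s ψ) l = cup 1 (wc A s) ψ l + sc s (dd ψ) l := by
  rw [sc_eq, leibniz 0 _ _ l (by simpa using h2), sc_eq]
  congr 1
  unfold cup
  rw [wc_two (by simp [h2]) fun x hx => hl x (List.mem_of_mem_take hx)]

theorem cupw_cyc (hA : IvS Γ A) {s : X → ZMod 2} (hs : IsS Γ Γ' A s) {n : ℕ}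
    {φ : List X → ZMod 2} (hφ : φ ∈ Cyc Γ D n A) : cup 1 (wc A s) φ ∈ Cyc Γ D (n + 1) A := by
  obtain ⟨h1, ⟨ε, hε, h2⟩, ⟨δ, hδ, h3⟩⟩ := hφ
  refine ⟨cup_iv 1 (wc_iv hA hs) h1, ⟨ε, hε, fun l hl hsm => ?_⟩, ⟨δ, hδ, fun l hl hsm => ?_⟩⟩
  · unfold cup
    rw [h2 (l.drop 1) (by simp [hl]) (hsm.sub (List.drop_sublist 1 l)), mul_zero]
  · rw [leibniz 1 _ _ l (by omega)]
    have h4 : dd (wc A s) (l.take 3) = 0 := by
      have h5 : dd (wc A s) (l.take 3) = dd (dd (c0 s)) (l.take 3) :=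
        dd_congr fun m hm hlen => wc_two (by
          have : (l.take 3).length = 3 := by simp [hl]
          omega) fun x hx => hsm.1 x (List.mem_of_mem_take (hm.subset hx))
      rw [h5, dd_dd]
    unfold cup
    rw [h4, h3 (l.drop 1) (by simp [hl]) (hsm.sub (List.drop_sublist 1 l))]
    simp

theorem cupw_bnd (hA : IvS Γ A) {s : X → ZMod 2} (hs : IsS Γ Γ' A s) {n : ℕ}
    {φ : List X → ZMod 2} (hφ : φ ∈ Bnd Γ D n A) : cup 1 (wc A s) φ ∈ Bnd Γ D (n + 1) A := by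
  obtain ⟨h1, ψ, h2, ⟨ε, hε, h3⟩, h4, ⟨δ, hδ, h5⟩⟩ := hφ
  refine mem_Bnd_succ.mpr ⟨cup_iv 1 (wc_iv hA hs) h1, cup 1 (wc A s) ψ, cup_iv 1 (wc_iv hA hs) h2,
    ⟨ε, hε, fun l hl hsm => ?_⟩, ⟨δ, hδ, fun l hl hsm => ?_⟩⟩
  · unfold cup
    rw [h3 (l.drop 1) (by simp [hl]) (hsm.sub (List.drop_sublist 1 l)), mul_zero]
  · have h8 := h5 (l.drop 1) (by simp [hl]) (hsm.sub (List.drop_sublist 1 l))
    rw [Pi.add_apply] at h8 ⊢
    rcases Nat.eq_zero_or_pos n with rfl | hn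
    · -- degree zero: `φ = 0` on points
      have h9 : φ (l.drop 1) = 0 := by
        have hlen : (l.drop 1).length = 1 := by simp [hl]
        obtain ⟨x, hx⟩ := List.length_eq_one_iff.mp hlen
        rw [hx] at h8 ⊢
        rwa [dd_cons, dd_nil, h4, add_zero, add_zero] at h8
      have h10 : dd (cup 1 (wc A s) ψ) l = 0 := by
        have h11 : dd (cup 1 (wc A s) ψ) l = dd (0 : List X → ZMod 2) l := by
          refine dd_congr fun m _ hlen => ?_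
          have : m.length = 1 := by omega
          obtain ⟨x, rfl⟩ := List.length_eq_one_iff.mp this
          simp [cup, h4]
        rw [h11, dd_zero]
        rfl
      rw [h10, add_zero]
      unfold cup
      rw [h9, mul_zero]
    · rw [leibniz 1 _ _ l (by omega)]
      have h6 : dd (wc A s) (l.take 3) = 0 := by
        have h7 : dd (wc A s) (l.take 3) = dd (dd (c0 s)) (l.take 3) :=
          dd_congr fun m hm hlen => wc_two (by
            have : (l.take 3).length = 3 := by simp [hl]; omega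
            omega) fun x hx => hsm.1 x (List.mem_of_mem_take (hm.subset hx))
        rw [h7, dd_dd]
      unfold cup
      rw [h6, zero_mul, zero_add, ← mul_add, h8, mul_zero]

/-! ### exactness -/

/-- the product with `w` dies in the subgroup -/
theorem gys1 (h : Idx2 Γ Γ' τ) (hA : IvS Γ A) {s : X → ZMod 2} (hs : IsS Γ Γ' A s) {n : ℕ}
    {y : List X → ZMod 2} (hy : y ∈ Cyc Γ D n A) : cup 1 (wc A s) y ∈ Bnd Γ' D (n + 1) A := by
  obtain ⟨h1, ⟨ε, hε, h2⟩, ⟨δ, hδ, h3⟩⟩ := hy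
  refine mem_Bnd_succ.mpr ⟨fun g hg l => cup_iv 1 (wc_iv hA hs) h1 g (h.le hg) l, cut A (sc s y),
    cut_iv (fun g hg => hA g (h.le hg)) (fun g hg l hl => sc_map' hs (h.le hg) hg y hl
      (h1 g (h.le hg) l)), ⟨ε, hε, fun l hl hsm => ?_⟩, ⟨δ, hδ, fun l hl hsm => ?_⟩⟩
  · rw [cut_eq fun x hx => (hsm.1 x hx).1, sc, h2 l hl hsm, mul_zero]
  · rw [Pi.add_apply, dd_cut hsm.1, dd_sc y hsm.1 (by omega), ← add_assoc, z2_add_self, zero_add,
      sc, h3 l hl hsm, mul_zero]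

/-- the value of a `Γ'`-invariant cochain on the other coset -/
theorem other (h : Idx2 Γ Γ' τ) {φ : List X → ZMod 2} (hφ : Iv Γ' φ) {g : X ≃ᵢ X} (hg : g ∈ Γ)
    (hg' : g ∉ Γ') (l : List X) : φ (l.map g) = φ (l.map τ) := by
  have h3 : g * τ⁻¹ ∈ Γ' :=
    h.mul hg (Γ.inv_mem h.mem) hg' fun h4 => h.nmem (by simpa using Γ'.inv_mem h4)
  have h4 : g = g * τ⁻¹ * τ := by group
  conv_lhs => rw [h4]
  rw [← map_mul, hφ _ h3]

/-- a class of `Γ` which dies in the subgroup is a multiple of `w` -/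
theorem gys2 (h : Idx2 Γ Γ' τ) (hA : IvS Γ A) (hD : IvS Γ D) {s : X → ZMod 2}
    (hs : IsS Γ Γ' A s) {n : ℕ} {φ : List X → ZMod 2} (hφ : φ ∈ Cyc Γ D (n + 1) A)
    (hφ' : φ ∈ Bnd Γ' D (n + 1) A) :
    ∃ y ∈ Cyc Γ D n A, φ + cup 1 (wc A s) y ∈ Bnd Γ D (n + 1) A := by
  obtain ⟨_, ψ, h2, h3, h5⟩ := mem_Bnd_succ.mp hφ'
  have hy1 : Iv Γ (trc τ ψ) := trc_iv h h2
  have hy2 : Z0 (n + 1) (A ∩ D) (trc τ ψ) := Z0.trc (hA.inter hD) h.mem h3
  have hy3 : Z0 (n + 2) A (dd (trc τ ψ)) := by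
    have h6 : dd (trc τ ψ) = trc τ (φ + dd ψ) := by
      rw [dd_trc]
      funext l
      simp only [trc, Pi.add_apply]
      rw [hφ.1 τ h.mem l]
      have := z2_add_self (φ l)
      linear_combination -this
    rw [h6]
    exact Z0.trc hA h.mem h5
  refine ⟨trc τ ψ, ⟨hy1, hy2, hy3⟩, mem_Bnd_succ.mpr ⟨?_, cut A (ψ + sc s (trc τ ψ)), ?_, ?_, ?_⟩⟩
  · exact hφ.1.add (cup_iv 1 (wc_iv hA hs) hy1)
  · refine cut_iv hA fun g hg l hl => ?_
    classical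
    rw [Pi.add_apply, Pi.add_apply]
    by_cases hg' : g ∈ Γ'
    · rw [h2 g hg', sc_map' hs hg hg' _ hl (hy1 g hg l)]
    · rw [sc_map hs hg _ hl (hy1 g hg l) (fun h0 => by rw [h0]; exact z2_add_self _), if_neg hg',
        other h h2 hg hg' l]
      have h7 : trc τ ψ l = ψ l + ψ (l.map τ) := rfl
      have h8 := z2_add_self (ψ (l.map τ))
      rw [h7]
      linear_combination h8
  · obtain ⟨ε, hε, h6⟩ := h3.add (ψ := trc τ ψ) hy2
    obtain ⟨δ, hδ, h7⟩ := hy2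
    refine ⟨min ε δ, lt_min hε hδ, fun l hl hsm => ?_⟩
    have h8 := h6 l hl (hsm.eps (min_le_left _ _))
    have h9 := h7 l hl (hsm.eps (min_le_right _ _))
    rw [Pi.add_apply, h9, add_zero] at h8
    rw [cut_eq fun x hx => (hsm.1 x hx).1, Pi.add_apply, h8, sc, h9, mul_zero, add_zero]
  · obtain ⟨ε, hε, h6⟩ := h5
    obtain ⟨δ, hδ, h7⟩ := hy3
    refine ⟨min ε δ, lt_min hε hδ, fun l hl hsm => ?_⟩
    have h8 := h6 l hl (hsm.eps (min_le_left _ _))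
    have h9 := h7 l hl (hsm.eps (min_le_right _ _))
    rw [Pi.add_apply] at h8
    rw [Pi.add_apply, Pi.add_apply, dd_cut hsm.1, dd_add', Pi.add_apply, dd_sc _ hsm.1 (by omega),
      sc, h9, mul_zero, add_zero]
    have h10 := z2_add_self (cup 1 (wc A s) (trc τ ψ) l)
    linear_combination h8 + h10

/-- in degree zero the restriction to the subgroup is injective -/
theorem gys2_zero {φ : List X → ZMod 2} (hφ : φ ∈ Cyc Γ D 0 A) (hφ' : φ ∈ Bnd Γ' D 0 A) :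
    φ ∈ Bnd Γ D 0 A := mem_Bnd_zero.mpr ⟨hφ.1, (mem_Bnd_zero.mp hφ').2⟩

/-- the transfer of an invariant cochain is zero -/
theorem trc_inv {φ : List X → ZMod 2} (hφ : Iv Γ φ) (hτ : τ ∈ Γ) : trc τ φ = 0 := by
  funext l
  rw [trc, hφ τ hτ, z2_add_self]
  rfl

/-- a class of the subgroup with transfer zero comes from `Γ` -/
theorem gys3 (h : Idx2 Γ Γ' τ) (hA : IvS Γ A) {s : X → ZMod 2}
    (hs : IsS Γ Γ' A s) {n : ℕ} {z : List X → ZMod 2} (hz : z ∈ Cyc Γ' D n A)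
    (hz' : trc τ z ∈ Bnd Γ D n A) : ∃ φ ∈ Cyc Γ D n A, z + φ ∈ Bnd Γ' D n A := by
  classical
  obtain ⟨_, ψ, h2, h3, h4, ⟨ε, hε, h5⟩⟩ := hz'
  set θ := cut A (sc s ψ) with hθ
  have hθ1 : Iv Γ' θ := cut_iv (fun g hg => hA g (h.le hg)) fun g hg l hl =>
    sc_map' hs (h.le hg) hg ψ hl (h2 g (h.le hg) l)
  have hθ2 : Z0 n (A ∩ D) θ := by
    obtain ⟨δ, hδ, h6⟩ := h3
    refine ⟨δ, hδ, fun l hl hsm => ?_⟩
    rw [hθ, cut_eq fun x hx => (hsm.1 x hx).1, sc, h6 l hl hsm, mul_zero]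
  have hθ3 : θ [] = 0 := by
    rw [hθ, cut_eq (by simp), sc, h4, mul_zero]
  have hθ4 : ∀ g ∈ Γ, g ∉ Γ' → ∀ m : List X, (∀ x ∈ m, x ∈ A) → θ (m.map g) = θ m + ψ m := by
    intro g hg hg' m hm
    rw [hθ, cut_eq hm, cut_eq ((mem_map_iff hA hg m).mpr hm),
      sc_map hs hg ψ hm (h2 g hg m) (fun h0 => by rw [h0, h4]), if_neg hg']
  have key : ∀ l : List X, l.length = n + 1 → Sml A ε l → ∀ g ∈ Γ,
      (z + dd θ) (l.map g) = (z + dd θ) l := by
    intro l hl hsm g hg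
    rw [Pi.add_apply, Pi.add_apply]
    by_cases hg' : g ∈ Γ'
    · rw [hz.1 g hg', hθ1.dd g hg']
    · rw [other h hz.1 hg hg' l, ← dd_map]
      have h6 : dd (fun m : List X => θ (m.map g)) l = dd (fun m => θ m + ψ m) l :=
        dd_congr fun m hm _ => hθ4 g hg hg' m fun x hx => hsm.1 x (hm.subset hx)
      rw [h6, dd_add]
      have h7 := h5 l hl hsm
      rw [Pi.add_apply, trc] at h7
      have h8 := z2_add_self (z l)
      linear_combination h7 - h8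
  obtain ⟨φ, hφ1, _, hφ3⟩ := exists_Iv hA (n + 1) hε key
  refine ⟨φ, ⟨hφ1, ?_, ?_⟩, ?_, θ, hθ1, hθ2, hθ3, ?_⟩
  · have h6 : φ = (z + dd θ) + (z + dd θ + φ) := by
      rw [← add_assoc, add_self, zero_add]
    rw [h6]
    exact (hz.2.1.add hθ2.dd).add (hφ3.mono Set.inter_subset_left)
  · have h6 : dd φ = dd z + dd (z + dd θ + φ) := by
      rw [dd_add', dd_add', dd_dd', add_zero, ← add_assoc, add_self, zero_add]
    rw [h6]
    exact hz.2.2.add hφ3.dd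
  · exact hz.1.add fun g hg l => hφ1 g (h.le hg) l
  · have h6 : z + φ + dd θ = z + dd θ + φ := by abel
    rw [h6]
    exact hφ3

/-- the product of `w` and a transfer is zero -/
theorem gys4 (h : Idx2 Γ Γ' τ) (hA : IvS Γ A) (hD : IvS Γ D) {s : X → ZMod 2}
    (hs : IsS Γ Γ' A s) {n : ℕ} {z : List X → ZMod 2} (hz : z ∈ Cyc Γ' D n A) :
    cup 1 (wc A s) (trc τ z) ∈ Bnd Γ D (n + 1) A := by
  have hy := trc_cyc h hA hD hz
  refine mem_Bnd_succ.mpr ⟨cup_iv 1 (wc_iv hA hs) hy.1, cut A (z + sc s (trc τ z)), ?_, ?_, ?_⟩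
  · refine cut_iv hA fun g hg l hl => ?_
    classical
    rw [Pi.add_apply, Pi.add_apply]
    by_cases hg' : g ∈ Γ'
    · rw [hz.1 g hg', sc_map' hs hg hg' _ hl (hy.1 g hg l)]
    · rw [sc_map hs hg _ hl (hy.1 g hg l) (fun h0 => by rw [h0]; exact z2_add_self _), if_neg hg',
        other h hz.1 hg hg' l]
      have h7 : trc τ z l = z l + z (l.map τ) := rfl
      have h8 := z2_add_self (z (l.map τ))
      rw [h7]
      linear_combination h8
  · obtain ⟨ε, hε, h6⟩ := hz.2.1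
    obtain ⟨δ, hδ, h7⟩ := hy.2.1
    refine ⟨min ε δ, lt_min hε hδ, fun l hl hsm => ?_⟩
    rw [cut_eq fun x hx => (hsm.1 x hx).1, Pi.add_apply, h6 l hl (hsm.eps (min_le_left _ _)), sc,
      h7 l hl (hsm.eps (min_le_right _ _)), mul_zero, add_zero]
  · obtain ⟨ε, hε, h6⟩ := hz.2.2
    obtain ⟨δ, hδ, h7⟩ := hy.2.2
    refine ⟨min ε δ, lt_min hε hδ, fun l hl hsm => ?_⟩
    rw [Pi.add_apply, dd_cut hsm.1, dd_add', Pi.add_apply, dd_sc _ hsm.1 (by omega), sc,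
      h7 l hl (hsm.eps (min_le_right _ _)), h6 l hl (hsm.eps (min_le_left _ _)), mul_zero,
      add_zero, zero_add, z2_add_self]

/-- a class of `Γ` whose product with `w` is zero is a transfer -/
theorem gys5 (h : Idx2 Γ Γ' τ) (hA : IvS Γ A) {s : X → ZMod 2}
    (hs : IsS Γ Γ' A s) {n : ℕ} {φ : List X → ZMod 2} (hφ : φ ∈ Cyc Γ D n A)
    (hφ' : cup 1 (wc A s) φ ∈ Bnd Γ D (n + 1) A) :
    ∃ z ∈ Cyc Γ' D n A, φ + trc τ z ∈ Bnd Γ D n A := by
  classical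
  obtain ⟨_, θ, h2, ⟨ε, hε, h3⟩, ⟨δ, hδ, h5⟩⟩ := mem_Bnd_succ.mp hφ'
  obtain ⟨h6, ⟨ε', hε', h7⟩, ⟨δ', hδ', h8⟩⟩ := hφ
  have hz1 : Iv Γ' (cut A (sc s φ) + θ) := by
    refine Iv.add (cut_iv (fun g hg => hA g (h.le hg)) fun g hg l hl =>
      sc_map' hs (h.le hg) hg φ hl (h6 g (h.le hg) l)) fun g hg l => h2 g (h.le hg) l
  refine ⟨cut A (sc s φ) + θ, ⟨hz1, ⟨min ε ε', lt_min hε hε', fun l hl hsm => ?_⟩,
    ⟨min δ δ', lt_min hδ hδ', fun l hl hsm => ?_⟩⟩, ?_⟩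
  · rw [Pi.add_apply, cut_eq fun x hx => (hsm.1 x hx).1, sc,
      h7 l hl (hsm.eps (min_le_right _ _)), h3 l hl (hsm.eps (min_le_left _ _)), mul_zero, add_zero]
  · have h9 := h5 l hl (hsm.eps (min_le_left _ _))
    rw [Pi.add_apply] at h9
    rw [dd_add', Pi.add_apply, dd_cut hsm.1, dd_sc _ hsm.1 (by omega), sc,
      h8 l hl (hsm.eps (min_le_right _ _)), mul_zero, add_zero, h9]
  · refine Bnd_of_Z0 (h6.add (trc_iv h hz1)) ⟨1, one_pos, fun l hl hsm => ?_⟩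
    have hne : l ≠ [] := by
      intro h0
      rw [h0] at hl
      simp at hl
    have h9 : sc s φ (l.map τ) = sc s φ l + φ l := by
      rw [sc_map hs h.mem φ hsm.1 (h6 τ h.mem l) (fun h0 => (hne h0).elim), if_neg h.nmem]
    rw [Pi.add_apply, trc, Pi.add_apply, Pi.add_apply, cut_eq hsm.1,
      cut_eq ((mem_map_iff hA h.mem l).mpr hsm.1), h9, h2 τ h.mem l]
    have e1 := z2_add_self (φ l)
    have e2 := z2_add_self (sc s φ l)
    have e3 := z2_add_self (θ l)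
    linear_combination e1 + e2 + e3

end AS
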