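import Pool.Agent.Lib.AS.Defs

/-!
# The group `{1, -1}` on a normed space and the class `a`

`Pm E` is the group of the two isometries `x ↦ x`, `x ↦ -x` of the normed space `E`.  For a compact
symmetric set `C` without the origin `H (Pm E) ∅ n C` is the cohomology of `C / ±`, and `aa C` is the
class of the double covering `C → C / ±`.
-/

set_option autoImplicit false
set_option linter.unusedSectionVars false

namespace AS

section group

variable (E : Type) [NormedAddCommGroup E] [NormedSpace ℝ E]

/-- the antipodal map -/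
abbrev ng : E ≃ᵢ E := IsometryEquiv.neg E

variable {E} in
theorem ng_apply (x : E) : ng E x = -x := rfl

theorem ng_mul_self : ng E * ng E = 1 := by
  ext x
  show -(-x) = x
  rw [neg_neg]

/-- the group of the two isometries `x ↦ x`, `x ↦ -x` -/
def Pm : Subgroup (E ≃ᵢ E) where
  carrier := {g | g = 1 ∨ g = ng E}
  one_mem' := Or.inl rfl
  mul_mem' := by
    rintro a b (rfl | rfl) (rfl | rfl)
    · exact Or.inl (one_mul _)
    · exact Or.inr (one_mul _)
    · exact Or.inr (mul_one _)
    · exact Or.inl (ng_mul_self E)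
  inv_mem' := by
    rintro a (rfl | rfl)
    · exact Or.inl inv_one
    · exact Or.inr (inv_eq_of_mul_eq_one_left (ng_mul_self E))

variable {E}

theorem mem_Pm {g : E ≃ᵢ E} : g ∈ Pm E ↔ g = 1 ∨ g = ng E := Iff.rfl

theorem ng_mem : ng E ∈ Pm E := Or.inr rfl

theorem ivS_Pm {C : Set E} : IvS (Pm E) C ↔ ∀ x ∈ C, -x ∈ C := by
  constructor
  · intro h x hx
    exact h (ng E) ng_mem x hx
  · rintro h g (rfl | rfl) x hx
    · exact hx
    · exact h x hx

theorem map_ng (l : List E) : l.map (ng E) = l.map (fun x => -x) := rfl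

theorem iv_Pm {φ : List E → ZMod 2} : Iv (Pm E) φ ↔ ∀ l, φ (l.map fun x => -x) = φ l := by
  constructor
  · intro h l
    exact h (ng E) ng_mem l
  · rintro h g (rfl | rfl) l
    · have : l.map (1 : E ≃ᵢ E) = l := by
        conv_rhs => rw [← List.map_id l]
        rfl
      rw [this]
    · exact h l

/-! ### a choice of signs -/

open Classical in
/-- a function with `sg (-x) = 1 + sg x` for `x ≠ 0` -/
noncomputable def sg (x : E) : ZMod 2 := if WellOrderingRel x (-x) then 0 else 1

theorem sg_neg {x : E} (hx : x ≠ 0) : sg (-x) = 1 + sg x := by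
  have hne : x ≠ -x := by
    intro h
    have h2 : x + x = 0 := by
      nth_rewrite 2 [h]
      exact add_neg_cancel x
    rw [← two_smul ℝ x, smul_eq_zero] at h2
    rcases h2 with h2 | h2
    · norm_num at h2
    · exact hx h2
  unfold sg
  rw [neg_neg]
  rcases trichotomous_of WellOrderingRel x (-x) with h | h | h
  · have h' : ¬ WellOrderingRel (-x) x := asymm_of WellOrderingRel h
    rw [if_neg h', if_pos h, add_zero]
  · exact (hne h).elim
  · have h' : ¬ WellOrderingRel x (-x) := asymm_of WellOrderingRel h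
    rw [if_pos h, if_neg h']
    decide

open Classical in
/-- the cocycle of the class `a`: `sg x + sg y` on lists `[x, y]` without `0` -/
noncomputable def aac (l : List E) : ZMod 2 :=
  if l.length = 2 ∧ (0 : E) ∉ l then (l.map sg).sum else 0

theorem aac_pair {x y : E} (hx : x ≠ 0) (hy : y ≠ 0) : aac [x, y] = sg x + sg y := by
  unfold aac
  rw [if_pos]
  · simp
  · refine ⟨rfl, ?_⟩
    rw [List.mem_cons, List.mem_singleton]
    rintro (h | h)
    · exact hx h.symm
    · exact hy h.symm

theorem aac_iv : Iv (Pm E) (aac : List E → ZMod 2) := by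
  rw [iv_Pm]
  intro l
  unfold aac
  have h1 : (l.map fun x => -x).length = 2 ∧ (0 : E) ∉ (l.map fun x => -x) ↔
      l.length = 2 ∧ (0 : E) ∉ l := by
    rw [List.length_map, List.mem_map]
    have : (∃ a ∈ l, -a = (0 : E)) ↔ (0 : E) ∈ l := by
      constructor
      · rintro ⟨a, ha, h⟩
        rw [neg_eq_zero] at h
        rwa [h] at ha
      · intro h
        exact ⟨0, h, neg_zero⟩
    rw [this]
  by_cases h : l.length = 2 ∧ (0 : E) ∉ l
  · rw [if_pos (h1.mpr h), if_pos h]
    obtain ⟨hl, h0⟩ := h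
    obtain ⟨x, y, rfl⟩ := List.length_eq_two.mp hl
    have hx : x ≠ 0 := fun h => h0 (by rw [h]; exact List.mem_cons_self)
    have hy : y ≠ 0 := fun h => h0 (by rw [h]; exact List.mem_cons_of_mem _ List.mem_cons_self)
    simp only [List.map_cons, List.map_nil, List.sum_cons, List.sum_nil, add_zero]
    rw [sg_neg hx, sg_neg hy]
    have h2 := z2_add_self (1 : ZMod 2)
    have h3 : 1 + sg x + (1 + sg y) = (1 + 1) + (sg x + sg y) := by ring
    rw [h3, h2, zero_add]
  · rw [if_neg (fun h' => h (h1.mp h')), if_neg h]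

theorem aac_dd {x y z : E} (hx : x ≠ 0) (hy : y ≠ 0) (hz : z ≠ 0) : dd aac [x, y, z] = 0 := by
  have h : dd (aac : List E → ZMod 2) [x, y, z] = aac [y, z] + (aac [x, z] + aac [x, y]) := by
    simp [dd]
  rw [h, aac_pair hy hz, aac_pair hx hz, aac_pair hx hy]
  have h1 := z2_add_self (sg x)
  have h2 := z2_add_self (sg y)
  have h3 := z2_add_self (sg z)
  have h4 : sg y + sg z + (sg x + sg z + (sg x + sg y)) =
      (sg x + sg x) + (sg y + sg y) + (sg z + sg z) := by ring
  rw [h4, h1, h2, h3]
  simp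

theorem aac_cyc {C : Set E} (hC : (0 : E) ∉ C) (D : Set E) (hD : C ∩ D = ∅) :
    (aac : List E → ZMod 2) ∈ Cyc (Pm E) D 1 C := by
  refine ⟨aac_iv, ?_, ⟨1, one_pos, ?_⟩⟩
  · exact Z0.empty 1 hD _
  · intro l hl hs
    obtain ⟨x, y, z, rfl⟩ := List.length_eq_three.mp hl
    have h : ∀ w ∈ [x, y, z], w ≠ 0 := fun w hw h => hC (h ▸ hs.1 w hw)
    exact aac_dd (h x (by simp)) (h y (by simp)) (h z (by simp))

/-- the class of the double covering -/
noncomputable def aa (C : Set E) (hC : (0 : E) ∉ C) : H (Pm E) ∅ 1 C :=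
  cl aac (aac_cyc hC ∅ (Set.inter_empty C))

theorem res_aa {A B : Set E} (hB : (0 : E) ∉ B) (h : A ⊆ B) (hA : (0 : E) ∉ A) :
    res h 1 (aa B hB) = aa A hA := by
  unfold aa
  rw [res_cl]

/-! ### powers of `a` -/

/-- the product of the numbers `sg x + sg y` over the consecutive entries `x, y` -/
noncomputable def pr : List E → ZMod 2
  | [] => 1
  | [_] => 1
  | x :: y :: l => (sg x + sg y) * pr (y :: l)

theorem pr_cons₂ (x y : E) (l : List E) : pr (x :: y :: l) = (sg x + sg y) * pr (y :: l) := rfl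

theorem sg_add_neg {x y : E} (hx : x ≠ 0) (hy : y ≠ 0) : sg (-x) + sg (-y) = sg x + sg y := by
  rw [sg_neg hx, sg_neg hy]
  have h2 := z2_add_self (1 : ZMod 2)
  have h3 : 1 + sg x + (1 + sg y) = (1 + 1) + (sg x + sg y) := by ring
  rw [h3, h2, zero_add]

theorem pr_neg : ∀ l : List E, (0 : E) ∉ l → pr (l.map fun x => -x) = pr l
  | [], _ => rfl
  | [_], _ => rfl
  | x :: y :: l, h => by
    have hx : x ≠ 0 := fun h' => h (by rw [h']; exact List.mem_cons_self)
    have hy : y ≠ 0 := fun h' => h (by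
      rw [h']; exact List.mem_cons_of_mem _ List.mem_cons_self)
    have ih := pr_neg (y :: l) (fun h' => h (List.mem_cons_of_mem _ h'))
    rw [List.map_cons, List.map_cons, pr_cons₂, sg_add_neg hx hy, pr_cons₂, ← ih, List.map_cons]

theorem pr_split : ∀ (p : ℕ) (l : List E), p < l.length →
    pr (l.take (p + 1)) * pr (l.drop p) = pr l
  | 0, [], h => by simp at h
  | 0, x :: l, _ => by
    rw [zero_add, List.take_succ_cons, List.take_zero, List.drop_zero]
    show 1 * _ = _
    rw [one_mul]
  | p + 1, [], h => by simp at h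
  | p + 1, [x], h => by simp at h
  | p + 1, x :: y :: l, h => by
    have ih := pr_split p (y :: l) (by simpa using h)
    rw [List.take_succ_cons, List.drop_succ_cons, List.take_succ_cons, pr_cons₂, mul_assoc,
      ← List.take_succ_cons, ih, pr_cons₂]

open Classical in
/-- the cocycle of the class `a^k` -/
noncomputable def apc (k : ℕ) (l : List E) : ZMod 2 :=
  if l.length = k + 1 ∧ (0 : E) ∉ l then pr l else 0

theorem apc_pos {k : ℕ} {l : List E} (h : l.length = k + 1) (h0 : (0 : E) ∉ l) :
    apc k l = pr l := if_pos ⟨h, h0⟩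

theorem apc_len {k : ℕ} {l : List E} (h : l.length ≠ k + 1) : apc k l = 0 :=
  if_neg fun h' => h h'.1

theorem apc_zero_mem {k : ℕ} {l : List E} (h : (0 : E) ∈ l) : apc k l = 0 :=
  if_neg fun h' => h'.2 h

theorem apc_one : (apc 1 : List E → ZMod 2) = aac := by
  funext l
  unfold apc aac
  by_cases h : l.length = 2 ∧ (0 : E) ∉ l
  · rw [if_pos h, if_pos h]
    obtain ⟨x, y, rfl⟩ := List.length_eq_two.mp h.1
    rw [pr_cons₂]
    show (sg x + sg y) * 1 = _
    simp
  · rw [if_neg h, if_neg h]

theorem apc_iv (k : ℕ) : Iv (Pm E) (apc k : List E → ZMod 2) := by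
  rw [iv_Pm]
  intro l
  have h1 : (0 : E) ∈ (l.map fun x => -x) ↔ (0 : E) ∈ l := by
    rw [List.mem_map]
    constructor
    · rintro ⟨a, ha, h⟩
      rw [neg_eq_zero] at h
      rwa [h] at ha
    · intro h
      exact ⟨0, h, neg_zero⟩
  by_cases h0 : (0 : E) ∈ l
  · rw [apc_zero_mem h0, apc_zero_mem (h1.mpr h0)]
  by_cases hl : l.length = k + 1
  · rw [apc_pos hl h0, apc_pos (by rw [List.length_map, hl]) (fun h => h0 (h1.mp h)), pr_neg l h0]
  · rw [apc_len hl, apc_len (by rwa [List.length_map])]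

/-- `a^p a^q = a^(p+q)` for the cocycles -/
theorem cup_apc (p q : ℕ) (l : List E) : cup p (apc p) (apc q) l = apc (p + q) l := by
  unfold cup
  by_cases hl : l.length = p + q + 1
  · by_cases h0 : (0 : E) ∈ l
    · rw [apc_zero_mem h0]
      have h1 : l = l.take p ++ l.drop p := (List.take_append_drop p l).symm
      rw [h1, List.mem_append] at h0
      rcases h0 with h0 | h0
      · have h2 : (0 : E) ∈ l.take (p + 1) := (List.take_subset_take_left l (Nat.le_succ p)) h0
        rw [apc_zero_mem h2, zero_mul]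
      · rw [apc_zero_mem h0, mul_zero]
    · rw [apc_pos hl h0, apc_pos (by rw [List.length_take]; omega)
        (fun h => h0 (List.mem_of_mem_take h)), apc_pos (by rw [List.length_drop]; omega)
        (fun h => h0 (List.mem_of_mem_drop h))]
      exact pr_split p l (by omega)
  · rw [apc_len hl, apc_len (k := q), mul_zero]
    rw [List.length_drop]
    omega

theorem dd_apc (k : ℕ) : ∀ l : List E, l.length = k + 2 → (0 : E) ∉ l → dd (apc k) l = 0 := by
  induction k with
  | zero =>
    intro l hl h0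
    obtain ⟨x, y, rfl⟩ := List.length_eq_two.mp hl
    have hx : (0 : E) ∉ [x] := fun h => h0 (by
      rw [List.mem_singleton.mp h]; exact List.mem_cons_self)
    have hy : (0 : E) ∉ [y] := fun h => h0 (List.mem_cons_of_mem _ h)
    have h1 : dd (apc 0) [x, y] = apc 0 [y] + apc 0 [x] := by simp [dd]
    have h2 : apc 0 [x] = pr [x] := apc_pos rfl hx
    have h3 : apc 0 [y] = pr [y] := apc_pos rfl hy
    rw [h1, h2, h3]
    show (1 : ZMod 2) + 1 = 0
    decide
  | succ k ih =>
    intro l hl h0
    have h1 : dd (apc (k + 1)) l = dd (cup 1 (apc 1) (apc k)) l :=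
      dd_congr fun m _ _ => by rw [cup_apc, Nat.add_comm 1 k]
    rw [h1, leibniz 1 _ _ l (by omega), apc_one]
    have h2 : cup (1 + 1) (dd aac) (apc k) l = 0 := by
      unfold cup
      have h3 : dd (aac : List E → ZMod 2) (l.take 3) = 0 := by
        have h5 : (l.take 3).length = 3 := by
          rw [List.length_take]
          omega
        obtain ⟨x, y, z, hxyz⟩ := List.length_eq_three.mp h5
        have h4 : ∀ w ∈ l.take 3, w ≠ 0 := fun w hw h => h0 (List.mem_of_mem_take (h ▸ hw))
        rw [hxyz] at h4 ⊢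
        exact aac_dd (h4 x (by simp)) (h4 y (by simp)) (h4 z (by simp))
      rw [h3, zero_mul]
    have h3 : cup 1 aac (dd (apc k)) l = 0 := by
      unfold cup
      rw [ih (l.drop 1) (by rw [List.length_drop]; omega) (fun h => h0 (List.mem_of_mem_drop h)),
        mul_zero]
    rw [h2, h3, add_zero]

theorem apc_cyc (k : ℕ) {C : Set E} (hC : (0 : E) ∉ C) (D : Set E) (hD : C ∩ D = ∅) :
    (apc k : List E → ZMod 2) ∈ Cyc (Pm E) D k C :=
  ⟨apc_iv k, Z0.empty k hD _, ⟨1, one_pos, fun l hl hs =>
    dd_apc k l hl fun h => hC (hs.1 0 h)⟩⟩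

/-- the class `a^k` -/
noncomputable def ap (k : ℕ) (C : Set E) (hC : (0 : E) ∉ C) : H (Pm E) ∅ k C :=
  cl (apc k) (apc_cyc k hC ∅ (Set.inter_empty C))

theorem res_ap (k : ℕ) {A B : Set E} (hB : (0 : E) ∉ B) (h : A ⊆ B) (hA : (0 : E) ∉ A) :
    res h k (ap k B hB) = ap k A hA := by
  unfold ap
  rw [res_cl]

end group

end AS
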