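import Pool.Agent.Lib.AS.Gys
import Pool.Agent.Lib.AS.Pm

/-!
# The Gysin sequence on classes

`rst`: restriction to the subgroup, `trH`: transfer, `ww`: the class of degree one.
-/

set_option autoImplicit false

namespace AS

variable {X : Type} [MetricSpace X] {Γ Γ' : Subgroup (X ≃ᵢ X)} {τ : X ≃ᵢ X} {A D : Set X}

/-- restriction of classes to a subgroup -/
noncomputable def rst (h : Γ' ≤ Γ) (D : Set X) (n : ℕ) (A : Set X) : H Γ D n A →+ H Γ' D n A :=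
  pull (fun x => x) (Adm.id' h (Set.Subset.refl A) fun _ _ hx => hx) n

theorem iv_le (h : Γ' ≤ Γ) {φ : List X → ZMod 2} (hφ : Iv Γ φ) : Iv Γ' φ :=
  fun g hg l => hφ g (h hg) l

theorem cyc_le (h : Γ' ≤ Γ) {n : ℕ} {φ : List X → ZMod 2} (hφ : φ ∈ Cyc Γ D n A) :
    φ ∈ Cyc Γ' D n A := ⟨iv_le h hφ.1, hφ.2⟩

theorem rst_cl (h : Γ' ≤ Γ) {n : ℕ} {φ : List X → ZMod 2} (hφ : φ ∈ Cyc Γ D n A) :
    rst h D n A (cl φ hφ) = cl φ (cyc_le h hφ) := by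
  unfold rst
  rw [pull_cl]
  congr 1
  funext l
  rw [List.map_id']

theorem rst_res (h : Γ' ≤ Γ) {B : Set X} (hAB : A ⊆ B) {n : ℕ} (x : H Γ D n B) :
    rst h D n A (res hAB n x) = res hAB n (rst h D n B x) := by
  obtain ⟨φ, hφ, rfl⟩ := cl_surj x
  rw [res_cl, rst_cl, rst_cl, res_cl]

/-- the transfer of classes -/
noncomputable def trH (h : Idx2 Γ Γ' τ) (hA : IvS Γ A) (hD : IvS Γ D) (n : ℕ) :
    H Γ' D n A →+ H Γ D n A :=
  QuotientAddGroup.map _ _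
    ({ toFun := fun φ => ⟨trc τ φ.1, trc_cyc h hA hD φ.2⟩
       map_zero' := by
         apply Subtype.ext
         funext l
         exact z2_add_self 0
       map_add' := fun φ ψ => by
         apply Subtype.ext
         funext l
         change (φ.1 l + ψ.1 l) + (φ.1 (l.map τ) + ψ.1 (l.map τ)) =
           (φ.1 l + φ.1 (l.map τ)) + (ψ.1 l + ψ.1 (l.map τ))
         ring } : ↥(Cyc Γ' D n A) →+ ↥(Cyc Γ D n A))
    (by
      rintro ⟨φ, hφ⟩ h'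
      rw [AddSubgroup.mem_addSubgroupOf] at h'
      exact trc_bnd h hA hD h')

theorem trH_cl (h : Idx2 Γ Γ' τ) (hA : IvS Γ A) (hD : IvS Γ D) {n : ℕ} {φ : List X → ZMod 2}
    (hφ : φ ∈ Cyc Γ' D n A) : trH h hA hD n (cl φ hφ) = cl (trc τ φ) (trc_cyc h hA hD hφ) := rfl

theorem trH_res (h : Idx2 Γ Γ' τ) {B : Set X} (hA : IvS Γ A) (hB : IvS Γ B) (hD : IvS Γ D)
    (hAB : A ⊆ B) {n : ℕ} (x : H Γ' D n B) :
    trH h hA hD n (res hAB n x) = res hAB n (trH h hB hD n x) := by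
  obtain ⟨φ, hφ, rfl⟩ := cl_surj x
  rw [res_cl, trH_cl, trH_cl, res_cl]

/-- the class of degree one given by `s` -/
noncomputable def ww (hA : IvS Γ A) {s : X → ZMod 2} (hs : IsS Γ Γ' A s) : H Γ ∅ 1 A :=
  cl (wc A s) (wc_cyc hA hs)

theorem ww_unique (hA : IvS Γ A) {s s' : X → ZMod 2} (hs : IsS Γ Γ' A s) (hs' : IsS Γ Γ' A s') :
    ww hA hs = ww hA hs' := (cl_eq_cl _ _).mpr (wc_unique hA hs hs')

theorem IsS.mono {B : Set X} (hAB : A ⊆ B) {s : X → ZMod 2} (hs : IsS Γ Γ' B s) :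
    IsS Γ Γ' A s := fun g hg x hx => hs g hg x (hAB hx)

theorem res_ww {B : Set X} (hA : IvS Γ A) (hB : IvS Γ B) (hAB : A ⊆ B) {s : X → ZMod 2}
    (hs : IsS Γ Γ' B s) : res hAB 1 (ww hB hs) = ww hA (hs.mono hAB) := by
  unfold ww
  rw [res_cl, cl_eq_cl]
  refine Bnd_of_Z0 ((wc_iv hB hs).add (wc_iv hA (hs.mono hAB))) ⟨1, one_pos, fun l hl hsm => ?_⟩
  rw [Pi.add_apply, wc_two hl hsm.1, wc_two hl fun x hx => hAB (hsm.1 x hx), z2_add_self]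

theorem cupw_cl (hA : IvS Γ A) {s : X → ZMod 2} (hs : IsS Γ Γ' A s) {n : ℕ}
    {φ : List X → ZMod 2} (hφ : φ ∈ Cyc Γ D n A) :
    cupH D (n + 1) (ww hA hs) (cl φ hφ) = cl (cup 1 (wc A s) φ) (cupw_cyc hA hs hφ) :=
  cupH_cl (add_comm 1 n) (Or.inr Set.inter_subset_right) _ _

/-! ### exactness -/

theorem gysA (h : Idx2 Γ Γ' τ) (hA : IvS Γ A) (hD : IvS Γ D) {s : X → ZMod 2}
    (hs : IsS Γ Γ' A s) {n : ℕ} (x : H Γ D (n + 1) A) (hx : rst h.le D (n + 1) A x = 0) :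
    ∃ y : H Γ D n A, x = cupH D (n + 1) (ww hA hs) y := by
  obtain ⟨φ, hφ, rfl⟩ := cl_surj x
  rw [rst_cl, cl_eq_zero] at hx
  obtain ⟨y, hy, h1⟩ := gys2 h hA hD hs hφ hx
  refine ⟨cl y hy, ?_⟩
  rw [cupw_cl, cl_eq_cl]
  exact h1

theorem gysA0 (h : Γ' ≤ Γ) (x : H Γ D 0 A) (hx : rst h D 0 A x = 0) : x = 0 := by
  obtain ⟨φ, hφ, rfl⟩ := cl_surj x
  rw [rst_cl, cl_eq_zero] at hx
  rw [cl_eq_zero]
  exact gys2_zero hφ hx

theorem gysA' (h : Idx2 Γ Γ' τ) (hA : IvS Γ A) {s : X → ZMod 2} (hs : IsS Γ Γ' A s) {n : ℕ}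
    (y : H Γ D n A) : rst h.le D (n + 1) A (cupH D (n + 1) (ww hA hs) y) = 0 := by
  obtain ⟨φ, hφ, rfl⟩ := cl_surj y
  rw [cupw_cl, rst_cl, cl_eq_zero]
  exact gys1 h hA hs hφ

theorem gysB (h : Idx2 Γ Γ' τ) (hA : IvS Γ A) (hD : IvS Γ D) {s : X → ZMod 2}
    (hs : IsS Γ Γ' A s) {n : ℕ} (z : H Γ' D n A) (hz : trH h hA hD n z = 0) :
    ∃ x : H Γ D n A, rst h.le D n A x = z := by
  obtain ⟨φ, hφ, rfl⟩ := cl_surj z
  rw [trH_cl, cl_eq_zero] at hz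
  obtain ⟨y, hy, h1⟩ := gys3 h hA hs hφ hz
  refine ⟨cl y hy, ?_⟩
  rw [rst_cl, cl_eq_cl, add_comm]
  exact h1

theorem gysB' (h : Idx2 Γ Γ' τ) (hA : IvS Γ A) (hD : IvS Γ D) {n : ℕ} (x : H Γ D n A) :
    trH h hA hD n (rst h.le D n A x) = 0 := by
  obtain ⟨φ, hφ, rfl⟩ := cl_surj x
  rw [rst_cl, trH_cl, cl_eq_zero, trc_inv hφ.1 h.mem]
  exact (Bnd Γ D n A).zero_mem

theorem gysC (h : Idx2 Γ Γ' τ) (hA : IvS Γ A) (hD : IvS Γ D) {s : X → ZMod 2}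
    (hs : IsS Γ Γ' A s) {n : ℕ} (x : H Γ D n A) (hx : cupH D (n + 1) (ww hA hs) x = 0) :
    ∃ z : H Γ' D n A, trH h hA hD n z = x := by
  obtain ⟨φ, hφ, rfl⟩ := cl_surj x
  rw [cupw_cl, cl_eq_zero] at hx
  obtain ⟨z, hz, h1⟩ := gys5 h hA hs hφ hx
  refine ⟨cl z hz, ?_⟩
  rw [trH_cl, cl_eq_cl, add_comm]
  exact h1

theorem gysC' (h : Idx2 Γ Γ' τ) (hA : IvS Γ A) (hD : IvS Γ D) {s : X → ZMod 2}
    (hs : IsS Γ Γ' A s) {n : ℕ} (z : H Γ' D n A) :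
    cupH D (n + 1) (ww hA hs) (trH h hA hD n z) = 0 := by
  obtain ⟨φ, hφ, rfl⟩ := cl_surj z
  rw [trH_cl, cupw_cl, cl_eq_zero]
  exact gys4 h hA hD hs hφ

/-! ### the antipodal group -/

section antipodal

variable {E : Type} [NormedAddCommGroup E] [NormedSpace ℝ E]

/-- the antipodal map is not the identity if there is a nonzero vector -/
theorem idx2_Pm {v : E} (hv : v ≠ 0) : Idx2 (Pm E) ⊥ (ng E) := by
  have hne : ng E ≠ 1 := by
    intro h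
    have h1 : ng E v = v := by rw [h]; rfl
    rw [ng_apply] at h1
    have h2 : v + v = 0 := by
      nth_rewrite 1 [← h1]
      exact neg_add_cancel v
    rw [← two_smul ℝ v, smul_eq_zero] at h2
    rcases h2 with h2 | h2
    · norm_num at h2
    · exact hv h2
  refine ⟨bot_le, ng_mem, fun h => hne (Subgroup.mem_bot.mp h), fun g hg hg' => ?_⟩
  rcases hg with rfl | rfl
  · exact (hg' (Subgroup.one_mem _)).elim
  · rw [inv_mul_cancel]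
    exact Subgroup.one_mem _

theorem isS_sg {A : Set E} (hA : (0 : E) ∉ A) (h : ng E ∉ (⊥ : Subgroup (E ≃ᵢ E))) :
    IsS (Pm E) ⊥ A sg := by
  classical
  rintro g (rfl | rfl) x hx
  · rw [if_pos (Subgroup.one_mem _), add_zero]
    rfl
  · rw [if_neg h, ng_apply, sg_neg (fun h0 => hA (h0 ▸ hx)), add_comm]

/-- the class `a` is the class of degree one of the Gysin sequence -/
theorem ww_sg {A : Set E} (hA : IvS (Pm E) A) (h0 : (0 : E) ∉ A)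
    (hs : IsS (Pm E) ⊥ A sg) : ww hA hs = aa A h0 := by
  unfold ww aa
  rw [cl_eq_cl]
  refine Bnd_of_Z0 ((wc_iv hA hs).add aac_iv) ⟨1, one_pos, fun l hl hsm => ?_⟩
  obtain ⟨x, y, rfl⟩ := List.length_eq_two.mp hl
  have hx : x ≠ 0 := fun h => h0 (h ▸ hsm.1 x (by simp))
  have hy : y ≠ 0 := fun h => h0 (h ▸ hsm.1 y (by simp))
  rw [Pi.add_apply, wc_two hl hsm.1, aac_pair hx hy]
  simp only [dd, c0, add_zero]
  have h1 := z2_add_self (sg x)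
  have h2 := z2_add_self (sg y)
  linear_combination h1 + h2

theorem ap_one_eq {A : Set E} (h0 : (0 : E) ∉ A) : ap 1 A h0 = aa A h0 := by
  unfold ap aa
  congr 1
  exact apc_one

/-- `a^p a^q = a^(p+q)` -/
theorem cupH_ap {A : Set E} (h0 : (0 : E) ∉ A) {p q n : ℕ} (h : p + q = n) :
    cupH ∅ n (ap p A h0) (ap q A h0) = ap n A h0 := by
  subst h
  unfold ap
  rw [cupH_cl rfl (Or.inl Set.inter_subset_right)]
  congr 1
  funext l
  exact cup_apc p q l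

theorem ap_zero_eq {A : Set E} (h0 : (0 : E) ∉ A) : ap 0 A h0 = one (Pm E) A := by
  unfold ap one
  rw [cl_eq_cl]
  refine Bnd_of_Z0 ((apc_iv 0).add fun _ _ _ => rfl) ⟨1, one_pos, fun l hl hsm => ?_⟩
  rw [Pi.add_apply, apc_pos hl fun h => h0 (hsm.1 0 h)]
  obtain ⟨x, rfl⟩ := List.length_eq_one_iff.mp hl
  exact z2_add_self 1

theorem rst_one {X : Type} [MetricSpace X] {Γ Γ' : Subgroup (X ≃ᵢ X)} {A : Set X} (h : Γ' ≤ Γ) :
    rst h ∅ 0 A (one Γ A) = one Γ' A := rfl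

end antipodal

end AS
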