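import Pool.Agent.Lib.AS.SpecLG

/-!
# Stability under close maps, homotopy invariance, contractible sets

`pull_close`: two maps which are uniformly close have the same pullback of a given class.
`pull_homotopy`, `pull_homotopy'`: homotopy invariance (equivariant, for pairs).
`res_bij_of_deformation`: weak deformation retracts.
`acy_of_contractible`, `acy_of_convex`: contractible compact sets are acyclic.
-/

set_option autoImplicit false

namespace AS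

theorem hc_pp_zero {X Y : Type} (f g : X → Y) (l : List X) :
    pp f g (0 : List Y → ZMod 2) l = 0 := by
  induction l with
  | nil => rfl
  | cons x l ih =>
    rw [pp_cons]
    have h : (fun m : List Y => (0 : List Y → ZMod 2) (f x :: m)) = 0 := rfl
    rw [h, ih]
    simp

section close

variable {Y : Type} [MetricSpace Y]

/-- **Stability under close maps.** -/
theorem pull_close {Γ' : Subgroup (Y ≃ᵢ Y)} {D' C' : Set Y} {n : ℕ} (y : H Γ' D' n C') :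
    ∃ η > 0, ∀ (X : Type) [MetricSpace X] (Γ : Subgroup (X ≃ᵢ X)) (D C : Set X) (f k : X → Y)
      (hf : Adm Γ D C Γ' D' C' f) (hk : Adm Γ D C Γ' D' C' k),
      (∀ g ∈ Γ, ∃ g' ∈ Γ', ∀ x, f (g x) = g' (f x) ∧ k (g x) = g' (k x)) →
      (∀ x ∈ C, dist (f x) (k x) < η) → pull f hf n y = pull k hk n y := by
  obtain ⟨φ, hφ, rfl⟩ := cl_surj y
  obtain ⟨h1, ⟨ε₁, hε₁, h2⟩, ⟨ε₂, hε₂, h3⟩⟩ := mem_Cyc.mp hφ
  have hε : 0 < min ε₁ ε₂ := lt_min hε₁ hε₂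
  have hε1 : min ε₁ ε₂ ≤ ε₁ := min_le_left _ _
  have hε2 : min ε₁ ε₂ ≤ ε₂ := min_le_right _ _
  generalize min ε₁ ε₂ = ε at hε hε1 hε2
  refine ⟨ε / 4, by positivity, ?_⟩
  intro X _ Γ D C f k hf hk heq hd
  rw [pull_cl, pull_cl, cl_eq_cl]
  obtain ⟨δ₁, hδ₁, h4⟩ := hf.uc (ε / 4) (by positivity)
  obtain ⟨δ₂, hδ₂, h5⟩ := hk.uc (ε / 4) (by positivity)
  -- lists with entries in `f l` and `k l`
  have key : ∀ (l : List X), Sml C (min δ₁ δ₂) l → ∀ m : List Y,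
      (∀ z ∈ m, ∃ x ∈ l, z = f x ∨ z = k x) → Sml C' ε m := by
    intro l hl m hm
    refine ⟨fun z hz => ?_, fun z hz w hw => ?_⟩
    · obtain ⟨x, hx, rfl | rfl⟩ := hm z hz
      · exact hf.maps x (hl.1 x hx)
      · exact hk.maps x (hl.1 x hx)
    · obtain ⟨x, hx, hzx⟩ := hm z hz
      obtain ⟨x', hx', hwx⟩ := hm w hw
      have e1 := h4 x (hl.1 x hx) x' (hl.1 x' hx') ((hl.2 x hx x' hx').trans_le (min_le_left _ _))
      have e2 := h5 x (hl.1 x hx) x' (hl.1 x' hx') ((hl.2 x hx x' hx').trans_le (min_le_right _ _))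
      have e3 := hd x (hl.1 x hx)
      have e4 := hd x' (hl.1 x' hx')
      rcases hzx with rfl | rfl <;> rcases hwx with rfl | rfl
      · linarith
      · have := dist_triangle (f x) (k x) (k x')
        linarith
      · have := dist_triangle (k x) (k x') (f x')
        rw [dist_comm (k x') (f x')] at this
        linarith
      · linarith
  refine ⟨Iv.add (hf.iv hφ.1) (hk.iv hφ.1), pp f k φ, ?_, ?_, pp_nil f k φ, ?_⟩
  · intro g hg l
    obtain ⟨g', hg', h6⟩ := heq g hg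
    exact pp_map f k g g' (fun x => (h6 x).1) (fun x => (h6 x).2) (fun m => h1 g' hg' m) l
  · refine ⟨min δ₁ δ₂, lt_min hδ₁ hδ₂, fun l hl hs => ?_⟩
    rw [← hc_pp_zero f k l]
    apply pp_congr
    intro m hm hm'
    have h7 := key l (hs.mono (fun _ h => h) Set.inter_subset_left le_rfl) m hm'
    refine h2 m (by omega) ⟨fun z hz => ⟨h7.1 z hz, ?_⟩, fun z hz w hw =>
      (h7.2 z hz w hw).trans_le hε1⟩
    obtain ⟨x, hx, rfl | rfl⟩ := hm' z hz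
    · exact hf.mapsD x (hs.1 x hx).1 (hs.1 x hx).2
    · exact hk.mapsD x (hs.1 x hx).1 (hs.1 x hx).2
  · refine ⟨min δ₁ δ₂, lt_min hδ₁ hδ₂, fun l hl hs => ?_⟩
    have h8 : pp f k (dd φ) l = 0 := by
      rw [← hc_pp_zero f k l]
      apply pp_congr
      intro m hm hm'
      have h7 := key l hs m hm'
      exact h3 m (by omega) (h7.eps hε2)
    have h9 := prism f k φ l
    rw [h8, add_zero] at h9
    rw [Pi.add_apply, Pi.add_apply, h9]
    exact z2_add_self _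

end close

section homotopy

variable {X Y : Type} [MetricSpace X] [MetricSpace Y]

/-- **Homotopy invariance**, with the uniform condition as hypothesis. -/
theorem pull_homotopy {Γ : Subgroup (X ≃ᵢ X)} {D C : Set X} {Γ' : Subgroup (Y ≃ᵢ Y)}
    {D' C' : Set Y} (F : ℝ → X → Y) (hF : ∀ t ∈ Set.Icc (0 : ℝ) 1, Adm Γ D C Γ' D' C' (F t))
    (heq : ∀ g ∈ Γ, ∃ g' ∈ Γ', ∀ t ∈ Set.Icc (0 : ℝ) 1, ∀ x, F t (g x) = g' (F t x))
    (hu : ∀ ε > 0, ∃ δ > 0, ∀ s ∈ Set.Icc (0 : ℝ) 1, ∀ t ∈ Set.Icc (0 : ℝ) 1, |s - t| < δ →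
      ∀ x ∈ C, dist (F s x) (F t x) < ε)
    (h0 : Adm Γ D C Γ' D' C' (F 0)) (h1 : Adm Γ D C Γ' D' C' (F 1)) (n : ℕ) (y : H Γ' D' n C') :
    pull (F 0) h0 n y = pull (F 1) h1 n y := by
  obtain ⟨η, hη, h2⟩ := pull_close y
  obtain ⟨δ, hδ, h3⟩ := hu η hη
  obtain ⟨N, hN⟩ := exists_nat_gt (1 / δ)
  have hN0 : (0 : ℝ) < N := lt_of_le_of_lt (by positivity) hN
  have hNδ : 1 / (N : ℝ) < δ := by
    rw [div_lt_iff₀ hN0]
    rw [div_lt_iff₀ hδ] at hN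
    linarith
  have hmem : ∀ k : ℕ, k ≤ N → (k : ℝ) / N ∈ Set.Icc (0 : ℝ) 1 := by
    intro k hk
    refine ⟨by positivity, ?_⟩
    rw [div_le_one hN0]
    exact_mod_cast hk
  have key : ∀ (k : ℕ) (hk : k ≤ N), pull (F 0) h0 n y =
      pull (F ((k : ℝ) / N)) (hF _ (hmem k hk)) n y := by
    intro k
    induction k with
    | zero =>
      intro hk
      have e : ((0 : ℕ) : ℝ) / N = 0 := by simp
      exact pull_congr _ _ (fun x _ => by rw [e]) y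
    | succ k ih =>
      intro hk
      rw [ih (by omega)]
      apply h2
      · intro g hg
        obtain ⟨g', hg', h4⟩ := heq g hg
        exact ⟨g', hg', fun x => ⟨h4 _ (hmem k (by omega)) x, h4 _ (hmem (k + 1) hk) x⟩⟩
      · intro x hx
        apply h3 _ (hmem k (by omega)) _ (hmem (k + 1) hk) _ x hx
        have e : (k : ℝ) / N - ((k + 1 : ℕ) : ℝ) / N = -(1 / N) := by
          push_cast
          ring
        rw [e, abs_neg, abs_of_pos (by positivity)]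
        exact hNδ
  rw [key N le_rfl]
  have e : (N : ℝ) / N = 1 := div_self hN0.ne'
  exact pull_congr _ _ (fun x _ => by rw [e]) y

/-- the conditions of `pull_homotopy` for a jointly continuous map on a compact set -/
theorem adm_of_cont {Γ : Subgroup (X ≃ᵢ X)} {D C : Set X} {Γ' : Subgroup (Y ≃ᵢ Y)}
    {D' C' : Set Y} {F : ℝ → X → Y} (hC : IsCompact C)
    (hF : ContinuousOn (fun p : ℝ × X => F p.1 p.2) (Set.Icc (0 : ℝ) 1 ×ˢ C))
    (hm : ∀ t ∈ Set.Icc (0 : ℝ) 1, ∀ x ∈ C, F t x ∈ C')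
    (hmD : ∀ t ∈ Set.Icc (0 : ℝ) 1, ∀ x ∈ C, x ∈ D → F t x ∈ D')
    (heq : ∀ g ∈ Γ, ∃ g' ∈ Γ', ∀ t ∈ Set.Icc (0 : ℝ) 1, ∀ x, F t (g x) = g' (F t x)) :
    (∀ t ∈ Set.Icc (0 : ℝ) 1, Adm Γ D C Γ' D' C' (F t)) ∧
    (∀ ε > 0, ∃ δ > 0, ∀ s ∈ Set.Icc (0 : ℝ) 1, ∀ t ∈ Set.Icc (0 : ℝ) 1, |s - t| < δ →
      ∀ x ∈ C, dist (F s x) (F t x) < ε) := by
  have hu := (isCompact_Icc.prod hC).uniformContinuousOn_of_continuous hF
  rw [Metric.uniformContinuousOn_iff] at hu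
  constructor
  · intro t ht
    refine ⟨hm t ht, hmD t ht, fun ε hε => ?_, fun g hg => ?_⟩
    · obtain ⟨δ, hδ, h1⟩ := hu ε hε
      refine ⟨δ, hδ, fun x hx y hy hxy => ?_⟩
      refine h1 (t, x) ⟨ht, hx⟩ (t, y) ⟨ht, hy⟩ ?_
      rw [Prod.dist_eq]
      refine max_lt ?_ hxy
      rw [dist_self]
      exact hδ
    · obtain ⟨g', hg', h1⟩ := heq g hg
      exact ⟨g', hg', fun x => h1 t ht x⟩
  · intro ε hε
    obtain ⟨δ, hδ, h1⟩ := hu ε hε
    refine ⟨δ, hδ, fun s hs t ht hst x hx => ?_⟩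
    refine h1 (s, x) ⟨hs, hx⟩ (t, x) ⟨ht, hx⟩ ?_
    rw [Prod.dist_eq]
    refine max_lt (by rw [Real.dist_eq]; exact hst) ?_
    rw [dist_self]
    exact hδ

/-- **Homotopy invariance** for jointly continuous homotopies on a compact set. -/
theorem pull_homotopy' {Γ : Subgroup (X ≃ᵢ X)} {D C : Set X} {Γ' : Subgroup (Y ≃ᵢ Y)}
    {D' C' : Set Y} (F : ℝ → X → Y) (hC : IsCompact C)
    (hF : ContinuousOn (fun p : ℝ × X => F p.1 p.2) (Set.Icc (0 : ℝ) 1 ×ˢ C))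
    (hm : ∀ t ∈ Set.Icc (0 : ℝ) 1, ∀ x ∈ C, F t x ∈ C')
    (hmD : ∀ t ∈ Set.Icc (0 : ℝ) 1, ∀ x ∈ C, x ∈ D → F t x ∈ D')
    (heq : ∀ g ∈ Γ, ∃ g' ∈ Γ', ∀ t ∈ Set.Icc (0 : ℝ) 1, ∀ x, F t (g x) = g' (F t x))
    {f₀ f₁ : X → Y} (h0 : Adm Γ D C Γ' D' C' f₀) (h1 : Adm Γ D C Γ' D' C' f₁)
    (e0 : ∀ x ∈ C, F 0 x = f₀ x) (e1 : ∀ x ∈ C, F 1 x = f₁ x) (n : ℕ) (y : H Γ' D' n C') :
    pull f₀ h0 n y = pull f₁ h1 n y := by
  obtain ⟨h2, h3⟩ := adm_of_cont hC hF hm hmD heq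
  have hz : (0 : ℝ) ∈ Set.Icc (0 : ℝ) 1 := ⟨le_rfl, zero_le_one⟩
  have ho : (1 : ℝ) ∈ Set.Icc (0 : ℝ) 1 := ⟨zero_le_one, le_rfl⟩
  rw [← pull_congr (h2 0 hz) h0 e0 y, ← pull_congr (h2 1 ho) h1 e1 y]
  exact pull_homotopy F h2 heq h3 _ _ n y

/-- **Weak deformation retracts**: `G 0 = id` on `C`, `G 1` maps `C` to `A`, all `G t` map `C` to `C`, `A` to
`A`, respect `D` and commute with the group. -/
theorem res_bij_of_deformation {Γ : Subgroup (X ≃ᵢ X)} {D A C : Set X} (hAC : A ⊆ C)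
    (G : ℝ → X → X) (hA : IsCompact A) (hC : IsCompact C)
    (hG : ContinuousOn (fun p : ℝ × X => G p.1 p.2) (Set.Icc (0 : ℝ) 1 ×ˢ C))
    (hm : ∀ t ∈ Set.Icc (0 : ℝ) 1, ∀ x ∈ C, G t x ∈ C)
    (hmA : ∀ t ∈ Set.Icc (0 : ℝ) 1, ∀ x ∈ A, G t x ∈ A)
    (hmD : ∀ t ∈ Set.Icc (0 : ℝ) 1, ∀ x ∈ C, x ∈ D → G t x ∈ D)
    (heq : ∀ g ∈ Γ, ∀ t ∈ Set.Icc (0 : ℝ) 1, ∀ x, G t (g x) = g (G t x))
    (e0 : ∀ x ∈ C, G 0 x = x) (e1 : ∀ x ∈ C, G 1 x ∈ A) (n : ℕ) :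
    Function.Bijective (res hAC n : H Γ D n C → H Γ D n A) := by
  have ho : (1 : ℝ) ∈ Set.Icc (0 : ℝ) 1 := ⟨zero_le_one, le_rfl⟩
  have heq' : ∀ g ∈ Γ, ∃ g' ∈ Γ, ∀ t ∈ Set.Icc (0 : ℝ) 1, ∀ x, G t (g x) = g' (G t x) :=
    fun g hg => ⟨g, hg, heq g hg⟩
  have h2 := (adm_of_cont (Γ := Γ) (D := D) (Γ' := Γ) (D' := D) (C' := C) hC hG hm hmD heq').1 1 ho
  have hr : Adm Γ D C Γ D A (G 1) := ⟨e1, h2.mapsD, h2.uc, h2.eqv⟩
  have hGA : ContinuousOn (fun p : ℝ × X => G p.1 p.2) (Set.Icc (0 : ℝ) 1 ×ˢ A) :=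
    hG.mono (Set.prod_mono le_rfl hAC)
  have hmDA : ∀ t ∈ Set.Icc (0 : ℝ) 1, ∀ x ∈ A, x ∈ D → G t x ∈ D :=
    fun t ht x hx => hmD t ht x (hAC hx)
  have h3 := (adm_of_cont (Γ := Γ) (D := D) (Γ' := Γ) (D' := D) (C' := A) hA hGA hmA hmDA heq').1
    1 ho
  constructor
  · rw [injective_iff_map_eq_zero]
    intro x hx
    have h4 : pull (fun x => x) (Adm.id' le_rfl le_rfl fun _ _ h => h) n x =
        pull (G 1) h2 n x :=
      pull_homotopy' (Γ := Γ) (D := D) (Γ' := Γ) (D' := D) (C' := C) G hC hG hm hmD heq' _ _ e0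
        (fun _ _ => rfl) n x
    have h5 : pull (G 1) h2 n x = pull (G 1) hr n (res hAC n x) := by
      unfold res
      rw [pull_pull]
    have h6 : pull (fun x => x) (Adm.id' le_rfl le_rfl fun _ _ h => h) n x = x :=
      res_self (Γ := Γ) (D := D) (Set.Subset.refl C) x
    rw [← h6, h4, h5, hx, map_zero]
  · intro y
    refine ⟨pull (G 1) hr n y, ?_⟩
    have h4 : pull (fun x => x) (Adm.id' le_rfl le_rfl fun _ _ h => h) n y =
        pull (G 1) h3 n y :=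
      pull_homotopy' (Γ := Γ) (D := D) (Γ' := Γ) (D' := D) (C' := A) G hA hGA hmA hmDA heq' _ _
        (fun x hx => e0 x (hAC hx)) (fun _ _ => rfl) n y
    have h6 : pull (fun x => x) (Adm.id' le_rfl le_rfl fun _ _ h => h) n y = y :=
      res_self (Γ := Γ) (D := D) (Set.Subset.refl A) y
    refine Eq.trans ?_ (h4.symm.trans h6)
    unfold res
    rw [pull_pull]

end homotopy

section contractible

variable {X : Type} [MetricSpace X]

theorem hc_res_one {Γ : Subgroup (X ≃ᵢ X)} {A C : Set X} (h : A ⊆ C) :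
    res h 0 (one Γ C) = one Γ A := by
  unfold one
  rw [res_cl]

/-- the cohomology of a point -/
theorem acy_point (n1 : N1) (n2 : N2) (Γ : Subgroup (X ≃ᵢ X)) (p : X) : Acy Γ {p} := by
  refine ⟨(n2 X Γ {p}).1 isPreconnected_singleton, (n2 X Γ {p}).2 ⟨p, rfl⟩, fun n x => ?_⟩
  exact n1 X Γ ∅ {p} n (Set.finite_singleton p) x

/-- **Contractible compact sets are acyclic.** -/
theorem acy_of_contractible (n1 : N1) (n2 : N2) {C : Set X} {p : X} (hp : p ∈ C)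
    (hC : IsCompact C) (G : ℝ → X → X)
    (hG : ContinuousOn (fun q : ℝ × X => G q.1 q.2) (Set.Icc (0 : ℝ) 1 ×ˢ C))
    (hm : ∀ t ∈ Set.Icc (0 : ℝ) 1, ∀ x ∈ C, G t x ∈ C)
    (e0 : ∀ x ∈ C, G 0 x = x) (e1 : ∀ x ∈ C, G 1 x = p) : Acy (⊥ : Subgroup (X ≃ᵢ X)) C := by
  have ho : (1 : ℝ) ∈ Set.Icc (0 : ℝ) 1 := ⟨zero_le_one, le_rfl⟩
  have hs : ({p} : Set X) ⊆ C := Set.singleton_subset_iff.mpr hp
  have heq' : ∀ g ∈ (⊥ : Subgroup (X ≃ᵢ X)), ∃ g' ∈ (⊥ : Subgroup (X ≃ᵢ X)),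
      ∀ t ∈ Set.Icc (0 : ℝ) 1, ∀ x, G t (g x) = g' (G t x) := by
    intro g hg
    refine ⟨1, Subgroup.one_mem _, fun t _ x => ?_⟩
    rw [Subgroup.mem_bot.mp hg]
    rfl
  have h2 := (adm_of_cont (Γ := ⊥) (D := ∅) (Γ' := ⊥) (D' := ∅) (C' := C) hC hG hm
    (fun _ _ _ _ h => h.elim) heq').1 1 ho
  have hr : Adm ⊥ ∅ C ⊥ ∅ {p} (G 1) := ⟨e1, h2.mapsD, h2.uc, h2.eqv⟩
  have key : ∀ (n : ℕ) (x : H (⊥ : Subgroup (X ≃ᵢ X)) ∅ n C), x = pull (G 1) hr n (res hs n x) := by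
    intro n x
    have h4 : pull (fun x => x) (Adm.id' le_rfl le_rfl fun _ _ h => h) n x =
        pull (G 1) h2 n x :=
      pull_homotopy' (Γ := ⊥) (D := ∅) (Γ' := ⊥) (D' := ∅) (C' := C) G hC hG hm
        (fun _ _ _ _ h => h.elim) heq' _ _ e0 (fun _ _ => rfl) n x
    have h5 : pull (G 1) h2 n x = pull (G 1) hr n (res hs n x) := by
      unfold res
      rw [pull_pull]
    have h6 : pull (fun x => x) (Adm.id' le_rfl le_rfl fun _ _ h => h) n x = x :=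
      res_self (Γ := ⊥) (D := ∅) (Set.Subset.refl C) x
    rw [← h5, ← h4, h6]
  obtain ⟨a1, _, a3⟩ := acy_point n1 n2 (⊥ : Subgroup (X ≃ᵢ X)) p
  refine ⟨fun x => ?_, (n2 X ⊥ C).2 ⟨p, hp⟩, fun n x => ?_⟩
  · rcases a1 (res hs 0 x) with h | h
    · left
      rw [key 0 x, h, map_zero]
    · right
      rw [key 0 x, h, ← hc_res_one hs, ← key 0]
  · rw [key (n + 1) x, a3 n (res hs (n + 1) x), map_zero]

/-- **Convex compact sets are acyclic.** -/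
theorem acy_of_convex (n1 : N1) (n2 : N2) {E : Type} [NormedAddCommGroup E] [NormedSpace ℝ E]
    {C : Set E} (hC : IsCompact C) (hc : Convex ℝ C) (hne : C.Nonempty) :
    Acy (⊥ : Subgroup (E ≃ᵢ E)) C := by
  obtain ⟨p, hp⟩ := hne
  refine acy_of_contractible n1 n2 hp hC (fun t x => (1 - t) • x + t • p) ?_ ?_ ?_ ?_
  · apply Continuous.continuousOn
    fun_prop
  · intro t ht x hx
    exact hc hx hp (by linarith [ht.2]) ht.1 (by ring)
  · intro x _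
    simp
  · intro x _
    simp

/-- **Star-shaped compact sets are acyclic.** -/
theorem acy_of_starConvex (n1 : N1) (n2 : N2) {E : Type} [NormedAddCommGroup E] [NormedSpace ℝ E]
    {C : Set E} {p : E} (hC : IsCompact C) (hp : p ∈ C) (hc : StarConvex ℝ p C) :
    Acy (⊥ : Subgroup (E ≃ᵢ E)) C := by
  refine acy_of_contractible n1 n2 hp hC (fun t x => t • p + (1 - t) • x) ?_ ?_ ?_ ?_
  · apply Continuous.continuousOn
    fun_prop
  · intro t ht x hx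
    exact hc hx ht.1 (by linarith [ht.2]) (by ring)
  · intro x _
    simp
  · intro x _
    simp

end contractible

end AS
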