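import Pool.Agent.Lib.AS.Star

/-!
# Homeomorphisms of compact sets; transport of the cohomology of acyclic sets and spheres
-/

set_option autoImplicit false

namespace AS

namespace P33

variable {X Y : Type} [MetricSpace X] [MetricSpace Y]

section hom

variable {Γ : Subgroup (X ≃ᵢ X)} {Γ' : Subgroup (Y ≃ᵢ Y)} {C : Set X} {C' : Set Y} {D : Set X}
  {D' : Set Y}

/-- if `g ∘ f = id` on `C` then `pull f ∘ pull g = id` -/
theorem pull_left_inv {f : X → Y} {g : Y → X} (hf : Adm Γ D C Γ' D' C' f)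
    (hg : Adm Γ' D' C' Γ D C g) (h : ∀ x ∈ C, g (f x) = x) {n : ℕ} (z : H Γ D n C) :
    pull f hf n (pull g hg n z) = z := by
  rw [pull_pull hg hf z]
  have h2 : Adm Γ D C Γ D C (fun x => x) := Adm.id' le_rfl (Set.Subset.refl C) fun _ _ hx => hx
  have h3 := pull_congr (hg.comp hf) h2 (fun x hx => h x hx) z
  rw [h3]
  exact res_self (Set.Subset.refl C) z

/-- inverse bijections of compact sets induce bijections -/
theorem pull_bij {f : X → Y} {g : Y → X} (hf : Adm Γ D C Γ' D' C' f)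
    (hg : Adm Γ' D' C' Γ D C g) (h : ∀ x ∈ C, g (f x) = x) (h' : ∀ y ∈ C', f (g y) = y) (n : ℕ) :
    Function.Bijective (pull f hf n) := by
  constructor
  · intro x y hxy
    rw [← pull_left_inv hg hf h' x, ← pull_left_inv hg hf h' y, hxy]
  · intro z
    exact ⟨pull g hg n z, pull_left_inv hf hg h z⟩

theorem pull_one {f : X → Y} (hf : Adm Γ ∅ C Γ' ∅ C' f) : pull f hf 0 (one Γ' C') = one Γ C := by
  unfold one
  rw [pull_cl]

theorem res_one {A B : Set X} (h : A ⊆ B) : res h 0 (one Γ B) = one Γ A := by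
  unfold one
  rw [res_cl]

/-- `Acy` is invariant under maps which induce bijections -/
theorem Acy.of_pull {f : X → Y} (hf : Adm Γ ∅ C Γ' ∅ C' f)
    (hb : ∀ n, Function.Bijective (pull f hf n)) (h : Acy Γ' C') : Acy Γ C := by
  obtain ⟨h1, h2, h3⟩ := h
  refine ⟨fun x => ?_, fun h0 => ?_, fun n x => ?_⟩
  · obtain ⟨y, rfl⟩ := (hb 0).2 x
    rcases h1 y with rfl | rfl
    · exact Or.inl (map_zero _)
    · exact Or.inr (pull_one hf)
  · rw [← pull_one hf, ← map_zero (pull f hf 0)] at h0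
    exact h2 ((hb 0).1 h0)
  · obtain ⟨y, rfl⟩ := (hb (n + 1)).2 x
    rw [h3 n y, map_zero]

theorem Acy.of_pull' {f : X → Y} (hf : Adm Γ ∅ C Γ' ∅ C' f)
    (hb : ∀ n, Function.Bijective (pull f hf n)) (h : Acy Γ C) : Acy Γ' C' := by
  obtain ⟨h1, h2, h3⟩ := h
  refine ⟨fun y => ?_, fun h0 => ?_, fun n y => ?_⟩
  · rcases h1 (pull f hf 0 y) with h4 | h4
    · exact Or.inl ((hb 0).1 (by rw [h4, map_zero]))
    · exact Or.inr ((hb 0).1 (by rw [h4, pull_one hf]))
  · apply h2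
    rw [← pull_one hf, h0, map_zero]
  · exact (hb (n + 1)).1 ((h3 n _).trans (map_zero _).symm)

/-- `Bas2` is invariant under maps which induce bijections -/
theorem Bas2.of_pull {f : X → Y} (hf : Adm Γ ∅ C Γ' ∅ C' f) {d : ℕ} {b : H Γ' ∅ d C'}
    (hb : ∀ n, Function.Bijective (pull f hf n)) (h : Bas2 Γ' C' d b) :
    Bas2 Γ C d (pull f hf d b) := by
  obtain ⟨h1, h2, h3, h4, h5⟩ := h
  refine ⟨fun x => ?_, fun h0 => ?_, fun x => ?_, fun h0 => ?_, fun n hn hn' x => ?_⟩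
  · obtain ⟨y, rfl⟩ := (hb 0).2 x
    rcases h1 y with rfl | rfl
    · exact Or.inl (map_zero _)
    · exact Or.inr (pull_one hf)
  · rw [← pull_one hf, ← map_zero (pull f hf 0)] at h0
    exact h2 ((hb 0).1 h0)
  · obtain ⟨y, rfl⟩ := (hb d).2 x
    rcases h3 y with rfl | rfl
    · exact Or.inl (map_zero _)
    · exact Or.inr rfl
  · rw [← map_zero (pull f hf d)] at h0
    exact h4 ((hb d).1 h0)
  · obtain ⟨y, rfl⟩ := (hb n).2 x
    rw [h5 n hn hn' y, map_zero]

end hom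

/-- inverse continuous bijections between compact sets, trivial groups -/
theorem pull_bij_cont {C : Set X} {C' : Set Y} {f : X → Y} {g : Y → X} (hC : IsCompact C)
    (hC' : IsCompact C') (hf : ContinuousOn f C) (hg : ContinuousOn g C')
    (hm : ∀ x ∈ C, f x ∈ C') (hm' : ∀ y ∈ C', g y ∈ C) (h : ∀ x ∈ C, g (f x) = x)
    (h' : ∀ y ∈ C', f (g y) = y) (n : ℕ) :
    Function.Bijective (pull f (adm_of_cont hC hf hm) n :
      H (⊥ : Subgroup (Y ≃ᵢ Y)) ∅ n C' → H (⊥ : Subgroup (X ≃ᵢ X)) ∅ n C) :=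
  pull_bij _ (adm_of_cont hC' hg hm') h h' n

end P33

end AS
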