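import Pool.Agent.Lib.AS.Cup

/-!
# Alexander-Spanier cohomology: the long exact sequence of a triple

`A = C ∩ D`, `C ∩ D₀ ⊆ D`:
`H Γ D n C → H Γ D₀ n C → H Γ D₀ n A → H Γ D (n + 1) C`.  For `D₀ = ∅` this is the sequence of the pair
`(C, C ∩ D)`.  No compactness is needed, the set `D` is `Γ`-invariant.
-/

set_option autoImplicit false

namespace AS

variable {X Y : Type} [MetricSpace X] [MetricSpace Y]

/-- the hypotheses of the sequence of a triple -/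
structure Trp (Γ : Subgroup (X ≃ᵢ X)) (D₀ D A C : Set X) : Prop where
  hA : A = C ∩ D
  hD : C ∩ D₀ ⊆ D
  iD : IvS Γ D

theorem Trp.pair {Γ : Subgroup (X ≃ᵢ X)} {D : Set X} (C : Set X) (h : IvS Γ D) :
    Trp Γ ∅ D (C ∩ D) C := ⟨rfl, fun _ hx => hx.2.elim, h⟩

theorem Trp.AC {Γ : Subgroup (X ≃ᵢ X)} {D₀ D A C : Set X} (h : Trp Γ D₀ D A C) : A ⊆ C :=
  h.hA ▸ Set.inter_subset_left

/-- from the groups relative to `D` to the groups relative to `D₀` -/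
noncomputable def jm {Γ : Subgroup (X ≃ᵢ X)} {D₀ D C : Set X} (h : C ∩ D₀ ⊆ D) (n : ℕ) :
    H Γ D n C →+ H Γ D₀ n C :=
  pull (fun x => x) (Adm.id' le_rfl (Set.Subset.refl C) fun _ hx h0 => h ⟨hx, h0⟩) n

theorem cyc_jm {Γ : Subgroup (X ≃ᵢ X)} {D₀ D C : Set X} (h : C ∩ D₀ ⊆ D) {n : ℕ}
    {φ : List X → ZMod 2} (hφ : φ ∈ Cyc Γ D n C) : φ ∈ Cyc Γ D₀ n C :=
  ⟨hφ.1, hφ.2.1.mono fun _ hx => ⟨hx.1, h hx⟩, hφ.2.2⟩

theorem jm_cl {Γ : Subgroup (X ≃ᵢ X)} {D₀ D C : Set X} (h : C ∩ D₀ ⊆ D) {n : ℕ}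
    {φ : List X → ZMod 2} (hφ : φ ∈ Cyc Γ D n C) :
    jm h n (cl φ hφ) = cl φ (cyc_jm h hφ) := by
  unfold jm
  rw [pull_cl]
  congr 1
  funext l
  rw [List.map_id']

/-- `ζ` represents the image of `φ`: an extension `η` of `φ` to `C` has `dd η = ζ` -/
def DltR (Γ : Subgroup (X ≃ᵢ X)) (D₀ D C : Set X) (n : ℕ) (φ ζ : List X → ZMod 2) : Prop :=
  ∃ η : List X → ZMod 2, Iv Γ η ∧ Z0 (n + 1) (C ∩ D₀) η ∧ Z0 (n + 1) (C ∩ D) (φ + η) ∧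
    Z0 (n + 2) C (ζ + dd η)

theorem DltR.add {Γ : Subgroup (X ≃ᵢ X)} {D₀ D C : Set X} {n : ℕ} {φ ζ φ' ζ' : List X → ZMod 2}
    (h : DltR Γ D₀ D C n φ ζ) (h' : DltR Γ D₀ D C n φ' ζ') :
    DltR Γ D₀ D C n (φ + φ') (ζ + ζ') := by
  obtain ⟨η, h1, h2, h3, h4⟩ := h
  obtain ⟨η', h1', h2', h3', h4'⟩ := h'
  refine ⟨η + η', h1.add h1', h2.add h2', ?_, ?_⟩
  · have : φ + φ' + (η + η') = (φ + η) + (φ' + η') := by abel
    rw [this]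
    exact h3.add h3'
  · have : ζ + ζ' + dd (η + η') = (ζ + dd η) + (ζ' + dd η') := by
      rw [dd_add']
      abel
    rw [this]
    exact h4.add h4'

open Classical in
/-- cut off outside of `D` -/
noncomputable def cutD (D : Set X) (φ : List X → ZMod 2) : List X → ZMod 2 :=
  fun l => if ∀ x ∈ l, x ∈ D then φ l else 0

theorem cutD_in {D : Set X} {φ : List X → ZMod 2} {l : List X} (h : ∀ x ∈ l, x ∈ D) :
    cutD D φ l = φ l := if_pos h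

theorem cutD_iv {Γ : Subgroup (X ≃ᵢ X)} {D : Set X} (hD : IvS Γ D) {φ : List X → ZMod 2}
    (h : Iv Γ φ) : Iv Γ (cutD D φ) := by
  intro g hg l
  have hiff : (∀ x ∈ l.map g, x ∈ D) ↔ ∀ x ∈ l, x ∈ D := by
    simp only [List.mem_map, forall_exists_index, and_imp, forall_apply_eq_imp_iff₂]
    exact ⟨fun h1 x hx => (hD.iff hg x).mp (h1 x hx), fun h1 x hx => hD g hg x (h1 x hx)⟩
  unfold cutD
  by_cases hl : ∀ x ∈ l, x ∈ D
  · rw [if_pos hl, if_pos (hiff.mpr hl), h g hg l]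
  · rw [if_neg hl, if_neg fun h1 => hl (hiff.mp h1)]

theorem cutD_z0 {n : ℕ} {D E : Set X} {φ : List X → ZMod 2} (h : Z0 n E φ) (hE : E ⊆ D) :
    Z0 n E (cutD D φ) :=
  h.congr fun l _ hx => (cutD_in fun x hx' => hE (hx x hx')).symm

theorem cutD_dd {D : Set X} {φ : List X → ZMod 2} {l : List X} (h : ∀ x ∈ l, x ∈ D) :
    dd (cutD D φ) l = dd φ l :=
  dd_congr fun m hm _ => cutD_in fun x hx => h x (hm.subset hx)

section existence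

variable {Γ : Subgroup (X ≃ᵢ X)} {D₀ D A C : Set X} {n : ℕ}

theorem dlt_exists (h : Trp Γ D₀ D A C) {φ : List X → ZMod 2} (hφ : φ ∈ Cyc Γ D₀ n A) :
    ∃ ζ ∈ Cyc Γ D (n + 1) C, DltR Γ D₀ D C n φ ζ := by
  obtain ⟨rfl, hD, iD⟩ := h
  obtain ⟨h1, h2, h3⟩ := hφ
  have h4 : Iv Γ (cutD D φ) := cutD_iv iD h1
  refine ⟨dd (cutD D φ), ⟨h4.dd, ?_, ?_⟩, cutD D φ, h4, ?_, ?_, ?_⟩
  · exact h3.congr fun l _ hx => (cutD_dd fun x hx' => (hx x hx').2).symm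
  · rw [dd_dd']
    exact Z0.zero _ _
  · exact cutD_z0 (h2.mono fun x hx => ⟨⟨hx.1, hD hx⟩, hx.2⟩) hD
  · refine (Z0.zero _ _).congr fun l _ hx => ?_
    rw [Pi.add_apply, cutD_in fun x hx' => (hx x hx').2, z2_add_self]
    rfl
  · rw [add_self]
    exact Z0.zero _ _

theorem dlt_bnd (h : Trp Γ D₀ D A C) {φ ζ : List X → ZMod 2} (hφ : φ ∈ Bnd Γ D₀ n A)
    (hζ : ζ ∈ Cyc Γ D (n + 1) C) (hR : DltR Γ D₀ D C n φ ζ) : ζ ∈ Bnd Γ D (n + 1) C := by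
  obtain ⟨rfl, hD, iD⟩ := h
  obtain ⟨h1, χ, h2, h3, h4, h5⟩ := hφ
  obtain ⟨η, k1, k2, k3, k4⟩ := hR
  rw [mem_Bnd_succ]
  refine ⟨hζ.1, η + dd (cutD D χ), k1.add (cutD_iv iD h2).dd, ?_, ?_⟩
  · have h6 : Z0 (n + 1) (C ∩ D) (φ + dd χ + (φ + η)) := h5.add k3
    refine h6.congr fun l _ hx => ?_
    rw [Pi.add_apply, Pi.add_apply, Pi.add_apply, Pi.add_apply,
      cutD_dd fun x hx' => (hx x hx').2]
    have h7 := z2_add_self (φ l)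
    have h8 : φ l + dd χ l + (φ l + η l) = (φ l + φ l) + (η l + dd χ l) := by ring
    rw [h8, h7, zero_add]
  · rw [dd_add', dd_dd', add_zero]
    exact k4

end existence

open Classical in
/-- the connecting map of the triple (a plain function; see `dlt_cl`) -/
noncomputable def dlt (Γ : Subgroup (X ≃ᵢ X)) (D₀ D A C : Set X) (n : ℕ) (x : H Γ D₀ n A) :
    H Γ D (n + 1) C :=
  if h : ∃ z : H Γ D (n + 1) C, ∃ φ, ∃ hφ : φ ∈ Cyc Γ D₀ n A, ∃ ζ, ∃ hζ : ζ ∈ Cyc Γ D (n + 1) C,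
    cl φ hφ = x ∧ cl ζ hζ = z ∧ DltR Γ D₀ D C n φ ζ then h.choose else 0

section sequence

variable {Γ : Subgroup (X ≃ᵢ X)} {D₀ D A C : Set X} {n : ℕ}

theorem dlt_cl (h : Trp Γ D₀ D A C) {φ ζ : List X → ZMod 2} (hφ : φ ∈ Cyc Γ D₀ n A)
    (hζ : ζ ∈ Cyc Γ D (n + 1) C) (hR : DltR Γ D₀ D C n φ ζ) :
    dlt Γ D₀ D A C n (cl φ hφ) = cl ζ hζ := by
  have hex : ∃ z : H Γ D (n + 1) C, ∃ φ', ∃ hφ' : φ' ∈ Cyc Γ D₀ n A, ∃ ζ',
      ∃ hζ' : ζ' ∈ Cyc Γ D (n + 1) C,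
      cl φ' hφ' = cl φ hφ ∧ cl ζ' hζ' = z ∧ DltR Γ D₀ D C n φ' ζ' :=
    ⟨_, φ, hφ, ζ, hζ, rfl, rfl, hR⟩
  unfold dlt
  rw [dif_pos hex]
  obtain ⟨φ', hφ', ζ', hζ', h1, h2, h3⟩ := hex.choose_spec
  rw [← h2, cl_eq_cl]
  rw [cl_eq_cl] at h1
  exact dlt_bnd h h1 ((Cyc Γ D (n + 1) C).add_mem hζ' hζ) (h3.add hR)

/-- every class has a representative with its image -/
theorem dlt_rep (h : Trp Γ D₀ D A C) (u : H Γ D₀ n A) :
    ∃ (φ ζ : List X → ZMod 2) (hφ : φ ∈ Cyc Γ D₀ n A) (hζ : ζ ∈ Cyc Γ D (n + 1) C),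
      cl φ hφ = u ∧ dlt Γ D₀ D A C n u = cl ζ hζ ∧ DltR Γ D₀ D C n φ ζ := by
  obtain ⟨φ, hφ, rfl⟩ := cl_surj u
  obtain ⟨ζ, hζ, hR⟩ := dlt_exists h hφ
  exact ⟨φ, ζ, hφ, hζ, rfl, dlt_cl h hφ hζ hR, hR⟩

theorem dlt_add (h : Trp Γ D₀ D A C) (x y : H Γ D₀ n A) :
    dlt Γ D₀ D A C n (x + y) = dlt Γ D₀ D A C n x + dlt Γ D₀ D A C n y := by
  obtain ⟨φ, ζ, hφ, hζ, rfl, h2, h3⟩ := dlt_rep h x
  obtain ⟨φ', ζ', hφ', hζ', rfl, h2', h3'⟩ := dlt_rep h y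
  rw [h2, h2', ← cl_add, ← cl_add]
  exact dlt_cl h _ _ (h3.add h3')

theorem dlt_zero (h : Trp Γ D₀ D A C) : dlt Γ D₀ D A C n (0 : H Γ D₀ n A) = 0 := by
  have h1 := dlt_add h (0 : H Γ D₀ n A) 0
  rw [add_zero, two_add] at h1
  exact h1

/-- the composition of the first two maps is zero -/
theorem res_jm (h : Trp Γ D₀ D A C) (x : H Γ D n C) : res h.AC n (jm h.hD n x) = 0 := by
  obtain ⟨φ, hφ, rfl⟩ := cl_surj x
  rw [jm_cl, res_cl, cl_eq_zero]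
  exact Bnd_of_Z0 hφ.1 (h.hA ▸ hφ.2.1)

/-- exactness at `H Γ D₀ n C` -/
theorem exists_jm (h : Trp Γ D₀ D A C) (y : H Γ D₀ n C) (hy : res h.AC n y = 0) :
    ∃ x : H Γ D n C, jm h.hD n x = y := by
  obtain ⟨φ, hφ, rfl⟩ := cl_surj y
  rw [res_cl, cl_eq_zero] at hy
  obtain ⟨h1, χ, h2, h3, h4, h5⟩ := hy
  obtain ⟨rfl, hD, iD⟩ := h
  have h6 : Iv Γ (cutD D χ) := cutD_iv iD h2
  have h7 : Z0 n (C ∩ D₀) (cutD D χ) := cutD_z0 (h3.mono fun x hx => ⟨⟨hx.1, hD hx⟩, hx.2⟩) hD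
  have h8 : cutD D χ [] = 0 := (cutD_in (by simp)).trans h4
  have h9 : φ + dd (cutD D χ) ∈ Cyc Γ D n C := by
    refine ⟨hφ.1.add h6.dd, ?_, ?_⟩
    · refine h5.congr fun l _ hx => ?_
      rw [Pi.add_apply, Pi.add_apply, cutD_dd fun x hx' => (hx x hx').2]
    · rw [dd_add', dd_dd', add_zero]
      exact hφ.2.2
  refine ⟨cl _ h9, ?_⟩
  rw [jm_cl, cl_eq_cl]
  refine ⟨(hφ.1.add h6.dd).add hφ.1, cutD D χ, h6, h7, h8, ?_⟩
  have h10 : φ + dd (cutD D χ) + φ + dd (cutD D χ) = 0 := by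
    have e : φ + dd (cutD D χ) + φ + dd (cutD D χ) =
        (φ + φ) + (dd (cutD D χ) + dd (cutD D χ)) := by abel
    rw [e, add_self, add_self, add_zero]
  rw [h10]
  exact Z0.zero _ _

/-- classes which extend to `C` are mapped to zero -/
theorem dlt_res (h : Trp Γ D₀ D A C) (y : H Γ D₀ n C) : dlt Γ D₀ D A C n (res h.AC n y) = 0 := by
  obtain ⟨φ, hφ, rfl⟩ := cl_surj y
  rw [res_cl, dlt_cl h (cyc_mono h.AC hφ) (Cyc Γ D (n + 1) C).zero_mem, cl_eq_zero]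
  · exact (Bnd Γ D (n + 1) C).zero_mem
  · refine ⟨φ, hφ.1, hφ.2.1, ?_, ?_⟩
    · rw [add_self]
      exact Z0.zero _ _
    · rw [zero_add]
      exact hφ.2.2

/-- exactness at `H Γ D₀ n A` -/
theorem exists_res (h : Trp Γ D₀ D A C) (u : H Γ D₀ n A) (hu : dlt Γ D₀ D A C n u = 0) :
    ∃ y : H Γ D₀ n C, res h.AC n y = u := by
  obtain ⟨φ, ζ, hφ, hζ, rfl, h2, η, k1, k2, k3, k4⟩ := dlt_rep h u
  rw [h2, cl_eq_zero, mem_Bnd_succ] at hu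
  obtain ⟨h3, θ, h4, h5, h6⟩ := hu
  have h7 : η + θ ∈ Cyc Γ D₀ n C := by
    refine ⟨k1.add h4, k2.add (h5.mono fun x hx => ⟨hx.1, h.hD hx⟩), ?_⟩
    have e : dd (η + θ) = (ζ + dd η) + (ζ + dd θ) := by
      rw [dd_add']
      have e2 : ζ + dd η + (ζ + dd θ) = (ζ + ζ) + (dd η + dd θ) := by abel
      rw [e2, add_self, zero_add]
    rw [e]
    exact k4.add h6
  refine ⟨cl _ h7, ?_⟩
  rw [res_cl, cl_eq_cl]
  refine Bnd_of_Z0 ((k1.add h4).add hφ.1) ?_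
  rw [h.hA]
  have e : η + θ + φ = (φ + η) + θ := by abel
  rw [e]
  exact k3.add h5

theorem jm_dlt (h : Trp Γ D₀ D A C) (u : H Γ D₀ n A) :
    jm h.hD (n + 1) (dlt Γ D₀ D A C n u) = 0 := by
  obtain ⟨φ, ζ, hφ, hζ, rfl, h2, η, k1, k2, k3, k4⟩ := dlt_rep h u
  rw [h2, jm_cl, cl_eq_zero, mem_Bnd_succ]
  exact ⟨hζ.1, η, k1, k2, k4⟩

/-- exactness at `H Γ D (n + 1) C` -/
theorem exists_dlt (h : Trp Γ D₀ D A C) (x : H Γ D (n + 1) C) (hx : jm h.hD (n + 1) x = 0) :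
    ∃ u : H Γ D₀ n A, x = dlt Γ D₀ D A C n u := by
  obtain ⟨φ, hφ, rfl⟩ := cl_surj x
  rw [jm_cl, cl_eq_zero, mem_Bnd_succ] at hx
  obtain ⟨h1, η, h2, h3, h4⟩ := hx
  have h5 : η ∈ Cyc Γ D₀ n A := by
    rw [h.hA]
    refine ⟨h2, h3.mono fun x hx => ⟨hx.1.1, hx.2⟩, ?_⟩
    have h6 := (h4.mono (Set.inter_subset_left (t := D))).add hφ.2.1
    have e : φ + dd η + φ = dd η := by
      have e2 : φ + dd η + φ = (φ + φ) + dd η := by abel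
      rw [e2, add_self, zero_add]
    rw [e] at h6
    exact h6
  refine ⟨cl η h5, ?_⟩
  rw [dlt_cl h h5 hφ ⟨η, h2, h3, ?_, h4⟩]
  rw [add_self]
  exact Z0.zero _ _

/-- injectivity in degree zero -/
theorem jm_zero_inj {D₀ D C : Set X} (h : C ∩ D₀ ⊆ D) (x : H Γ D 0 C) (hx : jm h 0 x = 0) :
    x = 0 := by
  obtain ⟨φ, hφ, rfl⟩ := cl_surj x
  rw [jm_cl, cl_eq_zero, mem_Bnd_zero] at hx
  rw [cl_eq_zero, mem_Bnd_zero]
  exact hx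

/-- naturality of the connecting map -/
theorem pull_dlt {Γ' : Subgroup (Y ≃ᵢ Y)} {D₀' D' A' C' : Set Y} {f : X → Y}
    (h : Trp Γ D₀ D A C) (h' : Trp Γ' D₀' D' A' C') (hf : Adm Γ D C Γ' D' C' f)
    (hf₀ : Adm Γ D₀ A Γ' D₀' A' f) (hC : ∀ x ∈ C, x ∈ D₀ → f x ∈ D₀') (u : H Γ' D₀' n A') :
    pull f hf (n + 1) (dlt Γ' D₀' D' A' C' n u) = dlt Γ D₀ D A C n (pull f hf₀ n u) := by
  obtain ⟨φ, ζ, hφ, hζ, rfl, h2, η, k1, k2, k3, k4⟩ := dlt_rep h' u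
  rw [h2, pull_cl, pull_cl]
  symm
  apply dlt_cl h
  have hf1 : Adm Γ D₀ C Γ' D₀' C' f := ⟨hf.maps, hC, hf.uc, hf.eqv⟩
  refine ⟨fun l => η (l.map f), hf.iv k1, hf1.z0D k2, ?_, ?_⟩
  · exact hf.z0D k3
  · have e : (fun l : List X => ζ (l.map f)) + dd (fun l => η (l.map f)) =
        fun l => (ζ + dd η) (l.map f) := by
      funext l
      rw [Pi.add_apply, dd_map]
      rfl
    rw [e]
    exact hf.z0 k4

/-- naturality for restriction -/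
theorem res_dlt {A' C' : Set X} (h : Trp Γ D₀ D A C) (h' : Trp Γ D₀ D A' C') (hA : A ⊆ A')
    (hC : C ⊆ C') (u : H Γ D₀ n A') :
    res hC (n + 1) (dlt Γ D₀ D A' C' n u) = dlt Γ D₀ D A C n (res hA n u) :=
  pull_dlt h h' _ _ (fun _ _ hx => hx) u

/-- the connecting map and products with absolute classes of `C` on the right -/
theorem dlt_cup_right {q m : ℕ} (h : Trp Γ D₀ D A C) (hm : n + q = m) (u : H Γ D₀ n A)
    (c : H Γ ∅ q C) :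
    dlt Γ D₀ D A C m (cupH D₀ m u (res h.AC q c)) = cupH D (m + 1) (dlt Γ D₀ D A C n u) c := by
  obtain ⟨φ, ζ, hφ, hζ, rfl, h2, η, k1, k2, k3, k4⟩ := dlt_rep h u
  obtain ⟨γ, hγ, rfl⟩ := cl_surj c
  have hm' : n + 1 + q = m + 1 := by omega
  rw [h2, res_cl, cupH_cl hm (Or.inl Set.inter_subset_right),
    cupH_cl hm' (Or.inl Set.inter_subset_right)]
  apply dlt_cl h
  refine ⟨cup n η γ, cup_iv n k1 hγ.1, cup_z0_left hm k2, ?_, ?_⟩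
  · refine (cup_z0_left (ψ := γ) hm k3).congr fun l _ _ => ?_
    exact cup_add_left n φ η γ l
  · have h5 : Z0 (m + 2) C (cup (n + 1) (ζ + dd η) γ) :=
      cup_z0_left (p := n + 1) (q := q) (n := m + 1) hm' k4
    have h6 : Z0 (m + 2) C (cup n η (dd γ)) :=
      cup_z0_right (p := n) (q := q + 1) (n := m + 1) (by omega) hγ.2.2
    refine (h5.add h6).congr fun l hl _ => ?_
    rw [Pi.add_apply, Pi.add_apply, leibniz n η γ l (by omega)]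
    change cup (n + 1) (fun m => ζ m + dd η m) γ l + _ = _
    rw [cup_add_left, add_assoc]

/-- the connecting map and products with absolute classes of `C` on the left -/
theorem dlt_cup_left {q m : ℕ} (h : Trp Γ D₀ D A C) (hm : q + n = m) (u : H Γ D₀ n A)
    (c : H Γ ∅ q C) :
    dlt Γ D₀ D A C m (cupH D₀ m (res h.AC q c) u) = cupH D (m + 1) c (dlt Γ D₀ D A C n u) := by
  obtain ⟨φ, ζ, hφ, hζ, rfl, h2, η, k1, k2, k3, k4⟩ := dlt_rep h u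
  obtain ⟨γ, hγ, rfl⟩ := cl_surj c
  have hm' : q + (n + 1) = m + 1 := by omega
  rw [h2, res_cl, cupH_cl hm (Or.inr Set.inter_subset_right),
    cupH_cl hm' (Or.inr Set.inter_subset_right)]
  apply dlt_cl h
  refine ⟨cup q γ η, cup_iv q hγ.1 k1, cup_z0_right hm k2, ?_, ?_⟩
  · refine (cup_z0_right (φ := γ) hm k3).congr fun l _ _ => ?_
    exact cup_add_right q γ φ η l
  · have h5 : Z0 (m + 2) C (cup q γ (ζ + dd η)) :=
      cup_z0_right (p := q) (q := n + 1) (n := m + 1) hm' k4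
    have h6 : Z0 (m + 2) C (cup (q + 1) (dd γ) η) :=
      cup_z0_left (p := q + 1) (q := n) (n := m + 1) (by omega) hγ.2.2
    refine (h5.add h6).congr fun l hl _ => ?_
    rw [Pi.add_apply, Pi.add_apply, leibniz q γ η l (by omega)]
    change cup q γ (fun m => ζ m + dd η m) l + _ = _
    rw [cup_add_right]
    ring

end sequence

end AS
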