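import Pool.Agent.Lib.AS.Gys

/-!
# The long exact sequence of a triple `(C, C ∩ D, C ∩ D')`

`C ∩ D' ⊆ D`, `I = C ∩ D` (for `D' = ∅`: the sequence of the pair `(C, C ∩ D)`).  No compactness and no
freeness is needed.  `rel : H Γ D n C -> H Γ D' n C`, `res : H Γ D' n C -> H Γ D' n I`,
`dP : H Γ D' n I -> H Γ D (n + 1) C`.
-/

set_option autoImplicit false

namespace AS

variable {X Y : Type} [MetricSpace X] [MetricSpace Y]

/-- the hypotheses -/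
structure Prs (Γ : Subgroup (X ≃ᵢ X)) (D D' I C : Set X) : Prop where
  invC : IvS Γ C
  invD : IvS Γ D
  hI : I = C ∩ D
  hD : C ∩ D' ⊆ D

section basics

variable {Γ : Subgroup (X ≃ᵢ X)} {D D' I C : Set X}

theorem Prs.IC (h : Prs Γ D D' I C) : I ⊆ C := h.hI ▸ Set.inter_subset_left

theorem Prs.invI (h : Prs Γ D D' I C) : IvS Γ I := h.hI ▸ h.invC.inter h.invD

theorem Prs.sub (h : Prs Γ D D' I C) : C ∩ D' ⊆ I := fun x hx => by
  rw [h.hI]
  exact ⟨hx.1, h.hD hx⟩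

theorem Prs.sub' (h : Prs Γ D D' I C) : C ∩ D' = I ∩ D' := by
  ext x
  constructor
  · exact fun hx => ⟨h.sub hx, hx.2⟩
  · exact fun hx => ⟨h.IC hx.1, hx.2⟩

/-- forgetting a part of the second member -/
noncomputable def rel (h : C ∩ D' ⊆ D) (n : ℕ) : H Γ D n C →+ H Γ D' n C :=
  pull (fun x => x) (Adm.id' le_rfl (Set.Subset.refl C) fun _ hx hx' => h ⟨hx, hx'⟩) n

theorem cyc_rel (h : C ∩ D' ⊆ D) {n : ℕ} {φ : List X → ZMod 2} (hφ : φ ∈ Cyc Γ D n C) :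
    φ ∈ Cyc Γ D' n C :=
  ⟨hφ.1, hφ.2.1.mono fun _ hx => ⟨hx.1, h hx⟩, hφ.2.2⟩

theorem rel_cl (h : C ∩ D' ⊆ D) {n : ℕ} {φ : List X → ZMod 2} (hφ : φ ∈ Cyc Γ D n C) :
    rel h n (cl φ hφ) = cl φ (cyc_rel h hφ) := by
  unfold rel
  rw [pull_cl]
  congr 1
  funext l
  rw [List.map_id']

theorem rel_self (h : C ∩ D ⊆ D) {n : ℕ} (x : H Γ D n C) : rel h n x = x := by
  obtain ⟨φ, hφ, rfl⟩ := cl_surj x
  rw [rel_cl]

theorem rel_rel {D'' : Set X} (h : C ∩ D' ⊆ D) (h' : C ∩ D'' ⊆ D') (h'' : C ∩ D'' ⊆ D) {n : ℕ}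
    (x : H Γ D n C) : rel h' n (rel h n x) = rel h'' n x := by
  obtain ⟨φ, hφ, rfl⟩ := cl_surj x
  rw [rel_cl, rel_cl, rel_cl]

theorem rel_res {B : Set X} (hB : B ⊆ C) (h : C ∩ D' ⊆ D) (h' : B ∩ D' ⊆ D) {n : ℕ}
    (x : H Γ D n C) : rel h' n (res hB n x) = res hB n (rel h n x) := by
  obtain ⟨φ, hφ, rfl⟩ := cl_surj x
  rw [res_cl, rel_cl, rel_cl, res_cl]

/-- the representatives of the connecting map -/
theorem dP_cyc (h : Prs Γ D D' I C) {n : ℕ} {φ : List X → ZMod 2} (hφ : φ ∈ Cyc Γ D' n I) :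
    dd (cut I φ) ∈ Cyc Γ D (n + 1) C := by
  refine ⟨Iv.dd (cut_iv h.invI fun g hg l _ => hφ.1 g hg l), ?_, ?_⟩
  · rw [← h.hI]
    exact hφ.2.2.congr fun l _ hl => (dd_cut hl).symm
  · rw [dd_dd']
    exact Z0.zero _ _

theorem dP_bnd (h : Prs Γ D D' I C) {n : ℕ} {φ : List X → ZMod 2} (hφ : φ ∈ Bnd Γ D' n I) :
    dd (cut I φ) ∈ Bnd Γ D (n + 1) C := by
  obtain ⟨h1, χ, h2, _, h4, h5⟩ := hφ
  have hi : Iv Γ (cut I φ) := cut_iv h.invI fun g hg l _ => h1 g hg l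
  have hi' : Iv Γ (cut I χ) := cut_iv h.invI fun g hg l _ => h2 g hg l
  refine mem_Bnd_succ.mpr ⟨hi.dd, cut I φ + dd (cut I χ), hi.add hi'.dd, ?_, ?_⟩
  · rw [← h.hI]
    exact h5.congr fun l _ hl => by
      rw [Pi.add_apply, Pi.add_apply, cut_eq hl, dd_cut hl]
  · rw [dd_add', dd_dd', add_zero, add_self]
    exact Z0.zero _ _

/-- the connecting map -/
noncomputable def dP (h : Prs Γ D D' I C) (n : ℕ) : H Γ D' n I →+ H Γ D (n + 1) C :=
  QuotientAddGroup.map _ _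
    ({ toFun := fun φ => ⟨dd (cut I φ.1), dP_cyc h φ.2⟩
       map_zero' := by
         apply Subtype.ext
         change dd (cut I (0 : List X → ZMod 2)) = 0
         have : cut I (0 : List X → ZMod 2) = 0 := by
           funext l
           by_cases hl : ∀ x ∈ l, x ∈ I
           · exact cut_eq hl
           · exact cut_ne hl
         rw [this, dd_zero]
       map_add' := fun φ ψ => by
         apply Subtype.ext
         change dd (cut I (φ.1 + ψ.1)) = dd (cut I φ.1) + dd (cut I ψ.1)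
         have : cut I (φ.1 + ψ.1) = cut I φ.1 + cut I ψ.1 := by
           funext l
           rw [Pi.add_apply]
           by_cases hl : ∀ x ∈ l, x ∈ I
           · rw [cut_eq hl, cut_eq hl, cut_eq hl, Pi.add_apply]
           · rw [cut_ne hl, cut_ne hl, cut_ne hl, add_zero]
         rw [this, dd_add'] } : ↥(Cyc Γ D' n I) →+ ↥(Cyc Γ D (n + 1) C))
    (by
      rintro ⟨φ, hφ⟩ h'
      rw [AddSubgroup.mem_addSubgroupOf] at h'
      exact dP_bnd h h')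

theorem dP_cl (h : Prs Γ D D' I C) {n : ℕ} {φ : List X → ZMod 2} (hφ : φ ∈ Cyc Γ D' n I) :
    dP h n (cl φ hφ) = cl (dd (cut I φ)) (dP_cyc h hφ) := rfl

/-- every extension `η` may be used -/
theorem dP_of (h : Prs Γ D D' I C) {n : ℕ} {φ ζ η : List X → ZMod 2} (hφ : φ ∈ Cyc Γ D' n I)
    (hζ : ζ ∈ Cyc Γ D (n + 1) C) (hη : Iv Γ η) (h1 : Z0 (n + 1) I (φ + η))
    (h2 : Z0 (n + 2) C (ζ + dd η)) : dP h n (cl φ hφ) = cl ζ hζ := by
  rw [dP_cl, cl_eq_cl]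
  have hi : Iv Γ (cut I φ) := cut_iv h.invI fun g hg l _ => hφ.1 g hg l
  refine mem_Bnd_succ.mpr ⟨hi.dd.add hζ.1, cut I φ + η, hi.add hη, ?_, ?_⟩
  · rw [← h.hI]
    exact h1.congr fun l _ hl => by rw [Pi.add_apply, Pi.add_apply, cut_eq hl]
  · have h3 : dd (cut I φ) + ζ + dd (cut I φ + η) = ζ + dd η := by
      rw [dd_add']
      have := add_self (dd (cut I φ))
      calc dd (cut I φ) + ζ + (dd (cut I φ) + dd η)
          = (dd (cut I φ) + dd (cut I φ)) + (ζ + dd η) := by abel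
        _ = ζ + dd η := by rw [this, zero_add]
    rw [h3]
    exact h2

/-! ### exactness -/

/-- exactness at `H Γ D n C` in degree zero -/
theorem rel_inj_zero (h : C ∩ D' ⊆ D) (y : H Γ D 0 C) (hy : rel h 0 y = 0) : y = 0 := by
  obtain ⟨φ, hφ, rfl⟩ := cl_surj y
  rw [rel_cl, cl_eq_zero, mem_Bnd_zero] at hy
  rw [cl_eq_zero, mem_Bnd_zero]
  exact hy

/-- exactness at `H Γ D (n + 1) C` -/
theorem rel_ex (h : Prs Γ D D' I C) {n : ℕ} (y : H Γ D (n + 1) C) (hy : rel h.hD (n + 1) y = 0) :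
    ∃ u : H Γ D' n I, y = dP h n u := by
  obtain ⟨φ, hφ, rfl⟩ := cl_surj y
  rw [rel_cl, cl_eq_zero] at hy
  obtain ⟨_, ψ, h2, h3, h4⟩ := mem_Bnd_succ.mp hy
  have hφI : Z0 (n + 2) I φ := by
    have := hφ.2.1
    rwa [← h.hI] at this
  have hψ : ψ ∈ Cyc Γ D' n I := by
    refine ⟨h2, ?_, ?_⟩
    · rw [← h.sub']
      exact h3
    · have h5 := hφI.add (h4.mono h.IC)
      rw [← add_assoc, add_self, zero_add] at h5
      exact h5
  refine ⟨cl ψ hψ, (dP_of h hψ hφ h2 ?_ h4).symm⟩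
  rw [add_self]
  exact Z0.zero _ _

theorem rel_dP (h : Prs Γ D D' I C) {n : ℕ} (u : H Γ D' n I) : rel h.hD (n + 1) (dP h n u) = 0 := by
  obtain ⟨φ, hφ, rfl⟩ := cl_surj u
  rw [dP_cl, rel_cl, cl_eq_zero]
  have hi : Iv Γ (cut I φ) := cut_iv h.invI fun g hg l _ => hφ.1 g hg l
  refine mem_Bnd_succ.mpr ⟨hi.dd, cut I φ, hi, ?_, ?_⟩
  · rw [h.sub']
    exact hφ.2.1.congr fun l _ hl => (cut_eq fun x hx => (hl x hx).1).symm
  · rw [add_self]
    exact Z0.zero _ _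

/-- exactness at `H Γ D' n C` -/
theorem res_ex (h : Prs Γ D D' I C) {n : ℕ} (x : H Γ D' n C) (hx : res h.IC n x = 0) :
    ∃ y : H Γ D n C, rel h.hD n y = x := by
  obtain ⟨φ, hφ, rfl⟩ := cl_surj x
  rw [res_cl, cl_eq_zero] at hx
  obtain ⟨_, χ, h2, h3, h4, h5⟩ := hx
  have hi : Iv Γ (cut I χ) := cut_iv h.invI fun g hg l _ => h2 g hg l
  have hz : Z0 n (C ∩ D') (cut I χ) := by
    rw [h.sub']
    exact h3.congr fun l _ hl => (cut_eq fun x hx => (hl x hx).1).symm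
  have h0 : cut I χ [] = 0 := by
    rw [cut_eq (by simp)]
    exact h4
  have hφ' : φ + dd (cut I χ) ∈ Cyc Γ D n C := by
    refine ⟨hφ.1.add hi.dd, ?_, ?_⟩
    · rw [← h.hI]
      exact h5.congr fun l _ hl => by rw [Pi.add_apply, Pi.add_apply, dd_cut hl]
    · rw [dd_add', dd_dd', add_zero]
      exact hφ.2.2
  refine ⟨cl _ hφ', ?_⟩
  rw [rel_cl, cl_eq_cl]
  refine ⟨(hφ.1.add hi.dd).add hφ.1, cut I χ, hi, hz, h0, ?_⟩
  have h6 : φ + dd (cut I χ) + φ + dd (cut I χ) = 0 := by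
    calc φ + dd (cut I χ) + φ + dd (cut I χ) = (φ + φ) + (dd (cut I χ) + dd (cut I χ)) := by abel
      _ = 0 := by rw [add_self, add_self, add_zero]
  rw [h6]
  exact Z0.zero _ _

theorem res_rel (h : Prs Γ D D' I C) {n : ℕ} (y : H Γ D n C) :
    res h.IC n (rel h.hD n y) = 0 := by
  obtain ⟨φ, hφ, rfl⟩ := cl_surj y
  rw [rel_cl, res_cl, cl_eq_zero]
  refine Bnd_of_Z0 hφ.1 ?_
  have := hφ.2.1
  rwa [← h.hI] at this

/-- exactness at `H Γ D' n I` -/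
theorem dP_ex (h : Prs Γ D D' I C) {n : ℕ} (u : H Γ D' n I) (hu : dP h n u = 0) :
    ∃ x : H Γ D' n C, res h.IC n x = u := by
  obtain ⟨φ, hφ, rfl⟩ := cl_surj u
  rw [dP_cl, cl_eq_zero] at hu
  obtain ⟨_, ψ, h2, h3, h4⟩ := mem_Bnd_succ.mp hu
  have hi : Iv Γ (cut I φ) := cut_iv h.invI fun g hg l _ => hφ.1 g hg l
  have hx : cut I φ + ψ ∈ Cyc Γ D' n C := by
    refine ⟨hi.add h2, Z0.add ?_ (h3.mono fun x hx => ⟨hx.1, h.hD hx⟩), ?_⟩
    · rw [h.sub']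
      exact hφ.2.1.congr fun l _ hl => (cut_eq fun x hx => (hl x hx).1).symm
    · rw [dd_add']
      exact h4
  refine ⟨cl _ hx, ?_⟩
  rw [res_cl, cl_eq_cl]
  refine Bnd_of_Z0 ((hi.add h2).add hφ.1) ?_
  rw [← h.hI] at h3
  refine h3.congr fun l _ hl => ?_
  rw [Pi.add_apply, Pi.add_apply, cut_eq hl]
  have := z2_add_self (φ l)
  linear_combination -this

theorem dP_res (h : Prs Γ D D' I C) {n : ℕ} (x : H Γ D' n C) : dP h n (res h.IC n x) = 0 := by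
  obtain ⟨φ, hφ, rfl⟩ := cl_surj x
  rw [res_cl]
  have h1 : (0 : List X → ZMod 2) ∈ Cyc Γ D (n + 1) C := (Cyc Γ D (n + 1) C).zero_mem
  have h2 : cl (0 : List X → ZMod 2) h1 = 0 := by
    rw [cl_eq_zero]
    exact (Bnd Γ D (n + 1) C).zero_mem
  rw [← h2]
  refine dP_of h _ h1 hφ.1 ?_ ?_
  · rw [add_self]
    exact Z0.zero _ _
  · rw [zero_add]
    exact hφ.2.2

/-! ### products -/

theorem dP_cup (h : Prs Γ D D' I C) {n q m : ℕ} (hm : n + q = m) (u : H Γ D' n I)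
    (c : H Γ ∅ q C) : dP h m (cupH D' m u (res h.IC q c)) = cupH D (m + 1) (dP h n u) c := by
  obtain ⟨φ, hφ, rfl⟩ := cl_surj u
  obtain ⟨γ, hγ, rfl⟩ := cl_surj c
  have hi : Iv Γ (cut I φ) := cut_iv h.invI fun g hg l _ => hφ.1 g hg l
  rw [res_cl, cupH_cl hm (Or.inl Set.inter_subset_right), dP_cl h hφ,
    cupH_cl (by omega : n + 1 + q = m + 1) (Or.inl Set.inter_subset_right)]
  refine dP_of h _ _ (cup_iv n hi hγ.1) ?_ ?_
  · refine (Z0.zero _ _).congr fun l _ hl => ?_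
    rw [Pi.add_apply]
    unfold cup
    rw [cut_eq fun x hx => hl x (List.mem_of_mem_take hx), z2_add_self]
    rfl
  · have h2 : Z0 (m + 2) C (cup n (cut I φ) (dd γ)) :=
      cup_z0_right (p := n) (q := q + 1) (n := m + 1) (by omega) hγ.2.2
    refine h2.congr fun l hl _ => ?_
    rw [Pi.add_apply, leibniz n _ _ l (by omega)]
    have := z2_add_self (cup (n + 1) (dd (cut I φ)) γ l)
    linear_combination -this

theorem cup_dP (h : Prs Γ D D' I C) {n q m : ℕ} (hm : q + n = m) (u : H Γ D' n I)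
    (c : H Γ ∅ q C) : dP h m (cupH D' m (res h.IC q c) u) = cupH D (m + 1) c (dP h n u) := by
  obtain ⟨φ, hφ, rfl⟩ := cl_surj u
  obtain ⟨γ, hγ, rfl⟩ := cl_surj c
  have hi : Iv Γ (cut I φ) := cut_iv h.invI fun g hg l _ => hφ.1 g hg l
  rw [res_cl, cupH_cl hm (Or.inr Set.inter_subset_right), dP_cl h hφ,
    cupH_cl (by omega : q + (n + 1) = m + 1) (Or.inr Set.inter_subset_right)]
  refine dP_of h _ _ (cup_iv q hγ.1 hi) ?_ ?_
  · refine (Z0.zero _ _).congr fun l _ hl => ?_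
    rw [Pi.add_apply]
    unfold cup
    rw [cut_eq fun x hx => hl x (List.mem_of_mem_drop hx), z2_add_self]
    rfl
  · have h2 : Z0 (m + 2) C (cup (q + 1) (dd γ) (cut I φ)) :=
      cup_z0_left (p := q + 1) (q := n) (n := m + 1) (by omega) hγ.2.2
    refine h2.congr fun l hl _ => ?_
    rw [Pi.add_apply, leibniz q _ _ l (by omega)]
    have := z2_add_self (cup q γ (dd (cut I φ)) l)
    linear_combination -this

end basics

/-- naturality of the connecting map -/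
theorem pull_dP {Γ : Subgroup (X ≃ᵢ X)} {D D' I C : Set X} {Γ₁ : Subgroup (Y ≃ᵢ Y)}
    {D₁ D₁' I₁ C₁ : Set Y} (h : Prs Γ D D' I C) (h₁ : Prs Γ₁ D₁ D₁' I₁ C₁) {f : X → Y}
    (hC : Adm Γ D C Γ₁ D₁ C₁ f) (hI : Adm Γ D' I Γ₁ D₁' I₁ f) {n : ℕ} (u : H Γ₁ D₁' n I₁) :
    pull f hC (n + 1) (dP h₁ n u) = dP h n (pull f hI n u) := by
  obtain ⟨φ, hφ, rfl⟩ := cl_surj u
  have hi : Iv Γ₁ (cut I₁ φ) := cut_iv h₁.invI fun g hg l _ => hφ.1 g hg l
  rw [dP_cl, pull_cl, pull_cl]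
  refine (dP_of h _ _ (η := fun l => cut I₁ φ (l.map f)) (hC.iv hi) ?_ ?_).symm
  · refine (Z0.zero _ _).congr fun l _ hl => ?_
    rw [Pi.add_apply, cut_eq, z2_add_self]
    · rfl
    · intro y hy
      obtain ⟨x, hx, rfl⟩ := List.mem_map.mp hy
      exact hI.maps x (hl x hx)
  · refine (Z0.zero _ _).congr fun l _ _ => ?_
    rw [Pi.add_apply, dd_map, z2_add_self]
    rfl

/-- in particular it commutes with restriction -/
theorem res_dP {Γ : Subgroup (X ≃ᵢ X)} {D D' I C J B : Set X} (h : Prs Γ D D' I C)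
    (h' : Prs Γ D D' J B) (hB : B ⊆ C) (hJ : J ⊆ I) {n : ℕ} (u : H Γ D' n I) :
    res hB (n + 1) (dP h n u) = dP h' n (res hJ n u) :=
  pull_dP h' h _ _ u

end AS
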