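import Pool.Agent.Lib.AS.AllL
import Pool.Agent.Lib.AS.Pair
import Pool.Agent.Lib.AS.GysC

/-!
# The theorems of Vietoris-Begle and Leray-Hirsch for the whole total space

`h : Fib Γ D E ⊥ D' S f`; the statements `W1a`, `W2a`, `W3a`, `W4a` for `C = S` with `E` in place of
`ov E f S`.  Powers `pw a k` of a class `a` of degree one.
-/

set_option autoImplicit false

namespace AS

section wrappers

variable {X B : Type} [MetricSpace X] [MetricSpace B] {Γ : Subgroup (X ≃ᵢ X)} {D E : Set X}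
  {Γ' : Subgroup (B ≃ᵢ B)} {D' S : Set B} {f : X → B}

theorem Fib.ovS (h : Fib Γ D E Γ' D' S f) : ov E f S = E :=
  Set.inter_eq_left.mpr fun x hx => h.maps x hx

theorem Fib.adE (h : Fib Γ D E Γ' D' S f) : Adm Γ D E Γ' D' S f := by
  have h1 := h.adm S
  rwa [h.ovS] at h1

theorem Fib.adE0 (h : Fib Γ D E Γ' D' S f) : Adm Γ ∅ E Γ' ∅ S f := by
  have h1 := h.adm0 S
  rwa [h.ovS] at h1

/-- the same map with the empty pair parameters -/
theorem Fib.abs (h : Fib Γ D E Γ' D' S f) : Fib Γ ∅ E Γ' ∅ S f where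
  fb := ⟨h.fb.okE, OkD.empty Γ, h.fb.cont, h.fb.eqv⟩
  fin := h.fin
  okS := h.okS
  okD' := OkD.empty Γ'
  maps := h.maps
  hD := fun _ _ => ⟨fun hx => hx.elim, fun hx => hx.elim⟩

/-- Vietoris-Begle -/
theorem LHa (h : Fib Γ D E ⊥ D' S f) (ha : ∀ p ∈ S, p ∉ D' → Acy Γ (ov E f {p})) (n : ℕ) :
    Function.Bijective (pull f h.adE n) := by
  have key : ∀ (E' : Set X) (_ : E' = E) (hh : Adm Γ D E' ⊥ D' S f),
      Function.Bijective (pull f hh n) → Function.Bijective (pull f h.adE n) := by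
    rintro _ rfl hh h1
    exact h1
  exact key _ h.ovS (h.adm S) (okW1a X B Γ D E D' S f h ha S h.okS.cpt (Set.Subset.refl S) n)

/-- Leray-Hirsch, basis `1, b` in the degrees `0, d` -/
theorem LHb (h : Fib Γ D E ⊥ D' S f) (d : ℕ) (b : H Γ ∅ d E) (hd : 1 ≤ d)
    (hb : ∀ p ∈ S, p ∉ D' → Bas2 Γ (ov E f {p}) d (res (ov_sub E f {p}) d b)) :
    (∀ n < d, Function.Bijective (pull f h.adE n)) ∧
    ∀ m, Function.Bijective (fun z : H ⊥ D' (m + d) S × H ⊥ D' m S =>
      pull f h.adE (m + d) z.1 + cupH D (m + d) (pull f h.adE m z.2) b) := by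
  have key : ∀ (E' : Set X) (_ : E' = E) (hs : E' ⊆ E) (hh : Adm Γ D E' ⊥ D' S f),
      ((∀ n < d, Function.Bijective (pull f hh n)) ∧
      ∀ m, Function.Bijective (fun z : H ⊥ D' (m + d) S × H ⊥ D' m S =>
        pull f hh (m + d) z.1 + cupH D (m + d) (pull f hh m z.2) (res hs d b))) →
      ((∀ n < d, Function.Bijective (pull f h.adE n)) ∧
      ∀ m, Function.Bijective (fun z : H ⊥ D' (m + d) S × H ⊥ D' m S =>
        pull f h.adE (m + d) z.1 + cupH D (m + d) (pull f h.adE m z.2) b)) := by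
    rintro _ rfl hs hh h1
    rw [res_self] at h1
    exact h1
  exact key _ h.ovS (ov_sub E f S) (h.adm S)
    (okW2a X B Γ D E D' S f h d b hd hb S h.okS.cpt (Set.Subset.refl S))

/-- Leray-Hirsch, basis `1, a, c` in the degrees `0, 1, 2` -/
theorem LHc (h : Fib Γ D E ⊥ D' S f) (a : H Γ ∅ 1 E) (c : H Γ ∅ 2 E)
    (hb : ∀ p ∈ S, p ∉ D' → Bas3 Γ (ov E f {p}) (res (ov_sub E f {p}) 1 a)
      (res (ov_sub E f {p}) 2 c)) :
    Function.Bijective (pull f h.adE 0) ∧
    Function.Bijective (fun z : H ⊥ D' 1 S × H ⊥ D' 0 S =>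
      pull f h.adE 1 z.1 + cupH D 1 (pull f h.adE 0 z.2) a) ∧
    ∀ m, Function.Bijective (fun z : H ⊥ D' (m + 2) S × H ⊥ D' (m + 1) S × H ⊥ D' m S =>
      pull f h.adE (m + 2) z.1 + cupH D (m + 2) (pull f h.adE (m + 1) z.2.1) a +
        cupH D (m + 2) (pull f h.adE m z.2.2) c) := by
  have key : ∀ (E' : Set X) (_ : E' = E) (hs : E' ⊆ E) (hh : Adm Γ D E' ⊥ D' S f),
      (Function.Bijective (pull f hh 0) ∧
      Function.Bijective (fun z : H ⊥ D' 1 S × H ⊥ D' 0 S =>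
        pull f hh 1 z.1 + cupH D 1 (pull f hh 0 z.2) (res hs 1 a)) ∧
      ∀ m, Function.Bijective (fun z : H ⊥ D' (m + 2) S × H ⊥ D' (m + 1) S × H ⊥ D' m S =>
        pull f hh (m + 2) z.1 + cupH D (m + 2) (pull f hh (m + 1) z.2.1) (res hs 1 a) +
          cupH D (m + 2) (pull f hh m z.2.2) (res hs 2 c))) →
      (Function.Bijective (pull f h.adE 0) ∧
      Function.Bijective (fun z : H ⊥ D' 1 S × H ⊥ D' 0 S =>
        pull f h.adE 1 z.1 + cupH D 1 (pull f h.adE 0 z.2) a) ∧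
      ∀ m, Function.Bijective (fun z : H ⊥ D' (m + 2) S × H ⊥ D' (m + 1) S × H ⊥ D' m S =>
        pull f h.adE (m + 2) z.1 + cupH D (m + 2) (pull f h.adE (m + 1) z.2.1) a +
          cupH D (m + 2) (pull f h.adE m z.2.2) c)) := by
    rintro _ rfl hs hh h1
    simp only [res_self] at h1
    exact h1
  exact key _ h.ovS (ov_sub E f S) (h.adm S)
    (okW3a X B Γ D E D' S f h a c hb S h.okS.cpt (Set.Subset.refl S))

/-- Leray-Hirsch, basis `1, a, c, e` in the degrees `0, 1, 2, 3` -/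
theorem LHd (h : Fib Γ D E ⊥ D' S f) (a : H Γ ∅ 1 E) (c : H Γ ∅ 2 E) (e : H Γ ∅ 3 E)
    (hb : ∀ p ∈ S, p ∉ D' → Bas4 Γ (ov E f {p}) (res (ov_sub E f {p}) 1 a)
      (res (ov_sub E f {p}) 2 c) (res (ov_sub E f {p}) 3 e)) :
    ∀ m, Function.Bijective (fun z : H ⊥ D' (m + 3) S × H ⊥ D' (m + 2) S × H ⊥ D' (m + 1) S ×
        H ⊥ D' m S =>
      pull f h.adE (m + 3) z.1 + cupH D (m + 3) (pull f h.adE (m + 2) z.2.1) a +
        cupH D (m + 3) (pull f h.adE (m + 1) z.2.2.1) c +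
        cupH D (m + 3) (pull f h.adE m z.2.2.2) e) := by
  have key : ∀ (E' : Set X) (_ : E' = E) (hs : E' ⊆ E) (hh : Adm Γ D E' ⊥ D' S f),
      (∀ m, Function.Bijective (fun z : H ⊥ D' (m + 3) S × H ⊥ D' (m + 2) S ×
          H ⊥ D' (m + 1) S × H ⊥ D' m S =>
        pull f hh (m + 3) z.1 + cupH D (m + 3) (pull f hh (m + 2) z.2.1) (res hs 1 a) +
          cupH D (m + 3) (pull f hh (m + 1) z.2.2.1) (res hs 2 c) +
          cupH D (m + 3) (pull f hh m z.2.2.2) (res hs 3 e))) →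
      (∀ m, Function.Bijective (fun z : H ⊥ D' (m + 3) S × H ⊥ D' (m + 2) S ×
          H ⊥ D' (m + 1) S × H ⊥ D' m S =>
        pull f h.adE (m + 3) z.1 + cupH D (m + 3) (pull f h.adE (m + 2) z.2.1) a +
          cupH D (m + 3) (pull f h.adE (m + 1) z.2.2.1) c +
          cupH D (m + 3) (pull f h.adE m z.2.2.2) e)) := by
    rintro _ rfl hs hh h1
    simp only [res_self] at h1
    exact h1
  exact key _ h.ovS (ov_sub E f S) (h.adm S)
    (okW4a X B Γ D E D' S f h a c e hb S h.okS.cpt (Set.Subset.refl S))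

end wrappers

/-! ## powers of a class of degree one -/

section powers

variable {X Y : Type} [MetricSpace X] [MetricSpace Y] {Γ : Subgroup (X ≃ᵢ X)} {C C' D : Set X}

/-- powers of a class of degree one -/
noncomputable def pw (a : H Γ ∅ 1 C) : (k : ℕ) → H Γ ∅ k C
  | 0 => one Γ C
  | k + 1 => cupH ∅ (k + 1) (pw a k) a

theorem pw_zero (a : H Γ ∅ 1 C) : pw a 0 = one Γ C := rfl

theorem pw_succ (a : H Γ ∅ 1 C) (k : ℕ) : pw a (k + 1) = cupH ∅ (k + 1) (pw a k) a := rfl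

theorem pw_one (a : H Γ ∅ 1 C) : pw a 1 = a := one_cupH a

theorem pull_pw {Γ' : Subgroup (Y ≃ᵢ Y)} {E : Set Y} {f : X → Y} (h : Adm Γ ∅ C Γ' ∅ E f)
    (a : H Γ' ∅ 1 E) (k : ℕ) : pull f h k (pw a k) = pw (pull f h 1 a) k := by
  induction k with
  | zero => rfl
  | succ k ih =>
    rw [pw_succ, pw_succ, ← ih]
    exact pull_cupH rfl (Or.inl Set.inter_subset_right) (Or.inl Set.inter_subset_right) h h h _ _

theorem res_pw (h : C' ⊆ C) (a : H Γ ∅ 1 C) (k : ℕ) : res h k (pw a k) = pw (res h 1 a) k := by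
  induction k with
  | zero => rfl
  | succ k ih =>
    rw [pw_succ, pw_succ, ← ih]
    exact res_cupH h rfl (Or.inl Set.inter_subset_right) _ _

theorem pw_add (a : H Γ ∅ 1 C) {p q n : ℕ} (h : p + q = n) :
    cupH ∅ n (pw a p) (pw a q) = pw a n := by
  subst h
  induction q with
  | zero => exact cupH_one _
  | succ q ih =>
    rw [pw_succ, ← cupH_assoc (m := p + q) rfl (by omega) rfl (by omega)
      (Or.inl Set.inter_subset_right) (Or.inl Set.inter_subset_right)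
      (Or.inl Set.inter_subset_right) (Or.inl Set.inter_subset_right), ih]
    rfl

/-- a class of degree one commutes with everything -/
theorem cup_comm (a : H Γ ∅ 1 C) {q n : ℕ} (h : q + 1 = n) (y : H Γ D q C) :
    cupH D n a y = cupH D n y a := by
  subst h
  exact okK1 X Γ D C q a y

theorem pw_zero_of_le (a : H Γ ∅ 1 C) {p q : ℕ} (h : p ≤ q) (hp : pw a p = 0) : pw a q = 0 := by
  obtain ⟨k, rfl⟩ := Nat.exists_eq_add_of_le h
  rw [← pw_add a (p := p) (q := k) rfl, hp]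
  exact cupH_zero_left rfl (Or.inl Set.inter_subset_right) _

theorem pw_of_zero {a : H Γ ∅ 1 C} (ha : a = 0) (k : ℕ) : pw a (k + 1) = 0 := by
  rw [pw_succ, ha]
  exact cupH_zero_right rfl (Or.inl Set.inter_subset_right) _

end powers

theorem ap_eq_pw {E : Type} [NormedAddCommGroup E] [NormedSpace ℝ E] {A : Set E}
    (h0 : (0 : E) ∉ A) (k : ℕ) : ap k A h0 = pw (ap 1 A h0) k := by
  induction k with
  | zero => exact ap_zero_eq h0
  | succ k ih => rw [pw_succ, ← ih, cupH_ap h0 rfl]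

end AS
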