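import Pool.Agent.Lib.AS.ChK

/-!
# The theorems over quotients `S / Γ'` for the whole total space

`h : Fib Γ D E Γ' D' S f`, `q : Quo Γ K E Γ' f`.
-/

set_option autoImplicit false

namespace AS

section wrappers

variable {X B : Type} [MetricSpace X] [MetricSpace B] {Γ K : Subgroup (X ≃ᵢ X)} {D E : Set X}
  {Γ' : Subgroup (B ≃ᵢ B)} {D' S : Set B} {f : X → B}

theorem Fib.adS (h : Fib Γ D E Γ' D' S f) : Ad Γ' S S := ⟨h.okS.cpt, h.okS.inv, Set.Subset.refl S⟩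

/-- Vietoris-Begle -/
theorem LHa' (h : Fib Γ D E Γ' D' S f) (q : Quo Γ K E Γ' f)
    (ha : ∀ p ∈ S, p ∉ D' → Acy K (ov E f {p})) (n : ℕ) :
    Function.Bijective (pull f h.adE n) := by
  have key : ∀ (E' : Set X) (_ : E' = E) (hh : Adm Γ D E' Γ' D' S f),
      Function.Bijective (pull f hh n) → Function.Bijective (pull f h.adE n) := by
    rintro _ rfl hh h1
    exact h1
  exact key _ h.ovS (h.adm S) (okW1b X B Γ K D E Γ' D' S f h q ha S h.adS n)

/-- Leray-Hirsch, basis `1, b` in the degrees `0, d` -/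
theorem LHb' (h : Fib Γ D E Γ' D' S f) (q : Quo Γ K E Γ' f) (d : ℕ) (b : H Γ ∅ d E) (hd : 1 ≤ d)
    (hb : ∀ p ∈ S, p ∉ D' → Bas2 K (ov E f {p}) d (rk q.le (ov_sub E f {p}) d b)) :
    (∀ n < d, Function.Bijective (pull f h.adE n)) ∧
    ∀ m, Function.Bijective (fun z : H Γ' D' (m + d) S × H Γ' D' m S =>
      pull f h.adE (m + d) z.1 + cupH D (m + d) (pull f h.adE m z.2) b) := by
  have key : ∀ (E' : Set X) (_ : E' = E) (hs : E' ⊆ E) (hh : Adm Γ D E' Γ' D' S f),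
      ((∀ n < d, Function.Bijective (pull f hh n)) ∧
      ∀ m, Function.Bijective (fun z : H Γ' D' (m + d) S × H Γ' D' m S =>
        pull f hh (m + d) z.1 + cupH D (m + d) (pull f hh m z.2) (res hs d b))) →
      ((∀ n < d, Function.Bijective (pull f h.adE n)) ∧
      ∀ m, Function.Bijective (fun z : H Γ' D' (m + d) S × H Γ' D' m S =>
        pull f h.adE (m + d) z.1 + cupH D (m + d) (pull f h.adE m z.2) b)) := by
    rintro _ rfl hs hh h1
    rw [res_self] at h1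
    exact h1
  exact key _ h.ovS (ov_sub E f S) (h.adm S)
    (okW2b X B Γ K D E Γ' D' S f h q d b hd hb S h.adS)

/-- Leray-Hirsch, basis `1, a, c` in the degrees `0, 1, 2` -/
theorem LHc' (h : Fib Γ D E Γ' D' S f) (q : Quo Γ K E Γ' f) (a : H Γ ∅ 1 E) (c : H Γ ∅ 2 E)
    (hb : ∀ p ∈ S, p ∉ D' → Bas3 K (ov E f {p}) (rk q.le (ov_sub E f {p}) 1 a)
      (rk q.le (ov_sub E f {p}) 2 c)) :
    Function.Bijective (pull f h.adE 0) ∧
    Function.Bijective (fun z : H Γ' D' 1 S × H Γ' D' 0 S =>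
      pull f h.adE 1 z.1 + cupH D 1 (pull f h.adE 0 z.2) a) ∧
    ∀ m, Function.Bijective (fun z : H Γ' D' (m + 2) S × H Γ' D' (m + 1) S × H Γ' D' m S =>
      pull f h.adE (m + 2) z.1 + cupH D (m + 2) (pull f h.adE (m + 1) z.2.1) a +
        cupH D (m + 2) (pull f h.adE m z.2.2) c) := by
  have key : ∀ (E' : Set X) (_ : E' = E) (hs : E' ⊆ E) (hh : Adm Γ D E' Γ' D' S f),
      (Function.Bijective (pull f hh 0) ∧
      Function.Bijective (fun z : H Γ' D' 1 S × H Γ' D' 0 S =>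
        pull f hh 1 z.1 + cupH D 1 (pull f hh 0 z.2) (res hs 1 a)) ∧
      ∀ m, Function.Bijective (fun z : H Γ' D' (m + 2) S × H Γ' D' (m + 1) S × H Γ' D' m S =>
        pull f hh (m + 2) z.1 + cupH D (m + 2) (pull f hh (m + 1) z.2.1) (res hs 1 a) +
          cupH D (m + 2) (pull f hh m z.2.2) (res hs 2 c))) →
      (Function.Bijective (pull f h.adE 0) ∧
      Function.Bijective (fun z : H Γ' D' 1 S × H Γ' D' 0 S =>
        pull f h.adE 1 z.1 + cupH D 1 (pull f h.adE 0 z.2) a) ∧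
      ∀ m, Function.Bijective (fun z : H Γ' D' (m + 2) S × H Γ' D' (m + 1) S × H Γ' D' m S =>
        pull f h.adE (m + 2) z.1 + cupH D (m + 2) (pull f h.adE (m + 1) z.2.1) a +
          cupH D (m + 2) (pull f h.adE m z.2.2) c)) := by
    rintro _ rfl hs hh h1
    simp only [res_self] at h1
    exact h1
  exact key _ h.ovS (ov_sub E f S) (h.adm S)
    (okW3b X B Γ K D E Γ' D' S f h q a c hb S h.adS)

/-- dimension -/
theorem LDim (h : Fib Γ D E Γ' D' S f) (q : Quo Γ K E Γ' f) {d m : ℕ}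
    (hm : ∀ p ∈ S, p ∉ D' → ∀ n, m ≤ n → ∀ x : H K D n (ov E f {p}), x = 0) (hd : Dm Γ' d S)
    {n : ℕ} (hn : m + d ≤ n) (x : H Γ D n E) : x = 0 := by
  have key : ∀ (E' : Set X) (_ : E' = E), (∀ x : H Γ D n E', x = 0) → ∀ x : H Γ D n E, x = 0 := by
    rintro _ rfl h1
    exact h1
  exact key _ h.ovS (okDIMb X B Γ K D E Γ' D' S f d m h q hm S h.adS hd n hn) x

/-- dimension, ordinary base -/
theorem LDim0 (h : Fib Γ D E ⊥ D' S f) {d m : ℕ} (g : B → Fin d → ℝ) (hg : ContinuousOn g S)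
    (hi : Set.InjOn g S) (hm : ∀ p ∈ S, ∀ n, m ≤ n → ∀ x : H Γ D n (ov E f {p}), x = 0)
    {n : ℕ} (hn : m + d ≤ n) (x : H Γ D n E) : x = 0 := by
  have key : ∀ (E' : Set X) (_ : E' = E), (∀ x : H Γ D n E', x = 0) → ∀ x : H Γ D n E, x = 0 := by
    rintro _ rfl h1
    exact h1
  exact key _ h.ovS (okDIM X B Γ D E S f d m g h.fb hg hi hm S h.okS.cpt (Set.Subset.refl S) n hn) x

end wrappers

section restriction

variable {X B : Type} [MetricSpace X] [MetricSpace B] {Γ K : Subgroup (X ≃ᵢ X)} {D E : Set X}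
  {Γ' : Subgroup (B ≃ᵢ B)} {D' S : Set B} {f : X → B}

/-- the part over a closed subset `C` of the base, with new pair parameters -/
theorem Fib.rs (h : Fib Γ D E Γ' D' S f) {C : Set B} (hC : Ad Γ' S C) {D₁ E₁ : Set X} {D₁' : Set B}
    (hE : ∀ x, x ∈ E₁ ↔ x ∈ E ∧ f x ∈ C) (o₁ : OkD Γ D₁) (o₂ : OkD Γ' D₁')
    (hD : ∀ x ∈ E₁, x ∈ D₁ ↔ f x ∈ D₁') : Fib Γ D₁ E₁ Γ' D₁' C f where
  fb := by
    have hs : E₁ ⊆ E := fun x hx => ((hE x).mp hx).1
    have he : E₁ = E ∩ f ⁻¹' C := Set.ext hE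
    refine ⟨⟨?_, ?_, h.fb.okE.fr.mono hs⟩, o₁, h.fb.cont.mono hs, h.fb.eqv⟩
    · rw [he]
      refine h.fb.okE.cpt.of_isClosed_subset ?_ Set.inter_subset_left
      exact h.fb.cont.preimage_isClosed_of_isClosed h.fb.okE.cpt.isClosed hC.cpt.isClosed
    · intro g hg x hx
      obtain ⟨h1, h2⟩ := (hE x).mp hx
      refine (hE _).mpr ⟨h.fb.okE.inv g hg x h1, ?_⟩
      obtain ⟨g', hg', h3⟩ := h.fb.eqv g hg
      rw [h3]
      exact hC.inv g' hg' _ h2
  fin := h.fin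
  okS := ⟨hC.cpt, hC.inv, h.okS.fr.mono hC.sub⟩
  okD' := o₂
  maps := fun x hx => ((hE x).mp hx).2
  hD := hD

theorem Quo.mono (q : Quo Γ K E Γ' f) {E₁ : Set X} (h : E₁ ⊆ E) : Quo Γ K E₁ Γ' f :=
  ⟨q.fin, q.le, q.triv, fun g hg hg' x hx => q.free g hg hg' x (h hx), q.surj⟩

end restriction

end AS
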