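import Pool.Agent.Lib.AS.SpecMV

/-!
# Alexander-Spanier cohomology, M1: near points of two compact sets
-/

set_option autoImplicit false

namespace AS

/-- **M1.** -/
theorem pM1 : M1 := by
  intro X _ A B hA hB ρ hρ
  have hKc : IsCompact ((A ×ˢ B) ∩ {p : X × X | ∀ z ∈ A ∩ B, ρ ≤ dist p.1 z}) := by
    refine (hA.prod hB).inter_right ?_
    have h1 : {p : X × X | ∀ z ∈ A ∩ B, ρ ≤ dist p.1 z} =
        ⋂ z ∈ A ∩ B, {p : X × X | ρ ≤ dist p.1 z} := by
      ext p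
      simp only [Set.mem_setOf_eq, Set.mem_iInter]
    rw [h1]
    exact isClosed_biInter fun z _ => isClosed_le continuous_const
      (continuous_fst.dist continuous_const)
  rcases Set.eq_empty_or_nonempty ((A ×ˢ B) ∩ {p : X × X | ∀ z ∈ A ∩ B, ρ ≤ dist p.1 z}) with
    hK | hK
  · refine ⟨1, one_pos, fun x hx y hy _ => ?_⟩
    by_contra hcon
    push Not at hcon
    have : (x, y) ∈ (A ×ˢ B) ∩ {p : X × X | ∀ z ∈ A ∩ B, ρ ≤ dist p.1 z} := ⟨⟨hx, hy⟩, hcon⟩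
    rw [hK] at this
    exact this
  · obtain ⟨p, hp, hmin⟩ := hKc.exists_isMinOn hK (continuous_dist.continuousOn)
    refine ⟨dist p.1 p.2, ?_, fun x hx y hy hxy => ?_⟩
    · refine dist_pos.2 fun h => ?_
      have h1 : p.1 ∈ A ∩ B := ⟨hp.1.1, h ▸ hp.1.2⟩
      have h2 := hp.2 p.1 h1
      rw [dist_self] at h2
      exact absurd h2 (not_le.2 hρ)
    · by_contra hcon
      push Not at hcon
      have h1 : (x, y) ∈ (A ×ˢ B) ∩ {p : X × X | ∀ z ∈ A ∩ B, ρ ≤ dist p.1 z} := ⟨⟨hx, hy⟩, hcon⟩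
      have h2 := isMinOn_iff.1 hmin (x, y) h1
      exact absurd hxy (not_lt.2 h2)

end AS
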