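import Pool.Agent.Lib.AS.LHq

/-!
# Parts of a total space over closed sets, fibres, the closed set where a class does not vanish
-/

set_option autoImplicit false

namespace AS

section orbits

variable {B : Type} [MetricSpace B] {Γ : Subgroup (B ≃ᵢ B)} {S : Set B}

theorem mem_orb_self (Γ : Subgroup (B ≃ᵢ B)) (p : B) : p ∈ orb Γ p := ⟨1, Γ.one_mem, rfl⟩

theorem ivS_orb (Γ : Subgroup (B ≃ᵢ B)) (p : B) : IvS Γ (orb Γ p) := by
  rintro g hg x ⟨g', hg', rfl⟩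
  exact ⟨g * g', Γ.mul_mem hg hg', rfl⟩

theorem orb_apply {g : B ≃ᵢ B} (hg : g ∈ Γ) (p : B) : orb Γ (g p) = orb Γ p := by
  ext x
  constructor
  · rintro ⟨g', hg', rfl⟩
    exact ⟨g' * g, Γ.mul_mem hg' hg, rfl⟩
  · rintro ⟨g', hg', rfl⟩
    refine ⟨g' * g⁻¹, Γ.mul_mem hg' (Γ.inv_mem hg), ?_⟩
    change g' p = g' (g⁻¹ (g p))
    rw [IsometryEquiv.inv_apply_self]

theorem ad_orb (hΓ : (Γ : Set (B ≃ᵢ B)).Finite) (hS : IvS Γ S) {p : B} (hp : p ∈ S) :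
    Ad Γ S (orb Γ p) := (okL0 B Γ S p hΓ hS hp).1.1

end orbits

theorem ov_mono {X C : Type} {F : Set X} {g : X → C} {A A' : Set C} (hs : A ⊆ A') :
    ov F g A ⊆ ov F g A' := fun _ hx => ⟨hx.1, hs hx.2⟩

/-- the fibre over a point, in the part over `A` -/
theorem ov_ov {X C : Type} {F : Set X} {g : X → C} {A : Set C} {z : C} (hz : z ∈ A) :
    ov F g {z} = ov (ov F g A) g {z} := by
  ext x
  constructor
  · rintro ⟨h1, h2⟩
    refine ⟨⟨h1, ?_⟩, h2⟩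
    have h3 : g x = z := h2
    change g x ∈ A
    rwa [h3]
  · rintro ⟨⟨h1, _⟩, h2⟩
    exact ⟨h1, h2⟩

theorem ov_disj {X C : Type} {F : Set X} {g : X → C} {A : Set C} {z : C} (hz : z ∉ A)
    (P : Set X) : ov P g {z} ∩ ov F g A = ∅ := by
  ext x
  constructor
  · rintro ⟨⟨_, h1⟩, _, h2⟩
    have h3 : g x = z := h1
    have h4 : g x ∈ A := h2
    rw [h3] at h4
    exact hz h4
  · exact fun hx => hx.elim

section parts

variable {X C : Type} [MetricSpace X] [MetricSpace C] {Γ K : Subgroup (X ≃ᵢ X)} {F D : Set X}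
  {Γ₂ : Subgroup (C ≃ᵢ C)} {M D' : Set C} {g : X → C}

theorem Fib.okov (h : Fib Γ D F Γ₂ D' M g) {A : Set C} (hA : Ad Γ₂ M A) : Ok Γ (ov F g A) :=
  (h.fb.sf okL3 M).ok hA

/-- the part over `A'` relative to the part over `A` -/
theorem Fib.two (h : Fib Γ D F Γ₂ D' M g) {A A' : Set C} (hA : Ad Γ₂ M A) (hA' : Ad Γ₂ M A') :
    Fib Γ (ov F g A) (ov F g A') Γ₂ A A' g where
  fb := ⟨h.okov hA', ⟨(h.okov hA).cpt.isClosed, (h.okov hA).inv⟩, h.fb.cont.mono (ov_sub F g A'),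
    h.fb.eqv⟩
  fin := h.fin
  okS := ⟨hA'.cpt, hA'.inv, h.okS.fr.mono hA'.sub⟩
  okD' := ⟨hA.cpt.isClosed, hA.inv⟩
  maps := fun _ hx => hx.2
  hD := fun _ hx => ⟨fun hx' => hx'.2, fun hx' => ⟨hx.1, hx'⟩⟩

/-- the part over `A` -/
theorem Fib.part (h : Fib Γ D F Γ₂ D' M g) {A : Set C} (hA : Ad Γ₂ M A) :
    Fib Γ ∅ (ov F g A) Γ₂ ∅ A g := (h.two hA hA).abs

/-- the pair of the parts -/
theorem Fib.prs (h : Fib Γ D F Γ₂ D' M g) {A A' : Set C} (hA : Ad Γ₂ M A) (hA' : Ad Γ₂ M A')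
    (hs : A ⊆ A') : Prs Γ (ov F g A) ∅ (ov F g A) (ov F g A') :=
  ⟨(h.okov hA').inv, (h.okov hA).inv,
    (Set.inter_eq_right.mpr (ov_mono hs)).symm, fun _ hx => hx.2.elim⟩

theorem prsA {A A' : Set C} (hA : Ad Γ₂ M A) (hA' : Ad Γ₂ M A') (hs : A ⊆ A') :
    Prs Γ₂ A ∅ A A' :=
  ⟨hA'.inv, hA.inv, (Set.inter_eq_right.mpr hs).symm, fun _ hx => hx.2.elim⟩

/-- relative groups of sets which do not meet `D` -/
theorem rel_vanish {n : ℕ} {P : Set X} (hP : P ∩ D = ∅) (h : ∀ x : H K ∅ n P, x = 0)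
    (x : H K D n P) : x = 0 := by
  have h1 := okL4 X K D P n hP
  apply h1.1
  rw [h (pull _ _ n x), map_zero]

variable {n : ℕ}

/-- vanishing on the fibre and over the orbit -/
theorem rk_zero_iff (h : Fib Γ ∅ F Γ₂ ∅ M g) (q : Quo Γ K F Γ₂ g) {z : C} (hz : z ∈ M)
    (y : H Γ ∅ n F) :
    rk q.le (ov_sub F g {z}) n y = 0 ↔ res (ov_sub F g (orb Γ₂ z)) n y = 0 := by
  have h1 := (okQ1 X C Γ K ∅ F Γ₂ ∅ M g h q z n (Fbr.ov_sub_orb F g Γ₂ z)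
    (Fbr.pt_sub_orb Γ₂ z) hz).1 ∅ (OkD.empty Γ)
  have h2 : rk q.le (Fbr.ov_sub_orb F g Γ₂ z) n (res (ov_sub F g (orb Γ₂ z)) n y) =
      rk q.le (ov_sub F g {z}) n y := rk_res _ _ _ _ _ _
  rw [← h2]
  constructor
  · intro h3
    apply h1.1
    rw [h3, map_zero]
  · intro h3
    rw [h3, map_zero]

/-- a class which vanishes on a fibre vanishes near the fibre -/
theorem near (h : Fib Γ ∅ F Γ₂ ∅ M g) (q : Quo Γ K F Γ₂ g) {z : C} (hz : z ∈ M)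
    (y : H Γ ∅ n F) (hy : rk q.le (ov_sub F g {z}) n y = 0) :
    ∃ ρ > 0, ∀ A : Set C, (∀ x ∈ A, ∃ b ∈ orb Γ₂ z, dist x b < ρ) →
      res (ov_sub F g A) n y = 0 := by
  rw [rk_zero_iff h q hz] at hy
  have had := ad_orb h.fin h.okS.inv hz
  obtain ⟨ρ, hρ, h1⟩ := okT1 X Γ ∅ _ _ n (ov_sub F g (orb Γ₂ z)) y (OkD.empty Γ) (h.okov had)
    h.fb.okE hy
  obtain ⟨ρ', hρ', h2⟩ := okL3 X C F g (orb Γ₂ z) h.fb.okE.cpt h.fb.cont had.cpt ρ hρ
  refine ⟨ρ', hρ', fun A hA => h1 _ (ov_sub F g A) fun x hx => h2 x hx.1 (hA _ hx.2)⟩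

/-- the points of the base over which the class does not vanish -/
def nzs (q : Quo Γ K F Γ₂ g) (M : Set C) (y : H Γ ∅ n F) : Set C :=
  {z | z ∈ M ∧ rk q.le (ov_sub F g {z}) n y ≠ 0}

theorem nzs_ad (h : Fib Γ ∅ F Γ₂ ∅ M g) (q : Quo Γ K F Γ₂ g) (y : H Γ ∅ n F) :
    Ad Γ₂ M (nzs q M y) := by
  have hsub : nzs q M y ⊆ M := fun z hz => hz.1
  refine ⟨?_, ?_, hsub⟩
  · refine h.okS.cpt.of_isClosed_subset ?_ hsub
    rw [← isOpen_compl_iff, Metric.isOpen_iff]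
    intro z hz
    by_cases hzM : z ∈ M
    · have h1 : rk q.le (ov_sub F g {z}) n y = 0 := by
        by_contra h2
        exact hz ⟨hzM, h2⟩
      obtain ⟨ρ, hρ, h3⟩ := near h q hzM y h1
      refine ⟨ρ, hρ, fun z' hz' hz'' => hz''.2 ?_⟩
      have h4 := h3 {z'} (by
        rintro x hx
        rw [Set.mem_singleton_iff.mp hx]
        exact ⟨z, mem_orb_self Γ₂ z, hz'⟩)
      have h5 : rk q.le (Set.Subset.refl (ov F g {z'})) n (res (ov_sub F g {z'}) n y) =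
          rk q.le (ov_sub F g {z'}) n y := rk_res _ _ _ _ _ _
      rw [← h5, h4, map_zero]
    · obtain ⟨ε, hε, h1⟩ := Metric.isOpen_iff.mp h.okS.cpt.isClosed.isOpen_compl z hzM
      exact ⟨ε, hε, fun z' hz' hz'' => h1 hz' hz''.1⟩
  · intro g' hg' z hz
    refine ⟨h.okS.inv g' hg' z hz.1, fun h1 => hz.2 ?_⟩
    rw [rk_zero_iff h q (h.okS.inv g' hg' z hz.1)] at h1
    rw [rk_zero_iff h q hz.1]
    have key : ∀ (A A' : Set C) (_ : A = A'), res (ov_sub F g A) n y = 0 →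
        res (ov_sub F g A') n y = 0 := by
      rintro A _ rfl h2
      exact h2
    exact key _ _ (orb_apply hg' z) h1

end parts

end AS
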