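import Pool.Agent.Lib.AS.RPn
import Pool.Agent.Lib.AS.HC

/-!
# The cohomology of spheres and projective spaces

`SW W`: the unit sphere of the subspace `W` of the (finite-dimensional) inner product space `E`.
`sph_SW`: its ordinary cohomology; `rp_SW`: the cohomology of `SW W / ±`; `sph_sphere`, `rp_sphere`: the
same for the unit sphere of `E`.
-/

set_option autoImplicit false

namespace AS

variable {E : Type} [NormedAddCommGroup E] [InnerProductSpace ℝ E]

/-- the unit sphere of a subspace -/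
def SW (W : Submodule ℝ E) : Set E := {x | x ∈ W ∧ ‖x‖ = 1}

theorem neg_mem_SW {W : Submodule ℝ E} {x : E} (h : x ∈ SW W) : -x ∈ SW W :=
  ⟨W.neg_mem h.1, by rw [norm_neg]; exact h.2⟩

theorem zero_notMem_SW (W : Submodule ℝ E) : (0 : E) ∉ SW W := by
  rintro ⟨_, h⟩
  rw [norm_zero] at h
  exact zero_ne_one h

theorem exists_mem_SW {W : Submodule ℝ E} (h : 0 < Module.finrank ℝ W) : (SW W).Nonempty := by
  have : Nontrivial W := Module.nontrivial_of_finrank_pos h
  obtain ⟨v, hv⟩ := exists_ne (0 : W)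
  have hv' : (v : E) ≠ 0 := fun h => hv (Subtype.ext h)
  have hn : ‖(v : E)‖ ≠ 0 := norm_ne_zero_iff.mpr hv'
  refine ⟨‖(v : E)‖⁻¹ • (v : E), W.smul_mem _ v.2, ?_⟩
  rw [norm_smul, norm_inv, norm_norm, inv_mul_cancel₀ hn]

section fin

variable [FiniteDimensional ℝ E]

theorem isCompact_SW (W : Submodule ℝ E) : IsCompact (SW W) := by
  have h1 : IsClosed (SW W) :=
    (Submodule.closed_of_finiteDimensional W).inter (isClosed_eq continuous_norm continuous_const)
  refine (isCompact_sphere (0 : E) 1).of_isClosed_subset h1 fun x hx => ?_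
  rw [mem_sphere_zero_iff_norm]
  exact hx.2

/-- closed hemispheres are acyclic -/
theorem acy_hemi {W : Submodule ℝ E} {e : E} (he : e ∈ SW W) :
    Acy (⊥ : Subgroup (E ≃ᵢ E)) {x | x ∈ SW W ∧ 0 ≤ inner ℝ e x} := by
  have hee : inner ℝ e e = (1 : ℝ) := by rw [real_inner_self_eq_norm_sq, he.2, one_pow]
  -- the vectors `(1 - t) x + t e`
  have hw : ∀ t ∈ Set.Icc (0 : ℝ) 1, ∀ x, x ∈ SW W ∧ 0 ≤ inner ℝ e x →
      (1 - t) • x + t • e ≠ 0 ∧ 0 ≤ inner ℝ e ((1 - t) • x + t • e) := by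
    rintro t ⟨ht0, ht1⟩ x ⟨hx, hx'⟩
    have h1 : inner ℝ e ((1 - t) • x + t • e) = (1 - t) * inner ℝ e x + t := by
      rw [inner_add_right, inner_smul_right, inner_smul_right, hee, mul_one]
    have h2 : 0 ≤ (1 - t) * inner ℝ e x := mul_nonneg (by linarith) hx'
    refine ⟨fun h0 => ?_, by rw [h1]; linarith⟩
    rw [h0, inner_zero_right] at h1
    have ht : t = 0 := by linarith
    rw [ht, sub_zero, one_smul, zero_smul, add_zero] at h0
    have := hx.2
    rw [h0, norm_zero] at this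
    exact zero_ne_one this
  have hcl : IsClosed {x : E | 0 ≤ inner ℝ e x} :=
    isClosed_le continuous_const (continuous_const.inner continuous_id)
  refine acy_of_contractible (p := e) okN1 okN2 ⟨he, by rw [hee]; exact zero_le_one⟩
    ((isCompact_SW W).inter_right hcl)
    (fun t x => ‖(1 - t) • x + t • e‖⁻¹ • ((1 - t) • x + t • e)) ?_ ?_ ?_ ?_
  · have hc : Continuous fun q : ℝ × E => (1 - q.1) • q.2 + q.1 • e := by fun_prop
    refine ContinuousOn.smul (ContinuousOn.inv₀ hc.norm.continuousOn ?_) hc.continuousOn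
    rintro ⟨t, x⟩ ⟨ht, hx⟩
    exact norm_ne_zero_iff.mpr (hw t ht x hx).1
  · intro t ht x hx
    obtain ⟨h1, h2⟩ := hw t ht x hx
    have hn := norm_ne_zero_iff.mpr h1
    refine ⟨⟨W.smul_mem _ (W.add_mem (W.smul_mem _ hx.1.1) (W.smul_mem _ he.1)), ?_⟩, ?_⟩
    · rw [norm_smul, norm_inv, norm_norm, inv_mul_cancel₀ hn]
    · rw [inner_smul_right]
      exact mul_nonneg (inv_nonneg.mpr (norm_nonneg _)) h2
  · intro x hx
    simp only [sub_zero, one_smul, zero_smul, add_zero]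
    rw [hx.1.2, inv_one, one_smul]
  · intro x hx
    simp only [sub_self, zero_smul, one_smul, zero_add]
    rw [he.2, inv_one, one_smul]

end fin

/-- the cohomology of two points -/
theorem two_points {p q : E} (hpq : p ≠ q) :
    (∃ u : H (⊥ : Subgroup (E ≃ᵢ E)) ∅ 0 {p, q}, u ≠ 0 ∧ u ≠ one ⊥ {p, q} ∧
      ∀ x : H (⊥ : Subgroup (E ≃ᵢ E)) ∅ 0 {p, q}, x = 0 ∨ x = one ⊥ _ ∨ x = u ∨ x = u + one ⊥ _) ∧
    ∀ (k : ℕ) (x : H (⊥ : Subgroup (E ≃ᵢ E)) ∅ (k + 1) {p, q}), x = 0 := by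
  classical
  refine ⟨?_, fun k x => okN1 E ⊥ ∅ {p, q} k (Set.toFinite _) x⟩
  have hiv : ∀ φ : List E → ZMod 2, Iv (⊥ : Subgroup (E ≃ᵢ E)) φ := by
    intro φ g hg l
    rw [Subgroup.mem_bot.mp hg]
    have : l.map (1 : E ≃ᵢ E) = l := by
      conv_rhs => rw [← List.map_id l]
      rfl
    rw [this]
  let uf : List E → ZMod 2 := fun l => match l with
    | [x] => if x = p then 1 else 0
    | _ => 0
  have huc : uf ∈ Cyc (⊥ : Subgroup (E ≃ᵢ E)) ∅ 0 {p, q} := by
    refine ⟨hiv _, Z0.empty 0 (by simp) _, dist p q, dist_pos.mpr hpq, fun l hl hs => ?_⟩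
    obtain ⟨x, y, rfl⟩ := List.length_eq_two.mp hl
    have hx : x = p ∨ x = q := hs.1 x (by simp)
    have hy : y = p ∨ y = q := hs.1 y (by simp)
    have hxy := hs.2 x (by simp) y (by simp)
    have hxy' : x = y := by
      rcases hx with rfl | rfl <;> rcases hy with rfl | rfl
      · rfl
      · exact (lt_irrefl _ hxy).elim
      · rw [dist_comm] at hxy
        exact (lt_irrefl _ hxy).elim
      · rfl
    subst hxy'
    simp only [dd, uf, add_zero]
    exact z2_add_self _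
  have hz : ∀ φ : List E → ZMod 2, φ [p] = 0 → φ [q] = 0 →
      φ ∈ Bnd (⊥ : Subgroup (E ≃ᵢ E)) ∅ 0 {p, q} := by
    intro φ h1 h2
    rw [mem_Bnd_zero]
    refine ⟨hiv φ, 1, one_pos, fun l hl hs => ?_⟩
    obtain ⟨x, rfl⟩ := List.length_eq_one_iff.mp hl
    rcases hs.1 x (by simp) with h | h
    · rw [h, h1]
    · rw [Set.mem_singleton_iff.mp h, h2]
  have hz' : ∀ φ : List E → ZMod 2, φ ∈ Bnd (⊥ : Subgroup (E ≃ᵢ E)) ∅ 0 {p, q} →
      φ [p] = 0 ∧ φ [q] = 0 := by
    intro φ h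
    obtain ⟨ε, hε, h1⟩ := (mem_Bnd_zero.mp h).2
    refine ⟨h1 [p] rfl ⟨by simp, ?_⟩, h1 [q] rfl ⟨by simp, ?_⟩⟩ <;>
    · intro x hx y hy
      rw [List.mem_singleton] at hx hy
      rw [hx, hy, dist_self]
      exact hε
  have hqp : q ≠ p := fun h => hpq h.symm
  have u1 : uf [p] = 1 := by simp [uf]
  have u2 : uf [q] = 0 := by simp [uf, hqp]
  refine ⟨cl uf huc, ?_, ?_, fun x => ?_⟩
  · intro h
    rw [cl_eq_zero] at h
    have := (hz' _ h).1
    rw [u1] at this
    exact one_ne_zero this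
  · intro h
    unfold one at h
    rw [cl_eq_cl] at h
    have := (hz' _ h).2
    rw [Pi.add_apply, u2, zero_add] at this
    exact one_ne_zero this
  · obtain ⟨φ, hφ, rfl⟩ := cl_surj x
    have key : ∀ a b : ZMod 2, (a = 0 ∧ b = 0) ∨ (a = 1 ∧ b = 1) ∨ (a = 1 ∧ b = 0) ∨
        (a = 0 ∧ b = 1) := by decide
    rcases key (φ [p]) (φ [q]) with ⟨h1, h2⟩ | ⟨h1, h2⟩ | ⟨h1, h2⟩ | ⟨h1, h2⟩
    · left
      rw [cl_eq_zero]
      exact hz φ h1 h2
    · right; left
      unfold one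
      rw [cl_eq_cl]
      refine hz _ ?_ ?_
      · rw [Pi.add_apply, h1]; exact z2_add_self 1
      · rw [Pi.add_apply, h2]; exact z2_add_self 1
    · right; right; left
      rw [cl_eq_cl]
      refine hz _ ?_ ?_
      · rw [Pi.add_apply, h1, u1]; exact z2_add_self 1
      · rw [Pi.add_apply, h2, u2]; exact z2_add_self 0
    · right; right; right
      unfold one
      rw [← cl_add, cl_eq_cl]
      refine hz _ ?_ ?_
      · rw [Pi.add_apply, Pi.add_apply, h1, u1, zero_add]; exact z2_add_self 1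
      · rw [Pi.add_apply, Pi.add_apply, h2, u2, zero_add]; exact z2_add_self 1

/-- the data of the induction -/
def SphI (m : ℕ) (A : Set E) : Prop :=
  (1 ≤ m → SphT m A) ∧
  (m = 0 → (∃ u : H (⊥ : Subgroup (E ≃ᵢ E)) ∅ 0 A, u ≠ 0 ∧ u ≠ one ⊥ A ∧
      ∀ x : H (⊥ : Subgroup (E ≃ᵢ E)) ∅ 0 A, x = 0 ∨ x = one ⊥ _ ∨ x = u ∨ x = u + one ⊥ _) ∧
    ∀ (k : ℕ) (x : H (⊥ : Subgroup (E ≃ᵢ E)) ∅ (k + 1) A), x = 0)

/-- the suspension step -/
theorem sph_step {m : ℕ} {A B I U : Set E} (h : MVs (⊥ : Subgroup (E ≃ᵢ E)) ∅ A B I U)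
    (hA : Acy (⊥ : Subgroup (E ≃ᵢ E)) A) (hB : Acy (⊥ : Subgroup (E ≃ᵢ E)) B) (hI : SphI m I)
    (hne : I.Nonempty) : SphT (m + 1) U := by
  obtain ⟨a0, a1, a2⟩ := hA
  obtain ⟨b0, b1, b2⟩ := hB
  have iU := okM8 E ⊥ ∅ A B I U
  have iI := okM9 E ⊥ ∅ A B I U
  have i6 := okM6 E ⊥ ∅ A B I U
  have hUone : one (⊥ : Subgroup (E ≃ᵢ E)) I ≠ 0 := (okN2 E ⊥ I).2 hne
  have hdone : del ⊥ ∅ A B I U 0 (one (⊥ : Subgroup (E ≃ᵢ E)) I) = 0 := by
    have h1 := (iI 0 h).2.1 (one ⊥ A)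
    rwa [hc_res_one] at h1
  -- positive degrees: everything comes from the intersection
  have hdel : ∀ (k : ℕ) (x : H (⊥ : Subgroup (E ≃ᵢ E)) ∅ (k + 1) U),
      ∃ u : H (⊥ : Subgroup (E ≃ᵢ E)) ∅ k I, x = del ⊥ ∅ A B I U k u :=
    fun k x => (iU k h).1 x (a2 k _) (b2 k _)
  have hd0 : ∀ k, del (⊥ : Subgroup (E ≃ᵢ E)) ∅ A B I U k 0 = 0 := fun k => (i6 k h).2.2
  refine ⟨?_, ?_, ?_⟩
  · intro x
    have hr : res h.IA 0 (res h.AU 0 x) = res h.IB 0 (res h.BU 0 x) := by
      rw [res_res h.IA h.AU (h.IA.trans h.AU), res_res h.IB h.BU (h.IA.trans h.AU)]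
    rcases a0 (res h.AU 0 x) with h1 | h1 <;> rcases b0 (res h.BU 0 x) with h2 | h2
    · exact Or.inl (okM7 E ⊥ ∅ A B U h.AU h.BU h.hU x h1 h2)
    · exfalso
      rw [h1, h2, map_zero, hc_res_one] at hr
      exact hUone hr.symm
    · exfalso
      rw [h1, h2, map_zero, hc_res_one] at hr
      exact hUone hr
    · right
      rw [eq_iff_add]
      refine okM7 E ⊥ ∅ A B U h.AU h.BU h.hU _ ?_ ?_
      · rw [map_add, h1, hc_res_one, two_add]
      · rw [map_add, h2, hc_res_one, two_add]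
  · intro k hk0 hkm x
    obtain ⟨k, rfl⟩ : ∃ j, k = j + 1 := ⟨k - 1, by omega⟩
    obtain ⟨u, hu⟩ := hdel k x
    have hu0 : u = 0 ∨ (k = 0 ∧ m ≠ 0) := by
      rcases Nat.eq_zero_or_pos m with hm | hm
      · obtain ⟨_, h2⟩ := hI.2 hm
        obtain ⟨j, rfl⟩ : ∃ j, k = j + 1 := ⟨k - 1, by omega⟩
        exact Or.inl (h2 j u)
      · rcases Nat.eq_zero_or_pos k with hk | hk
        · exact Or.inr ⟨hk, by omega⟩
        · exact Or.inl ((hI.1 hm).hk k (by omega) (by omega) u)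
    rcases hu0 with h1 | ⟨rfl, hm⟩
    · rw [hu, h1, hd0]
    · rcases (hI.1 (by omega)).h0 u with h1 | h1
      · rw [hu, h1, hd0]
      · rw [hu, h1, hdone]
  · rcases Nat.eq_zero_or_pos m with hm | hm
    · subst hm
      obtain ⟨⟨u, u1, u2, u3⟩, _⟩ := hI.2 rfl
      refine ⟨del ⊥ ∅ A B I U 0 u, ?_, ?_⟩
      · intro h0
        obtain ⟨a, b, hab⟩ := (iI 0 h).1 u h0
        rcases a0 a with h1 | h1 <;> rcases b0 b with h2 | h2
        · rw [h1, h2, map_zero, map_zero, add_zero] at hab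
          exact u1 hab
        · rw [h1, h2, map_zero, hc_res_one, zero_add] at hab
          exact u2 hab
        · rw [h1, h2, map_zero, hc_res_one, add_zero] at hab
          exact u2 hab
        · rw [h1, h2, hc_res_one, hc_res_one, two_add] at hab
          exact u1 hab
      · intro x
        obtain ⟨v, hv⟩ := hdel 0 x
        rcases u3 v with h1 | h1 | h1 | h1
        · left; rw [hv, h1, hd0]
        · left; rw [hv, h1, hdone]
        · right; rw [hv, h1]
        · right; rw [hv, h1, (i6 0 h).2.1, hdone, add_zero]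
    · obtain ⟨e, he0, he⟩ := (hI.1 hm).hm
      refine ⟨del ⊥ ∅ A B I U m e, ?_, ?_⟩
      · intro h0
        obtain ⟨a, b, hab⟩ := (iI m h).1 e h0
        obtain ⟨j, rfl⟩ : ∃ j, m = j + 1 := ⟨m - 1, by omega⟩
        rw [a2 j a, b2 j b, map_zero, map_zero, add_zero] at hab
        exact he0 hab
      · intro x
        obtain ⟨v, hv⟩ := hdel m x
        rcases he v with h1 | h1
        · left; rw [hv, h1, hd0]
        · right; rw [hv, h1]

section fin

variable [FiniteDimensional ℝ E]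

theorem sphI_SW (m : ℕ) : ∀ W : Submodule ℝ E, Module.finrank ℝ W = m + 1 → SphI m (SW W) := by
  induction m with
  | zero =>
    intro W hW
    refine ⟨fun h => by omega, fun _ => ?_⟩
    obtain ⟨e, he⟩ := exists_mem_SW (W := W) (by omega)
    have he0 : e ≠ 0 := fun h => zero_notMem_SW W (h ▸ he)
    have h1 : SW W = {e, -e} := by
      ext x
      constructor
      · intro hx
        obtain ⟨v, _, hv⟩ := finrank_eq_one_iff'.mp hW
        obtain ⟨c, hc⟩ := hv ⟨e, he.1⟩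
        obtain ⟨d, hd⟩ := hv ⟨x, hx.1⟩
        have hc' : c • (v : E) = e := congrArg Subtype.val hc
        have hd' : d • (v : E) = x := congrArg Subtype.val hd
        have hc0 : c ≠ 0 := by
          intro h
          rw [h, zero_smul] at hc'
          exact he0 hc'.symm
        have hx' : x = (d * c⁻¹) • e := by
          rw [← hd', ← hc', smul_smul, mul_assoc, inv_mul_cancel₀ hc0, mul_one]
        have h3 : |d * c⁻¹| = 1 := by
          have h4 := hx.2
          rw [hx', norm_smul, he.2, mul_one, Real.norm_eq_abs] at h4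
          exact h4
        rcases (abs_eq zero_le_one).mp h3 with h4 | h4
        · rw [h4, one_smul] at hx'
          exact Or.inl hx'
        · rw [h4, neg_smul, one_smul] at hx'
          exact Or.inr hx'
      · rintro (rfl | h)
        · exact he
        · rw [Set.mem_singleton_iff.mp h]
          exact neg_mem_SW he
    rw [h1]
    have hne : e ≠ -e := by
      intro h
      have h2 : e + e = 0 := by
        nth_rewrite 2 [h]
        exact add_neg_cancel e
      rw [← two_smul ℝ e, smul_eq_zero] at h2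
      rcases h2 with h2 | h2
      · norm_num at h2
      · exact he0 h2
    exact two_points hne
  | succ m ih =>
    intro W hW
    refine ⟨fun _ => ?_, fun h => by omega⟩
    obtain ⟨e, he⟩ := exists_mem_SW (W := W) (by omega)
    have he0 : e ≠ 0 := fun h => zero_notMem_SW W (h ▸ he)
    set W' : Submodule ℝ E := (Submodule.span ℝ {e})ᗮ ⊓ W with hW'
    have hdim : Module.finrank ℝ W' = m + 1 := by
      apply Submodule.finrank_add_inf_finrank_orthogonal'
      · rw [Submodule.span_singleton_le_iff_mem]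
        exact he.1
      · rw [finrank_span_singleton he0, hW]
        omega
    have hcl : ∀ v : E, IsClosed {x : E | 0 ≤ inner ℝ v x} := fun v =>
      isClosed_le continuous_const (continuous_const.inner continuous_id)
    have hmv : MVs (⊥ : Subgroup (E ≃ᵢ E)) ∅ {x | x ∈ SW W ∧ 0 ≤ inner ℝ e x}
        {x | x ∈ SW W ∧ 0 ≤ inner ℝ (-e) x} (SW W') (SW W) := by
      refine ⟨OkD.empty _, ⟨(isCompact_SW W).inter_right (hcl e), IvS.bot _, Fr.bot _⟩,
        ⟨(isCompact_SW W).inter_right (hcl (-e)), IvS.bot _, Fr.bot _⟩, ?_, ?_⟩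
      · ext x
        constructor
        · rintro ⟨⟨h1, h2⟩, h3⟩
          have h4 : inner ℝ e x = 0 := Submodule.mem_orthogonal_singleton_iff_inner_right.mp h1
          refine ⟨⟨⟨h2, h3⟩, h4.ge⟩, ⟨h2, h3⟩, ?_⟩
          rw [inner_neg_left, h4, neg_zero]
        · rintro ⟨⟨h1, h2⟩, _, h3⟩
          have h4 : inner ℝ e x = 0 := by
            rw [inner_neg_left] at h3
            linarith
          exact ⟨⟨Submodule.mem_orthogonal_singleton_iff_inner_right.mpr h4, h1.1⟩, h1.2⟩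
      · ext x
        constructor
        · intro hx
          rcases le_total 0 (inner ℝ e x) with h | h
          · exact Or.inl ⟨hx, h⟩
          · refine Or.inr ⟨hx, ?_⟩
            rw [inner_neg_left]
            linarith
        · rintro (h | h) <;> exact h.1
    exact sph_step hmv (acy_hemi he) (acy_hemi (neg_mem_SW he)) (ih W' hdim)
      (exists_mem_SW (by omega))

/-- the ordinary cohomology of the unit sphere of a subspace -/
theorem sph_SW {m : ℕ} (hm : 1 ≤ m) (W : Submodule ℝ E) (hW : Module.finrank ℝ W = m + 1) :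
    SphT m (SW W) := (sphI_SW m W hW).1 hm

/-- `a^(m+1) = 0` on the unit sphere of a subspace of dimension `m + 1` -/
theorem ap_SW {m : ℕ} (W : Submodule ℝ E) (hW : Module.finrank ℝ W = m + 1) :
    ap (m + 1) (SW W) (zero_notMem_SW W) = 0 := by
  classical
  let b := stdOrthonormalBasis ℝ W
  have hd : Module.finrank ℝ W = m + 1 := hW
  let g : ℕ → E → ℝ := fun i x =>
    if h : i < Module.finrank ℝ W then inner ℝ ((b ⟨i, h⟩ : W) : E) x else 0
  have hg : ∀ i, Continuous (g i) := by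
    intro i
    by_cases h : i < Module.finrank ℝ W
    · have : g i = fun x => inner ℝ ((b ⟨i, h⟩ : W) : E) x := funext fun x => dif_pos h
      rw [this]
      exact continuous_const.inner continuous_id
    · have : g i = fun _ => 0 := funext fun x => dif_neg h
      rw [this]
      exact continuous_const
  have hodd : ∀ i x, g i (-x) = -g i x := by
    intro i x
    by_cases h : i < Module.finrank ℝ W
    · change (if h : i < Module.finrank ℝ W then inner ℝ ((b ⟨i, h⟩ : W) : E) (-x) else 0) =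
        -(if h : i < Module.finrank ℝ W then inner ℝ ((b ⟨i, h⟩ : W) : E) x else 0)
      rw [dif_pos h, dif_pos h, inner_neg_right]
    · change (if h : i < Module.finrank ℝ W then inner ℝ ((b ⟨i, h⟩ : W) : E) (-x) else 0) =
        -(if h : i < Module.finrank ℝ W then inner ℝ ((b ⟨i, h⟩ : W) : E) x else 0)
      rw [dif_neg h, dif_neg h, neg_zero]
  have hc : (0 : ℝ) < 1 / (m + 1 + 1) := by positivity
  refine ap_cover g hg hodd _ hc m (SW W) (isCompact_SW W) (fun x hx => neg_mem_SW hx)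
    (zero_notMem_SW W) ?_
  intro x hx
  by_contra hcon
  push Not at hcon
  -- `1 = ∑ ⟪b i, x⟫ ^ 2`
  have h1 : ∑ i, ‖inner ℝ (b i) (⟨x, hx.1⟩ : W)‖ ^ 2 = ‖(⟨x, hx.1⟩ : W)‖ ^ 2 :=
    b.sum_sq_norm_inner_right _
  have h2 : ‖(⟨x, hx.1⟩ : W)‖ = 1 := hx.2
  rw [h2, one_pow] at h1
  have h3 : ∀ i : Fin (Module.finrank ℝ W), ‖inner ℝ (b i) (⟨x, hx.1⟩ : W)‖ ^ 2 <
      (1 / ((m : ℝ) + 1 + 1)) := by
    intro i
    have h4 := hcon i.1 (by have := i.2; omega)
    have h5 : g i.1 x = inner ℝ (b i) (⟨x, hx.1⟩ : W) := by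
      change (if h : i.1 < Module.finrank ℝ W then inner ℝ ((b ⟨i.1, h⟩ : W) : E) x else 0) = _
      rw [dif_pos i.2]
      rfl
    rw [h5] at h4
    rw [Real.norm_eq_abs]
    have h6 : |inner ℝ (b i) (⟨x, hx.1⟩ : W)| ^ 2 ≤ |inner ℝ (b i) (⟨x, hx.1⟩ : W)| := by
      have h7 : (1 : ℝ) / (m + 1 + 1) ≤ 1 := by
        rw [div_le_one (by positivity)]
        have : (0 : ℝ) ≤ m := Nat.cast_nonneg m
        linarith
      have h8 := abs_nonneg (inner ℝ (b i) (⟨x, hx.1⟩ : W))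
      nlinarith
    exact lt_of_le_of_lt h6 h4
  have h9 : ∑ i, ‖inner ℝ (b i) (⟨x, hx.1⟩ : W)‖ ^ 2 ≤
      ∑ _i : Fin (Module.finrank ℝ W), (1 / ((m : ℝ) + 1 + 1)) :=
    Finset.sum_le_sum fun i _ => (h3 i).le
  rw [h1, Finset.sum_const, Finset.card_univ, Fintype.card_fin, hd, nsmul_eq_mul] at h9
  push_cast at h9
  have h10 : ((m : ℝ) + 1) * (1 / (m + 1 + 1)) < 1 := by
    rw [mul_one_div, div_lt_one (by positivity)]
    linarith
  linarith

/-- the cohomology of `SW W / ±` -/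
theorem rp_SW {m : ℕ} (hm : 1 ≤ m) (W : Submodule ℝ E) (hW : Module.finrank ℝ W = m + 1) :
    (∀ k ≤ m, ap k (SW W) (zero_notMem_SW W) ≠ 0) ∧
    (∀ (k : ℕ) (x : H (Pm E) ∅ k (SW W)), x = 0 ∨ x = ap k (SW W) (zero_notMem_SW W)) ∧
      ∀ k, m < k → ∀ x : H (Pm E) ∅ k (SW W), x = 0 :=
  rp_main hm (fun x hx => neg_mem_SW hx) (zero_notMem_SW W) (exists_mem_SW (by omega))
    (sph_SW hm W hW) (ap_SW W hW)

theorem SW_top : SW (⊤ : Submodule ℝ E) = Metric.sphere (0 : E) 1 := by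
  ext x
  rw [mem_sphere_zero_iff_norm]
  exact ⟨fun h => h.2, fun h => ⟨Submodule.mem_top, h⟩⟩

/-- the ordinary cohomology of the unit sphere -/
theorem sph_sphere {m : ℕ} (hm : 1 ≤ m) (hE : Module.finrank ℝ E = m + 1) :
    SphT m (Metric.sphere (0 : E) 1) := by
  rw [← SW_top]
  exact sph_SW hm ⊤ (by rw [finrank_top]; exact hE)

/-- the cohomology of real projective space of dimension `m` -/
theorem rp_sphere {m : ℕ} (hm : 1 ≤ m) (hE : Module.finrank ℝ E = m + 1)
    (h0 : (0 : E) ∉ Metric.sphere (0 : E) 1) :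
    (∀ k ≤ m, ap k (Metric.sphere (0 : E) 1) h0 ≠ 0) ∧
    (∀ (k : ℕ) (x : H (Pm E) ∅ k (Metric.sphere (0 : E) 1)), x = 0 ∨ x = ap k _ h0) ∧
      ∀ k, m < k → ∀ x : H (Pm E) ∅ k (Metric.sphere (0 : E) 1), x = 0 := by
  have h := rp_SW hm (⊤ : Submodule ℝ E) (by rw [finrank_top]; exact hE)
  have key : ∀ (A : Set E) (hA : (0 : E) ∉ A), A = Metric.sphere (0 : E) 1 →
      ((∀ k ≤ m, ap k A hA ≠ 0) ∧
      (∀ (k : ℕ) (x : H (Pm E) ∅ k A), x = 0 ∨ x = ap k _ hA) ∧
        ∀ k, m < k → ∀ x : H (Pm E) ∅ k A, x = 0) →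
      ((∀ k ≤ m, ap k (Metric.sphere (0 : E) 1) h0 ≠ 0) ∧
      (∀ (k : ℕ) (x : H (Pm E) ∅ k (Metric.sphere (0 : E) 1)), x = 0 ∨ x = ap k _ h0) ∧
        ∀ k, m < k → ∀ x : H (Pm E) ∅ k (Metric.sphere (0 : E) 1), x = 0) := by
    rintro A hA rfl h
    exact h
  exact key _ (zero_notMem_SW _) SW_top h

end fin

end AS
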