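import Pool.Agent.Lib.AS.Cup

/-!
# Alexander-Spanier cohomology: cup products and the connecting map, commutativity, statements
-/

set_option autoImplicit false

namespace AS

/-- **K1.** The cup product with a class of degree one is commutative.
Proof.  `φ` (degree 1) and `ψ` (degree q) represent `a`, `y`.  For `l = x :: m` let `e l = [x, last l]` and
`η l = φ (e l) * ψ l` (`η [] = 0`; for instance
`η l = match l with | [] => 0 | x :: m => φ [x, (x :: m).getLast (by simp)] * ψ (x :: m)`).  For a small list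
`l = x₀ … x_{q+1}` of length `q + 2`: the faces obtained by deleting an inner entry have the same ends, so
`dd η l = φ [x₀, x_{q+1}] * dd ψ l + (φ [x₁, x_{q+1}] + φ [x₀, x_{q+1}]) * ψ (x₁ … x_{q+1}) +
(φ [x₀, x_q] + φ [x₀, x_{q+1}]) * ψ (x₀ … x_q)`, and `dd ψ l = 0`,
`φ [x₁, x_{q+1}] + φ [x₀, x_{q+1}] = φ [x₀, x₁]`, `φ [x₀, x_q] + φ [x₀, x_{q+1}] = φ [x_q, x_{q+1}]` (`dd φ = 0` on
small lists of length 3), so `dd η l = cup 1 φ ψ l + cup q ψ φ l`.  A convenient way in Lean: prove by
induction on `m` (for all `χ`) that for `F l = g (last l) * χ l` (`g : X → ZMod 2`):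
`dd F (m ++ [y, z]) = g z * dd χ (m ++ [y, z]) + (g y + g z) * χ (m ++ [y])`, and apply it with `x₀` fixed
(`g = fun t => φ [x₀, t]`, `χ m = ψ (x₀ :: m)`), treating the deletion of `x₀` separately by `dd_cons`; small
`q` (`q = 0`: lists `[x₀, x₁]`) is the same computation.  `η` is invariant, and
`Z0 (q+1) (C ∩ D) η` because `ψ` vanishes there. -/
def K1 : Prop := ∀ (X : Type) [MetricSpace X] (Γ : Subgroup (X ≃ᵢ X)) (D C : Set X) (q : ℕ)
  (a : H Γ ∅ 1 C) (y : H Γ D q C), cupH D (q + 1) a y = cupH D (q + 1) y a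

/-- **K2.** The connecting map and products with classes on the union.
Proof (uses M4, M6).  `φ`, `ζ`, `η` as in `DelR` (M4), `c` represented by `γ ∈ Cyc Γ ∅ q U`.  First formula: `DelR`
for `cup n φ γ` and `cup (n + 1) ζ γ` with `cup n η γ`: invariant; vanishing on `A ∩ D` and the
condition on `A ∩ B` by `cup_z0_left`; on small lists in `A`: `cup (n+1) ζ γ + dd (cup n η γ) =
cup (n+1) (ζ + dd η) γ + cup n η (dd γ)` (`leibniz`), `cup_z0_left`, `cup_z0_right`; on `B`: `cup_z0_left`.
Second formula: the same with `cup q γ φ`, `cup q γ ζ`, `cup q γ η`. -/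
def K2 : Prop := ∀ (X : Type) [MetricSpace X] (Γ : Subgroup (X ≃ᵢ X)) (D A B I U : Set X)
  (n q m : ℕ), MVs Γ D A B I U → n + q = m → ∀ (hI : I ⊆ U) (u : H Γ D n I) (c : H Γ ∅ q U),
  del Γ D A B I U m (cupH D m u (res hI q c)) = cupH D (m + 1) (del Γ D A B I U n u) c ∧
  del Γ D A B I U m (cupH D m (res hI q c) u) = cupH D (m + 1) c (del Γ D A B I U n u)

/-- **K3.** The product of a class which vanishes on `A` with a class which vanishes on `B`.
Proof (uses M3).  `φ + dd α = 0` on small lists in `A`, `ψ + dd β = 0` on small lists in `B` (in degree `0` the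
function `φ` itself vanishes; treat the degrees `0` and `p + 1` separately by
`mem_Bnd_zero`, `mem_Bnd_succ`).  `α' l = if l ⊆ A then α l else 0`, `β'` likewise: replacing `φ` by
`φ + dd α'`, `ψ` by `ψ + dd β'` (same classes on `U`) one may assume `Z0 (p+1) A φ`, `Z0 (q+1) B ψ`.  Then
`cup p φ ψ` vanishes on the small lists in `A`, in `B` (`cup_z0_left`, `cup_z0_right`), and it is a cocycle;
M3 with `D = ∅` gives `κ` with `cup p φ ψ + dd κ = 0` on the small lists in `U`, `κ [] = 0`. -/
def K3 : Prop := ∀ (X : Type) [MetricSpace X] (Γ : Subgroup (X ≃ᵢ X)) (A B U : Set X)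
  (p q : ℕ) (hA : A ⊆ U) (hB : B ⊆ U), Ok Γ A → Ok Γ B → U = A ∪ B →
  ∀ (x : H Γ ∅ p U) (y : H Γ ∅ q U), res hA p x = 0 → res hB q y = 0 → cupH ∅ (p + q) x y = 0

end AS
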