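import Pool.Agent.Lib.AS.GysC
import Pool.Agent.Lib.AS.AllM

/-!
# Powers of the class `a`; the cohomology of projective spaces

`ap_one_zero_of_odd`: `a = 0` on a compact symmetric set with an odd continuous function without zeros.
`ap_union`: if `a^p = 0` on `A` and `a^q = 0` on `B` then `a^(p+q) = 0` on `A ∪ B`.
`ap_cover`: `a^(m+1) = 0` on a set covered by `m + 1` sets `{|g i| ≥ c}`, `g i` odd.
`rp_main`: the cohomology of `A / ±` for a set `A` with the cohomology of an `m`-sphere.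
-/

set_option autoImplicit false

namespace AS

section antipodal

variable {E : Type} [NormedAddCommGroup E] [NormedSpace ℝ E]

theorem fr_Pm {A : Set E} (h0 : (0 : E) ∉ A) : Fr (Pm E) A := by
  rintro g (rfl | rfl) x hx hgx
  · rfl
  · exfalso
    rw [ng_apply] at hgx
    have h2 : x + x = 0 := by
      nth_rewrite 1 [← hgx]
      exact neg_add_cancel x
    rw [← two_smul ℝ x, smul_eq_zero] at h2
    rcases h2 with h2 | h2
    · norm_num at h2
    · exact h0 (h2 ▸ hx)

theorem ok_Pm {A : Set E} (hc : IsCompact A) (hs : ∀ x ∈ A, -x ∈ A) (h0 : (0 : E) ∉ A) :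
    Ok (Pm E) A := ⟨hc, ivS_Pm.mpr hs, fr_Pm h0⟩

/-- `a = 0` if there is an odd continuous function without zeros -/
theorem ap_one_zero_of_odd {A : Set E} (h0 : (0 : E) ∉ A) (hc : IsCompact A)
    (hs : ∀ x ∈ A, -x ∈ A) (g : E → ℝ) (hg : ContinuousOn g A) (hodd : ∀ x ∈ A, g (-x) = -g x)
    (hne : ∀ x ∈ A, g x ≠ 0) : ap 1 A h0 = 0 := by
  classical
  rcases A.eq_empty_or_nonempty with hA | ⟨v, hv⟩
  · exact H_empty hA _
  have hv0 : v ≠ 0 := fun h => h0 (h ▸ hv)
  have hidx := idx2_Pm hv0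
  have hinv : IvS (Pm E) A := ivS_Pm.mpr hs
  have hsg : IsS (Pm E) ⊥ A sg := isS_sg h0 hidx.nmem
  have hsg' : IsS (Pm E) ⊥ A (fun x => if 0 < g x then (0 : ZMod 2) else 1) := by
    rintro k (rfl | rfl) x hx
    · rw [if_pos (Subgroup.one_mem _), add_zero]
      rfl
    · rw [if_neg hidx.nmem, ng_apply]
      change (if 0 < g (-x) then (0 : ZMod 2) else 1) = (if 0 < g x then 0 else 1) + 1
      rw [hodd x hx]
      rcases lt_or_gt_of_ne (hne x hx) with h | h
      · rw [if_pos (by linarith), if_neg (by linarith)]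
        exact (z2_add_self 1).symm
      · rw [if_neg (by linarith), if_pos h, zero_add]
  rw [ap_one_eq, ← ww_sg hinv h0 hsg, ww_unique hinv hsg hsg']
  unfold ww
  rw [cl_eq_zero]
  -- `|g| ≥ c`
  obtain ⟨w, hw, hmin⟩ := hc.exists_isMinOn ⟨v, hv⟩ hg.abs
  have hcpos : 0 < |g w| := abs_pos.mpr (hne w hw)
  have huc := hc.uniformContinuousOn_of_continuous hg
  rw [Metric.uniformContinuousOn_iff] at huc
  obtain ⟨δ, hδ, h1⟩ := huc _ hcpos
  refine Bnd_of_Z0 (wc_iv hinv hsg') ⟨δ, hδ, fun l hl hsm => ?_⟩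
  obtain ⟨x, y, rfl⟩ := List.length_eq_two.mp hl
  have hx : x ∈ A := hsm.1 x (by simp)
  have hy : y ∈ A := hsm.1 y (by simp)
  have hxy : dist x y < δ := hsm.2 x (by simp) y (by simp)
  have h2 := h1 x hx y hy hxy
  rw [Real.dist_eq] at h2
  have h3 : |g w| ≤ |g x| := hmin hx
  have h4 : |g w| ≤ |g y| := hmin hy
  rw [wc_two hl hsm.1]
  simp only [dd, c0, add_zero]
  rcases lt_or_gt_of_ne (hne x hx) with hx' | hx' <;> rcases lt_or_gt_of_ne (hne y hy) with hy' | hy'
  · rw [if_neg (by linarith), if_neg (by linarith)]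
    exact z2_add_self 1
  · exfalso
    rw [abs_of_neg hx'] at h3
    rw [abs_of_pos hy'] at h4
    have h5 := (abs_lt.mp h2).1
    linarith
  · exfalso
    rw [abs_of_pos hx'] at h3
    rw [abs_of_neg hy'] at h4
    have h5 := (abs_lt.mp h2).2
    linarith
  · rw [if_pos hx', if_pos hy']
    exact z2_add_self 0

/-- the product trick -/
theorem ap_union {A B : Set E} {p q n : ℕ} (hn : p + q = n) (hA : Ok (Pm E) A) (hB : Ok (Pm E) B)
    {U : Set E} (hU : U = A ∪ B) (h0 : (0 : E) ∉ U) (hA0 : (0 : E) ∉ A) (hB0 : (0 : E) ∉ B)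
    (h1 : ap p A hA0 = 0) (h2 : ap q B hB0 = 0) : ap n U h0 = 0 := by
  subst hn
  have hAU : A ⊆ U := hU ▸ Set.subset_union_left
  have hBU : B ⊆ U := hU ▸ Set.subset_union_right
  have h3 := okK3 E (Pm E) A B U p q hAU hBU hA hB hU (ap p U h0) (ap q U h0)
    (by rw [res_ap p h0 hAU hA0, h1]) (by rw [res_ap q h0 hBU hB0, h2])
  rwa [cupH_ap h0 rfl] at h3

theorem ap_zero_of_le {A : Set E} (h0 : (0 : E) ∉ A) {p q : ℕ} (hpq : p ≤ q)
    (h : ap p A h0 = 0) : ap q A h0 = 0 := by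
  rw [← cupH_ap (q := q - p) h0 (by omega : p + (q - p) = q), h]
  exact cupH_zero_left (by omega) (Or.inl Set.inter_subset_right) _

/-- covering by `m + 1` sets on which `a = 0` -/
theorem ap_cover (g : ℕ → E → ℝ) (hg : ∀ i, Continuous (g i)) (hodd : ∀ i x, g i (-x) = -g i x)
    (c : ℝ) (hc : 0 < c) (m : ℕ) : ∀ (A : Set E) (_ : IsCompact A) (_ : ∀ x ∈ A, -x ∈ A)
    (h0 : (0 : E) ∉ A), (∀ x ∈ A, ∃ i ≤ m, c ≤ |g i x|) → ap (m + 1) A h0 = 0 := by
  induction m with
  | zero =>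
    intro A hA hs h0 h
    refine ap_one_zero_of_odd h0 hA hs (g 0) (hg 0).continuousOn (fun x _ => hodd 0 x) ?_
    intro x hx h1
    obtain ⟨i, hi, h2⟩ := h x hx
    have : i = 0 := by omega
    rw [this, h1, abs_zero] at h2
    linarith
  | succ m ih =>
    intro A hA hs h0 h
    have hcl : IsClosed {x : E | ∃ i ≤ m, c ≤ |g i x|} := by
      have h1 : {x : E | ∃ i ≤ m, c ≤ |g i x|} =
          ⋃ i ∈ Finset.range (m + 1), {x : E | c ≤ |g i x|} := by
        ext x
        simp only [Set.mem_ofPred_eq, Set.mem_iUnion, Finset.mem_range, exists_prop]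
        constructor
        · rintro ⟨i, hi, h2⟩
          exact ⟨i, by omega, h2⟩
        · rintro ⟨i, hi, h2⟩
          exact ⟨i, by omega, h2⟩
      rw [h1]
      exact isClosed_biUnion_finset fun i _ => isClosed_le continuous_const (hg i).abs
    set A' := A ∩ {x : E | ∃ i ≤ m, c ≤ |g i x|} with hA'
    set B := A ∩ {x : E | c ≤ |g (m + 1) x|} with hB
    have hs' : ∀ x ∈ A', -x ∈ A' := by
      rintro x ⟨hx, i, hi, h2⟩
      exact ⟨hs x hx, i, hi, by rw [hodd, abs_neg]; exact h2⟩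
    have hsB : ∀ x ∈ B, -x ∈ B := by
      rintro x ⟨hx, h2⟩
      refine ⟨hs x hx, ?_⟩
      change c ≤ |g (m + 1) (-x)|
      rw [hodd, abs_neg]
      exact h2
    have h0A : (0 : E) ∉ A' := fun h2 => h0 h2.1
    have h0B : (0 : E) ∉ B := fun h2 => h0 h2.1
    have hcA : IsCompact A' := hA.inter_right hcl
    have hcB : IsCompact B := hA.inter_right (isClosed_le continuous_const (hg (m + 1)).abs)
    have hU : A = A' ∪ B := by
      ext x
      constructor
      · intro hx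
        obtain ⟨i, hi, h2⟩ := h x hx
        rcases Nat.lt_or_ge i (m + 1) with h3 | h3
        · exact Or.inl ⟨hx, i, by omega, h2⟩
        · have : i = m + 1 := by omega
          subst this
          exact Or.inr ⟨hx, h2⟩
      · rintro (h2 | h2) <;> exact h2.1
    refine ap_union (p := m + 1) (q := 1) rfl (ok_Pm hcA hs' h0A) (ok_Pm hcB hsB h0B) hU h0 h0A h0B
      (ih A' hcA hs' h0A fun x hx => hx.2) ?_
    refine ap_one_zero_of_odd h0B hcB hsB (g (m + 1)) (hg _).continuousOn (fun x _ => hodd _ x) ?_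
    intro x hx h1
    have h2 : c ≤ |g (m + 1) x| := hx.2
    rw [h1, abs_zero] at h2
    linarith

/-- `A` has the ordinary cohomology of a sphere of dimension `m` -/
structure SphT (m : ℕ) (A : Set E) : Prop where
  h0 : ∀ x : H (⊥ : Subgroup (E ≃ᵢ E)) ∅ 0 A, x = 0 ∨ x = one ⊥ A
  hk : ∀ k, k ≠ 0 → k ≠ m → ∀ x : H (⊥ : Subgroup (E ≃ᵢ E)) ∅ k A, x = 0
  hm : ∃ e : H (⊥ : Subgroup (E ≃ᵢ E)) ∅ m A, e ≠ 0 ∧ ∀ x : H (⊥ : Subgroup (E ≃ᵢ E)) ∅ m A,
    x = 0 ∨ x = e

theorem rp_main {m : ℕ} (hm : 1 ≤ m) {A : Set E} (hs : ∀ x ∈ A, -x ∈ A) (h0 : (0 : E) ∉ A)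
    (hne : A.Nonempty) (hS : SphT m A) (hcov : ap (m + 1) A h0 = 0) :
    (∀ k ≤ m, ap k A h0 ≠ 0) ∧ (∀ (k : ℕ) (x : H (Pm E) ∅ k A), x = 0 ∨ x = ap k A h0) ∧
      ∀ k, m < k → ∀ x : H (Pm E) ∅ k A, x = 0 := by
  obtain ⟨v, hv⟩ := hne
  have hv0 : v ≠ 0 := fun h => h0 (h ▸ hv)
  have hidx := idx2_Pm hv0
  have hinv : IvS (Pm E) A := ivS_Pm.mpr hs
  have hD : IvS (Pm E) (∅ : Set E) := IvS.empty _
  have hsg : IsS (Pm E) ⊥ A sg := isS_sg h0 hidx.nmem
  have hw : ∀ (k : ℕ) (x : H (Pm E) ∅ k A),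
      cupH ∅ (k + 1) (ww hinv hsg) x = cupH ∅ (k + 1) (ap 1 A h0) x := by
    intro k x
    rw [ww_sg hinv h0 hsg, ap_one_eq]
  have hstep : ∀ k, cupH ∅ (k + 1) (ww hinv hsg) (ap k A h0) = ap (k + 1) A h0 := by
    intro k
    rw [hw, cupH_ap h0 (add_comm 1 k)]
  -- degree zero
  have z0 : ap 0 A h0 ≠ 0 := by
    rw [ap_zero_eq]
    exact (okN2 E (Pm E) A).2 ⟨v, hv⟩
  have z1 : ∀ x : H (Pm E) ∅ 0 A, x = 0 ∨ x = ap 0 A h0 := by
    intro x
    rcases hS.h0 (rst hidx.le ∅ 0 A x) with h | h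
    · exact Or.inl (gysA0 hidx.le x h)
    · right
      rw [eq_iff_add]
      apply gysA0 hidx.le
      rw [map_add, h, ap_zero_eq, rst_one]
      exact two_add _
  -- the transfer of `one` is zero
  have t0 : trH hidx hinv hD 0 (one ⊥ A) = 0 := by
    rw [← rst_one (Γ := Pm E) (A := A) hidx.le]
    exact gysB' hidx hinv hD _
  have main : ∀ k, k ≤ m → ap k A h0 ≠ 0 ∧
      (k < m → ∀ x : H (Pm E) ∅ k A, x = 0 ∨ x = ap k A h0) := by
    intro k
    induction k with
    | zero => exact fun _ => ⟨z0, fun _ => z1⟩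
    | succ k ih =>
      intro hk
      obtain ⟨h1, h2⟩ := ih (by omega)
      refine ⟨?_, ?_⟩
      · intro h3
        rw [← hstep] at h3
        obtain ⟨z, hz⟩ := gysC hidx hinv hD hsg _ h3
        rcases Nat.eq_zero_or_pos k with rfl | hk0
        · rcases hS.h0 z with h4 | h4
          · rw [h4, map_zero] at hz
            exact h1 hz.symm
          · rw [h4, t0] at hz
            exact h1 hz.symm
        · have h4 := hS.hk k (by omega) (by omega) z
          rw [h4, map_zero] at hz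
          exact h1 hz.symm
      · intro hk' x
        have h3 := hS.hk (k + 1) (by omega) (by omega) (rst hidx.le ∅ (k + 1) A x)
        obtain ⟨y, hy⟩ := gysA hidx hinv hD hsg x h3
        rcases h2 (by omega) y with h4 | h4
        · left
          rw [hy, h4]
          exact cupH_zero_right (add_comm 1 k) (Or.inl Set.inter_subset_right) _
        · right
          rw [hy, h4, hstep]
  -- degree `m`
  obtain ⟨e, he0, he⟩ := hS.hm
  have hm1 : ap m A h0 ≠ 0 := (main m le_rfl).1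
  have htr : trH hidx hinv hD m e = ap m A h0 := by
    have h3 : cupH ∅ (m + 1) (ww hinv hsg) (ap m A h0) = 0 := by rw [hstep, hcov]
    obtain ⟨z, hz⟩ := gysC hidx hinv hD hsg _ h3
    rcases he z with h4 | h4
    · rw [h4, map_zero] at hz
      exact (hm1 hz.symm).elim
    · rw [h4] at hz
      exact hz
  have zm : ∀ x : H (Pm E) ∅ m A, x = 0 ∨ x = ap m A h0 := by
    intro x
    have h3 : rst hidx.le ∅ m A x = 0 := by
      rcases he (rst hidx.le ∅ m A x) with h | h
      · exact h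
      · have h5 := gysB' hidx hinv hD x
        rw [h, htr] at h5
        exact (hm1 h5).elim
    obtain ⟨k, rfl⟩ : ∃ k, m = k + 1 := ⟨m - 1, by omega⟩
    obtain ⟨y, hy⟩ := gysA hidx hinv hD hsg x h3
    rcases (main k (by omega)).2 (by omega) y with h4 | h4
    · left
      rw [hy, h4]
      exact cupH_zero_right (add_comm 1 k) (Or.inl Set.inter_subset_right) _
    · right
      rw [hy, h4, hstep]
  -- higher degrees
  have zh : ∀ j, ∀ x : H (Pm E) ∅ (m + 1 + j) A, x = 0 := by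
    intro j
    induction j with
    | zero =>
      intro x
      have h3 := hS.hk (m + 1) (by omega) (by omega) (rst hidx.le ∅ (m + 1) A x)
      obtain ⟨y, hy⟩ := gysA hidx hinv hD hsg x h3
      rcases zm y with h4 | h4
      · rw [hy, h4]
        exact cupH_zero_right (add_comm 1 m) (Or.inl Set.inter_subset_right) _
      · rw [hy, h4, hstep, hcov]
    | succ j ih =>
      intro x
      have h3 := hS.hk (m + 1 + j + 1) (by omega) (by omega)
        (rst hidx.le ∅ (m + 1 + j + 1) A x)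
      obtain ⟨y, hy⟩ := gysA hidx hinv hD hsg x h3
      have h5 : cupH ∅ (m + 1 + j + 1) (ww hinv hsg) y = 0 := by
        rw [ih y]
        exact cupH_zero_right (add_comm 1 _) (Or.inl Set.inter_subset_right) _
      exact hy.trans h5
  have zh' : ∀ k, m < k → ∀ x : H (Pm E) ∅ k A, x = 0 := by
    intro k hk
    obtain ⟨j, rfl⟩ : ∃ j, k = m + 1 + j := ⟨k - m - 1, by omega⟩
    exact zh j
  refine ⟨fun k hk => (main k hk).1, fun k x => ?_, zh'⟩
  rcases lt_trichotomy k m with h | h | h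
  · exact (main k h.le).2 h x
  · subst h
    exact zm x
  · exact Or.inl (zh' k h x)

end antipodal

end AS
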