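import Pool.Agent.Lib.AS.LH

/-!
# The relation `a³ = w a² + w² a + w³`

`K = P ∪ N` over a base `S` (trivial group on the base); the fibres of `P` are acyclic, the fibres of
`N` have the basis `1, a, a²`, the fibres of `K` have the basis `1, a, a², a³`, and `a⁴ = 0` on `K`.
-/

set_option autoImplicit false

namespace AS

section alg

variable {X : Type} [MetricSpace X] {Γ : Subgroup (X ≃ᵢ X)} {C : Set X}

/-- absolute products: additivity on the left -/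
theorem cadd_left {p q n : ℕ} (h : p + q = n) (x x' : H Γ ∅ p C) (y : H Γ ∅ q C) :
    cupH ∅ n (x + x') y = cupH ∅ n x y + cupH ∅ n x' y :=
  cupH_add_left h (Or.inl Set.inter_subset_right) x x' y

/-- absolute products: additivity on the right -/
theorem cadd_right {p q n : ℕ} (h : p + q = n) (x : H Γ ∅ p C) (y y' : H Γ ∅ q C) :
    cupH ∅ n x (y + y') = cupH ∅ n x y + cupH ∅ n x y' :=
  cupH_add_right h (Or.inl Set.inter_subset_right) x y y'

/-- absolute products: associativity -/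
theorem cassoc {p q r m k s : ℕ} (h1 : p + q = m) (h2 : m + r = s) (h3 : q + r = k) (h4 : p + k = s)
    (x : H Γ ∅ p C) (y : H Γ ∅ q C) (z : H Γ ∅ r C) :
    cupH ∅ s (cupH ∅ m x y) z = cupH ∅ s x (cupH ∅ k y z) :=
  cupH_assoc h1 h2 h3 h4 (Or.inl Set.inter_subset_right) (Or.inl Set.inter_subset_right)
    (Or.inl Set.inter_subset_right) (Or.inl Set.inter_subset_right) x y z

/-- products relative to `D` with absolute classes on the right: associativity -/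
theorem rassoc {D : Set X} {p q r m k s : ℕ} (h1 : p + q = m) (h2 : m + r = s) (h3 : q + r = k)
    (h4 : p + k = s) (x : H Γ D p C) (y : H Γ ∅ q C) (z : H Γ ∅ r C) :
    cupH D s (cupH D m x y) z = cupH D s x (cupH ∅ k y z) :=
  cupH_assoc h1 h2 h3 h4 (Or.inl Set.inter_subset_right) (Or.inl Set.inter_subset_right)
    (Or.inl Set.inter_subset_right) (Or.inl Set.inter_subset_right) x y z

theorem czero_left {p q n : ℕ} (h : p + q = n) (y : H Γ ∅ q C) :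
    cupH ∅ n (0 : H Γ ∅ p C) y = 0 := cupH_zero_left h (Or.inl Set.inter_subset_right) y

theorem czero_right {p q n : ℕ} (h : p + q = n) (x : H Γ ∅ p C) :
    cupH ∅ n x (0 : H Γ ∅ q C) = 0 := cupH_zero_right h (Or.inl Set.inter_subset_right) x

/-- `x + y = 0` means `x = y` -/
theorem eq_of_add_zero {D : Set X} {n : ℕ} {x y : H Γ D n C} (h : x + y = 0) : x = y := by
  have h1 : x + y + y = y := by rw [h, zero_add]
  rw [add_assoc, two_add, add_zero] at h1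
  exact h1

/-- absolute pullbacks are multiplicative -/
theorem pull_cup {Y : Type} [MetricSpace Y] {Γ' : Subgroup (Y ≃ᵢ Y)} {C' : Set Y} {f : X → Y}
    {p q n : ℕ} (h : p + q = n) (hf : Adm Γ ∅ C Γ' ∅ C' f) (x : H Γ' ∅ p C') (y : H Γ' ∅ q C') :
    pull f hf n (cupH ∅ n x y) = cupH ∅ n (pull f hf p x) (pull f hf q y) :=
  pull_cupH h (Or.inl Set.inter_subset_right) (Or.inl Set.inter_subset_right) hf hf hf x y

/-- powers of `x` in terms of products on the left -/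
theorem pw_succ' (a : H Γ ∅ 1 C) (k : ℕ) : pw a (k + 1) = cupH ∅ (k + 1) a (pw a k) := by
  rw [cup_comm a rfl]
  rfl

end alg

variable {X B : Type} [MetricSpace X] [MetricSpace B] {Γ : Subgroup (X ≃ᵢ X)} {K P N : Set X}
  {S : Set B} {f : X → B}

/-- the class `w` and the relation -/
theorem rel4 (hK : Fib Γ ∅ K ⊥ ∅ S f) (hP : Fib Γ ∅ P ⊥ ∅ S f) (hN : Fib Γ ∅ N ⊥ ∅ S f)
    (hU : K = P ∪ N) (hPK : P ⊆ K) (hNK : N ⊆ K) (a : H Γ ∅ 1 K) (ha4 : pw a 4 = 0)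
    (hKb : ∀ p ∈ S, Bas4 Γ (ov K f {p}) (res (ov_sub K f {p}) 1 a) (res (ov_sub K f {p}) 2 (pw a 2))
      (res (ov_sub K f {p}) 3 (pw a 3)))
    (hPb : ∀ p ∈ S, Acy Γ (ov P f {p}))
    (hNb : ∀ p ∈ S, Bas3 Γ (ov N f {p}) (res (ov_sub N f {p}) 1 (res hNK 1 a))
      (res (ov_sub N f {p}) 2 (res hNK 2 (pw a 2)))) :
    ∃ w : H (⊥ : Subgroup (B ≃ᵢ B)) ∅ 1 S, res hPK 1 a = pull f hP.adE 1 w ∧
      res hNK 3 (pw a 3) = pull f hN.adE 3 (pw w 3) +
        cupH ∅ 3 (pull f hN.adE 2 (pw w 2)) (res hNK 1 a) +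
        cupH ∅ 3 (pull f hN.adE 1 w) (res hNK 2 (pw a 2)) ∧ pw w 4 = 0 := by
  obtain ⟨w, hw⟩ := (LHa hP (fun p hp _ => hPb p hp) 1).2 (res hPK 1 a)
  obtain ⟨c0, c1, c2, hc⟩ : ∃ (c0 : H ⊥ ∅ 3 S) (c1 : H ⊥ ∅ 2 S) (c2 : H ⊥ ∅ 1 S),
      pull f hN.adE 3 c0 + cupH ∅ 3 (pull f hN.adE 2 c1) (res hNK 1 a) +
        cupH ∅ 3 (pull f hN.adE 1 c2) (res hNK 2 (pw a 2)) = res hNK 3 (pw a 3) := by
    obtain ⟨⟨c0, c1, c2⟩, hc⟩ := ((LHc hN (res hNK 1 a) (res hNK 2 (pw a 2))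
      (fun p hp _ => hNb p hp)).2.2 1).2 (res hNK 3 (pw a 3))
    exact ⟨c0, c1, c2, hc⟩
  have f1 := hK.adE
  have hD : ∀ C : Set X, C ∩ ∅ ⊆ (∅ : Set X) ∨ C ∩ ∅ ⊆ (∅ : Set X) :=
    fun C => Or.inl Set.inter_subset_right
  -- the two classes on `K`
  have hx : res hPK 1 (a + pull f f1 1 w) = 0 := by
    rw [map_add, res_pull f1 hP.adE hPK (Set.Subset.refl S), res_self, hw, two_add]
  have hy : res hNK 3 (pw a 3 + (pull f f1 3 c0 + cupH ∅ 3 (pull f f1 2 c1) a +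
      cupH ∅ 3 (pull f f1 1 c2) (pw a 2))) = 0 := by
    rw [map_add, map_add, map_add, res_cupH (p := 2) (q := 1) (n := 3) hNK rfl (hD K),
      res_cupH (p := 1) (q := 2) (n := 3) hNK rfl (hD K),
      res_pull f1 hN.adE hNK (Set.Subset.refl S), res_pull f1 hN.adE hNK (Set.Subset.refl S),
      res_pull f1 hN.adE hNK (Set.Subset.refl S), res_self, res_self, res_self, hc, two_add]
  have h1 : cupH ∅ 4 (a + pull f f1 1 w) (pw a 3 + (pull f f1 3 c0 + cupH ∅ 3 (pull f f1 2 c1) a +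
      cupH ∅ 3 (pull f f1 1 c2) (pw a 2))) = 0 :=
    okK3 X Γ P N K 1 3 hPK hNK hP.fb.okE hN.fb.okE hU _ _ hx hy
  rw [cadd_left (p := 1) (q := 3) (n := 4) rfl] at h1
  iterate 6 rw [cadd_right (p := 1) (q := 3) (n := 4) rfl] at h1
  have e1 : cupH ∅ 4 a (pw a 3) = 0 := by
    rw [← pw_succ']
    exact ha4
  have e2 : cupH ∅ 4 a (pull f f1 3 c0) = cupH ∅ 4 (pull f f1 3 c0) a := cup_comm a rfl _
  have e3 : cupH ∅ 4 a (cupH ∅ 3 (pull f f1 2 c1) a) = cupH ∅ 4 (pull f f1 2 c1) (pw a 2) := by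
    rw [cup_comm (q := 3) (n := 4) a rfl,
      cassoc (p := 2) (q := 1) (r := 1) (m := 3) (k := 2) (s := 4) rfl rfl rfl rfl, pw_succ, pw_one]
  have e4 : cupH ∅ 4 a (cupH ∅ 3 (pull f f1 1 c2) (pw a 2)) =
      cupH ∅ 4 (pull f f1 1 c2) (pw a 3) := by
    rw [cup_comm (q := 3) (n := 4) a rfl,
      cassoc (p := 1) (q := 2) (r := 1) (m := 3) (k := 3) (s := 4) rfl rfl rfl rfl]
    rfl
  have e5 : cupH ∅ 4 (pull f f1 1 w) (pull f f1 3 c0) = pull f f1 4 (cupH ∅ 4 w c0) :=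
    (pull_cup (p := 1) (q := 3) (n := 4) rfl f1 _ _).symm
  have e6 : cupH ∅ 4 (pull f f1 1 w) (cupH ∅ 3 (pull f f1 2 c1) a) =
      cupH ∅ 4 (pull f f1 3 (cupH ∅ 3 w c1)) a := by
    rw [pull_cup (p := 1) (q := 2) (n := 3) rfl f1,
      cassoc (p := 1) (q := 2) (r := 1) (m := 3) (k := 3) (s := 4) rfl rfl rfl rfl]
  have e7 : cupH ∅ 4 (pull f f1 1 w) (cupH ∅ 3 (pull f f1 1 c2) (pw a 2)) =
      cupH ∅ 4 (pull f f1 2 (cupH ∅ 2 w c2)) (pw a 2) := by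
    rw [pull_cup (p := 1) (q := 1) (n := 2) rfl f1,
      cassoc (p := 1) (q := 1) (r := 2) (m := 2) (k := 3) (s := 4) rfl rfl rfl rfl]
  rw [e1, e2, e3, e4, e5, e6, e7] at h1
  have h2 := ((LHd hK a (pw a 2) (pw a 3) (fun p hp _ => hKb p hp)) 1).1
    (a₁ := (cupH ∅ 4 w c0, c0 + cupH ∅ 3 w c1, c1 + cupH ∅ 2 w c2, c2 + w))
    (a₂ := (0, 0, 0, 0)) (by
      change pull f f1 4 (cupH ∅ 4 w c0) + cupH ∅ 4 (pull f f1 3 (c0 + cupH ∅ 3 w c1)) a +
        cupH ∅ 4 (pull f f1 2 (c1 + cupH ∅ 2 w c2)) (pw a 2) +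
        cupH ∅ 4 (pull f f1 1 (c2 + w)) (pw a 3) =
        pull f f1 4 0 + cupH ∅ 4 (pull f f1 3 0) a + cupH ∅ 4 (pull f f1 2 0) (pw a 2) +
          cupH ∅ 4 (pull f f1 1 0) (pw a 3)
      rw [map_zero, map_zero, map_zero, map_zero, czero_left (p := 3) (q := 1) (n := 4) rfl,
        czero_left (p := 2) (q := 2) (n := 4) rfl, czero_left (p := 1) (q := 3) (n := 4) rfl,
        map_add, map_add, map_add, cadd_left (p := 3) (q := 1) (n := 4) rfl,
        cadd_left (p := 2) (q := 2) (n := 4) rfl, cadd_left (p := 1) (q := 3) (n := 4) rfl,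
        add_zero, add_zero, add_zero, ← h1]
      abel)
  simp only [Prod.mk.injEq] at h2
  obtain ⟨h3, h4, h5, h6⟩ := h2
  have g2 : c2 = w := eq_of_add_zero h6
  have g1 : c1 = pw w 2 := by
    rw [eq_of_add_zero h5, g2, pw_succ, pw_one]
  have g0 : c0 = pw w 3 := by
    rw [eq_of_add_zero h4, g1, pw_succ' w 2]
  refine ⟨w, hw.symm, ?_, ?_⟩
  · rw [← hc, g0, g1, g2]
  · rw [pw_succ', ← g0]
    exact h3

end AS
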