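import Pool.Agent.Lib.AS.Mk

/-!
# The local-to-global principle, Vietoris-Begle, Leray-Hirsch, dimension: statements

`M : AllM` are the proved statements M4, …, K2 (see `Mk`), `L3` the tube lemma.
-/

set_option autoImplicit false

namespace AS

section orbits

variable {B : Type} [MetricSpace B]

/-- the orbit of `p` -/
def orb (Γ : Subgroup (B ≃ᵢ B)) (p : B) : Set B := {x | ∃ g ∈ Γ, x = g p}

/-- the closed `ρ`-neighbourhood of the orbit of `p` -/
def nb (Γ : Subgroup (B ≃ᵢ B)) (p : B) (ρ : ℝ) : Set B := {x | ∃ g ∈ Γ, dist x (g p) ≤ ρ}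

end orbits

/-- **L0.** Orbits and their neighbourhoods.
Proof: `orb Γ p` is finite; invariance: `g' (g p) = (g' * g) p` and `dist (g' x) (g' (g p)) = dist x (g p)`;
`nb Γ p ρ` is a finite union of closed balls.  Last claim: `⊥`. -/
def L0 : Prop := ∀ (B : Type) [MetricSpace B] (Γ : Subgroup (B ≃ᵢ B)) (S : Set B) (p : B),
  (Γ : Set (B ≃ᵢ B)).Finite → IvS Γ S → p ∈ S →
  (Ad Γ S (orb Γ p) ∧ (orb Γ p).Finite) ∧
  (∀ ρ, IsClosed (nb Γ p ρ) ∧ IvS Γ (nb Γ p ρ)) ∧ (orb (⊥ : Subgroup (B ≃ᵢ B)) p = {p})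

/-- **L1.** Covering induction.
Proof (uses L0).  For `p ∈ C` let `ρ p > 0` be as in the hypothesis.  The balls `ball p (ρ p)` cover the compact `C`; finitely many
`p ∈ t` suffice (`IsCompact.elim_nhds_subcover'` or `elim_finite_subcover`).  By induction over the finite
set `t` (subsets `t' ⊆ t`): `Pr (⋃ p ∈ t', C ∩ nb Γ p (ρ p))`, these unions are admissible and contained in
`C`; for `t' = t` the union is `C` (`1 ∈ Γ`). -/
def L1 : Prop := ∀ (B : Type) [MetricSpace B] (Γ : Subgroup (B ≃ᵢ B)) (S C : Set B)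
  (Pr : Set B → Prop), (Γ : Set (B ≃ᵢ B)).Finite → Ad Γ S C → Pr ∅ →
  (∀ A A' : Set B, Ad Γ S A → Ad Γ S A' → A ⊆ C → A' ⊆ C → Pr A → Pr A' → Pr (A ∪ A')) →
  (∀ p ∈ C, ∃ ρ > 0, Pr (C ∩ nb Γ p ρ)) → Pr C

/-- **L2.** The local-to-global principle (truncated at the degree `N`).
Proof (uses L0, L1).  Write `I n` for: `T n C` is injective for all admissible `C`, and `J n` for: `T n C` is
surjective for all admissible `C`.
(a) `I n` holds if `n ≤ N` and (`n = 0` or (`I (n-1)` and `J (n-1)`)).  Let `T x = 0`, `x : h n C`.  L1 with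
`Pr A = ∀ hA : A ⊆ C, res hA x = 0`.  Empty set: `empty`.  Near `p ∈ C`: `orb Γ p ⊆ C` is admissible,
`T (res x) = res (T x) = 0` on the orbit, so `res x = 0` there by injectivity at orbits in degree `n`; `c1` gives
`ρ`, and `C ∩ nb Γ p (ρ / 2)` is admissible and `ρ`-close to the orbit.  Union of `A`, `A'` (`I = A ∩ A'`,
`U = A ∪ A'`): the class `z = res x` on `U` restricts to `0` on `A` and `A'`.  `n = 0`: `ex0`.  `n = m + 1`:
`z = del u` (`ex1`); `del (T u) = T (del u) = T (res x) = res (T x) = 0` so `T u = res a + res b` (`ex2`),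
`a = T a'`, `b = T b'` (`J m`), `T (u - (res a' + res b')) = 0`, so `u = res a' + res b'` (`I m`) and
`del u = 0` (`ex2'`).
(b) `J n` holds if `n < N`, `I n`, and (`n = 0` or `J (n-1)`).  Let `y : k n C`.  L1 with
`Pr A = ∀ hA : A ⊆ C, ∃ x, T x = res hA y`.  Empty set: `x = 0`, `empty`.  Near `p ∈ C`: `res y = T x₀` on the orbit;
`c2` (for the orbit and `C`) extends `x₀` to `x₁` on `C ∩ nb Γ p (ρ / 2)` for some `ρ`; `T x₁ - res y` is
`0` on the orbit, so `c1` (on `C ∩ nb Γ p (ρ / 2)`) shows that it is `0` on `C ∩ nb Γ p ρ₁` for a small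
`ρ₁`.  Union: `T x = res y` on `A`, `T x' = res y` on `A'`; on `A ∩ A'` `T (res x - res x') = 0`, so
`res x = res x'` (`I n`), `ex3` gives `z : h n U`; `T z - res y` restricts to `0` on `A` and
`A'`.  `n = 0`: `ex0`.  `n = m + 1`: `T z - res y = del v` (`ex1`), `v = T v'` (`J m`), so
`res y = T (z - del v')`.
Now `I 0, J 0, I 1, J 1, …` by induction. -/
def L2 : Prop := ∀ (B : Type) [MetricSpace B] (Γ : Subgroup (B ≃ᵢ B)) (S : Set B)
  (h k : CTh Γ S) (T : CMor h k) (N : ℕ), (Γ : Set (B ≃ᵢ B)).Finite → IvS Γ S →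
  (∀ p ∈ S, ∀ n < N, Function.Bijective (T.T n (orb Γ p))) →
  (∀ p ∈ S, Function.Injective (T.T N (orb Γ p))) →
  ∀ C : Set B, Ad Γ S C → (∀ n < N, Function.Bijective (T.T n C)) ∧ Function.Injective (T.T N C)

/-- **L4.** Pairs with empty second member: if `C ∩ D = ∅` the groups do not depend on `D`.
Proof: `Cyc` and `Bnd` are the same sets (`Z0.empty`; for `Z0 0 (C ∩ D) ψ` use `Z0.nil`).  Injective: a
coboundary for `∅` is one for `D`.  Surjective: the same function. -/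
def L4 : Prop := ∀ (X : Type) [MetricSpace X] (Γ : Subgroup (X ≃ᵢ X)) (D C : Set X) (n : ℕ),
  C ∩ D = ∅ →
  Function.Bijective (pull (fun x => x) (Adm.id' (D := ∅) (D' := D) le_rfl (Set.Subset.refl C)
    fun _ _ hx => hx.elim) n : H Γ D n C → H Γ ∅ n C)

/-- the standing hypotheses for a map `f : E → B`, with pair parameters `D` and `D'` (`D ∩ E` is the
preimage of `D'`) -/
structure Fib {X B : Type} [MetricSpace X] [MetricSpace B] (Γ : Subgroup (X ≃ᵢ X)) (D E : Set X)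
    (Γ' : Subgroup (B ≃ᵢ B)) (D' S : Set B) (f : X → B) : Prop where
  fb : Fb Γ D E Γ' f
  fin : (Γ' : Set (B ≃ᵢ B)).Finite
  okS : Ok Γ' S
  okD' : OkD Γ' D'
  maps : ∀ x ∈ E, f x ∈ S
  hD : ∀ x ∈ E, x ∈ D ↔ f x ∈ D'

section adm

variable {X B : Type} [MetricSpace X] [MetricSpace B] {Γ : Subgroup (X ≃ᵢ X)} {D E : Set X}
  {Γ' : Subgroup (B ≃ᵢ B)} {D' S : Set B} {f : X → B}

/-- the map `ov E f C → C` for all `C` -/
theorem Fib.adm (h : Fib Γ D E Γ' D' S f) (C : Set B) : Adm Γ D (ov E f C) Γ' D' C f := by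
  refine ⟨fun x hx => hx.2, fun x hx hxD => (h.hD x hx.1).mp hxD, ?_, h.fb.eqv⟩
  have h1 := h.fb.okE.cpt.uniformContinuousOn_of_continuous h.fb.cont
  rw [Metric.uniformContinuousOn_iff] at h1
  intro ε hε
  obtain ⟨δ, hδ, h2⟩ := h1 ε hε
  exact ⟨δ, hδ, fun x hx y hy => h2 x hx.1 y hy.1⟩

/-- the same with absolute groups -/
theorem Fib.adm0 (h : Fib Γ D E Γ' D' S f) (C : Set B) : Adm Γ ∅ (ov E f C) Γ' ∅ C f :=
  ⟨(h.adm C).maps, fun _ _ hx => hx.elim, (h.adm C).uc, (h.adm C).eqv⟩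

end adm

/-- **W1.** The relative Vietoris-Begle theorem (truncated): if the fibres over the orbits outside of
`D'` are acyclic up to degree `N` then `f` induces isomorphisms.
Proof (uses AllM, L3, L0, L2, L4).  L2 for `h = mkTh M (SF.self okD' okS.fr)` (`h n C = H Γ' D' n C`),
`k = mkTh M (h.fb.sf hL S)` (`k n C = H Γ D n (ov E f C)`), `T = pullMor … f h.adm`.  At the orbit of
`p ∈ S`: if `p ∈ D'` then `orb Γ' p ⊆ D'` and `ov E f (orb Γ' p) ⊆ D`, both groups are zero (`H_sub`).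
If `p ∉ D'` then `orb Γ' p ∩ D' = ∅` and `ov E f (orb Γ' p) ∩ D = ∅`; by L4 (on both sides, and `pull_pull`)
bijectivity is equivalent to the one of the absolute groups. -/
def W1 : Prop := ∀ (X B : Type) [MetricSpace X] [MetricSpace B] (Γ : Subgroup (X ≃ᵢ X)) (D E : Set X)
  (Γ' : Subgroup (B ≃ᵢ B)) (D' S : Set B) (f : X → B) (h : Fib Γ D E Γ' D' S f) (N : ℕ),
  (∀ p ∈ S, p ∉ D' → (∀ n < N, Function.Bijective (pull f (h.adm0 (orb Γ' p)) n)) ∧
    Function.Injective (pull f (h.adm0 (orb Γ' p)) N)) →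
  ∀ C : Set B, Ad Γ' S C → (∀ n < N, Function.Bijective (pull f (h.adm C) n)) ∧
    Function.Injective (pull f (h.adm C) N)

/-- **W2.** The relative Leray-Hirsch theorem with basis `1, b`, where `b` is a class of degree `d ≥ 1` on `E`.
Proof (uses AllM, L3, L0, L2, L4).  `h`, `k`, `T₀ = pullMor … f h.adm` as in W1,
`T = T₀.fromProd ((cupMor M (h.fb.sf hL S) (ov_sub E f) d b).comp (T₀.shift d)) : CMor (h.prod (h.shift d)) k`
and L2 (for all `N`).  For `n < d`: `(h.shift d).h n C` has exactly one element and `T n C (x, y) = pull f x`, so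
bijectivity of `T n C` is the one of `pull f`.  For `n = m + d`: `y ↦ y ⟨m, rfl⟩` is a bijection from
`(h.shift d).h (m + d) C` to `H Γ' D' m C` and `T (m + d) C (x, y) = pull f x + cupH D (m + d) (pull f (y ⟨m, rfl⟩)) (res b)`.  At
orbits in `D'` all groups are zero (`H_sub`), at the other orbits use L4 (`pull_cupH` with the identity) as in W1. -/
def W2 : Prop := ∀ (X B : Type) [MetricSpace X] [MetricSpace B] (Γ : Subgroup (X ≃ᵢ X)) (D E : Set X)
  (Γ' : Subgroup (B ≃ᵢ B)) (D' S : Set B) (f : X → B) (h : Fib Γ D E Γ' D' S f) (d : ℕ)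
  (b : H Γ ∅ d E), 1 ≤ d →
  (∀ p ∈ S, p ∉ D' → (∀ n < d, Function.Bijective (pull f (h.adm0 (orb Γ' p)) n)) ∧
    ∀ m, Function.Bijective (fun z : H Γ' ∅ (m + d) (orb Γ' p) × H Γ' ∅ m (orb Γ' p) =>
      pull f (h.adm0 (orb Γ' p)) (m + d) z.1 +
        cupH ∅ (m + d) (pull f (h.adm0 (orb Γ' p)) m z.2) (res (ov_sub E f (orb Γ' p)) d b))) →
  ∀ C : Set B, Ad Γ' S C → (∀ n < d, Function.Bijective (pull f (h.adm C) n)) ∧
    ∀ m, Function.Bijective (fun z : H Γ' D' (m + d) C × H Γ' D' m C =>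
      pull f (h.adm C) (m + d) z.1 +
        cupH D (m + d) (pull f (h.adm C) m z.2) (res (ov_sub E f C) d b))

/-- **W3.** The relative Leray-Hirsch theorem with basis `1, a, c`, where `a` and `c` have degree `1` and
`2` (for instance `c = a²`).
Proof (uses AllM, L3, L0, L2, L4): as for W2 with
`T : CMor (h.prod ((h.shift 1).prod (h.shift 2))) k`.  Degree `0`: only the first component.  Degree `1`: the first two.
Degree `m + 2`: all three, `y` of degree `m + 1`, `z` of degree `m`. -/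
def W3 : Prop := ∀ (X B : Type) [MetricSpace X] [MetricSpace B] (Γ : Subgroup (X ≃ᵢ X)) (D E : Set X)
  (Γ' : Subgroup (B ≃ᵢ B)) (D' S : Set B) (f : X → B) (h : Fib Γ D E Γ' D' S f)
  (a : H Γ ∅ 1 E) (c : H Γ ∅ 2 E),
  (∀ p ∈ S, p ∉ D' → Function.Bijective (pull f (h.adm0 (orb Γ' p)) 0) ∧
    Function.Bijective (fun z : H Γ' ∅ 1 (orb Γ' p) × H Γ' ∅ 0 (orb Γ' p) =>
      pull f (h.adm0 (orb Γ' p)) 1 z.1 +
        cupH ∅ 1 (pull f (h.adm0 (orb Γ' p)) 0 z.2) (res (ov_sub E f (orb Γ' p)) 1 a)) ∧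
    ∀ m, Function.Bijective (fun z : H Γ' ∅ (m + 2) (orb Γ' p) × H Γ' ∅ (m + 1) (orb Γ' p) ×
        H Γ' ∅ m (orb Γ' p) =>
      pull f (h.adm0 (orb Γ' p)) (m + 2) z.1 +
        cupH ∅ (m + 2) (pull f (h.adm0 (orb Γ' p)) (m + 1) z.2.1) (res (ov_sub E f (orb Γ' p)) 1 a) +
        cupH ∅ (m + 2) (pull f (h.adm0 (orb Γ' p)) m z.2.2) (res (ov_sub E f (orb Γ' p)) 2 c))) →
  ∀ C : Set B, Ad Γ' S C → Function.Bijective (pull f (h.adm C) 0) ∧
    Function.Bijective (fun z : H Γ' D' 1 C × H Γ' D' 0 C =>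
      pull f (h.adm C) 1 z.1 + cupH D 1 (pull f (h.adm C) 0 z.2) (res (ov_sub E f C) 1 a)) ∧
    ∀ m, Function.Bijective (fun z : H Γ' D' (m + 2) C × H Γ' D' (m + 1) C × H Γ' D' m C =>
      pull f (h.adm C) (m + 2) z.1 +
        cupH D (m + 2) (pull f (h.adm C) (m + 1) z.2.1) (res (ov_sub E f C) 1 a) +
        cupH D (m + 2) (pull f (h.adm C) m z.2.2) (res (ov_sub E f C) 2 c))

/-- **L5.** Minimal carriers (Lawson's principle): a nonzero class is nonzero on a minimal admissible set.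
Proof: Zorn's lemma (downwards) for the admissible `A ⊆ C` with `res x ≠ 0`.  Chain `K` (nonempty) with
intersection `A = ⋂₀ K`: `A` is admissible.  If `res x = 0` on `A` then by `c1` there is `ρ > 0` such that
`res x = 0` on every admissible `N ⊆ C` which is `ρ`-close to `A`; some member of the chain is `ρ`-close to
`A`: otherwise the sets `{y ∈ N | ∀ b ∈ A, ρ ≤ dist y b}`, `N ∈ K`, are nonempty, compact and
directed, so they have a common point (`IsCompact.nonempty_sInter_of_directed_nonempty_isCompact_isClosed`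
or the `iInter` version), which lies in `A` and has distance `0` from itself. -/
def L5 : Prop := ∀ (B : Type) [MetricSpace B] (Γ : Subgroup (B ≃ᵢ B)) (S : Set B) (h : CTh Γ S)
  (n : ℕ) (C : Set B) (x : h.h n C), Ad Γ S C → x ≠ 0 →
  ∃ (A : Set B) (hA : A ⊆ C), Ad Γ S A ∧ h.res hA n x ≠ 0 ∧
    ∀ (A' : Set B) (hA' : A' ⊆ C), Ad Γ S A' → A' ⊆ A → A' ≠ A → h.res hA' n x = 0

/-- a notion of dimension: every admissible subset of `C` which is not empty and not an orbit is the union of two smaller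
admissible sets with an intersection of smaller dimension -/
def Dm {B : Type} [MetricSpace B] (Γ : Subgroup (B ≃ᵢ B)) : ℕ → Set B → Prop
  | 0, C => ∀ A : Set B, IsCompact A → IvS Γ A → A ⊆ C → A.Nonempty → (∀ p, A ≠ orb Γ p) →
      ∃ A₁ A₂ : Set B, IsCompact A₁ ∧ IvS Γ A₁ ∧ IsCompact A₂ ∧ IvS Γ A₂ ∧ A₁ ∪ A₂ = A ∧ A₁ ≠ A ∧
        A₂ ≠ A ∧ A₁ ∩ A₂ = ∅
  | d + 1, C => ∀ A : Set B, IsCompact A → IvS Γ A → A ⊆ C → A.Nonempty → (∀ p, A ≠ orb Γ p) →
      ∃ A₁ A₂ : Set B, IsCompact A₁ ∧ IvS Γ A₁ ∧ IsCompact A₂ ∧ IvS Γ A₂ ∧ A₁ ∪ A₂ = A ∧ A₁ ≠ A ∧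
        A₂ ≠ A ∧ Dm Γ d (A₁ ∩ A₂)

/-- **L6.** The dimension theorem for an arbitrary theory: if the groups of the orbits vanish in the degrees
`≥ m` then the groups of sets of dimension `≤ d` vanish in the degrees `≥ m + d`.
Proof (uses L5), induction on `d`.  Let `x : h n C` be nonzero, `n ≥ m + d`; L5 gives the minimal `A`.
`A` is not empty (`empty`; if `A = ∅` then `subst`) and not an orbit (hypothesis, `n ≥ m`; `A = orb Γ p`, `p ∈ A ⊆ S`).  Let `A₁`, `A₂` be as in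
`Dm`; `z = res x` on `A` restricts to `0` on `A₁` and `A₂` by minimality.  `n = 0`: `ex0`.  `n = j + 1`:
`z = del u` with `u` of degree `j` on `A₁ ∩ A₂`: for `d = 0` this set is empty, `u = 0`; for `d = d' + 1`:
`j ≥ m + d'`, so `u = 0` by induction.  So `z = 0`, contradiction. -/
def L6 : Prop := ∀ (B : Type) [MetricSpace B] (Γ : Subgroup (B ≃ᵢ B)) (S : Set B) (h : CTh Γ S)
  (m : ℕ), (∀ p ∈ S, ∀ n, m ≤ n → ∀ x : h.h n (orb Γ p), x = 0) →
  ∀ (d : ℕ) (C : Set B), Ad Γ S C → Dm Γ d C → ∀ n, m + d ≤ n → ∀ x : h.h n C, x = 0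

/-- **L7.** Compact sets with an injective continuous map to `ℝ ^ d` (trivial group) have dimension `≤ d`
in the sense of `Dm`.  More precisely: a set `C` with a map `g : B → Fin d → ℝ` continuous and injective on `C`.
Proof by induction on `d`.  `A ⊆ C` compact, nonempty, not an orbit, i.e. not a point: there are `p ≠ q` in `A`, so a
coordinate `i` with `g p i < g q i` (after exchanging `p` and `q`); in particular `d ≥ 1`.  `c` between them,
`A₁ = {x ∈ A | g x i ≤ c}`, `A₂ = {x ∈ A | c ≤ g x i}`: closed in the compact `A`, proper subsets.  On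
`A₁ ∩ A₂` the coordinate `i` is the constant `c`, so the map `x ↦ fun j => g x (i.succAbove j)` is
still injective there: dimension `≤ d - 1`.  (For `d = 0` the function space is a point, so `A` has at most one point:
contradiction.  For `d = 1` one gets `Dm ⊥ 0 (A₁ ∩ A₂)`.) -/
def L7 : Prop := ∀ (B : Type) [MetricSpace B] (d : ℕ) (C : Set B) (g : B → Fin d → ℝ),
  ContinuousOn g C → Set.InjOn g C → Dm (⊥ : Subgroup (B ≃ᵢ B)) d C

/-- **DIM.** Cohomological dimension of compact sets in `ℝ ^ d`, for total spaces: if the fibres of `E → C` have no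
cohomology in the degrees `≥ m` then `ov E f C` has none in the degrees `≥ m + d`.
Proof (uses AllM, L3, L0, L4, L6, L7): L6 for `k = mkTh M (fb.sf hL S)`; at a point `p ∈ S` the hypothesis. -/
def DIM : Prop := ∀ (X B : Type) [MetricSpace X] [MetricSpace B] (Γ : Subgroup (X ≃ᵢ X)) (D E : Set X)
  (S : Set B) (f : X → B) (d m : ℕ) (g : B → Fin d → ℝ), Fb Γ D E ⊥ f →
  ContinuousOn g S → Set.InjOn g S →
  (∀ p ∈ S, ∀ n, m ≤ n → ∀ x : H Γ D n (ov E f {p}), x = 0) →
  ∀ C : Set B, IsCompact C → C ⊆ S → ∀ n, m + d ≤ n → ∀ x : H Γ D n (ov E f C), x = 0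

/-- **L8.** Invariant version of L7 on the sphere: closed subsets of the sphere modulo `±`.
`B` is a real inner product space of dimension `d + 1`, `Γ = {1, -1}` (given as a subgroup with these two
properties), `C` an invariant subset of the unit sphere: dimension `≤ d` in the sense of `Dm`.
Proof.  First the trivial group: (*) for every finite-dimensional subspace `W` of dimension `j + 1`, `v : B` and
every `C` contained in a sphere `{x | x - v ∈ W, ‖x - v‖ = r}`: `Dm ⊥ j C`.  Induction on `j`: `A ⊆ C` compact with two points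
`p ≠ q`; cut by the hyperplane `⟪x - v, w⟫ = c` with `w = q - p ∈ W` and `c` strictly between the values
`⟪p - v, w⟫ < ⟪q - v, w⟫`; the intersection lies in the sphere (of some radius, Pythagoras) of the orthogonal complement of
`w` in `W` around `v + (c / ‖w‖²) w`, of dimension `j`; for `j = 0`: the intersection is contained in the set of the `x`
with `x - v = (c / ‖w‖²) w`, `‖x - v‖ = r`; since `W` is a line, `A ⊆ {v + r w/‖w‖, v - r w/‖w‖}`, so `A = {p, q}` and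
`c` may be chosen as the middle value, where the intersection is empty.
Now `Γ = ±1`: `A ⊆ C` compact, invariant, nonempty, not an orbit: `p ∈ A`, `q ∈ A`, `q ≠ ±p`; so
`|⟪p, q⟫| < 1`; `|⟪p, q⟫| < c < 1`, `A₁ = {x ∈ A | |⟪p, x⟫| ≤ c}`, `A₂ = {x ∈ A | c ≤ |⟪p, x⟫|}`.
`A₁ ∩ A₂ = F ∪ -F` with `F = {x ∈ A | ⟪p, x⟫ = c}`, a subset of a sphere of dimension `d - 1`
(as in (*), with `W` the orthogonal complement of `p`).  If an invariant compact set is `F ∪ -F` with `F` compact, `F ∩ -F = ∅`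
and `Dm ⊥ j F`, then `Dm Γ j (F ∪ -F)`: invariant subsets are `F' ∪ -F'`, `F' = A' ∩ F`, orbits correspond to
points, and unions `F' = F₁ ∪ F₂` give unions of the invariant sets with intersection
`(F₁ ∩ F₂) ∪ -(F₁ ∩ F₂)` (induction on `j`).  For `d = 0`: `B` is a line, `C ⊆ {e, -e}`: every nonempty invariant `A` is
an orbit. -/
def L8 : Prop := ∀ (B : Type) [NormedAddCommGroup B] [InnerProductSpace ℝ B]
  [FiniteDimensional ℝ B] (Γ : Subgroup (B ≃ᵢ B)) (d : ℕ) (C : Set B),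
  Module.finrank ℝ B = d + 1 → (∀ g : B ≃ᵢ B, g ∈ Γ ↔ (∀ x, g x = x) ∨ ∀ x, g x = -x) →
  (∀ x ∈ C, ‖x‖ = 1) → Dm Γ d C

/-! ### the forms for ordinary base spaces (trivial group on the base) -/

section fibres

variable {X : Type} [MetricSpace X]

/-- `F` is acyclic: the cohomology of a point -/
def Acy (Γ : Subgroup (X ≃ᵢ X)) (F : Set X) : Prop :=
  (∀ x : H Γ ∅ 0 F, x = 0 ∨ x = one Γ F) ∧ one Γ F ≠ 0 ∧ ∀ (n : ℕ) (x : H Γ ∅ (n + 1) F), x = 0

/-- the cohomology of `F` has the basis `1, b`, where `b` has degree `d` -/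
def Bas2 (Γ : Subgroup (X ≃ᵢ X)) (F : Set X) (d : ℕ) (b : H Γ ∅ d F) : Prop :=
  (∀ x : H Γ ∅ 0 F, x = 0 ∨ x = one Γ F) ∧ one Γ F ≠ 0 ∧ (∀ x : H Γ ∅ d F, x = 0 ∨ x = b) ∧ b ≠ 0 ∧
    ∀ n, n ≠ 0 → n ≠ d → ∀ x : H Γ ∅ n F, x = 0

/-- the cohomology of `F` has the basis `1, a, c` in the degrees `0, 1, 2` -/
def Bas3 (Γ : Subgroup (X ≃ᵢ X)) (F : Set X) (a : H Γ ∅ 1 F) (c : H Γ ∅ 2 F) : Prop :=
  (∀ x : H Γ ∅ 0 F, x = 0 ∨ x = one Γ F) ∧ one Γ F ≠ 0 ∧ (∀ x : H Γ ∅ 1 F, x = 0 ∨ x = a) ∧ a ≠ 0 ∧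
    (∀ x : H Γ ∅ 2 F, x = 0 ∨ x = c) ∧ c ≠ 0 ∧ ∀ (n : ℕ) (x : H Γ ∅ (n + 3) F), x = 0

end fibres

/-- **W1a.** Relative Vietoris-Begle theorem over an ordinary compact base `S`.
Proof (uses W1, L0, N1, N2): for the trivial group `orb ⊥ p = {p}` (L0); the point `{p}` has
`H 0 = {0, one}`, `one ≠ 0` (N2, a point is connected), `H (n+1) = 0` (N1); `pull f one = one`.  So
`pull f` is bijective at the orbits of the `p ∉ D'`.  Then W1 for all `N`. -/
def W1a : Prop := ∀ (X B : Type) [MetricSpace X] [MetricSpace B] (Γ : Subgroup (X ≃ᵢ X)) (D E : Set X)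
  (D' S : Set B) (f : X → B) (h : Fib Γ D E ⊥ D' S f),
  (∀ p ∈ S, p ∉ D' → Acy Γ (ov E f {p})) →
  ∀ C : Set B, IsCompact C → C ⊆ S → ∀ n, Function.Bijective (pull f (h.adm C) n)

/-- **W2a.** Relative Leray-Hirsch theorem with basis `1, b` over an ordinary compact base.
Proof (uses W2, L0, N1, N2): at a point `p` (`orb ⊥ p = {p}`): degrees `n < d`: as in W1a (`n = 0`: bijection
`{0, one} → {0, one}`, `0 < n < d`: both zero).  Degree `m + d`, `m ≥ 1`: all three groups are zero.  `m = 0`: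
`H d {p} = 0`, and `y ↦ pull f y ∪ b` maps `0 ↦ 0`, `one ↦ b` (`one_cupH`). -/
def W2a : Prop := ∀ (X B : Type) [MetricSpace X] [MetricSpace B] (Γ : Subgroup (X ≃ᵢ X)) (D E : Set X)
  (D' S : Set B) (f : X → B) (h : Fib Γ D E ⊥ D' S f) (d : ℕ) (b : H Γ ∅ d E), 1 ≤ d →
  (∀ p ∈ S, p ∉ D' → Bas2 Γ (ov E f {p}) d (res (ov_sub E f {p}) d b)) →
  ∀ C : Set B, IsCompact C → C ⊆ S → (∀ n < d, Function.Bijective (pull f (h.adm C) n)) ∧
    ∀ m, Function.Bijective (fun z : H ⊥ D' (m + d) C × H ⊥ D' m C =>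
      pull f (h.adm C) (m + d) z.1 +
        cupH D (m + d) (pull f (h.adm C) m z.2) (res (ov_sub E f C) d b))

/-- **W3a.** Relative Leray-Hirsch theorem with basis `1, a, c` over an ordinary compact base.
Proof (uses W3, L0, N1, N2): as for W2a. -/
def W3a : Prop := ∀ (X B : Type) [MetricSpace X] [MetricSpace B] (Γ : Subgroup (X ≃ᵢ X)) (D E : Set X)
  (D' S : Set B) (f : X → B) (h : Fib Γ D E ⊥ D' S f) (a : H Γ ∅ 1 E) (c : H Γ ∅ 2 E),
  (∀ p ∈ S, p ∉ D' → Bas3 Γ (ov E f {p}) (res (ov_sub E f {p}) 1 a) (res (ov_sub E f {p}) 2 c)) →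
  ∀ C : Set B, IsCompact C → C ⊆ S → Function.Bijective (pull f (h.adm C) 0) ∧
    Function.Bijective (fun z : H ⊥ D' 1 C × H ⊥ D' 0 C =>
      pull f (h.adm C) 1 z.1 + cupH D 1 (pull f (h.adm C) 0 z.2) (res (ov_sub E f C) 1 a)) ∧
    ∀ m, Function.Bijective (fun z : H ⊥ D' (m + 2) C × H ⊥ D' (m + 1) C × H ⊥ D' m C =>
      pull f (h.adm C) (m + 2) z.1 +
        cupH D (m + 2) (pull f (h.adm C) (m + 1) z.2.1) (res (ov_sub E f C) 1 a) +
        cupH D (m + 2) (pull f (h.adm C) m z.2.2) (res (ov_sub E f C) 2 c))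

end AS
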