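import Pool.Agent.Lib.AS.SpecLG

/-!
# Vietoris-Begle and Leray-Hirsch over quotients `S / Γ'`, basis `1, a, c, e`: statements

The total space has the group `Γ`, the base the group `Γ'` (acting freely on `S`), and `K ≤ Γ` is the
subgroup of the elements which act trivially on the base (the fibre over the class of `p` is
`ov E f {p} / K`).
-/

set_option autoImplicit false

namespace AS

section rk

variable {X : Type} [MetricSpace X] {Γ K : Subgroup (X ≃ᵢ X)} {D E F G : Set X}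

/-- restriction to a subset and to a subgroup -/
noncomputable def rk (hK : K ≤ Γ) (hF : F ⊆ E) (n : ℕ) : H Γ D n E →+ H K D n F :=
  pull (fun x => x) (Adm.id' hK hF fun _ _ hx => hx) n

theorem rk_cl (hK : K ≤ Γ) (hF : F ⊆ E) {n : ℕ} {φ : List X → ZMod 2} (hφ : φ ∈ Cyc Γ D n E)
    (hφ' : φ ∈ Cyc K D n F) : rk hK hF n (cl φ hφ) = cl φ hφ' := by
  unfold rk
  rw [pull_cl]
  congr 1
  funext l
  rw [List.map_id']

theorem rk_one (hK : K ≤ Γ) (hF : F ⊆ E) : rk hK hF 0 (one Γ E) = one K F :=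
  rk_cl hK hF (one_mem Γ E) (one_mem K F)

theorem res_rk (hK : K ≤ Γ) (hF : F ⊆ E) (hG : G ⊆ F) (hG' : G ⊆ E) (n : ℕ) (x : H Γ D n E) :
    res hG n (rk hK hF n x) = rk hK hG' n x := by
  obtain ⟨φ, hφ, rfl⟩ := cl_surj x
  have h1 : φ ∈ Cyc K D n F :=
    ⟨fun g hg => hφ.1 g (hK hg), (cyc_mono hF hφ).2⟩
  have h2 : φ ∈ Cyc K D n G := cyc_mono hG h1
  rw [rk_cl hK hF hφ h1, res_cl, rk_cl hK hG' hφ h2]

theorem rk_res (hK : K ≤ Γ) (hF : F ⊆ E) (hG : G ⊆ F) (hG' : G ⊆ E) (n : ℕ) (x : H Γ D n E) :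
    rk hK hG n (res hF n x) = rk hK hG' n x := by
  obtain ⟨φ, hφ, rfl⟩ := cl_surj x
  have h1 : φ ∈ Cyc K D n E := ⟨fun g hg => hφ.1 g (hK hg), hφ.2⟩
  have h2 : φ ∈ Cyc K D n G := cyc_mono hG' h1
  rw [res_cl, rk_cl hK hG _ h2, rk_cl hK hG' hφ h2]

end rk

/-- the group `K` of the fibres -/
structure Quo {X B : Type} [MetricSpace X] [MetricSpace B] (Γ K : Subgroup (X ≃ᵢ X)) (E : Set X)
    (Γ' : Subgroup (B ≃ᵢ B)) (f : X → B) : Prop where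
  fin : (Γ : Set (X ≃ᵢ X)).Finite
  le : K ≤ Γ
  triv : ∀ g ∈ K, ∀ x, f (g x) = f x
  free : ∀ g ∈ Γ, g ∉ K → ∀ x ∈ E, f (g x) ≠ f x
  surj : ∀ g' ∈ Γ', ∃ g ∈ Γ, ∀ x, f (g x) = g' (f x)

/-- **Q1.** The group of the preimage of an orbit is the group of the fibre.
Proof (uses N3): N3 for `Γ`, `K`, `C = ov E f (orb Γ' p)`, `F = ov E f {p}`: `F` is closed in the compact `E`,
`K`-invariant by `triv`; every `x ∈ C` has `f x = g' p`, take `g ∈ Γ` over `g'` (`surj`), `y = g⁻¹ x`,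
`f y = p` (`g' (f y) = f (g y) = f x = g' p`); disjointness is `free`.  The second claim is the same for the
base (`Γ'`, `⊥`, `orb Γ' p`, `{p}`): `Γ'` acts freely on `S`. -/
def Q1 : Prop := ∀ (X B : Type) [MetricSpace X] [MetricSpace B] (Γ K : Subgroup (X ≃ᵢ X)) (D E : Set X)
  (Γ' : Subgroup (B ≃ᵢ B)) (D' S : Set B) (f : X → B) (_ : Fib Γ D E Γ' D' S f)
  (q : Quo Γ K E Γ' f) (p : B) (n : ℕ) (h1 : ov E f {p} ⊆ ov E f (orb Γ' p))
  (h2 : {p} ⊆ orb Γ' p), p ∈ S →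
  (∀ A : Set X, OkD Γ A → Function.Bijective (rk (D := A) q.le h1 n)) ∧
  (∀ A : Set B, OkD Γ' A → Function.Bijective (rk (D := A) (bot_le : ⊥ ≤ Γ') h2 n))

/-- **W1b.** Relative Vietoris-Begle theorem over `S / Γ'`.
Proof (uses W1, Q1, L0, N1, N2): the restriction maps `rk` to the fibre over `p` and to `{p}` commute with
`pull f`, they are bijective (Q1 with `A = ∅`), and for `{p}` and the acyclic fibre `pull f` is bijective as in W1a.
Then W1 for all `N`. -/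
def W1b : Prop := ∀ (X B : Type) [MetricSpace X] [MetricSpace B] (Γ K : Subgroup (X ≃ᵢ X)) (D E : Set X)
  (Γ' : Subgroup (B ≃ᵢ B)) (D' S : Set B) (f : X → B) (h : Fib Γ D E Γ' D' S f),
  Quo Γ K E Γ' f → (∀ p ∈ S, p ∉ D' → Acy K (ov E f {p})) →
  ∀ C : Set B, Ad Γ' S C → ∀ n, Function.Bijective (pull f (h.adm C) n)

/-- **W2b.** Relative Leray-Hirsch theorem over `S / Γ'`, basis `1, b`.
Proof (uses W2, Q1, L0, N1, N2): as W1b; products commute with `rk` (`pull_cupH`). -/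
def W2b : Prop := ∀ (X B : Type) [MetricSpace X] [MetricSpace B] (Γ K : Subgroup (X ≃ᵢ X)) (D E : Set X)
  (Γ' : Subgroup (B ≃ᵢ B)) (D' S : Set B) (f : X → B) (h : Fib Γ D E Γ' D' S f)
  (q : Quo Γ K E Γ' f) (d : ℕ) (b : H Γ ∅ d E), 1 ≤ d →
  (∀ p ∈ S, p ∉ D' → Bas2 K (ov E f {p}) d (rk q.le (ov_sub E f {p}) d b)) →
  ∀ C : Set B, Ad Γ' S C → (∀ n < d, Function.Bijective (pull f (h.adm C) n)) ∧
    ∀ m, Function.Bijective (fun z : H Γ' D' (m + d) C × H Γ' D' m C =>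
      pull f (h.adm C) (m + d) z.1 +
        cupH D (m + d) (pull f (h.adm C) m z.2) (res (ov_sub E f C) d b))

/-- **W3b.** Relative Leray-Hirsch theorem over `S / Γ'`, basis `1, a, c`.
Proof (uses W3, Q1, L0, N1, N2): as W2b. -/
def W3b : Prop := ∀ (X B : Type) [MetricSpace X] [MetricSpace B] (Γ K : Subgroup (X ≃ᵢ X)) (D E : Set X)
  (Γ' : Subgroup (B ≃ᵢ B)) (D' S : Set B) (f : X → B) (h : Fib Γ D E Γ' D' S f)
  (q : Quo Γ K E Γ' f) (a : H Γ ∅ 1 E) (c : H Γ ∅ 2 E),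
  (∀ p ∈ S, p ∉ D' → Bas3 K (ov E f {p}) (rk q.le (ov_sub E f {p}) 1 a)
    (rk q.le (ov_sub E f {p}) 2 c)) →
  ∀ C : Set B, Ad Γ' S C → Function.Bijective (pull f (h.adm C) 0) ∧
    Function.Bijective (fun z : H Γ' D' 1 C × H Γ' D' 0 C =>
      pull f (h.adm C) 1 z.1 + cupH D 1 (pull f (h.adm C) 0 z.2) (res (ov_sub E f C) 1 a)) ∧
    ∀ m, Function.Bijective (fun z : H Γ' D' (m + 2) C × H Γ' D' (m + 1) C × H Γ' D' m C =>
      pull f (h.adm C) (m + 2) z.1 +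
        cupH D (m + 2) (pull f (h.adm C) (m + 1) z.2.1) (res (ov_sub E f C) 1 a) +
        cupH D (m + 2) (pull f (h.adm C) m z.2.2) (res (ov_sub E f C) 2 c))

/-- the cohomology of `F` has the basis `1, a, c, e` in the degrees `0, 1, 2, 3` -/
def Bas4 {X : Type} [MetricSpace X] (Γ : Subgroup (X ≃ᵢ X)) (F : Set X) (a : H Γ ∅ 1 F)
    (c : H Γ ∅ 2 F) (e : H Γ ∅ 3 F) : Prop :=
  (∀ x : H Γ ∅ 0 F, x = 0 ∨ x = one Γ F) ∧ one Γ F ≠ 0 ∧ (∀ x : H Γ ∅ 1 F, x = 0 ∨ x = a) ∧ a ≠ 0 ∧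
    (∀ x : H Γ ∅ 2 F, x = 0 ∨ x = c) ∧ c ≠ 0 ∧ (∀ x : H Γ ∅ 3 F, x = 0 ∨ x = e) ∧ e ≠ 0 ∧
    ∀ (n : ℕ) (x : H Γ ∅ (n + 4) F), x = 0

/-- **W4a.** Relative Leray-Hirsch theorem with basis `1, a, c, e` (degrees `0, 1, 2, 3`) over an ordinary
compact base, in the degrees `≥ 3`.
Proof (uses AllM, L3, L0, L2, L4, N1, N2): as W3 and W3a with
`T : CMor (h.prod ((h.shift 1).prod ((h.shift 2).prod (h.shift 3)))) k`.  (L2 needs bijectivity at the points in all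
degrees `0, 1, 2, m + 3`; there all is finite: `Bas4`.) -/
def W4a : Prop := ∀ (X B : Type) [MetricSpace X] [MetricSpace B] (Γ : Subgroup (X ≃ᵢ X)) (D E : Set X)
  (D' S : Set B) (f : X → B) (h : Fib Γ D E ⊥ D' S f) (a : H Γ ∅ 1 E) (c : H Γ ∅ 2 E)
  (e : H Γ ∅ 3 E),
  (∀ p ∈ S, p ∉ D' → Bas4 Γ (ov E f {p}) (res (ov_sub E f {p}) 1 a) (res (ov_sub E f {p}) 2 c)
    (res (ov_sub E f {p}) 3 e)) →
  ∀ C : Set B, IsCompact C → C ⊆ S →
    ∀ m, Function.Bijective (fun z : H ⊥ D' (m + 3) C × H ⊥ D' (m + 2) C × H ⊥ D' (m + 1) C ×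
        H ⊥ D' m C =>
      pull f (h.adm C) (m + 3) z.1 +
        cupH D (m + 3) (pull f (h.adm C) (m + 2) z.2.1) (res (ov_sub E f C) 1 a) +
        cupH D (m + 3) (pull f (h.adm C) (m + 1) z.2.2.1) (res (ov_sub E f C) 2 c) +
        cupH D (m + 3) (pull f (h.adm C) m z.2.2.2) (res (ov_sub E f C) 3 e))

/-- **DIMb.** The dimension theorem for total spaces over `S / Γ'`: fibres without cohomology in the degrees
`≥ m` outside of `D'`, base of dimension `≤ d` in the sense of `Dm`.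
Proof (uses AllM, L3, L0, L6, Q1): L6 for `k = mkTh M (h.fb.sf hL S)`; at an orbit in `D'` (`D'` is invariant): `H_sub`
(`ov E f (orb Γ' p) ⊆ D` by `hD`); at the orbit of `p ∉ D'`: Q1 with `A = D` (injectivity of `rk`) and the hypothesis. -/
def DIMb : Prop := ∀ (X B : Type) [MetricSpace X] [MetricSpace B] (Γ K : Subgroup (X ≃ᵢ X)) (D E : Set X)
  (Γ' : Subgroup (B ≃ᵢ B)) (D' S : Set B) (f : X → B) (d m : ℕ), Fib Γ D E Γ' D' S f →
  Quo Γ K E Γ' f → (∀ p ∈ S, p ∉ D' → ∀ n, m ≤ n → ∀ x : H K D n (ov E f {p}), x = 0) →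
  ∀ C : Set B, Ad Γ' S C → Dm Γ' d C → ∀ n, m + d ≤ n → ∀ x : H Γ D n (ov E f C), x = 0

end AS
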