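import Pool.Agent.Lib.AS.Defs

/-!
# Alexander-Spanier cohomology: Mayer-Vietoris and tautness, statements

Conventions as in `Defs`.  Every statement `M…` is a `Prop`; the file `AS/M….lean` proves
`theorem pM… : M…` (with the used statements as hypotheses `(h1 : M1)` etc., named in the task).
All sets `A, B, U` are compact and invariant, the group acts freely on `U`, the set `D` is closed and
invariant.
-/

set_option autoImplicit false

namespace AS

variable {X Y : Type} [MetricSpace X] [MetricSpace Y]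

/-- the group `Γ` acts freely on `C` -/
def Fr (Γ : Subgroup (X ≃ᵢ X)) (C : Set X) : Prop := ∀ g ∈ Γ, ∀ x ∈ C, g x = x → g = 1

theorem Fr.mono {Γ : Subgroup (X ≃ᵢ X)} {C C' : Set X} (h : Fr Γ C) (h' : C' ⊆ C) : Fr Γ C' :=
  fun g hg x hx => h g hg x (h' hx)

theorem Fr.bot (C : Set X) : Fr (⊥ : Subgroup (X ≃ᵢ X)) C :=
  fun _ hg _ _ _ => Subgroup.mem_bot.mp hg

theorem IvS.bot (C : Set X) : IvS (⊥ : Subgroup (X ≃ᵢ X)) C := fun g hg x hx => by
  rw [Subgroup.mem_bot.mp hg]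
  exact hx

/-- `C` is compact, invariant, and the group acts freely on `C` -/
structure Ok (Γ : Subgroup (X ≃ᵢ X)) (C : Set X) : Prop where
  cpt : IsCompact C
  inv : IvS Γ C
  fr : Fr Γ C

/-- the parameter `D` is closed and invariant -/
structure OkD (Γ : Subgroup (X ≃ᵢ X)) (D : Set X) : Prop where
  cl : IsClosed D
  inv : IvS Γ D

theorem OkD.empty (Γ : Subgroup (X ≃ᵢ X)) : OkD Γ (∅ : Set X) := ⟨isClosed_empty, IvS.empty Γ⟩

theorem Ok.inter {Γ : Subgroup (X ≃ᵢ X)} {A B : Set X} (h : Ok Γ A) (h' : Ok Γ B) :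
    Ok Γ (A ∩ B) :=
  ⟨h.cpt.inter h'.cpt, h.inv.inter h'.inv, h.fr.mono Set.inter_subset_left⟩

theorem Ok.union {Γ : Subgroup (X ≃ᵢ X)} {A B : Set X} (h : Ok Γ A) (h' : Ok Γ B) :
    Ok Γ (A ∪ B) :=
  ⟨h.cpt.union h'.cpt, h.inv.union h'.inv, fun g hg x hx => hx.elim (h.fr g hg x) (h'.fr g hg x)⟩

/-- **M1.** Points of `A` which are close to `B` are close to `A ∩ B`.
Proof: `K = {p ∈ A ×ˢ B | ∀ z ∈ A ∩ B, ρ ≤ dist p.1 z}` is closed in the compact `A ×ˢ B`, so compact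
(the condition is an intersection of closed conditions), and `dist p.1 p.2 > 0` on `K`: if
`p.1 = p.2` then `z = p.1 ∈ A ∩ B` gives `ρ ≤ 0`.  If `K` is empty, `ε = 1` works; otherwise take for `ε`
the minimum of the continuous function `dist p.1 p.2` on `K`. -/
def M1 : Prop := ∀ (X : Type) [MetricSpace X] (A B : Set X), IsCompact A → IsCompact B →
  ∀ ρ > 0, ∃ ε > 0, ∀ x ∈ A, ∀ y ∈ B, dist x y < ε → ∃ z ∈ A ∩ B, dist x z < ρ

/-- **M2.** The equivariant (not continuous) retraction.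
Proof (uses M1).  Let `q x = if x ∈ A then x else if x ∈ D ∧ (A ∩ D).Nonempty then (a point of A ∩ D with
minimal distance from x) else (a point of A with minimal distance from x)`
(`IsCompact.exists_infDist_eq_dist`).  Let `rep x` be a chosen point of the orbit `{y | ∃ g ∈ Γ, g x = y}`
which depends only on the orbit (for instance `Quotient.out` of the orbit relation; `Γ` is a subgroup of
`X ≃ᵢ X`), and `γ x ∈ Γ` with `γ x (rep x) = x`.  Put `r x = if x ∈ C then γ x (q (rep x)) else x`.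
Equivariance: for `x ∉ C` also `g x ∉ C`.  For `x ∈ C`: `rep (g x) = rep x`, and
`(γ (g x))⁻¹ * g * γ x` fixes `rep x ∈ C`, so it is `1` (`Fr`).  For `x ∈ A`: `rep x ∈ A`,
`q (rep x) = rep x`.  `r x ∈ A` for `x ∈ C` since `A` is invariant.  Control: `g` is an isometry and `A`,
`D`, `C` are invariant, so it is enough to prove the two claims for `y = rep x` and `q` instead of `x` and
`r` (if `dist x a < ρ` then `dist (rep x) ((γ x)⁻¹ a) < ρ`).  Given `ρ'`, M1 for `C ∩ D` and `A` gives `ε`,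
take `ρ = min ε ρ'`.  If `y ∈ C` has distance `< ρ` from a point of `A`: case `y ∈ D`: there is `z` in
`C ∩ D ∩ A` with `dist y z < ρ'`, hence `A ∩ D` is not empty, `q y ∈ D` (also if `y ∈ A`) and
`dist y (q y) ≤ dist y z < ρ'`.  Case `y ∉ D`: `dist y (q y) ≤ dist y a < ρ ≤ ρ'`. -/
def M2 : Prop := ∀ (X : Type) [MetricSpace X] (Γ : Subgroup (X ≃ᵢ X)) (D A C : Set X),
  OkD Γ D → Ok Γ C → Ok Γ A → A ⊆ C → A.Nonempty →
  ∃ r : X → X, (∀ g ∈ Γ, ∀ x, r (g x) = g (r x)) ∧ (∀ x ∈ C, r x ∈ A) ∧ (∀ x ∈ A, r x = x) ∧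
    (∀ x, x ∉ C → r x = x) ∧
    ∀ ρ' > 0, ∃ ρ > 0, ∀ x ∈ C, (∃ a ∈ A, dist x a < ρ) →
      dist x (r x) < ρ' ∧ (x ∈ D → r x ∈ D)

/-- **M3.** The complex of the cochains on `A ∪ B` which vanish on `A` and on `B` is acyclic.
Proof (uses M1, M2).  If `A ∩ B = ∅`: by M1 (with any `ρ`) there is `ε` such that no `x ∈ A`, `y ∈ B` have
distance `< ε`, so every small nonempty list in `A ∪ B` lies in `A` or in `B`, `ζ` vanishes on the small
lists of length `n + 1` in `A ∪ B` and `κ = 0` works.  Otherwise let `r` be the retraction of M2 with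
`C = A ∪ B` and the set `A ∩ B`.  Put
`κ l = if (∀ x ∈ l, x ∈ A) ∨ (∀ x ∈ l, x ∈ B) then 0 else pp (fun x => x) r ζ l`.
`κ [] = 0`; invariance by `pp_map` and the invariance of `A`, `B`, `ζ`; `Z0 n A κ` and `Z0 n B κ` are clear.
Let `η` be a common bound for the smallness in the hypotheses on `ζ`; `ρ' = η / 4`; `ρ` from M2; `ε ≤ η / 4`,
`ε ≤ ρ / 2` and such that (M1) points of `A` with distance `< ε` from `B` have distance `< ρ / 2` from a point
of `A ∩ B`.  Call `l` mixed if neither in `A` nor in `B`.  FACT: if `l` is an `ε`-small list in `A ∪ B`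
which contains a point of `A \ B` and a point of `B \ A` then every `x ∈ l` has distance `< ρ` from a point
of `A ∩ B`, so `dist x (r x) < ρ'`, `r x ∈ A ∩ B`, and `x ∈ D → r x ∈ D`; so every list `m` with entries in
`l` or `r l` is `η`-small.  (i) `Z0 n ((A ∪ B) ∩ D) κ`: for a mixed small list `l` in `D` all the
lists which occur in `pp (fun x => x) r ζ l` are small lists in `(A ∪ B) ∩ D` (`pp_congr` with `ψ = 0`; a
lemma `pp f g 0 = 0` follows from `pp_add`).  (ii) `Z0 (n + 1) (A ∪ B) (ζ + dd κ)`: let `l` be small.  If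
`l ⊆ A`: `ζ l = 0` and `κ = 0` on the faces (`dd_congr`).  The same for `B`.  If `l` is mixed:
for every face `m` of `l`, `κ m = pp (fun x => x) r ζ m`: clear if `m` is mixed; if `m ⊆ A` (or `B`), all
the lists in `pp (fun x => x) r ζ m` are small lists of length `n + 1` in `A` (since `r m ⊆ A ∩ B`), where
`ζ = 0`.  So `dd κ l = dd (pp (fun x => x) r ζ) l = pp (fun x => x) r (dd ζ) l + ζ l + ζ (l.map r)`
(`prism`), the first term is `0` (small lists of length `n + 2` in `A ∪ B`), the last one is `0` (small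
list in `A`). -/
def M3 : Prop := ∀ (X : Type) [MetricSpace X] (Γ : Subgroup (X ≃ᵢ X)) (D A B : Set X) (n : ℕ)
  (ζ : List X → ZMod 2), OkD Γ D → Ok Γ A → Ok Γ B → Iv Γ ζ →
  Z0 (n + 1) A ζ → Z0 (n + 1) B ζ → Z0 (n + 1) ((A ∪ B) ∩ D) ζ → Z0 (n + 2) (A ∪ B) (dd ζ) →
  ∃ κ : List X → ZMod 2, Iv Γ κ ∧ κ [] = 0 ∧ Z0 n A κ ∧ Z0 n B κ ∧ Z0 n ((A ∪ B) ∩ D) κ ∧
    Z0 (n + 1) (A ∪ B) (ζ + dd κ)

/-- `ζ` represents the image of `φ` under the connecting map: an extension `η` of `φ` to `A` has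
`dd η = ζ` on `A`, and `ζ = 0` on `B` -/
def DelR (Γ : Subgroup (X ≃ᵢ X)) (D A B : Set X) (n : ℕ) (φ ζ : List X → ZMod 2) : Prop :=
  ∃ η : List X → ZMod 2, Iv Γ η ∧ Z0 (n + 1) (A ∩ D) η ∧ Z0 (n + 1) (A ∩ B) (φ + η) ∧
    Z0 (n + 2) A (ζ + dd η) ∧ Z0 (n + 2) B ζ

theorem DelR.add {Γ : Subgroup (X ≃ᵢ X)} {D A B : Set X} {n : ℕ} {φ ζ φ' ζ' : List X → ZMod 2}
    (h : DelR Γ D A B n φ ζ) (h' : DelR Γ D A B n φ' ζ') :
    DelR Γ D A B n (φ + φ') (ζ + ζ') := by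
  obtain ⟨η, h1, h2, h3, h4, h5⟩ := h
  obtain ⟨η', h1', h2', h3', h4', h5'⟩ := h'
  refine ⟨η + η', h1.add h1', h2.add h2', ?_, ?_, h5.add h5'⟩
  · have : φ + φ' + (η + η') = (φ + η) + (φ' + η') := by abel
    rw [this]
    exact h3.add h3'
  · have : ζ + ζ' + dd (η + η') = (ζ + dd η) + (ζ' + dd η') := by
      rw [dd_add']
      abel
    rw [this]
    exact h4.add h4'

open Classical in
/-- the connecting map of the Mayer-Vietoris sequence for `I = A ∩ B`, `U = A ∪ B` (a plain function, no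
hypotheses in its definition; see M6) -/
noncomputable def del (Γ : Subgroup (X ≃ᵢ X)) (D A B I U : Set X) (n : ℕ) (x : H Γ D n I) :
    H Γ D (n + 1) U :=
  if h : ∃ z : H Γ D (n + 1) U, ∃ φ, ∃ hφ : φ ∈ Cyc Γ D n I, ∃ ζ, ∃ hζ : ζ ∈ Cyc Γ D (n + 1) U,
    cl φ hφ = x ∧ cl ζ hζ = z ∧ DelR Γ D A B n φ ζ then h.choose else 0

/-- the hypotheses of the Mayer-Vietoris sequence -/
structure MVs (Γ : Subgroup (X ≃ᵢ X)) (D A B I U : Set X) : Prop where
  okD : OkD Γ D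
  okA : Ok Γ A
  okB : Ok Γ B
  hI : I = A ∩ B
  hU : U = A ∪ B

theorem MVs.IA {Γ : Subgroup (X ≃ᵢ X)} {D A B I U : Set X} (h : MVs Γ D A B I U) : I ⊆ A :=
  h.hI ▸ Set.inter_subset_left

theorem MVs.IB {Γ : Subgroup (X ≃ᵢ X)} {D A B I U : Set X} (h : MVs Γ D A B I U) : I ⊆ B :=
  h.hI ▸ Set.inter_subset_right

theorem MVs.AU {Γ : Subgroup (X ≃ᵢ X)} {D A B I U : Set X} (h : MVs Γ D A B I U) : A ⊆ U :=
  h.hU ▸ Set.subset_union_left

theorem MVs.BU {Γ : Subgroup (X ≃ᵢ X)} {D A B I U : Set X} (h : MVs Γ D A B I U) : B ⊆ U :=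
  h.hU ▸ Set.subset_union_right

theorem MVs.swap {Γ : Subgroup (X ≃ᵢ X)} {D A B I U : Set X} (h : MVs Γ D A B I U) :
    MVs Γ D B A I U :=
  ⟨h.okD, h.okB, h.okA, by rw [h.hI, Set.inter_comm], by rw [h.hU, Set.union_comm]⟩

/-- **M4.** Every cocycle on `I` has an image under the connecting map.
Proof (uses M3).  `η l = if ∀ x ∈ l, x ∈ I then φ l else 0` is invariant, `φ + η = 0` on the lists in `A ∩ B`,
`η = 0` on the small lists in `A ∩ D`.  `ζ₀ l = if ∀ x ∈ l, x ∈ A then dd η l else 0`: invariant;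
`ζ₀ = dd η` on the lists in `A` (`Z0 (n+2) A (ζ₀ + dd η)`, all lists); on the small lists `l` in `B`: not in `A`: `0`; in
`A ∩ B = I`: `dd η l = dd φ l = 0` (`dd_congr`); on the small lists in `U ∩ D`: in `A`: the faces are small
lists in `A ∩ D`, so `dd η l = 0`.  `dd ζ₀ = 0` on the small lists of length `n + 3` in `A`
(`dd_congr`, `dd_dd`) and in `B` (`Z0.dd`) and in `U ∩ D`.  M3 with `n + 2` and `dd ζ₀` gives `κ` with
`Z0 (n+2) A κ`, `Z0 (n+2) B κ`, `Z0 (n+2) (U ∩ D) κ`, `Z0 (n+3) U (dd ζ₀ + dd κ)`.  `ζ = ζ₀ + κ`. -/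
def M4 : Prop := ∀ (X : Type) [MetricSpace X] (Γ : Subgroup (X ≃ᵢ X)) (D A B I U : Set X) (n : ℕ)
  (φ : List X → ZMod 2), MVs Γ D A B I U → φ ∈ Cyc Γ D n I →
  ∃ ζ ∈ Cyc Γ D (n + 1) U, DelR Γ D A B n φ ζ

/-- **M5.** The connecting map is well defined.
Proof (uses M3).  `φ ∈ Bnd`: `φ + dd χ = 0` on the small lists in `I`, `χ` invariant, `Z0 n (I ∩ D) χ`.
`χ' l = if ∀ x ∈ l, x ∈ I then χ l else 0`; `η` from `DelR`; `η₁ = η + dd χ'`: invariant, `Z0 (n+1) (A ∩ D) η₁`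
(the faces of a list in `A ∩ D` are in `A ∩ D`, there `χ' = 0`), `Z0 (n+1) (A ∩ B) η₁`
(`η₁ = (φ + η) + (φ + dd χ)` on the lists in `I`), `Z0 (n+2) A (ζ + dd η₁)` (`dd_dd`).
`θ l = if ∀ x ∈ l, x ∈ A then η₁ l else 0`: invariant; `Z0 (n+1) B θ`; `Z0 (n+1) (U ∩ D) θ`;
`dd θ = dd η₁` on the lists in `A`.  So `ζ + dd θ` vanishes on the small lists of length `n + 2` in `A`, in `B`
(there `ζ = 0`, `Z0.dd`), in `U ∩ D`, and `dd (ζ + dd θ) = dd ζ`.  M3 (with `n + 1`) gives `κ`;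
`ζ + dd (θ + κ) = 0` on the small lists in `U`, and `mem_Bnd_succ`. -/
def M5 : Prop := ∀ (X : Type) [MetricSpace X] (Γ : Subgroup (X ≃ᵢ X)) (D A B I U : Set X) (n : ℕ)
  (φ ζ : List X → ZMod 2), MVs Γ D A B I U → φ ∈ Bnd Γ D n I → ζ ∈ Cyc Γ D (n + 1) U →
  DelR Γ D A B n φ ζ → ζ ∈ Bnd Γ D (n + 1) U

/-- **M6.** The characterisation of `del` and its additivity.
Proof (uses M4, M5).  If `cl φ hφ = cl φ' hφ'`, `DelR φ ζ`, `DelR φ' ζ'` then `DelR (φ + φ') (ζ + ζ')`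
(`DelR.add`), `φ + φ' ∈ Bnd` (`cl_eq_cl`), so `ζ + ζ' ∈ Bnd` (M5), `cl ζ = cl ζ'`.  So the element chosen in
`del` is `cl ζ hζ`.  Additivity: `cl_surj`, M4, `DelR.add`, `cl_add`. -/
def M6 : Prop := ∀ (X : Type) [MetricSpace X] (Γ : Subgroup (X ≃ᵢ X)) (D A B I U : Set X) (n : ℕ),
  MVs Γ D A B I U →
  (∀ (φ ζ : List X → ZMod 2) (hφ : φ ∈ Cyc Γ D n I) (hζ : ζ ∈ Cyc Γ D (n + 1) U),
    DelR Γ D A B n φ ζ → del Γ D A B I U n (cl φ hφ) = cl ζ hζ) ∧
  (∀ x y : H Γ D n I, del Γ D A B I U n (x + y) = del Γ D A B I U n x + del Γ D A B I U n y) ∧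
  del Γ D A B I U n 0 = 0

/-- **M7.** Exactness in degree `0`.
Proof: by `mem_Bnd_zero` the representing `φ` vanishes on the lists `[x]` with `x ∈ A` or `x ∈ B`
(`[x]` is `ε`-small for every `ε > 0`). -/
def M7 : Prop := ∀ (X : Type) [MetricSpace X] (Γ : Subgroup (X ≃ᵢ X)) (D A B U : Set X)
  (hA : A ⊆ U) (hB : B ⊆ U), U = A ∪ B → ∀ z : H Γ D 0 U, res hA 0 z = 0 → res hB 0 z = 0 → z = 0

/-- **M8.** Exactness at `H (n + 1) U`.
Proof (uses M6, M4).  First part: `ζ` represents `z`, `ζ + dd α = 0` on the small lists in `A`,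
`ζ + dd β = 0` on the small lists in `B` (`α`, `β` invariant, `Z0 (n+1) (A ∩ D) α`, `Z0 (n+1) (B ∩ D) β`).
`φ = α + β ∈ Cyc Γ D n I`.  `β' l = if ∀ x ∈ l, x ∈ B then β l else 0` (invariant, `Z0 (n+1) (U ∩ D) β'`),
`ζ' = ζ + dd β'`: `Z0 (n+2) B ζ'` (`dd β' = dd β` on the lists in `B`), `η = α + β'`:
`Z0 (n+1) (A ∩ D) η`, `φ + η = β + β' = 0` on the lists in `A ∩ B`, `Z0 (n+2) A (ζ' + dd η)` since
`ζ' + dd η = ζ + dd α + dd β' + dd β'`.  So `DelR φ ζ'` and `cl ζ' = cl ζ`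
(`ζ + ζ' = dd β' ∈ Bnd` by `mem_Bnd_succ`).  Second part: M4, M6: `del u = cl ζ` with `DelR φ ζ`;
`ζ ∈ Bnd` on `A` (by `η`, `mem_Bnd_succ`) and on `B` (`Bnd_of_Z0`). -/
def M8 : Prop := ∀ (X : Type) [MetricSpace X] (Γ : Subgroup (X ≃ᵢ X)) (D A B I U : Set X) (n : ℕ)
  (h : MVs Γ D A B I U),
  (∀ z : H Γ D (n + 1) U, res h.AU (n + 1) z = 0 → res h.BU (n + 1) z = 0 →
    ∃ u : H Γ D n I, z = del Γ D A B I U n u) ∧
  (∀ u : H Γ D n I, res h.AU (n + 1) (del Γ D A B I U n u) = 0 ∧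
    res h.BU (n + 1) (del Γ D A B I U n u) = 0)

/-- **M9.** Exactness at `H n I`.
Proof (uses M4, M6).  First part: `φ` represents `u`, `DelR φ ζ` (M4) with `η`; `cl ζ = del u = 0`, so
`ζ + dd θ = 0` on the small lists in `U` (`θ` invariant, `Z0 (n+1) (U ∩ D) θ`, `mem_Bnd_succ`).  `a = cl (η + θ)` on
`A` (`dd (η + θ) = (ζ + dd η) + (ζ + dd θ)`), `b = cl θ` on `B` (`dd θ = ζ + (ζ + dd θ)`), and
`φ + (η + θ + θ) = φ + η` vanishes on the small lists in `I`.  Second part: `α ∈ Cyc Γ D n A`: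
`DelR α 0` with `η = α`.  `β ∈ Cyc Γ D n B`: `β' l = if ∀ x ∈ l, x ∈ B then β l else 0`, `ζ = dd β'`,
`η = β'`: `DelR β (dd β')` and `dd β' ∈ Bnd Γ D (n+1) U`.  Then M6. -/
def M9 : Prop := ∀ (X : Type) [MetricSpace X] (Γ : Subgroup (X ≃ᵢ X)) (D A B I U : Set X) (n : ℕ)
  (h : MVs Γ D A B I U),
  (∀ u : H Γ D n I, del Γ D A B I U n u = 0 →
    ∃ (a : H Γ D n A) (b : H Γ D n B), u = res h.IA n a + res h.IB n b) ∧
  (∀ a : H Γ D n A, del Γ D A B I U n (res h.IA n a) = 0) ∧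
  (∀ b : H Γ D n B, del Γ D A B I U n (res h.IB n b) = 0)

/-- **M10.** Exactness in the middle (gluing of classes).
Proof (uses M3).  `φ` on `A`, `ψ` on `B`, `φ + ψ + dd χ = 0` on the small lists in `I` (`χ` invariant,
`Z0 n (I ∩ D) χ`, `χ [] = 0`).  `χ' l = if ∀ x ∈ l, x ∈ I then χ l else 0`.
`Φ l = if ∀ x ∈ l, x ∈ A then φ l + dd χ' l else if ∀ x ∈ l, x ∈ B then ψ l else 0`: invariant; on the lists in `A`:
`Φ = φ + dd χ'`; on the small lists in `B`: `Φ = ψ`; `Z0 (n+1) (U ∩ D) Φ`.  `dd Φ` vanishes on the small lists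
of length `n + 2` in `A`, in `B`, in `U ∩ D`; M3 (`n + 1`, `ζ = dd Φ`) gives `κ` with `Z0 (n+1) A κ`,
`Z0 (n+1) B κ`, `Z0 (n+1) (U ∩ D) κ`, `Z0 (n+2) U (dd Φ + dd κ)`.  `z = cl (Φ + κ)`; on `A`:
`Φ + κ + φ = dd χ' + κ`, a coboundary (`χ' [] = 0`, `Z0 n (A ∩ D) χ'`), on `B`: `Φ + κ + ψ` vanishes on small
lists. -/
def M10 : Prop := ∀ (X : Type) [MetricSpace X] (Γ : Subgroup (X ≃ᵢ X)) (D A B I U : Set X) (n : ℕ)
  (h : MVs Γ D A B I U) (a : H Γ D n A) (b : H Γ D n B), res h.IA n a = res h.IB n b →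
  ∃ z : H Γ D n U, res h.AU n z = a ∧ res h.BU n z = b

/-- **M11.** Naturality of the connecting map under pullback (in particular under restriction, change of
`Γ` and of `D`).
Proof (uses M4, M6): `DelR φ ζ` with `η` gives `DelR` of the compositions with `List.map f`
(`Z0.comp`, `Adm.iv`, `dd_map`), and `pull_cl`. -/
def M11 : Prop := ∀ (X Y : Type) [MetricSpace X] [MetricSpace Y] (Γ : Subgroup (X ≃ᵢ X))
  (D A B I U : Set X) (Γ' : Subgroup (Y ≃ᵢ Y)) (D' A' B' I' U' : Set Y) (f : X → Y) (n : ℕ),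
  MVs Γ D A B I U → MVs Γ' D' A' B' I' U' →
  (∀ x ∈ A, f x ∈ A') → (∀ x ∈ B, f x ∈ B') →
  ∀ (hU : Adm Γ D U Γ' D' U' f) (hI : Adm Γ D I Γ' D' I' f) (u : H Γ' D' n I'),
  pull f hU (n + 1) (del Γ' D' A' B' I' U' n u) = del Γ D A B I U n (pull f hI n u)

/-- **M12.** The connecting map is symmetric in `A`, `B`.
Proof (uses M4, M6).  `DelR Γ D A B n φ ζ` with `η`; `θ l = if ∀ x ∈ l, x ∈ A then η l else 0`
(invariant, `Z0 (n+1) (U ∩ D) θ`), `ζ' = ζ + dd θ`: `ζ' = 0` on the small lists in `A`,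
`ζ' + dd θ = ζ = 0` on the small lists in `B`, `Z0 (n+1) (B ∩ D) θ`, `φ + θ = φ + η = 0` on the small lists in `A ∩ B`: so
`DelR Γ D B A n φ ζ'`, and `ζ + ζ' = dd θ ∈ Bnd`. -/
def M12 : Prop := ∀ (X : Type) [MetricSpace X] (Γ : Subgroup (X ≃ᵢ X)) (D A B I U : Set X) (n : ℕ),
  MVs Γ D A B I U → ∀ u : H Γ D n I, del Γ D A B I U n u = del Γ D B A I U n u

/-- **T1.** A class which vanishes on the compact set `B` vanishes near `B`.
Proof (uses M2).  `B = ∅`: then `N = ∅`, `H_empty`.  Otherwise `r` from M2 (`A := B`).  `φ` represents `x`,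
`φ + dd ψ = 0` on the `ε`-small lists of length `n + 1` in `B` (`ψ [] = 0`, `ψ = 0` on the `ε`-small lists
of length `n` in `B ∩ D`), `φ = 0` on the `ε`-small lists of length `n + 1` in `C ∩ D`, `dd φ = 0` on the `ε`-small
lists of length `n + 2` in `C`.  `ρ' = ε / 4`, `ρ` from M2.  `ψ' l = pp (fun x => x) r φ l + ψ (l.map r)`.
For `ε / 4`-small lists `l` in `N` all lists with entries in `l` or `r l` are `ε`-small in `C`, and in `D` if
`l` is in `D`.  By `prism`, `dd_map`: `dd ψ' l = pp (fun x => x) r (dd φ) l + φ l + φ (l.map r) +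
dd ψ (l.map r)`, and the first term and the sum of the last two are `0`. -/
def T1 : Prop := ∀ (X : Type) [MetricSpace X] (Γ : Subgroup (X ≃ᵢ X)) (D B C : Set X) (n : ℕ)
  (hBC : B ⊆ C) (x : H Γ D n C), OkD Γ D → Ok Γ B → Ok Γ C → res hBC n x = 0 →
  ∃ ρ > 0, ∀ (N : Set X) (hN : N ⊆ C), (∀ y ∈ N, ∃ b ∈ B, dist y b < ρ) → res hN n x = 0

/-- **T2.** Every class on the compact set `B` extends to a neighbourhood of `B` in `C`.
Proof (uses M2).  `B = ∅`: `N = ∅`, take `0`.  Otherwise `r` from M2, `φ` represents `y`, `φ' l = φ (l.map r)`. -/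
def T2 : Prop := ∀ (X : Type) [MetricSpace X] (Γ : Subgroup (X ≃ᵢ X)) (D B C : Set X) (n : ℕ)
  (y : H Γ D n B), B ⊆ C → OkD Γ D → Ok Γ B → Ok Γ C →
  ∃ ρ > 0, ∀ (N : Set X) (hBN : B ⊆ N), N ⊆ C → (∀ z ∈ N, ∃ b ∈ B, dist z b < ρ) →
    ∃ x : H Γ D n N, res hBN n x = y

/-- **T3.** Decreasing sequences of compact sets.
Proof: the sets `K k = {x ∈ C k | ∀ b ∈ ⋂ i, C i, ρ ≤ dist x b}` are compact and decreasing with empty
intersection (a point of all `C k` has distance `0` from itself), so one of them is empty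
(`IsCompact.nonempty_iInter_of_sequence_nonempty_isCompact_isClosed`). -/
def T3 : Prop := ∀ (X : Type) [MetricSpace X] (C : ℕ → Set X), (∀ k, IsCompact (C k)) → Antitone C →
  ∀ ρ > 0, ∃ k, ∀ x ∈ C k, ∃ b ∈ ⋂ i, C i, dist x b < ρ

/-- **N1.** A finite set has no cohomology in positive degrees.
Proof.  Lemma: `dd φ (List.replicate (m + 1) x) = (m + 1 : ℕ) * φ (List.replicate m x)` (induction over `m` for all `φ`).
Small lists in the finite set `C` are constant (positive minimal distance; if `l = x :: m` is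
small then `l = List.replicate l.length x`).  `κ [] = 0`, `κ (x :: l) = φ (x :: x :: l)`: invariant,
`Z0 (n+1) (C ∩ D) κ`, and on a small constant list `l` of length `n + 2`: `dd κ l = (n + 2) φ l`,
`0 = dd φ (x :: l) = (n + 3) φ l`, so `φ l + dd κ l = (n + 3) φ l = 0`. -/
def N1 : Prop := ∀ (X : Type) [MetricSpace X] (Γ : Subgroup (X ≃ᵢ X)) (D C : Set X) (n : ℕ),
  C.Finite → ∀ x : H Γ D (n + 1) C, x = 0

theorem one_mem (Γ : Subgroup (X ≃ᵢ X)) (C : Set X) :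
    (fun _ => 1 : List X → ZMod 2) ∈ Cyc Γ ∅ 0 C := by
  refine ⟨fun _ _ _ => rfl, Z0.empty 0 (Set.inter_empty C) _, 1, one_pos, fun l hl _ => ?_⟩
  rcases l with _ | ⟨x, _ | ⟨y, _ | ⟨z, l⟩⟩⟩
  · simp at hl
  · simp at hl
  · simp only [dd]
    decide
  · simp at hl

/-- the class `1` -/
def one (Γ : Subgroup (X ≃ᵢ X)) (C : Set X) : H Γ ∅ 0 C := cl (fun _ => 1) (one_mem Γ C)

/-- **N2.** The group of degree `0` of a connected set, and `1 ≠ 0`.
Proof: `φ` represents `x`; on `ε`-small pairs in `C`: `0 = dd φ [p, q] = φ [q] + φ [p]`, so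
`p ↦ φ [p]` is locally constant on `C`, hence constant on the preconnected `C`
(`IsPreconnected.constant`, with values in `Bool` or `ZMod 2` with the discrete topology).  If the value is
`0` the class is `0` (`mem_Bnd_zero`), if it is `1`, `φ + 1` is in `Bnd`.  Second part: if
`1 ∈ Bnd` then `1 = 0` on the lists `[p]`, `p ∈ C`. -/
def N2 : Prop := ∀ (X : Type) [MetricSpace X] (Γ : Subgroup (X ≃ᵢ X)) (C : Set X),
  (IsPreconnected C → ∀ x : H Γ ∅ 0 C, x = 0 ∨ x = one Γ C) ∧ (C.Nonempty → one Γ C ≠ 0)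

/-- **N3.** The induction isomorphism: `C` is the disjoint union of the translates of `F`.
Proof.  `F` is closed, and there is `ε > 0` such that points of `F` and of `g F` (`g ∈ Γ \ Γ'`) have distance
`≥ ε`: `F` and `F' = {y | ∃ g ∈ Γ, g ∉ Γ', ∃ x ∈ F, y = g x}` are disjoint compact sets (`F'` is a finite union of
translates since `Γ` is finite); so (isometries) small lists in `C` are in one translate `g F`: if
`l = x :: m` with `x ∈ g F` then `l ⊆ g F`.  Injectivity: `φ + dd ψ = 0` on the small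
lists in `F`, `ψ` is `Γ'`-invariant: put `ψ' l = ψ (l.map g⁻¹)` if `l ⊆ g F` for some `g ∈ Γ` and
`l ≠ []`, `0` otherwise (independent of `g` since `l.map g⁻¹` and `l.map g'⁻¹` differ by
`g'⁻¹ g ∈ Γ'` if `l` is not empty and in `g F ∩ g' F`); it is `Γ`-invariant,
and `φ + dd ψ' = 0` on small lists in `C` by the invariance of `φ`.  Surjectivity: the same construction for
a cocycle `φ`. -/
def N3 : Prop := ∀ (X : Type) [MetricSpace X] (Γ Γ' : Subgroup (X ≃ᵢ X)) (D C F : Set X) (n : ℕ)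
  (hΓ : Γ' ≤ Γ) (hF : F ⊆ C), (Γ : Set (X ≃ᵢ X)).Finite → IvS Γ D → IsCompact F → IvS Γ' F → IvS Γ C →
  (∀ x ∈ C, ∃ g ∈ Γ, ∃ y ∈ F, x = g y) → (∀ g ∈ Γ, g ∉ Γ' → ∀ x ∈ F, g x ∉ F) →
  Function.Bijective (pull (fun x => x) (Adm.id' (D := D) (D' := D) hΓ hF fun _ _ hx => hx) n :
    H Γ D n C → H Γ' D n F)

end AS
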