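import Pool.Agent.Lib.AS.Hom
import Pool.Agent.Lib.AS.M1
import Pool.Agent.Lib.AS.M2
import Pool.Agent.Lib.AS.M3
import Pool.Agent.Lib.AS.M4
import Pool.Agent.Lib.AS.M5
import Pool.Agent.Lib.AS.M6
import Pool.Agent.Lib.AS.M7
import Pool.Agent.Lib.AS.M8
import Pool.Agent.Lib.AS.M9
import Pool.Agent.Lib.AS.M10

/-!
# The cohomology of spheres (trivial group)
-/

set_option autoImplicit false

namespace AS

namespace P33

open Module

theorem q2 : M2 := pM2 pM1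
theorem q3 : M3 := pM3 pM1 q2
theorem q4 : M4 := pM4 q3
theorem q5 : M5 := pM5 q3
theorem q6 : M6 := pM6 q4 q5
theorem q8 : M8 := pM8 q4 q6
theorem q9 : M9 := pM9 q4 q6
theorem q10 : M10 := pM10 q3

theorem ok_bot {X : Type} [MetricSpace X] {C : Set X} (h : IsCompact C) :
    Ok (⊥ : Subgroup (X ≃ᵢ X)) C := ⟨h, IvS.bot C, Fr.bot C⟩

section susp

variable {X : Type} [MetricSpace X] {A B I U : Set X}

theorem susp_zero (h : MVs (⊥ : Subgroup (X ≃ᵢ X)) ∅ A B I U)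
    (hA : Acy (⊥ : Subgroup (X ≃ᵢ X)) A) (hB : Acy (⊥ : Subgroup (X ≃ᵢ X)) B) (hI : I.Nonempty) :
    (∀ x : H (⊥ : Subgroup (X ≃ᵢ X)) ∅ 0 U, x = 0 ∨ x = one ⊥ U) ∧
      one (⊥ : Subgroup (X ≃ᵢ X)) U ≠ 0 := by
  have hI1 : one (⊥ : Subgroup (X ≃ᵢ X)) I ≠ 0 := (pN2 X ⊥ I).2 hI
  constructor
  · intro z
    have hz : res h.IA 0 (res h.AU 0 z) = res h.IB 0 (res h.BU 0 z) := by
      rw [res_res h.IA h.AU (h.IA.trans h.AU), res_res h.IB h.BU (h.IA.trans h.AU)]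
    rcases hA.1 (res h.AU 0 z) with h1 | h1 <;> rcases hB.1 (res h.BU 0 z) with h2 | h2
    · exact Or.inl (pM7 X ⊥ ∅ A B U h.AU h.BU h.hU z h1 h2)
    · rw [h1, h2, map_zero, res_one] at hz
      exact (hI1 hz.symm).elim
    · rw [h1, h2, map_zero, res_one] at hz
      exact (hI1 hz).elim
    · right
      rw [eq_iff_add]
      apply pM7 X ⊥ ∅ A B U h.AU h.BU h.hU
      · rw [map_add, h1, res_one, two_add]
      · rw [map_add, h2, res_one, two_add]
  · intro h0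
    apply hI1
    rw [← res_one (h.IA.trans h.AU), h0, map_zero]

theorem susp_onto (h : MVs (⊥ : Subgroup (X ≃ᵢ X)) ∅ A B I U)
    (hA : Acy (⊥ : Subgroup (X ≃ᵢ X)) A) (hB : Acy (⊥ : Subgroup (X ≃ᵢ X)) B) (n : ℕ)
    (z : H (⊥ : Subgroup (X ≃ᵢ X)) ∅ (n + 1) U) :
    ∃ u : H (⊥ : Subgroup (X ≃ᵢ X)) ∅ n I, z = del ⊥ ∅ A B I U n u :=
  (q8 X ⊥ ∅ A B I U n h).1 z (hA.2.2 n _) (hB.2.2 n _)

theorem susp_inj (h : MVs (⊥ : Subgroup (X ≃ᵢ X)) ∅ A B I U)
    (hA : Acy (⊥ : Subgroup (X ≃ᵢ X)) A) (hB : Acy (⊥ : Subgroup (X ≃ᵢ X)) B) (n : ℕ)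
    (u : H (⊥ : Subgroup (X ≃ᵢ X)) ∅ (n + 1) I) (hu : del ⊥ ∅ A B I U (n + 1) u = 0) : u = 0 := by
  obtain ⟨a, b, hab⟩ := (q9 X ⊥ ∅ A B I U (n + 1) h).1 u hu
  rw [hab, hA.2.2 n a, hB.2.2 n b, map_zero, map_zero, add_zero]

theorem susp_inj0 (h : MVs (⊥ : Subgroup (X ≃ᵢ X)) ∅ A B I U)
    (hA : Acy (⊥ : Subgroup (X ≃ᵢ X)) A) (hB : Acy (⊥ : Subgroup (X ≃ᵢ X)) B)
    (u : H (⊥ : Subgroup (X ≃ᵢ X)) ∅ 0 I) (hu : del ⊥ ∅ A B I U 0 u = 0) :
    u = 0 ∨ u = one ⊥ I := by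
  obtain ⟨a, b, hab⟩ := (q9 X ⊥ ∅ A B I U 0 h).1 u hu
  rcases hA.1 a with rfl | rfl <;> rcases hB.1 b with rfl | rfl
  · left
    rw [hab, map_zero, map_zero, add_zero]
  · right
    rw [hab, map_zero, res_one, zero_add]
  · right
    rw [hab, map_zero, res_one, add_zero]
  · left
    rw [hab, res_one, res_one, two_add]

theorem susp_one (h : MVs (⊥ : Subgroup (X ≃ᵢ X)) ∅ A B I U) :
    del ⊥ ∅ A B I U 0 (one (⊥ : Subgroup (X ≃ᵢ X)) I) = 0 := by
  rw [← res_one h.IA]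
  exact (q9 X ⊥ ∅ A B I U 0 h).2.1 _

/-- the suspension of a set with basis `1, s` in positive degree -/
theorem suspend (h : MVs (⊥ : Subgroup (X ≃ᵢ X)) ∅ A B I U)
    (hA : Acy (⊥ : Subgroup (X ≃ᵢ X)) A) (hB : Acy (⊥ : Subgroup (X ≃ᵢ X)) B) (n : ℕ)
    (s : H (⊥ : Subgroup (X ≃ᵢ X)) ∅ (n + 1) I) (hs : Bas2 ⊥ I (n + 1) s) :
    Bas2 ⊥ U (n + 2) (del ⊥ ∅ A B I U (n + 1) s) := by
  have hI : I.Nonempty := by
    by_contra hne
    exact hs.2.1 (H_empty (Set.not_nonempty_iff_eq_empty.mp hne) _)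
  obtain ⟨h0, h1⟩ := susp_zero h hA hB hI
  obtain ⟨k1, k2, k3, k4, k5⟩ := hs
  refine ⟨h0, h1, fun z => ?_, fun hd => k4 (susp_inj h hA hB n s hd), fun m hm hm' z => ?_⟩
  · obtain ⟨u, rfl⟩ := susp_onto h hA hB (n + 1) z
    rcases k3 u with rfl | rfl
    · exact Or.inl (q6 X ⊥ ∅ A B I U (n + 1) h).2.2
    · exact Or.inr rfl
  · obtain ⟨m, rfl⟩ : ∃ k, m = k + 1 := ⟨m - 1, by omega⟩
    obtain ⟨u, rfl⟩ := susp_onto h hA hB m z
    rcases Nat.eq_zero_or_pos m with rfl | hm0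
    · rcases k1 u with rfl | rfl
      · exact (q6 X ⊥ ∅ A B I U 0 h).2.2
      · exact susp_one h
    · rw [k5 m (by omega) (by omega) u]
      exact (q6 X ⊥ ∅ A B I U m h).2.2

/-- the group of degree zero of two points -/
theorem two_pts (e e' : X) (he : e ≠ e') :
    ∃ χ : H (⊥ : Subgroup (X ≃ᵢ X)) ∅ 0 ({e, e'} : Set X), χ ≠ 0 ∧ χ ≠ one ⊥ {e, e'} ∧
      ∀ z, z = 0 ∨ z = one ⊥ {e, e'} ∨ z = χ ∨ z = χ + one ⊥ {e, e'} := by
  have h : MVs (⊥ : Subgroup (X ≃ᵢ X)) ∅ {e} {e'} ∅ {e, e'} :=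
    ⟨OkD.empty _, ok_bot isCompact_singleton, ok_bot isCompact_singleton, by
      ext x
      simp only [Set.mem_empty_iff_false, Set.mem_inter_iff, Set.mem_singleton_iff, false_iff]
      rintro ⟨rfl, h⟩
      exact he h, rfl⟩
  have p1 : ∀ p : X, (∀ x : H (⊥ : Subgroup (X ≃ᵢ X)) ∅ 0 ({p} : Set X), x = 0 ∨ x = one ⊥ {p}) ∧
      one (⊥ : Subgroup (X ≃ᵢ X)) {p} ≠ 0 := fun p =>
    ⟨(pN2 X ⊥ {p}).1 isPreconnected_singleton, (pN2 X ⊥ {p}).2 (Set.singleton_nonempty p)⟩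
  obtain ⟨χ, hχ1, hχ2⟩ := q10 X ⊥ ∅ {e} {e'} ∅ {e, e'} 0 h (one ⊥ {e}) 0 (by
    rw [H_empty rfl (res h.IA 0 _), H_empty rfl (res h.IB 0 _)])
  refine ⟨χ, ?_, ?_, fun z => ?_⟩
  · rintro rfl
    rw [map_zero] at hχ1
    exact (p1 e).2 hχ1.symm
  · rintro rfl
    rw [res_one] at hχ2
    exact (p1 e').2 hχ2
  · have key : ∀ w : H (⊥ : Subgroup (X ≃ᵢ X)) ∅ 0 ({e, e'} : Set X), res h.AU 0 (z + w) = 0 →
        res h.BU 0 (z + w) = 0 → z = w := fun w h1 h2 =>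
      (eq_iff_add z w).mpr (pM7 X ⊥ ∅ {e} {e'} _ h.AU h.BU h.hU _ h1 h2)
    rcases (p1 e).1 (res h.AU 0 z) with h1 | h1 <;> rcases (p1 e').1 (res h.BU 0 z) with h2 | h2
    · left
      apply key
      · rw [add_zero, h1]
      · rw [add_zero, h2]
    · right; right; right
      apply key
      · rw [map_add, map_add, h1, hχ1, res_one, zero_add, two_add]
      · rw [map_add, map_add, h2, hχ2, res_one, zero_add, two_add]
    · right; right; left
      apply key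
      · rw [map_add, h1, hχ1, two_add]
      · rw [map_add, h2, hχ2, add_zero]
    · right; left
      apply key
      · rw [map_add, h1, res_one, two_add]
      · rw [map_add, h2, res_one, two_add]

/-- the suspension of two points -/
theorem suspend2 {e e' : X} (he : e ≠ e') (h : MVs (⊥ : Subgroup (X ≃ᵢ X)) ∅ A B {e, e'} U)
    (hA : Acy (⊥ : Subgroup (X ≃ᵢ X)) A) (hB : Acy (⊥ : Subgroup (X ≃ᵢ X)) B) :
    ∃ s, Bas2 (⊥ : Subgroup (X ≃ᵢ X)) U 1 s := by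
  obtain ⟨χ, c1, c2, c3⟩ := two_pts e e' he
  obtain ⟨h0, h1⟩ := susp_zero h hA hB ⟨e, Set.mem_insert _ _⟩
  have hd := q6 X ⊥ ∅ A B {e, e'} U 0 h
  refine ⟨del ⊥ ∅ A B {e, e'} U 0 χ, h0, h1, fun z => ?_, fun h2 => ?_, fun m hm hm' z => ?_⟩
  · obtain ⟨u, rfl⟩ := susp_onto h hA hB 0 z
    rcases c3 u with rfl | rfl | rfl | rfl
    · exact Or.inl hd.2.2
    · exact Or.inl (susp_one h)
    · exact Or.inr rfl
    · right
      rw [hd.2.1, susp_one h, add_zero]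
  · rcases susp_inj0 h hA hB χ h2 with h3 | h3
    · exact c1 h3
    · exact c2 h3
  · obtain ⟨m, rfl⟩ : ∃ k, m = k + 1 := ⟨m - 1, by omega⟩
    obtain ⟨u, rfl⟩ := susp_onto h hA hB m z
    obtain ⟨m, rfl⟩ : ∃ k, m = k + 1 := ⟨m - 1, by omega⟩
    rw [pN1 X ⊥ ∅ {e, e'} m (Set.toFinite _) u]
    exact (q6 X ⊥ ∅ A B {e, e'} U (m + 1) h).2.2

end susp

section spheres

variable {V : Type} [NormedAddCommGroup V] [InnerProductSpace ℝ V] [FiniteDimensional ℝ V]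

/-- the unit sphere of a subspace -/
def SU (U : Submodule ℝ V) : Set V := {x | x ∈ U ∧ ‖x‖ = 1}

theorem SU_compact (U : Submodule ℝ V) : IsCompact (SU U) := by
  have h : SU U = Metric.sphere (0 : V) 1 ∩ (U : Set V) := by
    ext x
    simp only [SU, Set.mem_setOf_eq, Set.mem_inter_iff, mem_sphere_iff_norm, sub_zero,
      SetLike.mem_coe]
    tauto
  rw [h]
  exact (isCompact_sphere (0 : V) 1).inter_right U.closed_of_finiteDimensional

/-- the half-sphere around `v` -/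
def hS (U : Submodule ℝ V) (v : V) : Set V := {x | x ∈ SU U ∧ 0 ≤ inner ℝ v x}

theorem hS_compact (U : Submodule ℝ V) (v : V) : IsCompact (hS U v) := by
  have h : hS U v = SU U ∩ {x | 0 ≤ inner ℝ v x} := rfl
  rw [h]
  exact (SU_compact U).inter_right (isClosed_le continuous_const
    (continuous_const.inner continuous_id))

/-- half-spheres are acyclic -/
theorem hS_acy (U : Submodule ℝ V) {v : V} (hv : v ∈ U) (hv1 : ‖v‖ = 1) :
    Acy (⊥ : Subgroup (V ≃ᵢ V)) (hS U v) := by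
  set C' : Set V := {y | y ∈ U ∧ inner ℝ v y = 0 ∧ ‖y‖ ≤ 1} with hC'
  have hvv : inner ℝ v v = (1 : ℝ) := by
    rw [real_inner_self_eq_norm_sq, hv1]
    norm_num
  have hcl : IsClosed {y : V | inner ℝ v y = (0 : ℝ)} :=
    isClosed_eq (continuous_const.inner continuous_id) continuous_const
  have hcomp : IsCompact C' := by
    have h : C' = Metric.closedBall (0 : V) 1 ∩ ((U : Set V) ∩ {y | inner ℝ v y = (0 : ℝ)}) := by
      ext x
      simp only [hC', Set.mem_setOf_eq, Set.mem_inter_iff, mem_closedBall_zero_iff,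
        SetLike.mem_coe]
      tauto
    rw [h]
    exact (isCompact_closedBall (0 : V) 1).inter_right
      (U.closed_of_finiteDimensional.inter hcl)
  have hconv : Convex ℝ C' := by
    intro x hx y hy a b ha hb hab
    refine ⟨U.add_mem (U.smul_mem a hx.1) (U.smul_mem b hy.1), ?_, ?_⟩
    · rw [inner_add_right, inner_smul_right, inner_smul_right, hx.2.1, hy.2.1]
      ring
    · calc ‖a • x + b • y‖ ≤ ‖a • x‖ + ‖b • y‖ := norm_add_le _ _
        _ = a * ‖x‖ + b * ‖y‖ := by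
          rw [norm_smul, norm_smul, Real.norm_of_nonneg ha, Real.norm_of_nonneg hb]
        _ ≤ a * 1 + b * 1 := add_le_add (mul_le_mul_of_nonneg_left hx.2.2 ha)
          (mul_le_mul_of_nonneg_left hy.2.2 hb)
        _ = 1 := by rw [← add_mul, hab, one_mul]
  have hne : C'.Nonempty := ⟨0, U.zero_mem, inner_zero_right v, by simp⟩
  have hacy : Acy (⊥ : Subgroup (V ≃ᵢ V)) C' := convex_acy hcomp hne hconv
  set f : V → V := fun x => x - (inner ℝ v x : ℝ) • v with hf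
  set g : V → V := fun y => y + Real.sqrt (1 - ‖y‖ ^ 2) • v with hg
  have hfc : Continuous f := continuous_id.sub
    ((continuous_const.inner continuous_id).smul continuous_const)
  have hgc : Continuous g := continuous_id.add
    ((Real.continuous_sqrt.comp (continuous_const.sub (continuous_norm.pow 2))).smul
      continuous_const)
  have hfn : ∀ x : V, ‖f x‖ ^ 2 = ‖x‖ ^ 2 - (inner ℝ v x : ℝ) ^ 2 := by
    intro x
    simp only [hf]
    rw [norm_sub_sq_real, norm_smul, inner_smul_right, hv1, real_inner_comm, Real.norm_eq_abs,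
      mul_one, sq_abs]
    ring
  have hfm : ∀ x ∈ hS U v, f x ∈ C' := by
    intro x hx
    refine ⟨U.sub_mem hx.1.1 (U.smul_mem _ hv), ?_, ?_⟩
    · simp only [hf]
      rw [inner_sub_right, inner_smul_right, hvv]
      ring
    · have h1 := hfn x
      rw [hx.1.2] at h1
      have h2 : ‖f x‖ ^ 2 ≤ 1 := by
        rw [h1]
        nlinarith [sq_nonneg (inner ℝ v x : ℝ)]
      nlinarith [norm_nonneg (f x)]
  have hin : ∀ y ∈ C', inner ℝ v (g y) = Real.sqrt (1 - ‖y‖ ^ 2) := by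
    intro y hy
    simp only [hg]
    rw [inner_add_right, inner_smul_right, hy.2.1, hvv]
    ring
  have hgm : ∀ y ∈ C', g y ∈ hS U v := by
    intro y hy
    have h1 : 0 ≤ 1 - ‖y‖ ^ 2 := by
      have := hy.2.2
      nlinarith [norm_nonneg y]
    refine ⟨⟨U.add_mem hy.1 (U.smul_mem _ hv), ?_⟩, ?_⟩
    · have h2 : ‖g y‖ ^ 2 = 1 := by
        simp only [hg]
        rw [norm_add_sq_real, norm_smul, inner_smul_right, real_inner_comm, hy.2.1, hv1,
          Real.norm_eq_abs, mul_one, sq_abs, Real.sq_sqrt h1]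
        ring
      have h3 : ‖g y‖ = Real.sqrt 1 := by
        rw [← h2, Real.sqrt_sq (norm_nonneg _)]
      rw [h3, Real.sqrt_one]
    · rw [hin y hy]
      exact Real.sqrt_nonneg _
  have hgf : ∀ x ∈ hS U v, g (f x) = x := by
    intro x hx
    have h1 := hfn x
    rw [hx.1.2] at h1
    simp only [hg]
    have h2 : Real.sqrt (1 - ‖f x‖ ^ 2) = inner ℝ v x := by
      rw [h1]
      have : (1 : ℝ) - (1 ^ 2 - (inner ℝ v x : ℝ) ^ 2) = (inner ℝ v x : ℝ) ^ 2 := by ring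
      rw [this, Real.sqrt_sq hx.2]
    rw [h2]
    simp only [hf]
    abel
  have hfg : ∀ y ∈ C', f (g y) = y := by
    intro y hy
    simp only [hf]
    rw [hin y hy]
    simp only [hg]
    abel
  exact Acy.of_pull _ (pull_bij_cont (hS_compact U v) hcomp hfc.continuousOn hgc.continuousOn hfm
    hgm hgf hfg) hacy

theorem exists_unit (U : Submodule ℝ V) (h : 0 < finrank ℝ U) : ∃ v ∈ U, ‖v‖ = 1 := by
  haveI : Nontrivial U := finrank_pos_iff.mp h
  obtain ⟨x, hx⟩ := exists_ne (0 : U)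
  have hx' : (x : V) ≠ 0 := fun h => hx (Subtype.ext h)
  refine ⟨(‖(x : V)‖⁻¹ : ℝ) • (x : V), U.smul_mem _ x.2, ?_⟩
  rw [norm_smul, norm_inv, norm_norm, inv_mul_cancel₀ (norm_ne_zero_iff.mpr hx')]

/-- the Mayer-Vietoris configuration of the two half-spheres -/
theorem hS_mvs (U : Submodule ℝ V) (v : V) :
    MVs (⊥ : Subgroup (V ≃ᵢ V)) ∅ (hS U v) (hS U (-v)) (SU ((ℝ ∙ v)ᗮ ⊓ U)) (SU U) := by
  refine ⟨OkD.empty _, ok_bot (hS_compact U v), ok_bot (hS_compact U (-v)), ?_, ?_⟩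
  · ext x
    simp only [hS, SU, Set.mem_setOf_eq, Set.mem_inter_iff, Submodule.mem_inf,
      Submodule.mem_orthogonal_singleton_iff_inner_right, inner_neg_left]
    constructor
    · rintro ⟨⟨h1, h2⟩, h3⟩
      exact ⟨⟨⟨h2, h3⟩, h1.ge⟩, ⟨h2, h3⟩, by rw [h1, neg_zero]⟩
    · rintro ⟨⟨⟨h2, h3⟩, h4⟩, _, h5⟩
      exact ⟨⟨by linarith, h2⟩, h3⟩
  · ext x
    simp only [hS, SU, Set.mem_setOf_eq, Set.mem_union, inner_neg_left]
    constructor
    · rintro ⟨h1, h2⟩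
      rcases le_total 0 (inner ℝ v x : ℝ) with h3 | h3
      · exact Or.inl ⟨⟨h1, h2⟩, h3⟩
      · exact Or.inr ⟨⟨h1, h2⟩, by linarith⟩
    · rintro (h | h)
      · exact h.1
      · exact h.1

theorem finrank_inf (U : Submodule ℝ V) {v : V} (hv : v ∈ U) (hv1 : ‖v‖ = 1) {n : ℕ}
    (h : finrank ℝ U = n + 1) : finrank ℝ ((ℝ ∙ v)ᗮ ⊓ U : Submodule ℝ V) = n := by
  have h1 : (ℝ ∙ v) ≤ U := by
    rw [Submodule.span_singleton_le_iff_mem]
    exact hv
  have h2 := Submodule.finrank_add_inf_finrank_orthogonal h1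
  have h3 : finrank ℝ (ℝ ∙ v) = 1 := finrank_span_singleton (by
    rintro rfl
    simp at hv1)
  omega

theorem SU_line (U : Submodule ℝ V) (h : finrank ℝ U = 1) :
    ∃ e : V, e ≠ -e ∧ SU U = {e, -e} := by
  obtain ⟨v, hv, hv1⟩ := exists_unit U (by omega)
  have hv0 : v ≠ 0 := by
    rintro rfl
    simp at hv1
  refine ⟨v, ?_, ?_⟩
  · intro h1
    have h2 : (2 : ℝ) • v = 0 := by
      rw [two_smul]
      nth_rewrite 2 [h1]
      exact add_neg_cancel v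
    rcases smul_eq_zero.mp h2 with h3 | h3
    · norm_num at h3
    · exact hv0 h3
  · ext x
    simp only [SU, Set.mem_setOf_eq, Set.mem_insert_iff, Set.mem_singleton_iff]
    constructor
    · rintro ⟨hx, hx1⟩
      have h1 : ∀ w : U, ∃ c : ℝ, c • (⟨v, hv⟩ : U) = w :=
        (finrank_eq_one_iff_of_nonzero' (⟨v, hv⟩ : U) (fun h => hv0 (congrArg Subtype.val h))).mp h
      obtain ⟨c, hc⟩ := h1 ⟨x, hx⟩
      have hc' : c • v = x := congrArg Subtype.val hc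
      rw [← hc', norm_smul, hv1, mul_one, Real.norm_eq_abs] at hx1
      rcases abs_eq (zero_le_one) |>.mp hx1 with h2 | h2
      · left
        rw [← hc', h2, one_smul]
      · right
        rw [← hc', h2, neg_smul, one_smul]
    · rintro (rfl | rfl)
      · exact ⟨hv, hv1⟩
      · exact ⟨U.neg_mem hv, by rw [norm_neg, hv1]⟩

/-- the cohomology of the unit sphere of a subspace of dimension `n + 2` -/
theorem sph_sub (n : ℕ) : ∀ U : Submodule ℝ V, finrank ℝ U = n + 2 →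
    ∃ s, Bas2 (⊥ : Subgroup (V ≃ᵢ V)) (SU U) (n + 1) s := by
  induction n with
  | zero =>
    intro U hU
    obtain ⟨v, hv, hv1⟩ := exists_unit U (by omega)
    have h1 := hS_mvs U v
    obtain ⟨e, he, he'⟩ := SU_line ((ℝ ∙ v)ᗮ ⊓ U) (finrank_inf U hv hv1 hU)
    rw [he'] at h1
    exact suspend2 he h1 (hS_acy U hv hv1) (hS_acy U (U.neg_mem hv) (by rw [norm_neg, hv1]))
  | succ n ih =>
    intro U hU
    obtain ⟨v, hv, hv1⟩ := exists_unit U (by omega)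
    have h1 := hS_mvs U v
    obtain ⟨s, hs⟩ := ih ((ℝ ∙ v)ᗮ ⊓ U) (finrank_inf U hv hv1 hU)
    exact ⟨_, suspend h1 (hS_acy U hv hv1) (hS_acy U (U.neg_mem hv) (by rw [norm_neg, hv1])) n s hs⟩

/-- **the cohomology of spheres** -/
theorem sph_bas (n : ℕ) (h : finrank ℝ V = n + 2) :
    ∃ s, Bas2 (⊥ : Subgroup (V ≃ᵢ V)) (Metric.sphere (0 : V) 1) (n + 1) s := by
  have h1 : Metric.sphere (0 : V) 1 = SU (⊤ : Submodule ℝ V) := by
    ext x
    simp [SU]
  rw [h1]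
  exact sph_sub n ⊤ (by rw [finrank_top]; exact h)

end spheres

end P33

end AS
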