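import Pool.Agent.Lib.AS.SpecLG
import Pool.Agent.Lib.AS.N1
import Pool.Agent.Lib.AS.N2

/-!
# Close maps; star-shaped compact sets are acyclic
-/

set_option autoImplicit false

namespace AS

namespace P33

variable {X Y : Type} [MetricSpace X] [MetricSpace Y]

theorem pp_zero (f g : X → Y) (l : List X) : pp f g (0 : List Y → ZMod 2) l = 0 := by
  induction l with
  | nil => rfl
  | cons x l ih =>
    rw [pp_cons]
    have h : (fun m : List Y => (0 : List Y → ZMod 2) (f x :: m)) = 0 := rfl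
    rw [h, ih]
    rfl

theorem Z0.inter_empty (n : ℕ) (C : Set X) {φ : List X → ZMod 2} (h : φ [] = 0) :
    Z0 n (C ∩ ∅) φ := by
  rcases n with _ | n
  · exact Z0.nil.mpr h
  · exact Z0.empty n (Set.inter_empty C) _

/-- two maps which are close enough have the same pullback of a given class -/
theorem pull_close {C' : Set Y} {n : ℕ} (z : H (⊥ : Subgroup (Y ≃ᵢ Y)) ∅ n C') :
    ∃ ε > 0, ∀ (C : Set X) (f g : X → Y) (hf : Adm (⊥ : Subgroup (X ≃ᵢ X)) ∅ C ⊥ ∅ C' f)
      (hg : Adm (⊥ : Subgroup (X ≃ᵢ X)) ∅ C ⊥ ∅ C' g), (∀ x ∈ C, dist (f x) (g x) < ε) →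
      pull f hf n z = pull g hg n z := by
  obtain ⟨φ, hφ, rfl⟩ := cl_surj z
  obtain ⟨h1, h2, ε, hε, h3⟩ := hφ
  refine ⟨ε / 3, by positivity, fun C f g hf hg hd => ?_⟩
  rw [pull_cl, pull_cl, cl_eq_cl]
  obtain ⟨δ, hδ, hfu⟩ := hf.uc (ε / 3) (by positivity)
  obtain ⟨δ', hδ', hgu⟩ := hg.uc (ε / 3) (by positivity)
  refine ⟨(hf.iv h1).add (hg.iv h1), pp f g φ, ?_, Z0.inter_empty n C rfl, rfl,
    min δ δ', lt_min hδ hδ', fun l hl hs => ?_⟩
  · intro a ha l
    rw [Subgroup.mem_bot.mp ha]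
    have : l.map (1 : X ≃ᵢ X) = l := by
      conv_rhs => rw [← List.map_id l]
      rfl
    rw [this]
  · have hp := prism f g φ l
    have h4 : pp f g (dd φ) l = 0 := by
      rw [← pp_zero f g l]
      refine pp_congr f g fun m hm hy => ?_
      refine h3 m (by rw [hm, hl]) ⟨?_, ?_⟩
      · intro y hy'
        obtain ⟨x, hx, rfl | rfl⟩ := hy y hy'
        · exact hf.maps x (hs.1 x hx)
        · exact hg.maps x (hs.1 x hx)
      · have key : ∀ x ∈ l, ∀ x' ∈ l, dist (f x) (f x') < ε / 3 ∧ dist (g x) (g x') < ε / 3 ∧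
            dist (f x) (g x) < ε / 3 ∧ dist (f x') (g x') < ε / 3 := by
          intro x hx x' hx'
          exact ⟨hfu x (hs.1 x hx) x' (hs.1 x' hx') ((hs.2 x hx x' hx').trans_le (min_le_left _ _)),
            hgu x (hs.1 x hx) x' (hs.1 x' hx') ((hs.2 x hx x' hx').trans_le (min_le_right _ _)),
            hd x (hs.1 x hx), hd x' (hs.1 x' hx')⟩
        intro y hy1 y' hy2
        obtain ⟨x, hx, hxy⟩ := hy y hy1
        obtain ⟨x', hx', hxy'⟩ := hy y' hy2
        obtain ⟨k1, k2, k3, k4⟩ := key x hx x' hx'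
        rcases hxy with rfl | rfl <;> rcases hxy' with rfl | rfl
        · linarith
        · linarith [dist_triangle (f x) (f x') (g x')]
        · have := dist_triangle (g x) (f x) (f x')
          rw [dist_comm (g x) (f x)] at this
          linarith
        · linarith
    rw [h4, add_zero] at hp
    rw [Pi.add_apply, Pi.add_apply, hp, z2_add_self]

/-- the restriction to a point factors every constant map -/
theorem pull_const {C : Set X} {C' : Set Y} {n : ℕ} (q : Y) (hq : q ∈ C')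
    (h : Adm (⊥ : Subgroup (X ≃ᵢ X)) ∅ C ⊥ ∅ C' fun _ => q)
    (z : H (⊥ : Subgroup (Y ≃ᵢ Y)) ∅ (n + 1) C') : pull (fun _ => q) h (n + 1) z = 0 := by
  have h1 : Adm (⊥ : Subgroup (X ≃ᵢ X)) ∅ C ⊥ ∅ ({q} : Set Y) fun _ => q :=
    ⟨fun _ _ => rfl, fun _ _ hx => hx.elim, h.uc, h.eqv⟩
  have h2 : ({q} : Set Y) ⊆ C' := Set.singleton_subset_iff.mpr hq
  have h3 := pull_pull (f := fun _ : X => q) (g := fun y : Y => y)
    (Adm.id' (D := ∅) (D' := ∅) le_rfl h2 fun _ _ hx => hx) h1 z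
  have h4 : pull (fun y : Y => y) (Adm.id' (D := ∅) (D' := ∅) le_rfl h2 fun _ _ hx => hx) (n + 1) z
      = 0 := pN1 Y ⊥ ∅ {q} n (Set.finite_singleton q) _
  rw [h4, map_zero] at h3
  exact h3.symm

theorem adm_bot {C : Set X} {C' : Set Y} {f : X → Y} (hm : ∀ x ∈ C, f x ∈ C')
    (hu : ∀ ε > 0, ∃ δ > 0, ∀ x ∈ C, ∀ y ∈ C, dist x y < δ → dist (f x) (f y) < ε) :
    Adm (⊥ : Subgroup (X ≃ᵢ X)) ∅ C (⊥ : Subgroup (Y ≃ᵢ Y)) ∅ C' f :=
  ⟨hm, fun _ _ hx => hx.elim, hu, fun g hg => ⟨1, Subgroup.one_mem _, fun x => by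
    rw [Subgroup.mem_bot.mp hg]
    rfl⟩⟩

/-- a continuous map on a compact set is admissible -/
theorem adm_of_cont {C : Set X} {C' : Set Y} {f : X → Y} (hC : IsCompact C)
    (hf : ContinuousOn f C) (hm : ∀ x ∈ C, f x ∈ C') :
    Adm (⊥ : Subgroup (X ≃ᵢ X)) ∅ C (⊥ : Subgroup (Y ≃ᵢ Y)) ∅ C' f := by
  refine adm_bot hm ?_
  have h1 := hC.uniformContinuousOn_of_continuous hf
  rw [Metric.uniformContinuousOn_iff] at h1
  intro ε hε
  obtain ⟨δ, hδ, h2⟩ := h1 ε hε
  exact ⟨δ, hδ, fun x hx y hy => h2 x hx y hy⟩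

section star

variable {E : Type} [NormedAddCommGroup E] [NormedSpace ℝ E]

/-- compact star-shaped sets have no cohomology in positive degrees -/
theorem star_zero {C : Set E} {p : E} (hC : IsCompact C) (hp : p ∈ C) (hs : StarConvex ℝ p C)
    (n : ℕ) (z : H (⊥ : Subgroup (E ≃ᵢ E)) ∅ (n + 1) C) : z = 0 := by
  obtain ⟨ε, hε, h1⟩ := pull_close (X := E) z
  obtain ⟨R, hR⟩ : ∃ R : ℝ, ∀ x ∈ C, ‖x - p‖ ≤ R := by
    obtain ⟨R, hR⟩ := hC.isBounded.subset_closedBall p
    exact ⟨R, fun x hx => by rw [← dist_eq_norm]; exact hR hx⟩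
  obtain ⟨N, hN⟩ := exists_nat_gt ((R + 1) / ε)
  have hR0 : 0 ≤ R := (norm_nonneg _).trans (hR p hp)
  have hN0 : (0 : ℝ) < N := lt_of_le_of_lt (by positivity) hN
  set h : ℕ → E → E := fun j x => p + (1 - (j : ℝ) / N) • (x - p) with hh
  have hmem : ∀ j ≤ N, ∀ x ∈ C, h j x ∈ C := by
    intro j hj x hx
    have hj' : (j : ℝ) / N ≤ 1 := by
      rw [div_le_one hN0]
      exact_mod_cast hj
    have h2 := hs hx (a := (j : ℝ) / N) (b := 1 - (j : ℝ) / N) (by positivity) (by linarith)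
      (by ring)
    have h3 : h j x = ((j : ℝ) / N) • p + (1 - (j : ℝ) / N) • x := by
      simp only [hh]
      module
    rw [h3]
    exact h2
  have hadm : ∀ j, j ≤ N → Adm (⊥ : Subgroup (E ≃ᵢ E)) ∅ C (⊥ : Subgroup (E ≃ᵢ E)) ∅ C (h j) := by
    intro j hj
    refine adm_of_cont hC ?_ (hmem j hj)
    exact (continuous_const.add (continuous_const.smul (continuous_id.sub
      continuous_const))).continuousOn
  have hstep : ∀ j (hj : j ≤ N), pull (h j) (hadm j hj) (n + 1) z = z := by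
    intro j
    induction j with
    | zero =>
      intro hj
      have h2 : Adm (⊥ : Subgroup (E ≃ᵢ E)) ∅ C (⊥ : Subgroup (E ≃ᵢ E)) ∅ C (fun x => x) :=
        Adm.id' le_rfl (Set.Subset.refl C) fun _ _ hx => hx
      have h3 : pull (h 0) (hadm 0 hj) (n + 1) z = pull (fun x => x) h2 (n + 1) z := by
        refine pull_congr _ _ (fun x _ => ?_) z
        simp [hh]
      rw [h3]
      exact res_self (Set.Subset.refl C) z
    | succ j ih =>
      intro hj
      rw [← h1 C (h j) (h (j + 1)) (hadm j (by omega)) (hadm (j + 1) hj) ?_, ih (by omega)]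
      intro x hx
      rw [dist_eq_norm]
      have h4 : h j x - h (j + 1) x = (1 / (N : ℝ)) • (x - p) := by
        simp only [hh]
        push_cast
        have : (1 - (j : ℝ) / N) = (1 - ((j : ℝ) + 1) / N) + 1 / N := by
          field_simp
          ring
        rw [this, add_smul]
        module
      rw [h4, norm_smul, Real.norm_of_nonneg (by positivity)]
      have h5 : 1 / (N : ℝ) * ‖x - p‖ ≤ 1 / (N : ℝ) * R :=
        mul_le_mul_of_nonneg_left (hR x hx) (by positivity)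
      have h6 : 1 / (N : ℝ) * R < ε := by
        rw [div_lt_iff₀ hε] at hN
        rw [one_div, inv_mul_lt_iff₀ hN0]
        linarith
      linarith
  have hend := hstep N le_rfl
  rw [← hend]
  have h2 : Adm (⊥ : Subgroup (E ≃ᵢ E)) ∅ C (⊥ : Subgroup (E ≃ᵢ E)) ∅ C (fun _ => p) :=
    adm_of_cont hC continuousOn_const fun _ _ => hp
  have h3 : pull (h N) (hadm N le_rfl) (n + 1) z = pull (fun _ => p) h2 (n + 1) z := by
    refine pull_congr _ _ (fun x _ => ?_) z
    simp only [hh]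
    rw [div_self hN0.ne']
    simp
  rw [h3]
  exact pull_const p hp h2 z

/-- compact star-shaped sets are acyclic -/
theorem star_acy {C : Set E} {p : E} (hC : IsCompact C) (hp : p ∈ C) (hs : StarConvex ℝ p C) :
    Acy (⊥ : Subgroup (E ≃ᵢ E)) C := by
  have hne : C.Nonempty := ⟨p, hp⟩
  have hpc : IsPreconnected C := (hs.isPathConnected hp).isConnected.isPreconnected
  exact ⟨(pN2 E ⊥ C).1 hpc, (pN2 E ⊥ C).2 hne, fun n x => star_zero hC hp hs n x⟩

/-- nonempty compact convex sets are acyclic -/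
theorem convex_acy {C : Set E} (hC : IsCompact C) (hne : C.Nonempty) (hc : Convex ℝ C) :
    Acy (⊥ : Subgroup (E ≃ᵢ E)) C := by
  obtain ⟨p, hp⟩ := hne
  exact star_acy hC hp (hc.starConvex hp)

end star

end P33

end AS
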