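import Pool.Agent.Lib.AS.SpecCup

/-!
# Abstract cohomology theories on compact sets

`CTh Γ S`: contravariant theories on the compact `Γ`-invariant subsets of `S` with a Mayer-Vietoris
sequence and continuity.  `CMor h k`: natural maps which commute with the connecting maps.
-/

set_option autoImplicit false

namespace AS

variable {B : Type} [MetricSpace B]

/-- admissible sets: compact, invariant, contained in `S` -/
structure Ad (Γ : Subgroup (B ≃ᵢ B)) (S C : Set B) : Prop where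
  cpt : IsCompact C
  inv : IvS Γ C
  sub : C ⊆ S

theorem Ad.inter {Γ : Subgroup (B ≃ᵢ B)} {S A A' : Set B} (h : Ad Γ S A) (h' : Ad Γ S A') :
    Ad Γ S (A ∩ A') :=
  ⟨h.cpt.inter h'.cpt, h.inv.inter h'.inv, Set.inter_subset_left.trans h.sub⟩

theorem Ad.union {Γ : Subgroup (B ≃ᵢ B)} {S A A' : Set B} (h : Ad Γ S A) (h' : Ad Γ S A') :
    Ad Γ S (A ∪ A') :=
  ⟨h.cpt.union h'.cpt, h.inv.union h'.inv, Set.union_subset h.sub h'.sub⟩

theorem Ad.empty (Γ : Subgroup (B ≃ᵢ B)) (S : Set B) : Ad Γ S ∅ :=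
  ⟨isCompact_empty, IvS.empty Γ, Set.empty_subset S⟩

/-- Mayer-Vietoris configurations -/
structure Cf (Γ : Subgroup (B ≃ᵢ B)) (S A A' I U : Set B) : Prop where
  adA : Ad Γ S A
  adA' : Ad Γ S A'
  hI : I = A ∩ A'
  hU : U = A ∪ A'

theorem Cf.IA {Γ : Subgroup (B ≃ᵢ B)} {S A A' I U : Set B} (h : Cf Γ S A A' I U) : I ⊆ A :=
  h.hI ▸ Set.inter_subset_left

theorem Cf.IA' {Γ : Subgroup (B ≃ᵢ B)} {S A A' I U : Set B} (h : Cf Γ S A A' I U) : I ⊆ A' :=
  h.hI ▸ Set.inter_subset_right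

theorem Cf.AU {Γ : Subgroup (B ≃ᵢ B)} {S A A' I U : Set B} (h : Cf Γ S A A' I U) : A ⊆ U :=
  h.hU ▸ Set.subset_union_left

theorem Cf.A'U {Γ : Subgroup (B ≃ᵢ B)} {S A A' I U : Set B} (h : Cf Γ S A A' I U) : A' ⊆ U :=
  h.hU ▸ Set.subset_union_right

theorem Cf.adI {Γ : Subgroup (B ≃ᵢ B)} {S A A' I U : Set B} (h : Cf Γ S A A' I U) : Ad Γ S I :=
  h.hI ▸ h.adA.inter h.adA'

theorem Cf.adU {Γ : Subgroup (B ≃ᵢ B)} {S A A' I U : Set B} (h : Cf Γ S A A' I U) : Ad Γ S U :=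
  h.hU ▸ h.adA.union h.adA'

/-- a cohomology theory on the admissible subsets of `S` -/
structure CTh (Γ : Subgroup (B ≃ᵢ B)) (S : Set B) where
  h : ℕ → Set B → Type
  grp : ∀ n C, AddCommGroup (h n C)
  res : ∀ {C C' : Set B}, C ⊆ C' → ∀ n, h n C' → h n C
  del : ∀ (_ _ I U : Set B) (n : ℕ), h n I → h (n + 1) U
  res_add : ∀ {C C' : Set B} (hC : C ⊆ C') (n : ℕ) (x y : h n C'),
    res hC n (x + y) = res hC n x + res hC n y
  res_self : ∀ {C : Set B} (hC : C ⊆ C) (n : ℕ) (x : h n C), res hC n x = x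
  res_res : ∀ {C C' C'' : Set B} (h1 : C ⊆ C') (h2 : C' ⊆ C'') (h3 : C ⊆ C'') (n : ℕ)
    (x : h n C''), res h1 n (res h2 n x) = res h3 n x
  del_add : ∀ {A A' I U : Set B}, Cf Γ S A A' I U → ∀ (n : ℕ) (x y : h n I),
    del A A' I U n (x + y) = del A A' I U n x + del A A' I U n y
  del_res : ∀ {A A' I U E E' J V : Set B}, Cf Γ S A A' I U → Cf Γ S E E' J V → E ⊆ A → E' ⊆ A' →
    ∀ (hJ : J ⊆ I) (hV : V ⊆ U) (n : ℕ) (x : h n I),
    res hV (n + 1) (del A A' I U n x) = del E E' J V n (res hJ n x)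
  empty : ∀ (n : ℕ) (x : h n ∅), x = 0
  ex0 : ∀ {A A' I U : Set B} (c : Cf Γ S A A' I U) (z : h 0 U), res c.AU 0 z = 0 →
    res c.A'U 0 z = 0 → z = 0
  ex1 : ∀ {A A' I U : Set B} (c : Cf Γ S A A' I U) (n : ℕ) (z : h (n + 1) U),
    res c.AU (n + 1) z = 0 → res c.A'U (n + 1) z = 0 → ∃ u : h n I, z = del A A' I U n u
  ex1' : ∀ {A A' I U : Set B} (c : Cf Γ S A A' I U) (n : ℕ) (u : h n I),
    res c.AU (n + 1) (del A A' I U n u) = 0 ∧ res c.A'U (n + 1) (del A A' I U n u) = 0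
  ex2 : ∀ {A A' I U : Set B} (c : Cf Γ S A A' I U) (n : ℕ) (u : h n I), del A A' I U n u = 0 →
    ∃ (a : h n A) (b : h n A'), u = res c.IA n a + res c.IA' n b
  ex2' : ∀ {A A' I U : Set B} (c : Cf Γ S A A' I U) (n : ℕ) (a : h n A) (b : h n A'),
    del A A' I U n (res c.IA n a + res c.IA' n b) = 0
  ex3 : ∀ {A A' I U : Set B} (c : Cf Γ S A A' I U) (n : ℕ) (a : h n A) (b : h n A'),
    res c.IA n a = res c.IA' n b → ∃ z : h n U, res c.AU n z = a ∧ res c.A'U n z = b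
  c1 : ∀ {A C : Set B} (hAC : A ⊆ C), Ad Γ S A → Ad Γ S C → ∀ (n : ℕ) (x : h n C),
    res hAC n x = 0 → ∃ ρ > 0, ∀ (N : Set B) (hN : N ⊆ C), Ad Γ S N →
      (∀ y ∈ N, ∃ b ∈ A, dist y b < ρ) → res hN n x = 0
  c2 : ∀ {A C : Set B}, A ⊆ C → Ad Γ S A → Ad Γ S C → ∀ (n : ℕ) (y : h n A),
    ∃ ρ > 0, ∀ (N : Set B) (hAN : A ⊆ N), N ⊆ C → Ad Γ S N →
      (∀ z ∈ N, ∃ b ∈ A, dist z b < ρ) → ∃ x : h n N, res hAN n x = y

attribute [instance] CTh.grp

section basics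

variable {Γ : Subgroup (B ≃ᵢ B)} {S : Set B} (h : CTh Γ S)

/-- restriction as a homomorphism -/
def CTh.resHom {C C' : Set B} (hC : C ⊆ C') (n : ℕ) : h.h n C' →+ h.h n C :=
  AddMonoidHom.mk' (h.res hC n) (h.res_add hC n)

theorem CTh.res_zero {C C' : Set B} (hC : C ⊆ C') (n : ℕ) : h.res hC n (0 : h.h n C') = 0 :=
  (h.resHom hC n).map_zero

theorem CTh.res_neg {C C' : Set B} (hC : C ⊆ C') (n : ℕ) (x : h.h n C') :
    h.res hC n (-x) = -h.res hC n x :=
  (h.resHom hC n).map_neg x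

theorem CTh.res_sub {C C' : Set B} (hC : C ⊆ C') (n : ℕ) (x y : h.h n C') :
    h.res hC n (x - y) = h.res hC n x - h.res hC n y :=
  (h.resHom hC n).map_sub x y

theorem CTh.del_zero {A A' I U : Set B} (c : Cf Γ S A A' I U) (n : ℕ) :
    h.del A A' I U n (0 : h.h n I) = 0 :=
  (AddMonoidHom.mk' (h.del A A' I U n) (h.del_add c n)).map_zero

theorem CTh.del_sub {A A' I U : Set B} (c : Cf Γ S A A' I U) (n : ℕ) (x y : h.h n I) :
    h.del A A' I U n (x - y) = h.del A A' I U n x - h.del A A' I U n y :=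
  (AddMonoidHom.mk' (h.del A A' I U n) (h.del_add c n)).map_sub x y

end basics

/-- morphisms of theories -/
structure CMor {Γ : Subgroup (B ≃ᵢ B)} {S : Set B} (h k : CTh Γ S) where
  T : ∀ (n : ℕ) (C : Set B), h.h n C → k.h n C
  add : ∀ {C : Set B}, Ad Γ S C → ∀ (n : ℕ) (x y : h.h n C), T n C (x + y) = T n C x + T n C y
  nat : ∀ {C C' : Set B}, Ad Γ S C → Ad Γ S C' → ∀ (hC : C ⊆ C') (n : ℕ) (x : h.h n C'),
    k.res hC n (T n C' x) = T n C (h.res hC n x)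
  del : ∀ {A A' I U : Set B}, Cf Γ S A A' I U → ∀ (n : ℕ) (u : h.h n I),
    k.del A A' I U n (T n I u) = T (n + 1) U (h.del A A' I U n u)

section mor

variable {Γ : Subgroup (B ≃ᵢ B)} {S : Set B} {h k l : CTh Γ S}

/-- a morphism as a homomorphism -/
def CMor.hom (f : CMor h k) {C : Set B} (hC : Ad Γ S C) (n : ℕ) : h.h n C →+ k.h n C :=
  AddMonoidHom.mk' (f.T n C) (f.add hC n)

theorem CMor.zero (f : CMor h k) {C : Set B} (hC : Ad Γ S C) (n : ℕ) : f.T n C 0 = 0 :=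
  (f.hom hC n).map_zero

theorem CMor.sub (f : CMor h k) {C : Set B} (hC : Ad Γ S C) (n : ℕ) (x y : h.h n C) :
    f.T n C (x - y) = f.T n C x - f.T n C y :=
  (f.hom hC n).map_sub x y

/-- composition of morphisms -/
def CMor.comp (g : CMor k l) (f : CMor h k) : CMor h l where
  T n C x := g.T n C (f.T n C x)
  add hC n x y := by rw [f.add hC, g.add hC]
  nat hC hC' hs n x := by rw [g.nat hC hC', f.nat hC hC']
  del c n u := by rw [g.del c, f.del c]

/-- sum of morphisms -/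
def CMor.plus (f g : CMor h k) : CMor h k where
  T n C x := f.T n C x + g.T n C x
  add hC n x y := by
    rw [f.add hC, g.add hC]
    abel
  nat hC hC' hs n x := by rw [k.res_add, f.nat hC hC', g.nat hC hC']
  del c n u := by rw [k.del_add c, f.del c, g.del c]

/-- the product of two theories -/
def CTh.prod (h k : CTh Γ S) : CTh Γ S where
  h n C := h.h n C × k.h n C
  grp n C := inferInstance
  res hC n x := (h.res hC n x.1, k.res hC n x.2)
  del A A' I U n x := (h.del A A' I U n x.1, k.del A A' I U n x.2)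
  res_add hC n x y := Prod.ext (h.res_add hC n x.1 y.1) (k.res_add hC n x.2 y.2)
  res_self hC n x := Prod.ext (h.res_self hC n x.1) (k.res_self hC n x.2)
  res_res h1 h2 h3 n x := Prod.ext (h.res_res h1 h2 h3 n x.1) (k.res_res h1 h2 h3 n x.2)
  del_add c n x y := Prod.ext (h.del_add c n x.1 y.1) (k.del_add c n x.2 y.2)
  del_res c c' hE hE' hJ hV n x :=
    Prod.ext (h.del_res c c' hE hE' hJ hV n x.1) (k.del_res c c' hE hE' hJ hV n x.2)
  empty n x := Prod.ext (h.empty n x.1) (k.empty n x.2)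
  ex0 c z h1 h2 := Prod.ext (h.ex0 c z.1 (congrArg Prod.fst h1) (congrArg Prod.fst h2))
    (k.ex0 c z.2 (congrArg Prod.snd h1) (congrArg Prod.snd h2))
  ex1 c n z h1 h2 := by
    obtain ⟨u, hu⟩ := h.ex1 c n z.1 (congrArg Prod.fst h1) (congrArg Prod.fst h2)
    obtain ⟨v, hv⟩ := k.ex1 c n z.2 (congrArg Prod.snd h1) (congrArg Prod.snd h2)
    exact ⟨(u, v), Prod.ext hu hv⟩
  ex1' c n u := ⟨Prod.ext (h.ex1' c n u.1).1 (k.ex1' c n u.2).1,
    Prod.ext (h.ex1' c n u.1).2 (k.ex1' c n u.2).2⟩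
  ex2 c n u hu := by
    obtain ⟨a, b, hab⟩ := h.ex2 c n u.1 (congrArg Prod.fst hu)
    obtain ⟨a', b', hab'⟩ := k.ex2 c n u.2 (congrArg Prod.snd hu)
    exact ⟨(a, a'), (b, b'), Prod.ext hab hab'⟩
  ex2' c n a b := Prod.ext (h.ex2' c n a.1 b.1) (k.ex2' c n a.2 b.2)
  ex3 c n a b hab := by
    obtain ⟨z, h1, h2⟩ := h.ex3 c n a.1 b.1 (congrArg Prod.fst hab)
    obtain ⟨z', h1', h2'⟩ := k.ex3 c n a.2 b.2 (congrArg Prod.snd hab)
    exact ⟨(z, z'), Prod.ext h1 h1', Prod.ext h2 h2'⟩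
  c1 hAC hA hC n x hx := by
    obtain ⟨ρ, hρ, h1⟩ := h.c1 hAC hA hC n x.1 (congrArg Prod.fst hx)
    obtain ⟨ρ', hρ', h1'⟩ := k.c1 hAC hA hC n x.2 (congrArg Prod.snd hx)
    refine ⟨min ρ ρ', lt_min hρ hρ', fun N hN hAd hd => Prod.ext ?_ ?_⟩
    · exact h1 N hN hAd fun y hy => (hd y hy).imp fun b hb =>
        ⟨hb.1, hb.2.trans_le (min_le_left _ _)⟩
    · exact h1' N hN hAd fun y hy => (hd y hy).imp fun b hb =>
        ⟨hb.1, hb.2.trans_le (min_le_right _ _)⟩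
  c2 hAC hA hC n y := by
    obtain ⟨ρ, hρ, h1⟩ := h.c2 hAC hA hC n y.1
    obtain ⟨ρ', hρ', h1'⟩ := k.c2 hAC hA hC n y.2
    refine ⟨min ρ ρ', lt_min hρ hρ', fun N hAN hN hAd hd => ?_⟩
    obtain ⟨x, hx⟩ := h1 N hAN hN hAd fun y hy => (hd y hy).imp fun b hb =>
        ⟨hb.1, hb.2.trans_le (min_le_left _ _)⟩
    obtain ⟨x', hx'⟩ := h1' N hAN hN hAd fun y hy => (hd y hy).imp fun b hb =>
        ⟨hb.1, hb.2.trans_le (min_le_right _ _)⟩
    exact ⟨(x, x'), Prod.ext hx hx'⟩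

/-- the morphism from a product -/
def CMor.fromProd (f : CMor h l) (g : CMor k l) : CMor (h.prod k) l where
  T n C x := f.T n C x.1 + g.T n C x.2
  add hC n x y := by
    change f.T n _ (x.1 + y.1) + g.T n _ (x.2 + y.2) = _
    rw [f.add hC, g.add hC]
    abel
  nat hC hC' hs n x := by
    rw [l.res_add, f.nat hC hC', g.nat hC hC']
    rfl
  del c n u := by
    rw [l.del_add c, f.del c, g.del c]
    rfl

end mor

section shift

variable {Γ : Subgroup (B ≃ᵢ B)} {S : Set B}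

/-- the theory shifted by `d`: the classes of degree `n` are the classes of degree `m` of `h` for the
`m` with `m + d = n` (functions on the set of these `m`, which has at most one element) -/
def CTh.shift (h : CTh Γ S) (d : ℕ) : CTh Γ S where
  h n C := ∀ m : {m : ℕ // m + d = n}, h.h m.1 C
  grp n C := inferInstance
  res hC n x := fun m => h.res hC m.1 (x m)
  del A A' I U n x := fun m => match m with
    | ⟨0, _⟩ => 0
    | ⟨m + 1, hm⟩ => h.del A A' I U m (x ⟨m, by omega⟩)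
  res_add hC n x y := by
    funext m
    exact h.res_add hC m.1 _ _
  res_self hC n x := by
    funext m
    exact h.res_self hC m.1 _
  res_res h1 h2 h3 n x := by
    funext m
    exact h.res_res h1 h2 h3 m.1 _
  del_add c n x y := by
    funext m
    rcases m with ⟨_ | m, hm⟩
    · exact (add_zero (0 : h.h 0 _)).symm
    · exact h.del_add c m _ _
  del_res c c' hE hE' hJ hV n x := by
    funext m
    rcases m with ⟨_ | m, hm⟩
    · exact h.res_zero hV 0
    · exact h.del_res c c' hE hE' hJ hV m _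
  empty n x := by
    funext m
    exact h.empty m.1 _
  ex0 c z h1 h2 := by
    funext m
    have h3 := congrFun h1 m
    have h4 := congrFun h2 m
    rcases m with ⟨_ | m, hm⟩
    · exact h.ex0 c _ h3 h4
    · omega
  ex1 {A A' I U} c n z h1 h2 := by
    have h3 : ∀ m : {m : ℕ // m + d = n}, ∃ u : h.h m.1 I,
        z ⟨m.1 + 1, by have := m.2; omega⟩ = h.del A A' I U m.1 u := fun m =>
      h.ex1 c m.1 (z ⟨m.1 + 1, by have := m.2; omega⟩) (congrFun h1 ⟨m.1 + 1, _⟩)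
        (congrFun h2 ⟨m.1 + 1, _⟩)
    choose u hu using h3
    refine ⟨u, ?_⟩
    funext m
    rcases m with ⟨_ | m, hm⟩
    · exact h.ex0 c _ (congrFun h1 ⟨0, hm⟩) (congrFun h2 ⟨0, hm⟩)
    · exact hu ⟨m, by omega⟩
  ex1' {A A' I U} c n u := by
    constructor
    · funext m
      rcases m with ⟨_ | m, hm⟩
      · exact h.res_zero c.AU 0
      · exact (h.ex1' c m _).1
    · funext m
      rcases m with ⟨_ | m, hm⟩
      · exact h.res_zero c.A'U 0
      · exact (h.ex1' c m _).2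
  ex2 {A A' I U} c n u hu := by
    have h3 : ∀ m : {m : ℕ // m + d = n}, ∃ (a : h.h m.1 A) (b : h.h m.1 A'),
        u m = h.res c.IA m.1 a + h.res c.IA' m.1 b := fun m =>
      h.ex2 c m.1 (u m) (congrFun hu ⟨m.1 + 1, by have := m.2; omega⟩)
    choose a b hab using h3
    exact ⟨a, b, by funext m; exact hab m⟩
  ex2' {A A' I U} c n a b := by
    funext m
    rcases m with ⟨_ | m, hm⟩
    · rfl
    · exact h.ex2' c m _ _
  ex3 {A A' I U} c n a b hab := by
    have h3 : ∀ m : {m : ℕ // m + d = n}, ∃ z : h.h m.1 U,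
        h.res c.AU m.1 z = a m ∧ h.res c.A'U m.1 z = b m := fun m =>
      h.ex3 c m.1 (a m) (b m) (congrFun hab m)
    choose z h1 h2 using h3
    exact ⟨z, by funext m; exact h1 m, by funext m; exact h2 m⟩
  c1 {A C} hAC hA hC n x hx := by
    by_cases hd : ∃ m, m + d = n
    · obtain ⟨m, rfl⟩ := hd
      obtain ⟨ρ, hρ, h1⟩ := h.c1 hAC hA hC m (x ⟨m, rfl⟩) (congrFun hx ⟨m, rfl⟩)
      refine ⟨ρ, hρ, fun N hN hAd hd => ?_⟩
      funext ⟨m', hm'⟩
      obtain rfl : m' = m := by omega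
      exact h1 N hN hAd hd
    · refine ⟨1, one_pos, fun N hN hAd _ => ?_⟩
      funext ⟨m', hm'⟩
      exact absurd ⟨m', hm'⟩ hd
  c2 {A C} hAC hA hC n y := by
    by_cases hd : ∃ m, m + d = n
    · obtain ⟨m, rfl⟩ := hd
      obtain ⟨ρ, hρ, h1⟩ := h.c2 hAC hA hC m (y ⟨m, rfl⟩)
      refine ⟨ρ, hρ, fun N hAN hN hAd hd => ?_⟩
      have h3 : ∀ m' : {m' : ℕ // m' + d = m + d}, ∃ x : h.h m'.1 N, h.res hAN m'.1 x = y m' := by
        rintro ⟨m', hm'⟩
        obtain rfl : m' = m := by omega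
        exact h1 N hAN hN hAd hd
      choose x hx using h3
      exact ⟨x, by funext m'; exact hx m'⟩
    · refine ⟨1, one_pos, fun N hAN hN hAd _ => ⟨fun m' => absurd ⟨m'.1, m'.2⟩ hd, ?_⟩⟩
      funext m'
      exact absurd ⟨m'.1, m'.2⟩ hd

end shift

end AS
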