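import Pool.Agent.Lib.MP_7cdc3e_gt.C.T4a.Defs
import Pool.Agent.Lib.AS.Bd

/-!
# Total spaces `E ⊆ B × ℝ⁴` over a compact set `P ⊆ B` and a closed symmetric set `X ⊆ S³`

`Tot E P X`: `E` is compact, invariant under `(b, x) ↦ (b, -x)` (group `PX B`), with first components in
`P` and second components in `X`.  Slices, and the theorems `W1a`, `W1b`, `W3a` for the two projections.
-/

set_option autoImplicit false
set_option linter.unusedVariables false
set_option linter.unusedSectionVars false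

namespace AS

open R3 LN

variable {B : Type} [MetricSpace B]

/-- a total space over `P` and `X` -/
structure Tot (E : Set (B × E4)) (P : Set B) (X : Set E4) : Prop where
  cpt : IsCompact E
  neg : ∀ q ∈ E, (q.1, -q.2) ∈ E
  m1 : ∀ q ∈ E, q.1 ∈ P
  m2 : ∀ q ∈ E, q.2 ∈ X
  cP : IsCompact P
  cX : Cs (Pm E4) X

namespace Tot

variable {E : Set (B × E4)} {P : Set B} {X : Set E4}

theorem ok (h : Tot E P X) : Ok (PX B) E :=
  ⟨h.cpt, ivS_PX.mpr h.neg, fr_PX fun q hq => h.cX.sub (h.m2 q hq)⟩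

theorem fib1 (h : Tot E P X) : Fib (PX B) ∅ E ⊥ ∅ P Prod.fst where
  fb := ⟨h.ok, OkD.empty _, continuous_fst.continuousOn, eqv_fst⟩
  fin := by
    have : ((⊥ : Subgroup (B ≃ᵢ B)) : Set (B ≃ᵢ B)) = {1} := rfl
    rw [this]
    exact Set.finite_singleton _
  okS := ⟨h.cP, IvS.bot P, Fr.bot P⟩
  okD' := OkD.empty _
  maps := h.m1
  hD := fun _ _ => Iff.rfl

theorem fib2 (h : Tot E P X) : Fib (PX B) ∅ E (Pm E4) ∅ X Prod.snd where
  fb := ⟨h.ok, OkD.empty _, continuous_snd.continuousOn, eqv_snd⟩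
  fin := fin_Pm
  okS := h.cX.ok gp_Pm
  okD' := OkD.empty _
  maps := h.m2
  hD := fun _ _ => Iff.rfl

theorem quo (h : Tot E P X) : Quo (PX B) ⊥ E (Pm E4) Prod.snd where
  fin := fin_PX
  le := bot_le
  triv := fun g hg x => by
    rw [Subgroup.mem_bot.mp hg]
    rfl
  free := by
    rintro g (rfl | rfl) hg q hq
    · exact (hg (Subgroup.one_mem _)).elim
    · intro h1
      exact ne_neg_of_mem (h.cX.sub (h.m2 q hq)) h1.symm
  surj := by
    rintro g' (rfl | rfl)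
    · exact ⟨1, Subgroup.one_mem _, fun _ => rfl⟩
    · exact ⟨ngX B, ngX_mem, fun _ => rfl⟩

end Tot

/-! ### slices -/

section slices

variable {F : Set E4} {G : Set B}

/-- the slice over a point of `B`, insertion -/
theorem adm_ins1 (b : B) (F : Set E4) :
    Adm (Pm E4) ∅ F (PX B) ∅ ({b} ×ˢ F) (fun x => (b, x)) := by
  refine ⟨fun x hx => ⟨rfl, hx⟩, fun _ _ hx => hx.elim, fun ε hε => ⟨ε, hε, fun x _ y _ hd => ?_⟩, ?_⟩
  · rw [Prod.dist_eq, dist_self]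
    exact max_lt hε hd
  · rintro g (rfl | rfl)
    · exact ⟨1, Or.inl rfl, fun _ => rfl⟩
    · exact ⟨ngX B, ngX_mem, fun _ => rfl⟩

/-- the slice over a point of `B`, projection -/
theorem adm_prj1 {E : Set (B × E4)} {F : Set E4} (h : ∀ q ∈ E, q.2 ∈ F) :
    Adm (PX B) ∅ E (Pm E4) ∅ F Prod.snd :=
  ⟨h, fun _ _ hx => hx.elim, fun ε hε => ⟨ε, hε, fun _ _ _ _ hd =>
    (le_max_right _ _).trans_lt (by rwa [Prod.dist_eq] at hd)⟩, eqv_snd⟩

/-- the slice over a point of `E4`, insertion -/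
theorem adm_ins2 (p : E4) (G : Set B) :
    Adm (⊥ : Subgroup (B ≃ᵢ B)) ∅ G (⊥ : Subgroup ((B × E4) ≃ᵢ (B × E4))) ∅ (G ×ˢ {p})
      (fun b => (b, p)) := by
  refine ⟨fun x hx => ⟨hx, rfl⟩, fun _ _ hx => hx.elim, fun ε hε => ⟨ε, hε, fun x _ y _ hd => ?_⟩, ?_⟩
  · rw [Prod.dist_eq, dist_self]
    exact max_lt hd hε
  · intro g hg
    refine ⟨1, Subgroup.one_mem _, fun x => ?_⟩
    rw [Subgroup.mem_bot.mp hg]
    rfl

/-- the slice over a point of `E4`, projection -/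
theorem adm_prj2 {E : Set (B × E4)} {G : Set B} (h : ∀ q ∈ E, q.1 ∈ G) :
    Adm (⊥ : Subgroup ((B × E4) ≃ᵢ (B × E4))) ∅ E (⊥ : Subgroup (B ≃ᵢ B)) ∅ G Prod.fst :=
  ⟨h, fun _ _ hx => hx.elim, fun ε hε => ⟨ε, hε, fun _ _ _ _ hd =>
    (le_max_left _ _).trans_lt (by rwa [Prod.dist_eq] at hd)⟩, fun g hg =>
    ⟨1, Subgroup.one_mem _, fun q => by rw [Subgroup.mem_bot.mp hg]; rfl⟩⟩

theorem slice1_bij (b : B) (F : Set E4) (n : ℕ) :
    Function.Bijective (pull (Prod.snd : B × E4 → E4)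
      (adm_prj1 (E := ({b} : Set B) ×ˢ F) (F := F) fun _ hq => hq.2) n) :=
  P33.pull_bij _ (adm_ins1 b F) (fun q hq => Prod.ext (Set.mem_singleton_iff.mp hq.1).symm rfl)
    (fun _ _ => rfl) n

theorem slice2_bij (p : E4) (G : Set B) (n : ℕ) :
    Function.Bijective (pull (Prod.fst : B × E4 → B)
      (adm_prj2 (E := G ×ˢ ({p} : Set E4)) (G := G) fun _ hq => hq.1) n) :=
  P33.pull_bij _ (adm_ins2 p G) (fun q hq => Prod.ext rfl (Set.mem_singleton_iff.mp hq.2).symm)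
    (fun _ _ => rfl) n

/-- slices over points of `B` -/
theorem slice1 (b : B) {F : Set E4} (h : Acy (Pm E4) F) : Acy (PX B) (({b} : Set B) ×ˢ F) :=
  P33.Acy.of_pull _ (slice1_bij b F) h

/-- slices over points of `E4` -/
theorem slice2 (p : E4) {G : Set B} (h : Acy (⊥ : Subgroup (B ≃ᵢ B)) G) :
    Acy (⊥ : Subgroup ((B × E4) ≃ᵢ (B × E4))) (G ×ˢ ({p} : Set E4)) :=
  P33.Acy.of_pull _ (slice2_bij p G) h

end slices

theorem ov_fst (E : Set (B × E4)) (p : B) :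
    ov E Prod.fst {p} = {p} ×ˢ {x | (p, x) ∈ E} := by
  ext ⟨b, x⟩
  constructor
  · rintro ⟨h1, h2⟩
    have h3 : b = p := h2
    subst h3
    exact ⟨rfl, h1⟩
  · rintro ⟨h1, h2⟩
    have h3 : b = p := h1
    subst h3
    exact ⟨h2, rfl⟩

theorem ov_snd (E : Set (B × E4)) (x : E4) :
    ov E Prod.snd {x} = {b | (b, x) ∈ E} ×ˢ {x} := by
  ext ⟨b, y⟩
  constructor
  · rintro ⟨h1, h2⟩
    have h3 : y = x := h2
    subst h3
    exact ⟨h1, rfl⟩
  · rintro ⟨h1, h2⟩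
    have h3 : y = x := h2
    subst h3
    exact ⟨h1, rfl⟩

theorem Tot.ov1 {E : Set (B × E4)} {P : Set B} {X : Set E4} (h : Tot E P X) :
    ov E Prod.fst P = E := by
  ext q
  exact ⟨fun hq => hq.1, fun hq => ⟨hq, h.m1 q hq⟩⟩

theorem Tot.ov2 {E : Set (B × E4)} {P : Set B} {X : Set E4} (h : Tot E P X) :
    ov E Prod.snd X = E := by
  ext q
  exact ⟨fun hq => hq.1, fun hq => ⟨hq, h.m2 q hq⟩⟩

/-- **Vietoris-Begle for the first projection** -/
theorem Tot.vb1 (w : W1a) {E : Set (B × E4)} {P : Set B} {X : Set E4} (h : Tot E P X)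
    (ha : ∀ p ∈ P, Acy (Pm E4) {x | (p, x) ∈ E})
    (hA : Adm (PX B) ∅ E (⊥ : Subgroup (B ≃ᵢ B)) ∅ P Prod.fst) (n : ℕ) :
    Function.Bijective (pull Prod.fst hA n) := by
  have key : ∀ E', E' = E → ∀ hA' : Adm (PX B) ∅ E' (⊥ : Subgroup (B ≃ᵢ B)) ∅ P Prod.fst,
      Function.Bijective (pull Prod.fst hA' n) → Function.Bijective (pull Prod.fst hA n) := by
    rintro E' rfl hA' h1
    exact h1
  exact key _ h.ov1 (h.fib1.adm P) (w _ _ _ _ _ _ _ _ h.fib1 (fun p hp _ => by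
    rw [ov_fst]
    exact slice1 p (ha p hp)) P h.cP subset_rfl n)

/-- **Vietoris-Begle for the second projection** -/
theorem Tot.vb2 (w : W1b) {E : Set (B × E4)} {P : Set B} {X : Set E4} (h : Tot E P X)
    (ha : ∀ x ∈ X, Acy (⊥ : Subgroup (B ≃ᵢ B)) {b | (b, x) ∈ E})
    (hA : Adm (PX B) ∅ E (Pm E4) ∅ X Prod.snd) (n : ℕ) :
    Function.Bijective (pull Prod.snd hA n) := by
  have key : ∀ E', E' = E → ∀ hA' : Adm (PX B) ∅ E' (Pm E4) ∅ X Prod.snd,
      Function.Bijective (pull Prod.snd hA' n) → Function.Bijective (pull Prod.snd hA n) := by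
    rintro E' rfl hA' h1
    exact h1
  exact key _ h.ov2 (h.fib2.adm X) (w _ _ _ _ _ _ _ _ _ _ h.fib2 h.quo (fun x hx _ => by
    rw [ov_snd]
    exact slice2 x (ha x hx)) X ⟨h.cX.cpt, h.cX.inv, subset_rfl⟩ n)

/-- the identity of the cohomology of the base factors through an acyclic space -/
theorem acy_of_factor (n2 : N2) {X : Type} [MetricSpace X] {Γ : Subgroup (X ≃ᵢ X)}
    {E E' : Set X} (hE : E ⊆ E') {P : Set B} (f : X → B) (h : Adm Γ ∅ E ⊥ ∅ P f)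
    (h' : Adm Γ ∅ E' ⊥ ∅ P f) (hb : ∀ n, Function.Injective (pull f h n)) (ha : Acy Γ E')
    (hP : P.Nonempty) : Acy (⊥ : Subgroup (B ≃ᵢ B)) P := by
  have hr : ∀ (n : ℕ) (x : H (⊥ : Subgroup (B ≃ᵢ B)) ∅ n P),
      pull f h n x = res hE n (pull f h' n x) := by
    intro n x
    rw [res_pull h' h hE subset_rfl, res_self]
  refine ⟨fun x => ?_, (n2 B ⊥ P).2 hP, fun n x => ?_⟩
  · rcases ha.1 (pull f h' 0 x) with h1 | h1
    · left
      apply hb 0
      rw [hr, h1, map_zero, map_zero]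
    · right
      apply hb 0
      rw [hr, h1, P33.res_one, P33.pull_one]
  · apply hb (n + 1)
    rw [hr, ha.2.2 n (pull f h' (n + 1) x), map_zero, map_zero]

end AS
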