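import Pool.Agent.Lib.AS.SpecLG2

/-!
# The relative Leray-Hirsch theorem with basis `1, a, c, e` over an ordinary compact base
-/

set_option autoImplicit false

namespace AS

namespace W4ax

variable {X B : Type} [MetricSpace X] [MetricSpace B] {Γ : Subgroup (X ≃ᵢ X)} {D E : Set X}
  {Γ' : Subgroup (B ≃ᵢ B)} {D' S : Set B} {f : X → B}

/-- the theory of the base -/
noncomputable def hB (M : AllM) (h : Fib Γ D E Γ' D' S f) : CTh Γ' S :=
  mkTh M (SF.self h.okD' h.okS.fr)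

/-- the theory of the total space -/
noncomputable def hE (M : AllM) (hL : L3) (h : Fib Γ D E Γ' D' S f) : CTh Γ' S :=
  mkTh M (h.fb.sf hL S)

/-- pullback -/
noncomputable def T0 (M : AllM) (hL : L3) (h : Fib Γ D E Γ' D' S f) :
    CMor (hB M h) (hE M hL h) :=
  pullMor M (h.fb.sf hL S) (SF.self h.okD' h.okS.fr) f h.adm

/-- pullback and product with `b` -/
noncomputable def Tc (M : AllM) (hL : L3) (h : Fib Γ D E Γ' D' S f) (d : ℕ) (b : H Γ ∅ d E) :
    CMor ((hB M h).shift d) (hE M hL h) :=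
  (cupMor M (h.fb.sf hL S) (ov_sub E f) d b).comp ((T0 M hL h).shift d)

/-- the sum of all four -/
noncomputable def T4 (M : AllM) (hL : L3) (h : Fib Γ D E Γ' D' S f) (a : H Γ ∅ 1 E)
    (c : H Γ ∅ 2 E) (e : H Γ ∅ 3 E) :
    CMor ((hB M h).prod (((hB M h).shift 1).prod (((hB M h).shift 2).prod ((hB M h).shift 3))))
      (hE M hL h) :=
  (T0 M hL h).fromProd ((Tc M hL h 1 a).fromProd ((Tc M hL h 2 c).fromProd (Tc M hL h 3 e)))

/-- the components of the source -/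
abbrev Sl (Γ' : Subgroup (B ≃ᵢ B)) (D' : Set B) (d n : ℕ) (C : Set B) : Type :=
  ∀ m' : {m' : ℕ // m' + d = n}, H Γ' D' m'.1 C

theorem Tc_val (M : AllM) (hL : L3) (h : Fib Γ D E Γ' D' S f) {d m n : ℕ} (b : H Γ ∅ d E)
    (hm : m + d = n) (C : Set B) (y : Sl Γ' D' d n C) :
    (Tc M hL h d b).T n C y = (cupH D n (pull f (h.adm C) m (y ⟨m, hm⟩))
      (res (ov_sub E f C) d b) : H Γ D n (ov E f C)) := by
  have hd : d ≤ n := by omega
  have h1 : (Tc M hL h d b).T n C y = (if hd : d ≤ n then (cupH D n (pull f (h.adm C) (n - d)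
        (y ⟨n - d, Nat.sub_add_cancel hd⟩)) (res (ov_sub E f C) d b) :
          H Γ D n (ov E f C)) else (0 : H Γ D n (ov E f C))) := rfl
  have h2 : ∀ (m' : ℕ) (hm' : m' + d = n),
      (cupH D n (pull f (h.adm C) m' (y ⟨m', hm'⟩)) (res (ov_sub E f C) d b) :
        H Γ D n (ov E f C)) =
      cupH D n (pull f (h.adm C) m (y ⟨m, hm⟩)) (res (ov_sub E f C) d b) := by
    intro m' hm'
    obtain rfl : m' = m := by omega
    rfl
  rw [h1, dif_pos hd]
  exact h2 _ _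

theorem ev_bij {d m n : ℕ} (hm : m + d = n) (C : Set B) :
    Function.Bijective (fun y : Sl Γ' D' d n C => y ⟨m, hm⟩) := by
  subst hm
  constructor
  · intro y y' hyy
    have h2 : y ⟨m, rfl⟩ = y' ⟨m, rfl⟩ := hyy
    funext m'
    obtain ⟨m', hm'⟩ := m'
    obtain rfl : m' = m := by omega
    exact h2
  · intro y
    refine ⟨fun m' => cast (by
      obtain ⟨m', hm'⟩ := m'
      obtain rfl : m' = m := by omega
      rfl) y, ?_⟩
    rfl

theorem slot_zero {d n : ℕ} {C : Set B} (hz : ∀ k, k + d = n → ∀ z : H Γ' D' k C, z = 0)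
    (y : Sl Γ' D' d n C) : y = 0 := funext fun m' => hz m'.1 m'.2 (y m')

theorem slot_gen {d : ℕ} {C : Set B} {u : H Γ' D' 0 C} (hu : ∀ z : H Γ' D' 0 C, z = 0 ∨ z = u) :
    ∃ g : Sl Γ' D' d d C, g ⟨0, zero_add d⟩ = u ∧ ∀ y : Sl Γ' D' d d C, y = 0 ∨ y = g := by
  have hb := ev_bij (Γ' := Γ') (D' := D') (zero_add d) C
  obtain ⟨g, hg⟩ := hb.2 u
  refine ⟨g, hg, fun y => ?_⟩
  rcases hu (y ⟨0, zero_add d⟩) with h | h
  · exact Or.inl (hb.1 h)
  · exact Or.inr (hb.1 (Eq.trans h hg.symm))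

/-- the explicit map -/
noncomputable def F4 (h : Fib Γ D E Γ' D' S f) (a : H Γ ∅ 1 E)
    (c : H Γ ∅ 2 E) (e : H Γ ∅ 3 E) (m : ℕ) (C : Set B)
    (z : H Γ' D' (m + 3) C × H Γ' D' (m + 2) C × H Γ' D' (m + 1) C × H Γ' D' m C) :
    H Γ D (m + 3) (ov E f C) :=
  pull f (h.adm C) (m + 3) z.1 +
    cupH D (m + 3) (pull f (h.adm C) (m + 2) z.2.1) (res (ov_sub E f C) 1 a) +
    cupH D (m + 3) (pull f (h.adm C) (m + 1) z.2.2.1) (res (ov_sub E f C) 2 c) +
    cupH D (m + 3) (pull f (h.adm C) m z.2.2.2) (res (ov_sub E f C) 3 e)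

/-- the four components -/
theorem T4_val (M : AllM) (hL : L3) (h : Fib Γ D E Γ' D' S f) (a : H Γ ∅ 1 E)
    (c : H Γ ∅ 2 E) (e : H Γ ∅ 3 E) (n : ℕ) (C : Set B) (x0 : H Γ' D' n C)
    (x1 : Sl Γ' D' 1 n C) (x2 : Sl Γ' D' 2 n C) (x3 : Sl Γ' D' 3 n C) :
    (T4 M hL h a c e).T n C (x0, x1, x2, x3) = (T0 M hL h).T n C x0 +
      ((Tc M hL h 1 a).T n C x1 + ((Tc M hL h 2 c).T n C x2 + (Tc M hL h 3 e).T n C x3)) := rfl

theorem asc {A : Type} [AddCommGroup A] (w x y z : A) : w + (x + (y + z)) = w + x + y + z := by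
  rw [← add_assoc, ← add_assoc]

theorem high (M : AllM) (hL : L3) (h : Fib Γ D E Γ' D' S f) (a : H Γ ∅ 1 E)
    (c : H Γ ∅ 2 E) (e : H Γ ∅ 3 E) (m : ℕ) (C : Set B)
    (hT : Function.Bijective ((T4 M hL h a c e).T (m + 3) C)) :
    Function.Bijective (F4 h a c e m C) := by
  let ev : H Γ' D' (m + 3) C × Sl Γ' D' 1 (m + 3) C × Sl Γ' D' 2 (m + 3) C ×
      Sl Γ' D' 3 (m + 3) C → H Γ' D' (m + 3) C × H Γ' D' (m + 2) C × H Γ' D' (m + 1) C ×
      H Γ' D' m C :=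
    Prod.map id (Prod.map (fun y => y ⟨m + 2, rfl⟩) (Prod.map (fun y => y ⟨m + 1, rfl⟩)
      (fun y => y ⟨m, rfl⟩)))
  have hev : Function.Bijective ev :=
    Function.Bijective.prodMap Function.bijective_id (Function.Bijective.prodMap
      (ev_bij (m := m + 2) rfl C) (Function.Bijective.prodMap (ev_bij (m := m + 1) rfl C)
        (ev_bij (m := m) rfl C)))
  have hc : (T4 M hL h a c e).T (m + 3) C = F4 h a c e m C ∘ ev := by
    funext x
    obtain ⟨x0, x1, x2, x3⟩ := x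
    have e1 := Tc_val M hL h a (m := m + 2) (n := m + 3) rfl C x1
    have e2 := Tc_val M hL h c (m := m + 1) (n := m + 3) rfl C x2
    have e3 := Tc_val M hL h e (m := m) (n := m + 3) rfl C x3
    rw [T4_val, e1, e2, e3]
    change (pull f (h.adm C) (m + 3) x0 +
      (cupH D (m + 3) (pull f (h.adm C) (m + 2) (x1 ⟨m + 2, rfl⟩)) (res (ov_sub E f C) 1 a) +
      (cupH D (m + 3) (pull f (h.adm C) (m + 1) (x2 ⟨m + 1, rfl⟩)) (res (ov_sub E f C) 2 c) +
      cupH D (m + 3) (pull f (h.adm C) m (x3 ⟨m, rfl⟩)) (res (ov_sub E f C) 3 e))) :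
        H Γ D (m + 3) (ov E f C)) = pull f (h.adm C) (m + 3) x0 +
      cupH D (m + 3) (pull f (h.adm C) (m + 2) (x1 ⟨m + 2, rfl⟩)) (res (ov_sub E f C) 1 a) +
      cupH D (m + 3) (pull f (h.adm C) (m + 1) (x2 ⟨m + 1, rfl⟩)) (res (ov_sub E f C) 2 c) +
      cupH D (m + 3) (pull f (h.adm C) m (x3 ⟨m, rfl⟩)) (res (ov_sub E f C) 3 e)
    exact asc _ _ _ _
  rw [hc] at hT
  exact (Function.Bijective.of_comp_iff _ hev).mp hT

theorem bij2 {A A' : Type} [AddCommGroup A] [AddCommGroup A'] {t : A → A'} (t0 : t 0 = 0) {g : A}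
    (hg : ∀ x, x = 0 ∨ x = g) (hg' : t g ≠ 0) (ht : ∀ y, y = 0 ∨ y = t g) :
    Function.Bijective t := by
  constructor
  · intro x x' hxx
    rcases hg x with rfl | rfl <;> rcases hg x' with rfl | rfl
    · rfl
    · rw [t0] at hxx
      exact absurd hxx.symm hg'
    · rw [t0] at hxx
      exact absurd hxx hg'
    · rfl
  · intro y
    rcases ht y with rfl | rfl
    · exact ⟨0, t0⟩
    · exact ⟨g, rfl⟩

theorem pull_one' {C' : Set B} {C : Set X} (h : Adm Γ ∅ C Γ' ∅ C' f) :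
    pull f h 0 (one Γ' C') = one Γ C := by
  unfold one
  rw [pull_cl]

/-- the comparison maps with the absolute groups -/
noncomputable def cmp (Γ : Subgroup (X ≃ᵢ X)) (D : Set X) (n : ℕ) (F : Set X) :
    H Γ D n F →+ H Γ ∅ n F :=
  pull (fun x => x) (Adm.id' (D := ∅) (D' := D) le_rfl (Set.Subset.refl F)
    fun _ _ hx => hx.elim) n

theorem cmp_pull (h : Fib Γ D E Γ' D' S f) (C : Set B) (n : ℕ) (x : H Γ' D' n C) :
    cmp Γ D n (ov E f C) (pull f (h.adm C) n x) =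
      pull f (h.adm0 C) n (cmp Γ' D' n C x) := by
  unfold cmp
  rw [pull_pull, pull_pull]

theorem cmp_cup {F : Set X} {p d n : ℕ} (h : p + d = n) (y : H Γ D p F) (b : H Γ ∅ d F) :
    cmp Γ D n F (cupH D n y b) = cupH ∅ n (cmp Γ D p F y) b := by
  unfold cmp
  rw [pull_cupH (D := ∅) (D' := ∅) h (Or.inl Set.inter_subset_right)
    (Or.inl Set.inter_subset_right) (Adm.id' (D := ∅) (D' := D) le_rfl
      (Set.Subset.refl F) fun _ _ hx => hx.elim) (Adm.id' (D := ∅) (D' := ∅) le_rfl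
      (Set.Subset.refl F) fun _ _ hx => hx.elim)]
  congr 1
  exact res_self (Set.Subset.refl F) b

theorem gen (h4 : L4) {C : Set B} (hC : C ∩ D' = ∅)
    (hp : ∀ x : H Γ' ∅ 0 C, x = 0 ∨ x = one Γ' C) :
    ∃ u : H Γ' D' 0 C, (∀ z : H Γ' D' 0 C, z = 0 ∨ z = u) ∧ cmp Γ' D' 0 C u = one Γ' C := by
  have hb : Function.Bijective (cmp Γ' D' 0 C) := h4 B Γ' D' C 0 hC
  obtain ⟨u, hu⟩ := hb.2 (one Γ' C)
  refine ⟨u, fun z => ?_, hu⟩
  rcases hp (cmp Γ' D' 0 C z) with h | h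
  · exact Or.inl (hb.1 (h.trans (map_zero _).symm))
  · exact Or.inr (hb.1 (h.trans hu.symm))

theorem val0 (h : Fib Γ D E Γ' D' S f) {C : Set B} {u : H Γ' D' 0 C}
    (hu : cmp Γ' D' 0 C u = one Γ' C) :
    cmp Γ D 0 (ov E f C) (pull f (h.adm C) 0 u) = one Γ (ov E f C) := by
  rw [cmp_pull h, hu, pull_one']

theorem vald (h : Fib Γ D E Γ' D' S f) {C : Set B} {u : H Γ' D' 0 C}
    (hu : cmp Γ' D' 0 C u = one Γ' C) (d : ℕ) (b : H Γ ∅ d (ov E f C)) :
    cmp Γ D d (ov E f C) (cupH D d (pull f (h.adm C) 0 u) b) = b := by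
  rw [cmp_cup (zero_add d), val0 h hu, one_cupH]

/-- a degree with two elements -/
theorem two {A : Type} [AddCommGroup A] (h4 : L4) {n : ℕ} {F : Set X} (hF : F ∩ D = ∅)
    {t : A → H Γ D n F} (t0 : t 0 = 0) {g : A} (hg : ∀ x, x = 0 ∨ x = g) {b : H Γ ∅ n F}
    (hb : b ≠ 0) (hbb : ∀ x : H Γ ∅ n F, x = 0 ∨ x = b) (hv : cmp Γ D n F (t g) = b) :
    Function.Bijective t := by
  have hbij : Function.Bijective (cmp Γ D n F) := h4 X Γ D F n hF
  refine bij2 t0 hg ?_ ?_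
  · intro h
    rw [h, map_zero] at hv
    exact hb hv.symm
  · intro y
    rcases hbb (cmp Γ D n F y) with h | h
    · exact Or.inl (hbij.1 (h.trans (map_zero _).symm))
    · exact Or.inr (hbij.1 (h.trans hv.symm))

theorem point (M : AllM) (hL : L3) (h4 : L4) (h : Fib Γ D E Γ' D' S f) (a : H Γ ∅ 1 E)
    (c : H Γ ∅ 2 E) (e : H Γ ∅ 3 E) {C : Set B} (hAd : Ad Γ' S C) (hC : C ∩ D' = ∅)
    (hCE : ov E f C ∩ D = ∅) (q0 : ∀ x : H Γ' ∅ 0 C, x = 0 ∨ x = one Γ' C)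
    (q1 : ∀ (k : ℕ) (x : H Γ' D' (k + 1) C), x = 0)
    (b4 : Bas4 Γ (ov E f C) (res (ov_sub E f C) 1 a) (res (ov_sub E f C) 2 c)
      (res (ov_sub E f C) 3 e)) (n : ℕ) : Function.Bijective ((T4 M hL h a c e).T n C) := by
  obtain ⟨u, hu, hu1⟩ := gen h4 hC q0
  obtain ⟨o1, o2, a1, a2, c1, c2, e1, e2, hz⟩ := b4
  have z0 : ∀ k, k ≠ 0 → ∀ z : H Γ' D' k C, z = 0 := by
    intro k hk z
    obtain ⟨k, rfl⟩ : ∃ k', k = k' + 1 := ⟨k - 1, by omega⟩
    exact q1 k z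
  have t0 : ∀ n, (T4 M hL h a c e).T n C 0 = 0 := fun n => (T4 M hL h a c e).zero hAd n
  have y0 : ∀ n, (T0 M hL h).T n C 0 = 0 := fun n => (T0 M hL h).zero hAd n
  have y1 : ∀ n, (Tc M hL h 1 a).T n C 0 = 0 := fun n => (Tc M hL h 1 a).zero hAd n
  have y2 : ∀ n, (Tc M hL h 2 c).T n C 0 = 0 := fun n => (Tc M hL h 2 c).zero hAd n
  have y3 : ∀ n, (Tc M hL h 3 e).T n C 0 = 0 := fun n => (Tc M hL h 3 e).zero hAd n
  obtain rfl | rfl | rfl | rfl | ⟨n, rfl⟩ : n = 0 ∨ n = 1 ∨ n = 2 ∨ n = 3 ∨ ∃ m, n = m + 4 := by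
    by_cases hn : n < 4
    · omega
    · exact Or.inr (Or.inr (Or.inr (Or.inr ⟨n - 4, by omega⟩)))
  · refine two h4 hCE (t0 0) (g := (u, 0, 0, 0)) ?_ o2 o1 ?_
    · rintro ⟨x0, x1, x2, x3⟩
      have s1 : x1 = 0 := slot_zero (fun k hk => by omega) x1
      have s2 : x2 = 0 := slot_zero (fun k hk => by omega) x2
      have s3 : x3 = 0 := slot_zero (fun k hk => by omega) x3
      subst s1
      subst s2
      subst s3
      rcases hu x0 with rfl | rfl
      · exact Or.inl rfl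
      · exact Or.inr rfl
    · rw [T4_val, y1, y2, y3, add_zero, add_zero, add_zero]
      exact val0 h hu1
  · obtain ⟨g, hg, hg'⟩ := slot_gen (d := 1) hu
    refine two h4 hCE (t0 1) (g := (0, g, 0, 0)) ?_ a2 a1 ?_
    · rintro ⟨x0, x1, x2, x3⟩
      have s0 : x0 = 0 := z0 1 one_ne_zero x0
      have s2 : x2 = 0 := slot_zero (fun k hk => by omega) x2
      have s3 : x3 = 0 := slot_zero (fun k hk => by omega) x3
      subst s0
      subst s2
      subst s3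
      rcases hg' x1 with rfl | rfl
      · exact Or.inl rfl
      · exact Or.inr rfl
    · rw [T4_val, y0, y2, y3, zero_add, add_zero, add_zero,
        Tc_val M hL h a (zero_add 1) C g, hg]
      exact vald h hu1 1 _
  · obtain ⟨g, hg, hg'⟩ := slot_gen (d := 2) hu
    refine two h4 hCE (t0 2) (g := (0, 0, g, 0)) ?_ c2 c1 ?_
    · rintro ⟨x0, x1, x2, x3⟩
      have s0 : x0 = 0 := z0 2 two_ne_zero x0
      have s1 : x1 = 0 := slot_zero (fun k hk => z0 k (by omega)) x1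
      have s3 : x3 = 0 := slot_zero (fun k hk => by omega) x3
      subst s0
      subst s1
      subst s3
      rcases hg' x2 with rfl | rfl
      · exact Or.inl rfl
      · exact Or.inr rfl
    · rw [T4_val, y0, y1, y3, zero_add, zero_add, add_zero,
        Tc_val M hL h c (zero_add 2) C g, hg]
      exact vald h hu1 2 _
  · obtain ⟨g, hg, hg'⟩ := slot_gen (d := 3) hu
    refine two h4 hCE (t0 3) (g := (0, 0, 0, g)) ?_ e2 e1 ?_
    · rintro ⟨x0, x1, x2, x3⟩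
      have s0 : x0 = 0 := z0 3 three_ne_zero x0
      have s1 : x1 = 0 := slot_zero (fun k hk => z0 k (by omega)) x1
      have s2 : x2 = 0 := slot_zero (fun k hk => z0 k (by omega)) x2
      subst s0
      subst s1
      subst s2
      rcases hg' x3 with rfl | rfl
      · exact Or.inl rfl
      · exact Or.inr rfl
    · rw [T4_val, y0, y1, y2, zero_add, zero_add, zero_add,
        Tc_val M hL h e (zero_add 3) C g, hg]
      exact vald h hu1 3 _
  · have hsrc : ∀ x : H Γ' D' (n + 4) C × Sl Γ' D' 1 (n + 4) C × Sl Γ' D' 2 (n + 4) C ×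
        Sl Γ' D' 3 (n + 4) C, x = 0 := by
      rintro ⟨x0, x1, x2, x3⟩
      have s0 : x0 = 0 := z0 _ (by omega) x0
      have s1 : x1 = 0 := slot_zero (fun k hk => z0 k (by omega)) x1
      have s2 : x2 = 0 := slot_zero (fun k hk => z0 k (by omega)) x2
      have s3 : x3 = 0 := slot_zero (fun k hk => z0 k (by omega)) x3
      subst s0
      subst s1
      subst s2
      subst s3
      rfl
    have hbij : Function.Bijective (cmp Γ D (n + 4) (ov E f C)) := h4 X Γ D _ _ hCE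
    refine ⟨fun x x' _ => (hsrc x).trans (hsrc x').symm, fun y => ⟨0, (t0 _).trans ?_⟩⟩
    have hy : cmp Γ D (n + 4) (ov E f C) y = 0 := hz n _
    exact (hbij.1 (hy.trans (map_zero _).symm)).symm

end W4ax

open W4ax

theorem pW4a (M : AllM) (hL : L3) (h0 : L0) (h2 : L2) (h4 : L4) (n1 : N1) (n2 : N2) : W4a := by
  intro X B _ _ Γ D E D' S f h a c e horb C hC hCS m
  have hbot : ∀ p ∈ S, orb (⊥ : Subgroup (B ≃ᵢ B)) p = {p} := fun p hp =>
    (h0 B ⊥ S p h.fin h.okS.inv hp).2.2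
  have hkey : ∀ p ∈ S, ∀ n, Function.Bijective
      ((T4 M hL h a c e).T n (orb (⊥ : Subgroup (B ≃ᵢ B)) p)) := by
    intro p hp n
    rw [hbot p hp]
    have hAd : Ad ⊥ S ({p} : Set B) :=
      ⟨isCompact_singleton, IvS.bot _, Set.singleton_subset_iff.mpr hp⟩
    by_cases hpD : p ∈ D'
    · have h1 : ({p} : Set B) ⊆ D' := Set.singleton_subset_iff.mpr hpD
      have h3 : ov E f {p} ⊆ D := fun x hx => (h.hD x hx.1).mpr (h1 hx.2)
      have hsrc : ∀ x : H ⊥ D' n {p} × Sl ⊥ D' 1 n {p} × Sl ⊥ D' 2 n {p} ×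
          Sl ⊥ D' 3 n {p}, x = 0 := by
        rintro ⟨x0, x1, x2, x3⟩
        have s0 : x0 = 0 := H_sub h1 x0
        have s1 : x1 = 0 := slot_zero (fun k _ => H_sub h1) x1
        have s2 : x2 = 0 := slot_zero (fun k _ => H_sub h1) x2
        have s3 : x3 = 0 := slot_zero (fun k _ => H_sub h1) x3
        subst s0
        subst s1
        subst s2
        subst s3
        rfl
      exact ⟨fun x x' _ => (hsrc x).trans (hsrc x').symm, fun y => ⟨0,
        ((T4 M hL h a c e).zero hAd n).trans (H_sub h3 y).symm⟩⟩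
    · have h1 : ({p} : Set B) ∩ D' = ∅ := by
        rw [Set.eq_empty_iff_forall_notMem]
        rintro _ ⟨rfl, h2⟩
        exact hpD h2
      have h3 : ov E f {p} ∩ D = ∅ := by
        rw [Set.eq_empty_iff_forall_notMem]
        rintro x ⟨hx, hxD⟩
        have h5 : f x ∈ ({p} : Set B) ∩ D' := ⟨hx.2, (h.hD x hx.1).mp hxD⟩
        rw [h1] at h5
        exact h5
      exact point M hL h4 h a c e hAd h1 h3
        ((n2 B ⊥ {p}).1 isPreconnected_singleton)
        (fun k => n1 B ⊥ D' {p} k (Set.finite_singleton p)) (horb p hp hpD) n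
  have hAdC : Ad ⊥ S C := ⟨hC, IvS.bot _, hCS⟩
  exact high M hL h a c e m C ((h2 B ⊥ S _ _ (T4 M hL h a c e) (m + 3 + 1) h.fin h.okS.inv
    (fun p hp n' _ => hkey p hp n') (fun p hp => (hkey p hp _).1) C hAdC).1 (m + 3)
    (Nat.lt_succ_self _))

end AS
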